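import Pool.Agent.Helper807.BT.Base

set_option autoImplicit false

open MeasureTheory Set
open scoped ENNReal

namespace Pool.Agent.Helper807.BT

noncomputable section

variable {X : Type*} [MeasurableSpace X]


theorem exp_nd_7104 (t : ℝ) : Complex.exp (((2 * Real.pi * t : ℝ) : ℂ) * Complex.I) =
    Complex.exp (((2 * Real.pi * (t - round t) : ℝ) : ℂ) * Complex.I) := by
  have h : ((2 * Real.pi * t : ℝ) : ℂ) * Complex.I =
      ((2 * Real.pi * (t - round t) : ℝ) : ℂ) * Complex.I + (round t : ℤ) * (2 * Real.pi * Complex.I) := by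
    push_cast
    ring
  rw [h, Complex.exp_add, Complex.exp_int_mul_two_pi_mul_I, mul_one]

theorem exp_sub_one_7104 (t : ℝ) :
    ‖Complex.exp (((2 * Real.pi * t : ℝ) : ℂ) * Complex.I) - 1‖ ≤ 2 * Real.pi * nd t := by
  rw [exp_nd_7104, mul_comm]
  refine (Real.norm_exp_I_mul_ofReal_sub_one_le).trans ?_
  rw [Real.norm_eq_abs, abs_mul, abs_of_pos Real.two_pi_pos, nd]

theorem norm_e_7104 (t : ℝ) : ‖Complex.exp (((2 * Real.pi * t : ℝ) : ℂ) * Complex.I)‖ = 1 :=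
  Complex.norm_exp_ofReal_mul_I _

theorem e_sub_7104 (s t : ℝ) : ‖Complex.exp (((2 * Real.pi * s : ℝ) : ℂ) * Complex.I) -
    Complex.exp (((2 * Real.pi * t : ℝ) : ℂ) * Complex.I)‖ ≤ 2 * Real.pi * nd (s - t) := by
  have h : Complex.exp (((2 * Real.pi * s : ℝ) : ℂ) * Complex.I) -
      Complex.exp (((2 * Real.pi * t : ℝ) : ℂ) * Complex.I) =
      Complex.exp (((2 * Real.pi * t : ℝ) : ℂ) * Complex.I) *
        (Complex.exp (((2 * Real.pi * (s - t) : ℝ) : ℂ) * Complex.I) - 1) := by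
    rw [mul_sub, ← Complex.exp_add, mul_one]
    congr 2
    push_cast
    ring
  rw [h, norm_mul, norm_e_7104, one_mul]
  exact exp_sub_one_7104 _

theorem rho_7104 {a b : ℝ} (hu : 0 ≤ a) (hu1 : a ≤ 1) (hv : 0 ≤ b) (hv1 : b ≤ 1) :
    0 ≤ (1 - a) * (1 - b) ∧ a ≤ 1 - (1 - a) * (1 - b) ∧ b ≤ 1 - (1 - a) * (1 - b) ∧
      1 - (1 - a) * (1 - b) ≤ a + b ∧ (1 - a) * (1 - b) ≤ 1 := by
  refine ⟨mul_nonneg (by linarith) (by linarith), ?_, ?_, ?_, ?_⟩ <;> nlinarith [mul_nonneg hu hv,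
    mul_nonneg hu (sub_nonneg.2 hv1), mul_nonneg hv (sub_nonneg.2 hu1),
    mul_nonneg (sub_nonneg.2 hu1) (sub_nonneg.2 hv1)]

theorem den_ge_rho_7104 {u v : ℝ × ℝ} (hu : 0 ≤ u.2) (hu1 : u.2 ≤ 1) (hv : 0 ≤ v.2)
    (hv1 : v.2 ≤ 1) : 1 - (1 - u.2) * (1 - v.2) ≤ ‖den u v‖ := by
  obtain ⟨h0, -⟩ := rho_7104 hu hu1 hv hv1
  unfold den
  refine le_trans ?_ (norm_sub_norm_le _ _)
  rw [norm_mul, norm_e_7104, mul_one, norm_one, Complex.norm_real, Real.norm_eq_abs,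
    abs_of_nonneg h0]

theorem den_ge_left {u v : ℝ × ℝ} (hu : 0 ≤ u.2) (hu1 : u.2 ≤ 1) (hv : 0 ≤ v.2) (hv1 : v.2 ≤ 1) :
    u.2 ≤ ‖den u v‖ :=
  (rho_7104 hu hu1 hv hv1).2.1.trans (den_ge_rho_7104 hu hu1 hv hv1)

theorem den_ge_right {u v : ℝ × ℝ} (hu : 0 ≤ u.2) (hu1 : u.2 ≤ 1) (hv : 0 ≤ v.2) (hv1 : v.2 ≤ 1) :
    v.2 ≤ ‖den u v‖ :=
  (rho_7104 hu hu1 hv hv1).2.2.1.trans (den_ge_rho_7104 hu hu1 hv hv1)

theorem normSq_7104 (ρ ψ : ℝ) : ‖1 - (ρ : ℂ) * Complex.exp ((ψ : ℂ) * Complex.I)‖ ^ 2 =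
    (ρ - Real.cos ψ) ^ 2 + Real.sin ψ ^ 2 := by
  rw [Complex.sq_norm, Complex.normSq_apply, Complex.exp_mul_I]
  have h1 : (1 - (ρ : ℂ) * (Complex.cos ψ + Complex.sin ψ * Complex.I)).re =
      1 - ρ * Real.cos ψ := by
    simp [Complex.cos_ofReal_re]
  have h2 : (1 - (ρ : ℂ) * (Complex.cos ψ + Complex.sin ψ * Complex.I)).im =
      - (ρ * Real.sin ψ) := by
    simp [Complex.sin_ofReal_re]
  rw [h1, h2]
  have h3 := Real.sin_sq_add_cos_sq ψ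
  have h4 : Real.sin ψ ^ 2 = 1 - Real.cos ψ ^ 2 := by linarith
  have h5 : -(ρ * Real.sin ψ) * -(ρ * Real.sin ψ) = ρ ^ 2 * Real.sin ψ ^ 2 := by ring
  rw [h5, h4]
  ring

theorem den_ge_nd {u v : ℝ × ℝ} (hu : 0 ≤ u.2) (hu1 : u.2 ≤ 1) (hv : 0 ≤ v.2) (hv1 : v.2 ≤ 1) :
    2 * nd (u.1 - v.1) ≤ ‖den u v‖ := by
  obtain ⟨h0, -, -, -, h1⟩ := rho_7104 hu hu1 hv hv1
  unfold den nd
  rw [exp_nd_7104]
  generalize (1 - u.2) * (1 - v.2) = ρ at *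
  have hd : |u.1 - v.1 - round (u.1 - v.1)| ≤ 1 / 2 := abs_sub_round _
  generalize u.1 - v.1 - round (u.1 - v.1) = d at *
  refine abs_le_of_sq_le_sq' ?_ (norm_nonneg _) |>.2
  rw [normSq_7104]
  have hpi := Real.pi_pos
  rcases le_or_gt |d| (1 / 4) with h | h
  · have h2 := Real.mul_abs_le_abs_sin (x := 2 * Real.pi * d) (by
      rw [abs_mul, abs_of_pos Real.two_pi_pos]
      nlinarith)
    rw [abs_mul, abs_of_pos Real.two_pi_pos] at h2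
    have h3 : 2 / Real.pi * (2 * Real.pi * |d|) = 4 * |d| := by
      field_simp
      ring
    rw [h3] at h2
    have h4 : (4 * |d|) ^ 2 ≤ Real.sin (2 * Real.pi * d) ^ 2 := by
      rw [← sq_abs (Real.sin _)]
      exact pow_le_pow_left₀ (by positivity) h2 2
    nlinarith [sq_nonneg (ρ - Real.cos (2 * Real.pi * d)), sq_nonneg (|d|)]
  · have hc : Real.cos (2 * Real.pi * d) ≤ 0 := by
      rw [← Real.cos_abs, abs_mul, abs_of_pos Real.two_pi_pos]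
      exact Real.cos_nonpos_of_pi_div_two_le_of_le (by nlinarith) (by nlinarith)
    have h5 := Real.sin_sq_add_cos_sq (2 * Real.pi * d)
    have h6 : (2 * |d|) ^ 2 ≤ 1 := by
      have : 2 * |d| ≤ 1 := by linarith
      have h7 : (2 * |d|) ^ 2 ≤ 1 ^ 2 := pow_le_pow_left₀ (by positivity) this 2
      linarith
    nlinarith [mul_nonneg h0 (neg_nonneg.2 hc), sq_nonneg ρ]

theorem den_le {u v : ℝ × ℝ} (hu : 0 ≤ u.2) (hu1 : u.2 ≤ 1) (hv : 0 ≤ v.2) (hv1 : v.2 ≤ 1) :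
    ‖den u v‖ ≤ u.2 + v.2 + 2 * Real.pi * nd (u.1 - v.1) := by
  obtain ⟨h0, -, -, h2, h1⟩ := rho_7104 hu hu1 hv hv1
  unfold den
  have h3 := exp_sub_one_7104 (u.1 - v.1)
  generalize (1 - u.2) * (1 - v.2) = ρ at *
  generalize Complex.exp (((2 * Real.pi * (u.1 - v.1) : ℝ) : ℂ) * Complex.I) = e at *
  have h4 : (1 : ℂ) - (ρ : ℂ) * e = ((1 - ρ : ℝ) : ℂ) - (ρ : ℂ) * (e - 1) := by
    push_cast; ring
  rw [h4]
  refine (norm_sub_le _ _).trans ?_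
  rw [norm_mul, Complex.norm_real, Complex.norm_real, Real.norm_eq_abs, Real.norm_eq_abs,
    abs_of_nonneg h0, abs_of_nonneg (by linarith : (0 : ℝ) ≤ 1 - ρ)]
  have h5 : ρ * ‖e - 1‖ ≤ 1 * ‖e - 1‖ := mul_le_mul_of_nonneg_right h1 (norm_nonneg _)
  linarith

theorem sub_aux_7104 {a a' b : ℝ} {e e' : ℂ} {δ : ℝ} (ha' : 0 ≤ a') (ha1' : a' ≤ 1)
    (hb : 0 ≤ b) (hb1 : b ≤ 1) (he : ‖e‖ = 1) (hee : ‖e - e'‖ ≤ δ) :
    ‖(1 - (((1 - a) * (1 - b) : ℝ) : ℂ) * e) - (1 - (((1 - a') * (1 - b) : ℝ) : ℂ) * e')‖ ≤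
      |a - a'| + δ := by
  have h : (1 - (((1 - a) * (1 - b) : ℝ) : ℂ) * e) - (1 - (((1 - a') * (1 - b) : ℝ) : ℂ) * e') =
      ((1 - b : ℝ) : ℂ) * (((a - a' : ℝ) : ℂ) * e - ((1 - a' : ℝ) : ℂ) * (e - e')) := by
    push_cast; ring
  rw [h, norm_mul, Complex.norm_real, Real.norm_eq_abs, abs_of_nonneg (by linarith)]
  have h2 : ‖((a - a' : ℝ) : ℂ) * e - ((1 - a' : ℝ) : ℂ) * (e - e')‖ ≤ |a - a'| + δ := by
    refine (norm_sub_le _ _).trans ?_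
    rw [norm_mul, norm_mul, he, mul_one, Complex.norm_real, Complex.norm_real, Real.norm_eq_abs,
      Real.norm_eq_abs, abs_of_nonneg (by linarith : (0 : ℝ) ≤ 1 - a')]
    have : (1 - a') * ‖e - e'‖ ≤ 1 * ‖e - e'‖ :=
      mul_le_mul_of_nonneg_right (by linarith) (norm_nonneg _)
    linarith
  have h3 := norm_nonneg (((a - a' : ℝ) : ℂ) * e - ((1 - a' : ℝ) : ℂ) * (e - e'))
  calc (1 - b) * ‖((a - a' : ℝ) : ℂ) * e - ((1 - a' : ℝ) : ℂ) * (e - e')‖ ≤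
      1 * ‖((a - a' : ℝ) : ℂ) * e - ((1 - a' : ℝ) : ℂ) * (e - e')‖ :=
        mul_le_mul_of_nonneg_right (by linarith) h3
    _ ≤ _ := by rw [one_mul]; exact h2

theorem den_sub_le {u u' v : ℝ × ℝ} (hu : 0 ≤ u.2) (hu1 : u.2 ≤ 1) (hu' : 0 ≤ u'.2)
    (hu1' : u'.2 ≤ 1) (hv : 0 ≤ v.2) (hv1 : v.2 ≤ 1) :
    ‖den u v - den u' v‖ ≤ |u.2 - u'.2| + 2 * Real.pi * nd (u.1 - u'.1) := by
  unfold den
  refine sub_aux_7104 hu' hu1' hv hv1 (norm_e_7104 _) ?_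
  refine (e_sub_7104 _ _).trans (le_of_eq ?_)
  congr 2
  ring

theorem den_sub_le_right {u v v' : ℝ × ℝ} (hu : 0 ≤ u.2) (hu1 : u.2 ≤ 1) (hv : 0 ≤ v.2)
    (hv1 : v.2 ≤ 1) (hv' : 0 ≤ v'.2) (hv1' : v'.2 ≤ 1) :
    ‖den u v - den u v'‖ ≤ |v.2 - v'.2| + 2 * Real.pi * nd (v.1 - v'.1) := by
  unfold den
  rw [mul_comm (1 - u.2) (1 - v.2), mul_comm (1 - u.2) (1 - v'.2)]
  refine sub_aux_7104 hv' hv1' hu hu1 (norm_e_7104 _) ?_
  rw [norm_sub_rev]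
  refine (e_sub_7104 _ _).trans (le_of_eq ?_)
  congr 2
  ring

theorem den_conj_7104 (u v : ℝ × ℝ) : den v u = (starRingEnd ℂ) (den u v) := by
  unfold den
  rw [map_sub, map_one, map_mul, Complex.conj_ofReal, ← Complex.exp_conj, map_mul,
    Complex.conj_ofReal, Complex.conj_I]
  congr 2
  · push_cast; ring
  · congr 1
    push_cast; ring

theorem kap_conj (u v : ℝ × ℝ) : kap v u = (starRingEnd ℂ) (kap u v) := by
  unfold kap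
  rw [den_conj_7104, map_inv₀, map_pow]

theorem norm_den_comm (u v : ℝ × ℝ) : ‖den v u‖ = ‖den u v‖ := by
  rw [den_conj_7104, RCLike.norm_conj]

theorem norm_kap (u v : ℝ × ℝ) : ‖kap u v‖ = (‖den u v‖ ^ 2)⁻¹ := by
  unfold kap
  rw [norm_inv, norm_pow]

theorem kap_sub_le {u u' v : ℝ × ℝ} {δ : ℝ} (hδ : 0 < δ) (h1 : δ ≤ ‖den u v‖)
    (h2 : δ ≤ ‖den u' v‖) : ‖kap u v - kap u' v‖ ≤ 2 * ‖den u v - den u' v‖ / δ ^ 3 := by
  unfold kap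
  generalize den u v = a at *
  generalize den u' v = b at *
  have ha : a ≠ 0 := by
    rintro rfl
    rw [norm_zero] at h1; linarith
  have hb : b ≠ 0 := by
    rintro rfl
    rw [norm_zero] at h2; linarith
  have h : (a ^ 2)⁻¹ - (b ^ 2)⁻¹ = - (a - b) * (a⁻¹ * b⁻¹ * (a⁻¹ + b⁻¹)) := by
    field_simp
    ring
  rw [h, norm_mul, norm_neg]
  have ha' : ‖a⁻¹‖ ≤ δ⁻¹ := by
    rw [norm_inv]
    exact inv_anti₀ hδ h1
  have hb' : ‖b⁻¹‖ ≤ δ⁻¹ := by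
    rw [norm_inv]
    exact inv_anti₀ hδ h2
  have h3 : ‖a⁻¹ * b⁻¹ * (a⁻¹ + b⁻¹)‖ ≤ δ⁻¹ * δ⁻¹ * (δ⁻¹ + δ⁻¹) := by
    rw [norm_mul, norm_mul]
    have h4 : ‖a⁻¹ + b⁻¹‖ ≤ δ⁻¹ + δ⁻¹ := (norm_add_le _ _).trans (add_le_add ha' hb')
    have : 0 < δ⁻¹ := inv_pos.2 hδ
    gcongr
  calc ‖a - b‖ * ‖a⁻¹ * b⁻¹ * (a⁻¹ + b⁻¹)‖ ≤ ‖a - b‖ * (δ⁻¹ * δ⁻¹ * (δ⁻¹ + δ⁻¹)) :=
        mul_le_mul_of_nonneg_left h3 (norm_nonneg _)
    _ = _ := by
        field_simp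
        ring

theorem kap_fract (τ a b s t : ℝ) :
    kap (Int.fract (a + τ), s) (Int.fract (b + τ), t) = kap (a, s) (b, t) := by
  unfold kap den
  have h : Complex.exp (((2 * Real.pi * (Int.fract (a + τ) - Int.fract (b + τ)) : ℝ) : ℂ) *
      Complex.I) = Complex.exp (((2 * Real.pi * (a - b) : ℝ) : ℂ) * Complex.I) := by
    have h1 : ((2 * Real.pi * (a - b) : ℝ) : ℂ) * Complex.I =
        ((2 * Real.pi * (Int.fract (a + τ) - Int.fract (b + τ)) : ℝ) : ℂ) * Complex.I +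
        ((⌊a + τ⌋ - ⌊b + τ⌋ : ℤ) : ℂ) * (2 * Real.pi * Complex.I) := by
      rw [Int.fract, Int.fract]
      push_cast
      ring
    rw [h1, Complex.exp_add, Complex.exp_int_mul_two_pi_mul_I, mul_one]
  simp only [h]

end

end Pool.Agent.Helper807.BT
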