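import Pool.Agent.Helper807.BT.Base
import Pool.Agent.Helper807.BT.Geo1

set_option autoImplicit false

open MeasureTheory Set
open scoped ENNReal

namespace Pool.Agent.Helper807.BT

noncomputable section

variable {X : Type*} [MeasurableSpace X]


theorem measurableSet_arcBox {θ h : X → ℝ} (geo : Geo θ h) (a l : ℝ) :
    MeasurableSet (arcBox θ h a l) := by
  unfold arcBox
  exact (measurableSet_lt (measurable_fract.comp (geo.mθ.sub_const a)) measurable_const).inter
    (measurableSet_le geo.mh measurable_const)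

theorem measurable_col {θ h : X → ℝ} (geo : Geo θ h) (n : ℕ) : Measurable (col θ n) :=
  Nat.measurable_floor.comp (geo.mθ.const_mul _)

theorem measurableSet_Q {θ h : X → ℝ} (geo : Geo θ h) (n k : ℕ) : MeasurableSet (Q θ h n k) :=
  ((measurable_col geo n) (measurableSet_singleton k)).inter
    (measurableSet_le geo.mh measurable_const)

theorem col_lt {θ h : X → ℝ} (geo : Geo θ h) (n : ℕ) (x : X) : col θ n x < 2 ^ n := by
  unfold col
  have h1 := geo.θ0 x
  have h2 := geo.θ1 x
  rw [Nat.floor_lt (by positivity)]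
  push_cast
  have : (0:ℝ) < 2 ^ n := by positivity
  nlinarith

theorem col_div {θ h : X → ℝ} (geo : Geo θ h) {m n : ℕ} (hmn : m ≤ n) (x : X) :
    col θ n x / 2 ^ (n - m) = col θ m x := by
  unfold col
  have e : (2:ℝ) ^ m * θ x = ((2:ℝ) ^ n * θ x) / ((2 ^ (n - m) : ℕ) : ℝ) := by
    push_cast
    rw [eq_div_iff (by positivity)]
    have : (2:ℝ) ^ n = 2 ^ m * 2 ^ (n - m) := by
      rw [← pow_add]; congr 1; omega
    rw [this]; ring
  rw [e, Nat.floor_div_natCast]

theorem Q_eq_arcBox {θ h : X → ℝ} (geo : Geo θ h) (n k : ℕ) (hk : k < 2 ^ n) :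
    Q θ h n k = arcBox θ h ((k : ℝ) / 2 ^ n) ((1 / 2 : ℝ) ^ n) := by
  ext x
  have h0 := geo.θ0 x
  have h1 := geo.θ1 x
  have hp : (0:ℝ) < 2 ^ n := by positivity
  have hk' : (k : ℝ) + 1 ≤ 2 ^ n := by exact_mod_cast hk
  have hk0 : (0:ℝ) ≤ k := Nat.cast_nonneg k
  have hinv : ((1 / 2 : ℝ) ^ n) = 1 / 2 ^ n := by rw [one_div_pow]
  have hmain : col θ n x = k ↔ Int.fract (θ x - (k : ℝ) / 2 ^ n) < (1 / 2 : ℝ) ^ n := by
    rw [hinv]
    constructor
    · intro hc
      unfold col at hc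
      rw [Nat.floor_eq_iff (by positivity)] at hc
      obtain ⟨hc1, hc2⟩ := hc
      have e1 : 0 ≤ θ x - (k : ℝ) / 2 ^ n := by
        rw [sub_nonneg, div_le_iff₀ hp]; linarith
      have e2 : θ x - (k : ℝ) / 2 ^ n < 1 / 2 ^ n := by
        rw [sub_lt_iff_lt_add, ← add_div, lt_div_iff₀ hp]; linarith
      have e3 : (1:ℝ) / 2 ^ n ≤ 1 := by
        rw [div_le_one hp]; exact one_le_pow₀ (by norm_num)
      rw [Int.fract_eq_self.mpr ⟨e1, by linarith⟩]
      exact e2
    · intro hf
      unfold col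
      rw [Nat.floor_eq_iff (by positivity)]
      rcases le_or_gt ((k : ℝ) / 2 ^ n) (θ x) with hle | hgt
      · have e1 : 0 ≤ θ x - (k : ℝ) / 2 ^ n := by linarith
        have e2 : θ x - (k : ℝ) / 2 ^ n < 1 := by
          have : 0 ≤ (k : ℝ) / 2 ^ n := by positivity
          linarith
        rw [Int.fract_eq_self.mpr ⟨e1, e2⟩] at hf
        constructor
        · rw [div_le_iff₀ hp] at hle; linarith
        · rw [sub_lt_iff_lt_add, ← add_div, lt_div_iff₀ hp] at hf; linarith
      · exfalso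
        have e1 : 0 ≤ θ x - (k : ℝ) / 2 ^ n + 1 := by
          have : (k : ℝ) / 2 ^ n ≤ 1 := by rw [div_le_one hp]; linarith
          linarith
        have e2 : Int.fract (θ x - (k : ℝ) / 2 ^ n) = θ x - (k : ℝ) / 2 ^ n + 1 := by
          rw [← Int.fract_add_one (θ x - (k : ℝ) / 2 ^ n)]
          exact Int.fract_eq_self.mpr ⟨e1, by linarith⟩
        rw [e2] at hf
        have e3 : (1:ℝ) / 2 ^ n ≤ 1 - (k : ℝ) / 2 ^ n := by
          rw [div_le_iff₀ hp, sub_mul, div_mul_cancel₀ _ hp.ne']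
          linarith
        linarith
  constructor
  · rintro ⟨hx1, hx2⟩
    exact ⟨hmain.mp hx1, hx2⟩
  · rintro ⟨hx1, hx2⟩
    exact ⟨hmain.mpr hx1, hx2⟩

theorem Q_anti {θ h : X → ℝ} (geo : Geo θ h) {m n : ℕ} (hmn : m ≤ n) (j : ℕ) :
    Q θ h n j ⊆ Q θ h m (j / 2 ^ (n - m)) := by
  rintro x ⟨hx1, hx2⟩
  refine ⟨?_, hx2.trans (pow_le_pow_of_le_one (by norm_num) (by norm_num) hmn)⟩
  rw [← hx1, col_div geo hmn]

theorem Q_zero {θ h : X → ℝ} (geo : Geo θ h) : Q θ h 0 0 = Set.univ := by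
  ext x
  simp only [Set.mem_univ, iff_true]
  refine ⟨?_, ?_⟩
  · have := col_lt geo 0 x
    rw [pow_zero] at this
    omega
  · rw [pow_zero]; exact geo.h1 x

theorem bdd_Ex {θ h : X → ℝ} (geo : Geo θ h) (s : Measure X) [IsFiniteMeasure s] {f : X → ℝ}
    (hf : Bdd f) (n : ℕ) : Bdd (Ex θ h s n f) := by
  obtain ⟨hm, C, hC⟩ := hf
  refine ⟨?_, |C|, ?_⟩
  · unfold Ex
    refine Measurable.ite (measurableSet_le geo.mh measurable_const) ?_ hm
    exact (measurable_of_countable (fun k : ℕ => avg θ h s f n k)).comp (measurable_col geo n)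
  · intro x
    unfold Ex
    split_ifs with hx
    · unfold avg
      rw [abs_div, abs_of_nonneg (ENNReal.toReal_nonneg (a := s (Q θ h n (col θ n x))))]
      rcases (ENNReal.toReal_nonneg (a := s (Q θ h n (col θ n x)))).eq_or_lt with h0 | h0
      · rw [← h0, div_zero]; exact abs_nonneg C
      · rw [div_le_iff₀ h0]
        have := norm_setIntegral_le_of_norm_le_const (μ := s) (s := Q θ h n (col θ n x)) (f := f)
          (C := |C|) (measure_lt_top s _) (fun y _ => by
            rw [Real.norm_eq_abs]; exact (hC y).trans (le_abs_self C))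
        rwa [Real.norm_eq_abs] at this
    · exact (hC x).trans (le_abs_self C)

theorem bdd_Dl {θ h : X → ℝ} (geo : Geo θ h) (s : Measure X) [IsFiniteMeasure s] {f : X → ℝ}
    (hf : Bdd f) (n k : ℕ) : Bdd (Dl θ h s n k f) := by
  obtain ⟨m1, C1, h1⟩ := bdd_Ex geo s hf (n + 1)
  obtain ⟨m2, C2, h2⟩ := bdd_Ex geo s hf n
  refine ⟨?_, C1 + C2, ?_⟩
  · unfold Dl
    exact (m1.sub m2).indicator (measurableSet_Q geo n k)
  · intro x
    unfold Dl
    have a1 := h1 x
    have a2 := h2 x
    have b1 := abs_nonneg (Ex θ h s (n + 1) f x)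
    have b2 := abs_nonneg (Ex θ h s n f x)
    by_cases hx : x ∈ Q θ h n k
    · rw [Set.indicator_of_mem hx]
      exact (abs_sub _ _).trans (by linarith)
    · rw [Set.indicator_of_notMem hx, abs_zero]
      linarith

theorem measurable_K {θ h : X → ℝ} (geo : Geo θ h) :
    Measurable (fun p : X × X => K θ h p.1 p.2) := by
  have t1 : Measurable (fun p : X × X => θ p.1) := geo.mθ.comp measurable_fst
  have t2 : Measurable (fun p : X × X => θ p.2) := geo.mθ.comp measurable_snd
  have s1 : Measurable (fun p : X × X => h p.1) := geo.mh.comp measurable_fst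
  have s2 : Measurable (fun p : X × X => h p.2) := geo.mh.comp measurable_snd
  unfold K kap den
  apply Measurable.inv
  apply Measurable.pow_const
  apply Measurable.sub measurable_const
  apply Measurable.mul
  · exact Complex.measurable_ofReal.comp (((measurable_const.sub s1)).mul (measurable_const.sub s2))
  · apply Complex.measurable_exp.comp
    exact (Complex.measurable_ofReal.comp ((t1.sub t2).const_mul _)).mul_const _

theorem norm_K_le_left {θ h : X → ℝ} (geo : Geo θ h) (x y : X) :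
    ‖K θ h x y‖ ≤ ((h x) ^ 2)⁻¹ := by
  unfold K
  rw [norm_kap]
  have h1 := den_ge_left (u := (θ x, h x)) (v := (θ y, h y)) (geo.h0 x).le (geo.h1 x) (geo.h0 y).le
    (geo.h1 y)
  have h0 := geo.h0 x
  exact inv_anti₀ (by positivity) (pow_le_pow_left₀ h0.le h1 2)

theorem norm_K_le_right {θ h : X → ℝ} (geo : Geo θ h) (x y : X) :
    ‖K θ h x y‖ ≤ ((h y) ^ 2)⁻¹ := by
  unfold K
  rw [norm_kap]
  have h1 := den_ge_right (u := (θ x, h x)) (v := (θ y, h y)) (geo.h0 x).le (geo.h1 x) (geo.h0 y).le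
    (geo.h1 y)
  have h0 := geo.h0 y
  exact inv_anti₀ (by positivity) (pow_le_pow_left₀ h0.le h1 2)

end

end Pool.Agent.Helper807.BT
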