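import Pool.Agent.Helper807.BT.Base
import Pool.Agent.Helper807.BT.Geo1

set_option autoImplicit false

open MeasureTheory Set
open scoped ENNReal

namespace Pool.Agent.Helper807.BT

noncomputable section

variable {X : Type*} [MeasurableSpace X]


theorem aux7106_perturb (ω V W : ℂ) (ε : ℝ) (hω : ‖ω‖ = 1) (h : ‖W - V‖ ≤ ε) (hε : ε ≤ ‖V‖) :
    |(ω * (starRingEnd ℂ W) ^ 2).re - (ω * (starRingEnd ℂ V) ^ 2).re| ≤ 3 * ε * ‖V‖ := by
  have e : (ω * (starRingEnd ℂ W) ^ 2).re - (ω * (starRingEnd ℂ V) ^ 2).re =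
      (ω * (starRingEnd ℂ (W - V) * starRingEnd ℂ (W + V))).re := by
    rw [← Complex.sub_re]
    congr 1
    rw [map_sub, map_add]
    ring
  rw [e]
  refine (Complex.abs_re_le_norm _).trans ?_
  rw [norm_mul, norm_mul, hω, one_mul, Complex.norm_conj, Complex.norm_conj]
  have h1 : ‖W + V‖ ≤ 3 * ‖V‖ := by
    have h2 : W + V = (W - V) + (V + V) := by ring
    rw [h2]
    have h3 := norm_add_le (W - V) (V + V)
    have h4 := norm_add_le V V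
    linarith
  have h0 : 0 ≤ ε := (norm_nonneg _).trans h
  calc ‖W - V‖ * ‖W + V‖ ≤ ε * (3 * ‖V‖) := by gcongr
    _ = 3 * ε * ‖V‖ := by ring

theorem aux7106_inv (ω W : ℂ) :
    (ω * (W ^ 2)⁻¹).re = (ω * (starRingEnd ℂ W) ^ 2).re / ‖W‖ ^ 4 := by
  have e : ω * (W ^ 2)⁻¹ = (((‖W‖ ^ 4)⁻¹ : ℝ) : ℂ) * (ω * (starRingEnd ℂ W) ^ 2) := by
    rw [Complex.inv_def, map_pow, map_pow, Complex.normSq_eq_norm_sq]
    have h1 : (‖W‖ ^ 2) ^ 2 = ‖W‖ ^ 4 := by ring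
    rw [h1]
    ring
  rw [e, Complex.re_ofReal_mul]
  rw [div_eq_inv_mul]

theorem aux7106_re (V V' : ℂ) (s : ℝ) (hV : V ≠ 0) (hV' : V' ≠ 0) :
    ((-Complex.I * ((s / (‖V‖ * ‖V'‖) : ℝ) : ℂ) * (V * V')) * (starRingEnd ℂ V) ^ 2).re =
      s * (V' * starRingEnd ℂ V).im * ‖V‖ / ‖V'‖ := by
  have hn : ‖V‖ ≠ 0 := norm_ne_zero_iff.mpr hV
  have hn' : ‖V'‖ ≠ 0 := norm_ne_zero_iff.mpr hV'
  have e : (-Complex.I * ((s / (‖V‖ * ‖V'‖) : ℝ) : ℂ) * (V * V')) * (starRingEnd ℂ V) ^ 2 =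
      ((s / (‖V‖ * ‖V'‖) * ‖V‖ ^ 2 : ℝ) : ℂ) * (-Complex.I * (V' * starRingEnd ℂ V)) := by
    have h1 : V * starRingEnd ℂ V = ((‖V‖ ^ 2 : ℝ) : ℂ) := by
      rw [Complex.mul_conj, Complex.normSq_eq_norm_sq]
    have h2 : (-Complex.I * ((s / (‖V‖ * ‖V'‖) : ℝ) : ℂ) * (V * V')) * (starRingEnd ℂ V) ^ 2 =
        ((s / (‖V‖ * ‖V'‖) : ℝ) : ℂ) * (V * starRingEnd ℂ V) *
          (-Complex.I * (V' * starRingEnd ℂ V)) := by ring
    rw [h2, h1, ← Complex.ofReal_mul]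
  rw [e, Complex.re_ofReal_mul]
  have h3 : (-Complex.I * (V' * starRingEnd ℂ V)).re = (V' * starRingEnd ℂ V).im := by
    simp
  rw [h3]
  field_simp

theorem aux7106_norm (V V' : ℂ) (s : ℝ) (hs : |s| = 1) (hV : V ≠ 0) (hV' : V' ≠ 0) :
    ‖-Complex.I * ((s / (‖V‖ * ‖V'‖) : ℝ) : ℂ) * (V * V')‖ = 1 := by
  have hn : ‖V‖ ≠ 0 := norm_ne_zero_iff.mpr hV
  have hn' : ‖V'‖ ≠ 0 := norm_ne_zero_iff.mpr hV'
  rw [norm_mul, norm_mul, norm_neg, Complex.norm_I, Complex.norm_real, norm_mul, Real.norm_eq_abs,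
    abs_div, hs, abs_of_nonneg (by positivity)]
  field_simp

theorem aux7106_re_den (u v : ℝ × ℝ) :
    (den u v).re = 1 - ((1 - u.2) * (1 - v.2)) * Real.cos (2 * Real.pi * (u.1 - v.1)) := by
  unfold den
  rw [Complex.sub_re, Complex.one_re, Complex.re_ofReal_mul, Complex.exp_ofReal_mul_I_re]

theorem aux7106_im_den (u v : ℝ × ℝ) :
    (den u v).im = - (((1 - u.2) * (1 - v.2)) * Real.sin (2 * Real.pi * (u.1 - v.1))) := by
  unfold den
  rw [Complex.sub_im, Complex.one_im, Complex.im_ofReal_mul, Complex.exp_ofReal_mul_I_im]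
  ring

theorem aux7106_trig (ρ x y : ℝ) :
    (1 - ρ * Real.cos (x - y)) * -(-(ρ * Real.sin (x + y))) +
      -(ρ * Real.sin (x - y)) * (1 - ρ * Real.cos (x + y)) =
    2 * ρ * Real.sin y * (Real.cos x - ρ * Real.cos y) := by
  rw [Real.cos_add, Real.sin_add, Real.cos_sub, Real.sin_sub]
  have h3 := Real.sin_sq_add_cos_sq x
  linear_combination (-2 * ρ ^ 2 * Real.sin y * Real.cos y) * h3

/-- the imaginary part formula -/
theorem aux7106_im (u v v' : ℝ × ℝ) (β : ℝ) (h2 : v'.2 = v.2) (h1 : v'.1 = v.1 + β) :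
    (den u v' * starRingEnd ℂ (den u v)).im =
      2 * ((1 - u.2) * (1 - v.2)) * Real.sin (Real.pi * β) *
        (Real.cos (2 * Real.pi * (u.1 - v.1) - Real.pi * β) -
          ((1 - u.2) * (1 - v.2)) * Real.cos (Real.pi * β)) := by
  rw [Complex.mul_im, Complex.conj_re, Complex.conj_im, aux7106_re_den, aux7106_im_den,
    aux7106_re_den, aux7106_im_den, h2, h1]
  have h := aux7106_trig ((1 - u.2) * (1 - v.2)) (2 * Real.pi * (u.1 - v.1) - Real.pi * β)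
    (Real.pi * β)
  have e1 : 2 * Real.pi * (u.1 - v.1) - Real.pi * β + Real.pi * β = 2 * Real.pi * (u.1 - v.1) := by
    ring
  have e2 : 2 * Real.pi * (u.1 - v.1) - Real.pi * β - Real.pi * β =
      2 * Real.pi * (u.1 - (v.1 + β)) := by ring
  rw [e1, e2] at h
  exact h

theorem aux7106_sin (h0 x : ℝ) (hx : 0 ≤ x) (hx1 : x ≤ 1 / 2) (h : h0 / 200 ≤ x) :
    h0 / 100 ≤ Real.sin (Real.pi * x) := by
  have h3 := Real.mul_le_sin (x := Real.pi * x) (by positivity)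
    (by
      have := mul_le_mul_of_nonneg_left hx1 Real.pi_pos.le
      linarith)
  have h4 : 2 / Real.pi * (Real.pi * x) = 2 * x := by
    field_simp
  linarith

theorem aux7106_cos (q β A : ℝ) (hn : nd q ≤ A) (hβ : |β| ≤ A) :
    1 - 45 * A ^ 2 ≤ Real.cos (2 * Real.pi * q - Real.pi * β) := by
  set r := round q with hr
  set t := q - (r : ℝ) with ht
  have e : 2 * Real.pi * q - Real.pi * β =
      (2 * Real.pi * t - Real.pi * β) + (r : ℝ) * (2 * Real.pi) := by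
    rw [ht]; ring
  rw [e, Real.cos_add_int_mul_two_pi]
  have h3 := Real.one_sub_sq_div_two_le_cos (x := 2 * Real.pi * t - Real.pi * β)
  have ht2 : |t| ≤ A := hn
  have h4 : |2 * Real.pi * t - Real.pi * β| ≤ 3 * Real.pi * A := by
    have h5 : |2 * Real.pi * t - Real.pi * β| ≤ |2 * Real.pi * t| + |Real.pi * β| :=
      abs_sub _ _
    have h5a : |2 * Real.pi * t| = 2 * Real.pi * |t| := by
      rw [abs_mul, abs_of_pos Real.two_pi_pos]
    have h5b : |Real.pi * β| = Real.pi * |β| := by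
      rw [abs_mul, abs_of_pos Real.pi_pos]
    rw [h5a, h5b] at h5
    have h6 := mul_le_mul_of_nonneg_left ht2 Real.two_pi_pos.le
    have h7 := mul_le_mul_of_nonneg_left hβ Real.pi_pos.le
    linarith
  have h6 : (2 * Real.pi * t - Real.pi * β) ^ 2 ≤ (3 * Real.pi * A) ^ 2 := by
    rw [← sq_abs]
    exact pow_le_pow_left₀ (abs_nonneg _) h4 2
  have h7 : Real.pi ^ 2 ≤ 10 := by
    have h8 := Real.pi_lt_d2
    have h9 := Real.pi_pos
    calc Real.pi ^ 2 ≤ 3.15 ^ 2 := pow_le_pow_left₀ h9.le h8.le 2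
      _ ≤ 10 := by norm_num
  have h8 : (3 * Real.pi * A) ^ 2 = Real.pi ^ 2 * (9 * A ^ 2) := by ring
  have h9 : Real.pi ^ 2 * (9 * A ^ 2) ≤ 10 * (9 * A ^ 2) :=
    mul_le_mul_of_nonneg_right h7 (by positivity)
  linarith

theorem aux7106_rho (x y A : ℝ) (hx0 : 0 ≤ x) (hx : x ≤ 1 / 1000) (hy : 0 ≤ y) (hy1 : y ≤ 1 / 1000)
    (hA : A ≤ x) : (1 - x) * (1 - y) ≤ 1 - A ∧ 1 / 2 ≤ (1 - x) * (1 - y) := by
  have h1 : 0 ≤ y * (1 - x) := mul_nonneg hy (by linarith)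
  have h2 : y * (1 - x) ≤ y * 1 := mul_le_mul_of_nonneg_left (by linarith) hy
  have e : (1 - x) * (1 - y) = 1 - x - y * (1 - x) := by ring
  rw [e]
  constructor <;> linarith

/-- lower bound for the imaginary part -/
theorem aux7106_lower (M : ℝ) (hM : 1 ≤ M) (h0 : ℝ) (hh0 : 0 < h0)
    (hc : h0 * (1000 * M ^ 2) ≤ 1) (u v v' : ℝ × ℝ) (hu : h0 / 2 ≤ u.2) (hu1 : u.2 ≤ h0)
    (hv : 0 < v.2) (hv1 : v.2 ≤ M * h0) (h2 : v'.2 = v.2) (hn : nd (u.1 - v.1) ≤ M * h0)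
    (β : ℝ) (hβ : h0 / 200 ≤ |β|) (hβ1 : |β| ≤ M * h0) (h1 : v'.1 = v.1 + β) (s : ℝ)
    (hs : s * Real.sin (Real.pi * β) = Real.sin (Real.pi * |β|)) :
    h0 ^ 2 / 400 ≤ s * (den u v' * starRingEnd ℂ (den u v)).im := by
  rw [aux7106_im u v v' β h2 h1]
  have hMMh : M ^ 2 * h0 ≤ 1 / 1000 := by linarith
  have hMh : M * h0 ≤ 1 / 1000 := by
    have : M * h0 ≤ M ^ 2 * h0 := by
      apply mul_le_mul_of_nonneg_right _ hh0.le
      nlinarith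
    linarith
  have hh1 : h0 ≤ 1 / 1000 := by
    have : 1 * h0 ≤ M * h0 := mul_le_mul_of_nonneg_right hM hh0.le
    linarith
  obtain ⟨hρ1, hρ2⟩ := aux7106_rho u.2 v.2 (h0 / 2) (by linarith) (by linarith) hv.le
    (by linarith) hu
  have hsin := aux7106_sin h0 |β| (abs_nonneg _) (by linarith) hβ
  have hcos := aux7106_cos (u.1 - v.1) β (M * h0) hn hβ1
  set ρ := (1 - u.2) * (1 - v.2) with hρ
  have hbr : h0 / 4 ≤ Real.cos (2 * Real.pi * (u.1 - v.1) - Real.pi * β) -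
      ρ * Real.cos (Real.pi * β) := by
    have h3 : ρ * Real.cos (Real.pi * β) ≤ ρ * 1 :=
      mul_le_mul_of_nonneg_left (Real.cos_le_one _) (by linarith)
    have h4 : 45 * (M * h0) ^ 2 ≤ h0 / 4 := by
      have e : 45 * (M * h0) ^ 2 = 45 * ((M ^ 2 * h0) * h0) := by ring
      have h5 : (M ^ 2 * h0) * h0 ≤ 1 / 1000 * h0 := mul_le_mul_of_nonneg_right hMMh hh0.le
      rw [e]
      linarith
    linarith
  set br := Real.cos (2 * Real.pi * (u.1 - v.1) - Real.pi * β) - ρ * Real.cos (Real.pi * β)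
  have e : s * (2 * ρ * Real.sin (Real.pi * β) * br) = 2 * ρ * Real.sin (Real.pi * |β|) * br := by
    rw [← hs]; ring
  rw [e]
  have h5 : h0 / 100 ≤ 2 * ρ * Real.sin (Real.pi * |β|) := by
    have h6 : 0 ≤ Real.sin (Real.pi * |β|) := le_trans (by positivity) hsin
    have h7 : 1 * Real.sin (Real.pi * |β|) ≤ 2 * ρ * Real.sin (Real.pi * |β|) :=
      mul_le_mul_of_nonneg_right (by linarith) h6
    linarith
  calc h0 ^ 2 / 400 = (h0 / 100) * (h0 / 4) := by ring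
    _ ≤ (2 * ρ * Real.sin (Real.pi * |β|)) * br := by
        apply mul_le_mul h5 hbr (by positivity) (le_trans (by positivity) h5)

/-- the two conclusions, from the lower bound -/
theorem aux7106_final (M : ℝ) (hM : 1 ≤ M) (h0 δ : ℝ) (hh0 : 0 < h0)
    (hδ1 : δ * (1000000 * M) ≤ h0) (V V' : ℂ) (hV1 : h0 / 2 ≤ ‖V‖)
    (hV2 : ‖V‖ ≤ 20 * M * h0) (hV1' : h0 / 2 ≤ ‖V'‖) (hV2' : ‖V'‖ ≤ 20 * M * h0) (s : ℝ)
    (hs : |s| = 1) (hI : h0 ^ 2 / 400 ≤ s * (V' * starRingEnd ℂ V).im) :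
    ∃ ω : ℂ, ‖ω‖ = 1 ∧
      (∀ W : ℂ, ‖W - V‖ ≤ 8 * δ → 1 / (32000 * 64000 * M ^ 4) / h0 ^ 2 ≤ (ω * (W ^ 2)⁻¹).re) ∧
      (∀ W : ℂ, ‖W - V'‖ ≤ 8 * δ → (ω * (W ^ 2)⁻¹).re ≤ 0) := by
  have hVp : 0 < ‖V‖ := by linarith
  have hVp' : 0 < ‖V'‖ := by linarith
  have hV0 : V ≠ 0 := norm_pos_iff.mp hVp
  have hV0' : V' ≠ 0 := norm_pos_iff.mp hVp'
  have hMp : 0 < M := by linarith
  have hδM : 8 * δ ≤ h0 / 2 := by
    rcases le_or_gt δ 0 with h | h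
    · linarith
    · nlinarith
  have hδM2 : 24 * δ ≤ h0 / (16000 * M) := by
    rw [le_div_iff₀ (by positivity)]
    rcases le_or_gt δ 0 with h | h
    · nlinarith [mul_pos hMp hMp]
    · nlinarith
  refine ⟨-Complex.I * ((s / (‖V‖ * ‖V'‖) : ℝ) : ℂ) * (V * V'),
    aux7106_norm V V' s hs hV0 hV0', ?_, ?_⟩
  · intro W hW
    set ω := -Complex.I * ((s / (‖V‖ * ‖V'‖) : ℝ) : ℂ) * (V * V') with hω
    have hωn : ‖ω‖ = 1 := aux7106_norm V V' s hs hV0 hV0'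
    have h1 := aux7106_perturb ω V W (8 * δ) hωn hW (by linarith)
    have h2 := aux7106_re V V' s hV0 hV0'
    rw [← hω] at h2
    have h3 : ‖V‖ * (h0 / (8000 * M)) ≤ s * (V' * starRingEnd ℂ V).im * ‖V‖ / ‖V'‖ := by
      rw [le_div_iff₀ hVp']
      have h4 : h0 / (8000 * M) * ‖V'‖ ≤ h0 ^ 2 / 400 := by
        rw [div_mul_eq_mul_div, div_le_iff₀ (by positivity)]
        nlinarith
      calc ‖V‖ * (h0 / (8000 * M)) * ‖V'‖ = ‖V‖ * (h0 / (8000 * M) * ‖V'‖) := by ring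
        _ ≤ ‖V‖ * (h0 ^ 2 / 400) := by gcongr
        _ ≤ ‖V‖ * (s * (V' * starRingEnd ℂ V).im) := by gcongr
        _ = _ := by ring
    have h5 : ‖V‖ * (h0 / (16000 * M)) ≤ (ω * (starRingEnd ℂ W) ^ 2).re := by
      have h6 := (abs_le.mp h1).1
      have h7 : 3 * (8 * δ) * ‖V‖ ≤ h0 / (16000 * M) * ‖V‖ := by
        have : 3 * (8 * δ) = 24 * δ := by ring
        rw [this]
        gcongr
      have h8 : h0 / (8000 * M) = 2 * (h0 / (16000 * M)) := by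
        field_simp
        norm_num
      rw [h8] at h3
      rw [h2] at h6
      nlinarith
    have hWV : ‖W‖ ≤ 2 * ‖V‖ := by
      have h6 : ‖W‖ ≤ ‖W - V‖ + ‖V‖ := by
        have := norm_add_le (W - V) V
        simpa using this
      linarith
    have hWpos : 0 < ‖W‖ := by
      have h6 : ‖V‖ ≤ ‖W - V‖ + ‖W‖ := by
        have := norm_sub_norm_le V W
        rw [norm_sub_rev] at this
        linarith
      have hδ3 : 8 * δ < ‖V‖ := by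
        rcases le_or_gt δ 0 with h | h
        · linarith
        · nlinarith
      linarith
    rw [aux7106_inv, le_div_iff₀ (by positivity)]
    refine le_trans ?_ h5
    have hW40 : ‖W‖ ≤ 40 * M * h0 := by linarith
    have h9 : ‖W‖ ^ 3 ≤ (40 * M * h0) ^ 3 := pow_le_pow_left₀ hWpos.le hW40 3
    have h10 : 1 / (32000 * 64000 * M ^ 4) / h0 ^ 2 * ‖W‖ ^ 4 =
        (1 / (32000 * 64000 * M ^ 4) / h0 ^ 2 * ‖W‖ ^ 3) * ‖W‖ := by ring
    rw [h10]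
    have h11 : 1 / (32000 * 64000 * M ^ 4) / h0 ^ 2 * ‖W‖ ^ 3 ≤ h0 / (32000 * M) := by
      calc 1 / (32000 * 64000 * M ^ 4) / h0 ^ 2 * ‖W‖ ^ 3
          ≤ 1 / (32000 * 64000 * M ^ 4) / h0 ^ 2 * (40 * M * h0) ^ 3 := by gcongr
        _ = h0 / (32000 * M) := by
            field_simp
            norm_num
    calc (1 / (32000 * 64000 * M ^ 4) / h0 ^ 2 * ‖W‖ ^ 3) * ‖W‖
        ≤ (h0 / (32000 * M)) * (2 * ‖V‖) := by gcongr
      _ = ‖V‖ * (h0 / (16000 * M)) := by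
          field_simp
          norm_num
  · intro W hW
    set ω := -Complex.I * ((s / (‖V‖ * ‖V'‖) : ℝ) : ℂ) * (V * V') with hω
    have hωn : ‖ω‖ = 1 := aux7106_norm V V' s hs hV0 hV0'
    have h1 := aux7106_perturb ω V' W (8 * δ) hωn hW (by linarith)
    have h2 := aux7106_re V' V s hV0' hV0
    have hω2 : -Complex.I * ((s / (‖V'‖ * ‖V‖) : ℝ) : ℂ) * (V' * V) = ω := by
      rw [hω, mul_comm ‖V'‖ ‖V‖, mul_comm V' V]
    rw [hω2] at h2
    have h3 : (V * starRingEnd ℂ V').im = - (V' * starRingEnd ℂ V).im := by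
      simp only [Complex.mul_im, Complex.conj_re, Complex.conj_im]
      ring
    rw [h3] at h2
    have h4 : ‖V'‖ * (h0 / (8000 * M)) ≤ s * (V' * starRingEnd ℂ V).im * ‖V'‖ / ‖V‖ := by
      rw [le_div_iff₀ hVp]
      have h4 : h0 / (8000 * M) * ‖V‖ ≤ h0 ^ 2 / 400 := by
        rw [div_mul_eq_mul_div, div_le_iff₀ (by positivity)]
        nlinarith
      calc ‖V'‖ * (h0 / (8000 * M)) * ‖V‖ = ‖V'‖ * (h0 / (8000 * M) * ‖V‖) := by ring
        _ ≤ ‖V'‖ * (h0 ^ 2 / 400) := by gcongr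
        _ ≤ ‖V'‖ * (s * (V' * starRingEnd ℂ V).im) := by gcongr
        _ = _ := by ring
    have h5 : (ω * (starRingEnd ℂ W) ^ 2).re ≤ 0 := by
      have h6 := (abs_le.mp h1).2
      have h7 : 3 * (8 * δ) * ‖V'‖ ≤ h0 / (16000 * M) * ‖V'‖ := by
        have : 3 * (8 * δ) = 24 * δ := by ring
        rw [this]
        gcongr
      have h8 : h0 / (8000 * M) = 2 * (h0 / (16000 * M)) := by
        field_simp
        norm_num
      rw [h8] at h4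
      rw [h2] at h6
      have h9 : s * -(V' * starRingEnd ℂ V).im * ‖V'‖ / ‖V‖ =
        -(s * (V' * starRingEnd ℂ V).im * ‖V'‖ / ‖V‖) := by ring
      rw [h9] at h6
      have h10 : 0 ≤ ‖V'‖ * (h0 / (16000 * M)) := by positivity
      nlinarith
    rw [aux7106_inv]
    exact div_nonpos_of_nonpos_of_nonneg h5 (by positivity)

theorem phase_sep (M : ℝ) (hM : 1 ≤ M) : ∃ c0 : ℝ, 0 < c0 ∧ ∃ P : ℝ, 1 ≤ P ∧ ∃ c1 : ℝ, 0 < c1 ∧
    ∀ h0 : ℝ, 0 < h0 → h0 ≤ c0 → ∀ δ : ℝ, 0 < δ → δ ≤ h0 / P →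
    ∀ u v v' : ℝ × ℝ, h0 / 2 ≤ u.2 → u.2 ≤ h0 → 0 < v.2 → v.2 ≤ M * h0 → v'.2 = v.2 →
    nd (u.1 - v.1) ≤ M * h0 → nd (u.1 - v'.1) ≤ M * h0 →
    ∀ β : ℝ, h0 / 200 ≤ |β| → |β| ≤ M * h0 → v'.1 = v.1 + β →
    ∃ ω : ℂ, ‖ω‖ = 1 ∧
      (∀ y : ℝ × ℝ, 0 < y.2 → y.2 ≤ M * h0 → |y.2 - v.2| ≤ δ → nd (y.1 - v.1) ≤ δ →
        c1 / h0 ^ 2 ≤ (ω * kap u y).re) ∧
      (∀ y : ℝ × ℝ, 0 < y.2 → y.2 ≤ M * h0 → |y.2 - v.2| ≤ δ → nd (y.1 - v'.1) ≤ δ →
        (ω * kap u y).re ≤ 0) := by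
  have hMp : 0 < M := by linarith
  refine ⟨1 / (1000 * M ^ 2), by positivity, 1000000 * M, by nlinarith,
    1 / (32000 * 64000 * M ^ 4), by positivity, ?_⟩
  intro h0 hh0 hc δ hδ hδ1 u v v' hu hu1 hv hv1 h2 hn hn' β hβ hβ1 h1
  have hc' : h0 * (1000 * M ^ 2) ≤ 1 := by
    rw [le_div_iff₀ (by positivity)] at hc
    exact hc
  have hδ' : δ * (1000000 * M) ≤ h0 := by
    rw [le_div_iff₀ (by positivity)] at hδ1
    exact hδ1
  have hMh : M * h0 ≤ 1 / 1000 := by nlinarith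
  have hh1 : h0 ≤ 1 / 1000 := by nlinarith
  have hu0 : 0 ≤ u.2 := by linarith
  have hu11 : u.2 ≤ 1 := by linarith
  have hv0 : 0 ≤ v.2 := hv.le
  have hv11 : v.2 ≤ 1 := by linarith
  have hv0' : 0 ≤ v'.2 := by rw [h2]; exact hv0
  have hv11' : v'.2 ≤ 1 := by rw [h2]; exact hv11
  have hpi : Real.pi ≤ 4 := Real.pi_le_four
  have hpi2 : Real.pi < 3.15 := Real.pi_lt_d2
  have upper : ∀ w : ℝ × ℝ, 0 ≤ w.2 → w.2 ≤ M * h0 → nd (u.1 - w.1) ≤ M * h0 →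
      ‖den u w‖ ≤ 20 * M * h0 := by
    intro w hw0 hw1 hwn
    have h3 := den_le (u := u) (v := w) hu0 hu11 hw0 (by linarith)
    have h4 : 2 * Real.pi * nd (u.1 - w.1) ≤ 8 * (M * h0) := by
      have h5 : 0 ≤ nd (u.1 - w.1) := abs_nonneg _
      nlinarith [Real.pi_pos]
    have h6 : h0 ≤ M * h0 := by nlinarith
    linarith
  have hβ0 : β ≠ 0 := by
    intro h
    rw [h, abs_zero] at hβ
    linarith
  obtain ⟨s, hs1, hs2⟩ : ∃ s : ℝ, |s| = 1 ∧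
      s * Real.sin (Real.pi * β) = Real.sin (Real.pi * |β|) := by
    rcases lt_or_gt_of_ne hβ0 with h | h
    · refine ⟨-1, by simp, ?_⟩
      rw [abs_of_neg h, mul_neg, Real.sin_neg]
      ring
    · refine ⟨1, by simp, ?_⟩
      rw [abs_of_pos h, one_mul]
  have hI := aux7106_lower M hM h0 hh0 hc' u v v' hu hu1 hv hv1 h2 hn β hβ hβ1 h1 s hs2
  have l1 : h0 / 2 ≤ ‖den u v‖ := hu.trans (den_ge_left hu0 hu11 hv0 hv11)
  have l2 : h0 / 2 ≤ ‖den u v'‖ := hu.trans (den_ge_left hu0 hu11 hv0' hv11')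
  obtain ⟨ω, hω, w1, w2⟩ := aux7106_final M hM h0 δ hh0 hδ' (den u v) (den u v') l1
    (upper v hv0 hv1 hn) l2 (upper v' hv0' (by rw [h2]; exact hv1) hn') s hs1 hI
  refine ⟨ω, hω, ?_, ?_⟩
  · intro y hy0 hy1 hy2 hy3
    have h3 := den_sub_le_right (u := u) (v := y) (v' := v) hu0 hu11 hy0.le (by linarith) hv0 hv11
    have h4 : 2 * Real.pi * nd (y.1 - v.1) ≤ 7 * δ := by
      have h5 : 0 ≤ nd (y.1 - v.1) := abs_nonneg _
      nlinarith [Real.pi_pos]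
    have h5 := w1 (den u y) (by linarith)
    exact h5
  · intro y hy0 hy1 hy2 hy3
    have h3 := den_sub_le_right (u := u) (v := y) (v' := v') hu0 hu11 hy0.le (by linarith)
      hv0' hv11'
    rw [h2] at h3
    have h4 : 2 * Real.pi * nd (y.1 - v'.1) ≤ 7 * δ := by
      have h5 : 0 ≤ nd (y.1 - v'.1) := abs_nonneg _
      nlinarith [Real.pi_pos]
    have h5 := w2 (den u y) (by linarith)
    exact h5

end

end Pool.Agent.Helper807.BT
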