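import Pool.Agent.Helper807.BT.Base
import Pool.Agent.Helper807.BT.Bas
import Pool.Agent.Helper807.BT.Geo1
import Pool.Agent.Helper807.BT.Geo3

set_option autoImplicit false

open MeasureTheory Set
open scoped ENNReal

namespace Pool.Agent.Helper807.BT

noncomputable section

variable {X : Type*} [MeasurableSpace X]


theorem nd_le_7109 (t : ℝ) (z : ℤ) : nd t ≤ |t - z| := round_le t z

theorem nd_add_le_7109 (s t : ℝ) : nd (s + t) ≤ nd s + |t| := by
  have h1 := nd_le_7109 (s + t) (round s)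
  have h2 : |s + t - (round s : ℝ)| ≤ |s - round s| + |t| := by
    have : s + t - (round s:ℝ) = (s - round s) + t := by ring
    rw [this]; exact abs_add_le _ _
  unfold nd at *
  linarith

theorem nd_fract_7109 (t : ℝ) : nd t ≤ Int.fract t := by
  have h1 := nd_le_7109 t ⌊t⌋
  have : t - (⌊t⌋:ℝ) = Int.fract t := rfl
  rw [this, abs_of_nonneg (Int.fract_nonneg t)] at h1
  exact h1

theorem fract_iff_7109 (t α l : ℝ) (hα : 0 ≤ α) (hl0 : 0 ≤ l) (hl : α + l ≤ 1) :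
    Int.fract (t - α) < l ↔ α ≤ Int.fract t ∧ Int.fract t < α + l := by
  have e : t - α = (Int.fract t - α) + (⌊t⌋ : ℤ) := by
    have := Int.fract_add_floor t
    linarith
  have hp0 := Int.fract_nonneg t
  have hp1 := Int.fract_lt_one t
  rw [e, Int.fract_add_intCast]
  rcases le_or_gt α (Int.fract t) with h | h
  · have : Int.fract (Int.fract t - α) = Int.fract t - α := by
      rw [Int.fract_eq_self]
      constructor <;> linarith
    rw [this]
    constructor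
    · intro h'; exact ⟨h, by linarith⟩
    · rintro ⟨_, h'⟩; linarith
  · have : Int.fract (Int.fract t - α) = Int.fract t - α + 1 := by
      rw [← Int.fract_add_one, Int.fract_eq_self]
      constructor <;> linarith
    rw [this]
    constructor
    · intro h'; linarith
    · rintro ⟨h', _⟩; linarith

/-- column index -/
def J7109 (θ : X → ℝ) (α δ : ℝ) (y : X) : ℕ := ⌊Int.fract (θ y - α) / δ⌋₊

/-- row index -/
def H7109 (h : X → ℝ) (δ : ℝ) (y : X) : ℕ := ⌈h y / δ⌉₊ - 1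

omit [MeasurableSpace X] in
theorem H_lt_7109 {h : X → ℝ} {δ : ℝ} (hδ : 0 < δ) (y : X) (hy : 0 < h y) (n : ℕ) :
    H7109 h δ y < n ↔ h y ≤ n * δ := by
  have h1 : 0 < ⌈h y / δ⌉₊ := Nat.ceil_pos.2 (by positivity)
  have h2 : H7109 h δ y < n ↔ ⌈h y / δ⌉₊ ≤ n := by
    unfold H7109; omega
  rw [h2, Nat.ceil_le, div_le_iff₀ hδ]

omit [MeasurableSpace X] in
theorem le_J_7109 {θ : X → ℝ} {α δ : ℝ} (hδ : 0 < δ) (y : X) (k : ℕ) :
    k ≤ J7109 θ α δ y ↔ k * δ ≤ Int.fract (θ y - α) := by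
  unfold J7109
  rw [Nat.le_floor_iff (div_nonneg (Int.fract_nonneg _) hδ.le), le_div_iff₀ hδ]

omit [MeasurableSpace X] in
theorem J_lt_7109 {θ : X → ℝ} {α δ : ℝ} (hδ : 0 < δ) (y : X) (k : ℕ) :
    J7109 θ α δ y < k ↔ Int.fract (θ y - α) < k * δ := by
  unfold J7109
  rw [Nat.floor_lt (div_nonneg (Int.fract_nonneg _) hδ.le), div_lt_iff₀ hδ]

theorem mem_box_7109 {θ h : X → ℝ} (geo : Geo θ h) {α δ : ℝ} (hδ : 0 < δ) (k n : ℕ)
    (hkn : ((k + n : ℕ) : ℝ) * δ ≤ 1) (y : X) :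
    y ∈ arcBox θ h (α + k * δ) (n * δ) ↔
      k ≤ J7109 θ α δ y ∧ J7109 θ α δ y < k + n ∧ H7109 h δ y < n := by
  have hkn' : (k:ℝ) * δ + n * δ ≤ 1 := by push_cast at hkn; linarith
  rw [H_lt_7109 hδ y (geo.h0 y), le_J_7109 hδ, J_lt_7109 hδ]
  show Int.fract (θ y - (α + k * δ)) < n * δ ∧ h y ≤ n * δ ↔ _
  have e : θ y - (α + k * δ) = (θ y - α) - k * δ := by ring
  rw [e, fract_iff_7109 _ _ _ (by positivity) (by positivity) hkn']
  push_cast
  rw [add_mul, and_assoc]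

theorem measurable_J_7109 {θ h : X → ℝ} (geo : Geo θ h) (α δ : ℝ) :
    Measurable (J7109 θ α δ) := by
  unfold J7109
  exact Nat.measurable_floor.comp ((measurable_fract.comp (geo.mθ.sub_const α)).div_const δ)

theorem measurable_H_7109 {θ h : X → ℝ} (geo : Geo θ h) (δ : ℝ) :
    Measurable (H7109 h δ) := by
  unfold H7109
  exact (measurable_from_top (f := fun n : ℕ => n - 1)).comp
    (Nat.measurable_ceil.comp (geo.mh.div_const δ))

/-- lower part of a column -/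
def D7109 (θ h : X → ℝ) (α δ : ℝ) (k n : ℕ) : Set X :=
  {y | J7109 θ α δ y = k ∧ H7109 h δ y < n}

/-- cell -/
def C7109 (θ h : X → ℝ) (α δ : ℝ) (k n : ℕ) : Set X :=
  {y | J7109 θ α δ y = k ∧ H7109 h δ y = n}

/-- the big box -/
def S7109 (θ h : X → ℝ) (α δ : ℝ) (N : ℕ) : Set X :=
  {y | J7109 θ α δ y < 2 * N ∧ H7109 h δ y < N}

theorem mD_7109 {θ h : X → ℝ} (geo : Geo θ h) (α δ : ℝ) (k n : ℕ) :
    MeasurableSet (D7109 θ h α δ k n) := by
  have h1 : MeasurableSet {y | J7109 θ α δ y = k} :=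
    measurable_J_7109 geo α δ (measurableSet_singleton k)
  have h2 : MeasurableSet {y | H7109 h δ y < n} :=
    measurable_H_7109 geo δ (measurableSet_Iio (a := n))
  exact h1.inter h2

theorem mC_7109 {θ h : X → ℝ} (geo : Geo θ h) (α δ : ℝ) (k n : ℕ) :
    MeasurableSet (C7109 θ h α δ k n) := by
  have h1 : MeasurableSet {y | J7109 θ α δ y = k} :=
    measurable_J_7109 geo α δ (measurableSet_singleton k)
  have h2 : MeasurableSet {y | H7109 h δ y = n} :=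
    measurable_H_7109 geo δ (measurableSet_singleton n)
  exact h1.inter h2

theorem mS_7109 {θ h : X → ℝ} (geo : Geo θ h) (α δ : ℝ) (N : ℕ) :
    MeasurableSet (S7109 θ h α δ N) := by
  have h1 : MeasurableSet {y | J7109 θ α δ y < 2 * N} :=
    measurable_J_7109 geo α δ (measurableSet_Iio (a := 2 * N))
  have h2 : MeasurableSet {y | H7109 h δ y < N} :=
    measurable_H_7109 geo δ (measurableSet_Iio (a := N))
  exact h1.inter h2

theorem mK_7109 {θ h : X → ℝ} (geo : Geo θ h) (x : X) : Measurable (fun y => K θ h x y) := by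
  have h1 : Measurable (fun y : X => (x, y)) := measurable_const.prodMk measurable_id
  have h2 := Measurable.comp (measurable_K geo) h1
  exact h2

theorem gen_int_7109 (s : Measure X) (ω : ℂ) (f : X → ℂ) (hf : Integrable f s) :
    Integrable (fun y => (ω * f y).re) s := by
  have h1 : Integrable (fun y => ω * f y) s := hf.const_mul ω
  exact h1.re

theorem gen_re_7109 (s : Measure X) (ω : ℂ) (f : X → ℂ) (hf : Integrable f s) :
    (ω * ∫ y, f y ∂s).re = ∫ y, (ω * f y).re ∂s := by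
  have h1 : Integrable (fun y => ω * f y) s := hf.const_mul ω
  rw [← integral_const_mul]
  have := Complex.reCLM.integral_comp_comm h1
  simpa using this.symm

/-- real part of the operator applied to an indicator -/
theorem re_Pop_7109 {θ h : X → ℝ} (geo : Geo θ h) (s : Measure X) [IsFiniteMeasure s]
    (ω : ℂ) (x : X) (B : Set X) (hB : MeasurableSet B) :
    (ω * Pop θ h s (B.indicator 1) x).re = ∫ y in B, (ω * K θ h x y).re ∂s := by
  have hm : Measurable (fun y => K θ h x y) := mK_7109 geo x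
  have hi : Integrable (fun y => K θ h x y) s :=
    Integrable.of_bound hm.aestronglyMeasurable (((h x) ^ 2)⁻¹)
      (Filter.Eventually.of_forall fun y => norm_K_le_left geo x y)
  have e1 : Pop θ h s (B.indicator 1) x = ∫ y in B, K θ h x y ∂s := by
    unfold Pop
    rw [← integral_indicator hB]
    congr 1
    funext y
    by_cases hy : y ∈ B
    · simp [hy]
    · simp [hy]
  rw [e1]
  exact gen_re_7109 (s.restrict B) ω _ hi.restrict

theorem int_g_7109 {θ h : X → ℝ} (geo : Geo θ h) (s : Measure X) [IsFiniteMeasure s]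
    (ω : ℂ) (x : X) : Integrable (fun y => (ω * K θ h x y).re) s := by
  have hm : Measurable (fun y => K θ h x y) := mK_7109 geo x
  have hi : Integrable (fun y => K θ h x y) s :=
    Integrable.of_bound hm.aestronglyMeasurable (((h x) ^ 2)⁻¹)
      (Filter.Eventually.of_forall fun y => norm_K_le_left geo x y)
  exact gen_int_7109 s ω _ hi

theorem measurable_Pop_7109 {θ h : X → ℝ} (geo : Geo θ h) (s : Measure X) [IsFiniteMeasure s]
    (B : Set X) (hB : MeasurableSet B) : Measurable (Pop θ h s (B.indicator 1)) := by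
  have h1 : StronglyMeasurable (Function.uncurry
      (fun x y => K θ h x y * ((B.indicator (1 : X → ℝ) y : ℝ) : ℂ))) := by
    apply Measurable.stronglyMeasurable
    apply Measurable.mul (measurable_K geo)
    apply Complex.measurable_ofReal.comp
    exact (measurable_one.indicator hB).comp measurable_snd
  exact (h1.integral_prod_right (ν := s)).measurable

theorem test_real_7109 {θ h : X → ℝ} (geo : Geo θ h) (s w : Measure X) [IsFiniteMeasure s]
    [IsFiniteMeasure w] {C0 : ℝ} (hC : 0 ≤ C0) (hT : Testing θ h s w C0) (a l : ℝ) (hl : 0 < l)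
    (hl1 : l ≤ 1) :
    Integrable (fun x => ‖Pop θ h s ((arcBox θ h a l).indicator 1) x‖ ^ 2) w ∧
      ∫ x, ‖Pop θ h s ((arcBox θ h a l).indicator 1) x‖ ^ 2 ∂w ≤
        C0 * s.real (arcBox θ h a l) := by
  have hm := measurable_Pop_7109 geo s (arcBox θ h a l) (measurableSet_arcBox geo a l)
  have hm2 : Measurable (fun x => ‖Pop θ h s ((arcBox θ h a l).indicator 1) x‖ ^ 2) :=
    hm.norm.pow_const 2
  have key := hT a l hl hl1
  have hfin : ENNReal.ofReal C0 * s (arcBox θ h a l) ≠ ⊤ :=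
    ENNReal.mul_ne_top ENNReal.ofReal_ne_top (measure_ne_top _ _)
  have e : ∀ x, ENNReal.ofReal (‖Pop θ h s ((arcBox θ h a l).indicator 1) x‖ ^ 2) =
      ‖Pop θ h s ((arcBox θ h a l).indicator 1) x‖ₑ ^ 2 := by
    intro x
    rw [ENNReal.ofReal_pow (norm_nonneg _), ofReal_norm]
  have key2 : ∫⁻ x, ENNReal.ofReal (‖Pop θ h s ((arcBox θ h a l).indicator 1) x‖ ^ 2) ∂w ≤
      ENNReal.ofReal C0 * s (arcBox θ h a l) := by
    simp_rw [e]; exact key
  constructor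
  · refine ⟨hm2.aestronglyMeasurable, ?_⟩
    rw [hasFiniteIntegral_iff_ofReal (Filter.Eventually.of_forall fun x => by positivity)]
    exact lt_of_le_of_lt key2 hfin.lt_top
  · rw [integral_eq_lintegral_of_nonneg_ae (Filter.Eventually.of_forall fun x => by positivity)
      hm2.aestronglyMeasurable]
    have := ENNReal.toReal_mono hfin key2
    rw [ENNReal.toReal_mul, ENNReal.toReal_ofReal hC] at this
    exact this

theorem int4_7109 (s : Measure X) (f1 f2 f3 f4 : X → ℝ) (h1 : Integrable f1 s)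
    (h2 : Integrable f2 s) (h3 : Integrable f3 s) (h4 : Integrable f4 s) :
    (∫ y, f1 y ∂s) - (∫ y, f2 y ∂s) - (∫ y, f3 y ∂s) + (∫ y, f4 y ∂s) =
      ∫ y, (f1 y - f2 y - f3 y + f4 y) ∂s := by
  have e1 : ∫ y, (f1 y - f2 y) ∂s = (∫ y, f1 y ∂s) - (∫ y, f2 y ∂s) := integral_sub h1 h2
  have e2 : ∫ y, ((f1 y - f2 y) - f3 y) ∂s = (∫ y, (f1 y - f2 y) ∂s) - (∫ y, f3 y ∂s) :=
    integral_sub (h1.sub h2) h3
  have e3 : ∫ y, ((f1 y - f2 y - f3 y) + f4 y) ∂s =
      (∫ y, (f1 y - f2 y - f3 y) ∂s) + (∫ y, f4 y ∂s) :=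
    integral_add ((h1.sub h2).sub h3) h4
  rw [e3, e2, e1]

theorem int6_7109 (w : Measure X) [IsFiniteMeasure w] (c : Set X) (f1 f2 f3 f4 : X → ℝ)
    (a b : ℝ) (h1 : Integrable f1 (w.restrict c))
    (h2 : Integrable f2 (w.restrict c)) (h3 : Integrable f3 (w.restrict c))
    (h4 : Integrable f4 (w.restrict c)) :
    ∫ y in c, (f1 y + f2 y + f3 y + f4 y + a + b) ∂w =
      (∫ y in c, f1 y ∂w) + (∫ y in c, f2 y ∂w) + (∫ y in c, f3 y ∂w) + (∫ y in c, f4 y ∂w) +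
      w.real c * a + w.real c * b := by
  have e1 : ∫ y in c, (f1 y + f2 y) ∂w = (∫ y in c, f1 y ∂w) + (∫ y in c, f2 y ∂w) :=
    integral_add h1 h2
  have e2 : ∫ y in c, ((f1 y + f2 y) + f3 y) ∂w =
      (∫ y in c, (f1 y + f2 y) ∂w) + (∫ y in c, f3 y ∂w) :=
    integral_add (h1.add h2) h3
  have e3 : ∫ y in c, ((f1 y + f2 y + f3 y) + f4 y) ∂w =
      (∫ y in c, (f1 y + f2 y + f3 y) ∂w) + (∫ y in c, f4 y ∂w) :=
    integral_add ((h1.add h2).add h3) h4
  have e4 : ∫ y in c, ((f1 y + f2 y + f3 y + f4 y) + a) ∂w =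
      (∫ y in c, (f1 y + f2 y + f3 y + f4 y) ∂w) + (∫ y in c, a ∂w) :=
    integral_add (((h1.add h2).add h3).add h4) (integrable_const a)
  have e5 : ∫ y in c, ((f1 y + f2 y + f3 y + f4 y + a) + b) ∂w =
      (∫ y in c, (f1 y + f2 y + f3 y + f4 y + a) ∂w) + (∫ y in c, b ∂w) :=
    integral_add ((((h1.add h2).add h3).add h4).add (integrable_const a)) (integrable_const b)
  rw [e5, e4, e3, e2, e1, setIntegral_const, setIntegral_const, smul_eq_mul, smul_eq_mul]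

theorem lower_7109 (s : Measure X) [IsFiniteMeasure s] (g : X → ℝ) (hg : Integrable g s)
    (B1 B2 B3 B4 C C' D' D'' : Set X) (mB1 : MeasurableSet B1) (mB2 : MeasurableSet B2)
    (mB3 : MeasurableSet B3) (mB4 : MeasurableSet B4) (mC : MeasurableSet C)
    (mC' : MeasurableSet C') (mD' : MeasurableSet D') (mD'' : MeasurableSet D'')
    (hid : ∀ y, B1.indicator (1 : X → ℝ) y - B2.indicator (1 : X → ℝ) y -
        B3.indicator (1 : X → ℝ) y + B4.indicator (1 : X → ℝ) y =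
      C.indicator (1 : X → ℝ) y - C'.indicator (1 : X → ℝ) y -
        D'.indicator (1 : X → ℝ) y + D''.indicator (1 : X → ℝ) y)
    (κ κ1 : ℝ) (hκ : ∀ y, |g y| ≤ κ) (h1 : ∀ y ∈ C, κ1 ≤ g y) (h2 : ∀ y ∈ C', g y ≤ 0) :
    κ1 * s.real C ≤ |∫ y in B1, g y ∂s| + |∫ y in B2, g y ∂s| + |∫ y in B3, g y ∂s| +
      |∫ y in B4, g y ∂s| + κ * s.real D' + κ * s.real D'' := by
  have key : ∀ B : Set X, MeasurableSet B →
      ∫ y in B, g y ∂s = ∫ y, B.indicator (1 : X → ℝ) y * g y ∂s := by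
    intro B hB
    rw [← integral_indicator hB]
    congr 1
    funext y
    by_cases hy : y ∈ B
    · simp [hy]
    · simp [hy]
  have hint : ∀ B : Set X, MeasurableSet B →
      Integrable (fun y => B.indicator (1 : X → ℝ) y * g y) s := by
    intro B hB
    have h3 := hg.indicator hB
    have e : (fun y => B.indicator (1 : X → ℝ) y * g y) = B.indicator g := by
      funext y
      by_cases hy : y ∈ B
      · simp [hy]
      · simp [hy]
    rw [e]; exact h3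
  have comb : ∀ A1 A2 A3 A4 : Set X, MeasurableSet A1 → MeasurableSet A2 → MeasurableSet A3 →
      MeasurableSet A4 →
      (∫ y in A1, g y ∂s) - (∫ y in A2, g y ∂s) - (∫ y in A3, g y ∂s) + (∫ y in A4, g y ∂s) =
      ∫ y, (A1.indicator (1 : X → ℝ) y - A2.indicator (1 : X → ℝ) y -
        A3.indicator (1 : X → ℝ) y + A4.indicator (1 : X → ℝ) y) * g y ∂s := by
    intro A1 A2 A3 A4 m1 m2 m3 m4
    rw [key A1 m1, key A2 m2, key A3 m3, key A4 m4,
      int4_7109 s _ _ _ _ (hint A1 m1) (hint A2 m2) (hint A3 m3) (hint A4 m4)]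
    congr 1
    funext y
    ring
  have main := (comb B1 B2 B3 B4 mB1 mB2 mB3 mB4)
  have main2 := (comb C C' D' D'' mC mC' mD' mD'')
  simp_rw [hid] at main
  rw [← main2] at main
  have b1 : κ1 * s.real C ≤ ∫ y in C, g y ∂s := by
    have := setIntegral_mono_on (μ := s) (s := C) (f := fun _ => κ1) (g := g)
      (integrable_const κ1).integrableOn hg.integrableOn mC h1
    rw [setIntegral_const, smul_eq_mul] at this
    linarith
  have b2 : ∫ y in C', g y ∂s ≤ 0 := setIntegral_nonpos mC' h2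
  have b3 : ∫ y in D', g y ∂s ≤ κ * s.real D' := by
    have := setIntegral_mono_on (μ := s) (s := D') (f := g) (g := fun _ => κ)
      hg.integrableOn (integrable_const κ).integrableOn mD' (fun y _ => (abs_le.1 (hκ y)).2)
    rw [setIntegral_const, smul_eq_mul] at this
    linarith
  have b4 : -(κ * s.real D'') ≤ ∫ y in D'', g y ∂s := by
    have := setIntegral_mono_on (μ := s) (s := D'') (f := fun _ => -κ) (g := g)
      (integrable_const (-κ)).integrableOn hg.integrableOn mD'' (fun y _ => (abs_le.1 (hκ y)).1)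
    rw [setIntegral_const, smul_eq_mul] at this
    linarith
  have c1 := le_abs_self (∫ y in B1, g y ∂s)
  have c2 := neg_abs_le (∫ y in B2, g y ∂s)
  have c3 := neg_abs_le (∫ y in B3, g y ∂s)
  have c4 := le_abs_self (∫ y in B4, g y ∂s)
  linarith

theorem sq6_7109 (t a b c d e f : ℝ) (ht : 0 ≤ t) (h : t ≤ a + b + c + d + e + f) :
    t ^ 2 ≤ 6 * (a ^ 2 + b ^ 2 + c ^ 2 + d ^ 2 + e ^ 2 + f ^ 2) := by
  have h1 : t ^ 2 ≤ (a + b + c + d + e + f) ^ 2 := by
    apply pow_le_pow_left₀ ht h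
  have h2 : (a + b + c + d + e + f) ^ 2 ≤
      6 * (a ^ 2 + b ^ 2 + c ^ 2 + d ^ 2 + e ^ 2 + f ^ 2) := by
    nlinarith [sq_nonneg (a - b), sq_nonneg (a - c), sq_nonneg (a - d), sq_nonneg (a - e),
      sq_nonneg (a - f), sq_nonneg (b - c), sq_nonneg (b - d), sq_nonneg (b - e),
      sq_nonneg (b - f), sq_nonneg (c - d), sq_nonneg (c - e), sq_nonneg (c - f),
      sq_nonneg (d - e), sq_nonneg (d - f), sq_nonneg (e - f)]
  linarith

theorem norm_K_c_7109 {θ h : X → ℝ} (geo : Geo θ h) {h0 : ℝ} (hh0 : 0 < h0) (x y : X)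
    (hx : h0 / 2 ≤ h x) : ‖K θ h x y‖ ≤ 4 / h0 ^ 2 := by
  refine (norm_K_le_left geo x y).trans ?_
  have h1 : (h0 / 2) ^ 2 ≤ (h x) ^ 2 := pow_le_pow_left₀ (by positivity) hx 2
  have h2 : ((h x) ^ 2)⁻¹ ≤ ((h0 / 2) ^ 2)⁻¹ := inv_anti₀ (by positivity) h1
  refine h2.trans (le_of_eq ?_)
  field_simp
  norm_num

theorem step_7109 {θ h : X → ℝ} (geo : Geo θ h) (s w : Measure X) [IsFiniteMeasure s]
    [IsFiniteMeasure w] {C0 : ℝ} (hC : 0 ≤ C0) (hT : Testing θ h s w C0)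
    (c : Set X) (hcm : MeasurableSet c) {h0 : ℝ} (hh0 : 0 < h0) (hc : ∀ x ∈ c, h0 / 2 ≤ h x)
    (T : Set X) (a1 a2 a3 a4 l1 l2 l3 l4 : ℝ) (p1 : 0 < l1) (p2 : 0 < l2) (p3 : 0 < l3)
    (p4 : 0 < l4) (q1 : l1 ≤ 1) (q2 : l2 ≤ 1) (q3 : l3 ≤ 1) (q4 : l4 ≤ 1)
    (t1 : arcBox θ h a1 l1 ⊆ T) (t2 : arcBox θ h a2 l2 ⊆ T) (t3 : arcBox θ h a3 l3 ⊆ T)
    (t4 : arcBox θ h a4 l4 ⊆ T)
    (C C' D' D'' : Set X) (mC : MeasurableSet C)
    (mC' : MeasurableSet C') (mD' : MeasurableSet D') (mD'' : MeasurableSet D'')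
    (hid : ∀ y, (arcBox θ h a1 l1).indicator (1 : X → ℝ) y -
        (arcBox θ h a2 l2).indicator (1 : X → ℝ) y -
        (arcBox θ h a3 l3).indicator (1 : X → ℝ) y +
        (arcBox θ h a4 l4).indicator (1 : X → ℝ) y =
      C.indicator (1 : X → ℝ) y - C'.indicator (1 : X → ℝ) y -
        D'.indicator (1 : X → ℝ) y + D''.indicator (1 : X → ℝ) y)
    {c1 : ℝ} (hc1 : 0 < c1)
    (hω : ∀ x ∈ c, ∃ ω : ℂ, ‖ω‖ = 1 ∧ (∀ y ∈ C, c1 / h0 ^ 2 ≤ (ω * K θ h x y).re) ∧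
      (∀ y ∈ C', (ω * K θ h x y).re ≤ 0)) :
    c1 ^ 2 * (w.real c * s.real C ^ 2) ≤ 6 * (4 * C0 * h0 ^ 4 * s.real T +
      16 * (w.real c * s.real D' ^ 2) + 16 * (w.real c * s.real D'' ^ 2)) := by
  have I1 := test_real_7109 geo s w hC hT a1 l1 p1 q1
  have I2 := test_real_7109 geo s w hC hT a2 l2 p2 q2
  have I3 := test_real_7109 geo s w hC hT a3 l3 p3 q3
  have I4 := test_real_7109 geo s w hC hT a4 l4 p4 q4
  set B1 := arcBox θ h a1 l1 with hB1
  set B2 := arcBox θ h a2 l2 with hB2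
  set B3 := arcBox θ h a3 l3 with hB3
  set B4 := arcBox θ h a4 l4 with hB4
  have mB1 : MeasurableSet B1 := measurableSet_arcBox geo _ _
  have mB2 : MeasurableSet B2 := measurableSet_arcBox geo _ _
  have mB3 : MeasurableSet B3 := measurableSet_arcBox geo _ _
  have mB4 : MeasurableSet B4 := measurableSet_arcBox geo _ _
  have pw : ∀ x ∈ c, (c1 / h0 ^ 2 * s.real C) ^ 2 ≤
      6 * (‖Pop θ h s (B1.indicator 1) x‖ ^ 2 + ‖Pop θ h s (B2.indicator 1) x‖ ^ 2 +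
        ‖Pop θ h s (B3.indicator 1) x‖ ^ 2 + ‖Pop θ h s (B4.indicator 1) x‖ ^ 2 +
        (4 / h0 ^ 2 * s.real D') ^ 2 + (4 / h0 ^ 2 * s.real D'') ^ 2) := by
    intro x hx
    obtain ⟨ω, hω1, hω2, hω3⟩ := hω x hx
    have hb : ∀ y, |(ω * K θ h x y).re| ≤ 4 / h0 ^ 2 := by
      intro y
      refine (Complex.abs_re_le_norm _).trans ?_
      rw [norm_mul, hω1, one_mul]
      exact norm_K_c_7109 geo hh0 x y (hc x hx)
    have L := lower_7109 s (fun y => (ω * K θ h x y).re) (int_g_7109 geo s ω x)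
      B1 B2 B3 B4 C C' D' D'' mB1 mB2 mB3 mB4 mC mC' mD' mD'' hid _ _ hb hω2 hω3
    have hP : ∀ B : Set X, MeasurableSet B →
        |∫ y in B, (ω * K θ h x y).re ∂s| ≤ ‖Pop θ h s (B.indicator 1) x‖ := by
      intro B hB
      rw [← re_Pop_7109 geo s ω x B hB]
      refine (Complex.abs_re_le_norm _).trans ?_
      rw [norm_mul, hω1, one_mul]
    have P1 := hP B1 mB1
    have P2 := hP B2 mB2
    have P3 := hP B3 mB3
    have P4 := hP B4 mB4
    apply sq6_7109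
    · positivity
    · linarith
  have J : ∫ x in c, (c1 / h0 ^ 2 * s.real C) ^ 2 ∂w ≤ ∫ x in c,
      6 * (‖Pop θ h s (B1.indicator 1) x‖ ^ 2 + ‖Pop θ h s (B2.indicator 1) x‖ ^ 2 +
        ‖Pop θ h s (B3.indicator 1) x‖ ^ 2 + ‖Pop θ h s (B4.indicator 1) x‖ ^ 2 +
        (4 / h0 ^ 2 * s.real D') ^ 2 + (4 / h0 ^ 2 * s.real D'') ^ 2) ∂w := by
    apply setIntegral_mono_on _ _ hcm pw
    · exact (integrable_const _).integrableOn
    · exact ((((((I1.1.add I2.1).add I3.1).add I4.1).add (integrable_const _)).add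
        (integrable_const _)).const_mul 6).integrableOn
  have J2 : ∫ x in c,
      6 * (‖Pop θ h s (B1.indicator 1) x‖ ^ 2 + ‖Pop θ h s (B2.indicator 1) x‖ ^ 2 +
        ‖Pop θ h s (B3.indicator 1) x‖ ^ 2 + ‖Pop θ h s (B4.indicator 1) x‖ ^ 2 +
        (4 / h0 ^ 2 * s.real D') ^ 2 + (4 / h0 ^ 2 * s.real D'') ^ 2) ∂w =
      6 * ((∫ x in c, ‖Pop θ h s (B1.indicator 1) x‖ ^ 2 ∂w) +
        (∫ x in c, ‖Pop θ h s (B2.indicator 1) x‖ ^ 2 ∂w) +
        (∫ x in c, ‖Pop θ h s (B3.indicator 1) x‖ ^ 2 ∂w) +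
        (∫ x in c, ‖Pop θ h s (B4.indicator 1) x‖ ^ 2 ∂w) +
        w.real c * (4 / h0 ^ 2 * s.real D') ^ 2 + w.real c * (4 / h0 ^ 2 * s.real D'') ^ 2) := by
    rw [integral_const_mul]
    congr 1
    have i1 := I1.1.integrableOn (s := c)
    have i2 := I2.1.integrableOn (s := c)
    have i3 := I3.1.integrableOn (s := c)
    have i4 := I4.1.integrableOn (s := c)
    exact int6_7109 w c _ _ _ _ _ _ i1 i2 i3 i4
  rw [J2, setIntegral_const, smul_eq_mul] at J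
  have S1 : ∀ B : Set X, Integrable (fun x => ‖Pop θ h s (B.indicator 1) x‖ ^ 2) w →
      ∫ x in c, ‖Pop θ h s (B.indicator 1) x‖ ^ 2 ∂w ≤
        ∫ x, ‖Pop θ h s (B.indicator 1) x‖ ^ 2 ∂w := by
    intro B hB
    exact setIntegral_le_integral hB (Filter.Eventually.of_forall fun x => by positivity)
  have M1 : C0 * s.real B1 ≤ C0 * s.real T :=
    mul_le_mul_of_nonneg_left (measureReal_mono t1) hC
  have M2 : C0 * s.real B2 ≤ C0 * s.real T :=
    mul_le_mul_of_nonneg_left (measureReal_mono t2) hC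
  have M3 : C0 * s.real B3 ≤ C0 * s.real T :=
    mul_le_mul_of_nonneg_left (measureReal_mono t3) hC
  have M4 : C0 * s.real B4 ≤ C0 * s.real T :=
    mul_le_mul_of_nonneg_left (measureReal_mono t4) hC
  have R1 := (S1 B1 I1.1).trans (I1.2.trans M1)
  have R2 := (S1 B2 I2.1).trans (I2.2.trans M2)
  have R3 := (S1 B3 I3.1).trans (I3.2.trans M3)
  have R4 := (S1 B4 I4.1).trans (I4.2.trans M4)
  have F : w.real c * (c1 / h0 ^ 2 * s.real C) ^ 2 ≤ 6 * (4 * (C0 * s.real T) +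
      w.real c * (4 / h0 ^ 2 * s.real D') ^ 2 + w.real c * (4 / h0 ^ 2 * s.real D'') ^ 2) := by
    linarith
  have F2 := mul_le_mul_of_nonneg_left F (by positivity : (0:ℝ) ≤ h0 ^ 4)
  have e1 : h0 ^ 4 * (w.real c * (c1 / h0 ^ 2 * s.real C) ^ 2) =
      c1 ^ 2 * (w.real c * s.real C ^ 2) := by
    field_simp
  have e2 : h0 ^ 4 * (6 * (4 * (C0 * s.real T) +
      w.real c * (4 / h0 ^ 2 * s.real D') ^ 2 + w.real c * (4 / h0 ^ 2 * s.real D'') ^ 2)) =
      6 * (4 * C0 * h0 ^ 4 * s.real T +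
      16 * (w.real c * s.real D' ^ 2) + 16 * (w.real c * s.real D'' ^ 2)) := by
    field_simp
    ring
  rw [e1, e2] at F2
  exact F2

theorem re_inv_sq_7109 (ε : ℂ) (hε : ‖ε‖ ≤ 8 / 100) : 1 / 2 ≤ (((1 + ε) ^ 2)⁻¹).re := by
  have h1 : |ε.re| ≤ 8 / 100 := (Complex.abs_re_le_norm ε).trans hε
  have h2 : |ε.im| ≤ 8 / 100 := (Complex.abs_im_le_norm ε).trans hε
  obtain ⟨a1, a2⟩ := abs_le.1 h1
  obtain ⟨b1, b2⟩ := abs_le.1 h2
  rw [Complex.inv_re, map_pow, Complex.normSq_apply]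
  have e1 : ((1 + ε) ^ 2).re = (1 + ε.re) ^ 2 - ε.im ^ 2 := by
    rw [pow_two, Complex.mul_re]
    simp
    ring
  rw [e1]
  have e2 : (1 + ε).re = 1 + ε.re := by simp
  have e3 : (1 + ε).im = ε.im := by simp
  rw [e2, e3]
  set a := ε.re
  set b := ε.im
  have hb2 : b ^ 2 ≤ 64 / 10000 := by nlinarith
  have ha1 : (92 / 100) ^ 2 ≤ (1 + a) ^ 2 := by nlinarith
  have ha2 : (1 + a) ^ 2 ≤ (108 / 100) ^ 2 := by nlinarith
  have hpos : 0 < (1 + a) * (1 + a) + b * b := by nlinarith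
  rw [le_div_iff₀ (by positivity)]
  have h3 : (1 + a) * (1 + a) + b * b ≤ 1.173 := by nlinarith
  have h4 : ((1 + a) * (1 + a) + b * b) ^ 2 ≤ 1.173 ^ 2 := pow_le_pow_left₀ hpos.le h3 2
  nlinarith

theorem rho_7109 (d d0 : ℂ) (hd0 : d0 ≠ 0) (hd : ‖d - d0‖ ≤ 8 / 100 * ‖d0‖) :
    1 / (2 * ‖d0‖ ^ 2) ≤ ((d0 / (‖d0‖ : ℂ)) ^ 2 * (d ^ 2)⁻¹).re := by
  have hn : 0 < ‖d0‖ := norm_pos_iff.2 hd0
  set ε : ℂ := (d - d0) / d0 with hε
  have hεn : ‖ε‖ ≤ 8 / 100 := by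
    rw [hε, norm_div, div_le_iff₀ hn]; exact hd
  have hdd : d = d0 * (1 + ε) := by
    rw [hε]; field_simp; ring
  have key := re_inv_sq_7109 ε hεn
  have hz : (1 + ε) ≠ 0 := by
    intro h0
    have : ε = -1 := by linear_combination h0
    rw [this] at hεn
    norm_num at hεn
  have e : (d0 / (‖d0‖ : ℂ)) ^ 2 * (d ^ 2)⁻¹ = (((‖d0‖ ^ 2)⁻¹ : ℝ) : ℂ) * ((1 + ε) ^ 2)⁻¹ := by
    rw [hdd]
    have hn' : (‖d0‖ : ℂ) ≠ 0 := by exact_mod_cast hn.ne'
    push_cast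
    field_simp
  rw [e, Complex.re_ofReal_mul]
  have : 1 / (2 * ‖d0‖ ^ 2) = (‖d0‖ ^ 2)⁻¹ * (1 / 2) := by
    field_simp
  rw [this]
  exact mul_le_mul_of_nonneg_left key (by positivity)

theorem base_7109 {θ h : X → ℝ} (geo : Geo θ h) (s w : Measure X) [IsFiniteMeasure s]
    [IsFiniteMeasure w] {C0 : ℝ} (hC : 0 ≤ C0) (hT : Testing θ h s w C0)
    (c : Set X) (hcm : MeasurableSet c) {h0 : ℝ} (hh0 : 0 < h0) (hh1 : h0 ≤ 1)
    (hc : ∀ x ∈ c, h0 / 2 ≤ h x) (a : ℝ) (R : ℝ) (hR0 : 0 < R)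
    (hR : ∀ x ∈ c, ‖den (θ x, h x) (a, h0 / 200)‖ ≤ R * h0) :
    w.real c * s.real (arcBox θ h a (h0 / 200)) ≤ 4 * R ^ 4 * C0 * h0 ^ 4 := by
  have I1 := test_real_7109 geo s w hC hT a (h0 / 200) (by positivity) (by linarith)
  set B := arcBox θ h a (h0 / 200) with hB
  have mB : MeasurableSet B := measurableSet_arcBox geo _ _
  have pw : ∀ x ∈ c, (1 / (2 * (R * h0) ^ 2) * s.real B) ^ 2 ≤
      ‖Pop θ h s (B.indicator 1) x‖ ^ 2 := by
    intro x hx
    set d0 := den (θ x, h x) (a, h0 / 200) with hd0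
    have hge : h x ≤ ‖d0‖ := den_ge_left (u := (θ x, h x)) (v := (a, h0 / 200))
      (geo.h0 x).le (geo.h1 x) (by show 0 ≤ h0 / 200; positivity)
      (by show h0 / 200 ≤ 1; linarith)
    have hx2 := hc x hx
    have hd0n : h0 / 2 ≤ ‖d0‖ := hx2.trans hge
    have hd00 : d0 ≠ 0 := by
      rw [← norm_pos_iff]; linarith
    have hω1 : ‖(d0 / (‖d0‖ : ℂ)) ^ 2‖ = 1 := by
      rw [norm_pow, norm_div, Complex.norm_real, norm_norm,
        div_self (norm_ne_zero_iff.2 hd00), one_pow]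
    set ω : ℂ := (d0 / (‖d0‖ : ℂ)) ^ 2 with hω
    have hlow : ∀ y ∈ B, 1 / (2 * (R * h0) ^ 2) ≤ (ω * K θ h x y).re := by
      intro y hy
      have hy1 : Int.fract (θ y - a) < h0 / 200 := hy.1
      have hy2 : h y ≤ h0 / 200 := hy.2
      have hdd := den_sub_le_right (u := (θ x, h x)) (v := (θ y, h y)) (v' := (a, h0 / 200))
        (geo.h0 x).le (geo.h1 x) (geo.h0 y).le (geo.h1 y)
        (by show 0 ≤ h0 / 200; positivity) (by show h0 / 200 ≤ 1; linarith)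
      have hdd' : ‖den (θ x, h x) (θ y, h y) - d0‖ ≤ |h y - h0 / 200| +
        2 * Real.pi * nd (θ y - a) := hdd
      have hnd := nd_fract_7109 (θ y - a)
      have hpi : Real.pi < 3.15 := Real.pi_lt_d2
      have hpi0 := Real.pi_pos
      have hnd0 : 0 ≤ nd (θ y - a) := abs_nonneg _
      have h3 : |h y - h0 / 200| ≤ h0 / 200 := by
        rw [abs_le]; constructor <;> linarith [geo.h0 y]
      have h4 : 2 * Real.pi * nd (θ y - a) ≤ 2 * 3.15 * (h0 / 200) := by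
        apply mul_le_mul (by linarith) (by linarith) hnd0 (by norm_num)
      have h5 : ‖den (θ x, h x) (θ y, h y) - d0‖ ≤ 8 / 100 * ‖d0‖ := by
        nlinarith
      have h6 := rho_7109 _ d0 hd00 h5
      have h7 : 1 / (2 * (R * h0) ^ 2) ≤ 1 / (2 * ‖d0‖ ^ 2) := by
        apply one_div_le_one_div_of_le
        · positivity
        · have := hR x hx
          have h8 : ‖d0‖ ^ 2 ≤ (R * h0) ^ 2 := pow_le_pow_left₀ (norm_nonneg _) this 2
          linarith
      exact h7.trans h6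
    have b1 : 1 / (2 * (R * h0) ^ 2) * s.real B ≤ ∫ y in B, (ω * K θ h x y).re ∂s := by
      have := setIntegral_mono_on (μ := s) (s := B) (f := fun _ => 1 / (2 * (R * h0) ^ 2))
        (g := fun y => (ω * K θ h x y).re)
        (integrable_const _).integrableOn (int_g_7109 geo s ω x).integrableOn mB hlow
      rw [setIntegral_const, smul_eq_mul] at this
      linarith
    rw [← re_Pop_7109 geo s ω x B mB] at b1
    have b2 : (ω * Pop θ h s (B.indicator 1) x).re ≤ ‖Pop θ h s (B.indicator 1) x‖ := by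
      refine (Complex.re_le_norm _).trans ?_
      rw [norm_mul, hω1, one_mul]
    exact pow_le_pow_left₀ (by positivity) (b1.trans b2) 2
  have J : ∫ x in c, (1 / (2 * (R * h0) ^ 2) * s.real B) ^ 2 ∂w ≤ ∫ x in c,
      ‖Pop θ h s (B.indicator 1) x‖ ^ 2 ∂w := by
    apply setIntegral_mono_on _ _ hcm pw
    · exact (integrable_const _).integrableOn
    · exact I1.1.integrableOn
  rw [setIntegral_const, smul_eq_mul] at J
  have S1 : ∫ x in c, ‖Pop θ h s (B.indicator 1) x‖ ^ 2 ∂w ≤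
        ∫ x, ‖Pop θ h s (B.indicator 1) x‖ ^ 2 ∂w :=
    setIntegral_le_integral I1.1 (Filter.Eventually.of_forall fun x => by positivity)
  have F := (J.trans S1).trans I1.2
  have hA : 0 ≤ s.real B := measureReal_nonneg
  rcases hA.eq_or_lt with h0' | h0'
  · rw [← h0', mul_zero]; positivity
  · have e1 : w.real c * (1 / (2 * (R * h0) ^ 2) * s.real B) ^ 2 =
        (w.real c * s.real B * (1 / (4 * R ^ 4 * h0 ^ 4))) * s.real B := by
      field_simp
      ring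
    rw [e1] at F
    have F2 := le_of_mul_le_mul_right F h0'
    rw [mul_one_div, div_le_iff₀ (by positivity)] at F2
    linarith

omit [MeasurableSpace X] in
theorem hind_7109 (y : X) (B : Set X) (P : Prop) [Decidable P] (hP : y ∈ B ↔ P) :
    B.indicator (1 : X → ℝ) y = if P then 1 else 0 := by
  by_cases h : P
  · have : y ∈ B := hP.2 h
    simp [this, h]
  · have : y ∉ B := fun h' => h (hP.1 h')
    simp [this, h]

omit [MeasurableSpace X] in
theorem indC_7109 (θ h : X → ℝ) (α δ : ℝ) (k n : ℕ) (y : X) :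
    (C7109 θ h α δ k n).indicator (1 : X → ℝ) y =
      if J7109 θ α δ y = k ∧ H7109 h δ y = n then 1 else 0 :=
  hind_7109 y _ _ Iff.rfl

omit [MeasurableSpace X] in
theorem indD_7109 (θ h : X → ℝ) (α δ : ℝ) (k n : ℕ) (y : X) :
    (D7109 θ h α δ k n).indicator (1 : X → ℝ) y =
      if J7109 θ α δ y = k ∧ H7109 h δ y < n then 1 else 0 :=
  hind_7109 y _ _ Iff.rfl

theorem ident_right_7109 {θ h : X → ℝ} (geo : Geo θ h) {α δ : ℝ} (hδ : 0 < δ) (k n : ℕ)
    (hk : ((k + n + 2 : ℕ) : ℝ) * δ ≤ 1) (y : X) :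
    (arcBox θ h (α + (k : ℕ) * δ) ((n + 1 : ℕ) * δ)).indicator (1 : X → ℝ) y -
      (arcBox θ h (α + (k + 1 : ℕ) * δ) ((n + 1 : ℕ) * δ)).indicator (1 : X → ℝ) y -
      (arcBox θ h (α + (k : ℕ) * δ) ((n : ℕ) * δ)).indicator (1 : X → ℝ) y +
      (arcBox θ h (α + (k + 1 : ℕ) * δ) ((n : ℕ) * δ)).indicator (1 : X → ℝ) y =
    (C7109 θ h α δ k n).indicator (1 : X → ℝ) y -
      (C7109 θ h α δ (k + n + 1) n).indicator (1 : X → ℝ) y -
      (D7109 θ h α δ (k + n + 1) n).indicator (1 : X → ℝ) y +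
      (D7109 θ h α δ (k + n) n).indicator (1 : X → ℝ) y := by
  have hle : ∀ m : ℕ, m ≤ k + n + 2 → (m : ℝ) * δ ≤ 1 := by
    intro m hm
    refine le_trans ?_ hk
    apply mul_le_mul_of_nonneg_right _ hδ.le
    exact_mod_cast hm
  have m1 := mem_box_7109 (α := α) geo hδ k (n + 1) (hle _ (by omega)) y
  have m2 := mem_box_7109 (α := α) geo hδ (k + 1) (n + 1) (hle _ (by omega)) y
  have m3 := mem_box_7109 (α := α) geo hδ k n (hle _ (by omega)) y
  have m4 := mem_box_7109 (α := α) geo hδ (k + 1) n (hle _ (by omega)) y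
  rw [hind_7109 y _ _ m1, hind_7109 y _ _ m2, hind_7109 y _ _ m3, hind_7109 y _ _ m4,
    indC_7109, indC_7109, indD_7109, indD_7109]
  generalize J7109 θ α δ y = j
  generalize H7109 h δ y = i
  split_ifs <;> first | omega | norm_num

theorem ident_left_7109 {θ h : X → ℝ} (geo : Geo θ h) {α δ : ℝ} (hδ : 0 < δ) (m n : ℕ)
    (hk : ((m + n + 2 : ℕ) : ℝ) * δ ≤ 1) (y : X) :
    (arcBox θ h (α + (m + 1 : ℕ) * δ) ((n + 1 : ℕ) * δ)).indicator (1 : X → ℝ) y -
      (arcBox θ h (α + (m : ℕ) * δ) ((n + 1 : ℕ) * δ)).indicator (1 : X → ℝ) y -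
      (arcBox θ h (α + (m + 2 : ℕ) * δ) ((n : ℕ) * δ)).indicator (1 : X → ℝ) y +
      (arcBox θ h (α + (m + 1 : ℕ) * δ) ((n : ℕ) * δ)).indicator (1 : X → ℝ) y =
    (C7109 θ h α δ (m + n + 1) n).indicator (1 : X → ℝ) y -
      (C7109 θ h α δ m n).indicator (1 : X → ℝ) y -
      (D7109 θ h α δ m n).indicator (1 : X → ℝ) y +
      (D7109 θ h α δ (m + 1) n).indicator (1 : X → ℝ) y := by
  have hle : ∀ r : ℕ, r ≤ m + n + 2 → (r : ℝ) * δ ≤ 1 := by
    intro r hm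
    refine le_trans ?_ hk
    apply mul_le_mul_of_nonneg_right _ hδ.le
    exact_mod_cast hm
  have m1 := mem_box_7109 (α := α) geo hδ (m + 1) (n + 1) (hle _ (by omega)) y
  have m2 := mem_box_7109 (α := α) geo hδ m (n + 1) (hle _ (by omega)) y
  have m3 := mem_box_7109 (α := α) geo hδ (m + 2) n (hle _ (by omega)) y
  have m4 := mem_box_7109 (α := α) geo hδ (m + 1) n (hle _ (by omega)) y
  rw [hind_7109 y _ _ m1, hind_7109 y _ _ m2, hind_7109 y _ _ m3, hind_7109 y _ _ m4,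
    indC_7109, indC_7109, indD_7109, indD_7109]
  generalize J7109 θ α δ y = j
  generalize H7109 h δ y = i
  split_ifs <;> first | omega | norm_num

/-- the target set -/
def c7109 (θ h : X → ℝ) (θ0 h0 : ℝ) : Set X :=
  {x | nd (θ x - θ0) ≤ h0 ∧ h0 / 2 ≤ h x ∧ h x ≤ h0}

theorem mc_7109 {θ h : X → ℝ} (geo : Geo θ h) (θ0 h0 : ℝ) :
    MeasurableSet (c7109 θ h θ0 h0) := by
  have hr : Measurable (fun t : ℝ => nd t) := by
    have e : (fun t : ℝ => nd t) = fun t : ℝ => |t - ((⌊t + 1 / 2⌋ : ℤ) : ℝ)| := by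
      funext t
      unfold nd
      rw [round_eq]
    rw [e]
    have h1 : Measurable (fun t : ℝ => ((⌊t + 1 / 2⌋ : ℤ) : ℝ)) :=
      (measurable_from_top (f := fun n : ℤ => (n : ℝ))).comp
        (Int.measurable_floor.comp (measurable_id.add_const (1 / 2)))
    exact (measurable_id.sub h1).abs
  have h1 : MeasurableSet {x | nd (θ x - θ0) ≤ h0} :=
    measurableSet_le (hr.comp (geo.mθ.sub_const θ0)) measurable_const
  have h2 : MeasurableSet {x | h0 / 2 ≤ h x} := measurableSet_le measurable_const geo.mh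
  have h3 : MeasurableSet {x | h x ≤ h0} := measurableSet_le geo.mh measurable_const
  exact h1.inter (h2.inter h3)

omit [MeasurableSpace X] in
theorem nd_c_7109 {θ h : X → ℝ} {θ0 h0 δ : ℝ} {N : ℕ} (x : X) (hx : x ∈ c7109 θ h θ0 h0)
    (hδ : 0 < δ) (k : ℕ) (hk : k ≤ 2 * N) :
    nd (θ x - (θ0 - N * δ + k * δ)) ≤ h0 + N * δ := by
  have e : θ x - (θ0 - N * δ + k * δ) = (θ x - θ0) + ((N : ℝ) - k) * δ := by ring
  rw [e]
  refine (nd_add_le_7109 _ _).trans ?_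
  have h1 : nd (θ x - θ0) ≤ h0 := hx.1
  have h2 : |((N : ℝ) - k) * δ| ≤ N * δ := by
    rw [abs_mul, abs_of_pos hδ]
    apply mul_le_mul_of_nonneg_right _ hδ.le
    have hk' : (k : ℝ) ≤ 2 * N := by exact_mod_cast hk
    have hk0 : (0 : ℝ) ≤ k := Nat.cast_nonneg k
    rw [abs_le]; constructor <;> linarith
  linarith

theorem cell_7109 {θ h : X → ℝ} (geo : Geo θ h) {α δ : ℝ} (hδ : 0 < δ) (k n : ℕ) (y : X)
    (hy : y ∈ C7109 θ h α δ k n) :
    h y ≤ (n + 1 : ℕ) * δ ∧ |h y - (n + 1 : ℕ) * δ| ≤ δ ∧ nd (θ y - (α + k * δ)) ≤ δ := by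
  obtain ⟨hy1, hy2⟩ := hy
  have h1 : h y ≤ (n + 1 : ℕ) * δ := (H_lt_7109 hδ y (geo.h0 y) (n + 1)).1 (by omega)
  have h2 : ¬ (h y ≤ n * δ) := fun h' => by
    have := (H_lt_7109 hδ y (geo.h0 y) n).2 h'
    omega
  have h3 : (k : ℝ) * δ ≤ Int.fract (θ y - α) := (le_J_7109 hδ y k).1 (by omega)
  have h4 : Int.fract (θ y - α) < (k + 1 : ℕ) * δ := (J_lt_7109 hδ y (k + 1)).1 (by omega)
  refine ⟨h1, ?_, ?_⟩
  · push_cast at h1 ⊢
    rw [abs_le]; constructor <;> nlinarith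
  · refine (nd_le_7109 _ ⌊θ y - α⌋).trans ?_
    have e : θ y - (α + k * δ) - (⌊θ y - α⌋ : ℝ) = Int.fract (θ y - α) - k * δ := by
      have := Int.fract_add_floor (θ y - α)
      linarith
    rw [e]
    push_cast at h4
    rw [abs_le]; constructor <;> nlinarith

theorem box_sub_7109 {θ h : X → ℝ} (geo : Geo θ h) {α δ : ℝ} (hδ : 0 < δ) (N k n : ℕ)
    (hN : ((2 * N : ℕ) : ℝ) * δ ≤ 1) (hk : k + n ≤ 2 * N) (hn : n ≤ N) :
    arcBox θ h (α + k * δ) (n * δ) ⊆ S7109 θ h α δ N := by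
  intro y hy
  have hle : ((k + n : ℕ) : ℝ) * δ ≤ 1 := by
    refine le_trans ?_ hN
    apply mul_le_mul_of_nonneg_right _ hδ.le
    exact_mod_cast hk
  obtain ⟨h1, h2, h3⟩ := (mem_box_7109 geo hδ k n hle y).1 hy
  exact ⟨by omega, by omega⟩

/-- rotating phases, from `phase_sep` -/
theorem phase_7109 {θ h : X → ℝ} (geo : Geo θ h) {M' P c1 h0 δ θ0 : ℝ} {N : ℕ}
    (hh0 : 0 < h0) (hδ : 0 < δ) (_hδP : δ ≤ h0 / P) (hM' : h0 + N * δ ≤ M' * h0)
    (hps : ∀ u v v' : ℝ × ℝ, h0 / 2 ≤ u.2 → u.2 ≤ h0 → 0 < v.2 → v.2 ≤ M' * h0 → v'.2 = v.2 →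
      nd (u.1 - v.1) ≤ M' * h0 → nd (u.1 - v'.1) ≤ M' * h0 →
      ∀ β : ℝ, h0 / 200 ≤ |β| → |β| ≤ M' * h0 → v'.1 = v.1 + β →
      ∃ ω : ℂ, ‖ω‖ = 1 ∧
        (∀ y : ℝ × ℝ, 0 < y.2 → y.2 ≤ M' * h0 → |y.2 - v.2| ≤ δ → nd (y.1 - v.1) ≤ δ →
          c1 / h0 ^ 2 ≤ (ω * kap u y).re) ∧
        (∀ y : ℝ × ℝ, 0 < y.2 → y.2 ≤ M' * h0 → |y.2 - v.2| ≤ δ → nd (y.1 - v'.1) ≤ δ →
          (ω * kap u y).re ≤ 0))
    (k k' n : ℕ) (hk : k < 2 * N) (hk' : k' < 2 * N) (hn : n + 1 ≤ N)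
    (hkk : k' = k + n + 1 ∨ k = k' + n + 1) (hq : h0 / 200 ≤ (n + 1 : ℕ) * δ) :
    ∀ x ∈ c7109 θ h θ0 h0, ∃ ω : ℂ, ‖ω‖ = 1 ∧
      (∀ y ∈ C7109 θ h (θ0 - N * δ) δ k n, c1 / h0 ^ 2 ≤ (ω * K θ h x y).re) ∧
      (∀ y ∈ C7109 θ h (θ0 - N * δ) δ k' n, (ω * K θ h x y).re ≤ 0) := by
  intro x hx
  have hnN : ((n + 1 : ℕ) : ℝ) * δ ≤ N * δ := by
    apply mul_le_mul_of_nonneg_right _ hδ.le
    exact_mod_cast hn
  have hn0 : 0 < ((n + 1 : ℕ) : ℝ) * δ := by positivity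
  have hMn : ((n + 1 : ℕ) : ℝ) * δ ≤ M' * h0 := by linarith
  obtain ⟨β, hβ1, hβ2⟩ : ∃ β : ℝ, |β| = (n + 1 : ℕ) * δ ∧
      θ0 - N * δ + k' * δ = θ0 - N * δ + k * δ + β := by
    rcases hkk with rfl | rfl
    · refine ⟨(n + 1 : ℕ) * δ, abs_of_pos hn0, ?_⟩
      push_cast; ring
    · refine ⟨-((n + 1 : ℕ) * δ), by rw [abs_neg]; exact abs_of_pos hn0, ?_⟩
      push_cast; ring
  obtain ⟨ω, w1, w2, w3⟩ := hps (θ x, h x) (θ0 - N * δ + k * δ, (n + 1 : ℕ) * δ)
    (θ0 - N * δ + k' * δ, (n + 1 : ℕ) * δ) hx.2.1 hx.2.2 hn0 hMn rfl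
    ((nd_c_7109 x hx hδ k hk.le).trans hM') ((nd_c_7109 x hx hδ k' hk'.le).trans hM')
    β (by rw [hβ1]; exact hq) (by rw [hβ1]; exact hMn) hβ2
  refine ⟨ω, w1, ?_, ?_⟩
  · intro y hy
    obtain ⟨c1, c2, c3⟩ := cell_7109 geo hδ k n y hy
    exact w2 (θ y, h y) (geo.h0 y) (c1.trans hMn) c2 c3
  · intro y hy
    obtain ⟨c1, c2, c3⟩ := cell_7109 geo hδ k' n y hy
    exact w3 (θ y, h y) (geo.h0 y) (c1.trans hMn) c2 c3

theorem D_succ_7109 {θ h : X → ℝ} (α δ : ℝ) (s : Measure X) [IsFiniteMeasure s] (k n : ℕ) :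
    s.real (D7109 θ h α δ k (n + 1)) ≤
      s.real (D7109 θ h α δ k n) + s.real (C7109 θ h α δ k n) := by
  have h1 : D7109 θ h α δ k (n + 1) ⊆ D7109 θ h α δ k n ∪ C7109 θ h α δ k n := by
    rintro y ⟨hy1, hy2⟩
    by_cases h : H7109 h δ y < n
    · exact Or.inl ⟨hy1, h⟩
    · exact Or.inr ⟨hy1, by omega⟩
  exact (measureReal_mono h1).trans (measureReal_union_le _ _)

/-- the layer induction -/
theorem layer_7109 {θ h : X → ℝ} (geo : Geo θ h) (s w : Measure X) [IsFiniteMeasure s]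
    [IsFiniteMeasure w] {C0 : ℝ} (hC : 0 ≤ C0) (hT : Testing θ h s w C0)
    (q Mn : ℕ) (hq : 1 ≤ q) (hMn : 1 ≤ Mn) (c0 P c1 : ℝ) (hP : 1 ≤ P) (hc1 : 0 < c1)
    (hqP : P ≤ 200 * q)
    (hps : ∀ h0 : ℝ, 0 < h0 → h0 ≤ c0 → ∀ δ : ℝ, 0 < δ → δ ≤ h0 / P →
      ∀ u v v' : ℝ × ℝ, h0 / 2 ≤ u.2 → u.2 ≤ h0 → 0 < v.2 → v.2 ≤ ((Mn : ℝ) + 1) * h0 →
      v'.2 = v.2 → nd (u.1 - v.1) ≤ ((Mn : ℝ) + 1) * h0 → nd (u.1 - v'.1) ≤ ((Mn : ℝ) + 1) * h0 →
      ∀ β : ℝ, h0 / 200 ≤ |β| → |β| ≤ ((Mn : ℝ) + 1) * h0 → v'.1 = v.1 + β →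
      ∃ ω : ℂ, ‖ω‖ = 1 ∧
        (∀ y : ℝ × ℝ, 0 < y.2 → y.2 ≤ ((Mn : ℝ) + 1) * h0 → |y.2 - v.2| ≤ δ →
          nd (y.1 - v.1) ≤ δ → c1 / h0 ^ 2 ≤ (ω * kap u y).re) ∧
        (∀ y : ℝ × ℝ, 0 < y.2 → y.2 ≤ ((Mn : ℝ) + 1) * h0 → |y.2 - v.2| ≤ δ →
          nd (y.1 - v'.1) ≤ δ → (ω * kap u y).re ≤ 0)) (N : ℕ) (hN : N = 200 * q * Mn) :
    ∀ n : ℕ, q ≤ n → n ≤ N → ∃ Cn : ℝ, 0 ≤ Cn ∧ ∀ θ0 h0 : ℝ, 0 < h0 → h0 ≤ c0 →
      2 * Mn * h0 ≤ 1 → ∀ k < 2 * N,
      w.real (c7109 θ h θ0 h0) *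
        s.real (D7109 θ h (θ0 - N * (h0 / (200 * q))) (h0 / (200 * q)) k n) ^ 2 ≤
        Cn * h0 ^ 4 * s.real (S7109 θ h (θ0 - N * (h0 / (200 * q))) (h0 / (200 * q)) N) := by
  have hq0 : (0 : ℝ) < q := by exact_mod_cast hq
  have hMn0 : (1 : ℝ) ≤ Mn := by exact_mod_cast hMn
  have hqN : q ≤ N := by
    rw [hN]; nlinarith [Nat.mul_le_mul hq hMn, Nat.zero_le (q * Mn)]
  intro n hn
  induction n, hn using Nat.le_induction with
  | base =>
    intro _
    set R : ℝ := 2 + 7 * (1 + Mn) with hR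
    have hR0 : 0 < R := by rw [hR]; linarith
    refine ⟨4 * R ^ 4 * C0, by positivity, ?_⟩
    intro θ0 h0 hh0 hhc hhM k hk
    set δ := h0 / (200 * q) with hδdef
    have hδ : 0 < δ := by positivity
    have hNδ : (N : ℝ) * δ = Mn * h0 := by
      rw [hN, hδdef]; push_cast; field_simp
    have hqδ : (q : ℝ) * δ = h0 / 200 := by
      rw [hδdef]; field_simp
    have h2N : ((2 * N : ℕ) : ℝ) * δ ≤ 1 := by
      push_cast; nlinarith
    have hh1 : h0 ≤ 1 := by nlinarith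
    obtain ⟨k', hk1, hk2, hk3⟩ : ∃ k', k' ≤ k ∧ k < k' + q ∧ k' + q ≤ 2 * N := by
      by_cases h : k + q ≤ 2 * N
      · exact ⟨k, le_rfl, by omega, h⟩
      · exact ⟨k + 1 - q, by omega, by omega, by omega⟩
    have hle : ((k' + q : ℕ) : ℝ) * δ ≤ 1 := by
      refine le_trans ?_ h2N
      apply mul_le_mul_of_nonneg_right _ hδ.le
      exact_mod_cast hk3
    have B := base_7109 geo s w hC hT (c7109 θ h θ0 h0) (mc_7109 geo θ0 h0) hh0 hh1
      (fun x hx => hx.2.1) (θ0 - N * δ + k' * δ) R hR0 (by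
        intro x hx
        have h1 := nd_c_7109 (θ := θ) (N := N) x hx hδ k' (by omega)
        have h2 := den_le (u := (θ x, h x)) (v := (θ0 - N * δ + k' * δ, h0 / 200))
          (geo.h0 x).le (geo.h1 x) (by show 0 ≤ h0 / 200; positivity)
          (by show h0 / 200 ≤ 1; linarith)
        refine h2.trans ?_
        show h x + h0 / 200 + 2 * Real.pi * nd (θ x - (θ0 - N * δ + k' * δ)) ≤ R * h0
        have h3 : h x ≤ h0 := hx.2.2
        have hpi : Real.pi < 3.15 := Real.pi_lt_d2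
        have hpi0 := Real.pi_pos
        have hnd0 : 0 ≤ nd (θ x - (θ0 - N * δ + k' * δ)) := abs_nonneg _
        rw [hNδ] at h1
        have h4 : 2 * Real.pi * nd (θ x - (θ0 - N * δ + k' * δ)) ≤ 7 * ((1 + Mn) * h0) := by
          apply mul_le_mul (by linarith) _ hnd0 (by norm_num)
          rw [← hNδ] at h1
          linarith
        rw [hR]
        nlinarith)
    have sub1 : D7109 θ h (θ0 - N * δ) δ k q ⊆ arcBox θ h (θ0 - N * δ + k' * δ) (h0 / 200) := by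
      rintro y ⟨hy1, hy2⟩
      rw [← hqδ]
      rw [mem_box_7109 geo hδ k' q hle y]
      exact ⟨by omega, by omega, hy2⟩
    have sub2 : D7109 θ h (θ0 - N * δ) δ k q ⊆ S7109 θ h (θ0 - N * δ) δ N := by
      rintro y ⟨hy1, hy2⟩
      exact ⟨by omega, by omega⟩
    have m1 := measureReal_mono (μ := s) sub1
    have m2 := measureReal_mono (μ := s) sub2
    have hD0 : 0 ≤ s.real (D7109 θ h (θ0 - N * δ) δ k q) := measureReal_nonneg
    have hw0 : 0 ≤ w.real (c7109 θ h θ0 h0) := measureReal_nonneg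
    calc w.real (c7109 θ h θ0 h0) * s.real (D7109 θ h (θ0 - N * δ) δ k q) ^ 2
        = (w.real (c7109 θ h θ0 h0) * s.real (D7109 θ h (θ0 - N * δ) δ k q)) *
          s.real (D7109 θ h (θ0 - N * δ) δ k q) := by ring
      _ ≤ (w.real (c7109 θ h θ0 h0) *
          s.real (arcBox θ h (θ0 - N * δ + k' * δ) (h0 / 200))) *
          s.real (S7109 θ h (θ0 - N * δ) δ N) := by
          apply mul_le_mul _ m2 hD0 (by positivity)
          exact mul_le_mul_of_nonneg_left m1 hw0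
      _ ≤ (4 * R ^ 4 * C0 * h0 ^ 4) * s.real (S7109 θ h (θ0 - N * δ) δ N) :=
          mul_le_mul_of_nonneg_right B measureReal_nonneg
  | succ n hqn ih =>
    intro hnN
    obtain ⟨Cn, hCn, ihn⟩ := ih (by omega)
    refine ⟨2 * Cn + 2 * (6 * (4 * C0 + 32 * Cn) / c1 ^ 2), by positivity, ?_⟩
    intro θ0 h0 hh0 hhc hhM k hk
    have ih' := ihn θ0 h0 hh0 hhc hhM
    set δ := h0 / (200 * q) with hδdef
    have hδ : 0 < δ := by positivity
    have hNδ : (N : ℝ) * δ = Mn * h0 := by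
      rw [hN, hδdef]; push_cast; field_simp
    have hqδ : (q : ℝ) * δ = h0 / 200 := by
      rw [hδdef]; field_simp
    have h2N : ((2 * N : ℕ) : ℝ) * δ ≤ 1 := by
      push_cast; nlinarith
    have hle : ∀ r : ℕ, r ≤ 2 * N → (r : ℝ) * δ ≤ 1 := by
      intro r hr
      refine le_trans ?_ h2N
      apply mul_le_mul_of_nonneg_right _ hδ.le
      exact_mod_cast hr
    have hN1 : (N : ℝ) * δ ≤ 1 := hle N (by omega)
    have hδP : δ ≤ h0 / P := by
      rw [hδdef]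
      apply div_le_div_of_nonneg_left hh0.le (by linarith) hqP
    have hq200 : h0 / 200 ≤ ((n + 1 : ℕ) : ℝ) * δ := by
      rw [← hqδ]
      apply mul_le_mul_of_nonneg_right _ hδ.le
      exact_mod_cast (by omega : q ≤ n + 1)
    have hps' := hps h0 hh0 hhc δ hδ hδP
    set α := θ0 - N * δ with hα
    set T := S7109 θ h α δ N with hTdef
    set c := c7109 θ h θ0 h0 with hcdef
    have hw0 : 0 ≤ w.real c := measureReal_nonneg
    have hT0 : 0 ≤ s.real T := measureReal_nonneg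
    have pos : ∀ r : ℕ, 1 ≤ r → 0 < (r : ℝ) * δ := by
      intro r hr
      have : (0 : ℝ) < r := by exact_mod_cast hr
      positivity
    have hcell : c1 ^ 2 * (w.real c * s.real (C7109 θ h α δ k n) ^ 2) ≤
        6 * (4 * C0 + 32 * Cn) * h0 ^ 4 * s.real T := by
      rcases lt_or_ge k N with hkN | hkN
      · -- rightward
        have st := step_7109 geo s w hC hT c (mc_7109 geo θ0 h0) hh0 (fun x hx => hx.2.1) T
          (α + (k : ℕ) * δ) (α + (k + 1 : ℕ) * δ) (α + (k : ℕ) * δ) (α + (k + 1 : ℕ) * δ)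
          ((n + 1 : ℕ) * δ) ((n + 1 : ℕ) * δ) ((n : ℕ) * δ) ((n : ℕ) * δ)
          (pos _ (by omega)) (pos _ (by omega)) (pos _ (by omega)) (pos _ (by omega))
          (hle _ (by omega)) (hle _ (by omega)) (hle _ (by omega)) (hle _ (by omega))
          (box_sub_7109 geo hδ N _ _ h2N (by omega) (by omega))
          (box_sub_7109 geo hδ N _ _ h2N (by omega) (by omega))
          (box_sub_7109 geo hδ N _ _ h2N (by omega) (by omega))
          (box_sub_7109 geo hδ N _ _ h2N (by omega) (by omega))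
          (C7109 θ h α δ k n) (C7109 θ h α δ (k + n + 1) n)
          (D7109 θ h α δ (k + n + 1) n) (D7109 θ h α δ (k + n) n)
          (mC_7109 geo _ _ _ _) (mC_7109 geo _ _ _ _) (mD_7109 geo _ _ _ _)
          (mD_7109 geo _ _ _ _)
          (ident_right_7109 geo hδ k n (hle _ (by omega))) hc1
          (phase_7109 geo hh0 hδ hδP (by rw [hNδ]; linarith) hps' k (k + n + 1) n hk
            (by omega) (by omega) (Or.inl rfl) hq200)
        have i1 := ih' (k + n + 1) (by omega)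
        have i2 := ih' (k + n) (by omega)
        linarith
      · -- leftward
        obtain ⟨m, rfl⟩ : ∃ m, k = m + n + 1 := ⟨k - n - 1, by omega⟩
        have st := step_7109 geo s w hC hT c (mc_7109 geo θ0 h0) hh0 (fun x hx => hx.2.1) T
          (α + (m + 1 : ℕ) * δ) (α + (m : ℕ) * δ) (α + (m + 2 : ℕ) * δ) (α + (m + 1 : ℕ) * δ)
          ((n + 1 : ℕ) * δ) ((n + 1 : ℕ) * δ) ((n : ℕ) * δ) ((n : ℕ) * δ)
          (pos _ (by omega)) (pos _ (by omega)) (pos _ (by omega)) (pos _ (by omega))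
          (hle _ (by omega)) (hle _ (by omega)) (hle _ (by omega)) (hle _ (by omega))
          (box_sub_7109 geo hδ N _ _ h2N (by omega) (by omega))
          (box_sub_7109 geo hδ N _ _ h2N (by omega) (by omega))
          (box_sub_7109 geo hδ N _ _ h2N (by omega) (by omega))
          (box_sub_7109 geo hδ N _ _ h2N (by omega) (by omega))
          (C7109 θ h α δ (m + n + 1) n) (C7109 θ h α δ m n)
          (D7109 θ h α δ m n) (D7109 θ h α δ (m + 1) n)
          (mC_7109 geo _ _ _ _) (mC_7109 geo _ _ _ _) (mD_7109 geo _ _ _ _)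
          (mD_7109 geo _ _ _ _)
          (ident_left_7109 geo hδ m n (hle _ (by omega))) hc1
          (phase_7109 geo hh0 hδ hδP (by rw [hNδ]; linarith) hps' (m + n + 1) m n hk
            (by omega) (by omega) (Or.inr rfl) hq200)
        have i1 := ih' m (by omega)
        have i2 := ih' (m + 1) (by omega)
        linarith
    have hcell2 : w.real c * s.real (C7109 θ h α δ k n) ^ 2 ≤
        (6 * (4 * C0 + 32 * Cn) / c1 ^ 2) * h0 ^ 4 * s.real T := by
      have e : (6 * (4 * C0 + 32 * Cn) / c1 ^ 2) * h0 ^ 4 * s.real T =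
          (6 * (4 * C0 + 32 * Cn) * h0 ^ 4 * s.real T) / c1 ^ 2 := by ring
      rw [e, le_div_iff₀ (by positivity)]
      linarith
    have hD := ih' k hk
    have hs := D_succ_7109 (θ := θ) (h := h) α δ s k n
    have hsq : s.real (D7109 θ h α δ k (n + 1)) ^ 2 ≤
        2 * s.real (D7109 θ h α δ k n) ^ 2 + 2 * s.real (C7109 θ h α δ k n) ^ 2 := by
      have h1 := pow_le_pow_left₀ measureReal_nonneg hs 2
      nlinarith [sq_nonneg (s.real (D7109 θ h α δ k n) - s.real (C7109 θ h α δ k n))]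
    have hfin := mul_le_mul_of_nonneg_left hsq hw0
    calc w.real c * s.real (D7109 θ h α δ k (n + 1)) ^ 2
        ≤ w.real c * (2 * s.real (D7109 θ h α δ k n) ^ 2 +
          2 * s.real (C7109 θ h α δ k n) ^ 2) := hfin
      _ = 2 * (w.real c * s.real (D7109 θ h α δ k n) ^ 2) +
          2 * (w.real c * s.real (C7109 θ h α δ k n) ^ 2) := by ring
      _ ≤ 2 * (Cn * h0 ^ 4 * s.real T) +
          2 * ((6 * (4 * C0 + 32 * Cn) / c1 ^ 2) * h0 ^ 4 * s.real T) := by linarith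
      _ = _ := by ring

theorem HH_small_7109 (θ h : X → ℝ) (geo : Geo θ h) (s w : Measure X) [IsFiniteMeasure s]
    [IsFiniteMeasure w]
    (C0 : ℝ) (hC : 0 ≤ C0) (hT : Testing θ h s w C0) (M : ℝ) (hM : 1 ≤ M) :
    ∃ c0 : ℝ, 0 < c0 ∧ ∃ C : ℝ, 0 ≤ C ∧ ∀ θ0 h0 : ℝ, 0 < h0 → h0 ≤ c0 →
      w.real (c7109 θ h θ0 h0) *
        s.real {y | nd (θ y - θ0) ≤ M * h0 ∧ h y ≤ M * h0} ≤ C * h0 ^ 4 := by
  obtain ⟨Mn, hMndef⟩ : ∃ Mn : ℕ, Mn = ⌊M⌋₊ + 1 := ⟨_, rfl⟩
  have hMn : 1 ≤ Mn := by omega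
  have hMMn : M < Mn := by
    rw [hMndef]; push_cast; exact Nat.lt_floor_add_one M
  have hMn1 : (1 : ℝ) ≤ Mn := by exact_mod_cast hMn
  obtain ⟨c0, hc0, P, hP, c1, hc1, hps⟩ := phase_sep ((Mn : ℝ) + 1) (by linarith)
  obtain ⟨q, hqdef⟩ : ∃ q : ℕ, q = ⌈P⌉₊ + 1 := ⟨_, rfl⟩
  have hq : 1 ≤ q := by omega
  have hPq : P ≤ 200 * q := by
    have h1 : P ≤ ⌈P⌉₊ := Nat.le_ceil P
    have h2 : ((⌈P⌉₊ : ℕ) : ℝ) ≤ q := by exact_mod_cast (by omega : ⌈P⌉₊ ≤ q)
    have h3 : (0 : ℝ) ≤ q := Nat.cast_nonneg q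
    linarith
  have hq0 : (0 : ℝ) < q := by exact_mod_cast hq
  obtain ⟨N, hN⟩ : ∃ N : ℕ, N = 200 * q * Mn := ⟨_, rfl⟩
  have hqN : q ≤ N := by
    rw [hN]; nlinarith [Nat.mul_le_mul hq hMn, Nat.zero_le (q * Mn)]
  obtain ⟨CN, hCN, hlay⟩ := layer_7109 geo s w hC hT q Mn hq hMn c0 P c1 hP hc1 hPq hps N hN
    N hqN le_rfl
  have h2Mn : (0 : ℝ) < 1 / (2 * Mn) := by positivity
  refine ⟨min c0 (1 / (2 * Mn)), lt_min hc0 h2Mn, 4 * N ^ 2 * CN, by positivity, ?_⟩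
  intro θ0 h0 hh0 hhc
  have hhc0 : h0 ≤ c0 := hhc.trans (min_le_left _ _)
  have hhM : 2 * Mn * h0 ≤ 1 := by
    have := hhc.trans (min_le_right _ _)
    rw [le_div_iff₀ (by positivity)] at this
    linarith
  have L := hlay θ0 h0 hh0 hhc0 hhM
  set δ := h0 / (200 * q) with hδdef
  have hδ : 0 < δ := by positivity
  have hNδ : (N : ℝ) * δ = Mn * h0 := by
    rw [hN, hδdef]; push_cast; field_simp
  have h2N : ((2 * N : ℕ) : ℝ) * δ ≤ 1 := by
    push_cast; nlinarith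
  set α := θ0 - N * δ with hα
  set T := S7109 θ h α δ N with hTdef
  set c := c7109 θ h θ0 h0 with hcdef
  have hw0 : 0 ≤ w.real c := measureReal_nonneg
  have hT0 : 0 ≤ s.real T := measureReal_nonneg
  -- the set is contained in T
  have sub : {y | nd (θ y - θ0) ≤ M * h0 ∧ h y ≤ M * h0} ⊆ T := by
    rintro y ⟨hy1, hy2⟩
    constructor
    · rw [J_lt_7109 hδ]
      set r := θ y - θ0 - round (θ y - θ0) with hr
      have hr1 : |r| ≤ M * h0 := hy1
      have hr2 : |r| < N * δ := by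
        rw [hNδ]; exact lt_of_le_of_lt hr1 (mul_lt_mul_of_pos_right hMMn hh0)
      obtain ⟨r1, r2⟩ := abs_lt.1 hr2
      have e : θ y - α = (r + N * δ) + (round (θ y - θ0) : ℤ) := by
        rw [hr, hα]; ring
      have e2 : ((2 * N : ℕ) : ℝ) * δ = N * δ + N * δ := by push_cast; ring
      rw [e, Int.fract_add_intCast, Int.fract_eq_self.2 ⟨by linarith, by linarith⟩, e2]
      linarith
    · rw [H_lt_7109 hδ y (geo.h0 y), hNδ]
      exact hy2.trans (mul_le_mul_of_nonneg_right hMMn.le hh0.le)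
  have hmono := measureReal_mono (μ := s) sub
  have hcover : T ⊆ ⋃ k ∈ Finset.range (2 * N), D7109 θ h α δ k N := by
    rintro y ⟨hy1, hy2⟩
    simp only [Set.mem_iUnion, Finset.mem_range]
    exact ⟨J7109 θ α δ y, hy1, rfl, hy2⟩
  have hsum : s.real T ≤ ∑ k ∈ Finset.range (2 * N), s.real (D7109 θ h α δ k N) :=
    (measureReal_mono hcover (measure_ne_top s _)).trans (measureReal_biUnion_finset_le _ _)
  have hsq : s.real T ^ 2 ≤ (2 * N : ℕ) *
      ∑ k ∈ Finset.range (2 * N), s.real (D7109 θ h α δ k N) ^ 2 := by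
    have h1 := pow_le_pow_left₀ hT0 hsum 2
    have h2 := sq_sum_le_card_mul_sum_sq (s := Finset.range (2 * N))
      (f := fun k => s.real (D7109 θ h α δ k N))
    rw [Finset.card_range] at h2
    exact h1.trans h2
  have hws : w.real c * s.real T ^ 2 ≤ (4 * N ^ 2 * CN * h0 ^ 4) * s.real T := by
    calc w.real c * s.real T ^ 2 ≤ w.real c * ((2 * N : ℕ) *
        ∑ k ∈ Finset.range (2 * N), s.real (D7109 θ h α δ k N) ^ 2) :=
          mul_le_mul_of_nonneg_left hsq hw0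
      _ = (2 * N : ℕ) * ∑ k ∈ Finset.range (2 * N),
          w.real c * s.real (D7109 θ h α δ k N) ^ 2 := by
          rw [← Finset.mul_sum]; ring
      _ ≤ (2 * N : ℕ) * ∑ k ∈ Finset.range (2 * N), CN * h0 ^ 4 * s.real T := by
          apply mul_le_mul_of_nonneg_left _ (Nat.cast_nonneg _)
          apply Finset.sum_le_sum
          intro k hk
          exact L k (Finset.mem_range.1 hk)
      _ = (4 * N ^ 2 * CN * h0 ^ 4) * s.real T := by
          rw [Finset.sum_const, Finset.card_range, nsmul_eq_mul]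
          push_cast; ring
  have hwT : w.real c * s.real T ≤ 4 * N ^ 2 * CN * h0 ^ 4 := by
    rcases hT0.eq_or_lt with h0' | h0'
    · rw [← h0', mul_zero]; positivity
    · have e : w.real c * s.real T ^ 2 = (w.real c * s.real T) * s.real T := by ring
      rw [e] at hws
      exact le_of_mul_le_mul_right hws h0'
  exact (mul_le_mul_of_nonneg_left hmono hw0).trans hwT

theorem HH (θ h : X → ℝ) (geo : Geo θ h) (s w : Measure X) [IsFiniteMeasure s] [IsFiniteMeasure w]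
    (C0 : ℝ) (hC : 0 ≤ C0) (hT : Testing θ h s w C0) (M : ℝ) (hM : 1 ≤ M) :
    ∃ C : ℝ, ∀ θ0 h0 : ℝ, 0 < h0 → h0 ≤ 1 →
      (w {x | nd (θ x - θ0) ≤ h0 ∧ h0 / 2 ≤ h x ∧ h x ≤ h0}).toReal *
        (s {y | nd (θ y - θ0) ≤ M * h0 ∧ h y ≤ M * h0}).toReal ≤ C * h0 ^ 4 := by
  obtain ⟨c0, hc0, C, hC', key⟩ := HH_small_7109 θ h geo s w C0 hC hT M hM
  refine ⟨C + w.real univ * s.real univ / c0 ^ 4, ?_⟩
  intro θ0 h0 hh0 hh1
  have hws : 0 ≤ w.real univ * s.real univ / c0 ^ 4 := by positivity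
  rcases le_or_gt h0 c0 with hle | hgt
  · have h1 := key θ0 h0 hh0 hle
    have h2 : C * h0 ^ 4 ≤ (C + w.real univ * s.real univ / c0 ^ 4) * h0 ^ 4 := by
      apply mul_le_mul_of_nonneg_right _ (by positivity)
      linarith
    exact le_trans h1 h2
  · have h1 : (w {x | nd (θ x - θ0) ≤ h0 ∧ h0 / 2 ≤ h x ∧ h x ≤ h0}).toReal *
        (s {y | nd (θ y - θ0) ≤ M * h0 ∧ h y ≤ M * h0}).toReal ≤ w.real univ * s.real univ := by
      apply mul_le_mul
      · exact measureReal_mono (μ := w) (subset_univ _)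
      · exact measureReal_mono (μ := s) (subset_univ _)
      · exact ENNReal.toReal_nonneg
      · exact measureReal_nonneg
    have h3 : c0 ^ 4 ≤ h0 ^ 4 := pow_le_pow_left₀ hc0.le hgt.le 4
    have h4 : w.real univ * s.real univ ≤ w.real univ * s.real univ / c0 ^ 4 * h0 ^ 4 := by
      rw [div_mul_eq_mul_div, le_div_iff₀ (by positivity)]
      exact mul_le_mul_of_nonneg_left h3 (by positivity)
    have h5 : 0 ≤ C * h0 ^ 4 := by positivity
    rw [add_mul]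
    linarith

end

end Pool.Agent.Helper807.BT
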