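import Pool.Agent.Helper807.BT.Base
import Pool.Agent.Helper807.BT.Bas
import Pool.Agent.Helper807.BT.Geo1

set_option autoImplicit false

open MeasureTheory Set
open scoped ENNReal

namespace Pool.Agent.Helper807.BT

noncomputable section

variable {X : Type*} [MeasurableSpace X]


theorem nd_le_7108 {θ h : X → ℝ} {a l : ℝ} {x x0 : X} (hx : x ∈ arcBox θ h a l)
    (hx0 : x0 ∈ arcBox θ h a l) : nd (θ x - θ x0) ≤ l := by
  unfold nd
  have h1 : |θ x - θ x0 - round (θ x - θ x0)| ≤ |θ x - θ x0 - ((⌊θ x - a⌋ - ⌊θ x0 - a⌋ : ℤ) : ℝ)| :=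
    round_le _ _
  refine h1.trans ?_
  have e1 := Int.self_sub_floor (θ x - a)
  have e2 := Int.self_sub_floor (θ x0 - a)
  have e3 : θ x - θ x0 - ((⌊θ x - a⌋ - ⌊θ x0 - a⌋ : ℤ) : ℝ) = Int.fract (θ x - a) - Int.fract (θ x0 - a) := by
    push_cast; linarith
  rw [e3, abs_le]
  have a1 := Int.fract_nonneg (θ x - a)
  have a2 := Int.fract_nonneg (θ x0 - a)
  have b1 := hx.1
  have b2 := hx0.1
  constructor <;> linarith

theorem ratio_7108 (d d0 : ℂ) (l : ℝ) (hl : 0 < l) (h0 : 100 * l ≤ ‖d0‖) (hd : ‖d - d0‖ ≤ l + 2 * Real.pi * l) :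
    ‖(d ^ 2)⁻¹ - (d0 ^ 2)⁻¹‖ ≤ (1/2) * ‖(d0 ^ 2)⁻¹‖ := by
  have hpi := Real.pi_lt_d2
  have h1 : ‖d - d0‖ ≤ (73/1000) * ‖d0‖ := by
    nlinarith
  have hd0 : 0 < ‖d0‖ := by linarith
  have hd0' : d0 ≠ 0 := norm_pos_iff.mp hd0
  have h2 : (927/1000) * ‖d0‖ ≤ ‖d‖ := by
    have := norm_sub_norm_le d0 d
    rw [norm_sub_rev] at this
    linarith
  have hdp : 0 < ‖d‖ := by linarith
  have hd' : d ≠ 0 := norm_pos_iff.mp hdp
  have h3 : ‖d + d0‖ ≤ (2073/1000) * ‖d0‖ := by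
    calc ‖d + d0‖ = ‖(d - d0) + 2 * d0‖ := by ring_nf
      _ ≤ ‖d - d0‖ + ‖2 * d0‖ := norm_add_le _ _
      _ ≤ (73/1000) * ‖d0‖ + 2 * ‖d0‖ := by
          gcongr
          rw [norm_mul]; simp
      _ = _ := by ring
  have h4 : (d ^ 2)⁻¹ - (d0 ^ 2)⁻¹ = -((d - d0) * (d + d0)) * (d ^ 2)⁻¹ * (d0 ^ 2)⁻¹ := by
    field_simp
    ring
  rw [h4, norm_mul]
  gcongr
  rw [norm_mul, norm_neg, norm_mul, norm_inv, norm_pow]
  rw [← div_eq_mul_inv, div_le_iff₀ (by positivity)]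
  calc ‖d - d0‖ * ‖d + d0‖ ≤ ((73/1000) * ‖d0‖) * ((2073/1000) * ‖d0‖) := by gcongr
    _ ≤ 1/2 * ((927/1000) * ‖d0‖) ^ 2 := by nlinarith [sq_nonneg ‖d0‖]
    _ ≤ 1/2 * ‖d‖ ^ 2 := by gcongr

theorem pop_low_7108 {θ h : X → ℝ} (geo : Geo θ h) (w : Measure X) [IsFiniteMeasure w]
    (a l : ℝ) (hl : 0 < l) (x0 : X) (hx0 : x0 ∈ arcBox θ h a l) (y : X)
    (h0 : 100 * l ≤ ‖den (θ y, h y) (θ x0, h x0)‖) :
    (1/2) * (‖K θ h y x0‖ * (w (arcBox θ h a l)).toReal) ≤ ‖Pop θ h w ((arcBox θ h a l).indicator 1) y‖ := by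
  set B := arcBox θ h a l with hB
  have hBm : MeasurableSet B := measurableSet_arcBox geo a l
  have hpop : Pop θ h w (B.indicator 1) y = ∫ x in B, K θ h y x ∂w := by
    unfold Pop
    rw [← integral_indicator hBm]
    apply integral_congr_ae
    filter_upwards with x
    by_cases hx : x ∈ B
    · simp [Set.indicator_of_mem hx]
    · simp [Set.indicator_of_notMem hx]
  have hmeas : Measurable (fun x => K θ h y x) := by
    have hc := (measurable_K geo).comp (measurable_prodMk_left (x := y))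
    exact hc
  have hint : IntegrableOn (fun x => K θ h y x) B w := by
    apply Integrable.integrableOn
    apply Integrable.of_bound hmeas.aestronglyMeasurable ((h y ^ 2)⁻¹)
    filter_upwards with x
    exact norm_K_le_left geo y x
  have hdiff : ‖∫ x in B, (K θ h y x - K θ h y x0) ∂w‖ ≤ (1/2) * ‖K θ h y x0‖ * w.real B := by
    apply norm_setIntegral_le_of_norm_le_const (measure_lt_top w B)
    intro x hx
    have h1 : ‖den (θ y, h y) (θ x, h x) - den (θ y, h y) (θ x0, h x0)‖ ≤ l + 2 * Real.pi * l := by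
      refine (den_sub_le_right (u := (θ y, h y)) (v := (θ x, h x)) (v' := (θ x0, h x0)) (geo.h0 y).le (geo.h1 y)
        (geo.h0 x).le (geo.h1 x) (geo.h0 x0).le (geo.h1 x0)).trans ?_
      have h2 : |h x - h x0| ≤ l := by
        have a1 := geo.h0 x
        have a2 := geo.h0 x0
        have b1 := hx.2
        have b2 := hx0.2
        rw [abs_le]
        constructor <;> linarith
      have h3 := nd_le_7108 hx hx0
      have hpi := Real.pi_pos
      simp only
      gcongr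
    have h9 := ratio_7108 (den (θ y, h y) (θ x, h x)) (den (θ y, h y) (θ x0, h x0)) l hl h0 h1
    unfold K kap
    exact h9
  have hsplit : ∫ x in B, (K θ h y x - K θ h y x0) ∂w = (∫ x in B, K θ h y x ∂w) - (w.real B : ℂ) * K θ h y x0 := by
    rw [integral_sub hint (integrable_const _), setIntegral_const]
    simp
  rw [hsplit] at hdiff
  rw [hpop]
  have h5 : ‖(w.real B : ℂ) * K θ h y x0‖ = w.real B * ‖K θ h y x0‖ := by
    rw [norm_mul, Complex.norm_real, Real.norm_of_nonneg measureReal_nonneg]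
  have h6 := norm_sub_norm_le ((w.real B : ℂ) * K θ h y x0) (∫ x in B, K θ h y x ∂w)
  rw [norm_sub_rev, h5] at h6
  have h7 : (w B).toReal = w.real B := rfl
  rw [h7]
  nlinarith

theorem LB (θ h : X → ℝ) (geo : Geo θ h) (s w : Measure X) [IsFiniteMeasure s] [IsFiniteMeasure w]
    (C0 : ℝ) (hC : 0 ≤ C0) (hT : Testing θ h w s C0) (a l : ℝ) (hl : 0 < l) (hl1 : l ≤ 1) (R : ℝ)
    (E : Set X) (hE : MeasurableSet E)
    (hsep : ∀ x ∈ arcBox θ h a l, ∀ y ∈ E, 100 * l ≤ ‖den (θ y, h y) (θ x, h x)‖ ∧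
      ‖den (θ y, h y) (θ x, h x)‖ ≤ R) :
    (w (arcBox θ h a l)).toReal * (s E).toReal ≤ 16 * C0 * R ^ 4 := by
  set B := arcBox θ h a l with hB
  have hRHS : 0 ≤ 16 * C0 * R ^ 4 := by
    have : 0 ≤ R ^ 4 := by positivity
    positivity
  rcases eq_or_ne (w B) 0 with hw0 | hw0
  · rw [hw0]; simpa using hRHS
  rcases eq_or_ne (s E) 0 with hs0 | hs0
  · rw [hs0]; simpa using hRHS
  have hBne : B.Nonempty := nonempty_of_measure_ne_zero hw0
  have hEne : E.Nonempty := nonempty_of_measure_ne_zero hs0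
  obtain ⟨x0, hx0⟩ := hBne
  obtain ⟨y0, hy0⟩ := hEne
  have hR : 0 < R := by
    have := hsep x0 hx0 y0 hy0
    linarith [this.1, this.2]
  set W := (w B).toReal with hW
  have hWpos : 0 < W := ENNReal.toReal_pos hw0 (measure_ne_top w B)
  have hlow : ∀ y ∈ E, W / (2 * R ^ 2) ≤ ‖Pop θ h w (B.indicator 1) y‖ := by
    intro y hy
    have h1 := pop_low_7108 geo w a l hl x0 hx0 y (hsep x0 hx0 y hy).1
    have h2 : (R ^ 2)⁻¹ ≤ ‖K θ h y x0‖ := by
      unfold K
      rw [norm_kap]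
      have h3 := (hsep x0 hx0 y hy).2
      have h4 := (hsep x0 hx0 y hy).1
      have h5 : 0 < ‖den (θ y, h y) (θ x0, h x0)‖ := by linarith
      gcongr
    calc W / (2 * R ^ 2) = (1/2) * ((R ^ 2)⁻¹ * W) := by field_simp
      _ ≤ (1/2) * (‖K θ h y x0‖ * W) := by gcongr
      _ ≤ _ := h1
  have htest := hT a l hl hl1
  have hint : (ENNReal.ofReal (W / (2 * R ^ 2))) ^ 2 * s E ≤ ENNReal.ofReal C0 * w B := by
    calc (ENNReal.ofReal (W / (2 * R ^ 2))) ^ 2 * s E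
        = ∫⁻ y in E, (ENNReal.ofReal (W / (2 * R ^ 2))) ^ 2 ∂s := by rw [setLIntegral_const]
      _ ≤ ∫⁻ y in E, ‖Pop θ h w (B.indicator 1) y‖ₑ ^ 2 ∂s := by
          apply setLIntegral_mono' hE
          intro y hy
          gcongr
          rw [← ofReal_norm]
          exact ENNReal.ofReal_le_ofReal (hlow y hy)
      _ ≤ ∫⁻ y, ‖Pop θ h w (B.indicator 1) y‖ₑ ^ 2 ∂s := setLIntegral_le_lintegral _ _
      _ ≤ _ := htest
  have hreal := ENNReal.toReal_mono (ENNReal.mul_ne_top ENNReal.ofReal_ne_top (measure_ne_top w B)) hint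
  rw [ENNReal.toReal_mul, ENNReal.toReal_mul, ENNReal.toReal_pow, ENNReal.toReal_ofReal (by positivity),
    ENNReal.toReal_ofReal hC] at hreal
  have h1 : W * (s E).toReal ≤ 4 * C0 * R ^ 4 := by
    have h2 : (W / (2 * R ^ 2)) ^ 2 * (s E).toReal = W * (W * (s E).toReal / (4 * R ^ 4)) := by
      field_simp
      ring
    rw [h2] at hreal
    have h3 : W * (s E).toReal / (4 * R ^ 4) ≤ C0 := by
      apply le_of_mul_le_mul_left (a := W) _ hWpos
      linarith
    rw [div_le_iff₀ (by positivity)] at h3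
    linarith
  have h4 : 0 ≤ C0 * R ^ 4 := by positivity
  linarith


end

end Pool.Agent.Helper807.BT
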