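import Pool.Agent.Helper807.BT.Base
import Pool.Agent.Helper807.BT.Bas
import Pool.Agent.Helper807.BT.Geo1

set_option autoImplicit false

open MeasureTheory Set
open scoped ENNReal

namespace Pool.Agent.Helper807.BT

noncomputable section

variable {X : Type*} [MeasurableSpace X]


theorem j7126_floor {t : ℝ} (ht : 0 ≤ t) (n c : ℕ) :
    ⌊(2 : ℝ) ^ n * Int.fract (t + (c : ℝ) / 2 ^ n)⌋₊ = (⌊(2 : ℝ) ^ n * t⌋₊ + c) % 2 ^ n := by
  have h2 : (0 : ℝ) < 2 ^ n := by positivity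
  have hN : 0 < 2 ^ n := by positivity
  obtain ⟨a, ha⟩ : ∃ a : ℕ, a = ⌊(2 : ℝ) ^ n * t⌋₊ := ⟨_, rfl⟩
  have ha1 : (a : ℝ) ≤ 2 ^ n * t := by rw [ha]; exact Nat.floor_le (by positivity)
  have ha2 : 2 ^ n * t < (a : ℝ) + 1 := by rw [ha]; exact Nat.lt_floor_add_one _
  rw [← ha]
  obtain ⟨q, hq⟩ : ∃ q : ℕ, q = (a + c) / 2 ^ n := ⟨_, rfl⟩
  obtain ⟨r, hr⟩ : ∃ r : ℕ, r = (a + c) % 2 ^ n := ⟨_, rfl⟩
  have hdm : 2 ^ n * q + r = a + c := by rw [hq, hr]; exact Nat.div_add_mod _ _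
  have hrlt : r < 2 ^ n := by rw [hr]; exact Nat.mod_lt _ hN
  have hdm' : (2 : ℝ) ^ n * q + r = a + c := by exact_mod_cast hdm
  have hr1 : (r : ℝ) + 1 ≤ 2 ^ n := by exact_mod_cast hrlt
  rw [← hr]
  have hfl : Int.fract (t + (c : ℝ) / 2 ^ n) = t + (c : ℝ) / 2 ^ n - q := by
    have : ⌊t + (c : ℝ) / 2 ^ n⌋ = (q : ℤ) := by
      rw [Int.floor_eq_iff]
      constructor
      · have : (q : ℝ) * 2 ^ n ≤ (t + (c : ℝ) / 2 ^ n) * 2 ^ n := by
          rw [add_mul, div_mul_cancel₀ _ h2.ne']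
          have : (0:ℝ) ≤ r := Nat.cast_nonneg _
          linarith
        have := le_of_mul_le_mul_right this h2
        exact_mod_cast this
      · have : (t + (c : ℝ) / 2 ^ n) * 2 ^ n < ((q : ℝ) + 1) * 2 ^ n := by
          rw [add_mul, div_mul_cancel₀ _ h2.ne']
          linarith
        have := lt_of_mul_lt_mul_right this h2.le
        exact_mod_cast this
    rw [← Int.self_sub_floor, this]
    simp
  rw [hfl]
  have e : (2 : ℝ) ^ n * (t + (c : ℝ) / 2 ^ n - q) = 2 ^ n * t + c - 2 ^ n * q := by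
    rw [mul_sub, mul_add, mul_div_cancel₀ _ h2.ne']
  rw [e, Nat.floor_eq_iff]
  · constructor <;> linarith
  · have : (0:ℝ) ≤ r := Nat.cast_nonneg _
    linarith

theorem j7126_rot_rot (θ : X → ℝ) (a b : ℝ) : rot (rot θ a) b = rot θ (a + b) := by
  funext x
  simp only [rot]
  have : Int.fract (θ x + a) + b = (θ x + (a + b)) - ((⌊θ x + a⌋ : ℤ) : ℝ) := by
    rw [← Int.self_sub_floor]; ring
  rw [this, Int.fract_sub_intCast]

theorem j7126_geo {θ h : X → ℝ} (geo : Geo θ h) (τ : ℝ) : Geo (rot θ τ) h :=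
  ⟨(geo.mθ.add_const τ).fract, geo.mh, fun _ => Int.fract_nonneg _, fun _ => Int.fract_lt_one _,
    geo.h0, geo.h1⟩

theorem j7126_K (θ h : X → ℝ) (τ : ℝ) (x y : X) : K (rot θ τ) h x y = K θ h x y := by
  simp only [K, rot]
  exact kap_fract τ (θ x) (θ y) (h x) (h y)

theorem j7126_Pop (θ h : X → ℝ) (s : Measure X) (τ : ℝ) (f : X → ℝ) :
    Pop (rot θ τ) h s f = Pop θ h s f := by
  funext x
  simp only [Pop, j7126_K]

theorem j7126_Bf (θ h : X → ℝ) (s w : Measure X) (τ : ℝ) (f g : X → ℝ) :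
    Bf (rot θ τ) h s w f g = Bf θ h s w f g := by
  simp only [Bf, j7126_Pop]

theorem j7126_arcBox (θ h : X → ℝ) (τ a l : ℝ) : arcBox (rot θ τ) h a l = arcBox θ h (a - τ) l := by
  ext x
  simp only [arcBox, Set.mem_setOf_eq, rot]
  have : Int.fract (θ x + τ) - a = (θ x - (a - τ)) - ((⌊θ x + τ⌋ : ℤ) : ℝ) := by
    rw [← Int.self_sub_floor]; ring
  rw [this, Int.fract_sub_intCast]

theorem j7126_col {θ h : X → ℝ} (geo : Geo θ h) (n c : ℕ) (x : X) :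
    col (rot θ ((c : ℝ) / 2 ^ n)) n x = (col θ n x + c) % 2 ^ n := by
  simp only [col, rot]
  exact j7126_floor (geo.θ0 x) n c

theorem j7126_Q {θ h : X → ℝ} (geo : Geo θ h) (n c j : ℕ) (hj : j < 2 ^ n) :
    Q (rot θ ((c : ℝ) / 2 ^ n)) h n ((j + c) % 2 ^ n) = Q θ h n j := by
  ext x
  simp only [Q, Set.mem_setOf_eq, j7126_col geo]
  have hc := col_lt geo n x
  constructor
  · rintro ⟨h1, h2⟩
    refine ⟨?_, h2⟩
    have h3 : col θ n x + c ≡ j + c [MOD 2 ^ n] := h1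
    have h4 : col θ n x ≡ j [MOD 2 ^ n] := Nat.ModEq.add_right_cancel' c h3
    exact Nat.ModEq.eq_of_lt_of_lt h4 hc hj
  · rintro ⟨h1, h2⟩
    exact ⟨by rw [h1], h2⟩

theorem j7126_Ex {θ h : X → ℝ} (geo : Geo θ h) (s : Measure X) (n c : ℕ) (f : X → ℝ) :
    Ex (rot θ ((c : ℝ) / 2 ^ n)) h s n f = Ex θ h s n f := by
  funext x
  simp only [Ex]
  split_ifs with hx
  · simp only [avg]
    rw [j7126_col geo, j7126_Q geo n c _ (col_lt geo n x)]
  · rfl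

theorem j7126_Ex' {θ h : X → ℝ} (geo : Geo θ h) (s : Measure X) (n c : ℕ) (f : X → ℝ) :
    Ex (rot θ ((c : ℝ) / 2 ^ n)) h s (n + 1) f = Ex θ h s (n + 1) f := by
  have : ((c : ℝ) / 2 ^ n) = (((2 * c : ℕ) : ℝ) / 2 ^ (n + 1)) := by
    push_cast
    rw [pow_succ]
    field_simp
  rw [this]
  exact j7126_Ex geo s (n + 1) (2 * c) f

theorem j7126_Dl {θ h : X → ℝ} (geo : Geo θ h) (s : Measure X) (n c j : ℕ) (hj : j < 2 ^ n)
    (g : X → ℝ) :
    Dl (rot θ ((c : ℝ) / 2 ^ n)) h s n ((j + c) % 2 ^ n) g = Dl θ h s n j g := by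
  funext x
  simp only [Dl]
  rw [j7126_Q geo n c j hj, j7126_Ex geo, j7126_Ex' geo]

theorem j7126_per (F : ℕ → ℂ) (P : ℕ) (hF : ∀ m, F (m + P) = F m) (c : ℕ) :
    ∑ m ∈ Finset.range P, F (m + c) = ∑ m ∈ Finset.range P, F m := by
  induction c with
  | zero => simp
  | succ c ih =>
    rw [← ih]
    have h1 := Finset.sum_range_succ (fun m => F (m + c)) P
    have h2 := Finset.sum_range_succ' (fun m => F (m + c)) P
    rw [h1] at h2
    have h3 : F (P + c) = F (0 + c) := by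
      rw [add_comm P c, hF, zero_add]
    rw [h3] at h2
    have h4 := add_right_cancel h2
    rw [h4]
    refine Finset.sum_congr rfl fun m _ => ?_
    congr 1
    ring

theorem rot_geo {θ h : X → ℝ} (geo : Geo θ h) (τ : ℝ) : Geo (rot θ τ) h := j7126_geo geo τ

theorem rot_K (θ h : X → ℝ) (τ : ℝ) (x y : X) : K (rot θ τ) h x y = K θ h x y :=
  j7126_K θ h τ x y

theorem rot_hyp {θ h : X → ℝ} {s w : Measure X} {C0 A : ℝ} (H : Hyp θ h s w C0 A) (τ : ℝ) :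
    Hyp (rot θ τ) h s w C0 A := by
  refine ⟨j7126_geo H.geo τ, ?_, ?_⟩
  · intro a l hl hl1
    rw [j7126_Pop, j7126_arcBox]
    exact H.tst (a - τ) l hl hl1
  · intro a l hl hl1
    rw [j7126_arcBox]
    exact H.a2 (a - τ) l hl hl1

theorem rot_Bf (θ h : X → ℝ) (s w : Measure X) (τ : ℝ) (f g : X → ℝ) :
    Bf (rot θ τ) h s w f g = Bf θ h s w f g := j7126_Bf θ h s w τ f g

theorem rot_avg (θ h : X → ℝ) (geo : Geo θ h) (s w : Measure X) [IsFiniteMeasure s]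
    [IsFiniteMeasure w] (f g : X → ℝ) (hf : Bdd f) (hg : Bdd g) (N n : ℕ) (hn : n ≤ N)
    (G : Finset ℕ) (hG : G ⊆ Finset.range (2 ^ n)) :
    (G.card : ℂ) * ∑ m ∈ Finset.range (2 ^ N), ∑ j ∈ Finset.range (2 ^ n),
        Bf (rot θ ((m : ℝ) / 2 ^ N)) h s w (Ex (rot θ ((m : ℝ) / 2 ^ N)) h s n f)
          (Dl (rot θ ((m : ℝ) / 2 ^ N)) h w n j g) =
    (2 : ℂ) ^ n * ∑ m ∈ Finset.range (2 ^ N), ∑ j ∈ G,
        Bf (rot θ ((m : ℝ) / 2 ^ N)) h s w (Ex (rot θ ((m : ℝ) / 2 ^ N)) h s n f)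
          (Dl (rot θ ((m : ℝ) / 2 ^ N)) h w n j g) := by
  obtain ⟨Φ, hΦ⟩ : ∃ Φ : ℕ → ℕ → ℂ, ∀ m j, Φ m j =
      Bf (rot θ ((m : ℝ) / 2 ^ N)) h s w (Ex (rot θ ((m : ℝ) / 2 ^ N)) h s n f)
          (Dl (rot θ ((m : ℝ) / 2 ^ N)) h w n j g) := ⟨_, fun _ _ => rfl⟩
  simp only [← hΦ]
  have hshift : ∀ m c j : ℕ, j < 2 ^ n → Φ (m + c * 2 ^ (N - n)) ((j + c) % 2 ^ n) = Φ m j := by
    intro m c j hj
    rw [hΦ, hΦ]
    have e : (((m + c * 2 ^ (N - n) : ℕ) : ℝ) / 2 ^ N) = (m : ℝ) / 2 ^ N + (c : ℝ) / 2 ^ n := by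
      push_cast
      have : (2 : ℝ) ^ N = 2 ^ (N - n) * 2 ^ n := by rw [← pow_add]; congr 1; omega
      rw [add_div]
      congr 1
      rw [this]
      field_simp
    rw [e, ← j7126_rot_rot, j7126_Bf, j7126_Ex (j7126_geo geo _), j7126_Dl (j7126_geo geo _) _ _ _ _ hj]
  have hper : ∀ m j, Φ (m + 2 ^ N) j = Φ m j := by
    intro m j
    rw [hΦ, hΦ]
    have e : rot θ (((m + 2 ^ N : ℕ) : ℝ) / 2 ^ N) = rot θ ((m : ℝ) / 2 ^ N) := by
      funext x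
      simp only [rot]
      have : θ x + ((m + 2 ^ N : ℕ) : ℝ) / 2 ^ N = (θ x + (m : ℝ) / 2 ^ N) + ((1 : ℤ) : ℝ) := by
        push_cast
        rw [add_div, div_self (by positivity)]
        ring
      rw [this, Int.fract_add_intCast]
    rw [e]
  have hsum : ∀ j, j < 2 ^ n → ∑ m ∈ Finset.range (2 ^ N), Φ m j = ∑ m ∈ Finset.range (2 ^ N), Φ m 0 := by
    intro j hj
    rw [← j7126_per (fun m => Φ m j) (2 ^ N) (fun m => hper m j) (j * 2 ^ (N - n))]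
    refine Finset.sum_congr rfl fun m _ => ?_
    have := hshift m j 0 (by positivity)
    rw [zero_add, Nat.mod_eq_of_lt hj] at this
    exact this
  rw [Finset.sum_comm, Finset.sum_comm (s := Finset.range (2 ^ N)) (t := G)]
  rw [Finset.sum_congr rfl (fun j hj => hsum j (Finset.mem_range.1 hj)),
    Finset.sum_congr rfl (fun j hj => hsum j (Finset.mem_range.1 (hG hj)))]
  simp only [Finset.sum_const, Finset.card_range, nsmul_eq_mul]
  push_cast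
  ring

end

end Pool.Agent.Helper807.BT
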