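import Pool.Agent.Helper807.BT.Base
import Pool.Agent.Helper807.BT.Bas
import Pool.Agent.Helper807.BT.Geo1
import Pool.Agent.Helper807.BT.Layer
import Pool.Agent.Helper807.BT.LowBox
import Pool.Agent.Helper807.BT.Rot

set_option autoImplicit false

open MeasureTheory Set
open scoped ENNReal

namespace Pool.Agent.Helper807.BT

noncomputable section

variable {X : Type*} [MeasurableSpace X]


theorem nd_le_7110 (t : ℝ) (n : ℤ) : nd t ≤ |t - n| := round_le t n

theorem nd_add_7110 (s t : ℝ) : nd (s + t) ≤ nd s + nd t := by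
  have h := nd_le_7110 (s + t) (round s + round t)
  refine h.trans ?_
  have e : s + t - ((round s + round t : ℤ) : ℝ) = (s - round s) + (t - round t) := by
    push_cast; ring
  rw [e]
  exact abs_add_le _ _

theorem nd_neg_7110 (t : ℝ) : nd (-t) = nd t := by
  have key : ∀ t : ℝ, nd (-t) ≤ nd t := by
    intro t
    refine (nd_le_7110 (-t) (-round t)).trans (le_of_eq ?_)
    have e : -t - ((-round t : ℤ) : ℝ) = -(t - round t) := by push_cast; ring
    rw [e, abs_neg]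
    rfl
  apply le_antisymm (key t)
  have := key (-t)
  rwa [neg_neg] at this

theorem nd_nonneg_7110 (t : ℝ) : 0 ≤ nd t := abs_nonneg _

theorem measurable_nd_7110 : Measurable nd := by
  have e : nd = fun t : ℝ => |t - (⌊t + 1 / 2⌋ : ℝ)| := by
    funext t
    simp only [nd, round_eq]
  rw [e]
  fun_prop

/-- cells -/
theorem cell_7110 {θ : X → ℝ} {a l η : ℝ} (hη : 0 < η) {x : X} {N : ℕ} (hN : l = N * η)
    (hx : Int.fract (θ x - a) < l) :
    ∃ k < N, (k : ℝ) * η ≤ Int.fract (θ x - a) ∧ Int.fract (θ x - a) < ((k : ℝ) + 1) * η := by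
  have h0 : 0 ≤ Int.fract (θ x - a) := Int.fract_nonneg _
  refine ⟨⌊Int.fract (θ x - a) / η⌋₊, ?_, ?_, ?_⟩
  · rw [Nat.floor_lt (by positivity), div_lt_iff₀ hη, ← hN]
    exact hx
  · rw [← le_div_iff₀ hη]
    exact Nat.floor_le (by positivity)
  · rw [← div_lt_iff₀ hη]
    exact Nat.lt_floor_add_one _

theorem cell_nd_7110 {θ : X → ℝ} {a η : ℝ} {x : X} {k : ℕ}
    (h1 : (k : ℝ) * η ≤ Int.fract (θ x - a)) (h2 : Int.fract (θ x - a) < ((k : ℝ) + 1) * η) :
    nd (θ x - (a + k * η)) ≤ η := by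
  refine (nd_le_7110 _ ⌊θ x - a⌋).trans ?_
  have e : θ x - (a + k * η) - (⌊θ x - a⌋ : ℝ) = Int.fract (θ x - a) - k * η := by
    rw [← Int.self_sub_floor]; ring
  rw [e, abs_of_nonneg (by linarith)]
  linarith

theorem cell_fract_7110 {θ : X → ℝ} {a η : ℝ} {x : X} {k : ℕ} (hη : η ≤ 1)
    (h1 : (k : ℝ) * η ≤ Int.fract (θ x - a)) (h2 : Int.fract (θ x - a) < ((k : ℝ) + 1) * η) :
    Int.fract (θ x - (a + k * η)) < η := by
  have e : Int.fract (θ x - (a + k * η)) = Int.fract (θ x - a) - k * η := by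
    rw [Int.fract_eq_iff]
    refine ⟨by linarith, by linarith, ⌊θ x - a⌋, ?_⟩
    rw [← Int.self_sub_floor]; ring
  rw [e]
  linarith

theorem box_nd_7110 {θ h : X → ℝ} {a l : ℝ} {x y : X} (hx : x ∈ arcBox θ h a l)
    (hy : y ∈ arcBox θ h a l) : nd (θ x - θ y) ≤ l := by
  refine (nd_le_7110 _ (⌊θ x - a⌋ - ⌊θ y - a⌋)).trans ?_
  have e : θ x - θ y - ((⌊θ x - a⌋ - ⌊θ y - a⌋ : ℤ) : ℝ) =
      Int.fract (θ x - a) - Int.fract (θ y - a) := by
    rw [← Int.self_sub_floor, ← Int.self_sub_floor]; push_cast; ring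
  rw [e, abs_le]
  have h1 := Int.fract_nonneg (θ x - a)
  have h2 := Int.fract_nonneg (θ y - a)
  have h3 : Int.fract (θ x - a) < l := hx.1
  have h4 : Int.fract (θ y - a) < l := hy.1
  constructor <;> linarith

/-- thin cell -/
def SA7110 (θ h : X → ℝ) (t h0 : ℝ) : Set X := {x | nd (θ x - t) ≤ h0 ∧ h0 / 2 ≤ h x ∧ h x ≤ h0}

/-- big cell -/
def SB7110 (θ h : X → ℝ) (t h0 : ℝ) : Set X := {y | nd (θ y - t) ≤ 256 * h0 ∧ h y ≤ 256 * h0}

/-- far part -/
def SD7110 (θ h : X → ℝ) (t δ : ℝ) : Set X :=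
  {y | h y ≤ δ / 256 ∧ δ / 4 ≤ nd (θ y - t) ∧ nd (θ y - t) ≤ 2 * δ}

/-- type A / B: a tall point -/
theorem tall_7110 {θ h : X → ℝ} {a l δ : ℝ} (hδ : 0 < δ) {x y : X}
    {N : ℕ} (hN : l = N * (δ / 256)) (hx : x ∈ arcBox θ h a l)
    (h1 : h x ≤ δ) (h2 : h y ≤ δ) (h3 : nd (θ y - θ x) ≤ δ) (h4 : δ / 256 < h x) :
    ∃ k < N, ∃ i < 8, x ∈ SA7110 θ h (a + k * (δ / 256)) (δ * (1 / 2) ^ i) ∧
      y ∈ SB7110 θ h (a + k * (δ / 256)) (δ * (1 / 2) ^ i) := by
  obtain ⟨k, hk, hk1, hk2⟩ := cell_7110 (θ := θ) (a := a) (l := l) (η := δ / 256) (by positivity)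
    (x := x) hN hx.1
  have hnd := cell_nd_7110 hk1 hk2
  obtain ⟨i, hi1, hi2⟩ := exists_nat_pow_near_of_lt_one (x := h x / δ) (y := (1 / 2 : ℝ))
    (div_pos (lt_trans (by positivity) h4) hδ) ((div_le_one hδ).2 h1) (by norm_num) (by norm_num)
  rw [lt_div_iff₀ hδ] at hi1
  rw [div_le_iff₀ hδ] at hi2
  have hi8 : i < 8 := by
    by_contra hcon
    push Not at hcon
    have h5 : (1 / 2 : ℝ) ^ i ≤ (1 / 2) ^ 8 :=
      pow_le_pow_of_le_one (by norm_num) (by norm_num) hcon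
    have h6 : (1 / 2 : ℝ) ^ i * δ ≤ (1 / 2) ^ 8 * δ := mul_le_mul_of_nonneg_right h5 hδ.le
    norm_num at h6
    linarith
  have hi7 : (1 / 2 : ℝ) ^ 7 ≤ (1 / 2) ^ i :=
    pow_le_pow_of_le_one (by norm_num) (by norm_num) (by omega)
  have hi7' : (1 / 2 : ℝ) ^ 7 * δ ≤ (1 / 2) ^ i * δ := mul_le_mul_of_nonneg_right hi7 hδ.le
  norm_num at hi7'
  refine ⟨k, hk, i, hi8, ⟨?_, ?_, ?_⟩, ?_, ?_⟩
  · refine hnd.trans ?_
    norm_num at hi7' ⊢
    linarith
  · rw [pow_succ] at hi1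
    linarith
  · linarith
  · have e : θ y - (a + k * (δ / 256)) = (θ y - θ x) + (θ x - (a + k * (δ / 256))) := by ring
    have h7 : nd (θ y - (a + k * (δ / 256))) ≤ δ + δ / 256 := by
      rw [e]
      exact (nd_add_7110 _ _).trans (add_le_add h3 hnd)
    norm_num at hi7' ⊢
    linarith
  · norm_num at hi7' ⊢
    linarith

theorem far_7110 {θ h : X → ℝ} {a l δ : ℝ} (hδ : 0 < δ) (hδ1 : δ ≤ 1) {x y : X}
    {N : ℕ} (hN : l = N * (δ / 256)) (hx : x ∈ arcBox θ h a l)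
    (h1 : h x ≤ δ / 256) (h2 : h y ≤ δ / 256) (h3 : nd (θ y - θ x) ≤ δ)
    (h4 : δ / 2 < nd (θ y - θ x)) :
    ∃ k < N, x ∈ arcBox θ h (a + k * (δ / 256)) (δ / 256) ∧
      y ∈ SD7110 θ h (a + k * (δ / 256)) δ := by
  obtain ⟨k, hk, hk1, hk2⟩ := cell_7110 (θ := θ) (a := a) (l := l) (η := δ / 256) (by positivity)
    (x := x) hN hx.1
  have hnd := cell_nd_7110 hk1 hk2
  refine ⟨k, hk, ⟨cell_fract_7110 (by linarith) hk1 hk2, h1⟩, h2, ?_, ?_⟩
  · have e : θ y - θ x = (θ y - (a + k * (δ / 256))) + -(θ x - (a + k * (δ / 256))) := by ring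
    have h5 : nd (θ y - θ x) ≤ nd (θ y - (a + k * (δ / 256))) + δ / 256 := by
      rw [e]
      refine (nd_add_7110 _ _).trans ?_
      rw [nd_neg_7110]
      linarith
    linarith
  · have e : θ y - (a + k * (δ / 256)) = (θ y - θ x) + (θ x - (a + k * (δ / 256))) := by ring
    have h7 : nd (θ y - (a + k * (δ / 256))) ≤ δ + δ / 256 := by
      rw [e]
      exact (nd_add_7110 _ _).trans (add_le_add h3 hnd)
    linarith

/-- the cover of `Q × Q` -/
theorem cover_7110 {θ h : X → ℝ} (geo : Geo θ h) {a l : ℝ} (hl : 0 < l) (hl1 : l ≤ 1) :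
    arcBox θ h a l ×ˢ arcBox θ h a l ⊆ ⋃ j : ℕ, ⋃ k ∈ Finset.range (2 ^ (j + 8)),
      ((⋃ i ∈ Finset.range 8,
        (SA7110 θ h (a + k * (l * (1 / 2) ^ j / 256)) (l * (1 / 2) ^ j * (1 / 2) ^ i) ×ˢ
          SB7110 θ h (a + k * (l * (1 / 2) ^ j / 256)) (l * (1 / 2) ^ j * (1 / 2) ^ i))) ∪
      (⋃ i ∈ Finset.range 8,
        (SB7110 θ h (a + k * (l * (1 / 2) ^ j / 256)) (l * (1 / 2) ^ j * (1 / 2) ^ i) ×ˢ
          SA7110 θ h (a + k * (l * (1 / 2) ^ j / 256)) (l * (1 / 2) ^ j * (1 / 2) ^ i)))) ∪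
      (arcBox θ h (a + k * (l * (1 / 2) ^ j / 256)) (l * (1 / 2) ^ j / 256) ×ˢ
        SD7110 θ h (a + k * (l * (1 / 2) ^ j / 256)) (l * (1 / 2) ^ j)) := by
  rintro ⟨x, y⟩ ⟨hx, hy⟩
  have hx' : x ∈ arcBox θ h a l := hx
  have hy' : y ∈ arcBox θ h a l := hy
  set r : ℝ := max (max (h x) (h y)) (nd (θ y - θ x)) with hr
  have hr0 : 0 < r := lt_of_lt_of_le (geo.h0 x) ((le_max_left _ _).trans (le_max_left _ _))
  have hrl : r ≤ l := max_le (max_le hx'.2 hy'.2) (box_nd_7110 hy' hx')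
  obtain ⟨j, hj1, hj2⟩ := exists_nat_pow_near_of_lt_one (x := r / l) (y := (1 / 2 : ℝ))
    (div_pos hr0 hl) ((div_le_one hl).2 hrl) (by norm_num) (by norm_num)
  rw [lt_div_iff₀ hl] at hj1
  rw [div_le_iff₀ hl] at hj2
  set δ : ℝ := l * (1 / 2) ^ j with hδ
  have hδ0 : 0 < δ := by positivity
  have hδl : δ ≤ l := by
    rw [hδ]
    have : (1 / 2 : ℝ) ^ j ≤ 1 := pow_le_one₀ (by norm_num) (by norm_num)
    nlinarith
  have hrδ : r ≤ δ := by rw [hδ]; linarith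
  have hrδ2 : δ / 2 < r := by
    rw [pow_succ] at hj1
    rw [hδ]; linarith
  have hN : l = ((2 ^ (j + 8) : ℕ) : ℝ) * (δ / 256) := by
    rw [hδ, pow_add]
    push_cast
    have : (2 : ℝ) ^ j * (1 / 2) ^ j = 1 := by rw [← mul_pow]; norm_num
    calc l = l * ((2 : ℝ) ^ j * (1 / 2) ^ j) := by rw [this, mul_one]
      _ = _ := by ring
  have hhx : h x ≤ δ := ((le_max_left _ _).trans (le_max_left _ _)).trans hrδ
  have hhy : h y ≤ δ := ((le_max_right _ _).trans (le_max_left _ _)).trans hrδ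
  have hnd : nd (θ y - θ x) ≤ δ := (le_max_right _ _).trans hrδ
  have hnd' : nd (θ x - θ y) ≤ δ := by
    have : θ x - θ y = -(θ y - θ x) := by ring
    rw [this, nd_neg_7110]; exact hnd
  simp only [mem_iUnion]
  refine ⟨j, ?_⟩
  rw [← hδ]
  by_cases c1 : δ / 256 < h x
  · obtain ⟨k, hk, i, hi, h1, h2⟩ := tall_7110 hδ0 hN hx' hhx hhy hnd c1
    refine ⟨k, Finset.mem_range.2 hk, Or.inl (Or.inl ?_)⟩
    simp only [mem_iUnion]
    exact ⟨i, Finset.mem_range.2 hi, h1, h2⟩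
  by_cases c2 : δ / 256 < h y
  · obtain ⟨k, hk, i, hi, h1, h2⟩ := tall_7110 hδ0 hN hy' hhy hhx hnd' c2
    refine ⟨k, Finset.mem_range.2 hk, Or.inl (Or.inr ?_)⟩
    simp only [mem_iUnion]
    exact ⟨i, Finset.mem_range.2 hi, h2, h1⟩
  push Not at c1 c2
  have c3 : δ / 2 < nd (θ y - θ x) := by
    by_contra hcon
    push Not at hcon
    have : r ≤ δ / 2 := max_le (max_le (by linarith) (by linarith)) hcon
    linarith
  obtain ⟨k, hk, h1, h2⟩ := far_7110 hδ0 (hδl.trans hl1) hN hx' c1 c2 hnd c3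
  exact ⟨k, Finset.mem_range.2 hk, Or.inr ⟨h1, h2⟩⟩

theorem toReal_bound_7110 {s w : Measure X} [IsFiniteMeasure s] [IsFiniteMeasure w] {E F : Set X}
    {c : ℝ} (h : (w E).toReal * (s F).toReal ≤ c) : w E * s F ≤ ENNReal.ofReal c := by
  rw [← ENNReal.ofReal_toReal (measure_ne_top w E), ← ENNReal.ofReal_toReal (measure_ne_top s F),
    ← ENNReal.ofReal_mul ENNReal.toReal_nonneg]
  exact ENNReal.ofReal_le_ofReal h

theorem const_8_7110 (c : ℝ) :
    ∑ _i ∈ Finset.range 8, ENNReal.ofReal c = ENNReal.ofReal (8 * c) := by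
  rw [Finset.sum_const, Finset.card_range, nsmul_eq_mul, ENNReal.ofReal_mul (by norm_num)]
  norm_num

theorem A2_of_testing (θ h : X → ℝ) (geo : Geo θ h) (s w : Measure X) [IsFiniteMeasure s]
    [IsFiniteMeasure w] (C0 : ℝ) (hC : 0 ≤ C0) (hT : Testing θ h s w C0)
    (hT' : Testing θ h w s C0) : ∃ A : ℝ, 0 ≤ A ∧ A2 θ h s w A := by
  obtain ⟨C1, hC1⟩ := HH θ h geo s w C0 hC hT 256 (by norm_num)
  obtain ⟨C2, hC2⟩ := HH θ h geo w s C0 hC hT' 256 (by norm_num)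
  set D1 : ℝ := max C1 0 with hD1
  set D2 : ℝ := max C2 0 with hD2
  have hD10 : 0 ≤ D1 := le_max_right _ _
  have hD20 : 0 ≤ D2 := le_max_right _ _
  set D : ℝ := 8 * D1 + 8 * D2 + 16 * C0 * 20 ^ 4 with hD
  have hD0 : 0 ≤ D := by positivity
  refine ⟨512 * D, by positivity, ?_⟩
  intro a l hl hl1
  -- bounds of the three types
  have bA : ∀ (t h0 δ : ℝ), 0 < h0 → h0 ≤ δ → δ ≤ 1 →
      w (SA7110 θ h t h0) * s (SB7110 θ h t h0) ≤ ENNReal.ofReal (D1 * δ ^ 4) := by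
    intro t h0 δ hh0 hhδ hδ1
    apply toReal_bound_7110
    refine (hC1 t h0 hh0 (hhδ.trans hδ1)).trans ?_
    calc C1 * h0 ^ 4 ≤ D1 * h0 ^ 4 := mul_le_mul_of_nonneg_right (le_max_left _ _) (by positivity)
      _ ≤ D1 * δ ^ 4 := mul_le_mul_of_nonneg_left (pow_le_pow_left₀ hh0.le hhδ 4) hD10
  have bB : ∀ (t h0 δ : ℝ), 0 < h0 → h0 ≤ δ → δ ≤ 1 →
      w (SB7110 θ h t h0) * s (SA7110 θ h t h0) ≤ ENNReal.ofReal (D2 * δ ^ 4) := by
    intro t h0 δ hh0 hhδ hδ1
    rw [mul_comm]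
    apply toReal_bound_7110
    refine (hC2 t h0 hh0 (hhδ.trans hδ1)).trans ?_
    calc C2 * h0 ^ 4 ≤ D2 * h0 ^ 4 := mul_le_mul_of_nonneg_right (le_max_left _ _) (by positivity)
      _ ≤ D2 * δ ^ 4 := mul_le_mul_of_nonneg_left (pow_le_pow_left₀ hh0.le hhδ 4) hD20
  have bC : ∀ (t δ : ℝ), 0 < δ → δ ≤ 1 →
      w (arcBox θ h t (δ / 256)) * s (SD7110 θ h t δ) ≤ ENNReal.ofReal (16 * C0 * 20 ^ 4 * δ ^ 4) := by
    intro t δ hδ hδ1
    apply toReal_bound_7110
    have hm : MeasurableSet (SD7110 θ h t δ) := by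
      have m1 : Measurable fun y => nd (θ y - t) :=
        measurable_nd_7110.comp (geo.mθ.sub measurable_const)
      exact (measurableSet_le geo.mh measurable_const).inter
        ((measurableSet_le measurable_const m1).inter (measurableSet_le m1 measurable_const))
    refine (LB θ h geo s w C0 hC hT' t (δ / 256) (by positivity) (by linarith) (20 * δ)
      (SD7110 θ h t δ) hm ?_).trans (le_of_eq (by ring))
    intro x hx y hy
    have hx1 : nd (θ x - t) ≤ δ / 256 := by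
      refine (nd_le_7110 _ ⌊θ x - t⌋).trans ?_
      have e : θ x - t - (⌊θ x - t⌋ : ℝ) = Int.fract (θ x - t) := Int.self_sub_floor _
      rw [e, abs_of_nonneg (Int.fract_nonneg _)]
      exact hx.1.le
    have hx2 : h x ≤ δ / 256 := hx.2
    obtain ⟨hy1, hy2, hy3⟩ := hy
    have e1 : θ y - t = (θ y - θ x) + (θ x - t) := by ring
    have e2 : θ y - θ x = (θ y - t) + -(θ x - t) := by ring
    have k1 : nd (θ y - t) ≤ nd (θ y - θ x) + nd (θ x - t) := by rw [e1]; exact nd_add_7110 _ _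
    have k2 : nd (θ y - θ x) ≤ nd (θ y - t) + nd (θ x - t) := by
      rw [e2]
      refine (nd_add_7110 _ _).trans ?_
      rw [nd_neg_7110]
    have k3 : 2 * nd (θ y - θ x) ≤ ‖den (θ y, h y) (θ x, h x)‖ :=
      den_ge_nd (u := (θ y, h y)) (v := (θ x, h x)) (geo.h0 y).le (geo.h1 y) (geo.h0 x).le
        (geo.h1 x)
    have k4 : ‖den (θ y, h y) (θ x, h x)‖ ≤ h y + h x + 2 * Real.pi * nd (θ y - θ x) :=
      den_le (u := (θ y, h y)) (v := (θ x, h x)) (geo.h0 y).le (geo.h1 y) (geo.h0 x).le (geo.h1 x)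
    have hpi := Real.pi_lt_d2
    norm_num at hpi
    constructor
    · linarith
    · refine k4.trans ?_
      have k5 : nd (θ y - θ x) ≤ 2 * δ + δ / 256 := by linarith
      have k6 : 2 * Real.pi * nd (θ y - θ x) ≤ 7 * (2 * δ + δ / 256) := by
        have := nd_nonneg_7110 (θ y - θ x)
        have hpi0 := Real.pi_pos
        calc 2 * Real.pi * nd (θ y - θ x) ≤ 7 * nd (θ y - θ x) :=
              mul_le_mul_of_nonneg_right (by linarith) this
          _ ≤ _ := by linarith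
      linarith
  -- the union bound
  have hmain : w (arcBox θ h a l) * s (arcBox θ h a l) ≤
      ∑' j : ℕ, ENNReal.ofReal (256 * D * l ^ 4 * (1 / 8) ^ j) := by
    rw [← Measure.prod_prod]
    refine (measure_mono (cover_7110 geo hl hl1)).trans ?_
    refine (measure_iUnion_le _).trans ?_
    apply ENNReal.tsum_le_tsum
    intro j
    set δ : ℝ := l * (1 / 2) ^ j with hδ
    have hδ0 : 0 < δ := by positivity
    have hδ1 : δ ≤ 1 := by
      rw [hδ]
      have : (1 / 2 : ℝ) ^ j ≤ 1 := pow_le_one₀ (by norm_num) (by norm_num)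
      nlinarith [pow_pos (show (0 : ℝ) < 1 / 2 by norm_num) j]
    refine (measure_biUnion_finset_le _ _).trans ?_
    have hk : ∀ k ∈ Finset.range (2 ^ (j + 8)),
        (w.prod s) (((⋃ i ∈ Finset.range 8,
        (SA7110 θ h (a + k * (δ / 256)) (δ * (1 / 2) ^ i) ×ˢ
          SB7110 θ h (a + k * (δ / 256)) (δ * (1 / 2) ^ i))) ∪
      (⋃ i ∈ Finset.range 8,
        (SB7110 θ h (a + k * (δ / 256)) (δ * (1 / 2) ^ i) ×ˢ
          SA7110 θ h (a + k * (δ / 256)) (δ * (1 / 2) ^ i)))) ∪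
      (arcBox θ h (a + k * (δ / 256)) (δ / 256) ×ˢ
        SD7110 θ h (a + k * (δ / 256)) δ)) ≤ ENNReal.ofReal (D * δ ^ 4) := by
      intro k _
      have hi0 : ∀ i : ℕ, 0 < δ * (1 / 2) ^ i := fun i => by positivity
      have hi1 : ∀ i : ℕ, δ * (1 / 2) ^ i ≤ δ := fun i => by
        have : (1 / 2 : ℝ) ^ i ≤ 1 := pow_le_one₀ (by norm_num) (by norm_num)
        nlinarith
      have u1 : (w.prod s) (⋃ i ∈ Finset.range 8,
          (SA7110 θ h (a + k * (δ / 256)) (δ * (1 / 2) ^ i) ×ˢ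
          SB7110 θ h (a + k * (δ / 256)) (δ * (1 / 2) ^ i))) ≤ ENNReal.ofReal (8 * (D1 * δ ^ 4)) := by
        refine (measure_biUnion_finset_le _ _).trans ?_
        refine (Finset.sum_le_sum fun i _ => ?_).trans (b := ∑ i ∈ Finset.range 8,
          ENNReal.ofReal (D1 * δ ^ 4)) ?_
        · rw [Measure.prod_prod]
          exact bA _ _ _ (hi0 i) (hi1 i) hδ1
        · exact (const_8_7110 _).le
      have u2 : (w.prod s) (⋃ i ∈ Finset.range 8,
          (SB7110 θ h (a + k * (δ / 256)) (δ * (1 / 2) ^ i) ×ˢ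
          SA7110 θ h (a + k * (δ / 256)) (δ * (1 / 2) ^ i))) ≤ ENNReal.ofReal (8 * (D2 * δ ^ 4)) := by
        refine (measure_biUnion_finset_le _ _).trans ?_
        refine (Finset.sum_le_sum fun i _ => ?_).trans (b := ∑ i ∈ Finset.range 8,
          ENNReal.ofReal (D2 * δ ^ 4)) ?_
        · rw [Measure.prod_prod]
          exact bB _ _ _ (hi0 i) (hi1 i) hδ1
        · exact (const_8_7110 _).le
      have u3 : (w.prod s) (arcBox θ h (a + k * (δ / 256)) (δ / 256) ×ˢ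
        SD7110 θ h (a + k * (δ / 256)) δ) ≤ ENNReal.ofReal (16 * C0 * 20 ^ 4 * δ ^ 4) := by
        rw [Measure.prod_prod]
        exact bC _ _ hδ0 hδ1
      refine (measure_union_le _ _).trans ?_
      refine (add_le_add ((measure_union_le _ _).trans (add_le_add u1 u2)) u3).trans ?_
      rw [← ENNReal.ofReal_add (by positivity) (by positivity),
        ← ENNReal.ofReal_add (by positivity) (by positivity)]
      apply ENNReal.ofReal_le_ofReal
      rw [hD]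
      apply le_of_eq
      ring
    refine (Finset.sum_le_sum hk).trans ?_
    rw [Finset.sum_const, Finset.card_range, nsmul_eq_mul]
    have e3 : (((2 ^ (j + 8) : ℕ)) : ENNReal) = ENNReal.ofReal ((2 : ℝ) ^ (j + 8)) := by
      rw [ENNReal.ofReal_pow (by norm_num)]
      norm_num
    rw [e3, ← ENNReal.ofReal_mul (by positivity)]
    apply ENNReal.ofReal_le_ofReal
    apply le_of_eq
    rw [hδ, pow_add, mul_pow]
    have e4 : (2 : ℝ) ^ j * ((1 / 2) ^ j) ^ 4 = (1 / 8) ^ j := by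
      rw [← pow_mul, mul_comm j 4, pow_mul, ← mul_pow]
      norm_num
    calc (2 : ℝ) ^ j * 2 ^ 8 * (D * (l ^ 4 * ((1 / 2) ^ j) ^ 4))
        = 256 * D * l ^ 4 * ((2 : ℝ) ^ j * ((1 / 2) ^ j) ^ 4) := by ring
      _ = _ := by rw [e4]
  have hsum : ∑' j : ℕ, ENNReal.ofReal (256 * D * l ^ 4 * (1 / 8) ^ j) ≤
      ENNReal.ofReal (512 * D * l ^ 4) := by
    have hs : Summable fun j : ℕ => 256 * D * l ^ 4 * (1 / 8 : ℝ) ^ j :=
      (summable_geometric_of_lt_one (by norm_num) (by norm_num)).mul_left _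
    rw [← ENNReal.ofReal_tsum_of_nonneg (fun j => by positivity) hs]
    apply ENNReal.ofReal_le_ofReal
    rw [tsum_mul_left, tsum_geometric_of_lt_one (by norm_num) (by norm_num)]
    have : 0 ≤ D * l ^ 4 := by positivity
    norm_num
    linarith
  have hfin := hmain.trans hsum
  have h5 : (s (arcBox θ h a l)).toReal * (w (arcBox θ h a l)).toReal =
      (w (arcBox θ h a l) * s (arcBox θ h a l)).toReal := by
    rw [ENNReal.toReal_mul, mul_comm]
  rw [h5]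
  exact ENNReal.toReal_le_of_le_ofReal (by positivity) hfin

end

end Pool.Agent.Helper807.BT
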