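import Pool.Agent.Helper807.BT.Base
import Pool.Agent.Helper807.BT.Bas
import Pool.Agent.Helper807.BT.Geo1

set_option autoImplicit false

open MeasureTheory Set
open scoped ENNReal

namespace Pool.Agent.Helper807.BT

noncomputable section

variable {X : Type*} [MeasurableSpace X]


theorem nd_ge_7118 {t c : ℝ} (h1 : c ≤ |t|) (h2 : c ≤ 1 - |t|) : c ≤ nd t := by
  unfold nd
  rcases eq_or_ne (round t) 0 with h | h
  · rw [h, Int.cast_zero, sub_zero]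
    exact h1
  · have h3 : (1 : ℝ) ≤ |((round t : ℤ) : ℝ)| := by
      rw [← Int.cast_abs]
      exact_mod_cast Int.one_le_abs h
    have h4 : |((round t : ℤ) : ℝ)| - |t| ≤ |t - ((round t : ℤ) : ℝ)| := by
      have := abs_sub_abs_le_abs_sub ((round t : ℤ) : ℝ) t
      rwa [abs_sub_comm] at this
    linarith

/-- scaled version -/
theorem nd_ge_scaled_7118 {a b c M : ℝ} (hM : 0 < M) (h1 : c ≤ |M * a - M * b|)
    (h2 : c ≤ M - |M * a - M * b|) : c / M ≤ nd (a - b) := by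
  have h3 : |M * a - M * b| = M * |a - b| := by
    rw [← mul_sub, abs_mul, abs_of_pos hM]
  rw [h3] at h1 h2
  apply nd_ge_7118
  · rw [div_le_iff₀ hM]
    linarith
  · rw [div_le_iff₀ hM]
    linarith

theorem col_bd_7118 {θ h : X → ℝ} (geo : Geo θ h) (n : ℕ) (x : X) :
    (col θ n x : ℝ) ≤ 2 ^ n * θ x ∧ 2 ^ n * θ x < (col θ n x : ℝ) + 1 := by
  have h0 : 0 ≤ (2 : ℝ) ^ n * θ x := mul_nonneg (by positivity) (geo.θ0 x)
  exact ⟨Nat.floor_le h0, Nat.lt_floor_add_one _⟩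

theorem den_nd_7118 {θ h : X → ℝ} (geo : Geo θ h) (x y : X) :
    2 * nd (θ x - θ y) ≤ ‖den (θ x, h x) (θ y, h y)‖ :=
  den_ge_nd (u := (θ x, h x)) (v := (θ y, h y)) (geo.h0 x).le (geo.h1 x) (geo.h0 y).le (geo.h1 y)

/-- the position of the good index inside its ancestor -/
theorem good_pos_7118 {θ h : X → ℝ} (geo : Geo θ h) {r n j i : ℕ}
    (hg : good r n j) (hi : r ≤ i) (hin : i ≤ n) {x : X} (hx : x ∈ Q θ h n j) :
    ((j / 2 ^ i : ℕ) : ℝ) + (1 / 2 : ℝ) ^ (i / 4) ≤ 2 ^ (n - i) * θ x ∧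
    2 ^ (n - i) * θ x + (1 / 2 : ℝ) ^ (i / 4) ≤ ((j / 2 ^ i : ℕ) : ℝ) + 1 := by
  obtain ⟨g1, g2⟩ := hg i hi hin
  have hc := col_bd_7118 geo n x
  rw [hx.1] at hc
  have hpow : (2 : ℝ) ^ n = 2 ^ i * 2 ^ (n - i) := by rw [← pow_add, Nat.add_sub_cancel' hin]
  have hjd : 2 ^ i * (j / 2 ^ i) + j % 2 ^ i = j := Nat.div_add_mod j (2 ^ i)
  have hjd' : (2 : ℝ) ^ i * ((j / 2 ^ i : ℕ) : ℝ) + ((j % 2 ^ i : ℕ) : ℝ) = j := by
    exact_mod_cast hjd
  have g1' : (2 : ℝ) ^ (i - i / 4) ≤ ((j % 2 ^ i : ℕ) : ℝ) := by exact_mod_cast g1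
  have g2' : ((j % 2 ^ i : ℕ) : ℝ) + 1 + (2 : ℝ) ^ (i - i / 4) ≤ 2 ^ i := by exact_mod_cast g2
  have hp : (2 : ℝ) ^ (i - i / 4) = 2 ^ i * (1 / 2 : ℝ) ^ (i / 4) := by
    have : (2 : ℝ) ^ i = 2 ^ (i - i / 4) * 2 ^ (i / 4) := by
      rw [← pow_add, Nat.sub_add_cancel (Nat.div_le_self i 4)]
    rw [this, mul_assoc, ← mul_pow]
    norm_num
  rw [hp] at g1' g2'
  rw [hpow] at hc
  obtain ⟨c1, c2⟩ := hc
  have h2i : (0 : ℝ) < 2 ^ i := by positivity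
  set P : ℝ := (2 : ℝ) ^ i with hP
  set Z : ℝ := 2 ^ (n - i) * θ x with hZ
  set J : ℝ := ((j / 2 ^ i : ℕ) : ℝ) with hJ
  set δ : ℝ := (1 / 2 : ℝ) ^ (i / 4) with hδ
  have c1' : (j : ℝ) ≤ P * Z := by rw [hZ, ← mul_assoc]; exact c1
  have c2' : P * Z < (j : ℝ) + 1 := by rw [hZ, ← mul_assoc]; exact c2
  constructor
  · have h5 : P * (J + δ) ≤ P * Z := by
      rw [mul_add]; linarith
    exact le_of_mul_le_mul_left h5 h2i
  · have h5 : P * (Z + δ) ≤ P * (J + 1) := by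
      rw [mul_add, mul_add, mul_one]; linarith
    exact le_of_mul_le_mul_left h5 h2i

theorem good_sep (θ h : X → ℝ) (geo : Geo θ h) (r n j i : ℕ) (hj : j < 2 ^ n)
    (hg : good r n j) (hi : r ≤ i) (hin : i ≤ n) (x y : X) (hx : x ∈ Q θ h n j)
    (hy : y ∉ Q θ h (n - i) (j / 2 ^ i)) :
    (1 / 2 : ℝ) ^ (n - i) * (1 / 2 : ℝ) ^ (i / 4) ≤ ‖den (θ x, h x) (θ y, h y)‖ := by
  have hδ1 : (1 / 2 : ℝ) ^ (i / 4) ≤ 1 := pow_le_one₀ (by norm_num) (by norm_num)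
  have hδ0 : (0 : ℝ) < (1 / 2 : ℝ) ^ (i / 4) := by positivity
  have hm0 : (0 : ℝ) < (1 / 2 : ℝ) ^ (n - i) := by positivity
  by_cases hh : h y ≤ (1 / 2 : ℝ) ^ (n - i)
  · have hcol : col θ (n - i) y ≠ j / 2 ^ i := fun h' => hy ⟨h', hh⟩
    obtain ⟨p1, p2⟩ := good_pos_7118 geo hg hi hin hx
    obtain ⟨c1, c2⟩ := col_bd_7118 geo (n - i) y
    have hM : (0 : ℝ) < 2 ^ (n - i) := by positivity
    have hJlt : j / 2 ^ i < 2 ^ (n - i) := by
      rw [Nat.div_lt_iff_lt_mul (by positivity), ← pow_add, Nat.sub_add_cancel hin]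
      exact hj
    have hJlt' : ((j / 2 ^ i : ℕ) : ℝ) + 1 ≤ 2 ^ (n - i) := by exact_mod_cast hJlt
    have hY1 : (2 : ℝ) ^ (n - i) * θ y < 2 ^ (n - i) := by
      have := mul_lt_mul_of_pos_left (geo.θ1 y) hM
      rwa [mul_one] at this
    have hY0 : 0 ≤ (2 : ℝ) ^ (n - i) * θ y := mul_nonneg hM.le (geo.θ0 y)
    have hJ0 : (0 : ℝ) ≤ ((j / 2 ^ i : ℕ) : ℝ) := Nat.cast_nonneg _
    have key : (1 / 2 : ℝ) ^ (i / 4) / 2 ^ (n - i) ≤ nd (θ x - θ y) := by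
      rcases lt_or_gt_of_ne hcol with hlt | hgt
      · have h3 : (col θ (n - i) y : ℝ) + 1 ≤ ((j / 2 ^ i : ℕ) : ℝ) := by exact_mod_cast hlt
        have h4 : 0 ≤ (2 : ℝ) ^ (n - i) * θ x - 2 ^ (n - i) * θ y := by linarith
        apply nd_ge_scaled_7118 hM
        · rw [abs_of_nonneg h4]; linarith
        · rw [abs_of_nonneg h4]; linarith
      · have h3 : ((j / 2 ^ i : ℕ) : ℝ) + 1 ≤ (col θ (n - i) y : ℝ) := by exact_mod_cast hgt
        have h4 : (2 : ℝ) ^ (n - i) * θ x - 2 ^ (n - i) * θ y ≤ 0 := by linarith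
        apply nd_ge_scaled_7118 hM
        · rw [abs_of_nonpos h4]; linarith
        · rw [abs_of_nonpos h4]; linarith
    have h5 := den_nd_7118 geo x y
    have h6 : (1 / 2 : ℝ) ^ (n - i) * (1 / 2 : ℝ) ^ (i / 4) =
        (1 / 2 : ℝ) ^ (i / 4) / 2 ^ (n - i) := by
      rw [one_div_pow, one_div_pow]
      field_simp
    rw [h6]
    have h7 : 0 ≤ (1 / 2 : ℝ) ^ (i / 4) / 2 ^ (n - i) := by positivity
    linarith
  · rw [not_le] at hh
    have h1 : h y ≤ ‖den (θ x, h x) (θ y, h y)‖ :=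
      den_ge_right (u := (θ x, h x)) (v := (θ y, h y)) (geo.h0 x).le (geo.h1 x) (geo.h0 y).le
        (geo.h1 y)
    have h2 : (1 / 2 : ℝ) ^ (n - i) * (1 / 2 : ℝ) ^ (i / 4) ≤ (1 / 2 : ℝ) ^ (n - i) :=
      mul_le_of_le_one_right hm0.le hδ1
    linarith

theorem good_Gd (θ h : X → ℝ) (geo : Geo θ h) (r n j i : ℕ) (hr : 4 ≤ r) (hj : j < 2 ^ n)
    (hg : good r n j) (hi : r ≤ i) (hin : i ≤ n) :
    Q θ h n j ⊆ Gd θ h (n - i) (j / 2 ^ i) := by
  intro x hx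
  obtain ⟨p1, p2⟩ := good_pos_7118 geo hg hi hin hx
  have hM : (0 : ℝ) < 2 ^ (n - i) := by positivity
  have hQ : x ∈ Q θ h (n - i) (j / 2 ^ i) := by
    have h1 := Q_anti geo (Nat.sub_le n i) j hx
    rwa [Nat.sub_sub_self hin] at h1
  have hhx : h x ≤ (1 / 2 : ℝ) ^ n := hx.2
  have h8 : 8 * (2 ^ (n - i) * h x) ≤ (1 / 2 : ℝ) ^ (i / 4) := by
    have e1 : (1 / 2 : ℝ) ^ n = (1 / 2) ^ (n - i) * (1 / 2) ^ i := by
      rw [← pow_add, Nat.sub_add_cancel hin]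
    have e2 : (2 : ℝ) ^ (n - i) * (1 / 2) ^ (n - i) = 1 := by
      rw [← mul_pow]; norm_num
    have e3 : 2 ^ (n - i) * h x ≤ (1 / 2 : ℝ) ^ i := by
      calc 2 ^ (n - i) * h x ≤ 2 ^ (n - i) * (1 / 2 : ℝ) ^ n :=
            mul_le_mul_of_nonneg_left hhx hM.le
        _ = (1 / 2 : ℝ) ^ i := by rw [e1, ← mul_assoc, e2, one_mul]
    have e4 : (1 / 2 : ℝ) ^ i = (1 / 2) ^ (i - i / 4) * (1 / 2) ^ (i / 4) := by
      rw [← pow_add, Nat.sub_add_cancel (Nat.div_le_self i 4)]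
    have e5 : (1 / 2 : ℝ) ^ (i - i / 4) ≤ (1 / 2) ^ 3 :=
      pow_le_pow_of_le_one (by norm_num) (by norm_num) (by omega)
    have e6 : (0 : ℝ) < (1 / 2) ^ (i / 4) := by positivity
    rw [e4] at e3
    nlinarith
  refine ⟨hQ, ?_, ?_⟩
  · have h9 : (2 : ℝ) ^ (n - i) * (8 * h x) ≤
        2 ^ (n - i) * (θ x - ((j / 2 ^ i : ℕ) : ℝ) / 2 ^ (n - i)) := by
      rw [mul_sub, mul_div_cancel₀ _ hM.ne']
      linarith
    exact le_of_mul_le_mul_left h9 hM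
  · have h9 : (2 : ℝ) ^ (n - i) * (8 * h x) ≤
        2 ^ (n - i) * ((((j / 2 ^ i : ℕ) : ℝ) + 1) / 2 ^ (n - i) - θ x) := by
      rw [mul_sub, mul_div_cancel₀ _ hM.ne']
      linarith
    exact le_of_mul_le_mul_left h9 hM

theorem far_sep (θ h : X → ℝ) (geo : Geo θ h) (l : ℕ) (x y : X)
    (hn : ¬ near l (col θ l x) (col θ l y)) :
    2 * (1 / 2 : ℝ) ^ l ≤ ‖den (θ x, h x) (θ y, h y)‖ := by
  have hM : (0 : ℝ) < 2 ^ l := by positivity
  obtain ⟨a1, a2⟩ := col_bd_7118 geo l x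
  obtain ⟨b1, b2⟩ := col_bd_7118 geo l y
  have ha := col_lt geo l x
  have hb := col_lt geo l y
  have key : (1 : ℝ) / 2 ^ l ≤ nd (θ x - θ y) := by
    unfold near at hn
    generalize col θ l x = a at *
    generalize col θ l y = b at *
    have hpow : ((2 ^ l : ℕ) : ℝ) = 2 ^ l := by push_cast; rfl
    generalize 2 ^ l = M at ha hb hn hpow
    rw [← hpow] at a1 a2 b1 b2 hM ⊢
    push Not at hn
    obtain ⟨n1, n2, n3, n4, n5⟩ := hn
    rcases lt_or_gt_of_ne n1 with hlt | hgt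
    · have h1 : a + 2 ≤ b := by omega
      have h2 : b + 2 ≤ M + a := by
        rcases Nat.eq_zero_or_pos a with h0 | h0
        · have := n4 h0
          omega
        · omega
      have h1' : (a : ℝ) + 2 ≤ b := by exact_mod_cast h1
      have h2' : (b : ℝ) + 2 ≤ M + a := by exact_mod_cast h2
      have h4 : (M : ℝ) * θ x - M * θ y ≤ 0 := by linarith
      apply nd_ge_scaled_7118 hM
      · rw [abs_of_nonpos h4]; linarith
      · rw [abs_of_nonpos h4]; linarith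
    · have h1 : b + 2 ≤ a := by omega
      have h2 : a + 2 ≤ M + b := by
        rcases Nat.eq_zero_or_pos b with h0 | h0
        · have := n5 h0
          omega
        · omega
      have h1' : (b : ℝ) + 2 ≤ a := by exact_mod_cast h1
      have h2' : (a : ℝ) + 2 ≤ M + b := by exact_mod_cast h2
      have h4 : 0 ≤ (M : ℝ) * θ x - M * θ y := by linarith
      apply nd_ge_scaled_7118 hM
      · rw [abs_of_nonneg h4]; linarith
      · rw [abs_of_nonneg h4]; linarith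
  have h5 := den_nd_7118 geo x y
  have h6 : (1 / 2 : ℝ) ^ l = 1 / 2 ^ l := by rw [one_div_pow]
  rw [h6]
  linarith

end

end Pool.Agent.Helper807.BT
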