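import Pool.Agent.Helper807.BT.Base
import Pool.Agent.Helper807.BT.Bas
import Pool.Agent.Helper807.BT.Geo1
import Pool.Agent.Helper807.BT.Sep

set_option autoImplicit false

open MeasureTheory Set
open scoped ENNReal

namespace Pool.Agent.Helper807.BT

noncomputable section

variable {X : Type*} [MeasurableSpace X]


/-! ### auxiliary for `adjoint` -/

/-- the defect of the adjoint identity -/
def La7125 (θ h : X → ℝ) (s w : Measure X) (φ ψ : X → ℝ) : ℂ :=
  Bf θ h s w φ ψ - (starRingEnd ℂ) (Bf θ h w s ψ φ)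

/-- nice functions -/
def Nc7125 (θ h : X → ℝ) (s w : Measure X) (φ : X → ℝ) : Prop :=
  Bdd φ ∧ Integrable (Pop θ h s φ) w

theorem Bdd_add7125 {f g : X → ℝ} (hf : Bdd f) (hg : Bdd g) : Bdd (fun x => f x + g x) := by
  obtain ⟨hm, C, hC⟩ := hf
  obtain ⟨hm', C', hC'⟩ := hg
  exact ⟨hm.add hm', C + C', fun x => (abs_add_le _ _).trans (add_le_add (hC x) (hC' x))⟩

theorem Bdd_smul7125 (c : ℝ) {f : X → ℝ} (hf : Bdd f) : Bdd (fun x => c * f x) := by
  obtain ⟨hm, C, hC⟩ := hf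
  exact ⟨hm.const_mul c, |c| * C, fun x => by
    rw [abs_mul]; exact mul_le_mul_of_nonneg_left (hC x) (abs_nonneg _)⟩

theorem Bdd_ind7125 {S : Set X} (hS : MeasurableSet S) : Bdd (S.indicator (1 : X → ℝ)) := by
  refine ⟨measurable_one.indicator hS, 1, fun x => ?_⟩
  by_cases hx : x ∈ S
  · simp [hx]
  · simp [hx]

theorem int_K7125 {θ h : X → ℝ} (geo : Geo θ h) (s : Measure X) [IsFiniteMeasure s] {f : X → ℝ}
    (hf : Bdd f) (x : X) : Integrable (fun y => K θ h x y * ((f y : ℝ) : ℂ)) s := by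
  obtain ⟨hm, C, hC⟩ := hf
  have hmeas : Measurable (fun y => K θ h x y * ((f y : ℝ) : ℂ)) :=
    ((measurable_K geo).comp measurable_prodMk_left).mul (Complex.measurable_ofReal.comp hm)
  refine Integrable.of_bound hmeas.aestronglyMeasurable (((h x) ^ 2)⁻¹ * C)
    (Filter.Eventually.of_forall fun y => ?_)
  rw [norm_mul, Complex.norm_real, Real.norm_eq_abs]
  exact mul_le_mul (norm_K_le_left geo x y) (hC y) (abs_nonneg _) (by positivity)

theorem Pop_add7125 {θ h : X → ℝ} (geo : Geo θ h) (s : Measure X) [IsFiniteMeasure s] {f g : X → ℝ}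
    (hf : Bdd f) (hg : Bdd g) (x : X) :
    Pop θ h s (fun y => f y + g y) x = Pop θ h s f x + Pop θ h s g x := by
  unfold Pop
  rw [← integral_add (int_K7125 geo s hf x) (int_K7125 geo s hg x)]
  congr 1; funext y; push_cast; ring

theorem Pop_smul7125 {θ h : X → ℝ} (s : Measure X) (c : ℝ) (f : X → ℝ) (x : X) :
    Pop θ h s (fun y => c * f y) x = (c : ℂ) * Pop θ h s f x := by
  unfold Pop
  rw [← integral_const_mul]
  congr 1; funext y; push_cast; ring

theorem meas_Pop7125 {θ h : X → ℝ} (geo : Geo θ h) (s : Measure X) [IsFiniteMeasure s] {f : X → ℝ}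
    (hf : Measurable f) : StronglyMeasurable (Pop θ h s f) := by
  have : StronglyMeasurable (fun p : X × X => K θ h p.1 p.2 * ((f p.2 : ℝ) : ℂ)) :=
    ((measurable_K geo).mul
      (Complex.measurable_ofReal.comp (hf.comp measurable_snd))).stronglyMeasurable
  exact this.integral_prod_right'

theorem Nc_add7125 {θ h : X → ℝ} (geo : Geo θ h) {s w : Measure X} [IsFiniteMeasure s] {f g : X → ℝ}
    (hf : Nc7125 θ h s w f) (hg : Nc7125 θ h s w g) : Nc7125 θ h s w (fun x => f x + g x) := by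
  refine ⟨Bdd_add7125 hf.1 hg.1, ?_⟩
  have := hf.2.add hg.2
  refine this.congr (Filter.Eventually.of_forall fun x => ?_)
  rw [Pop_add7125 geo s hf.1 hg.1, Pi.add_apply]

theorem Nc_smul7125 {θ h : X → ℝ} {s w : Measure X} (c : ℝ) {f : X → ℝ}
    (hf : Nc7125 θ h s w f) : Nc7125 θ h s w (fun x => c * f x) := by
  refine ⟨Bdd_smul7125 c hf.1, ?_⟩
  have := hf.2.const_mul (c : ℂ)
  refine this.congr (Filter.Eventually.of_forall fun x => ?_)
  simp only
  rw [Pop_smul7125]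

theorem Bdd_zero7125 : Bdd (fun _ : X => (0 : ℝ)) := ⟨measurable_const, 0, fun x => by simp⟩

theorem Nc_zero7125 {θ h : X → ℝ} {s w : Measure X} : Nc7125 θ h s w (fun _ => (0 : ℝ)) := by
  refine ⟨Bdd_zero7125, ?_⟩
  have : Pop θ h s (fun _ => (0 : ℝ)) = fun _ => 0 := by
    funext x; unfold Pop; simp
  rw [this]
  exact integrable_zero _ _ _

theorem Nc_sum7125 {θ h : X → ℝ} (geo : Geo θ h) {s w : Measure X} [IsFiniteMeasure s]
    (S : Finset ℕ) (a : ℕ → ℝ) (F : ℕ → X → ℝ) (hF : ∀ k ∈ S, Nc7125 θ h s w (F k)) :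
    Nc7125 θ h s w (fun x => ∑ k ∈ S, a k * F k x) := by
  classical
  induction S using Finset.induction_on with
  | empty => simpa using Nc_zero7125
  | insert k S hk ih =>
    have h1 := Nc_add7125 geo (Nc_smul7125 (a k) (hF k (Finset.mem_insert_self k S)))
      (ih fun j hj => hF j (Finset.mem_insert_of_mem hj))
    simpa [Finset.sum_insert hk] using h1

theorem int_mul7125 {w : Measure X} {F : X → ℂ} (hF : Integrable F w) {ψ : X → ℝ} (hψ : Bdd ψ) :
    Integrable (fun x => F x * ((ψ x : ℝ) : ℂ)) w := by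
  obtain ⟨hm, C, hC⟩ := hψ
  refine hF.mul_bdd (c := C) (Complex.measurable_ofReal.comp hm).aestronglyMeasurable
    (Filter.Eventually.of_forall fun x => ?_)
  rw [Complex.norm_real, Real.norm_eq_abs]
  exact hC x

theorem Bf_add_left7125 {θ h : X → ℝ} (geo : Geo θ h) {s w : Measure X} [IsFiniteMeasure s]
    {f g ψ : X → ℝ} (hf : Nc7125 θ h s w f) (hg : Nc7125 θ h s w g) (hψ : Bdd ψ) :
    Bf θ h s w (fun x => f x + g x) ψ = Bf θ h s w f ψ + Bf θ h s w g ψ := by
  unfold Bf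
  rw [← integral_add (int_mul7125 hf.2 hψ) (int_mul7125 hg.2 hψ)]
  congr 1; funext x
  rw [Pop_add7125 geo s hf.1 hg.1]; ring

theorem Bf_add_right7125 {θ h : X → ℝ} {s w : Measure X}
    {f φ ψ : X → ℝ} (hf : Nc7125 θ h s w f) (hφ : Bdd φ) (hψ : Bdd ψ) :
    Bf θ h s w f (fun x => φ x + ψ x) = Bf θ h s w f φ + Bf θ h s w f ψ := by
  unfold Bf
  rw [← integral_add (int_mul7125 hf.2 hφ) (int_mul7125 hf.2 hψ)]
  congr 1; funext x
  push_cast; ring

theorem Bf_smul_left7125 {θ h : X → ℝ} {s w : Measure X} (c : ℝ) (f ψ : X → ℝ) :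
    Bf θ h s w (fun x => c * f x) ψ = (c : ℂ) * Bf θ h s w f ψ := by
  unfold Bf
  rw [← integral_const_mul]
  congr 1; funext x
  rw [Pop_smul7125]; ring

theorem Bf_smul_right7125 {θ h : X → ℝ} {s w : Measure X} (c : ℝ) (f ψ : X → ℝ) :
    Bf θ h s w f (fun x => c * ψ x) = (c : ℂ) * Bf θ h s w f ψ := by
  unfold Bf
  rw [← integral_const_mul]
  congr 1; funext x
  push_cast; ring

theorem La_symm7125 {θ h : X → ℝ} {s w : Measure X} (φ ψ : X → ℝ) :
    La7125 θ h s w φ ψ = - (starRingEnd ℂ) (La7125 θ h w s ψ φ) := by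
  unfold La7125
  rw [map_sub, Complex.conj_conj]
  ring

theorem La_add_left7125 {θ h : X → ℝ} (geo : Geo θ h) {s w : Measure X} [IsFiniteMeasure s]
    {f g ψ : X → ℝ} (hf : Nc7125 θ h s w f) (hg : Nc7125 θ h s w g) (hψ : Nc7125 θ h w s ψ) :
    La7125 θ h s w (fun x => f x + g x) ψ = La7125 θ h s w f ψ + La7125 θ h s w g ψ := by
  unfold La7125
  rw [Bf_add_left7125 geo hf hg hψ.1, Bf_add_right7125 hψ hf.1 hg.1, map_add]
  ring

theorem La_smul_left7125 {θ h : X → ℝ} {s w : Measure X} (c : ℝ) (f ψ : X → ℝ) :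
    La7125 θ h s w (fun x => c * f x) ψ = (c : ℂ) * La7125 θ h s w f ψ := by
  unfold La7125
  rw [Bf_smul_left7125, Bf_smul_right7125, map_mul, Complex.conj_ofReal]
  ring

theorem La_add_right7125 {θ h : X → ℝ} (geo : Geo θ h) {s w : Measure X} [IsFiniteMeasure w]
    {f φ ψ : X → ℝ} (hf : Nc7125 θ h s w f) (hφ : Nc7125 θ h w s φ) (hψ : Nc7125 θ h w s ψ) :
    La7125 θ h s w f (fun x => φ x + ψ x) = La7125 θ h s w f φ + La7125 θ h s w f ψ := by
  rw [La_symm7125, La_add_left7125 geo hφ hψ hf, map_add, La_symm7125 f φ, La_symm7125 f ψ]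
  ring

theorem La_sum_left7125 {θ h : X → ℝ} (geo : Geo θ h) {s w : Measure X} [IsFiniteMeasure s]
    (S : Finset ℕ) (a : ℕ → ℝ) (F : ℕ → X → ℝ) (hF : ∀ k ∈ S, Nc7125 θ h s w (F k))
    {ψ : X → ℝ} (hψ : Nc7125 θ h w s ψ) :
    La7125 θ h s w (fun x => ∑ k ∈ S, a k * F k x) ψ =
      ∑ k ∈ S, (a k : ℂ) * La7125 θ h s w (F k) ψ := by
  classical
  induction S using Finset.induction_on with
  | empty =>
    simp only [Finset.sum_empty]
    have := La_smul_left7125 (θ := θ) (h := h) (s := s) (w := w) 0 (fun _ => 0) ψ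
    simpa using this
  | insert k S hk ih =>
    rw [Finset.sum_insert hk, ← ih fun j hj => hF j (Finset.mem_insert_of_mem hj)]
    have h1 := La_add_left7125 geo (Nc_smul7125 (a k) (hF k (Finset.mem_insert_self k S)))
      (Nc_sum7125 geo S a F fun j hj => hF j (Finset.mem_insert_of_mem hj)) hψ
    rw [La_smul_left7125] at h1
    rw [← h1]
    congr 1
    funext x
    rw [Finset.sum_insert hk]

theorem La_sum_right7125 {θ h : X → ℝ} (geo : Geo θ h) {s w : Measure X} [IsFiniteMeasure w]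
    (S : Finset ℕ) (a : ℕ → ℝ) (F : ℕ → X → ℝ) (hF : ∀ k ∈ S, Nc7125 θ h w s (F k))
    {φ : X → ℝ} (hφ : Nc7125 θ h s w φ) :
    La7125 θ h s w φ (fun x => ∑ k ∈ S, a k * F k x) =
      ∑ k ∈ S, (a k : ℂ) * La7125 θ h s w φ (F k) := by
  rw [La_symm7125, La_sum_left7125 geo S a F hF hφ, map_sum, ← Finset.sum_neg_distrib]
  apply Finset.sum_congr rfl
  intro k _
  rw [map_mul, Complex.conj_ofReal, La_symm7125 φ (F k)]
  ring

/-- Fubini -/
theorem La_fubini7125 {θ h : X → ℝ} (geo : Geo θ h) {s w : Measure X} [IsFiniteMeasure s]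
    [IsFiniteMeasure w] {φ ψ : X → ℝ} (hφ : Measurable φ) (hψ : Measurable ψ) (C : ℝ)
    (hC : ∀ x y, ‖K θ h x y‖ * |φ y| * |ψ x| ≤ C) : La7125 θ h s w φ ψ = 0 := by
  unfold La7125
  rw [sub_eq_zero]
  have e1 : Bf θ h s w φ ψ =
      ∫ x, ∫ y, K θ h x y * ((φ y : ℝ) : ℂ) * ((ψ x : ℝ) : ℂ) ∂s ∂w := by
    unfold Bf Pop
    congr 1
    funext x
    rw [← integral_mul_const]
  have e2 : (starRingEnd ℂ) (Bf θ h w s ψ φ) =
      ∫ y, ∫ x, K θ h x y * ((φ y : ℝ) : ℂ) * ((ψ x : ℝ) : ℂ) ∂w ∂s := by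
    unfold Bf Pop
    rw [← integral_conj]
    congr 1
    funext y
    rw [map_mul, Complex.conj_ofReal, ← integral_conj, ← integral_mul_const]
    congr 1
    funext x
    rw [map_mul, Complex.conj_ofReal]
    unfold K
    rw [← kap_conj]
    ring
  rw [e1, e2]
  apply integral_integral_swap
  have hmeas : Measurable (Function.uncurry fun x y =>
      K θ h x y * ((φ y : ℝ) : ℂ) * ((ψ x : ℝ) : ℂ)) := by
    have h1 := (measurable_K geo)
    have h2 : Measurable (fun p : X × X => ((φ p.2 : ℝ) : ℂ)) :=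
      Complex.measurable_ofReal.comp (hφ.comp measurable_snd)
    have h3 : Measurable (fun p : X × X => ((ψ p.1 : ℝ) : ℂ)) :=
      Complex.measurable_ofReal.comp (hψ.comp measurable_fst)
    exact (h1.mul h2).mul h3
  refine Integrable.of_bound hmeas.aestronglyMeasurable C (Filter.Eventually.of_forall fun p => ?_)
  simp only [Function.uncurry]
  rw [norm_mul, norm_mul, Complex.norm_real, Complex.norm_real, Real.norm_eq_abs, Real.norm_eq_abs]
  exact hC _ _

theorem test_Q7125 {θ h : X → ℝ} (geo : Geo θ h) {s w : Measure X} {C0 : ℝ}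
    (hT : Testing θ h s w C0) (n k : ℕ) (hk : k < 2 ^ n) :
    ∫⁻ x, ‖Pop θ h s ((Q θ h n k).indicator 1) x‖ₑ ^ 2 ∂w ≤
      ENNReal.ofReal C0 * s (Q θ h n k) := by
  rw [Q_eq_arcBox geo n k hk]
  exact hT _ _ (by positivity) (pow_le_one₀ (by norm_num) (by norm_num))

theorem le_sq_add_one7125 (a : ℝ≥0∞) : a ≤ a ^ 2 + 1 := by
  rcases le_total a 1 with h | h
  · exact h.trans (le_add_left le_rfl)
  · calc a = a * 1 := (mul_one a).symm
      _ ≤ a * a := mul_le_mul_right h a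
      _ = a ^ 2 := (sq a).symm
      _ ≤ a ^ 2 + 1 := le_self_add

theorem Nc_Q7125 {θ h : X → ℝ} (geo : Geo θ h) {s w : Measure X} [IsFiniteMeasure s]
    [IsFiniteMeasure w] {C0 : ℝ} (hT : Testing θ h s w C0) (n k : ℕ) (hk : k < 2 ^ n) :
    Nc7125 θ h s w ((Q θ h n k).indicator 1) := by
  have hb := Bdd_ind7125 (measurableSet_Q geo n k)
  refine ⟨hb, (meas_Pop7125 geo s hb.1).aestronglyMeasurable, ?_⟩
  unfold HasFiniteIntegral
  calc ∫⁻ x, ‖Pop θ h s ((Q θ h n k).indicator 1) x‖ₑ ∂w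
      ≤ ∫⁻ x, (‖Pop θ h s ((Q θ h n k).indicator 1) x‖ₑ ^ 2 + 1) ∂w :=
        lintegral_mono fun x => le_sq_add_one7125 _
    _ = (∫⁻ x, ‖Pop θ h s ((Q θ h n k).indicator 1) x‖ₑ ^ 2 ∂w) + w Set.univ := by
        rw [lintegral_add_right _ measurable_const, lintegral_one]
    _ ≤ ENNReal.ofReal C0 * s (Q θ h n k) + w Set.univ := by
        gcongr; exact test_Q7125 geo hT n k hk
    _ < ⊤ := by
        exact ENNReal.add_lt_top.mpr ⟨ENNReal.mul_lt_top ENNReal.ofReal_lt_top (measure_lt_top _ _),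
          measure_lt_top _ _⟩

theorem Bf_bound7125 {θ h : X → ℝ} (geo : Geo θ h) {s w : Measure X} [IsFiniteMeasure s]
    [IsFiniteMeasure w] {C0 : ℝ} (hC : 0 ≤ C0) (hT : Testing θ h s w C0) (n k k' : ℕ)
    (hk : k < 2 ^ n) :
    ‖Bf θ h s w ((Q θ h n k).indicator 1) ((Q θ h n k').indicator 1)‖ ≤
      C0 * (s (Q θ h n k)).toReal + (w (Q θ h n k')).toReal := by
  have h1 : ‖Bf θ h s w ((Q θ h n k).indicator 1) ((Q θ h n k').indicator 1)‖ₑ ≤
      ENNReal.ofReal C0 * s (Q θ h n k) + w (Q θ h n k') := by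
    unfold Bf
    calc _ ≤ ∫⁻ x, ‖Pop θ h s ((Q θ h n k).indicator 1) x *
          (((Q θ h n k').indicator (1 : X → ℝ) x : ℝ) : ℂ)‖ₑ ∂w := enorm_integral_le_lintegral_enorm _
      _ ≤ ∫⁻ x, (‖Pop θ h s ((Q θ h n k).indicator 1) x‖ₑ ^ 2 +
          (Q θ h n k').indicator 1 x) ∂w := by
          apply lintegral_mono
          intro x
          by_cases hx : x ∈ Q θ h n k'
          · simp only [Set.indicator_of_mem hx, Pi.one_apply, Complex.ofReal_one, mul_one]
            exact le_sq_add_one7125 _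
          · simp [Set.indicator_of_notMem hx]
      _ = (∫⁻ x, ‖Pop θ h s ((Q θ h n k).indicator 1) x‖ₑ ^ 2 ∂w) + w (Q θ h n k') := by
          rw [lintegral_add_right _ (measurable_one.indicator (measurableSet_Q geo n k')),
            lintegral_indicator_one (measurableSet_Q geo n k')]
      _ ≤ _ := by
          gcongr; exact test_Q7125 geo hT n k hk
  have h2 := ENNReal.toReal_mono (ENNReal.add_lt_top.mpr ⟨ENNReal.mul_lt_top ENNReal.ofReal_lt_top
    (measure_lt_top s _), measure_lt_top w _⟩).ne h1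
  rw [ENNReal.toReal_add (ENNReal.mul_lt_top ENNReal.ofReal_lt_top (measure_lt_top s _)).ne
    (measure_lt_top w _).ne, ENNReal.toReal_mul, ENNReal.toReal_ofReal hC, toReal_enorm] at h2
  exact h2

theorem La_bound7125 {θ h : X → ℝ} (geo : Geo θ h) {s w : Measure X} [IsFiniteMeasure s]
    [IsFiniteMeasure w] {C0 : ℝ} (hC : 0 ≤ C0) (hT : Testing θ h s w C0)
    (hT' : Testing θ h w s C0) (n k k' : ℕ) (hk : k < 2 ^ n) (hk' : k' < 2 ^ n) :
    ‖La7125 θ h s w ((Q θ h n k).indicator 1) ((Q θ h n k').indicator 1)‖ ≤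
      (C0 + 1) * ((s (Q θ h n k)).toReal + (w (Q θ h n k')).toReal) := by
  unfold La7125
  have h1 := Bf_bound7125 geo hC hT n k k' hk
  have h2 := Bf_bound7125 geo hC hT' n k' k hk'
  calc _ ≤ ‖Bf θ h s w ((Q θ h n k).indicator 1) ((Q θ h n k').indicator 1)‖ +
        ‖(starRingEnd ℂ) (Bf θ h w s ((Q θ h n k').indicator 1) ((Q θ h n k).indicator 1))‖ :=
        norm_sub_le _ _
    _ ≤ _ := by
        rw [RCLike.norm_conj]
        linarith

/-- pairs of boxes which are not near -/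
theorem La_far7125 {θ h : X → ℝ} (geo : Geo θ h) {s w : Measure X} [IsFiniteMeasure s]
    [IsFiniteMeasure w] (n k k' : ℕ) (hn : ¬ near n k k') :
    La7125 θ h s w ((Q θ h n k).indicator 1) ((Q θ h n k').indicator 1) = 0 := by
  apply La_fubini7125 geo (Bdd_ind7125 (measurableSet_Q geo n k)).1
    (Bdd_ind7125 (measurableSet_Q geo n k')).1 (((2 * (1 / 2 : ℝ) ^ n) ^ 2)⁻¹)
  intro x y
  by_cases hy : y ∈ Q θ h n k
  · by_cases hx : x ∈ Q θ h n k'
    · simp only [Set.indicator_of_mem hx, Set.indicator_of_mem hy, Pi.one_apply, abs_one, mul_one]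
      have h1 : ‖K θ h x y‖ = ‖K θ h y x‖ := by
        unfold K
        rw [kap_conj, RCLike.norm_conj]
      rw [h1]
      unfold K
      rw [norm_kap]
      have h2 := far_sep θ h geo n y x (by rw [hy.1, hx.1]; exact hn)
      gcongr
    · simp only [Set.indicator_of_notMem hx, abs_zero, mul_zero]
      positivity
  · simp only [Set.indicator_of_notMem hy, abs_zero, mul_zero, zero_mul]
    positivity

theorem LowConst_mono7125 {θ h : X → ℝ} (geo : Geo θ h) {N M : ℕ} (hNM : N ≤ M) {φ : X → ℝ}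
    (h1 : LowConst θ h N φ) : LowConst θ h M φ := by
  intro x y hx hy hc
  have hp : (1 / 2 : ℝ) ^ M ≤ (1 / 2) ^ N := pow_le_pow_of_le_one (by norm_num) (by norm_num) hNM
  refine h1 x y (hx.trans hp) (hy.trans hp) ?_
  rw [← col_div geo hNM x, ← col_div geo hNM y, hc]

open Classical in
/-- the value on a box -/
def val7125 (θ h : X → ℝ) (M : ℕ) (φ : X → ℝ) (k : ℕ) : ℝ :=
  if hx : ∃ x, x ∈ Q θ h M k then φ hx.choose else 0

theorem abs_val7125 (θ h : X → ℝ) (M : ℕ) (φ : X → ℝ) (k : ℕ) {C : ℝ} (hC0 : 0 ≤ C)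
    (hC : ∀ x, |φ x| ≤ C) : |val7125 θ h M φ k| ≤ C := by
  unfold val7125
  split_ifs with hx
  · exact hC _
  · simpa using hC0

theorem decomp7125 {θ h : X → ℝ} (geo : Geo θ h) {M : ℕ} {φ : X → ℝ} (h1 : LowConst θ h M φ) (x : X) :
    φ x = {x | (1 / 2 : ℝ) ^ M < h x}.indicator φ x +
      ∑ k ∈ Finset.range (2 ^ M), val7125 θ h M φ k * (Q θ h M k).indicator 1 x := by
  by_cases hx : h x ≤ (1 / 2 : ℝ) ^ M
  · rw [Set.indicator_of_notMem (by simpa using hx), zero_add,
      Finset.sum_eq_single (col θ M x)]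
    · have hmem : x ∈ Q θ h M (col θ M x) := ⟨rfl, hx⟩
      rw [Set.indicator_of_mem hmem, Pi.one_apply, mul_one]
      have hex : ∃ y, y ∈ Q θ h M (col θ M x) := ⟨x, hmem⟩
      unfold val7125
      rw [dif_pos hex]
      have hc := hex.choose_spec
      exact h1 _ _ hx hc.2 hc.1.symm
    · intro k _ hk
      rw [Set.indicator_of_notMem (fun hm => hk hm.1.symm), mul_zero]
    · intro hn
      exact absurd (Finset.mem_range.mpr (col_lt geo M x)) hn
  · rw [Set.indicator_of_mem (by simpa using hx), Finset.sum_eq_zero, add_zero]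
    intro k _
    rw [Set.indicator_of_notMem (fun hm => hx hm.2), mul_zero]

theorem near_left7125 (n a : ℕ) : ((Finset.range (2 ^ n)).filter (near n a)).card ≤ 5 := by
  have h : (Finset.range (2 ^ n)).filter (near n a) ⊆ {a, a + 1, a - 1, 2 ^ n - 1, 0} := by
    intro b hb
    rw [Finset.mem_filter] at hb
    have := hb.2
    unfold near at this
    simp only [Finset.mem_insert, Finset.mem_singleton]
    omega
  exact (Finset.card_le_card h).trans Finset.card_le_five

theorem near_right7125 (n b : ℕ) : ((Finset.range (2 ^ n)).filter (fun a => near n a b)).card ≤ 5 := by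
  have h : (Finset.range (2 ^ n)).filter (fun a => near n a b) ⊆ {b, b + 1, b - 1, 2 ^ n - 1, 0} := by
    intro a hb
    rw [Finset.mem_filter] at hb
    have := hb.2
    unfold near at this
    simp only [Finset.mem_insert, Finset.mem_singleton]
    omega
  exact (Finset.card_le_card h).trans Finset.card_le_five

theorem sum_mass7125 {θ h : X → ℝ} (geo : Geo θ h) (s : Measure X) [IsFiniteMeasure s] (M : ℕ) :
    ∑ k ∈ Finset.range (2 ^ M), (s (Q θ h M k)).toReal ≤ (s {x | h x ≤ (1 / 2 : ℝ) ^ M}).toReal := by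
  rw [← ENNReal.toReal_sum fun k _ => (measure_lt_top s _).ne]
  apply ENNReal.toReal_mono (measure_lt_top s _).ne
  rw [← measure_biUnion_finset]
  · apply measure_mono
    intro x hx
    simp only [Set.mem_iUnion] at hx
    obtain ⟨k, _, hk⟩ := hx
    exact hk.2
  · intro i _ j _ hij
    rw [Function.onFun, Set.disjoint_left]
    intro x hx hx'
    exact hij (hx.1.symm.trans hx'.1)
  · intro k _
    exact measurableSet_Q geo M k

theorem mass_tendsto7125 {θ h : X → ℝ} (geo : Geo θ h) (s : Measure X) [IsFiniteMeasure s] :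
    Filter.Tendsto (fun M : ℕ => (s {x | h x ≤ (1 / 2 : ℝ) ^ M}).toReal) Filter.atTop (nhds 0) := by
  have h1 := tendsto_measure_iInter_atTop (μ := s) (s := fun M : ℕ => {x | h x ≤ (1 / 2 : ℝ) ^ M})
    (fun M => (measurableSet_le geo.mh measurable_const).nullMeasurableSet)
    (fun a b hab x hx => by
      have hx' : h x ≤ (1 / 2 : ℝ) ^ b := hx
      have hp : (1 / 2 : ℝ) ^ b ≤ (1 / 2) ^ a :=
        pow_le_pow_of_le_one (by norm_num) (by norm_num) hab
      exact hx'.trans hp)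
    ⟨0, (measure_lt_top s _).ne⟩
  have h2 : (⋂ M : ℕ, {x | h x ≤ (1 / 2 : ℝ) ^ M}) = ∅ := by
    ext x
    simp only [Set.mem_iInter, Set.mem_ofPred_eq, Set.mem_empty_iff_false, iff_false, not_forall, not_le]
    exact exists_pow_lt_of_lt_one (geo.h0 x) (by norm_num)
  rw [h2, measure_empty] at h1
  have h3 := (ENNReal.tendsto_toReal ENNReal.zero_ne_top).comp h1
  exact h3

theorem La_total7125 {θ h : X → ℝ} (geo : Geo θ h) {s w : Measure X} [IsFiniteMeasure s]
    [IsFiniteMeasure w] {C0 : ℝ} (hC : 0 ≤ C0) (hT : Testing θ h s w C0)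
    (hT' : Testing θ h w s C0) {φ ψ : X → ℝ} (hφ : Measurable φ) (hψ : Measurable ψ) {Cφ Cψ : ℝ}
    (hCφ : ∀ x, |φ x| ≤ Cφ) (hCψ : ∀ x, |ψ x| ≤ Cψ) (hφ0 : 0 ≤ Cφ) (hψ0 : 0 ≤ Cψ) {M : ℕ}
    (h1 : LowConst θ h M φ) (h2 : LowConst θ h M ψ) :
    ‖La7125 θ h s w φ ψ‖ ≤ 5 * (Cφ * Cψ * (C0 + 1)) *
      ((s {x | h x ≤ (1 / 2 : ℝ) ^ M}).toReal + (w {x | h x ≤ (1 / 2 : ℝ) ^ M}).toReal) := by
  set H : Set X := {x | (1 / 2 : ℝ) ^ M < h x} with hH
  have hHm : MeasurableSet H := measurableSet_lt measurable_const geo.mh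
  set fh : X → ℝ := H.indicator φ with hfh
  set gh : X → ℝ := H.indicator ψ with hgh
  set a : ℕ → ℝ := val7125 θ h M φ with ha
  set b : ℕ → ℝ := val7125 θ h M ψ with hb
  set fl : X → ℝ := fun x => ∑ k ∈ Finset.range (2 ^ M), a k * (Q θ h M k).indicator 1 x with hfl
  set gl : X → ℝ := fun x => ∑ k ∈ Finset.range (2 ^ M), b k * (Q θ h M k).indicator 1 x with hgl
  have hφd : φ = fun x => fh x + fl x := by funext x; exact decomp7125 geo h1 x
  have hψd : ψ = fun x => gh x + gl x := by funext x; exact decomp7125 geo h2 x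
  have hfhm : Measurable fh := hφ.indicator hHm
  have hghm : Measurable gh := hψ.indicator hHm
  have hfhC : ∀ x, |fh x| ≤ Cφ := by
    intro x
    by_cases hx : x ∈ H
    · rw [hfh, Set.indicator_of_mem hx]; exact hCφ x
    · rw [hfh, Set.indicator_of_notMem hx]; simpa using hφ0
  have hghC : ∀ x, |gh x| ≤ Cψ := by
    intro x
    by_cases hx : x ∈ H
    · rw [hgh, Set.indicator_of_mem hx]; exact hCψ x
    · rw [hgh, Set.indicator_of_notMem hx]; simpa using hψ0
  -- key bounds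
  have hK1 : ∀ x y, ‖K θ h x y‖ * |fh y| ≤ (((1 / 2 : ℝ) ^ M) ^ 2)⁻¹ * Cφ := by
    intro x y
    by_cases hy : y ∈ H
    · have hy' : (1 / 2 : ℝ) ^ M < h y := hy
      have h3 := norm_K_le_right geo x y
      have h4 : ((h y) ^ 2)⁻¹ ≤ (((1 / 2 : ℝ) ^ M) ^ 2)⁻¹ := by gcongr
      exact mul_le_mul (h3.trans h4) (hfhC y) (abs_nonneg _) (by positivity)
    · rw [hfh, Set.indicator_of_notMem hy]; simp only [abs_zero, mul_zero]; positivity
  have hK2 : ∀ x y, ‖K θ h x y‖ * |gh x| ≤ (((1 / 2 : ℝ) ^ M) ^ 2)⁻¹ * Cψ := by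
    intro x y
    by_cases hx : x ∈ H
    · have hx' : (1 / 2 : ℝ) ^ M < h x := hx
      have h3 := norm_K_le_left geo x y
      have h4 : ((h x) ^ 2)⁻¹ ≤ (((1 / 2 : ℝ) ^ M) ^ 2)⁻¹ := by gcongr
      exact mul_le_mul (h3.trans h4) (hghC x) (abs_nonneg _) (by positivity)
    · rw [hgh, Set.indicator_of_notMem hx]; simp only [abs_zero, mul_zero]; positivity
  have hNfh : Nc7125 θ h s w fh := by
    refine ⟨⟨hfhm, Cφ, hfhC⟩, ?_⟩
    refine Integrable.of_bound (meas_Pop7125 geo s hfhm).aestronglyMeasurable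
      ((((1 / 2 : ℝ) ^ M) ^ 2)⁻¹ * Cφ * (s Set.univ).toReal) (Filter.Eventually.of_forall fun x => ?_)
    unfold Pop
    have := norm_integral_le_of_norm_le_const (μ := s) (f := fun y => K θ h x y * ((fh y : ℝ) : ℂ))
      (C := (((1 / 2 : ℝ) ^ M) ^ 2)⁻¹ * Cφ) (Filter.Eventually.of_forall fun y => by
        rw [norm_mul, Complex.norm_real, Real.norm_eq_abs]; exact hK1 x y)
    simpa [Measure.real] using this
  have hNgh : Nc7125 θ h w s gh := by
    refine ⟨⟨hghm, Cψ, hghC⟩, ?_⟩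
    refine Integrable.of_bound (meas_Pop7125 geo w hghm).aestronglyMeasurable
      ((((1 / 2 : ℝ) ^ M) ^ 2)⁻¹ * Cψ * (w Set.univ).toReal) (Filter.Eventually.of_forall fun x => ?_)
    unfold Pop
    have := norm_integral_le_of_norm_le_const (μ := w) (f := fun y => K θ h x y * ((gh y : ℝ) : ℂ))
      (C := (((1 / 2 : ℝ) ^ M) ^ 2)⁻¹ * Cψ) (Filter.Eventually.of_forall fun y => by
        rw [norm_mul, Complex.norm_real, Real.norm_eq_abs]
        have e : ‖K θ h x y‖ = ‖K θ h y x‖ := by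
          unfold K
          rw [kap_conj, RCLike.norm_conj]
        rw [e]
        exact hK2 y x)
    simpa [Measure.real] using this
  have hNQ : ∀ k ∈ Finset.range (2 ^ M), Nc7125 θ h s w ((Q θ h M k).indicator 1) :=
    fun k hk => Nc_Q7125 geo hT M k (Finset.mem_range.mp hk)
  have hNQ' : ∀ k ∈ Finset.range (2 ^ M), Nc7125 θ h w s ((Q θ h M k).indicator 1) :=
    fun k hk => Nc_Q7125 geo hT' M k (Finset.mem_range.mp hk)
  have hNfl : Nc7125 θ h s w fl :=
    Nc_sum7125 geo (Finset.range (2 ^ M)) a (fun k => (Q θ h M k).indicator 1) hNQ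
  have hNgl : Nc7125 θ h w s gl :=
    Nc_sum7125 geo (Finset.range (2 ^ M)) b (fun k => (Q θ h M k).indicator 1) hNQ'
  have hNψ : Nc7125 θ h w s ψ := by rw [hψd]; exact Nc_add7125 geo hNgh hNgl
  -- step 1
  have s1 : La7125 θ h s w φ ψ = La7125 θ h s w fh ψ + La7125 θ h s w fl ψ := by
    conv_lhs => rw [hφd]
    exact La_add_left7125 geo hNfh hNfl hNψ
  have s2 : La7125 θ h s w fh ψ = 0 := by
    apply La_fubini7125 geo hfhm hψ ((((1 / 2 : ℝ) ^ M) ^ 2)⁻¹ * Cφ * Cψ)
    intro x y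
    exact mul_le_mul (hK1 x y) (hCψ x) (abs_nonneg _) (by positivity)
  have s3 : La7125 θ h s w fl ψ = La7125 θ h s w fl gh + La7125 θ h s w fl gl := by
    conv_lhs => rw [hψd]
    exact La_add_right7125 geo hNfl hNgh hNgl
  have s4 : La7125 θ h s w fl gh = 0 := by
    obtain ⟨Cl, hCl⟩ := hNfl.1.2
    have hCl0 : ∀ x, |fl x| ≤ |Cl| := fun x => (hCl x).trans (le_abs_self _)
    apply La_fubini7125 geo hNfl.1.1 hghm ((((1 / 2 : ℝ) ^ M) ^ 2)⁻¹ * Cψ * |Cl|)
    intro x y
    rw [mul_right_comm]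
    exact mul_le_mul (hK2 x y) (hCl0 y) (abs_nonneg _) (by positivity)
  have s5 : La7125 θ h s w fl gl = ∑ k ∈ Finset.range (2 ^ M), (a k : ℂ) *
      ∑ k' ∈ Finset.range (2 ^ M), (b k' : ℂ) *
        La7125 θ h s w ((Q θ h M k).indicator 1) ((Q θ h M k').indicator 1) := by
    have e1 := La_sum_left7125 geo (Finset.range (2 ^ M)) a (fun k => (Q θ h M k).indicator 1) hNQ hNgl
    have e1' : La7125 θ h s w fl gl = ∑ k ∈ Finset.range (2 ^ M), (a k : ℂ) *
        La7125 θ h s w ((Q θ h M k).indicator 1) gl := e1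
    rw [e1']
    apply Finset.sum_congr rfl
    intro k hk
    congr 1
    exact La_sum_right7125 geo (Finset.range (2 ^ M)) b (fun k => (Q θ h M k).indicator 1) hNQ' (hNQ k hk)
  rw [s1, s2, s3, s4, zero_add, zero_add, s5]
  -- estimate
  set S : ℕ → ℝ := fun k => (s (Q θ h M k)).toReal with hS
  set W : ℕ → ℝ := fun k => (w (Q θ h M k)).toReal with hW
  have hS0 : ∀ k, 0 ≤ S k := fun k => ENNReal.toReal_nonneg
  have hW0 : ∀ k, 0 ≤ W k := fun k => ENNReal.toReal_nonneg
  set D : ℝ := Cφ * Cψ * (C0 + 1) with hD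
  have hD0 : 0 ≤ D := by positivity
  have term : ∀ k ∈ Finset.range (2 ^ M), ∀ k' ∈ Finset.range (2 ^ M),
      ‖(a k : ℂ)‖ * (‖(b k' : ℂ)‖ *
        ‖La7125 θ h s w ((Q θ h M k).indicator 1) ((Q θ h M k').indicator 1)‖) ≤
      if near M k k' then D * (S k + W k') else 0 := by
    intro k hk k' hk'
    split_ifs with hn
    · rw [Complex.norm_real, Complex.norm_real, Real.norm_eq_abs, Real.norm_eq_abs]
      have t1 := abs_val7125 θ h M φ k hφ0 hCφ
      have t2 := abs_val7125 θ h M ψ k' hψ0 hCψ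
      have t3 := La_bound7125 geo hC hT hT' M k k' (Finset.mem_range.mp hk) (Finset.mem_range.mp hk')
      calc _ ≤ Cφ * (Cψ * ((C0 + 1) * (S k + W k'))) := by
            apply mul_le_mul t1 _ (by positivity) hφ0
            exact mul_le_mul t2 t3 (norm_nonneg _) hψ0
        _ = _ := by rw [hD]; ring
    · rw [La_far7125 geo M k k' hn]
      simp
  calc ‖∑ k ∈ Finset.range (2 ^ M), (a k : ℂ) *
      ∑ k' ∈ Finset.range (2 ^ M), (b k' : ℂ) *
        La7125 θ h s w ((Q θ h M k).indicator 1) ((Q θ h M k').indicator 1)‖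
      ≤ ∑ k ∈ Finset.range (2 ^ M), ∑ k' ∈ Finset.range (2 ^ M), ‖(a k : ℂ)‖ * (‖(b k' : ℂ)‖ *
        ‖La7125 θ h s w ((Q θ h M k).indicator 1) ((Q θ h M k').indicator 1)‖) := by
        refine (norm_sum_le _ _).trans (Finset.sum_le_sum fun k _ => ?_)
        rw [norm_mul, ← Finset.mul_sum]
        refine mul_le_mul_of_nonneg_left ((norm_sum_le _ _).trans (Finset.sum_le_sum fun k' _ => ?_))
          (norm_nonneg _)
        rw [norm_mul]
    _ ≤ ∑ k ∈ Finset.range (2 ^ M), ∑ k' ∈ Finset.range (2 ^ M),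
          if near M k k' then D * (S k + W k') else 0 :=
        Finset.sum_le_sum fun k hk => Finset.sum_le_sum fun k' hk' => term k hk k' hk'
    _ = (∑ k ∈ Finset.range (2 ^ M), ∑ k' ∈ Finset.range (2 ^ M), if near M k k' then D * S k else 0) +
          ∑ k ∈ Finset.range (2 ^ M), ∑ k' ∈ Finset.range (2 ^ M),
            if near M k k' then D * W k' else 0 := by
        rw [← Finset.sum_add_distrib]
        apply Finset.sum_congr rfl
        intro k _
        rw [← Finset.sum_add_distrib]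
        apply Finset.sum_congr rfl
        intro k' _
        split_ifs <;> ring
    _ ≤ (∑ k ∈ Finset.range (2 ^ M), 5 * (D * S k)) + ∑ k' ∈ Finset.range (2 ^ M), 5 * (D * W k') := by
        apply add_le_add
        · apply Finset.sum_le_sum
          intro k _
          rw [← Finset.sum_filter, Finset.sum_const, nsmul_eq_mul]
          have := near_left7125 M k
          have h5 : ((((Finset.range (2 ^ M)).filter (near M k)).card : ℕ) : ℝ) ≤ 5 := by
            exact_mod_cast this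
          exact mul_le_mul_of_nonneg_right h5 (mul_nonneg hD0 (hS0 k))
        · rw [Finset.sum_comm]
          apply Finset.sum_le_sum
          intro k' _
          rw [← Finset.sum_filter, Finset.sum_const, nsmul_eq_mul]
          have := near_right7125 M k'
          have h5 : ((((Finset.range (2 ^ M)).filter (fun k => near M k k')).card : ℕ) : ℝ) ≤ 5 := by
            exact_mod_cast this
          exact mul_le_mul_of_nonneg_right h5 (mul_nonneg hD0 (hW0 k'))
    _ = 5 * D * (∑ k ∈ Finset.range (2 ^ M), S k + ∑ k ∈ Finset.range (2 ^ M), W k) := by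
        rw [mul_add, Finset.mul_sum, Finset.mul_sum]
        congr 1 <;> exact Finset.sum_congr rfl fun k _ => by ring
    _ ≤ _ := by
        apply mul_le_mul_of_nonneg_left _ (by positivity)
        exact add_le_add (sum_mass7125 geo s M) (sum_mass7125 geo w M)

theorem adjoint (θ h : X → ℝ) (geo : Geo θ h) (s w : Measure X) [IsFiniteMeasure s]
    [IsFiniteMeasure w] (C0 : ℝ) (hC : 0 ≤ C0) (hT : Testing θ h s w C0)
    (hT' : Testing θ h w s C0) (φ ψ : X → ℝ) (hφ : Bdd φ) (hψ : Bdd ψ) (N : ℕ)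
    (h1 : LowConst θ h N φ) (h2 : LowConst θ h N ψ) :
    Bf θ h s w φ ψ = (starRingEnd ℂ) (Bf θ h w s ψ φ) := by
  obtain ⟨hφm, C1, hC1⟩ := hφ
  obtain ⟨hψm, C2, hC2⟩ := hψ
  have hC1' : ∀ x, |φ x| ≤ |C1| := fun x => (hC1 x).trans (le_abs_self _)
  have hC2' : ∀ x, |ψ x| ≤ |C2| := fun x => (hC2 x).trans (le_abs_self _)
  have hb : ∀ M, N ≤ M → ‖La7125 θ h s w φ ψ‖ ≤ 5 * (|C1| * |C2| * (C0 + 1)) *
      ((s {x | h x ≤ (1 / 2 : ℝ) ^ M}).toReal + (w {x | h x ≤ (1 / 2 : ℝ) ^ M}).toReal) :=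
    fun M hM => La_total7125 geo hC hT hT' hφm hψm hC1' hC2' (abs_nonneg _) (abs_nonneg _)
      (LowConst_mono7125 geo hM h1) (LowConst_mono7125 geo hM h2)
  have hlim : Filter.Tendsto (fun M : ℕ => 5 * (|C1| * |C2| * (C0 + 1)) *
      ((s {x | h x ≤ (1 / 2 : ℝ) ^ M}).toReal + (w {x | h x ≤ (1 / 2 : ℝ) ^ M}).toReal))
      Filter.atTop (nhds 0) := by
    have := ((mass_tendsto7125 geo s).add (mass_tendsto7125 geo w)).const_mul
      (5 * (|C1| * |C2| * (C0 + 1)))
    simpa using this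
  have h0 : ‖La7125 θ h s w φ ψ‖ ≤ 0 :=
    ge_of_tendsto hlim (Filter.eventually_atTop.mpr ⟨N, fun M hM => hb M hM⟩)
  have h00 : La7125 θ h s w φ ψ = 0 := norm_le_zero_iff.mp h0
  unfold La7125 at h00
  exact sub_eq_zero.mp h00

end

end Pool.Agent.Helper807.BT
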