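import Pool.Agent.Helper807.BT.Base

set_option autoImplicit false

open MeasureTheory Set
open scoped ENNReal

namespace Pool.Agent.Helper807.BT

noncomputable section

variable {X : Type*} [MeasurableSpace X]


theorem j7120_near_symm (m a b : ℕ) (h : near m a b) : near m b a := by
  unfold near at h ⊢
  omega

theorem j7120_near_card (m a : ℕ) :
    ((Finset.range (2 ^ m)).filter (fun b => near m a b)).card ≤ 5 := by
  have hsub : (Finset.range (2 ^ m)).filter (fun b => near m a b) ⊆ {a, a + 1, a - 1, 2 ^ m - 1, 0} := by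
    intro b hb
    rw [Finset.mem_filter] at hb
    have h := hb.2
    unfold near at h
    simp only [Finset.mem_insert, Finset.mem_singleton]
    omega
  exact (Finset.card_le_card hsub).trans Finset.card_le_five

theorem j7120_near_card' (m b : ℕ) :
    ((Finset.range (2 ^ m)).filter (fun k => near m k b)).card ≤ 5 := by
  refine le_trans (Finset.card_le_card ?_) (j7120_near_card m b)
  intro k hk
  rw [Finset.mem_filter] at hk ⊢
  exact ⟨hk.1, j7120_near_symm _ _ _ hk.2⟩

theorem j7120_pair (m i : ℕ) (u v V x y : ℕ → ℝ) (D : ℝ) (hD : 0 ≤ D)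
    (hu : ∀ k, 0 ≤ u k) (hv : ∀ j, 0 ≤ v j)
    (hV : ∀ b, b < 2 ^ m → ∑ j ∈ (Finset.range (2 ^ (m + i))).filter (fun j => j / 2 ^ i = b), v j ≤ V b)
    (huV : ∀ k b, k < 2 ^ m → b < 2 ^ m → near m k b → u k * V b ≤ D) :
    ∑ j ∈ Finset.range (2 ^ (m + i)), ∑ k ∈ (Finset.range (2 ^ m)).filter (fun k => near m k (j / 2 ^ i)),
      Real.sqrt (u k * v j) * x k * y j ≤
    5 * Real.sqrt D * Real.sqrt (∑ k ∈ Finset.range (2 ^ m), x k ^ 2) *
      Real.sqrt (∑ j ∈ Finset.range (2 ^ (m + i)), y j ^ 2) := by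
  have hlt : ∀ j, j < 2 ^ (m + i) → j / 2 ^ i < 2 ^ m := by
    intro j hj
    rw [pow_add] at hj
    exact Nat.div_lt_of_lt_mul (by rw [mul_comm]; exact hj)
  -- the set of pairs
  set P : Finset (ℕ × ℕ) := (Finset.range (2 ^ (m + i)) ×ˢ Finset.range (2 ^ m)).filter
    (fun p => near m p.2 (p.1 / 2 ^ i)) with hP
  have hPsum : ∀ f : ℕ → ℕ → ℝ, ∑ p ∈ P, f p.1 p.2 =
      ∑ j ∈ Finset.range (2 ^ (m + i)), ∑ k ∈ (Finset.range (2 ^ m)).filter (fun k => near m k (j / 2 ^ i)),
        f j k := by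
    intro f
    rw [hP, Finset.sum_filter, Finset.sum_product]
    refine Finset.sum_congr rfl fun j _ => ?_
    rw [Finset.sum_filter]
  have hPsum' : ∀ f : ℕ → ℕ → ℝ, ∑ p ∈ P, f p.1 p.2 =
      ∑ k ∈ Finset.range (2 ^ m), ∑ j ∈ (Finset.range (2 ^ (m + i))).filter (fun j => near m k (j / 2 ^ i)),
        f j k := by
    intro f
    rw [hP, Finset.sum_filter, Finset.sum_product_right]
    refine Finset.sum_congr rfl fun k _ => ?_
    rw [Finset.sum_filter]
  have h1 : ∑ p ∈ P, (Real.sqrt (u p.2 * v p.1) * x p.2) ^ 2 ≤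
      5 * D * ∑ k ∈ Finset.range (2 ^ m), x k ^ 2 := by
    rw [hPsum' (fun j k => (Real.sqrt (u k * v j) * x k) ^ 2), Finset.mul_sum]
    refine Finset.sum_le_sum fun k hk => ?_
    have hk' : k < 2 ^ m := Finset.mem_range.mp hk
    have e1 : ∑ j ∈ (Finset.range (2 ^ (m + i))).filter (fun j => near m k (j / 2 ^ i)),
        (Real.sqrt (u k * v j) * x k) ^ 2 =
        x k ^ 2 * (u k * ∑ j ∈ (Finset.range (2 ^ (m + i))).filter (fun j => near m k (j / 2 ^ i)), v j) := by
      rw [Finset.mul_sum, Finset.mul_sum]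
      refine Finset.sum_congr rfl fun j _ => ?_
      rw [mul_pow, Real.sq_sqrt (mul_nonneg (hu k) (hv j))]
      ring
    have e2 : ∑ j ∈ (Finset.range (2 ^ (m + i))).filter (fun j => near m k (j / 2 ^ i)), v j =
        ∑ b ∈ (Finset.range (2 ^ m)).filter (fun b => near m k b),
          ∑ j ∈ (Finset.range (2 ^ (m + i))).filter (fun j => j / 2 ^ i = b), v j := by
      rw [← Finset.sum_fiberwise_of_maps_to (s := (Finset.range (2 ^ (m + i))).filter
        (fun j => near m k (j / 2 ^ i))) (t := (Finset.range (2 ^ m)).filter (fun b => near m k b))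
        (g := fun j => j / 2 ^ i)]
      · refine Finset.sum_congr rfl fun b hb => ?_
        congr 1
        ext j
        simp only [Finset.mem_filter] at hb ⊢
        constructor
        · rintro ⟨⟨a1, a2⟩, a3⟩
          exact ⟨a1, a3⟩
        · rintro ⟨a1, a3⟩
          exact ⟨⟨a1, by rw [a3]; exact hb.2⟩, a3⟩
      · intro j hj
        rw [Finset.mem_filter] at hj ⊢
        exact ⟨Finset.mem_range.mpr (hlt j (Finset.mem_range.mp hj.1)), hj.2⟩
    have e3 : u k * ∑ j ∈ (Finset.range (2 ^ (m + i))).filter (fun j => near m k (j / 2 ^ i)), v j ≤ 5 * D := by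
      rw [e2, Finset.mul_sum]
      calc ∑ b ∈ (Finset.range (2 ^ m)).filter (fun b => near m k b),
            u k * ∑ j ∈ (Finset.range (2 ^ (m + i))).filter (fun j => j / 2 ^ i = b), v j
          ≤ ∑ b ∈ (Finset.range (2 ^ m)).filter (fun b => near m k b), D := by
            refine Finset.sum_le_sum fun b hb => ?_
            rw [Finset.mem_filter, Finset.mem_range] at hb
            exact (mul_le_mul_of_nonneg_left (hV b hb.1) (hu k)).trans (huV k b hk' hb.1 hb.2)
        _ = (((Finset.range (2 ^ m)).filter (fun b => near m k b)).card : ℝ) * D := by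
            rw [Finset.sum_const, nsmul_eq_mul]
        _ ≤ 5 * D := by
            refine mul_le_mul_of_nonneg_right ?_ hD
            exact_mod_cast j7120_near_card m k
    rw [e1, mul_comm (5 * D)]
    exact mul_le_mul_of_nonneg_left e3 (sq_nonneg _)
  have h2 : ∑ p ∈ P, (y p.1) ^ 2 ≤ 5 * ∑ j ∈ Finset.range (2 ^ (m + i)), y j ^ 2 := by
    rw [hPsum (fun j _ => (y j) ^ 2), Finset.mul_sum]
    refine Finset.sum_le_sum fun j hj => ?_
    rw [Finset.sum_const, nsmul_eq_mul]
    refine mul_le_mul_of_nonneg_right ?_ (sq_nonneg _)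
    exact_mod_cast j7120_near_card' m (j / 2 ^ i)
  have hCS : ∑ p ∈ P, (Real.sqrt (u p.2 * v p.1) * x p.2) * y p.1 ≤
      Real.sqrt (∑ p ∈ P, (Real.sqrt (u p.2 * v p.1) * x p.2) ^ 2) * Real.sqrt (∑ p ∈ P, (y p.1) ^ 2) :=
    Real.sum_mul_le_sqrt_mul_sqrt P _ _
  rw [← hPsum (fun j k => Real.sqrt (u k * v j) * x k * y j)]
  refine hCS.trans ?_
  refine (mul_le_mul (Real.sqrt_le_sqrt h1) (Real.sqrt_le_sqrt h2) (Real.sqrt_nonneg _)
    (Real.sqrt_nonneg _)).trans ?_
  apply le_of_eq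
  have hX : 0 ≤ ∑ k ∈ Finset.range (2 ^ m), x k ^ 2 := Finset.sum_nonneg fun _ _ => sq_nonneg _
  rw [Real.sqrt_mul (by positivity), Real.sqrt_mul (by norm_num : (0 : ℝ) ≤ 5) D,
    Real.sqrt_mul (by norm_num : (0 : ℝ) ≤ 5)]
  have h5 : Real.sqrt 5 * Real.sqrt 5 = 5 := Real.mul_self_sqrt (by norm_num)
  linear_combination (Real.sqrt D * Real.sqrt (∑ k ∈ Finset.range (2 ^ m), x k ^ 2) *
      Real.sqrt (∑ j ∈ Finset.range (2 ^ (m + i)), y j ^ 2)) * h5

theorem j7120_shift (h : ℕ → ℝ) (hh : ∀ m, 0 ≤ h m) (i N : ℕ) :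
    ∑ n ∈ Finset.range N, (if i ≤ n then h (n - i) else 0) ≤ ∑ m ∈ Finset.range N, h m := by
  rcases le_total N i with hN | hN
  · rw [Finset.sum_eq_zero]
    · exact Finset.sum_nonneg fun m _ => hh m
    · intro n hn
      rw [Finset.mem_range] at hn
      rw [if_neg (by omega)]
  · obtain ⟨M, rfl⟩ := Nat.exists_eq_add_of_le hN
    rw [Finset.sum_range_add _ i M, Finset.sum_eq_zero (s := Finset.range i), zero_add]
    · calc ∑ x ∈ Finset.range M, (if i ≤ i + x then h (i + x - i) else 0)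
          = ∑ x ∈ Finset.range M, h x := by
            refine Finset.sum_congr rfl fun x _ => ?_
            rw [if_pos (by omega), Nat.add_sub_cancel_left]
        _ ≤ ∑ m ∈ Finset.range (i + M), h m :=
            Finset.sum_le_sum_of_subset_of_nonneg (Finset.range_mono (by omega)) fun m _ _ => hh m
    · intro n hn
      rw [Finset.mem_range] at hn
      rw [if_neg (by omega)]

theorem j7120_outer (N : ℕ) (T : ℕ → ℕ → ℝ) (c X Y : ℕ → ℝ) (hc : ∀ i, 0 ≤ c i)
    (hX : ∀ m, 0 ≤ X m) (hY : ∀ n, 0 ≤ Y n)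
    (hT : ∀ n m, n < N → m ≤ n → T n m ≤ c (n - m) * X m * Y n) :
    ∑ n ∈ Finset.range N, ∑ m ∈ Finset.range (n + 1), T n m ≤
      (∑ i ∈ Finset.range N, c i) * Real.sqrt (∑ m ∈ Finset.range N, X m ^ 2) *
        Real.sqrt (∑ n ∈ Finset.range N, Y n ^ 2) := by
  calc ∑ n ∈ Finset.range N, ∑ m ∈ Finset.range (n + 1), T n m
      ≤ ∑ n ∈ Finset.range N, ∑ m ∈ Finset.range (n + 1), c (n - m) * X m * Y n := by
        refine Finset.sum_le_sum fun n hn => Finset.sum_le_sum fun m hm => ?_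
        rw [Finset.mem_range] at hn hm
        exact hT n m hn (by omega)
    _ = ∑ n ∈ Finset.range N, ∑ i ∈ Finset.range (n + 1), c i * X (n - i) * Y n := by
        refine Finset.sum_congr rfl fun n _ => ?_
        rw [← Finset.sum_flip (fun i => c i * X (n - i) * Y n)]
        refine Finset.sum_congr rfl fun m hm => ?_
        rw [Finset.mem_range] at hm
        rw [Nat.sub_sub_self (by omega)]
    _ ≤ ∑ n ∈ Finset.range N, ∑ i ∈ Finset.range N, c i * ((if i ≤ n then X (n - i) else 0) * Y n) := by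
        refine Finset.sum_le_sum fun n hn => ?_
        rw [Finset.mem_range] at hn
        calc ∑ i ∈ Finset.range (n + 1), c i * X (n - i) * Y n
            = ∑ i ∈ Finset.range (n + 1), c i * ((if i ≤ n then X (n - i) else 0) * Y n) := by
              refine Finset.sum_congr rfl fun i hi => ?_
              rw [Finset.mem_range] at hi
              rw [if_pos (by omega), mul_assoc]
          _ ≤ ∑ i ∈ Finset.range N, c i * ((if i ≤ n then X (n - i) else 0) * Y n) := by
              refine Finset.sum_le_sum_of_subset_of_nonneg (Finset.range_mono (by omega)) fun i _ _ => ?_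
              refine mul_nonneg (hc i) (mul_nonneg ?_ (hY n))
              split_ifs
              · exact hX _
              · exact le_rfl
    _ = ∑ i ∈ Finset.range N, c i * ∑ n ∈ Finset.range N, (if i ≤ n then X (n - i) else 0) * Y n := by
        rw [Finset.sum_comm]
        refine Finset.sum_congr rfl fun i _ => ?_
        rw [Finset.mul_sum]
    _ ≤ ∑ i ∈ Finset.range N, c i * (Real.sqrt (∑ m ∈ Finset.range N, X m ^ 2) *
          Real.sqrt (∑ n ∈ Finset.range N, Y n ^ 2)) := by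
        refine Finset.sum_le_sum fun i _ => mul_le_mul_of_nonneg_left ?_ (hc i)
        refine (Real.sum_mul_le_sqrt_mul_sqrt _ _ _).trans ?_
        refine mul_le_mul_of_nonneg_right (Real.sqrt_le_sqrt ?_) (Real.sqrt_nonneg _)
        have := j7120_shift (fun m => X m ^ 2) (fun m => sq_nonneg _) i N
        refine le_trans (le_of_eq ?_) this
        refine Finset.sum_congr rfl fun n _ => ?_
        split_ifs
        · rfl
        · norm_num
    _ = _ := by
        rw [← Finset.sum_mul]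
        ring

theorem j7120_div_two (i j b : ℕ) : j / 2 ^ (i + 1) = b ↔ (j / 2 ^ i = 2 * b ∨ j / 2 ^ i = 2 * b + 1) := by
  rw [pow_succ, ← Nat.div_div_eq_div_mul]
  omega

theorem j7120_sub (W : ℕ → ℕ → ℝ) (hW : ∀ l k, W (l + 1) (2 * k) + W (l + 1) (2 * k + 1) ≤ W l k)
    (i : ℕ) : ∀ m b : ℕ,
    ∑ j ∈ (Finset.range (2 ^ (m + i))).filter (fun j => j / 2 ^ i = b), W (m + i) j ≤
      if b < 2 ^ m then W m b else 0 := by
  induction i with
  | zero =>
    intro m b
    simp only [add_zero, pow_zero, Nat.div_one]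
    split_ifs with hb
    · rw [Finset.sum_eq_single b]
      · intro j hj hjb
        rw [Finset.mem_filter] at hj
        exact absurd hj.2 hjb
      · intro hb'
        exfalso
        apply hb'
        simp [hb]
    · rw [Finset.sum_eq_zero]
      intro j hj
      rw [Finset.mem_filter, Finset.mem_range] at hj
      omega
  | succ i ih =>
    intro m b
    have e : m + (i + 1) = (m + 1) + i := by ring
    rw [e]
    have hsplit : (Finset.range (2 ^ (m + 1 + i))).filter (fun j => j / 2 ^ (i + 1) = b) =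
        (Finset.range (2 ^ (m + 1 + i))).filter (fun j => j / 2 ^ i = 2 * b) ∪
        (Finset.range (2 ^ (m + 1 + i))).filter (fun j => j / 2 ^ i = 2 * b + 1) := by
      ext j
      simp only [Finset.mem_filter, Finset.mem_union, j7120_div_two]
      tauto
    have hdis : Disjoint ((Finset.range (2 ^ (m + 1 + i))).filter (fun j => j / 2 ^ i = 2 * b))
        ((Finset.range (2 ^ (m + 1 + i))).filter (fun j => j / 2 ^ i = 2 * b + 1)) := by
      rw [Finset.disjoint_left]
      intro j h1 h2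
      rw [Finset.mem_filter] at h1 h2
      omega
    rw [hsplit, Finset.sum_union hdis]
    have h1 := ih (m + 1) (2 * b)
    have h2 := ih (m + 1) (2 * b + 1)
    have hp : (2 : ℕ) ^ (m + 1) = 2 * 2 ^ m := by rw [pow_succ]; ring
    split_ifs with hb
    · rw [if_pos (by omega)] at h1 h2
      linarith [hW m b]
    · rw [if_neg (by omega)] at h1 h2
      linarith

theorem j7120_geo (N : ℕ) : ∑ i ∈ Finset.range N, (1 / 2 : ℝ) ^ (i / 4) ≤ 8 := by
  have h : ∀ q : ℕ, ∑ i ∈ Finset.range (4 * q), (1 / 2 : ℝ) ^ (i / 4) = 8 - 8 * (1 / 2 : ℝ) ^ q := by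
    intro q
    induction q with
    | zero => simp
    | succ q ih =>
      have e : 4 * (q + 1) = 4 * q + 1 + 1 + 1 + 1 := by ring
      rw [e, Finset.sum_range_succ, Finset.sum_range_succ, Finset.sum_range_succ,
        Finset.sum_range_succ, ih]
      have e0 : (4 * q) / 4 = q := by omega
      have e1 : (4 * q + 1) / 4 = q := by omega
      have e2 : (4 * q + 1 + 1) / 4 = q := by omega
      have e3 : (4 * q + 1 + 1 + 1) / 4 = q := by omega
      rw [e0, e1, e2, e3, pow_succ]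
      ring
  calc ∑ i ∈ Finset.range N, (1 / 2 : ℝ) ^ (i / 4)
      ≤ ∑ i ∈ Finset.range (4 * N), (1 / 2 : ℝ) ^ (i / 4) :=
        Finset.sum_le_sum_of_subset_of_nonneg (Finset.range_mono (by omega)) fun m _ _ => by positivity
    _ = 8 - 8 * (1 / 2 : ℝ) ^ N := h N
    _ ≤ 8 := by
      have : 0 ≤ (1 / 2 : ℝ) ^ N := by positivity
      linarith

theorem adj_sum : ∃ C : ℝ, 0 ≤ C ∧ ∀ (N : ℕ) (A : ℝ) (S W x y : ℕ → ℕ → ℝ), 0 ≤ A →
    (∀ l k, 0 ≤ S l k) → (∀ l k, 0 ≤ W l k) → (∀ l k, 0 ≤ x l k) → (∀ l k, 0 ≤ y l k) →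
    (∀ l k, S (l + 1) (2 * k) + S (l + 1) (2 * k + 1) ≤ S l k) →
    (∀ l k, W (l + 1) (2 * k) + W (l + 1) (2 * k + 1) ≤ W l k) →
    (∀ l a b, a < 2 ^ l → b < 2 ^ l → near l a b → S l a * W l b ≤ A * (1 / 16 : ℝ) ^ l) →
    ∑ n ∈ Finset.range N, ∑ j ∈ Finset.range (2 ^ n), ∑ m ∈ Finset.range (n + 1),
      ∑ k ∈ (Finset.range (2 ^ m)).filter (fun k => near m k (j / 2 ^ (n - m))),
        (1 / 2 : ℝ) ^ ((n - m) / 4) * 4 ^ m * Real.sqrt (S m k * W n j) * x m k * y n j ≤
      C * Real.sqrt A *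
        Real.sqrt (∑ m ∈ Finset.range N, ∑ k ∈ Finset.range (2 ^ m), x m k ^ 2) *
        Real.sqrt (∑ n ∈ Finset.range N, ∑ j ∈ Finset.range (2 ^ n), y n j ^ 2) := by
  refine ⟨40, by norm_num, ?_⟩
  intro N A S W x y hA hS hW hx hy hSs hWs hSW
  set X : ℕ → ℝ := fun m => Real.sqrt (∑ k ∈ Finset.range (2 ^ m), x m k ^ 2) with hXdef
  set Y : ℕ → ℝ := fun n => Real.sqrt (∑ j ∈ Finset.range (2 ^ n), y n j ^ 2) with hYdef
  have hXsq : ∀ m, X m ^ 2 = ∑ k ∈ Finset.range (2 ^ m), x m k ^ 2 := fun m =>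
    Real.sq_sqrt (Finset.sum_nonneg fun _ _ => sq_nonneg _)
  have hYsq : ∀ n, Y n ^ 2 = ∑ j ∈ Finset.range (2 ^ n), y n j ^ 2 := fun n =>
    Real.sq_sqrt (Finset.sum_nonneg fun _ _ => sq_nonneg _)
  have hT : ∀ n m, n < N → m ≤ n →
      ∑ j ∈ Finset.range (2 ^ n), ∑ k ∈ (Finset.range (2 ^ m)).filter (fun k => near m k (j / 2 ^ (n - m))),
        (1 / 2 : ℝ) ^ ((n - m) / 4) * 4 ^ m * Real.sqrt (S m k * W n j) * x m k * y n j ≤
      ((1 / 2 : ℝ) ^ ((n - m) / 4) * (5 * Real.sqrt A)) * X m * Y n := by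
    intro n m _ hmn
    obtain ⟨i, rfl⟩ := Nat.exists_eq_add_of_le hmn
    rw [Nat.add_sub_cancel_left]
    have hp := j7120_pair m i (S m) (W (m + i)) (W m) (x m) (y (m + i)) (A * (1 / 16 : ℝ) ^ m)
      (by positivity) (hS m) (hW _)
      (fun b hb => by
        have := j7120_sub W hWs i m b
        rw [if_pos hb] at this
        exact this)
      (fun k b hk hb hn => hSW m k b hk hb hn)
    have e1 : ∑ j ∈ Finset.range (2 ^ (m + i)), ∑ k ∈ (Finset.range (2 ^ m)).filter
          (fun k => near m k (j / 2 ^ i)),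
        (1 / 2 : ℝ) ^ (i / 4) * 4 ^ m * Real.sqrt (S m k * W (m + i) j) * x m k * y (m + i) j =
        ((1 / 2 : ℝ) ^ (i / 4) * 4 ^ m) * ∑ j ∈ Finset.range (2 ^ (m + i)),
          ∑ k ∈ (Finset.range (2 ^ m)).filter (fun k => near m k (j / 2 ^ i)),
            Real.sqrt (S m k * W (m + i) j) * x m k * y (m + i) j := by
      rw [Finset.mul_sum]
      refine Finset.sum_congr rfl fun j _ => ?_
      rw [Finset.mul_sum]
      refine Finset.sum_congr rfl fun k _ => ?_
      ring
    rw [e1]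
    refine (mul_le_mul_of_nonneg_left hp (by positivity)).trans (le_of_eq ?_)
    have e2 : Real.sqrt (A * (1 / 16 : ℝ) ^ m) = Real.sqrt A * (1 / 4 : ℝ) ^ m := by
      rw [Real.sqrt_mul hA]
      congr 1
      rw [show (1 / 16 : ℝ) ^ m = ((1 / 4 : ℝ) ^ m) ^ 2 by
        rw [← pow_mul, mul_comm m 2, pow_mul]; norm_num]
      exact Real.sqrt_sq (by positivity)
    have e3 : (4 : ℝ) ^ m * (1 / 4 : ℝ) ^ m = 1 := by
      rw [← mul_pow]; norm_num
    rw [e2]
    show (1 / 2 : ℝ) ^ (i / 4) * 4 ^ m * (5 * (Real.sqrt A * (1 / 4 : ℝ) ^ m) * X m * Y (m + i)) =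
      (1 / 2 : ℝ) ^ (i / 4) * (5 * Real.sqrt A) * X m * Y (m + i)
    linear_combination ((1 / 2 : ℝ) ^ (i / 4) * 5 * Real.sqrt A * X m * Y (m + i)) * e3
  have hswap : ∑ n ∈ Finset.range N, ∑ j ∈ Finset.range (2 ^ n), ∑ m ∈ Finset.range (n + 1),
      ∑ k ∈ (Finset.range (2 ^ m)).filter (fun k => near m k (j / 2 ^ (n - m))),
        (1 / 2 : ℝ) ^ ((n - m) / 4) * 4 ^ m * Real.sqrt (S m k * W n j) * x m k * y n j =
      ∑ n ∈ Finset.range N, ∑ m ∈ Finset.range (n + 1), ∑ j ∈ Finset.range (2 ^ n),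
      ∑ k ∈ (Finset.range (2 ^ m)).filter (fun k => near m k (j / 2 ^ (n - m))),
        (1 / 2 : ℝ) ^ ((n - m) / 4) * 4 ^ m * Real.sqrt (S m k * W n j) * x m k * y n j := by
    refine Finset.sum_congr rfl fun n _ => ?_
    rw [Finset.sum_comm]
  rw [hswap]
  have ho := j7120_outer N _ (fun i => (1 / 2 : ℝ) ^ (i / 4) * (5 * Real.sqrt A)) X Y
    (fun i => by positivity) (fun m => Real.sqrt_nonneg _) (fun n => Real.sqrt_nonneg _) hT
  refine ho.trans ?_
  rw [Finset.sum_congr rfl (fun m _ => hXsq m), Finset.sum_congr rfl (fun n _ => hYsq n),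
    ← Finset.sum_mul]
  have hg := j7120_geo N
  have h0 : 0 ≤ 5 * Real.sqrt A := by positivity
  have h1 : (∑ i ∈ Finset.range N, (1 / 2 : ℝ) ^ (i / 4)) * (5 * Real.sqrt A) ≤ 40 * Real.sqrt A := by
    have := mul_le_mul_of_nonneg_right hg h0
    linarith
  exact mul_le_mul_of_nonneg_right (mul_le_mul_of_nonneg_right h1 (Real.sqrt_nonneg _))
    (Real.sqrt_nonneg _)


theorem near_sum (r : ℕ) : ∃ C : ℝ, 0 ≤ C ∧ ∀ (N : ℕ) (x y : ℕ → ℕ → ℝ),
    (∀ l k, 0 ≤ x l k) → (∀ l k, 0 ≤ y l k) →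
    ∑ n ∈ Finset.range N, ∑ j ∈ Finset.range (2 ^ n),
      ∑ m ∈ (Finset.range (n + 1)).filter (fun m => n ≤ m + r),
      ∑ k ∈ (Finset.range (2 ^ m)).filter (fun k => near m k (j / 2 ^ (n - m))),
        x m k * y n j ≤
      C * Real.sqrt (∑ m ∈ Finset.range N, ∑ k ∈ Finset.range (2 ^ m), x m k ^ 2) *
        Real.sqrt (∑ n ∈ Finset.range N, ∑ j ∈ Finset.range (2 ^ n), y n j ^ 2) := by
  refine ⟨((r : ℝ) + 1) * (5 * Real.sqrt (2 ^ r)), by positivity, ?_⟩
  intro N x y hx hy
  set X : ℕ → ℝ := fun m => Real.sqrt (∑ k ∈ Finset.range (2 ^ m), x m k ^ 2) with hXdef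
  set Y : ℕ → ℝ := fun n => Real.sqrt (∑ j ∈ Finset.range (2 ^ n), y n j ^ 2) with hYdef
  have hXsq : ∀ m, X m ^ 2 = ∑ k ∈ Finset.range (2 ^ m), x m k ^ 2 := fun m =>
    Real.sq_sqrt (Finset.sum_nonneg fun _ _ => sq_nonneg _)
  have hYsq : ∀ n, Y n ^ 2 = ∑ j ∈ Finset.range (2 ^ n), y n j ^ 2 := fun n =>
    Real.sq_sqrt (Finset.sum_nonneg fun _ _ => sq_nonneg _)
  have hT : ∀ n m, n < N → m ≤ n →
      (if n ≤ m + r then ∑ j ∈ Finset.range (2 ^ n), ∑ k ∈ (Finset.range (2 ^ m)).filter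
        (fun k => near m k (j / 2 ^ (n - m))), x m k * y n j else 0) ≤
      (if n - m ≤ r then 5 * Real.sqrt (2 ^ r) else 0) * X m * Y n := by
    intro n m _ hmn
    obtain ⟨i, rfl⟩ := Nat.exists_eq_add_of_le hmn
    rw [Nat.add_sub_cancel_left]
    by_cases hir : i ≤ r
    · rw [if_pos (by omega), if_pos hir]
      have hp := j7120_pair m i (fun _ => 1) (fun _ => 1) (fun _ => 2 ^ i) (x m) (y (m + i)) (2 ^ i)
        (by positivity) (fun _ => zero_le_one) (fun _ => zero_le_one)
        (fun b hb => by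
          rw [Finset.sum_const, nsmul_eq_mul, mul_one]
          have hc : ((Finset.range (2 ^ (m + i))).filter (fun j => j / 2 ^ i = b)).card ≤ 2 ^ i := by
            have hsub : (Finset.range (2 ^ (m + i))).filter (fun j => j / 2 ^ i = b) ⊆
                Finset.Ico (b * 2 ^ i) (b * 2 ^ i + 2 ^ i) := by
              intro j hj
              rw [Finset.mem_filter] at hj
              rw [Finset.mem_Ico]
              have h2 : 0 < 2 ^ i := by positivity
              have h3 := hj.2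
              have h4 := Nat.div_add_mod j (2 ^ i)
              have h5 := Nat.mod_lt j h2
              rw [h3, mul_comm] at h4
              constructor
              · omega
              · omega
            refine (Finset.card_le_card hsub).trans ?_
            rw [Nat.card_Ico, Nat.add_sub_cancel_left]
          exact_mod_cast hc)
        (fun k b _ _ _ => by rw [one_mul])
      have e1 : ∑ j ∈ Finset.range (2 ^ (m + i)), ∑ k ∈ (Finset.range (2 ^ m)).filter
            (fun k => near m k (j / 2 ^ i)), x m k * y (m + i) j =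
          ∑ j ∈ Finset.range (2 ^ (m + i)), ∑ k ∈ (Finset.range (2 ^ m)).filter
            (fun k => near m k (j / 2 ^ i)), Real.sqrt ((1 : ℝ) * 1) * x m k * y (m + i) j := by
        refine Finset.sum_congr rfl fun j _ => Finset.sum_congr rfl fun k _ => ?_
        rw [one_mul, Real.sqrt_one, one_mul]
      rw [e1]
      refine hp.trans ?_
      have h2 : Real.sqrt ((2 : ℝ) ^ i) ≤ Real.sqrt (2 ^ r) :=
        Real.sqrt_le_sqrt (pow_le_pow_right₀ (by norm_num) hir)
      have h3 : 5 * Real.sqrt ((2 : ℝ) ^ i) ≤ 5 * Real.sqrt (2 ^ r) := by linarith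
      exact mul_le_mul_of_nonneg_right (mul_le_mul_of_nonneg_right h3 (Real.sqrt_nonneg _))
        (Real.sqrt_nonneg _)
    · rw [if_neg (by omega), if_neg hir, zero_mul, zero_mul]
  have hswap : ∑ n ∈ Finset.range N, ∑ j ∈ Finset.range (2 ^ n),
      ∑ m ∈ (Finset.range (n + 1)).filter (fun m => n ≤ m + r),
      ∑ k ∈ (Finset.range (2 ^ m)).filter (fun k => near m k (j / 2 ^ (n - m))),
        x m k * y n j =
      ∑ n ∈ Finset.range N, ∑ m ∈ Finset.range (n + 1),
      (if n ≤ m + r then ∑ j ∈ Finset.range (2 ^ n), ∑ k ∈ (Finset.range (2 ^ m)).filter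
        (fun k => near m k (j / 2 ^ (n - m))), x m k * y n j else 0) := by
    refine Finset.sum_congr rfl fun n _ => ?_
    rw [Finset.sum_comm, Finset.sum_filter]
  rw [hswap]
  have ho := j7120_outer N _ (fun i => if i ≤ r then 5 * Real.sqrt (2 ^ r) else 0) X Y
    (fun i => by
      show 0 ≤ if i ≤ r then 5 * Real.sqrt (2 ^ r) else 0
      split_ifs
      · positivity
      · exact le_rfl) (fun m => Real.sqrt_nonneg _) (fun n => Real.sqrt_nonneg _) hT
  refine ho.trans ?_
  rw [Finset.sum_congr rfl (fun m _ => hXsq m), Finset.sum_congr rfl (fun n _ => hYsq n)]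
  have hg : ∑ i ∈ Finset.range N, (if i ≤ r then 5 * Real.sqrt (2 ^ r) else 0) ≤
      ((r : ℝ) + 1) * (5 * Real.sqrt (2 ^ r)) := by
    rw [← Finset.sum_filter, Finset.sum_const, nsmul_eq_mul]
    refine mul_le_mul_of_nonneg_right ?_ (by positivity)
    have hsub : (Finset.range N).filter (fun i => i ≤ r) ⊆ Finset.range (r + 1) := by
      intro i hi
      rw [Finset.mem_filter] at hi
      rw [Finset.mem_range]
      omega
    have hc := Finset.card_le_card hsub
    rw [Finset.card_range] at hc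
    exact_mod_cast hc
  exact mul_le_mul_of_nonneg_right (mul_le_mul_of_nonneg_right hg (Real.sqrt_nonneg _))
    (Real.sqrt_nonneg _)


end

end Pool.Agent.Helper807.BT
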