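import Pool.Agent.Helper807.BT.Base
import Pool.Agent.Helper807.BT.Bas

set_option autoImplicit false

open MeasureTheory Set
open scoped ENNReal

namespace Pool.Agent.Helper807.BT

noncomputable section

variable {X : Type*} [MeasurableSpace X]


-- auxiliary lemmas for job 7117

theorem integrable_K_j7117 {θ h : X → ℝ} (geo : Geo θ h) (s : Measure X) [IsFiniteMeasure s]
    {f : X → ℝ} (hf : Bdd f) (x : X) : Integrable (fun y => K θ h x y * ((f y : ℝ) : ℂ)) s := by
  obtain ⟨hm, C, hC⟩ := hf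
  have hK : Measurable (fun y => K θ h x y) := by
    have h0 := (measurable_K geo).comp (measurable_prodMk_left (x := x))
    simpa only [Function.comp_def] using h0
  have hf1 : Measurable (fun y => ((f y : ℝ) : ℂ)) := Complex.measurable_ofReal.comp hm
  have hf2 : Measurable (fun y => K θ h x y * ((f y : ℝ) : ℂ)) := hK.mul hf1
  have hb : ∀ y, ‖K θ h x y * ((f y : ℝ) : ℂ)‖ ≤ ((h x) ^ 2)⁻¹ * C := by
    intro y
    have e1 : ‖((f y : ℝ) : ℂ)‖ ≤ C := by
      rw [Complex.norm_real, Real.norm_eq_abs]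
      exact hC y
    have e2 := norm_K_le_left geo x y
    rw [norm_mul]
    exact mul_le_mul e2 e1 (norm_nonneg _) (inv_nonneg.2 (sq_nonneg _))
  exact Integrable.of_bound hf2.aestronglyMeasurable _ (Filter.Eventually.of_forall hb)

theorem Pop_add_j7117 {θ h : X → ℝ} (geo : Geo θ h) (s : Measure X) [IsFiniteMeasure s]
    {f g : X → ℝ} (hf : Bdd f) (hg : Bdd g) (x : X) :
    Pop θ h s (fun y => f y + g y) x = Pop θ h s f x + Pop θ h s g x := by
  unfold Pop
  rw [← integral_add (integrable_K_j7117 geo s hf x) (integrable_K_j7117 geo s hg x)]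
  congr 1
  ext y
  push_cast
  ring

theorem Pop_const_mul_j7117 (θ h : X → ℝ) (s : Measure X) (c : ℝ) (f : X → ℝ) (x : X) :
    Pop θ h s (fun y => c * f y) x = (c : ℂ) * Pop θ h s f x := by
  unfold Pop
  rw [← integral_const_mul]
  congr 1
  ext y
  push_cast
  ring

theorem meas_Pop_j7117 {θ h : X → ℝ} (geo : Geo θ h) (s : Measure X) [IsFiniteMeasure s]
    {f : X → ℝ} (hf : Bdd f) : StronglyMeasurable (Pop θ h s f) := by
  have h1 : StronglyMeasurable (fun p : X × X => K θ h p.1 p.2 * ((f p.2 : ℝ) : ℂ)) :=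
    ((measurable_K geo).mul
      (Complex.measurable_ofReal.comp (hf.1.comp measurable_snd))).stronglyMeasurable
  exact h1.integral_prod_right'

/-- nice functions -/
def Nice_j7117 (θ h : X → ℝ) (s w : Measure X) (φ : X → ℝ) : Prop :=
  Bdd φ ∧ Integrable (Pop θ h s φ) w

theorem bdd_add_j7117 {f g : X → ℝ} (hf : Bdd f) (hg : Bdd g) : Bdd (fun x => f x + g x) := by
  obtain ⟨hm, C, hC⟩ := hf
  obtain ⟨hm', C', hC'⟩ := hg
  exact ⟨hm.add hm', C + C', fun x => (abs_add_le _ _).trans (add_le_add (hC x) (hC' x))⟩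

theorem bdd_const_mul_j7117 (c : ℝ) {f : X → ℝ} (hf : Bdd f) : Bdd (fun x => c * f x) := by
  obtain ⟨hm, C, hC⟩ := hf
  refine ⟨hm.const_mul c, |c| * C, fun x => ?_⟩
  rw [abs_mul]
  exact mul_le_mul_of_nonneg_left (hC x) (abs_nonneg _)

theorem bdd_indicator_j7117 {f : X → ℝ} (hf : Bdd f) {S : Set X} (hS : MeasurableSet S) :
    Bdd (S.indicator f) := by
  obtain ⟨hm, C, hC⟩ := hf
  refine ⟨hm.indicator hS, C, fun x => ?_⟩
  by_cases hx : x ∈ S
  · rw [Set.indicator_of_mem hx]; exact hC x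
  · rw [Set.indicator_of_notMem hx, abs_zero]; exact (abs_nonneg _).trans (hC x)

theorem bdd_one_j7117 : Bdd (1 : X → ℝ) := ⟨measurable_one, 1, fun x => by simp⟩

theorem bdd_zero_j7117 : Bdd (fun _ : X => (0 : ℝ)) := ⟨measurable_const, 0, fun x => by simp⟩

theorem nice_add_j7117 {θ h : X → ℝ} (geo : Geo θ h) {s w : Measure X} [IsFiniteMeasure s]
    {f g : X → ℝ} (hf : Nice_j7117 θ h s w f) (hg : Nice_j7117 θ h s w g) :
    Nice_j7117 θ h s w (fun x => f x + g x) := by
  refine ⟨bdd_add_j7117 hf.1 hg.1, ?_⟩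
  have h1 : Pop θ h s (fun x => f x + g x) = fun x => Pop θ h s f x + Pop θ h s g x := by
    ext x; exact Pop_add_j7117 geo s hf.1 hg.1 x
  rw [h1]
  exact hf.2.add hg.2

theorem nice_const_mul_j7117 {θ h : X → ℝ} {s w : Measure X}
    (c : ℝ) {f : X → ℝ} (hf : Nice_j7117 θ h s w f) :
    Nice_j7117 θ h s w (fun x => c * f x) := by
  refine ⟨bdd_const_mul_j7117 c hf.1, ?_⟩
  have h1 : Pop θ h s (fun x => c * f x) = fun x => (c : ℂ) * Pop θ h s f x := by
    ext x; exact Pop_const_mul_j7117 θ h s c f x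
  rw [h1]
  exact hf.2.const_mul _

theorem integrable_Pop_mul_j7117 {θ h : X → ℝ} {s w : Measure X}
    {f g : X → ℝ} (hf : Nice_j7117 θ h s w f) (hg : Bdd g) :
    Integrable (fun x => Pop θ h s f x * ((g x : ℝ) : ℂ)) w := by
  obtain ⟨hm, C, hC⟩ := hg
  refine (hf.2.norm.const_mul C).mono'
    (hf.2.1.mul (Complex.measurable_ofReal.comp hm).aestronglyMeasurable) ?_
  filter_upwards with x
  rw [norm_mul, Complex.norm_real, mul_comm]
  exact mul_le_mul_of_nonneg_right (hC x) (norm_nonneg _)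

theorem Bf_add_j7117 {θ h : X → ℝ} (geo : Geo θ h) {s w : Measure X} [IsFiniteMeasure s]
    {f g k : X → ℝ} (hf : Nice_j7117 θ h s w f) (hg : Nice_j7117 θ h s w g) (hk : Bdd k) :
    Bf θ h s w (fun x => f x + g x) k = Bf θ h s w f k + Bf θ h s w g k := by
  unfold Bf
  rw [← integral_add (integrable_Pop_mul_j7117 hf hk) (integrable_Pop_mul_j7117 hg hk)]
  congr 1
  ext x
  rw [Pop_add_j7117 geo s hf.1 hg.1 x, add_mul]

theorem Bf_const_mul_j7117 (θ h : X → ℝ) (s w : Measure X) (c : ℝ) (f k : X → ℝ) :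
    Bf θ h s w (fun x => c * f x) k = (c : ℂ) * Bf θ h s w f k := by
  unfold Bf
  rw [← integral_const_mul]
  congr 1
  ext x
  rw [Pop_const_mul_j7117, mul_assoc]

theorem Bf_add_right_j7117 {θ h : X → ℝ} {s w : Measure X}
    {f g k : X → ℝ} (hf : Nice_j7117 θ h s w f) (hg : Bdd g) (hk : Bdd k) :
    Bf θ h s w f (fun x => g x + k x) = Bf θ h s w f g + Bf θ h s w f k := by
  unfold Bf
  rw [← integral_add (integrable_Pop_mul_j7117 hf hg) (integrable_Pop_mul_j7117 hf hk)]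
  congr 1
  ext x
  push_cast
  ring

theorem Bf_const_mul_right_j7117 (θ h : X → ℝ) (s w : Measure X) (c : ℝ) (f k : X → ℝ) :
    Bf θ h s w f (fun x => c * k x) = (c : ℂ) * Bf θ h s w f k := by
  unfold Bf
  rw [← integral_const_mul]
  congr 1
  ext x
  push_cast
  ring

theorem nice_zero_j7117 {θ h : X → ℝ} {s w : Measure X} :
    Nice_j7117 θ h s w (fun _ => 0) := by
  refine ⟨bdd_zero_j7117, ?_⟩
  have : Pop θ h s (fun _ => 0) = fun _ => (0 : ℂ) := by
    ext x; simp [Pop]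
  rw [this]
  exact integrable_zero _ _ _

theorem nice_sum_j7117 {θ h : X → ℝ} (geo : Geo θ h) {s w : Measure X} [IsFiniteMeasure s]
    {ι : Type} (t : Finset ι) (φ : ι → X → ℝ)
    (hφ : ∀ i ∈ t, Nice_j7117 θ h s w (φ i)) :
    Nice_j7117 θ h s w (fun x => ∑ i ∈ t, φ i x) := by
  classical
  induction t using Finset.induction_on with
  | empty => simpa using (nice_zero_j7117 (θ := θ) (h := h) (s := s) (w := w))
  | insert a t ha ih =>
      have h1 := hφ a (Finset.mem_insert_self _ _)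
      have h2 := ih (fun i hi => hφ i (Finset.mem_insert_of_mem hi))
      have := nice_add_j7117 geo h1 h2
      simpa only [Finset.sum_insert ha] using this

theorem Bf_sum_j7117 {θ h : X → ℝ} (geo : Geo θ h) {s w : Measure X} [IsFiniteMeasure s]
    {ι : Type} (t : Finset ι) (φ : ι → X → ℝ)
    (hφ : ∀ i ∈ t, Nice_j7117 θ h s w (φ i)) {k : X → ℝ} (hk : Bdd k) :
    Bf θ h s w (fun x => ∑ i ∈ t, φ i x) k = ∑ i ∈ t, Bf θ h s w (φ i) k := by
  classical
  induction t using Finset.induction_on with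
  | empty => simp [Bf, Pop]
  | insert a t ha ih =>
      have h1 := hφ a (Finset.mem_insert_self _ _)
      have h2 := nice_sum_j7117 geo t φ (fun i hi => hφ i (Finset.mem_insert_of_mem hi))
      have h3 := ih (fun i hi => hφ i (Finset.mem_insert_of_mem hi))
      have := Bf_add_j7117 geo h1 h2 hk
      simp only [Finset.sum_insert ha]
      rw [this, h3]

theorem bdd_sum_j7117 {ι : Type} (t : Finset ι) (φ : ι → X → ℝ) (hφ : ∀ i ∈ t, Bdd (φ i)) :
    Bdd (fun x => ∑ i ∈ t, φ i x) := by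
  classical
  induction t using Finset.induction_on with
  | empty => simpa using (bdd_zero_j7117 (X := X))
  | insert a t ha ih =>
      have h1 := hφ a (Finset.mem_insert_self _ _)
      have h2 := ih (fun i hi => hφ i (Finset.mem_insert_of_mem hi))
      have := bdd_add_j7117 h1 h2
      simpa only [Finset.sum_insert ha] using this

theorem Bf_sum_right_j7117 {θ h : X → ℝ} {s w : Measure X}
    {f : X → ℝ} (hf : Nice_j7117 θ h s w f)
    {ι : Type} (t : Finset ι) (φ : ι → X → ℝ)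
    (hφ : ∀ i ∈ t, Bdd (φ i)) :
    Bf θ h s w f (fun x => ∑ i ∈ t, φ i x) = ∑ i ∈ t, Bf θ h s w f (φ i) := by
  classical
  induction t using Finset.induction_on with
  | empty => simp [Bf]
  | insert a t ha ih =>
      have h1 := hφ a (Finset.mem_insert_self _ _)
      have h2 := bdd_sum_j7117 t φ (fun i hi => hφ i (Finset.mem_insert_of_mem hi))
      have h3 := ih (fun i hi => hφ i (Finset.mem_insert_of_mem hi))
      have := Bf_add_right_j7117 hf h1 h2
      simp only [Finset.sum_insert ha]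
      rw [this, h3]

theorem nice_indQ_j7117 {θ h : X → ℝ} (geo : Geo θ h) {s w : Measure X} [IsFiniteMeasure s]
    [IsFiniteMeasure w] {C0 : ℝ} (hT : Testing θ h s w C0) (n k : ℕ) :
    Nice_j7117 θ h s w ((Q θ h n k).indicator 1) := by
  by_cases hk : k < 2 ^ n
  · have hb : Bdd ((Q θ h n k).indicator (1 : X → ℝ)) :=
      bdd_indicator_j7117 bdd_one_j7117 (measurableSet_Q geo n k)
    refine ⟨hb, (meas_Pop_j7117 geo s hb).aestronglyMeasurable, ?_⟩
    rw [hasFiniteIntegral_iff_enorm]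
    have h1 := hT ((k : ℝ) / 2 ^ n) ((1 / 2 : ℝ) ^ n) (by positivity)
      (pow_le_one₀ (by norm_num) (by norm_num))
    rw [← Q_eq_arcBox geo n k hk] at h1
    have h2 : ENNReal.ofReal C0 * s (Q θ h n k) < ⊤ :=
      ENNReal.mul_lt_top ENNReal.ofReal_lt_top (measure_lt_top _ _)
    have h3 : ∫⁻ x, ‖Pop θ h s ((Q θ h n k).indicator 1) x‖ₑ ∂w ≤
        ∫⁻ x, (1 + ‖Pop θ h s ((Q θ h n k).indicator 1) x‖ₑ ^ 2) ∂w := by
      apply lintegral_mono
      intro x
      show ‖Pop θ h s ((Q θ h n k).indicator 1) x‖ₑ ≤ 1 + ‖Pop θ h s ((Q θ h n k).indicator 1) x‖ₑ ^ 2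
      generalize ‖Pop θ h s ((Q θ h n k).indicator 1) x‖ₑ = a
      rcases le_total a 1 with ha | ha
      · exact ha.trans le_self_add
      · calc a = a * 1 := (mul_one a).symm
          _ ≤ a * a := mul_le_mul_right ha a
          _ = a ^ 2 := (sq a).symm
          _ ≤ 1 + a ^ 2 := le_add_self
    rw [lintegral_add_left measurable_const] at h3
    refine lt_of_le_of_lt h3 (ENNReal.add_lt_top.2 ⟨?_, lt_of_le_of_lt h1 h2⟩)
    simp only [lintegral_one]
    exact measure_lt_top _ _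
  · have : (Q θ h n k).indicator (1 : X → ℝ) = fun _ => 0 := by
      ext x
      apply Set.indicator_of_notMem
      rintro ⟨hx, -⟩
      exact hk (hx ▸ col_lt geo n x)
    rw [this]
    exact nice_zero_j7117

theorem nice_supp_j7117 {θ h : X → ℝ} (geo : Geo θ h) {s w : Measure X} [IsFiniteMeasure s]
    [IsFiniteMeasure w] {φ : X → ℝ} (hφ : Bdd φ) (N : ℕ) :
    Nice_j7117 θ h s w ({x | (1 / 2 : ℝ) ^ N < h x}.indicator φ) := by
  have hS : MeasurableSet {x | (1 / 2 : ℝ) ^ N < h x} := measurableSet_lt measurable_const geo.mh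
  have hb := bdd_indicator_j7117 hφ hS
  refine ⟨hb, ?_⟩
  obtain ⟨hm, C, hC⟩ := hφ
  refine Integrable.of_bound (meas_Pop_j7117 geo s hb).aestronglyMeasurable
    ((((1 / 2 : ℝ) ^ N) ^ 2)⁻¹ * C * s.real Set.univ) ?_
  filter_upwards with x
  unfold Pop
  apply norm_integral_le_of_norm_le_const
  filter_upwards with y
  have hC0 : 0 ≤ C := (abs_nonneg _).trans (hC y)
  by_cases hy : (1 / 2 : ℝ) ^ N < h y
  · rw [Set.indicator_of_mem (show y ∈ {x | (1 / 2 : ℝ) ^ N < h x} from hy), norm_mul,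
      Complex.norm_real]
    refine mul_le_mul ((norm_K_le_right geo x y).trans ?_) (hC y) (norm_nonneg _) (by positivity)
    apply inv_anti₀ (by positivity)
    exact pow_le_pow_left₀ (by positivity) hy.le 2
  · rw [Set.indicator_of_notMem (show y ∉ {x | (1 / 2 : ℝ) ^ N < h x} from hy)]
    simp only [Complex.ofReal_zero, mul_zero, norm_zero]
    positivity

theorem nice_low_j7117 {θ h : X → ℝ} (geo : Geo θ h) {s w : Measure X} [IsFiniteMeasure s]
    [IsFiniteMeasure w] {C0 : ℝ} (hT : Testing θ h s w C0) {φ : X → ℝ} (hφ : Bdd φ) (N : ℕ)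
    (hl : LowConst θ h N φ) : Nice_j7117 θ h s w φ := by
  classical
  let c : ℕ → ℝ := fun k => if hx : ∃ x, x ∈ Q θ h N k then φ hx.choose else 0
  have hdec : φ = fun x => (∑ k ∈ Finset.range (2 ^ N), c k * (Q θ h N k).indicator 1 x) +
      {x | (1 / 2 : ℝ) ^ N < h x}.indicator φ x := by
    ext x
    by_cases hx : (1 / 2 : ℝ) ^ N < h x
    · rw [Set.indicator_of_mem (show x ∈ {x | (1 / 2 : ℝ) ^ N < h x} from hx)]
      rw [Finset.sum_eq_zero, zero_add]
      intro k _
      rw [Set.indicator_of_notMem, mul_zero]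
      rintro ⟨-, hxx⟩
      exact absurd hxx (not_le.2 hx)
    · rw [Set.indicator_of_notMem (show x ∉ {x | (1 / 2 : ℝ) ^ N < h x} from hx), add_zero]
      push Not at hx
      rw [Finset.sum_eq_single (col θ N x)]
      · have hmem : x ∈ Q θ h N (col θ N x) := ⟨rfl, hx⟩
        have hex : ∃ y, y ∈ Q θ h N (col θ N x) := ⟨x, hmem⟩
        rw [Set.indicator_of_mem hmem, Pi.one_apply, mul_one]
        show φ x = (if hx : ∃ y, y ∈ Q θ h N (col θ N x) then φ hx.choose else 0)
        rw [dif_pos hex]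
        exact hl _ _ hx hex.choose_spec.2 hex.choose_spec.1.symm
      · intro k _ hk
        rw [Set.indicator_of_notMem, mul_zero]
        rintro ⟨hxx, -⟩
        exact hk hxx.symm
      · intro hk
        exact absurd (Finset.mem_range.2 (col_lt geo N x)) hk
  rw [hdec]
  refine nice_add_j7117 geo (nice_sum_j7117 geo _ _ (fun k _ => ?_)) (nice_supp_j7117 geo hφ N)
  exact nice_const_mul_j7117 (c k) (nice_indQ_j7117 geo hT N k)

theorem col_anti_j7117 {θ h : X → ℝ} (geo : Geo θ h) {m : ℕ} {x y : X}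
    (hxy : col θ (m + 1) x = col θ (m + 1) y) : col θ m x = col θ m y := by
  rw [← col_div geo (Nat.le_succ m) x, ← col_div geo (Nat.le_succ m) y, Nat.succ_eq_add_one, hxy]

theorem pow_anti_j7117 (m : ℕ) : (1 / 2 : ℝ) ^ (m + 1) ≤ (1 / 2 : ℝ) ^ m :=
  pow_le_pow_of_le_one (by norm_num) (by norm_num) (Nat.le_succ m)

theorem low_Ex_j7117 (θ h : X → ℝ) (s : Measure X) (n : ℕ) (f : X → ℝ) :
    LowConst θ h n (Ex θ h s n f) := by
  intro x y hx hy hxy
  unfold Ex
  rw [if_pos hx, if_pos hy, hxy]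

theorem low_Dl_j7117 {θ h : X → ℝ} (geo : Geo θ h) (s : Measure X) (m k : ℕ) (f : X → ℝ) :
    LowConst θ h (m + 1) (Dl θ h s m k f) := by
  intro x y hx hy hxy
  have hxy' := col_anti_j7117 geo hxy
  have hx' := hx.trans (pow_anti_j7117 m)
  have hy' := hy.trans (pow_anti_j7117 m)
  have h1 : x ∈ Q θ h m k ↔ y ∈ Q θ h m k := by
    constructor
    · rintro ⟨ha, -⟩; exact ⟨hxy' ▸ ha, hy'⟩
    · rintro ⟨ha, -⟩; exact ⟨hxy'.symm ▸ ha, hx'⟩
  unfold Dl
  by_cases hq : x ∈ Q θ h m k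
  · rw [Set.indicator_of_mem hq, Set.indicator_of_mem (h1.1 hq)]
    rw [low_Ex_j7117 θ h s (m + 1) f x y hx hy hxy, low_Ex_j7117 θ h s m f x y hx' hy' hxy']
  · rw [Set.indicator_of_notMem hq, Set.indicator_of_notMem (fun hh => hq (h1.2 hh))]

theorem low_diff_j7117 {θ h : X → ℝ} (geo : Geo θ h) (m j k' : ℕ) (φ : X → ℝ)
    (hφ : LowConst θ h (m + 1) φ) :
    LowConst θ h (m + 1) ((Q θ h m j \ Q θ h (m + 1) k').indicator φ) := by
  intro x y hx hy hxy
  have hxy' := col_anti_j7117 geo hxy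
  have hx' := hx.trans (pow_anti_j7117 m)
  have hy' := hy.trans (pow_anti_j7117 m)
  have h1 : x ∈ Q θ h m j \ Q θ h (m + 1) k' ↔ y ∈ Q θ h m j \ Q θ h (m + 1) k' := by
    constructor
    · rintro ⟨⟨ha, -⟩, hb⟩
      exact ⟨⟨hxy' ▸ ha, hy'⟩, fun hh => hb ⟨hxy.trans hh.1, hx⟩⟩
    · rintro ⟨⟨ha, -⟩, hb⟩
      exact ⟨⟨hxy'.symm ▸ ha, hx'⟩, fun hh => hb ⟨hxy.symm.trans hh.1, hy⟩⟩
  by_cases hq : x ∈ Q θ h m j \ Q θ h (m + 1) k'
  · rw [Set.indicator_of_mem hq, Set.indicator_of_mem (h1.1 hq)]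
    exact hφ x y hx hy hxy
  · rw [Set.indicator_of_notMem hq, Set.indicator_of_notMem (fun hh => hq (h1.2 hh))]

theorem Ex_zero_j7117 {θ h : X → ℝ} (geo : Geo θ h) (s : Measure X) (f : X → ℝ) :
    Ex θ h s 0 f = fun x => avg θ h s f 0 0 * (Q θ h 0 0).indicator 1 x := by
  ext x
  have hc : col θ 0 x = 0 := by
    have := col_lt geo 0 x
    simpa using this
  unfold Ex
  rw [if_pos (by simpa using geo.h1 x), hc, Q_zero geo]
  simp

theorem Ex_succ_j7117 {θ h : X → ℝ} (geo : Geo θ h) (s : Measure X) (n : ℕ) (f : X → ℝ) :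
    Ex θ h s (n + 1) f =
      fun x => Ex θ h s n f x + ∑ k ∈ Finset.range (2 ^ n), Dl θ h s n k f x := by
  ext x
  by_cases hx : h x ≤ (1 / 2 : ℝ) ^ n
  · rw [Finset.sum_eq_single (col θ n x)]
    · have hmem : x ∈ Q θ h n (col θ n x) := ⟨rfl, hx⟩
      unfold Dl
      rw [Set.indicator_of_mem hmem]
      ring
    · intro k _ hk
      unfold Dl
      rw [Set.indicator_of_notMem]
      rintro ⟨hxx, -⟩
      exact hk hxx.symm
    · intro hk
      exact absurd (Finset.mem_range.2 (col_lt geo n x)) hk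
  · rw [Finset.sum_eq_zero, add_zero]
    · unfold Ex
      rw [if_neg hx, if_neg (fun hh => hx (hh.trans (pow_anti_j7117 n)))]
    · intro k _
      unfold Dl
      rw [Set.indicator_of_notMem]
      rintro ⟨-, hxx⟩
      exact hx hxx

theorem B_expand (θ h : X → ℝ) (geo : Geo θ h) (s w : Measure X) [IsFiniteMeasure s]
    [IsFiniteMeasure w] (C0 : ℝ) (hT : Testing θ h s w C0) (f g : X → ℝ) (hf : Bdd f) (hg : Bdd g)
    (n : ℕ) :
    Bf θ h s w (Ex θ h s n f) g =
      (avg θ h s f 0 0 : ℂ) * Bf θ h s w ((Q θ h 0 0).indicator 1) g +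
      ∑ m ∈ Finset.range n, ∑ k ∈ Finset.range (2 ^ m), Bf θ h s w (Dl θ h s m k f) g := by
  induction n with
  | zero =>
      rw [Ex_zero_j7117 geo, Bf_const_mul_j7117]
      simp
  | succ n ih =>
      rw [Ex_succ_j7117 geo, Bf_add_j7117 geo
        (nice_low_j7117 geo hT (bdd_Ex geo s hf n) n (low_Ex_j7117 θ h s n f))
        (nice_sum_j7117 geo _ _ (fun k _ => nice_low_j7117 geo hT (bdd_Dl geo s hf n k) (n + 1)
          (low_Dl_j7117 geo s n k f))) hg,
        Bf_sum_j7117 geo _ _ (fun k _ => nice_low_j7117 geo hT (bdd_Dl geo s hf n k) (n + 1)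
          (low_Dl_j7117 geo s n k f)) hg, ih, Finset.sum_range_succ, add_assoc]

theorem B_expand_right (θ h : X → ℝ) (geo : Geo θ h) (s w : Measure X) [IsFiniteMeasure s]
    [IsFiniteMeasure w] (C0 : ℝ) (hT : Testing θ h s w C0) (f g : X → ℝ) (hf : Bdd f) (hg : Bdd g)
    (m n : ℕ) :
    Bf θ h s w (Ex θ h s m f) (Ex θ h w n g) =
      (avg θ h w g 0 0 : ℂ) * Bf θ h s w (Ex θ h s m f) ((Q θ h 0 0).indicator 1) +
      ∑ i ∈ Finset.range n, ∑ k ∈ Finset.range (2 ^ i),
        Bf θ h s w (Ex θ h s m f) (Dl θ h w i k g) := by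
  have hnice : Nice_j7117 θ h s w (Ex θ h s m f) :=
    nice_low_j7117 geo hT (bdd_Ex geo s hf m) m (low_Ex_j7117 θ h s m f)
  induction n with
  | zero =>
      rw [Ex_zero_j7117 geo w g, Bf_const_mul_right_j7117]
      simp
  | succ n ih =>
      rw [Ex_succ_j7117 geo w n g, Bf_add_right_j7117 hnice (bdd_Ex geo w hg n)
        (bdd_sum_j7117 _ _ (fun k _ => bdd_Dl geo w hg n k)),
        Bf_sum_right_j7117 hnice _ _ (fun k _ => bdd_Dl geo w hg n k), ih,
        Finset.sum_range_succ, add_assoc]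

theorem B_split (θ h : X → ℝ) (geo : Geo θ h) (s w : Measure X) [IsFiniteMeasure s]
    [IsFiniteMeasure w] (C0 : ℝ) (hT : Testing θ h s w C0) (f g : X → ℝ) (hf : Bdd f) (hg : Bdd g)
    (m k' : ℕ) (hk : k' < 2 ^ (m + 1)) :
    Bf θ h s w (Dl θ h s m (k' / 2) f) g =
      ((avg θ h s f (m + 1) k' - avg θ h s f m (k' / 2) : ℝ) : ℂ) *
        Bf θ h s w ((Q θ h (m + 1) k').indicator 1) g +
      Bf θ h s w ((Q θ h m (k' / 2) \ Q θ h (m + 1) k').indicator (Dl θ h s m (k' / 2) f)) g := by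
  have hQm : MeasurableSet (Q θ h m (k' / 2) \ Q θ h (m + 1) k') :=
    (measurableSet_Q geo _ _).diff (measurableSet_Q geo _ _)
  have hdec : Dl θ h s m (k' / 2) f = fun x =>
      (avg θ h s f (m + 1) k' - avg θ h s f m (k' / 2)) * (Q θ h (m + 1) k').indicator 1 x +
        (Q θ h m (k' / 2) \ Q θ h (m + 1) k').indicator (Dl θ h s m (k' / 2) f) x := by
    ext x
    by_cases hx : x ∈ Q θ h (m + 1) k'
    · have hx2 : x ∉ Q θ h m (k' / 2) \ Q θ h (m + 1) k' := fun hh => hh.2 hx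
      rw [Set.indicator_of_notMem hx2, Set.indicator_of_mem hx, add_zero, Pi.one_apply, mul_one]
      have hcm : col θ m x = k' / 2 := by
        have := col_div geo (Nat.le_succ m) x
        rw [← this]
        have e : m.succ - m = 1 := by omega
        rw [e, pow_one, Nat.succ_eq_add_one, hx.1]
      have hxm : h x ≤ (1 / 2 : ℝ) ^ m := hx.2.trans (pow_anti_j7117 m)
      have hxq : x ∈ Q θ h m (k' / 2) := ⟨hcm, hxm⟩
      unfold Dl
      rw [Set.indicator_of_mem hxq]
      unfold Ex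
      rw [if_pos hx.2, if_pos hxm, hx.1, hcm]
    · rw [Set.indicator_of_notMem hx, mul_zero, zero_add]
      by_cases hx3 : x ∈ Q θ h m (k' / 2)
      · rw [Set.indicator_of_mem (show x ∈ Q θ h m (k' / 2) \ Q θ h (m + 1) k' from ⟨hx3, hx⟩)]
      · rw [Set.indicator_of_notMem (fun hh => hx3 hh.1)]
        unfold Dl
        rw [Set.indicator_of_notMem hx3]
  have hn1 : Nice_j7117 θ h s w (fun x => (avg θ h s f (m + 1) k' - avg θ h s f m (k' / 2)) *
      (Q θ h (m + 1) k').indicator 1 x) :=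
    nice_const_mul_j7117 _ (nice_indQ_j7117 geo hT _ _)
  have hn2 : Nice_j7117 θ h s w
      ((Q θ h m (k' / 2) \ Q θ h (m + 1) k').indicator (Dl θ h s m (k' / 2) f)) :=
    nice_low_j7117 geo hT (bdd_indicator_j7117 (bdd_Dl geo s hf _ _) hQm) (m + 1)
      (low_diff_j7117 geo m _ _ _ (low_Dl_j7117 geo s m _ f))
  have h1 := Bf_add_j7117 geo hn1 hn2 hg
  rw [← hdec, Bf_const_mul_j7117] at h1
  exact h1

theorem B_annulus (θ h : X → ℝ) (geo : Geo θ h) (s w : Measure X) [IsFiniteMeasure s]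
    [IsFiniteMeasure w] (C0 : ℝ) (hT : Testing θ h s w C0) (g : X → ℝ) (hg : Bdd g)
    (m k' : ℕ) (hk : k' < 2 ^ (m + 1)) :
    Bf θ h s w ((Q θ h m (k' / 2)).indicator 1) g - Bf θ h s w ((Q θ h (m + 1) k').indicator 1) g =
      Bf θ h s w ((Q θ h m (k' / 2) \ Q θ h (m + 1) k').indicator 1) g := by
  have hQm : MeasurableSet (Q θ h m (k' / 2) \ Q θ h (m + 1) k') :=
    (measurableSet_Q geo _ _).diff (measurableSet_Q geo _ _)
  have hsub : Q θ h (m + 1) k' ⊆ Q θ h m (k' / 2) := by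
    have := Q_anti geo (Nat.le_succ m) k'
    have e : m.succ - m = 1 := by omega
    rw [e, pow_one] at this
    exact this
  have hdec : (Q θ h m (k' / 2)).indicator (1 : X → ℝ) = fun x =>
      (Q θ h m (k' / 2) \ Q θ h (m + 1) k').indicator 1 x + (Q θ h (m + 1) k').indicator 1 x := by
    ext x
    by_cases hx : x ∈ Q θ h (m + 1) k'
    · rw [Set.indicator_of_mem (hsub hx), Set.indicator_of_mem hx,
        Set.indicator_of_notMem (fun hh => hh.2 hx), zero_add]
    · rw [Set.indicator_of_notMem hx, add_zero]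
      by_cases hx3 : x ∈ Q θ h m (k' / 2)
      · rw [Set.indicator_of_mem hx3,
          Set.indicator_of_mem (show x ∈ Q θ h m (k' / 2) \ Q θ h (m + 1) k' from ⟨hx3, hx⟩)]
      · rw [Set.indicator_of_notMem hx3, Set.indicator_of_notMem (fun hh => hx3 hh.1)]
  have hl1 : LowConst θ h (m + 1) (1 : X → ℝ) := fun x y _ _ _ => rfl
  have hn1 : Nice_j7117 θ h s w ((Q θ h m (k' / 2) \ Q θ h (m + 1) k').indicator 1) :=
    nice_low_j7117 geo hT (bdd_indicator_j7117 bdd_one_j7117 hQm) (m + 1)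
      (low_diff_j7117 geo m _ _ _ hl1)
  have hn2 := nice_indQ_j7117 geo hT (m + 1) k'
  have h1 := Bf_add_j7117 geo hn1 hn2 hg
  rw [← hdec] at h1
  rw [h1]
  ring

end

end Pool.Agent.Helper807.BT
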