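import Pool.Agent.Helper807.BT.Base
import Pool.Agent.Helper807.BT.Bas

set_option autoImplicit false

open MeasureTheory Set
open scoped ENNReal

namespace Pool.Agent.Helper807.BT

noncomputable section

variable {X : Type*} [MeasurableSpace X]


theorem fract_lt_7115 (t l : ℝ) (z : ℤ) (h0 : 0 ≤ t + z) (h1 : t + z < l) : Int.fract t < l := by
  have h2 : Int.fract (t + z) = Int.fract t := Int.fract_add_intCast t z
  have h3 : (0:ℤ) ≤ ⌊t + z⌋ := Int.floor_nonneg.mpr h0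
  have h4 : Int.fract (t + z) = t + z - ⌊t+z⌋ := rfl
  have h5 : (0:ℝ) ≤ (⌊t + z⌋ : ℤ) := by exact_mod_cast h3
  linarith

theorem col_bounds_7115 {θ h : X → ℝ} (geo : Geo θ h) (m k : ℕ) (x : X) (hx : x ∈ Q θ h m k) :
    (k : ℝ) / 2 ^ m ≤ θ x ∧ θ x < (k : ℝ) / 2 ^ m + (1/2 : ℝ) ^ m ∧ h x ≤ (1/2 : ℝ) ^ m := by
  obtain ⟨h1, h2⟩ := hx
  have hp : (0:ℝ) < 2 ^ m := by positivity
  have h0 : 0 ≤ (2:ℝ) ^ m * θ x := mul_nonneg hp.le (geo.θ0 x)
  unfold col at h1
  have h3 : (k : ℝ) ≤ 2 ^ m * θ x := by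
    rw [← h1]; exact Nat.floor_le h0
  have h4 : 2 ^ m * θ x < (k : ℝ) + 1 := by
    rw [← h1]; exact Nat.lt_floor_add_one _
  refine ⟨?_, ?_, h2⟩
  · rw [div_le_iff₀ hp]; linarith
  · have : (1/2 : ℝ) ^ m = 1 / 2 ^ m := by rw [div_pow, one_pow]
    rw [this, ← add_div, lt_div_iff₀ hp]; linarith

theorem arc_7115 {θ h : X → ℝ} (geo : Geo θ h) (m k j : ℕ) (hk : k < 2^m) (hj : j < 2^m)
    (hn : near m k j) : ∃ a l : ℝ, 0 < l ∧ l ≤ 1 ∧ l ≤ 2 * (1/2:ℝ)^m ∧
      Q θ h m k ⊆ arcBox θ h a l ∧ Q θ h m j ⊆ arcBox θ h a l := by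
  have hp : (0:ℝ) < 2 ^ m := by positivity
  have hhp : (0:ℝ) < (1/2:ℝ) ^ m := by positivity
  have hinv : (1/2 : ℝ) ^ m = 1 / 2 ^ m := by rw [div_pow, one_pow]
  by_cases hkj : k = j
  · subst hkj
    refine ⟨(k:ℝ)/2^m, (1/2:ℝ)^m, hhp, ?_, by linarith, ?_, ?_⟩
    · exact pow_le_one₀ (by norm_num) (by norm_num)
    · rw [Q_eq_arcBox geo m k hk]
    · rw [Q_eq_arcBox geo m k hk]
  · -- m ≥ 1
    have hm : 1 ≤ m := by
      rcases Nat.eq_zero_or_pos m with h | h
      · subst h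
        simp at hk hj
        omega
      · exact h
    have hl1 : 2 * (1/2:ℝ)^m ≤ 1 := by
      have : (1/2:ℝ)^m ≤ (1/2:ℝ)^1 := pow_le_pow_of_le_one (by norm_num) (by norm_num) hm
      linarith
    have key : ∀ a b : ℕ, a + 1 = b → b < 2 ^ m → Q θ h m a ⊆ arcBox θ h ((a:ℝ)/2^m) (2 * (1/2:ℝ)^m)
        ∧ Q θ h m b ⊆ arcBox θ h ((a:ℝ)/2^m) (2 * (1/2:ℝ)^m) := by
      intro a b hab hb
      constructor
      · intro x hx
        obtain ⟨h1, h2, h3⟩ := col_bounds_7115 geo m a x hx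
        refine ⟨fract_lt_7115 _ _ 0 ?_ ?_, by linarith⟩
        · push_cast; linarith
        · push_cast; linarith
      · intro x hx
        obtain ⟨h1, h2, h3⟩ := col_bounds_7115 geo m b x hx
        have hb' : (b:ℝ)/2^m = (a:ℝ)/2^m + (1/2:ℝ)^m := by
          rw [hinv, ← hab]; push_cast; ring
        refine ⟨fract_lt_7115 _ _ 0 ?_ ?_, by linarith⟩
        · push_cast; linarith
        · push_cast; linarith
    have key2 : ∀ b : ℕ, b + 1 = 2 ^ m → Q θ h m 0 ⊆ arcBox θ h ((b:ℝ)/2^m) (2 * (1/2:ℝ)^m)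
        ∧ Q θ h m b ⊆ arcBox θ h ((b:ℝ)/2^m) (2 * (1/2:ℝ)^m) := by
      intro b hb
      have hb' : (b:ℝ)/2^m = 1 - (1/2:ℝ)^m := by
        rw [hinv]
        have : (b:ℝ) = 2 ^ m - 1 := by
          have : ((b + 1 : ℕ) : ℝ) = ((2 ^ m : ℕ) : ℝ) := by rw [hb]
          push_cast at this; linarith
        rw [this]; field_simp
      constructor
      · intro x hx
        obtain ⟨h1, h2, h3⟩ := col_bounds_7115 geo m 0 x hx
        have hz : ((0:ℕ):ℝ) / 2 ^ m = 0 := by simp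
        rw [hz] at h1 h2
        refine ⟨fract_lt_7115 _ _ 1 ?_ ?_, by linarith⟩
        · push_cast; linarith
        · push_cast; linarith
      · intro x hx
        obtain ⟨h1, h2, h3⟩ := col_bounds_7115 geo m b x hx
        refine ⟨fract_lt_7115 _ _ 0 ?_ ?_, by linarith⟩
        · push_cast; linarith
        · push_cast; linarith
    unfold near at hn
    rcases hn with hn | hn | hn | ⟨hn1, hn2⟩ | ⟨hn1, hn2⟩
    · exact absurd hn hkj
    · obtain ⟨h1, h2⟩ := key k j hn hj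
      exact ⟨_, _, by positivity, hl1, le_refl _, h1, h2⟩
    · obtain ⟨h1, h2⟩ := key j k hn hk
      exact ⟨_, _, by positivity, hl1, le_refl _, h2, h1⟩
    · obtain ⟨h1, h2⟩ := key2 j hn2
      subst hn1
      exact ⟨_, _, by positivity, hl1, le_refl _, h1, h2⟩
    · obtain ⟨h1, h2⟩ := key2 k hn2
      subst hn1
      exact ⟨_, _, by positivity, hl1, le_refl _, h2, h1⟩

theorem near_A2_7115 {θ h : X → ℝ} {s w : Measure X} [IsFiniteMeasure s] [IsFiniteMeasure w] {A : ℝ}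
    (hA : 0 ≤ A) (geo : Geo θ h) (a2 : A2 θ h s w A) (m k j : ℕ) (hk : k < 2^m) (hj : j < 2^m)
    (hn : near m k j) :
    (s (Q θ h m k)).toReal * (w (Q θ h m j)).toReal ≤ 16 * A * ((1/4:ℝ)^m) ^ 2 := by
  obtain ⟨a, l, hl0, hl1, hl2, h1, h2⟩ := arc_7115 geo m k j hk hj hn
  have e1 : (s (Q θ h m k)).toReal ≤ (s (arcBox θ h a l)).toReal :=
    ENNReal.toReal_mono (measure_ne_top _ _) (measure_mono h1)
  have e2 : (w (Q θ h m j)).toReal ≤ (w (arcBox θ h a l)).toReal :=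
    ENNReal.toReal_mono (measure_ne_top _ _) (measure_mono h2)
  have e3 := a2 a l hl0 hl1
  have e4 : l ^ 4 ≤ (2 * (1/2:ℝ)^m) ^ 4 := pow_le_pow_left₀ hl0.le hl2 4
  have e5 : (2 * (1/2:ℝ)^m) ^ 4 = 16 * ((1/4:ℝ)^m) ^ 2 := by
    have : (1/4:ℝ)^m = ((1/2:ℝ)^m)^2 := by
      rw [← pow_mul, mul_comm, pow_mul]; norm_num
    rw [this]; ring
  calc (s (Q θ h m k)).toReal * (w (Q θ h m j)).toReal
      ≤ (s (arcBox θ h a l)).toReal * (w (arcBox θ h a l)).toReal :=
        mul_le_mul e1 e2 ENNReal.toReal_nonneg ENNReal.toReal_nonneg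
    _ ≤ A * l ^ 4 := e3
    _ ≤ A * (16 * ((1/4:ℝ)^m) ^ 2) := by
        apply mul_le_mul_of_nonneg_left _ hA
        rw [← e5]; exact e4
    _ = _ := by ring

theorem cs_7115 (μ : Measure X) (f g : X → ℝ) (hf0 : ∀ x, 0 ≤ f x) (hg0 : ∀ x, 0 ≤ g x)
    (hf : MemLp f 2 μ) (hg : MemLp g 2 μ) :
    ∫ x, f x * g x ∂μ ≤ Real.sqrt (∫ x, f x ^ 2 ∂μ) * Real.sqrt (∫ x, g x ^ 2 ∂μ) := by
  have h := integral_mul_le_Lp_mul_Lq_of_nonneg (μ := μ) (p := 2) (q := 2)
    Real.HolderConjugate.two_two (f := f) (g := g)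
    (Filter.Eventually.of_forall hf0) (Filter.Eventually.of_forall hg0)
    (by simpa using hf) (by simpa using hg)
  simpa [Real.sqrt_eq_rpow] using h

theorem bdd_memLp_7115 {μ : Measure X} [IsFiniteMeasure μ] {f : X → ℝ} (hf : Bdd f) :
    MemLp f 2 μ := by
  obtain ⟨hm, C, hC⟩ := hf
  exact MemLp.of_bound hm.aestronglyMeasurable C (Filter.Eventually.of_forall (fun x => by
    simpa using hC x))

theorem bdd_integrable_7115 {μ : Measure X} [IsFiniteMeasure μ] {f : X → ℝ} (hf : Bdd f) :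
    Integrable f μ := by
  obtain ⟨hm, C, hC⟩ := hf
  exact Integrable.of_bound hm.aestronglyMeasurable C (Filter.Eventually.of_forall (fun x => by
    simpa using hC x))

theorem bdd_mul_7115 {f g : X → ℝ} (hf : Bdd f) (hg : Bdd g) : Bdd (fun x => f x * g x) := by
  obtain ⟨hm, C, hC⟩ := hf
  obtain ⟨hm', C', hC'⟩ := hg
  refine ⟨hm.mul hm', C * C', fun x => ?_⟩
  rw [abs_mul]
  exact mul_le_mul (hC x) (hC' x) (abs_nonneg _) ((abs_nonneg _).trans (hC x))

theorem bdd_ind_7115 {S : Set X} (hS : MeasurableSet S) {f : X → ℝ} (hf : Bdd f) :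
    Bdd (S.indicator f) := by
  obtain ⟨hm, C, hC⟩ := hf
  refine ⟨hm.indicator hS, C, fun x => ?_⟩
  by_cases hx : x ∈ S
  · rw [indicator_of_mem hx]; exact hC x
  · rw [indicator_of_notMem hx, abs_zero]; exact (abs_nonneg _).trans (hC x)

theorem bdd_abs_7115 {f : X → ℝ} (hf : Bdd f) : Bdd (fun x => |f x|) := by
  obtain ⟨hm, C, hC⟩ := hf
  exact ⟨hm.abs, C, fun x => by rw [abs_abs]; exact hC x⟩

theorem bdd_const_7115 (c : ℝ) : Bdd (fun _ : X => c) := ⟨measurable_const, |c|, fun _ => le_refl _⟩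

/-- L1 norm of a function supported on `S` -/
theorem l1_7115 {μ : Measure X} [IsFiniteMeasure μ] {S : Set X} (hS : MeasurableSet S)
    {f : X → ℝ} (hf : Bdd f) (hfs : ∀ x, x ∉ S → f x = 0) :
    ∫ x, |f x| ∂μ ≤ Real.sqrt (μ S).toReal * Real.sqrt (∫ x, f x ^ 2 ∂μ) := by
  have h1 := cs_7115 μ (S.indicator (fun _ => (1:ℝ))) (fun x => |f x|)
    (fun x => indicator_nonneg (fun _ _ => zero_le_one) x) (fun x => abs_nonneg _)
    (bdd_memLp_7115 (bdd_ind_7115 hS (bdd_const_7115 1))) (bdd_memLp_7115 (bdd_abs_7115 hf))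
  have h2 : ∀ x, S.indicator (fun _ => (1:ℝ)) x * |f x| = |f x| := by
    intro x
    by_cases hx : x ∈ S
    · rw [indicator_of_mem hx, one_mul]
    · rw [hfs x hx]; simp
  have h3 : ∀ x, (S.indicator (fun _ => (1:ℝ)) x) ^ 2 = S.indicator (fun _ => (1:ℝ)) x := by
    intro x
    by_cases hx : x ∈ S
    · rw [indicator_of_mem hx, one_pow]
    · rw [indicator_of_notMem hx]; simp
  simp only [h2, h3, sq_abs] at h1
  rw [integral_indicator_const _ hS] at h1
  simpa [Measure.real] using h1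

theorem meas_Pop_7115 {θ h : X → ℝ} (geo : Geo θ h) (s : Measure X) [IsFiniteMeasure s]
    {f : X → ℝ} (hf : Measurable f) : StronglyMeasurable (Pop θ h s f) := by
  have h1 : Measurable (fun p : X × X => K θ h p.1 p.2 * ((f p.2 : ℝ) : ℂ)) :=
    (measurable_K geo).mul (Complex.measurable_ofReal.comp (hf.comp measurable_snd))
  exact h1.stronglyMeasurable.integral_prod_right' (ν := s)

theorem meas_K_7115 {θ h : X → ℝ} (geo : Geo θ h) (x : X) : Measurable (fun y : X => K θ h x y) := by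
  have h0 : Measurable (fun y : X => (x, y)) := measurable_prodMk_left
  have h1 := (measurable_K geo).comp h0
  exact h1

theorem int_K_7115 {θ h : X → ℝ} (geo : Geo θ h) (s : Measure X) [IsFiniteMeasure s]
    {f : X → ℝ} (hf : Bdd f) (x : X) : Integrable (fun y => K θ h x y * ((f y : ℝ) : ℂ)) s := by
  have hm : Measurable f := hf.1
  have hC := hf.2
  rcases hC with ⟨C, hC⟩
  have h2 : Measurable (fun y => K θ h x y * ((f y : ℝ) : ℂ)) :=
    (meas_K_7115 geo x).mul (Complex.measurable_ofReal.comp hm)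
  have h3 : ∀ y, ‖K θ h x y * ((f y : ℝ) : ℂ)‖ ≤ ((h x) ^ 2)⁻¹ * C := by
    intro y
    rw [norm_mul]
    have h4 : ‖((f y : ℝ) : ℂ)‖ ≤ C := by
      have : ‖((f y : ℝ) : ℂ)‖ = |f y| := by simp
      rw [this]; exact hC y
    exact mul_le_mul (norm_K_le_left geo x y) h4 (norm_nonneg _) (inv_nonneg.mpr (sq_nonneg _))
  exact Integrable.of_bound h2.aestronglyMeasurable _ (Filter.Eventually.of_forall h3)

/-- bound of the form by Cauchy-Schwarz -/
theorem form_cs_7115 {μ : Measure X} [IsFiniteMeasure μ] {u : X → ℂ} (hu : StronglyMeasurable u)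
    {B : ℝ} (hB : 0 ≤ B) (hu2 : ∫⁻ x, ‖u x‖ₑ ^ 2 ∂μ ≤ ENNReal.ofReal B) {g : X → ℝ} (hg : Bdd g) :
    Integrable (fun x => u x * ((g x : ℝ) : ℂ)) μ ∧
    ‖∫ x, u x * ((g x : ℝ) : ℂ) ∂μ‖ ≤ Real.sqrt B * Real.sqrt (∫ x, g x ^ 2 ∂μ) := by
  have hL : MemLp u 2 μ := by
    refine ⟨hu.aestronglyMeasurable, ?_⟩
    rw [eLpNorm_lt_top_iff_lintegral_rpow_enorm_lt_top (by norm_num) (by norm_num)]
    have : (∫⁻ x, ‖u x‖ₑ ^ (ENNReal.toReal 2) ∂μ) = ∫⁻ x, ‖u x‖ₑ ^ 2 ∂μ := by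
      congr 1; ext x; simp
    rw [this]
    exact lt_of_le_of_lt hu2 ENNReal.ofReal_lt_top
  have hLn : MemLp (fun x => ‖u x‖) 2 μ := hL.norm
  have hgL : MemLp (fun x => |g x|) 2 μ := bdd_memLp_7115 (bdd_abs_7115 hg)
  have hgm : Measurable (fun x => ((g x : ℝ) : ℂ)) := Complex.measurable_ofReal.comp hg.1
  have hint : Integrable (fun x => u x * ((g x : ℝ) : ℂ)) μ := by
    have h1 : Integrable (fun x => ‖u x‖ * |g x|) μ := by
      have := MemLp.integrable_mul hLn hgL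
      exact this
    refine h1.mono ?_ (Filter.Eventually.of_forall (fun x => ?_))
    · exact (hu.aestronglyMeasurable).mul hgm.aestronglyMeasurable
    · rw [norm_mul]
      simp
  refine ⟨hint, ?_⟩
  have h2 : ∫ x, ‖u x‖ ^ 2 ∂μ ≤ B := by
    rw [integral_eq_lintegral_of_nonneg_ae (Filter.Eventually.of_forall (fun x => by positivity))
      (hu.norm.measurable.pow_const 2).aestronglyMeasurable]
    apply ENNReal.toReal_le_of_le_ofReal hB
    refine le_trans (le_of_eq ?_) hu2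
    congr 1; ext x
    rw [ENNReal.ofReal_pow (norm_nonneg _), ofReal_norm]
  calc ‖∫ x, u x * ((g x : ℝ) : ℂ) ∂μ‖ ≤ ∫ x, ‖u x * ((g x : ℝ) : ℂ)‖ ∂μ :=
        norm_integral_le_integral_norm _
    _ = ∫ x, ‖u x‖ * |g x| ∂μ := by
        congr 1; ext x; rw [norm_mul]; simp
    _ ≤ Real.sqrt (∫ x, ‖u x‖ ^ 2 ∂μ) * Real.sqrt (∫ x, |g x| ^ 2 ∂μ) :=
        cs_7115 μ _ _ (fun x => norm_nonneg _) (fun x => abs_nonneg _) hLn hgL
    _ ≤ Real.sqrt B * Real.sqrt (∫ x, g x ^ 2 ∂μ) := by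
        simp only [sq_abs]
        exact mul_le_mul_of_nonneg_right (Real.sqrt_le_sqrt h2) (Real.sqrt_nonneg _)

/-- testing on a dyadic box -/
theorem test_7115 {θ h : X → ℝ} {s w : Measure X} [IsFiniteMeasure s] [IsFiniteMeasure w]
    {C0 : ℝ} (hC : 0 ≤ C0) (geo : Geo θ h) (tst : Testing θ h s w C0) (m k : ℕ) (hk : k < 2 ^ m)
    {g : X → ℝ} (hg : Bdd g) :
    Integrable (fun x => Pop θ h s ((Q θ h m k).indicator 1) x * ((g x : ℝ) : ℂ)) w ∧
    ‖Bf θ h s w ((Q θ h m k).indicator 1) g‖ ≤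
      Real.sqrt (C0 * (s (Q θ h m k)).toReal) * Real.sqrt (∫ x, g x ^ 2 ∂w) := by
  have hind : Measurable ((Q θ h m k).indicator (1 : X → ℝ)) :=
    measurable_one.indicator (measurableSet_Q geo m k)
  have h1 := tst ((k : ℝ) / 2 ^ m) ((1 / 2 : ℝ) ^ m) (by positivity)
    (pow_le_one₀ (by norm_num) (by norm_num))
  rw [← Q_eq_arcBox geo m k hk] at h1
  have h2 : ENNReal.ofReal C0 * s (Q θ h m k) = ENNReal.ofReal (C0 * (s (Q θ h m k)).toReal) := by
    rw [ENNReal.ofReal_mul hC, ENNReal.ofReal_toReal (measure_ne_top _ _)]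
  rw [h2] at h1
  exact form_cs_7115 (meas_Pop_7115 geo s hind) (by positivity) h1 hg


theorem Dl_decomp_7115 {θ h : X → ℝ} (geo : Geo θ h) (s : Measure X) (m k : ℕ) (f : X → ℝ) (x : X) :
    Dl θ h s m k f x =
      ({y | y ∈ Q θ h m k ∧ (1/2:ℝ)^(m+1) < h y}.indicator (Dl θ h s m k f) x) +
      ((avg θ h s f (m+1) (2*k) - avg θ h s f m k) * (Q θ h (m+1) (2*k)).indicator 1 x +
       (avg θ h s f (m+1) (2*k+1) - avg θ h s f m k) * (Q θ h (m+1) (2*k+1)).indicator 1 x) ∧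
    (x ∈ Q θ h (m+1) (2*k) → Dl θ h s m k f x = avg θ h s f (m+1) (2*k) - avg θ h s f m k) ∧
    (x ∈ Q θ h (m+1) (2*k+1) → Dl θ h s m k f x = avg θ h s f (m+1) (2*k+1) - avg θ h s f m k) ∧
    (x ∈ Q θ h (m+1) (2*k) → x ∉ Q θ h (m+1) (2*k+1)) := by
  have hs1 : Q θ h (m+1) (2*k) ⊆ Q θ h m k := by
    have := Q_anti geo (Nat.le_succ m) (2*k)
    have h2 : 2 * k / 2 ^ (Nat.succ m - m) = k := by
      have : Nat.succ m - m = 1 := by omega
      rw [this]; omega
    rw [h2] at this; exact this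
  have hs2 : Q θ h (m+1) (2*k+1) ⊆ Q θ h m k := by
    have := Q_anti geo (Nat.le_succ m) (2*k+1)
    have h2 : (2 * k + 1) / 2 ^ (Nat.succ m - m) = k := by
      have : Nat.succ m - m = 1 := by omega
      rw [this]; omega
    rw [h2] at this; exact this
  have hdis : x ∈ Q θ h (m+1) (2*k) → x ∉ Q θ h (m+1) (2*k+1) := by
    intro h1 h2
    have e1 := h1.1
    have e2 := h2.1
    omega
  have v1 : x ∈ Q θ h (m+1) (2*k) →
      Dl θ h s m k f x = avg θ h s f (m+1) (2*k) - avg θ h s f m k := by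
    intro hx
    have hxm := hs1 hx
    unfold Dl
    rw [indicator_of_mem hxm]
    unfold Ex
    rw [if_pos hx.2, if_pos hxm.2, hx.1, hxm.1]
  have v2 : x ∈ Q θ h (m+1) (2*k+1) →
      Dl θ h s m k f x = avg θ h s f (m+1) (2*k+1) - avg θ h s f m k := by
    intro hx
    have hxm := hs2 hx
    unfold Dl
    rw [indicator_of_mem hxm]
    unfold Ex
    rw [if_pos hx.2, if_pos hxm.2, hx.1, hxm.1]
  refine ⟨?_, v1, v2, hdis⟩
  by_cases hx1 : x ∈ Q θ h (m+1) (2*k)
  · have n1 : x ∉ {y | y ∈ Q θ h m k ∧ (1/2:ℝ)^(m+1) < h y} := by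
      rintro ⟨_, h2⟩
      exact absurd hx1.2 (not_le.mpr h2)
    rw [indicator_of_notMem n1, indicator_of_mem hx1, indicator_of_notMem (hdis hx1), v1 hx1]
    simp
  · by_cases hx2 : x ∈ Q θ h (m+1) (2*k+1)
    · have n1 : x ∉ {y | y ∈ Q θ h m k ∧ (1/2:ℝ)^(m+1) < h y} := by
        rintro ⟨_, h2⟩
        exact absurd hx2.2 (not_le.mpr h2)
      rw [indicator_of_notMem n1, indicator_of_mem hx2, indicator_of_notMem hx1, v2 hx2]
      simp
    · rw [indicator_of_notMem hx1, indicator_of_notMem hx2]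
      by_cases hxm : x ∈ Q θ h m k
      · have n1 : x ∈ {y | y ∈ Q θ h m k ∧ (1/2:ℝ)^(m+1) < h y} := by
          refine ⟨hxm, ?_⟩
          by_contra hcon
          push Not at hcon
          have hc := col_div geo (Nat.le_succ m) x
          have : Nat.succ m - m = 1 := by omega
          rw [this, hxm.1] at hc
          have hc2 : col θ (m+1) x = 2*k ∨ col θ (m+1) x = 2*k+1 := by
            have : col θ m.succ x = col θ (m+1) x := rfl
            omega
          rcases hc2 with hc2 | hc2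
          · exact hx1 ⟨hc2, hcon⟩
          · exact hx2 ⟨hc2, hcon⟩
        rw [indicator_of_mem n1]; simp
      · have n1 : x ∉ {y | y ∈ Q θ h m k ∧ (1/2:ℝ)^(m+1) < h y} := fun hc => hxm hc.1
        rw [indicator_of_notMem n1]
        unfold Dl
        rw [indicator_of_notMem hxm]; simp

theorem B_near (C0 A : ℝ) (hC : 0 ≤ C0) (hA : 0 ≤ A) : ∃ C : ℝ, 0 ≤ C ∧
    ∀ (θ h : X → ℝ) (s w : Measure X) [IsFiniteMeasure s] [IsFiniteMeasure w],
    Hyp θ h s w C0 A → ∀ f g : X → ℝ, Bdd f → Bdd g →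
    ∀ n j m k : ℕ, j < 2 ^ n → k < 2 ^ m → m ≤ n → near m k (j / 2 ^ (n - m)) →
    ‖Bf θ h s w (Dl θ h s m k f) (Dl θ h w n j g)‖ ≤
      C * Real.sqrt (∫ x, Dl θ h s m k f x ^ 2 ∂s) *
        Real.sqrt (∫ x, Dl θ h w n j g x ^ 2 ∂w) := by
  refine ⟨16 * Real.sqrt A + 2 * Real.sqrt C0, by positivity, ?_⟩
  intro θ h s w _ _ H f g hf hg n j m k hj hk hmn hnear
  obtain ⟨geo, tst, a2⟩ := H
  set D := Dl θ h s m k f with hD
  set E := Dl θ h w n j g with hE
  have bD : Bdd D := bdd_Dl geo s hf m k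
  have bE : Bdd E := bdd_Dl geo w hg n j
  set j' := j / 2 ^ (n - m) with hj'
  have hj'lt : j' < 2 ^ m := by
    rw [hj', Nat.div_lt_iff_lt_mul (by positivity), ← pow_add]
    have : m + (n - m) = n := by omega
    rw [this]; exact hj
  set T : Set X := {y | y ∈ Q θ h m k ∧ (1/2:ℝ)^(m+1) < h y} with hT
  have mT : MeasurableSet T :=
    (measurableSet_Q geo m k).inter (measurableSet_lt measurable_const geo.mh)
  set φ := T.indicator D with hφ
  have bφ : Bdd φ := bdd_ind_7115 mT bD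
  set c1 := avg θ h s f (m+1) (2*k) - avg θ h s f m k with hc1
  set c2 := avg θ h s f (m+1) (2*k+1) - avg θ h s f m k with hc2
  set Q1 := Q θ h (m+1) (2*k) with hQ1
  set Q2 := Q θ h (m+1) (2*k+1) with hQ2
  have mQ1 : MeasurableSet Q1 := measurableSet_Q geo _ _
  have mQ2 : MeasurableSet Q2 := measurableSet_Q geo _ _
  have hdec : ∀ x, D x = φ x + (c1 * Q1.indicator 1 x + c2 * Q2.indicator 1 x) :=
    fun x => (Dl_decomp_7115 geo s m k f x).1
  have hv1 : ∀ x, x ∈ Q1 → D x = c1 := fun x => (Dl_decomp_7115 geo s m k f x).2.1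
  have hv2 : ∀ x, x ∈ Q2 → D x = c2 := fun x => (Dl_decomp_7115 geo s m k f x).2.2.1
  have b1 : Bdd (Q1.indicator (1 : X → ℝ)) := bdd_ind_7115 mQ1 (bdd_const_7115 1)
  have b2 : Bdd (Q2.indicator (1 : X → ℝ)) := bdd_ind_7115 mQ2 (bdd_const_7115 1)
  have iD2 : Integrable (fun x => D x ^ 2) s := by
    have := bdd_integrable_7115 (μ := s) (bdd_mul_7115 bD bD)
    simpa [sq] using this
  -- Pop decomposition
  have hpop : ∀ x, Pop θ h s D x = Pop θ h s φ x + ((c1 : ℂ) * Pop θ h s (Q1.indicator 1) x +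
      (c2 : ℂ) * Pop θ h s (Q2.indicator 1) x) := by
    intro x
    unfold Pop
    rw [← integral_const_mul, ← integral_const_mul, ← integral_add, ← integral_add]
    · congr 1; ext y
      rw [hdec y]; push_cast; ring
    · exact int_K_7115 geo s bφ x
    · exact ((int_K_7115 geo s b1 x).const_mul _).add ((int_K_7115 geo s b2 x).const_mul _)
    · exact (int_K_7115 geo s b1 x).const_mul _
    · exact (int_K_7115 geo s b2 x).const_mul _
  -- bound for Pop φ
  set ND := Real.sqrt (∫ x, D x ^ 2 ∂s) with hND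
  set NE := Real.sqrt (∫ x, E x ^ 2 ∂w) with hNE
  have hφ2 : Real.sqrt (∫ x, φ x ^ 2 ∂s) ≤ ND := by
    apply Real.sqrt_le_sqrt
    apply integral_mono_of_nonneg (Filter.Eventually.of_forall (fun x => sq_nonneg _)) iD2
    refine Filter.Eventually.of_forall (fun x => ?_)
    show φ x ^ 2 ≤ D x ^ 2
    by_cases hx : x ∈ T
    · rw [hφ, indicator_of_mem hx]
    · rw [hφ, indicator_of_notMem hx]; nlinarith [sq_nonneg (D x)]
  have hφL1 : ∫ x, |φ x| ∂s ≤ Real.sqrt (s (Q θ h m k)).toReal * ND := by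
    refine le_trans (l1_7115 (S := Q θ h m k) (measurableSet_Q geo m k) bφ ?_) ?_
    · intro x hx
      have : x ∉ T := fun hc => hx hc.1
      rw [hφ, indicator_of_notMem this]
    · exact mul_le_mul_of_nonneg_left hφ2 (Real.sqrt_nonneg _)
  have hEL1 : ∫ x, |E x| ∂w ≤ Real.sqrt (w (Q θ h m j')).toReal * NE := by
    refine l1_7115 (S := Q θ h m j') (measurableSet_Q geo m j') bE ?_
    intro x hx
    have : x ∉ Q θ h n j := fun hc => hx (Q_anti geo hmn j hc)
    rw [hE]; unfold Dl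
    rw [indicator_of_notMem this]
  have hpφ : ∀ x, ‖Pop θ h s φ x‖ ≤ 4 ^ (m+1) * (Real.sqrt (s (Q θ h m k)).toReal * ND) := by
    intro x
    unfold Pop
    calc ‖∫ y, K θ h x y * ((φ y : ℝ) : ℂ) ∂s‖ ≤ ∫ y, ‖K θ h x y * ((φ y : ℝ) : ℂ)‖ ∂s :=
          norm_integral_le_integral_norm _
      _ ≤ ∫ y, 4 ^ (m+1) * |φ y| ∂s := by
          apply integral_mono_of_nonneg (Filter.Eventually.of_forall (fun y => norm_nonneg _))
            ((bdd_integrable_7115 (bdd_abs_7115 bφ)).const_mul _)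
          refine Filter.Eventually.of_forall (fun y => ?_)
          show ‖K θ h x y * ((φ y : ℝ) : ℂ)‖ ≤ 4 ^ (m+1) * |φ y|
          rw [norm_mul]
          by_cases hy : y ∈ T
          · have h1 := norm_K_le_right geo x y
            have h2 : ((h y) ^ 2)⁻¹ ≤ 4 ^ (m+1) := by
              have h3 : (1/2:ℝ)^(m+1) < h y := hy.2
              have h4 : ((1/2:ℝ)^(m+1))^2 ≤ (h y)^2 := pow_le_pow_left₀ (by positivity) h3.le 2
              have h5 : ((1/2:ℝ)^(m+1))^2 = (4 ^ (m+1))⁻¹ := by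
                rw [← pow_mul, mul_comm, pow_mul, ← inv_pow]; norm_num
              rw [h5] at h4
              exact inv_le_of_inv_le₀ (by positivity) h4
            have h3 : ‖((φ y : ℝ) : ℂ)‖ = |φ y| := by simp
            rw [h3]
            exact mul_le_mul_of_nonneg_right (h1.trans h2) (abs_nonneg _)
          · have : φ y = 0 := by rw [hφ, indicator_of_notMem hy]
            rw [this]; simp
      _ = 4 ^ (m+1) * ∫ y, |φ y| ∂s := integral_const_mul _ _
      _ ≤ _ := mul_le_mul_of_nonneg_left hφL1 (by positivity)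
  -- integrability of the first term
  have mPφ := meas_Pop_7115 geo s bφ.1
  have mE : Measurable (fun x => ((E x : ℝ) : ℂ)) := Complex.measurable_ofReal.comp bE.1
  set M0 := 4 ^ (m+1) * (Real.sqrt (s (Q θ h m k)).toReal * ND) with hM0
  have hM0n : 0 ≤ M0 := by positivity
  have iEabs : Integrable (fun x => |E x|) w := bdd_integrable_7115 (bdd_abs_7115 bE)
  have int0 : Integrable (fun x => Pop θ h s φ x * ((E x : ℝ) : ℂ)) w := by
    refine (iEabs.const_mul M0).mono (mPφ.aestronglyMeasurable.mul mE.aestronglyMeasurable)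
      (Filter.Eventually.of_forall (fun x => ?_))
    rw [norm_mul, norm_mul, Real.norm_of_nonneg hM0n]
    have h3 : ‖((E x : ℝ) : ℂ)‖ = ‖|E x|‖ := by simp
    rw [h3]
    exact mul_le_mul_of_nonneg_right (hpφ x) (norm_nonneg _)
  have hk1 : 2 * k < 2 ^ (m+1) := by rw [pow_succ]; omega
  have hk2 : 2 * k + 1 < 2 ^ (m+1) := by rw [pow_succ]; omega
  obtain ⟨int1, bd1⟩ := test_7115 hC geo tst (m+1) (2*k) hk1 bE
  obtain ⟨int2, bd2⟩ := test_7115 hC geo tst (m+1) (2*k+1) hk2 bE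
  have hBf : Bf θ h s w D E = Bf θ h s w φ E + ((c1:ℂ) * Bf θ h s w (Q1.indicator 1) E +
      (c2:ℂ) * Bf θ h s w (Q2.indicator 1) E) := by
    unfold Bf
    rw [← integral_const_mul, ← integral_const_mul, ← integral_add, ← integral_add]
    · congr 1; ext x
      rw [hpop x]; ring
    · exact int0
    · exact (int1.const_mul _).add (int2.const_mul _)
    · exact int1.const_mul _
    · exact int2.const_mul _
  -- first term
  have t0 : ‖Bf θ h s w φ E‖ ≤ 16 * Real.sqrt A * ND * NE := by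
    have hA2 := near_A2_7115 hA geo a2 m k j' hk hj'lt hnear
    calc ‖Bf θ h s w φ E‖ ≤ ∫ x, ‖Pop θ h s φ x * ((E x : ℝ) : ℂ)‖ ∂w :=
          norm_integral_le_integral_norm _
      _ ≤ ∫ x, M0 * |E x| ∂w := by
          apply integral_mono_of_nonneg (Filter.Eventually.of_forall (fun y => norm_nonneg _))
            (iEabs.const_mul _)
          refine Filter.Eventually.of_forall (fun x => ?_)
          show ‖Pop θ h s φ x * ((E x : ℝ) : ℂ)‖ ≤ M0 * |E x|
          rw [norm_mul]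
          have h3 : ‖((E x : ℝ) : ℂ)‖ = |E x| := by simp
          rw [h3]
          exact mul_le_mul_of_nonneg_right (hpφ x) (abs_nonneg _)
      _ = M0 * ∫ x, |E x| ∂w := integral_const_mul _ _
      _ ≤ M0 * (Real.sqrt (w (Q θ h m j')).toReal * NE) :=
          mul_le_mul_of_nonneg_left hEL1 hM0n
      _ = 4 ^ (m+1) * Real.sqrt ((s (Q θ h m k)).toReal * (w (Q θ h m j')).toReal) * (ND * NE) := by
          rw [hM0, Real.sqrt_mul ENNReal.toReal_nonneg]; ring
      _ ≤ 4 ^ (m+1) * Real.sqrt (16 * A * ((1/4:ℝ)^m) ^ 2) * (ND * NE) := by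
          apply mul_le_mul_of_nonneg_right _ (by positivity)
          apply mul_le_mul_of_nonneg_left _ (by positivity)
          exact Real.sqrt_le_sqrt hA2
      _ = 16 * Real.sqrt A * ND * NE := by
          rw [Real.sqrt_mul (by positivity), Real.sqrt_sq (by positivity),
            Real.sqrt_mul (by norm_num)]
          have h16 : Real.sqrt 16 = 4 := by
            rw [show (16:ℝ) = 4 ^ 2 by norm_num]; exact Real.sqrt_sq (by norm_num)
          have h4 : (4:ℝ) ^ (m+1) * (1/4:ℝ)^m = 4 := by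
            rw [pow_succ, mul_right_comm, ← mul_pow]; norm_num
          rw [h16]
          calc (4:ℝ) ^ (m+1) * (4 * Real.sqrt A * (1/4:ℝ)^m) * (ND * NE)
              = ((4:ℝ) ^ (m+1) * (1/4:ℝ)^m) * 4 * Real.sqrt A * ND * NE := by ring
            _ = _ := by rw [h4]; ring
  have tc : ∀ (c : ℝ) (S : Set X), MeasurableSet S → (∀ x, x ∈ S → D x = c) →
      |c| * Real.sqrt (s S).toReal ≤ ND := by
    intro c S mS hS
    have h1 : |c| * Real.sqrt (s S).toReal = Real.sqrt (c ^ 2 * (s S).toReal) := by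
      rw [Real.sqrt_mul (sq_nonneg c), Real.sqrt_sq_eq_abs]
    rw [h1]
    apply Real.sqrt_le_sqrt
    have h2 : c ^ 2 * (s S).toReal = ∫ x, S.indicator (fun _ => c ^ 2) x ∂s := by
      rw [integral_indicator_const _ mS]; simp [Measure.real, mul_comm]
    rw [h2]
    apply integral_mono_of_nonneg (Filter.Eventually.of_forall
      (fun x => indicator_nonneg (fun _ _ => sq_nonneg c) x)) iD2
    refine Filter.Eventually.of_forall (fun x => ?_)
    show S.indicator (fun _ => c ^ 2) x ≤ D x ^ 2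
    by_cases hx : x ∈ S
    · rw [indicator_of_mem hx, hS x hx]
    · rw [indicator_of_notMem hx]; exact sq_nonneg _
  have tt : ∀ (c : ℝ) (S : Set X), MeasurableSet S → (∀ x, x ∈ S → D x = c) →
      ‖Bf θ h s w (S.indicator 1) E‖ ≤ Real.sqrt (C0 * (s S).toReal) * NE →
      ‖(c:ℂ) * Bf θ h s w (S.indicator 1) E‖ ≤ Real.sqrt C0 * ND * NE := by
    intro c S mS hS hb
    rw [norm_mul]
    have h3 : ‖(c:ℂ)‖ = |c| := by simp
    rw [h3]
    calc |c| * ‖Bf θ h s w (S.indicator 1) E‖ ≤ |c| * (Real.sqrt (C0 * (s S).toReal) * NE) :=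
          mul_le_mul_of_nonneg_left hb (abs_nonneg _)
      _ = (|c| * Real.sqrt (s S).toReal) * (Real.sqrt C0 * NE) := by
          rw [Real.sqrt_mul hC]; ring
      _ ≤ ND * (Real.sqrt C0 * NE) :=
          mul_le_mul_of_nonneg_right (tc c S mS hS) (by positivity)
      _ = _ := by ring
  have t1 := tt c1 Q1 mQ1 hv1 bd1
  have t2 := tt c2 Q2 mQ2 hv2 bd2
  rw [hBf]
  calc _ ≤ ‖Bf θ h s w φ E‖ + ‖(c1:ℂ) * Bf θ h s w (Q1.indicator 1) E +
      (c2:ℂ) * Bf θ h s w (Q2.indicator 1) E‖ := norm_add_le _ _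
    _ ≤ ‖Bf θ h s w φ E‖ + (‖(c1:ℂ) * Bf θ h s w (Q1.indicator 1) E‖ +
      ‖(c2:ℂ) * Bf θ h s w (Q2.indicator 1) E‖) := by
        have := norm_add_le ((c1:ℂ) * Bf θ h s w (Q1.indicator 1) E)
          ((c2:ℂ) * Bf θ h s w (Q2.indicator 1) E)
        linarith
    _ ≤ 16 * Real.sqrt A * ND * NE + (Real.sqrt C0 * ND * NE + Real.sqrt C0 * ND * NE) := by
        linarith
    _ = _ := by ring


end

end Pool.Agent.Helper807.BT
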