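import Pool.Agent.Helper807.BT.Base
import Pool.Agent.Helper807.BT.Bas

set_option autoImplicit false

open MeasureTheory Set
open scoped ENNReal

namespace Pool.Agent.Helper807.BT

noncomputable section

variable {X : Type*} [MeasurableSpace X]


theorem bdd_int_7116 (s : Measure X) [IsFiniteMeasure s] {f : X → ℝ} (hf : Bdd f) :
    Integrable f s := by
  obtain ⟨hm, C, hC⟩ := hf
  exact Integrable.of_bound hm.aestronglyMeasurable C (ae_of_all _ fun x => by
    rw [Real.norm_eq_abs]; exact hC x)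

theorem bdd_mul_7116 {f g : X → ℝ} (hf : Bdd f) (hg : Bdd g) : Bdd (fun x => f x * g x) := by
  obtain ⟨hm, C, hC⟩ := hf
  obtain ⟨hm', C', hC'⟩ := hg
  refine ⟨hm.mul hm', |C| * |C'|, fun x => ?_⟩
  rw [abs_mul]
  exact mul_le_mul ((hC x).trans (le_abs_self _)) ((hC' x).trans (le_abs_self _))
    (abs_nonneg _) (abs_nonneg _)

theorem bdd_sub_7116 {f g : X → ℝ} (hf : Bdd f) (hg : Bdd g) : Bdd (fun x => f x - g x) := by
  obtain ⟨hm, C, hC⟩ := hf
  obtain ⟨hm', C', hC'⟩ := hg
  refine ⟨hm.sub hm', C + C', fun x => ?_⟩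
  have h1 := abs_sub (f x) (g x)
  have := hC x
  have := hC' x
  linarith

theorem avg_mul_7116 (θ h : X → ℝ) (s : Measure X) [IsFiniteMeasure s]
    (f : X → ℝ) (n k : ℕ) :
    avg θ h s f n k * (s (Q θ h n k)).toReal = ∫ y in Q θ h n k, f y ∂s := by
  unfold avg
  by_cases h0 : (s (Q θ h n k)).toReal = 0
  · have h1 : s (Q θ h n k) = 0 := by
      rcases (ENNReal.toReal_eq_zero_iff _).mp h0 with h | h
      · exact h
      · exact absurd h (measure_ne_top _ _)
    rw [h0, mul_zero]
    rw [Measure.restrict_eq_zero.mpr h1, integral_zero_measure]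
  · rw [div_mul_cancel₀ _ h0]

theorem ex_int_7116 {θ h : X → ℝ} (geo : Geo θ h) (s : Measure X) [IsFiniteMeasure s] {f φ : X → ℝ}
    (hf : Bdd f) (hφ : Bdd φ) (m : ℕ)
    (hc : ∀ j, ∀ x ∈ Q θ h m j, ∀ y ∈ Q θ h m j, φ x = φ y) :
    ∫ x, Ex θ h s m f x * φ x ∂s = ∫ x, f x * φ x ∂s := by
  classical
  have hE := bdd_Ex geo s hf m
  have hi1 := bdd_int_7116 s (bdd_mul_7116 hE hφ)
  have hi2 := bdd_int_7116 s (bdd_mul_7116 hf hφ)
  have hi3 := bdd_int_7116 s (bdd_mul_7116 (bdd_sub_7116 hE hf) hφ)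
  have hpt : ∀ x, (Ex θ h s m f x - f x) * φ x = ∑ j ∈ Finset.range (2 ^ m),
      (Q θ h m j).indicator (fun x => (Ex θ h s m f x - f x) * φ x) x := by
    intro x
    by_cases hx : h x ≤ (1 / 2 : ℝ) ^ m
    · rw [Finset.sum_eq_single (col θ m x)]
      · rw [indicator_of_mem (show x ∈ Q θ h m (col θ m x) from ⟨rfl, hx⟩)]
      · intro j _ hj
        rw [indicator_of_notMem]
        intro hxj
        exact hj hxj.1.symm
      · intro hn
        exact absurd (Finset.mem_range.mpr (col_lt geo m x)) hn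
    · have h1 : Ex θ h s m f x = f x := by
        unfold Ex; rw [if_neg hx]
      rw [h1, sub_self, zero_mul]
      symm
      apply Finset.sum_eq_zero
      intro j _
      rw [indicator_of_notMem]
      intro hxj
      exact hx hxj.2
  have hz : ∫ x, (Ex θ h s m f x - f x) * φ x ∂s = 0 := by
    rw [integral_congr_ae (ae_of_all s hpt)]
    rw [integral_finsetSum]
    · apply Finset.sum_eq_zero
      intro j _
      rw [integral_indicator (measurableSet_Q geo m j)]
      rcases (Q θ h m j).eq_empty_or_nonempty with he | ⟨x0, hx0⟩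
      · rw [he]; simp
      · have h1 : ∫ x in Q θ h m j, (Ex θ h s m f x - f x) * φ x ∂s
            = ∫ x in Q θ h m j, (avg θ h s f m j - f x) * φ x0 ∂s := by
          apply setIntegral_congr_fun (measurableSet_Q geo m j)
          intro x hx
          have h2 : Ex θ h s m f x = avg θ h s f m j := by
            unfold Ex
            rw [if_pos hx.2, hx.1]
          simp only [h2, hc j x hx x0 hx0]
        rw [h1, integral_mul_const, integral_sub (integrable_const _)
          (bdd_int_7116 s hf).integrableOn, setIntegral_const, smul_eq_mul]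
        have h3 := avg_mul_7116 θ h s f m j
        have h4 : s.real (Q θ h m j) = (s (Q θ h m j)).toReal := rfl
        rw [h4, mul_comm (s (Q θ h m j)).toReal, h3, sub_self, zero_mul]
    · intro j _
      exact hi3.indicator (measurableSet_Q geo m j)
  have h5 : ∫ x, (Ex θ h s m f x - f x) * φ x ∂s
      = ∫ x, Ex θ h s m f x * φ x ∂s - ∫ x, f x * φ x ∂s := by
    rw [← integral_sub hi1 hi2]
    congr 1
    funext x
    ring
  linarith

theorem ex_const_7116 {θ h : X → ℝ} (geo : Geo θ h) (s : Measure X) (f : X → ℝ) {n m : ℕ}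
    (hnm : n ≤ m) (j : ℕ) (x : X) (hx : x ∈ Q θ h m j) (y : X) (hy : y ∈ Q θ h m j) :
    Ex θ h s n f x = Ex θ h s n f y := by
  have hx' := Q_anti geo hnm j hx
  have hy' := Q_anti geo hnm j hy
  unfold Ex
  rw [if_pos hx'.2, if_pos hy'.2, hx'.1, hy'.1]

theorem bdd_ind_7116 {θ h : X → ℝ} (geo : Geo θ h) (n k : ℕ) :
    Bdd ((Q θ h n k).indicator (fun _ => (1:ℝ))) := by
  refine ⟨measurable_const.indicator (measurableSet_Q geo n k), 1, fun x => ?_⟩
  by_cases hx : x ∈ Q θ h n k
  · rw [indicator_of_mem hx]; simp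
  · rw [indicator_of_notMem hx]; simp

theorem ind_const_7116 {θ h : X → ℝ} (geo : Geo θ h) {n m : ℕ} (k : ℕ)
    (hnm : n ≤ m) (j : ℕ) (x : X) (hx : x ∈ Q θ h m j) (y : X) (hy : y ∈ Q θ h m j) :
    (Q θ h n k).indicator (fun _ => (1:ℝ)) x = (Q θ h n k).indicator (fun _ => (1:ℝ)) y := by
  have hx' := Q_anti geo hnm j hx
  have hy' := Q_anti geo hnm j hy
  by_cases hk : j / 2 ^ (m - n) = k
  · rw [hk] at hx' hy'
    rw [indicator_of_mem hx', indicator_of_mem hy']
  · rw [indicator_of_notMem, indicator_of_notMem]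
    · intro h1
      exact hk (hy'.1.symm.trans h1.1)
    · intro h1
      exact hk (hx'.1.symm.trans h1.1)

theorem integral_Dl {θ h : X → ℝ} (geo : Geo θ h) (s : Measure X) [IsFiniteMeasure s] {f : X → ℝ}
    (hf : Bdd f) (n k : ℕ) : ∫ x, Dl θ h s n k f x ∂s = 0 := by
  have hI := bdd_ind_7116 geo n k
  have h1 := ex_int_7116 geo s hf hI n (ind_const_7116 geo k le_rfl)
  have h2 := ex_int_7116 geo s hf hI (n + 1) (ind_const_7116 geo k (Nat.le_succ n))
  have h3 : ∀ x, Dl θ h s n k f x
      = Ex θ h s (n + 1) f x * (Q θ h n k).indicator (fun _ => (1:ℝ)) x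
        - Ex θ h s n f x * (Q θ h n k).indicator (fun _ => (1:ℝ)) x := by
    intro x
    unfold Dl
    by_cases hx : x ∈ Q θ h n k
    · rw [indicator_of_mem hx, indicator_of_mem hx]; ring
    · rw [indicator_of_notMem hx, indicator_of_notMem hx]; ring
  simp_rw [h3]
  rw [integral_sub (bdd_int_7116 s (bdd_mul_7116 (bdd_Ex geo s hf (n + 1)) hI))
    (bdd_int_7116 s (bdd_mul_7116 (bdd_Ex geo s hf n) hI)), h1, h2, sub_self]

theorem pyth (θ h : X → ℝ) (geo : Geo θ h) (s : Measure X) [IsFiniteMeasure s] (f : X → ℝ)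
    (hf : Bdd f) (N : ℕ) :
    ∑ n ∈ Finset.range N, ∑ k ∈ Finset.range (2 ^ n), ∫ x, Dl θ h s n k f x ^ 2 ∂s ≤
      ∫ x, f x ^ 2 ∂s := by
  classical
  have hstep : ∀ n, ∑ k ∈ Finset.range (2 ^ n), ∫ x, Dl θ h s n k f x ^ 2 ∂s
      = ∫ x, Ex θ h s (n + 1) f x * Ex θ h s (n + 1) f x ∂s
        - ∫ x, Ex θ h s n f x * Ex θ h s n f x ∂s := by
    intro n
    have hE := bdd_Ex geo s hf n
    have hE' := bdd_Ex geo s hf (n + 1)
    have hpt : ∀ x, ∑ k ∈ Finset.range (2 ^ n), Dl θ h s n k f x ^ 2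
        = (Ex θ h s (n + 1) f x - Ex θ h s n f x) * (Ex θ h s (n + 1) f x - Ex θ h s n f x) := by
      intro x
      by_cases hx : h x ≤ (1 / 2 : ℝ) ^ n
      · rw [Finset.sum_eq_single (col θ n x)]
        · unfold Dl
          rw [indicator_of_mem (show x ∈ Q θ h n (col θ n x) from ⟨rfl, hx⟩)]
          ring
        · intro j _ hj
          unfold Dl
          rw [indicator_of_notMem]
          · ring
          · intro hxj
            exact hj hxj.1.symm
        · intro hn
          exact absurd (Finset.mem_range.mpr (col_lt geo n x)) hn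
      · have hx' : ¬ h x ≤ (1 / 2 : ℝ) ^ (n + 1) := by
          intro h1
          apply hx
          refine h1.trans ?_
          exact pow_le_pow_of_le_one (by norm_num) (by norm_num) (Nat.le_succ n)
        have h1 : Ex θ h s n f x = f x := by unfold Ex; rw [if_neg hx]
        have h2 : Ex θ h s (n + 1) f x = f x := by unfold Ex; rw [if_neg hx']
        rw [h1, h2, sub_self, zero_mul]
        apply Finset.sum_eq_zero
        intro j _
        unfold Dl
        rw [indicator_of_notMem]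
        · ring
        · intro hxj
          exact hx hxj.2
    rw [← integral_finsetSum]
    · simp_rw [hpt]
      have h1 := ex_int_7116 geo s hf hE n (ex_const_7116 geo s f le_rfl)
      have h2 := ex_int_7116 geo s hf hE (n + 1) (ex_const_7116 geo s f (Nat.le_succ n))
      have hi1 := bdd_int_7116 s (bdd_mul_7116 hE hE)
      have hi2 := bdd_int_7116 s (bdd_mul_7116 hE' hE)
      have hi3 := bdd_int_7116 s (bdd_mul_7116 hE' hE')
      have h3 : ∫ x, (Ex θ h s (n + 1) f x - Ex θ h s n f x)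
          * (Ex θ h s (n + 1) f x - Ex θ h s n f x) ∂s
          = ∫ x, ((Ex θ h s (n + 1) f x * Ex θ h s (n + 1) f x
            - 2 * (Ex θ h s (n + 1) f x * Ex θ h s n f x)) + Ex θ h s n f x * Ex θ h s n f x) ∂s := by
        congr 1
        funext x
        ring
      have hi4 : Integrable (fun x => 2 * (Ex θ h s (n + 1) f x * Ex θ h s n f x)) s :=
        hi2.const_mul 2
      have hi5 : Integrable (fun x => Ex θ h s (n + 1) f x * Ex θ h s (n + 1) f x
            - 2 * (Ex θ h s (n + 1) f x * Ex θ h s n f x)) s := hi3.sub hi4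
      rw [h3, integral_add hi5 hi1, integral_sub hi3 hi4, integral_const_mul, h2, ← h1]
      ring
    · intro k _
      have := bdd_int_7116 s (bdd_mul_7116 (bdd_Dl geo s hf n k) (bdd_Dl geo s hf n k))
      simpa [sq] using this
  simp_rw [hstep]
  rw [Finset.sum_range_sub (fun n => ∫ x, Ex θ h s n f x * Ex θ h s n f x ∂s)]
  have hE := bdd_Ex geo s hf N
  have h1 := ex_int_7116 geo s hf hE N (ex_const_7116 geo s f le_rfl)
  have hi1 := bdd_int_7116 s (bdd_mul_7116 hE hE)
  have hi2 := bdd_int_7116 s (bdd_mul_7116 hf hE)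
  have hi3 := bdd_int_7116 s (bdd_mul_7116 hf hf)
  have hi4 : Integrable (fun x => 2 * (f x * Ex θ h s N f x)) s := hi2.const_mul 2
  have hi5 : Integrable (fun x => f x * f x - 2 * (f x * Ex θ h s N f x)) s := hi3.sub hi4
  have h2 : 0 ≤ ∫ x, (f x - Ex θ h s N f x) * (f x - Ex θ h s N f x) ∂s :=
    integral_nonneg fun x => mul_self_nonneg _
  have h3 : ∫ x, (f x - Ex θ h s N f x) * (f x - Ex θ h s N f x) ∂s
      = ∫ x, ((f x * f x - 2 * (f x * Ex θ h s N f x)) + Ex θ h s N f x * Ex θ h s N f x) ∂s := by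
    congr 1
    funext x
    ring
  rw [h3, integral_add hi5 hi1, integral_sub hi3 hi4, integral_const_mul, ← h1] at h2
  have h4 : 0 ≤ ∫ x, Ex θ h s 0 f x * Ex θ h s 0 f x ∂s :=
    integral_nonneg fun x => mul_self_nonneg _
  have h5 : ∫ x, f x ^ 2 ∂s = ∫ x, f x * f x ∂s := by
    congr 1
    funext x
    ring
  rw [h5]
  linarith

end

end Pool.Agent.Helper807.BT
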