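import Pool.Agent.Helper807.BT.Base
import Pool.Agent.Helper807.BT.Bas
import Pool.Agent.Helper807.BT.Geo1
import Pool.Agent.Helper807.BT.Pyth

set_option autoImplicit false

open MeasureTheory Set
open scoped ENNReal

namespace Pool.Agent.Helper807.BT

noncomputable section

variable {X : Type*} [MeasurableSpace X]


theorem pop_meas_7113 {θ h : X → ℝ} (geo : Geo θ h) (s : Measure X) [IsFiniteMeasure s]
    {φ : X → ℝ} (hφ : Integrable φ s) : StronglyMeasurable (Pop θ h s φ) := by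
  obtain ⟨ψ, hψ, hψφ⟩ := hφ.1
  have h1 : Pop θ h s φ = fun x => ∫ y, K θ h x y * ((ψ y : ℝ) : ℂ) ∂s := by
    funext x
    apply integral_congr_ae
    filter_upwards [hψφ] with y hy
    rw [hy]
  rw [h1]
  have h2 : StronglyMeasurable (fun p : X × X => K θ h p.1 p.2 * ((ψ p.2 : ℝ) : ℂ)) := by
    apply Measurable.stronglyMeasurable
    exact (measurable_K geo).mul (Complex.measurable_ofReal.comp
      (hψ.measurable.comp measurable_snd))
  exact h2.integral_prod_right'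

theorem K_int_7113 {θ h : X → ℝ} (geo : Geo θ h) (s : Measure X) [IsFiniteMeasure s]
    {φ : X → ℝ} (hφ : Integrable φ s) (x : X) :
    Integrable (fun y => K θ h x y * ((φ y : ℝ) : ℂ)) s := by
  have h1 : Integrable (fun y => ((φ y : ℝ) : ℂ)) s := hφ.ofReal (𝕜 := ℂ)
  have h2 : Measurable (fun y => K θ h x y) := by
    have h0 := measurable_K geo
    obtain ⟨k, hk⟩ : ∃ k : X × X → ℂ, k = fun p => K θ h p.1 p.2 := ⟨_, rfl⟩
    rw [← hk] at h0
    have h1 : (fun y => K θ h x y) = fun y => k (x, y) := by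
      funext y
      rw [hk]
    rw [h1]
    have h3 : Measurable (fun y : X => (x, y)) := measurable_prodMk_left
    exact h0.comp h3
  obtain ⟨k, hk⟩ : ∃ k : X → ℂ, k = fun y => K θ h x y := ⟨_, rfl⟩
  have h3 : ∀ y, ‖k y‖ ≤ ((h x) ^ 2)⁻¹ := by
    intro y
    rw [hk]
    exact norm_K_le_left geo x y
  rw [← hk] at h2
  have h4 : Integrable (fun y => k y * ((φ y : ℝ) : ℂ)) s := by
    refine (h1.norm.const_mul ((h x) ^ 2)⁻¹).mono' (h2.aestronglyMeasurable.mul h1.1) ?_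
    refine Filter.Eventually.of_forall fun y => ?_
    rw [norm_mul]
    exact mul_le_mul_of_nonneg_right (h3 y) (norm_nonneg _)
  rw [hk] at h4
  exact h4

theorem cs_7113 {w : Measure X} [IsFiniteMeasure w] {q : Set X} (hq : MeasurableSet q)
    {D : X → ℝ} (hD : Bdd D) (hsupp : ∀ x, x ∉ q → D x = 0) :
    ∫ x, |D x| ∂w ≤ Real.sqrt (w q).toReal * Real.sqrt (∫ x, D x ^ 2 ∂w) := by
  obtain ⟨hDm, C, hC⟩ := hD
  have h1 : ∀ x, |D x| = q.indicator (fun _ => (1 : ℝ)) x * |D x| := by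
    intro x
    by_cases hx : x ∈ q
    · rw [Set.indicator_of_mem hx, one_mul]
    · rw [hsupp x hx, abs_zero, mul_zero]
  have h2 := integral_mul_le_Lp_mul_Lq_of_nonneg (μ := w) Real.HolderConjugate.two_two
    (f := q.indicator (fun _ => (1 : ℝ))) (g := fun x => |D x|)
    (Filter.Eventually.of_forall fun x => Set.indicator_nonneg (fun _ _ => zero_le_one) x)
    (Filter.Eventually.of_forall fun x => abs_nonneg _)
    (MemLp.of_bound ((measurable_const.indicator hq).aestronglyMeasurable) 1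
      (Filter.Eventually.of_forall fun x => by
        rw [Real.norm_eq_abs, abs_of_nonneg (Set.indicator_nonneg (fun _ _ => zero_le_one) x)]
        exact Set.indicator_le_self' (fun _ _ => zero_le_one) x))
    (MemLp.of_bound (hDm.abs.aestronglyMeasurable) C
      (Filter.Eventually.of_forall fun x => by
        rw [Real.norm_eq_abs, abs_abs]; exact hC x))
  simp only [← h1] at h2
  refine h2.trans (le_of_eq ?_)
  have e1 : ∀ x, q.indicator (fun _ => (1 : ℝ)) x ^ (2 : ℝ) = q.indicator (fun _ => (1 : ℝ)) x := by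
    intro x
    by_cases hx : x ∈ q
    · rw [Set.indicator_of_mem hx]; simp
    · rw [Set.indicator_of_notMem hx]; simp
  have e2 : ∀ x, |D x| ^ (2 : ℝ) = D x ^ 2 := by
    intro x
    rw [Real.rpow_two, sq_abs]
  simp only [e1, e2]
  have e3 : ∫ a, q.indicator (fun _ => (1 : ℝ)) a ∂w = (w q).toReal := by
    rw [integral_indicator hq]
    simp [Measure.real]
  rw [e3, Real.sqrt_eq_rpow, Real.sqrt_eq_rpow]

theorem B_sep (θ h : X → ℝ) (geo : Geo θ h) (s w : Measure X) [IsFiniteMeasure s]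
    [IsFiniteMeasure w] (φ g : X → ℝ) (hφ : Integrable φ s) (hg : Bdd g) (n j : ℕ)
    (hj : j < 2 ^ n) (S : Set X) (hS : ∀ y, y ∉ S → φ y = 0) (δ : ℝ) (hδ : 0 < δ)
    (hsep : ∀ x ∈ Q θ h n j, ∀ y ∈ S, δ ≤ ‖den (θ x, h x) (θ y, h y)‖) :
    ‖Bf θ h s w φ (Dl θ h w n j g)‖ ≤
      16 * (1 / 2 : ℝ) ^ n / δ ^ 3 * (∫ y, |φ y| ∂s) * Real.sqrt (ms θ h w n j) *
        Real.sqrt (∫ x, Dl θ h w n j g x ^ 2 ∂w) := by
  obtain ⟨D, hDdef⟩ : ∃ D, D = Dl θ h w n j g := ⟨_, rfl⟩
  have hDb : Bdd D := by rw [hDdef]; exact bdd_Dl geo w hg n j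
  have hD0 : ∫ x, D x ∂w = 0 := by rw [hDdef]; exact integral_Dl geo w hg n j
  have hq : MeasurableSet (Q θ h n j) := measurableSet_Q geo n j
  have hsupp : ∀ x, x ∉ Q θ h n j → D x = 0 := by
    intro x hx
    rw [hDdef]
    exact Set.indicator_of_notMem hx _
  have hφ0 : 0 ≤ ∫ y, |φ y| ∂s := integral_nonneg fun _ => abs_nonneg _
  rw [← hDdef]
  rcases (Q θ h n j).eq_empty_or_nonempty with hemp | ⟨x₀, hx₀⟩
  · have hz : ∀ x, D x = 0 := fun x => hsupp x (by rw [hemp]; exact Set.notMem_empty x)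
    have : Bf θ h s w φ D = 0 := by
      unfold Bf
      simp [hz]
    rw [this, norm_zero]
    positivity
  obtain ⟨M, hM⟩ : ∃ M, M = 16 * (1 / 2 : ℝ) ^ n / δ ^ 3 := ⟨_, rfl⟩
  have hM0 : 0 ≤ M := by rw [hM]; positivity
  have h2n : (0 : ℝ) < 2 ^ n := by positivity
  have hhalf : (1 / 2 : ℝ) ^ n = 1 / 2 ^ n := by rw [div_pow, one_pow]
  have hcol : ∀ x ∈ Q θ h n j, (j : ℝ) ≤ 2 ^ n * θ x ∧ 2 ^ n * θ x < j + 1 := by
    intro x hx
    have h1 : ⌊(2 : ℝ) ^ n * θ x⌋₊ = j := hx.1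
    have h2 : 0 ≤ (2 : ℝ) ^ n * θ x := mul_nonneg h2n.le (geo.θ0 x)
    rw [Nat.floor_eq_iff h2] at h1
    exact h1
  -- kernel differences
  have hK : ∀ x ∈ Q θ h n j, ∀ y ∈ S, ‖K θ h x y - K θ h x₀ y‖ ≤ M := by
    intro x hx y hy
    have h1 := kap_sub_le (u := (θ x, h x)) (u' := (θ x₀, h x₀)) (v := (θ y, h y)) hδ
      (hsep x hx y hy) (hsep x₀ hx₀ y hy)
    have h2 := den_sub_le (u := (θ x, h x)) (u' := (θ x₀, h x₀)) (v := (θ y, h y))
      (geo.h0 x).le (geo.h1 x) (geo.h0 x₀).le (geo.h1 x₀) (geo.h0 y).le (geo.h1 y)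
    simp only at h2
    have h3 : |h x - h x₀| ≤ (1 / 2 : ℝ) ^ n := by
      rw [abs_le]
      have a1 := hx.2
      have a2 := hx₀.2
      have a3 := geo.h0 x
      have a4 := geo.h0 x₀
      constructor <;> linarith
    have h4 : nd (θ x - θ x₀) ≤ (1 / 2 : ℝ) ^ n := by
      have b1 : nd (θ x - θ x₀) ≤ |θ x - θ x₀| := by
        have := round_le (θ x - θ x₀) 0
        rw [Int.cast_zero, sub_zero] at this
        exact this
      refine b1.trans ?_
      obtain ⟨c1, c2⟩ := hcol x hx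
      obtain ⟨c3, c4⟩ := hcol x₀ hx₀
      have c5 : |θ x - θ x₀| * 2 ^ n = |2 ^ n * θ x - 2 ^ n * θ x₀| := by
        rw [← mul_sub, abs_mul, abs_of_pos h2n, mul_comm]
      rw [hhalf, le_div_iff₀ h2n, c5, abs_le]
      constructor <;> linarith
    have hpi : 2 * Real.pi ≤ 7 := by
      have := Real.pi_lt_d2
      linarith
    have hhp : 0 < (1 / 2 : ℝ) ^ n := by positivity
    have h5 : 2 * Real.pi * nd (θ x - θ x₀) ≤ 7 * (1 / 2 : ℝ) ^ n := by
      have hnd : 0 ≤ nd (θ x - θ x₀) := abs_nonneg _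
      exact mul_le_mul hpi h4 hnd (by norm_num)
    have h6 : ‖den (θ x, h x) (θ y, h y) - den (θ x₀, h x₀) (θ y, h y)‖ ≤
        8 * (1 / 2 : ℝ) ^ n := by linarith
    refine h1.trans ?_
    rw [hM]
    apply div_le_div_of_nonneg_right _ (by positivity)
    linarith
  have hdiff : ∀ x ∈ Q θ h n j, ‖Pop θ h s φ x - Pop θ h s φ x₀‖ ≤ M * ∫ y, |φ y| ∂s := by
    intro x hx
    unfold Pop
    rw [← integral_sub (K_int_7113 geo s hφ x) (K_int_7113 geo s hφ x₀), ← integral_const_mul]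
    apply norm_integral_le_of_norm_le (hφ.abs.const_mul M)
    refine Filter.Eventually.of_forall fun y => ?_
    rw [← sub_mul, norm_mul, Complex.norm_real, Real.norm_eq_abs]
    by_cases hy : y ∈ S
    · exact mul_le_mul_of_nonneg_right (hK x hx y hy) (abs_nonneg _)
    · rw [hS y hy, abs_zero, mul_zero, mul_zero]
  obtain ⟨hDm, C, hC⟩ := hDb
  have hDi : Integrable D w :=
    Integrable.of_bound hDm.aestronglyMeasurable C (Filter.Eventually.of_forall hC)
  have i1 : Integrable (fun x => Pop θ h s φ x * ((D x : ℝ) : ℂ)) w := by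
    refine (hDi.abs.const_mul (‖Pop θ h s φ x₀‖ + M * ∫ y, |φ y| ∂s)).mono' ?_ ?_
    · exact (pop_meas_7113 geo s hφ).aestronglyMeasurable.mul hDi.ofReal.1
    · refine Filter.Eventually.of_forall fun x => ?_
      rw [norm_mul, Complex.norm_real, Real.norm_eq_abs]
      by_cases hx : x ∈ Q θ h n j
      · apply mul_le_mul_of_nonneg_right _ (abs_nonneg _)
        have h1 := hdiff x hx
        have h2 := norm_sub_norm_le (Pop θ h s φ x) (Pop θ h s φ x₀)
        linarith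
      · rw [hsupp x hx, abs_zero, mul_zero, mul_zero]
  have i2 : Integrable (fun x => Pop θ h s φ x₀ * ((D x : ℝ) : ℂ)) w := hDi.ofReal.const_mul _
  have hBf : Bf θ h s w φ D = ∫ x, (Pop θ h s φ x - Pop θ h s φ x₀) * ((D x : ℝ) : ℂ) ∂w := by
    have h1 : ∫ x, Pop θ h s φ x₀ * ((D x : ℝ) : ℂ) ∂w = 0 := by
      rw [integral_const_mul, integral_complex_ofReal, hD0, Complex.ofReal_zero, mul_zero]
    unfold Bf
    simp only [sub_mul]
    rw [integral_sub i1 i2, h1, sub_zero]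
  rw [hBf]
  have h1 : ‖∫ x, (Pop θ h s φ x - Pop θ h s φ x₀) * ((D x : ℝ) : ℂ) ∂w‖ ≤
      ∫ x, (M * ∫ y, |φ y| ∂s) * |D x| ∂w := by
    apply norm_integral_le_of_norm_le (hDi.abs.const_mul _)
    refine Filter.Eventually.of_forall fun x => ?_
    rw [norm_mul, Complex.norm_real, Real.norm_eq_abs]
    by_cases hx : x ∈ Q θ h n j
    · exact mul_le_mul_of_nonneg_right (hdiff x hx) (abs_nonneg _)
    · rw [hsupp x hx, abs_zero, mul_zero, mul_zero]
  refine h1.trans ?_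
  rw [integral_const_mul, ← hM, mul_assoc (M * ∫ y, |φ y| ∂s)]
  apply mul_le_mul_of_nonneg_left _ (by positivity)
  exact cs_7113 hq ⟨hDm, C, hC⟩ hsupp

end

end Pool.Agent.Helper807.BT
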