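import Pool.Agent.Helper807.BT.Base
import Pool.Agent.Helper807.BT.Bas
import Pool.Agent.Helper807.BT.Pyth

set_option autoImplicit false

open MeasureTheory Set
open scoped ENNReal

namespace Pool.Agent.Helper807.BT

noncomputable section

variable {X : Type*} [MeasurableSpace X]


theorem bt7114_int (w : Measure X) [IsFiniteMeasure w] {f : X → ℝ} (hf : Bdd f) : Integrable f w := by
  obtain ⟨hm, C, hC⟩ := hf
  exact Integrable.of_bound hm.aestronglyMeasurable C (Filter.Eventually.of_forall hC)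

theorem bt7114_mul {f g : X → ℝ} (hf : Bdd f) (hg : Bdd g) : Bdd (fun x => f x * g x) := by
  obtain ⟨hm, C, hC⟩ := hf
  obtain ⟨hm', C', hC'⟩ := hg
  refine ⟨hm.mul hm', C * C', fun x => ?_⟩
  rw [abs_mul]
  exact mul_le_mul (hC x) (hC' x) (abs_nonneg _) ((abs_nonneg _).trans (hC x))

theorem bt7114_cmul (c : ℝ) {f : X → ℝ} (hf : Bdd f) : Bdd (fun x => c * f x) := by
  obtain ⟨hm, C, hC⟩ := hf
  refine ⟨hm.const_mul c, |c| * C, fun x => ?_⟩
  rw [abs_mul]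
  exact mul_le_mul_of_nonneg_left (hC x) (abs_nonneg _)

theorem bt7114_sum {ι : Type} (I : Finset ι) (f : ι → X → ℝ) (hf : ∀ i ∈ I, Bdd (f i)) :
    Bdd (fun x => ∑ i ∈ I, f i x) := by
  classical
  induction I using Finset.induction_on with
  | empty => exact ⟨by simp, 0, fun x => by simp⟩
  | insert a I ha ih =>
    obtain ⟨hm, C, hC⟩ := hf a (Finset.mem_insert_self _ _)
    obtain ⟨hm', C', hC'⟩ := ih (fun i hi => hf i (Finset.mem_insert_of_mem hi))
    have h1 : (fun x => ∑ i ∈ insert a I, f i x) = fun x => f a x + ∑ i ∈ I, f i x := by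
      funext x; rw [Finset.sum_insert ha]
    rw [h1]
    exact ⟨hm.add hm', C + C', fun x => (abs_add_le _ _).trans (add_le_add (hC x) (hC' x))⟩

theorem bt7114_const {θ h : X → ℝ} (geo : Geo θ h) (w : Measure X) (g : X → ℝ) (m j n i : ℕ)
    (hnm : n < m) : ∃ v : ℝ, ∀ x ∈ Q θ h m j, Dl θ h w n i g x = v := by
  classical
  refine ⟨if j / 2 ^ (m - n) = i then
    avg θ h w g (n + 1) (j / 2 ^ (m - (n + 1))) - avg θ h w g n (j / 2 ^ (m - n)) else 0, ?_⟩
  rintro x ⟨hx1, hx2⟩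
  have hcn : col θ n x = j / 2 ^ (m - n) := by rw [← hx1, col_div geo hnm.le x]
  have hcn1 : col θ (n + 1) x = j / 2 ^ (m - (n + 1)) := by
    rw [← hx1, col_div geo (show n + 1 ≤ m by omega) x]
  have hh1 : h x ≤ (1 / 2 : ℝ) ^ (n + 1) :=
    hx2.trans (pow_le_pow_of_le_one (by norm_num) (by norm_num) (by omega))
  have hh0 : h x ≤ (1 / 2 : ℝ) ^ n :=
    hx2.trans (pow_le_pow_of_le_one (by norm_num) (by norm_num) (by omega))
  unfold Dl
  by_cases hc : j / 2 ^ (m - n) = i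
  · rw [if_pos hc, Set.indicator_of_mem (show x ∈ Q θ h n i from ⟨by rw [hcn, hc], hh0⟩)]
    unfold Ex
    rw [if_pos hh1, if_pos hh0, hcn, hcn1]
  · rw [if_neg hc, Set.indicator_of_notMem]
    rintro ⟨h1, -⟩
    exact hc (by rw [← hcn, h1])

theorem bt7114_orth_lt {θ h : X → ℝ} (geo : Geo θ h) (w : Measure X) [IsFiniteMeasure w] {g : X → ℝ}
    (hg : Bdd g) (n i m j : ℕ) (hnm : n < m) :
    ∫ x, Dl θ h w n i g x * Dl θ h w m j g x ∂w = 0 := by
  obtain ⟨v, hv⟩ := bt7114_const geo w g m j n i hnm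
  have h1 : ∀ x, Dl θ h w n i g x * Dl θ h w m j g x = v * Dl θ h w m j g x := by
    intro x
    by_cases hx : x ∈ Q θ h m j
    · rw [hv x hx]
    · have : Dl θ h w m j g x = 0 := by
        unfold Dl
        exact Set.indicator_of_notMem hx _
      rw [this, mul_zero, mul_zero]
  simp_rw [h1]
  rw [integral_const_mul, integral_Dl geo w hg, mul_zero]

theorem bt7114_orth {θ h : X → ℝ} (geo : Geo θ h) (w : Measure X) [IsFiniteMeasure w] {g : X → ℝ}
    (hg : Bdd g) (p q : ℕ × ℕ) (hpq : p ≠ q) :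
    ∫ x, Dl θ h w p.1 p.2 g x * Dl θ h w q.1 q.2 g x ∂w = 0 := by
  rcases lt_trichotomy p.1 q.1 with h1 | h1 | h1
  · exact bt7114_orth_lt geo w hg _ _ _ _ h1
  · have h2 : p.2 ≠ q.2 := fun h3 => hpq (Prod.ext h1 h3)
    have h3 : ∀ x, Dl θ h w p.1 p.2 g x * Dl θ h w q.1 q.2 g x = 0 := by
      intro x
      by_cases hx : x ∈ Q θ h p.1 p.2
      · have hx' : x ∉ Q θ h q.1 q.2 := by
          rintro ⟨h4, -⟩
          apply h2
          rw [← hx.1, h1, h4]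
        have : Dl θ h w q.1 q.2 g x = 0 := by
          unfold Dl
          exact Set.indicator_of_notMem hx' _
        rw [this, mul_zero]
      · have : Dl θ h w p.1 p.2 g x = 0 := by
          unfold Dl
          exact Set.indicator_of_notMem hx _
        rw [this, zero_mul]
    simp_rw [h3]
    exact integral_zero _ _
  · have h2 := bt7114_orth_lt geo w hg q.1 q.2 p.1 p.2 h1
    rw [← h2]
    exact integral_congr_ae (Filter.Eventually.of_forall (fun x => mul_comm _ _))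

theorem bt7114_sq {θ h : X → ℝ} (geo : Geo θ h) (w : Measure X) [IsFiniteMeasure w] {g : X → ℝ}
    (hg : Bdd g) (I : Finset (ℕ × ℕ)) (c : ℕ × ℕ → ℝ) :
    ∫ x, (∑ p ∈ I, c p * Dl θ h w p.1 p.2 g x) ^ 2 ∂w =
      ∑ p ∈ I, c p ^ 2 * ∫ x, Dl θ h w p.1 p.2 g x ^ 2 ∂w := by
  classical
  have h1 : ∀ x, (∑ p ∈ I, c p * Dl θ h w p.1 p.2 g x) ^ 2 =
      ∑ p ∈ I, ∑ q ∈ I, (c p * c q) * (Dl θ h w p.1 p.2 g x * Dl θ h w q.1 q.2 g x) := by
    intro x
    rw [sq, Finset.sum_mul_sum]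
    refine Finset.sum_congr rfl (fun p _ => Finset.sum_congr rfl (fun q _ => ?_))
    ring
  have hb : ∀ p q : ℕ × ℕ, Integrable (fun x => (c p * c q) *
      (Dl θ h w p.1 p.2 g x * Dl θ h w q.1 q.2 g x)) w := fun p q =>
    bt7114_int w (bt7114_cmul _ (bt7114_mul (bdd_Dl geo w hg _ _) (bdd_Dl geo w hg _ _)))
  simp_rw [h1]
  rw [integral_finsetSum _ (fun p _ => integrable_finsetSum _ (fun q _ => hb p q))]
  refine Finset.sum_congr rfl (fun p hp => ?_)
  rw [integral_finsetSum _ (fun q _ => hb p q), Finset.sum_eq_single p]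
  · rw [integral_const_mul]
    congr 1
    · ring
    · exact integral_congr_ae (Filter.Eventually.of_forall (fun x => (sq _).symm))
  · intro q _ hqp
    rw [integral_const_mul, bt7114_orth geo w hg p q (fun h => hqp h.symm), mul_zero]
  · intro h2
    exact absurd hp h2

theorem bt7114_pop_meas {θ h : X → ℝ} (geo : Geo θ h) (s : Measure X) [IsFiniteMeasure s] {f : X → ℝ}
    (hf : Measurable f) : Measurable (Pop θ h s f) := by
  have h1 : Measurable (fun p : X × X => K θ h p.1 p.2 * ((f p.2 : ℝ) : ℂ)) :=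
    (measurable_K geo).mul (Complex.measurable_ofReal.comp (hf.comp measurable_snd))
  exact (h1.stronglyMeasurable.integral_prod_right').measurable

theorem bt7114_hold (w : Measure X) [IsFiniteMeasure w] (U : X → ℂ) (hU : Measurable U) (G : X → ℝ)
    (hG : Bdd G) (T : ℝ) (hT : 0 ≤ T) (hUT : ∫⁻ x, ‖U x‖ₑ ^ 2 ∂w ≤ ENNReal.ofReal T) :
    ∫⁻ x, ‖U x * ((G x : ℝ) : ℂ)‖ₑ ∂w ≤
      ENNReal.ofReal (Real.sqrt T * Real.sqrt (∫ x, G x ^ 2 ∂w)) := by
  have h1 := ENNReal.lintegral_mul_le_Lp_mul_Lq w (Real.HolderConjugate.two_two)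
    (f := fun x => ‖U x‖ₑ) (g := fun x => ‖G x‖ₑ) hU.enorm.aemeasurable hG.1.enorm.aemeasurable
  have h2 : ∀ x, ‖U x * ((G x : ℝ) : ℂ)‖ₑ = ((fun x => ‖U x‖ₑ) * fun x => ‖G x‖ₑ) x := by
    intro x
    rw [enorm_mul, Pi.mul_apply]
    congr 1
    rw [← ofReal_norm, ← ofReal_norm, Complex.norm_real]
  simp_rw [h2]
  refine h1.trans ?_
  rw [ENNReal.ofReal_mul (Real.sqrt_nonneg _)]
  have h3 : (∫⁻ a, ‖U a‖ₑ ^ (2 : ℝ) ∂w) ^ (1 / (2 : ℝ)) ≤ ENNReal.ofReal (Real.sqrt T) := by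
    rw [Real.sqrt_eq_rpow, ← ENNReal.ofReal_rpow_of_nonneg hT (by norm_num)]
    refine ENNReal.rpow_le_rpow ?_ (by norm_num)
    refine le_trans (le_of_eq ?_) hUT
    refine lintegral_congr (fun x => ?_)
    rw [← ENNReal.rpow_natCast]
    norm_num
  have h4 : (∫⁻ a, ‖G a‖ₑ ^ (2 : ℝ) ∂w) ^ (1 / (2 : ℝ)) ≤
      ENNReal.ofReal (Real.sqrt (∫ x, G x ^ 2 ∂w)) := by
    have hGi : Integrable (fun x => G x ^ 2) w := by
      have := bt7114_int w (bt7114_mul hG hG)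
      refine this.congr (Filter.Eventually.of_forall (fun x => ?_))
      show G x * G x = G x ^ 2
      ring
    rw [Real.sqrt_eq_rpow, ← ENNReal.ofReal_rpow_of_nonneg (integral_nonneg (fun x => sq_nonneg _)) (by norm_num),
      ofReal_integral_eq_lintegral_ofReal hGi (Filter.Eventually.of_forall (fun x => sq_nonneg _))]
    refine ENNReal.rpow_le_rpow (le_of_eq ?_) (by norm_num)
    refine lintegral_congr (fun x => ?_)
    have h5 : ‖G x‖ₑ ^ (2 : ℝ) = ‖G x‖ₑ ^ (2 : ℕ) := by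
      rw [← ENNReal.rpow_natCast]; norm_num
    rw [h5, ← ofReal_norm, ← ENNReal.ofReal_pow (norm_nonneg _), Real.norm_eq_abs, sq_abs]
  exact mul_le_mul' h3 h4

theorem B_test (θ h : X → ℝ) (geo : Geo θ h) (s w : Measure X) [IsFiniteMeasure s]
    [IsFiniteMeasure w] (C0 : ℝ) (hC : 0 ≤ C0) (hT : Testing θ h s w C0) (g : X → ℝ) (hg : Bdd g)
    (l k : ℕ) (hk : k < 2 ^ l) (I : Finset (ℕ × ℕ)) (hI : ∀ p ∈ I, p.2 < 2 ^ p.1)
    (c : ℕ × ℕ → ℝ) :
    ‖∑ p ∈ I, (c p : ℂ) * Bf θ h s w ((Q θ h l k).indicator 1) (Dl θ h w p.1 p.2 g)‖ ≤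
      Real.sqrt (C0 * ms θ h s l k) *
        Real.sqrt (∑ p ∈ I, c p ^ 2 * ∫ x, Dl θ h w p.1 p.2 g x ^ 2 ∂w) := by
  obtain ⟨U, hU⟩ : ∃ U : X → ℂ, U = Pop θ h s ((Q θ h l k).indicator 1) := ⟨_, rfl⟩
  have hUm : Measurable U := by
    rw [hU]
    exact bt7114_pop_meas geo s (measurable_one.indicator (measurableSet_Q geo l k))
  have hms : 0 ≤ ms θ h s l k := ENNReal.toReal_nonneg
  have hTT : 0 ≤ C0 * ms θ h s l k := mul_nonneg hC hms
  have hUT : ∫⁻ x, ‖U x‖ₑ ^ 2 ∂w ≤ ENNReal.ofReal (C0 * ms θ h s l k) := by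
    have h1 := hT ((k : ℝ) / 2 ^ l) ((1 / 2 : ℝ) ^ l) (by positivity)
      (pow_le_one₀ (by norm_num) (by norm_num))
    rw [← Q_eq_arcBox geo l k hk] at h1
    rw [hU, ENNReal.ofReal_mul hC]
    refine h1.trans (le_of_eq ?_)
    congr 1
    exact (ENNReal.ofReal_toReal (measure_ne_top s _)).symm
  have hDint : ∀ p : ℕ × ℕ, Integrable (fun x => U x * ((Dl θ h w p.1 p.2 g x : ℝ) : ℂ)) w := by
    intro p
    refine ⟨?_, ?_⟩
    · exact (hUm.mul (Complex.measurable_ofReal.comp (bdd_Dl geo w hg p.1 p.2).1)).aestronglyMeasurable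
    · refine lt_of_le_of_lt (bt7114_hold w U hUm _ (bdd_Dl geo w hg p.1 p.2) _ hTT hUT) ENNReal.ofReal_lt_top
  have hsum : ∑ p ∈ I, (c p : ℂ) * Bf θ h s w ((Q θ h l k).indicator 1) (Dl θ h w p.1 p.2 g) =
      ∫ x, U x * (((∑ p ∈ I, c p * Dl θ h w p.1 p.2 g x : ℝ)) : ℂ) ∂w := by
    have h1 : ∀ x, U x * (((∑ p ∈ I, c p * Dl θ h w p.1 p.2 g x : ℝ)) : ℂ) =
        ∑ p ∈ I, (c p : ℂ) * (U x * ((Dl θ h w p.1 p.2 g x : ℝ) : ℂ)) := by
      intro x
      push_cast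
      rw [Finset.mul_sum]
      refine Finset.sum_congr rfl (fun p _ => ?_)
      ring
    simp_rw [h1]
    rw [integral_finsetSum _ (fun p _ => (hDint p).const_mul _)]
    refine Finset.sum_congr rfl (fun p _ => ?_)
    rw [integral_const_mul, hU]
    rfl
  have hGb : Bdd (fun x => ∑ p ∈ I, c p * Dl θ h w p.1 p.2 g x) :=
    bt7114_sum I (fun p x => c p * Dl θ h w p.1 p.2 g x)
      (fun p _ => bt7114_cmul _ (bdd_Dl geo w hg _ _))
  rw [hsum, ← bt7114_sq geo w hg I c]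
  have h2 := (enorm_integral_le_lintegral_enorm
    (fun x => U x * (((∑ p ∈ I, c p * Dl θ h w p.1 p.2 g x : ℝ)) : ℂ)) (μ := w)).trans
    (bt7114_hold w U hUm _ hGb _ hTT hUT)
  rw [← ofReal_norm, ENNReal.ofReal_le_ofReal_iff (by positivity)] at h2
  exact h2

end

end Pool.Agent.Helper807.BT
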