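import Mathlib

set_option autoImplicit false

open MeasureTheory Set
open scoped ENNReal

namespace Pool.Agent.Helper807.BT

noncomputable section

/-- `1 - z * conj w` for `z = (1-u.2) e^{2 pi i u.1}` and `w = (1-v.2) e^{2 pi i v.1}`. -/
def den (u v : ℝ × ℝ) : ℂ :=
  1 - (((1 - u.2) * (1 - v.2) : ℝ) : ℂ) *
    Complex.exp (((2 * Real.pi * (u.1 - v.1) : ℝ) : ℂ) * Complex.I)

/-- the Bergman kernel in the coordinates (angle, height) -/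
def kap (u v : ℝ × ℝ) : ℂ := ((den u v) ^ 2)⁻¹

/-- distance to the nearest integer -/
def nd (t : ℝ) : ℝ := |t - round t|

variable {X : Type*}

/-- kernel on `X` with angle function `θ` and height function `h` -/
def K (θ h : X → ℝ) (x y : X) : ℂ := kap (θ x, h x) (θ y, h y)

/-- Carleson box over the arc `[a, a+l)` -/
def arcBox (θ h : X → ℝ) (a l : ℝ) : Set X := {x | Int.fract (θ x - a) < l ∧ h x ≤ l}

structure Geo [MeasurableSpace X] (θ h : X → ℝ) : Prop where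
  mθ : Measurable θ
  mh : Measurable h
  θ0 : ∀ x, 0 ≤ θ x
  θ1 : ∀ x, θ x < 1
  h0 : ∀ x, 0 < h x
  h1 : ∀ x, h x ≤ 1

/-- the operator `f ↦ ∫ K(x,y) f(y) ds(y)` -/
def Pop [MeasurableSpace X] (θ h : X → ℝ) (s : Measure X) (f : X → ℝ) (x : X) : ℂ :=
  ∫ y, K θ h x y * ((f y : ℝ) : ℂ) ∂s

/-- the bilinear form -/
def Bf [MeasurableSpace X] (θ h : X → ℝ) (s w : Measure X) (f g : X → ℝ) : ℂ :=
  ∫ x, Pop θ h s f x * ((g x : ℝ) : ℂ) ∂w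

/-- testing on all boxes -/
def Testing [MeasurableSpace X] (θ h : X → ℝ) (s w : Measure X) (C : ℝ) : Prop :=
  ∀ a l : ℝ, 0 < l → l ≤ 1 →
    ∫⁻ x, ‖Pop θ h s ((arcBox θ h a l).indicator 1) x‖ₑ ^ 2 ∂w ≤
      ENNReal.ofReal C * s (arcBox θ h a l)

/-- index of the dyadic column of level `n` -/
def col (θ : X → ℝ) (n : ℕ) (x : X) : ℕ := ⌊(2 : ℝ) ^ n * θ x⌋₊

/-- dyadic Carleson boxes -/
def Q (θ h : X → ℝ) (n k : ℕ) : Set X := {x | col θ n x = k ∧ h x ≤ (1 / 2 : ℝ) ^ n}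

/-- the part of a dyadic box far away from its vertical sides -/
def Gd (θ h : X → ℝ) (n k : ℕ) : Set X :=
  {x | x ∈ Q θ h n k ∧ 8 * h x ≤ θ x - (k : ℝ) / 2 ^ n ∧ 8 * h x ≤ ((k : ℝ) + 1) / 2 ^ n - θ x}

/-- neighbouring indices at level `n` (cyclically) -/
def near (n a b : ℕ) : Prop :=
  a = b ∨ a + 1 = b ∨ b + 1 = a ∨ (a = 0 ∧ b + 1 = 2 ^ n) ∨ (b = 0 ∧ a + 1 = 2 ^ n)

instance (n a b : ℕ) : Decidable (near n a b) := by unfold near; infer_instance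

/-- goodness of the index `j` at level `n` -/
def good (r n j : ℕ) : Prop :=
  ∀ i, r ≤ i → i ≤ n → 2 ^ (i - i / 4) ≤ j % 2 ^ i ∧ j % 2 ^ i + 1 + 2 ^ (i - i / 4) ≤ 2 ^ i

instance (r n j : ℕ) : Decidable (good r n j) := Classical.dec _

/-- average of `f` over the box `Q n k` -/
def avg [MeasurableSpace X] (θ h : X → ℝ) (s : Measure X) (f : X → ℝ) (n k : ℕ) : ℝ :=
  (∫ y in Q θ h n k, f y ∂s) / (s (Q θ h n k)).toReal

/-- conditional expectation of level `n` -/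
def Ex [MeasurableSpace X] (θ h : X → ℝ) (s : Measure X) (n : ℕ) (f : X → ℝ) (x : X) : ℝ :=
  if h x ≤ (1 / 2 : ℝ) ^ n then avg θ h s f n (col θ n x) else f x

/-- martingale difference at the box `Q n k` -/
def Dl [MeasurableSpace X] (θ h : X → ℝ) (s : Measure X) (n k : ℕ) (f : X → ℝ) (x : X) : ℝ :=
  (Q θ h n k).indicator (fun y => Ex θ h s (n + 1) f y - Ex θ h s n f y) x

/-- numerical mass of a box -/
def ms [MeasurableSpace X] (θ h : X → ℝ) (s : Measure X) (n k : ℕ) : ℝ := (s (Q θ h n k)).toReal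

/-- `sum 4^t (s(Q_{t-1}) - s(Q_t))` along the chain from the box `(l,k)` up to its ancestor of
level `g` -/
def PG [MeasurableSpace X] (θ h : X → ℝ) (s : Measure X) (g l k : ℕ) : ℝ :=
  ∑ t ∈ Finset.Ioc g l, (4 : ℝ) ^ t *
    (ms θ h s (t - 1) (k / 2 ^ (l - t + 1)) - ms θ h s t (k / 2 ^ (l - t)))

/-- `A_2` condition on all boxes -/
def A2 [MeasurableSpace X] (θ h : X → ℝ) (s w : Measure X) (A : ℝ) : Prop :=
  ∀ a l : ℝ, 0 < l → l ≤ 1 →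
    (s (arcBox θ h a l)).toReal * (w (arcBox θ h a l)).toReal ≤ A * l ^ 4

/-- all the hypotheses -/
structure Hyp [MeasurableSpace X] (θ h : X → ℝ) (s w : Measure X) (C0 A : ℝ) : Prop where
  geo : Geo θ h
  tst : Testing θ h s w C0
  a2 : A2 θ h s w A

/-- bounded measurable functions -/
def Bdd [MeasurableSpace X] (f : X → ℝ) : Prop := Measurable f ∧ ∃ C, ∀ x, |f x| ≤ C

/-- largest level at which the ancestors are neighbours -/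
def lam (n j m k : ℕ) : ℕ :=
  Nat.findGreatest (fun l => near l (k / 2 ^ (m - l)) (j / 2 ^ (n - l))) m

/-- rotated angle function -/
def rot (θ : X → ℝ) (τ : ℝ) (x : X) : ℝ := Int.fract (θ x + τ)

/-- functions which are constant on the boxes of level `N` -/
def LowConst (θ h : X → ℝ) (N : ℕ) (φ : X → ℝ) : Prop :=
  ∀ x y, h x ≤ (1 / 2 : ℝ) ^ N → h y ≤ (1 / 2 : ℝ) ^ N → col θ N x = col θ N y → φ x = φ y

/-- abstract version of `PG` -/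
def PGa (S : ℕ → ℕ → ℝ) (g l k : ℕ) : ℝ :=
  ∑ t ∈ Finset.Ioc g l, (4 : ℝ) ^ t * (S (t - 1) (k / 2 ^ (l - t + 1)) - S t (k / 2 ^ (l - t)))

/-- masses on the dyadic tree -/
structure Tree (S F1 F2 Wo : ℕ → ℕ → ℝ) : Prop where
  S0 : ∀ l k, 0 ≤ S l k
  F10 : ∀ l k, 0 ≤ F1 l k
  F20 : ∀ l k, 0 ≤ F2 l k
  Wo0 : ∀ l k, 0 ≤ Wo l k
  Ssub : ∀ l k, S (l + 1) (2 * k) + S (l + 1) (2 * k + 1) ≤ S l k
  F1sub : ∀ l k, F1 (l + 1) (2 * k) + F1 (l + 1) (2 * k + 1) ≤ F1 l k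
  F2sub : ∀ l k, F2 (l + 1) (2 * k) + F2 (l + 1) (2 * k + 1) ≤ F2 l k
  CS : ∀ l k, F1 l k ^ 2 ≤ S l k * F2 l k
  CST : ∀ l k, (F1 l k - F1 (l + 1) (2 * k) - F1 (l + 1) (2 * k + 1)) ^ 2 ≤
    (S l k - S (l + 1) (2 * k) - S (l + 1) (2 * k + 1)) *
      (F2 l k - F2 (l + 1) (2 * k) - F2 (l + 1) (2 * k + 1))

/-- abstract pivotal condition -/
def Piv (S Wo : ℕ → ℕ → ℝ) (CP : ℝ) : Prop :=
  ∀ g k : ℕ, 4 ≤ g → k < 2 ^ g → ∀ F : Finset (ℕ × ℕ),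
    (∀ p ∈ F, g ≤ p.1 ∧ p.2 / 2 ^ (p.1 - g) = k) →
    (∀ p ∈ F, ∀ q ∈ F, p ≠ q → ¬ (p.1 ≤ q.1 ∧ q.2 / 2 ^ (q.1 - p.1) = p.2)) →
    ∑ p ∈ F, Wo p.1 p.2 * PGa S g p.1 p.2 ^ 2 ≤ CP * S g k

end

end Pool.Agent.Helper807.BT
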