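import Pool.Agent.Helper807.BT.Base

set_option autoImplicit false

open MeasureTheory Set
open scoped ENNReal

namespace Pool.Agent.Helper807.BT

noncomputable section

variable {X : Type*} [MeasurableSpace X]


theorem bad_card_7127 (n i T : ℕ) (hi : i ≤ n) :
    ((Finset.range (2 ^ n)).filter (fun j => j % 2 ^ i < T ∨ 2 ^ i < j % 2 ^ i + 1 + T)).card ≤
      2 ^ (n - i) * (2 * T) := by
  classical
  have h1 : ((Finset.range (2 ^ n)).filter
      (fun j => j % 2 ^ i < T ∨ 2 ^ i < j % 2 ^ i + 1 + T)).card ≤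
      (Finset.range (2 ^ (n - i)) ×ˢ (Finset.range T ∪ Finset.Ico (2 ^ i - T) (2 ^ i))).card := by
    refine Finset.card_le_card_of_injOn (fun j => (j / 2 ^ i, j % 2 ^ i)) ?_ ?_
    · intro j hj
      rw [Finset.mem_coe, Finset.mem_filter, Finset.mem_range] at hj
      rw [Finset.mem_coe, Finset.mem_product, Finset.mem_range, Finset.mem_union, Finset.mem_range,
        Finset.mem_Ico]
      have hlt : j % 2 ^ i < 2 ^ i := Nat.mod_lt _ (by positivity)
      refine ⟨?_, ?_⟩
      · show j / 2 ^ i < 2 ^ (n - i)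
        rw [Nat.div_lt_iff_lt_mul (by positivity), ← pow_add, Nat.sub_add_cancel hi]
        exact hj.1
      · show j % 2 ^ i < T ∨ 2 ^ i - T ≤ j % 2 ^ i ∧ j % 2 ^ i < 2 ^ i
        rcases hj.2 with h | h
        · exact Or.inl h
        · right
          exact ⟨by omega, hlt⟩
    · intro a _ b _ hab
      have h2 : a / 2 ^ i = b / 2 ^ i := congrArg Prod.fst hab
      have h3 : a % 2 ^ i = b % 2 ^ i := congrArg Prod.snd hab
      rw [← Nat.div_add_mod a (2 ^ i), h2, h3, Nat.div_add_mod]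
  refine h1.trans ?_
  rw [Finset.card_product, Finset.card_range]
  refine Nat.mul_le_mul_left _ ((Finset.card_union_le _ _).trans ?_)
  rw [Finset.card_range, Nat.card_Ico]
  omega

theorem sum_7127 (N : ℕ) (hN : 24 ≤ N) :
    ∑ i ∈ Finset.Ico 24 N, (1 / 2 : ℝ) ^ (i / 4) + (8 - (N % 4 : ℕ)) * (1 / 2 : ℝ) ^ (N / 4) = 1 / 8 := by
  induction N, hN using Nat.le_induction with
  | base => norm_num
  | succ N hN ih =>
    rw [Finset.sum_Ico_succ_top hN]
    rw [← ih]
    have h4 : N % 4 < 4 := Nat.mod_lt _ (by norm_num)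
    rcases Nat.lt_or_ge (N % 4) 3 with h | h
    · have e1 : (N + 1) / 4 = N / 4 := by omega
      have e2 : (N + 1) % 4 = N % 4 + 1 := by omega
      rw [e1, e2]
      push_cast
      ring
    · have e1 : (N + 1) / 4 = N / 4 + 1 := by omega
      have e2 : (N + 1) % 4 = 0 := by omega
      have e3 : N % 4 = 3 := by omega
      rw [e1, e2, e3, pow_succ]
      push_cast
      ring

theorem good_count (n : ℕ) :
    2 ^ n ≤ 2 * ((Finset.range (2 ^ n)).filter (fun j => good 24 n j)).card := by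
  classical
  have hsplit := Finset.card_filter_add_card_filter_not (s := Finset.range (2 ^ n))
    (p := fun j => good 24 n j)
  rw [Finset.card_range] at hsplit
  have hbad : ((Finset.range (2 ^ n)).filter (fun j => ¬ good 24 n j)).card ≤
      ∑ i ∈ Finset.Ico 24 (n + 1), 2 ^ (n - i) * (2 * 2 ^ (i - i / 4)) := by
    have hsub : (Finset.range (2 ^ n)).filter (fun j => ¬ good 24 n j) ⊆
        (Finset.Ico 24 (n + 1)).biUnion (fun i => (Finset.range (2 ^ n)).filter
          (fun j => j % 2 ^ i < 2 ^ (i - i / 4) ∨ 2 ^ i < j % 2 ^ i + 1 + 2 ^ (i - i / 4))) := by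
      intro j hj
      rw [Finset.mem_filter] at hj
      obtain ⟨hj1, hj2⟩ := hj
      unfold good at hj2
      push Not at hj2
      obtain ⟨i, h1, h2, h3⟩ := hj2
      rw [Finset.mem_biUnion]
      refine ⟨i, Finset.mem_Ico.2 ⟨h1, by omega⟩, ?_⟩
      rw [Finset.mem_filter]
      refine ⟨hj1, ?_⟩
      by_cases h4 : j % 2 ^ i < 2 ^ (i - i / 4)
      · exact Or.inl h4
      · exact Or.inr (h3 (not_lt.1 h4))
    refine (Finset.card_le_card hsub).trans (Finset.card_biUnion_le.trans ?_)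
    refine Finset.sum_le_sum fun i hi => ?_
    rw [Finset.mem_Ico] at hi
    exact bad_card_7127 n i _ (by omega)
  have hbad2 : (((Finset.range (2 ^ n)).filter (fun j => ¬ good 24 n j)).card : ℝ) ≤ 2 ^ n / 4 := by
    have h1 : (((Finset.range (2 ^ n)).filter (fun j => ¬ good 24 n j)).card : ℝ) ≤
        ∑ i ∈ Finset.Ico 24 (n + 1), (2 : ℝ) ^ (n - i) * (2 * 2 ^ (i - i / 4)) := by
      exact_mod_cast hbad
    refine h1.trans ?_
    have h2 : ∑ i ∈ Finset.Ico 24 (n + 1), (2 : ℝ) ^ (n - i) * (2 * 2 ^ (i - i / 4)) =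
        2 ^ (n + 1) * ∑ i ∈ Finset.Ico 24 (n + 1), (1 / 2 : ℝ) ^ (i / 4) := by
      rw [Finset.mul_sum]
      refine Finset.sum_congr rfl fun i hi => ?_
      rw [Finset.mem_Ico] at hi
      have e : (2 : ℝ) ^ (n - i) * 2 ^ (i - i / 4) * 2 ^ (i / 4) = 2 ^ n := by
        rw [← pow_add, ← pow_add]
        congr 1
        omega
      rw [one_div, inv_pow, ← div_eq_mul_inv, eq_div_iff (by positivity)]
      rw [pow_succ, ← e]
      ring
    rw [h2]
    rcases Nat.lt_or_ge n 24 with hn | hn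
    · rw [Finset.Ico_eq_empty (by omega), Finset.sum_empty, mul_zero]
      positivity
    · have h3 := sum_7127 (n + 1) (by omega)
      have h4 : (0 : ℝ) ≤ (8 - ((n + 1) % 4 : ℕ)) * (1 / 2 : ℝ) ^ ((n + 1) / 4) := by
        have h5 : (n + 1) % 4 < 4 := Nat.mod_lt _ (by norm_num)
        have h6 : (((n + 1) % 4 : ℕ) : ℝ) < 4 := by exact_mod_cast h5
        exact mul_nonneg (by linarith) (by positivity)
      have h5 : ∑ i ∈ Finset.Ico 24 (n + 1), (1 / 2 : ℝ) ^ (i / 4) ≤ 1 / 8 := by linarith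
      calc (2 : ℝ) ^ (n + 1) * ∑ i ∈ Finset.Ico 24 (n + 1), (1 / 2 : ℝ) ^ (i / 4)
          ≤ 2 ^ (n + 1) * (1 / 8) := mul_le_mul_of_nonneg_left h5 (by positivity)
        _ = 2 ^ n / 4 := by rw [pow_succ]; ring
  have hs : (((Finset.range (2 ^ n)).filter (fun j => good 24 n j)).card : ℝ) +
      (((Finset.range (2 ^ n)).filter (fun j => ¬ good 24 n j)).card : ℝ) = 2 ^ n := by
    exact_mod_cast hsplit
  have hpos : (0 : ℝ) < 2 ^ n := by positivity
  have hfin : (2 : ℝ) ^ n ≤ 2 * (((Finset.range (2 ^ n)).filter (fun j => good 24 n j)).card : ℝ) := by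
    linarith
  exact_mod_cast hfin

end

end Pool.Agent.Helper807.BT
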