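import Mathlib

set_option autoImplicit false

open MeasureTheory
open scoped ENNReal

namespace Pool.Agent.Helper807.BT

noncomputable section

/-- Normalised area measure `dA` on the open unit disc of `ℂ`. -/
def areaD : Measure ℂ :=
  ENNReal.ofReal (1 / Real.pi) • (volume.restrict (Metric.ball (0 : ℂ) 1))

/-- The Bergman projection `P_B F (z) = ∫_D F(ζ) / (1 - z conj ζ)^2 dA(ζ)`
(which is its own adjoint). -/
def bergP (F : ℂ → ℂ) (z : ℂ) : ℂ :=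
  ∫ ζ, F ζ / (1 - z * (starRingEnd ℂ) ζ) ^ 2 ∂areaD

/-- The integral defining `P_B F (z)` converges absolutely for every `z` in the disc. -/
def BergDefined (F : ℂ → ℂ) : Prop :=
  ∀ z : ℂ, ‖z‖ < 1 → Integrable (fun ζ => F ζ / (1 - z * (starRingEnd ℂ) ζ) ^ 2) areaD

/-- A weight: positive and locally integrable on the open unit disc. -/
structure IsWeight (v : ℂ → ℝ) : Prop where
  pos : ∀ z : ℂ, ‖z‖ < 1 → 0 < v z
  loc : LocallyIntegrableOn v (Metric.ball (0 : ℂ) 1) volume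

/-- The norm of `F` in `L^2(D, v)`, as an extended nonnegative real. -/
def normL2 (v : ℂ → ℝ) (F : ℂ → ℂ) : ℝ≥0∞ :=
  (∫⁻ z, ‖F z‖ₑ ^ 2 * ENNReal.ofReal (v z) ∂areaD) ^ (1 / 2 : ℝ)

/-- The mass `v(E)`. -/
def mass (v : ℂ → ℝ) (E : Set ℂ) : ℝ≥0∞ := ∫⁻ z in E, ENNReal.ofReal (v z) ∂areaD

/-- `I` is an arc of the unit circle of normalised length `l`; its end points may or may not
belong to it. -/
def IsArc (I : Set ℂ) (l : ℝ) : Prop :=
  0 < l ∧ l ≤ 1 ∧ ∃ a : ℝ,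
    (∀ t : ℝ, a < t → t < a + l → Complex.exp (2 * Real.pi * t * Complex.I) ∈ I) ∧
    (∀ z ∈ I, ∃ t : ℝ, a ≤ t ∧ t ≤ a + l ∧ z = Complex.exp (2 * Real.pi * t * Complex.I))

/-- The Carleson box over an arc `I` of normalised length `l`. -/
def carlesonBox (I : Set ℂ) (l : ℝ) : Set ℂ :=
  {z | ‖z‖ < 1 ∧ z ≠ 0 ∧ z / (‖z‖ : ℂ) ∈ I ∧ 1 - ‖z‖ ≤ l}

/-- Condition (B): `f ↦ P_B(σ f)` is (well defined and) bounded from `L^2(D,σ)` to
`L^2(D,w)`. -/
def CondB (w σ : ℂ → ℝ) : Prop :=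
  ∃ C : ℝ, ∀ f : ℂ → ℂ, AEStronglyMeasurable f areaD → normL2 σ f < ∞ →
    BergDefined (fun ζ => (σ ζ : ℂ) * f ζ) ∧
    normL2 w (bergP (fun ζ => (σ ζ : ℂ) * f ζ)) ≤ ENNReal.ofReal C * normL2 σ f

/-- Condition (T): both testing inequalities on the Carleson boxes of all arcs (in particular
`P_B (1_Q σ)` and `P_B (1_Q w)` are well defined). -/
def CondT (w σ : ℂ → ℝ) : Prop :=
  ∃ C0 : ℝ, ∀ (I : Set ℂ) (l : ℝ), IsArc I l →
    (BergDefined ((carlesonBox I l).indicator (fun ζ => (σ ζ : ℂ))) ∧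
      normL2 w (bergP ((carlesonBox I l).indicator (fun ζ => (σ ζ : ℂ)))) ≤
        ENNReal.ofReal C0 * mass σ (carlesonBox I l) ^ (1 / 2 : ℝ)) ∧
    (BergDefined ((carlesonBox I l).indicator (fun ζ => (w ζ : ℂ))) ∧
      normL2 σ (bergP ((carlesonBox I l).indicator (fun ζ => (w ζ : ℂ)))) ≤
        ENNReal.ofReal C0 * mass w (carlesonBox I l) ^ (1 / 2 : ℝ))

end

end Pool.Agent.Helper807.BT
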