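import Pool.Agent.Helper807.BT.Base

set_option autoImplicit false

open MeasureTheory Set
open scoped ENNReal

namespace Pool.Agent.Helper807.BT

noncomputable section

variable {X : Type*} [MeasurableSpace X]


omit [MeasurableSpace X] in
theorem fs_schur_7119 (s t : Finset ℕ) (c : ℕ → ℕ → ℝ) (hc : ∀ a b, 0 ≤ c a b) {R : ℝ}
    (hR : 0 ≤ R) (h1 : ∀ a ∈ s, ∑ b ∈ t, c a b ≤ R) (h2 : ∀ b ∈ t, ∑ a ∈ s, c a b ≤ R)
    (p q : ℕ → ℝ) :
    ∑ a ∈ s, ∑ b ∈ t, c a b * (p a * q b) ≤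
      R * Real.sqrt (∑ a ∈ s, p a ^ 2) * Real.sqrt (∑ b ∈ t, q b ^ 2) := by
  rw [← Finset.sum_product' s t (fun a b => c a b * (p a * q b))]
  have e1 : ∀ z : ℕ × ℕ, c z.1 z.2 * (p z.1 * q z.2)
      = (Real.sqrt (c z.1 z.2) * p z.1) * (Real.sqrt (c z.1 z.2) * q z.2) := by
    intro z
    have := Real.mul_self_sqrt (hc z.1 z.2)
    linear_combination (-(p z.1 * q z.2)) * this
  rw [Finset.sum_congr rfl (fun z _ => e1 z)]
  refine (Real.sum_mul_le_sqrt_mul_sqrt _ _ _).trans ?_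
  have e2 : ∑ z ∈ s ×ˢ t, (Real.sqrt (c z.1 z.2) * p z.1) ^ 2 ≤ R * ∑ a ∈ s, p a ^ 2 := by
    rw [Finset.sum_product' s t (fun a b => (Real.sqrt (c a b) * p a) ^ 2), Finset.mul_sum]
    refine Finset.sum_le_sum (fun a ha => ?_)
    have : ∑ b ∈ t, (Real.sqrt (c a b) * p a) ^ 2 = (∑ b ∈ t, c a b) * p a ^ 2 := by
      rw [Finset.sum_mul]
      refine Finset.sum_congr rfl (fun b _ => ?_)
      rw [mul_pow, Real.sq_sqrt (hc a b)]
    rw [this]
    exact mul_le_mul_of_nonneg_right (h1 a ha) (sq_nonneg _)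
  have e3 : ∑ z ∈ s ×ˢ t, (Real.sqrt (c z.1 z.2) * q z.2) ^ 2 ≤ R * ∑ b ∈ t, q b ^ 2 := by
    rw [Finset.sum_product' s t (fun a b => (Real.sqrt (c a b) * q b) ^ 2), Finset.sum_comm,
      Finset.mul_sum]
    refine Finset.sum_le_sum (fun b hb => ?_)
    have : ∑ a ∈ s, (Real.sqrt (c a b) * q b) ^ 2 = (∑ a ∈ s, c a b) * q b ^ 2 := by
      rw [Finset.sum_mul]
      refine Finset.sum_congr rfl (fun a _ => ?_)
      rw [mul_pow, Real.sq_sqrt (hc a b)]
    rw [this]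
    exact mul_le_mul_of_nonneg_right (h2 b hb) (sq_nonneg _)
  refine (mul_le_mul (Real.sqrt_le_sqrt e2) (Real.sqrt_le_sqrt e3) (Real.sqrt_nonneg _)
    (Real.sqrt_nonneg _)).trans (le_of_eq ?_)
  rw [Real.sqrt_mul hR, Real.sqrt_mul hR]
  have := Real.mul_self_sqrt hR
  linear_combination (Real.sqrt (∑ a ∈ s, p a ^ 2) * Real.sqrt (∑ b ∈ t, q b ^ 2)) * this

omit [MeasurableSpace X] in
theorem fs_near_card_7119 (l a : ℕ) (t : Finset ℕ) :
    ∑ b ∈ t, (if near l a b then (1 : ℝ) else 0) ≤ 5 := by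
  rw [← Finset.sum_filter, Finset.sum_const, nsmul_eq_mul, mul_one]
  have h1 : t.filter (fun b => near l a b) ⊆ {a, a + 1, a - 1, 2 ^ l - 1, 0} := by
    intro b hb
    rw [Finset.mem_filter] at hb
    have := hb.2
    unfold near at this
    simp only [Finset.mem_insert, Finset.mem_singleton]
    omega
  have h2 := (Finset.card_le_card h1).trans Finset.card_le_five
  exact_mod_cast h2

omit [MeasurableSpace X] in
theorem fs_near_card'_7119 (l b : ℕ) (t : Finset ℕ) :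
    ∑ a ∈ t, (if near l a b then (1 : ℝ) else 0) ≤ 5 := by
  rw [← Finset.sum_filter, Finset.sum_const, nsmul_eq_mul, mul_one]
  have h1 : t.filter (fun a => near l a b) ⊆ {b, b + 1, b - 1, 2 ^ l - 1, 0} := by
    intro a ha
    rw [Finset.mem_filter] at ha
    have := ha.2
    unfold near at this
    simp only [Finset.mem_insert, Finset.mem_singleton]
    omega
  have h2 := (Finset.card_le_card h1).trans Finset.card_le_five
  exact_mod_cast h2

omit [MeasurableSpace X] in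
theorem fs_tree_7119 (S : ℕ → ℕ → ℝ)
    (hS : ∀ l k, S (l + 1) (2 * k) + S (l + 1) (2 * k + 1) ≤ S l k) (d : ℕ) :
    ∀ l a, ∑ k ∈ Finset.Ico (a * 2 ^ d) ((a + 1) * 2 ^ d), S (l + d) k ≤ S l a := by
  induction d with
  | zero =>
    intro l a
    simp
  | succ d ih =>
    intro l a
    have e0 : l + (d + 1) = (l + 1) + d := by ring
    have e1 : a * 2 ^ (d + 1) = (2 * a) * 2 ^ d := by ring
    have e2 : (a + 1) * 2 ^ (d + 1) = (2 * a + 1 + 1) * 2 ^ d := by ring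
    rw [e0, e1, e2, ← Finset.sum_Ico_consecutive (fun k => S (l + 1 + d) k)
      (m := (2 * a) * 2 ^ d) (n := (2 * a + 1) * 2 ^ d) (k := (2 * a + 1 + 1) * 2 ^ d)
      (Nat.mul_le_mul_right _ (by omega)) (Nat.mul_le_mul_right _ (by omega))]
    exact (add_le_add (ih (l + 1) (2 * a)) (ih (l + 1) (2 * a + 1))).trans (hS l a)

/-- the fibre of descendants -/
def fib_7119 (m d a : ℕ) : Finset ℕ := (Finset.range (2 ^ m)).filter (fun k => k / 2 ^ d = a)

omit [MeasurableSpace X] in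
theorem fs_tree_fib_7119 (S : ℕ → ℕ → ℝ) (hS0 : ∀ l k, 0 ≤ S l k)
    (hS : ∀ l k, S (l + 1) (2 * k) + S (l + 1) (2 * k + 1) ≤ S l k) (l d a : ℕ) :
    ∑ k ∈ fib_7119 (l + d) d a, S (l + d) k ≤ S l a := by
  refine le_trans (Finset.sum_le_sum_of_subset_of_nonneg ?_ (fun k _ _ => hS0 _ k))
    (fs_tree_7119 S hS d l a)
  intro k hk
  unfold fib_7119 at hk
  rw [Finset.mem_filter] at hk
  have h2 : 0 < 2 ^ d := by positivity
  rw [Finset.mem_Ico]
  have h3 := hk.2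
  constructor
  · rw [← h3]
    exact Nat.div_mul_le_self k (2 ^ d)
  · rw [← h3]
    have := Nat.lt_div_mul_add (a := k) h2
    rw [add_mul, one_mul]
    exact this

omit [MeasurableSpace X] in
theorem fs_fib_sum_7119 (l d : ℕ) (G u : ℕ → ℝ) :
    ∑ k ∈ Finset.range (2 ^ (l + d)), G (k / 2 ^ d) * u k =
      ∑ a ∈ Finset.range (2 ^ l), G a * ∑ k ∈ fib_7119 (l + d) d a, u k := by
  have hmaps : ∀ k ∈ Finset.range (2 ^ (l + d)), k / 2 ^ d ∈ Finset.range (2 ^ l) := by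
    intro k hk
    rw [Finset.mem_range] at hk ⊢
    rw [Nat.div_lt_iff_lt_mul (by positivity), ← pow_add]
    exact hk
  rw [← Finset.sum_fiberwise_of_maps_to hmaps]
  refine Finset.sum_congr rfl (fun a _ => ?_)
  rw [Finset.mul_sum]
  unfold fib_7119
  refine Finset.sum_congr rfl (fun k hk => ?_)
  rw [Finset.mem_filter] at hk
  rw [hk.2]

omit [MeasurableSpace X] in
/-- Cauchy-Schwarz on a fibre -/
theorem fs_cs_7119 (S x : ℕ → ℕ → ℝ) (hS0 : ∀ l k, 0 ≤ S l k)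
    (hS : ∀ l k, S (l + 1) (2 * k) + S (l + 1) (2 * k + 1) ≤ S l k) (l d a : ℕ) :
    ∑ k ∈ fib_7119 (l + d) d a, Real.sqrt (S (l + d) k) * x (l + d) k ≤
      Real.sqrt (S l a) * Real.sqrt (∑ k ∈ fib_7119 (l + d) d a, x (l + d) k ^ 2) := by
  refine (Real.sum_mul_le_sqrt_mul_sqrt _ _ _).trans ?_
  refine mul_le_mul_of_nonneg_right (Real.sqrt_le_sqrt ?_) (Real.sqrt_nonneg _)
  have : ∑ k ∈ fib_7119 (l + d) d a, Real.sqrt (S (l + d) k) ^ 2
      = ∑ k ∈ fib_7119 (l + d) d a, S (l + d) k :=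
    Finset.sum_congr rfl (fun k _ => Real.sq_sqrt (hS0 _ _))
  rw [this]
  exact fs_tree_fib_7119 S hS0 hS l d a

omit [MeasurableSpace X] in
theorem fs_T_7119 (A : ℝ) (S W x y : ℕ → ℕ → ℝ) (hA : 0 ≤ A) (hS0 : ∀ l k, 0 ≤ S l k)
    (hW0 : ∀ l k, 0 ≤ W l k) (hx : ∀ l k, 0 ≤ x l k) (hy : ∀ l k, 0 ≤ y l k)
    (hS : ∀ l k, S (l + 1) (2 * k) + S (l + 1) (2 * k + 1) ≤ S l k)
    (hW : ∀ l k, W (l + 1) (2 * k) + W (l + 1) (2 * k + 1) ≤ W l k)
    (hSW : ∀ l a b, a < 2 ^ l → b < 2 ^ l → near l a b → S l a * W l b ≤ A * (1 / 16 : ℝ) ^ l)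
    (l d e : ℕ) :
    ∑ j ∈ Finset.range (2 ^ (l + e)), ∑ k ∈ Finset.range (2 ^ (l + d)),
      (if near l (k / 2 ^ d) (j / 2 ^ e) then (1 : ℝ) else 0) *
        ((Real.sqrt (S (l + d) k) * x (l + d) k) * (Real.sqrt (W (l + e) j) * y (l + e) j)) ≤
      Real.sqrt A * (1 / 4) ^ l * (5 * Real.sqrt (∑ k ∈ Finset.range (2 ^ (l + d)), x (l + d) k ^ 2)
        * Real.sqrt (∑ j ∈ Finset.range (2 ^ (l + e)), y (l + e) j ^ 2)) := by
  obtain ⟨u, hu⟩ : ∃ u : ℕ → ℝ, u = fun k => Real.sqrt (S (l + d) k) * x (l + d) k := ⟨_, rfl⟩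
  obtain ⟨v, hv⟩ : ∃ v : ℕ → ℝ, v = fun j => Real.sqrt (W (l + e) j) * y (l + e) j := ⟨_, rfl⟩
  have hu0 : ∀ k, 0 ≤ u k := by
    intro k
    rw [hu]
    exact mul_nonneg (Real.sqrt_nonneg _) (hx _ _)
  have hv0 : ∀ k, 0 ≤ v k := by
    intro k
    rw [hv]
    exact mul_nonneg (Real.sqrt_nonneg _) (hy _ _)
  obtain ⟨p, hp⟩ : ∃ p : ℕ → ℝ,
    p = fun a => Real.sqrt (∑ k ∈ fib_7119 (l + d) d a, x (l + d) k ^ 2) := ⟨_, rfl⟩
  obtain ⟨q, hq⟩ : ∃ q : ℕ → ℝ,
    q = fun b => Real.sqrt (∑ j ∈ fib_7119 (l + e) e b, y (l + e) j ^ 2) := ⟨_, rfl⟩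
  have hp0 : ∀ a, 0 ≤ p a := by intro a; rw [hp]; exact Real.sqrt_nonneg _
  have hq0 : ∀ a, 0 ≤ q a := by intro a; rw [hq]; exact Real.sqrt_nonneg _
  -- rewrite as a sum over pairs (a, b)
  have e1 : ∑ j ∈ Finset.range (2 ^ (l + e)), ∑ k ∈ Finset.range (2 ^ (l + d)),
      (if near l (k / 2 ^ d) (j / 2 ^ e) then (1 : ℝ) else 0) *
        ((Real.sqrt (S (l + d) k) * x (l + d) k) * (Real.sqrt (W (l + e) j) * y (l + e) j))
      = ∑ b ∈ Finset.range (2 ^ l), ∑ a ∈ Finset.range (2 ^ l),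
        (if near l a b then (1 : ℝ) else 0) *
          ((∑ k ∈ fib_7119 (l + d) d a, u k) * (∑ j ∈ fib_7119 (l + e) e b, v j)) := by
    have f1 : ∀ j, ∑ k ∈ Finset.range (2 ^ (l + d)),
      (if near l (k / 2 ^ d) (j / 2 ^ e) then (1 : ℝ) else 0) *
        ((Real.sqrt (S (l + d) k) * x (l + d) k) * (Real.sqrt (W (l + e) j) * y (l + e) j))
        = (∑ a ∈ Finset.range (2 ^ l), (if near l a (j / 2 ^ e) then (1 : ℝ) else 0) *
          ∑ k ∈ fib_7119 (l + d) d a, u k) * v j := by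
      intro j
      rw [← fs_fib_sum_7119 l d (fun a => if near l a (j / 2 ^ e) then (1 : ℝ) else 0) u,
        Finset.sum_mul]
      refine Finset.sum_congr rfl (fun k _ => ?_)
      rw [hu, hv]
      ring
    rw [Finset.sum_congr rfl (fun j _ => f1 j)]
    rw [fs_fib_sum_7119 l e (fun b => ∑ a ∈ Finset.range (2 ^ l),
      (if near l a b then (1 : ℝ) else 0) * ∑ k ∈ fib_7119 (l + d) d a, u k) v]
    refine Finset.sum_congr rfl (fun b _ => ?_)
    rw [Finset.sum_mul]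
    refine Finset.sum_congr rfl (fun a _ => ?_)
    ring
  rw [e1, Finset.sum_comm]
  have e2 : ∀ a ∈ Finset.range (2 ^ l), ∀ b ∈ Finset.range (2 ^ l),
      (if near l a b then (1 : ℝ) else 0) *
          ((∑ k ∈ fib_7119 (l + d) d a, u k) * (∑ j ∈ fib_7119 (l + e) e b, v j))
      ≤ Real.sqrt A * (1 / 4) ^ l * ((if near l a b then (1 : ℝ) else 0) * (p a * q b)) := by
    intro a ha b hb
    rw [Finset.mem_range] at ha hb
    split_ifs with hn
    · rw [one_mul, one_mul]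
      have g1 : ∑ k ∈ fib_7119 (l + d) d a, u k ≤ Real.sqrt (S l a) * p a := by
        rw [hu, hp]
        exact fs_cs_7119 S x hS0 hS l d a
      have g2 : ∑ j ∈ fib_7119 (l + e) e b, v j ≤ Real.sqrt (W l b) * q b := by
        rw [hv, hq]
        exact fs_cs_7119 W y hW0 hW l e b
      have g3 : 0 ≤ ∑ j ∈ fib_7119 (l + e) e b, v j := Finset.sum_nonneg (fun j _ => hv0 j)
      have g4 := mul_le_mul g1 g2 g3 (mul_nonneg (Real.sqrt_nonneg _) (hp0 a))
      refine g4.trans ?_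
      have g5 : Real.sqrt (S l a) * Real.sqrt (W l b) ≤ Real.sqrt A * (1 / 4) ^ l := by
        rw [← Real.sqrt_mul (hS0 l a)]
        have g6 : Real.sqrt A * (1 / 4) ^ l = Real.sqrt (A * (1 / 16 : ℝ) ^ l) := by
          rw [Real.sqrt_mul hA]
          congr 1
          rw [eq_comm, Real.sqrt_eq_iff_mul_self_eq (by positivity) (by positivity), ← mul_pow]
          norm_num
        rw [g6]
        exact Real.sqrt_le_sqrt (hSW l a b ha hb hn)
      have g7 : Real.sqrt (S l a) * p a * (Real.sqrt (W l b) * q b)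
          = (Real.sqrt (S l a) * Real.sqrt (W l b)) * (p a * q b) := by ring
      rw [g7]
      exact mul_le_mul_of_nonneg_right g5 (mul_nonneg (hp0 a) (hq0 b))
    · simp
  refine (Finset.sum_le_sum (fun a ha => Finset.sum_le_sum (fun b hb => e2 a ha b hb))).trans ?_
  simp_rw [← Finset.mul_sum]
  refine mul_le_mul_of_nonneg_left ?_ (by positivity)
  have e3 := fs_schur_7119 (Finset.range (2 ^ l)) (Finset.range (2 ^ l))
    (fun a b => if near l a b then (1 : ℝ) else 0) (fun a b => by split_ifs <;> norm_num)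
    (R := 5) (by norm_num) (fun a _ => fs_near_card_7119 l a _) (fun b _ => fs_near_card'_7119 l b _)
    p q
  refine e3.trans (le_of_eq ?_)
  have e4 : ∀ (dd : ℕ) (z : ℕ → ℕ → ℝ), ∑ a ∈ Finset.range (2 ^ l),
      (Real.sqrt (∑ k ∈ fib_7119 (l + dd) dd a, z (l + dd) k ^ 2)) ^ 2
      = ∑ k ∈ Finset.range (2 ^ (l + dd)), z (l + dd) k ^ 2 := by
    intro dd z
    have f1 := fs_fib_sum_7119 l dd (fun _ => 1) (fun k => z (l + dd) k ^ 2)
    simp only [one_mul] at f1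
    rw [f1]
    refine Finset.sum_congr rfl (fun a _ => ?_)
    exact Real.sq_sqrt (Finset.sum_nonneg (fun k _ => sq_nonneg _))
  have e5 : ∑ a ∈ Finset.range (2 ^ l), p a ^ 2
      = ∑ k ∈ Finset.range (2 ^ (l + d)), x (l + d) k ^ 2 := by
    rw [hp]
    exact e4 d x
  have e6 : ∑ b ∈ Finset.range (2 ^ l), q b ^ 2
      = ∑ j ∈ Finset.range (2 ^ (l + e)), y (l + e) j ^ 2 := by
    rw [hq]
    exact e4 e y
  rw [e5, e6]

omit [MeasurableSpace X] in
theorem fs_final_7119 (N : ℕ) (p q : ℕ → ℝ) :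
    ∑ n ∈ Finset.range N, ∑ m ∈ Finset.range (n + 1), ((1 / 2 : ℝ) ^ n * 2 ^ m) * (p m * q n) ≤
      2 * Real.sqrt (∑ m ∈ Finset.range N, p m ^ 2) * Real.sqrt (∑ n ∈ Finset.range N, q n ^ 2) := by
  have h := fs_schur_7119 (Finset.range N) (Finset.range N)
    (fun m n => if m ≤ n then (1 / 2 : ℝ) ^ (n - m) else 0)
    (fun m n => by split_ifs <;> positivity) (R := 2) (by norm_num) (by
      intro m hm
      rw [Finset.mem_range] at hm
      rw [← Finset.sum_filter]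
      have e1 : (Finset.range N).filter (fun n => m ≤ n) = Finset.Ico m N := by
        ext n
        simp only [Finset.mem_filter, Finset.mem_range, Finset.mem_Ico]
        omega
      rw [e1, Finset.sum_Ico_eq_sum_range]
      have e2 : ∀ i ∈ Finset.range (N - m), (1 / 2 : ℝ) ^ (m + i - m) = (1 / 2 : ℝ) ^ i := by
        intro i _
        congr 1
        omega
      rw [Finset.sum_congr rfl e2]
      exact sum_geometric_two_le _) (by
      intro n hn
      rw [Finset.mem_range] at hn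
      rw [← Finset.sum_filter]
      have e1 : (Finset.range N).filter (fun m => m ≤ n) = Finset.range (n + 1) := by
        ext m
        simp only [Finset.mem_filter, Finset.mem_range]
        omega
      rw [e1, ← Finset.sum_range_reflect]
      have e2 : ∀ i ∈ Finset.range (n + 1), (1 / 2 : ℝ) ^ (n - (n + 1 - 1 - i)) = (1 / 2 : ℝ) ^ i := by
        intro i hi
        rw [Finset.mem_range] at hi
        congr 1
        omega
      rw [Finset.sum_congr rfl e2]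
      exact sum_geometric_two_le _) p q
  refine le_trans (le_of_eq ?_) h
  rw [Finset.sum_comm (s := Finset.range N) (t := Finset.range N)]
  refine Finset.sum_congr rfl (fun n hn => ?_)
  rw [Finset.mem_range] at hn
  have e0 : ∀ m ∈ Finset.range N, (if m ≤ n then (1 / 2 : ℝ) ^ (n - m) else 0) * (p m * q n)
      = if m ≤ n then (1 / 2 : ℝ) ^ (n - m) * (p m * q n) else 0 := by
    intro m _
    split_ifs <;> simp
  rw [Finset.sum_congr rfl e0, ← Finset.sum_filter]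
  have e1 : (Finset.range N).filter (fun m => m ≤ n) = Finset.range (n + 1) := by
    ext m
    simp only [Finset.mem_filter, Finset.mem_range]
    omega
  rw [e1]
  refine Finset.sum_congr rfl (fun m hm => ?_)
  rw [Finset.mem_range] at hm
  have e2 : (1 / 2 : ℝ) ^ n * 2 ^ m = (1 / 2 : ℝ) ^ (n - m) := by
    have : n = (n - m) + m := by omega
    conv_lhs => rw [this, pow_add]
    rw [mul_assoc, ← mul_pow]
    norm_num
  rw [e2]

theorem far_sum : ∃ C : ℝ, 0 ≤ C ∧ ∀ (N : ℕ) (A : ℝ) (S W x y : ℕ → ℕ → ℝ), 0 ≤ A →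
    (∀ l k, 0 ≤ S l k) → (∀ l k, 0 ≤ W l k) → (∀ l k, 0 ≤ x l k) → (∀ l k, 0 ≤ y l k) →
    (∀ l k, S (l + 1) (2 * k) + S (l + 1) (2 * k + 1) ≤ S l k) →
    (∀ l k, W (l + 1) (2 * k) + W (l + 1) (2 * k + 1) ≤ W l k) →
    (∀ l a b, a < 2 ^ l → b < 2 ^ l → near l a b → S l a * W l b ≤ A * (1 / 16 : ℝ) ^ l) →
    ∑ n ∈ Finset.range N, ∑ j ∈ Finset.range (2 ^ n), ∑ m ∈ Finset.range (n + 1),
      ∑ k ∈ (Finset.range (2 ^ m)).filter (fun k => ¬ near m k (j / 2 ^ (n - m))),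
        (1 / 2 : ℝ) ^ n * 8 ^ (lam n j m k) * Real.sqrt (S m k * W n j) * x m k * y n j ≤
      C * Real.sqrt A *
        Real.sqrt (∑ m ∈ Finset.range N, ∑ k ∈ Finset.range (2 ^ m), x m k ^ 2) *
        Real.sqrt (∑ n ∈ Finset.range N, ∑ j ∈ Finset.range (2 ^ n), y n j ^ 2) := by
  refine ⟨10, by norm_num, ?_⟩
  intro N A S W x y hA hS0 hW0 hx hy hS hW hSW
  obtain ⟨p, hp⟩ : ∃ p : ℕ → ℝ, p = fun m => Real.sqrt (∑ k ∈ Finset.range (2 ^ m), x m k ^ 2) :=
    ⟨_, rfl⟩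
  obtain ⟨q, hq⟩ : ∃ q : ℕ → ℝ, q = fun n => Real.sqrt (∑ j ∈ Finset.range (2 ^ n), y n j ^ 2) :=
    ⟨_, rfl⟩
  have hp0 : ∀ m, 0 ≤ p m := by intro m; rw [hp]; exact Real.sqrt_nonneg _
  have hq0 : ∀ m, 0 ≤ q m := by intro m; rw [hq]; exact Real.sqrt_nonneg _
  obtain ⟨T, hT⟩ : ∃ T : ℕ → ℕ → ℕ → ℝ, T = fun n m l =>
    ∑ j ∈ Finset.range (2 ^ n), ∑ k ∈ Finset.range (2 ^ m),
      (if near l (k / 2 ^ (m - l)) (j / 2 ^ (n - l)) then (1 : ℝ) else 0) *
        ((Real.sqrt (S m k) * x m k) * (Real.sqrt (W n j) * y n j)) := ⟨_, rfl⟩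
  have hTb : ∀ n m l, l ≤ m → l ≤ n → T n m l ≤ Real.sqrt A * (1 / 4) ^ l * (5 * p m * q n) := by
    intro n m l hlm hln
    obtain ⟨d, rfl⟩ := Nat.exists_eq_add_of_le hlm
    obtain ⟨e, rfl⟩ := Nat.exists_eq_add_of_le hln
    have h1 := fs_T_7119 A S W x y hA hS0 hW0 hx hy hS hW hSW l d e
    rw [hT, hp, hq]
    simp only [Nat.add_sub_cancel_left]
    exact h1
  -- step 1: insert the sum over `l`
  have step1 : ∀ n ∈ Finset.range N, ∑ j ∈ Finset.range (2 ^ n), ∑ m ∈ Finset.range (n + 1),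
      ∑ k ∈ (Finset.range (2 ^ m)).filter (fun k => ¬ near m k (j / 2 ^ (n - m))),
        (1 / 2 : ℝ) ^ n * 8 ^ (lam n j m k) * Real.sqrt (S m k * W n j) * x m k * y n j ≤
      ∑ m ∈ Finset.range (n + 1), ∑ l ∈ Finset.range m, ((1 / 2 : ℝ) ^ n * 8 ^ l) * T n m l := by
    intro n _
    rw [Finset.sum_comm]
    refine Finset.sum_le_sum (fun m hm => ?_)
    rw [Finset.mem_range] at hm
    have e1 : ∑ l ∈ Finset.range m, ((1 / 2 : ℝ) ^ n * 8 ^ l) * T n m l
        = ∑ j ∈ Finset.range (2 ^ n), ∑ k ∈ Finset.range (2 ^ m), ∑ l ∈ Finset.range m,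
          ((1 / 2 : ℝ) ^ n * 8 ^ l) *
          ((if near l (k / 2 ^ (m - l)) (j / 2 ^ (n - l)) then (1 : ℝ) else 0) *
          ((Real.sqrt (S m k) * x m k) * (Real.sqrt (W n j) * y n j))) := by
      rw [hT]
      simp only [Finset.mul_sum]
      rw [Finset.sum_comm]
      refine Finset.sum_congr rfl (fun j _ => ?_)
      rw [Finset.sum_comm]
    rw [e1]
    refine Finset.sum_le_sum (fun j hj => ?_)
    rw [Finset.mem_range] at hj
    have hnn : ∀ k l, 0 ≤ ((1 / 2 : ℝ) ^ n * 8 ^ l) *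
          ((if near l (k / 2 ^ (m - l)) (j / 2 ^ (n - l)) then (1 : ℝ) else 0) *
          ((Real.sqrt (S m k) * x m k) * (Real.sqrt (W n j) * y n j))) := by
      intro k l
      have h1 := hx m k
      have h2 := hy n j
      split_ifs <;> positivity
    refine le_trans ?_ (Finset.sum_le_sum_of_subset_of_nonneg
      (Finset.filter_subset (fun k => ¬ near m k (j / 2 ^ (n - m))) (Finset.range (2 ^ m)))
      (fun k _ _ => Finset.sum_nonneg (fun l _ => hnn k l)))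
    refine Finset.sum_le_sum (fun k hk => ?_)
    rw [Finset.mem_filter, Finset.mem_range] at hk
    obtain ⟨hk1, hk2⟩ := hk
    have hP0 : near 0 (k / 2 ^ (m - 0)) (j / 2 ^ (n - 0)) := by
      left
      rw [Nat.sub_zero, Nat.sub_zero, Nat.div_eq_of_lt hk1, Nat.div_eq_of_lt hj]
    have hspec : near (lam n j m k) (k / 2 ^ (m - lam n j m k)) (j / 2 ^ (n - lam n j m k)) :=
      Nat.findGreatest_spec (P := fun l => near l (k / 2 ^ (m - l)) (j / 2 ^ (n - l)))
        (Nat.zero_le m) hP0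
    have hle : lam n j m k ≤ m := Nat.findGreatest_le m
    have hlt : lam n j m k < m := by
      refine lt_of_le_of_ne hle (fun h => hk2 ?_)
      rw [h] at hspec
      simpa using hspec
    refine le_trans (le_of_eq ?_) (Finset.single_le_sum (fun l _ => hnn k l)
      (Finset.mem_range.2 hlt))
    rw [if_pos hspec, Real.sqrt_mul (hS0 m k)]
    ring
  refine (Finset.sum_le_sum step1).trans ?_
  -- step 2: sum over `l`
  have step2 : ∀ n m, m ≤ n → ∑ l ∈ Finset.range m, ((1 / 2 : ℝ) ^ n * 8 ^ l) * T n m l ≤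
      (5 * Real.sqrt A) * (((1 / 2 : ℝ) ^ n * 2 ^ m) * (p m * q n)) := by
    intro n m hmn
    have h1 : ∀ l ∈ Finset.range m, ((1 / 2 : ℝ) ^ n * 8 ^ l) * T n m l ≤
        ((5 * Real.sqrt A) * ((1 / 2 : ℝ) ^ n * (p m * q n))) * 2 ^ l := by
      intro l hl
      rw [Finset.mem_range] at hl
      have h2 := mul_le_mul_of_nonneg_left (hTb n m l hl.le (by omega))
        (by positivity : (0 : ℝ) ≤ (1 / 2 : ℝ) ^ n * 8 ^ l)
      refine h2.trans (le_of_eq ?_)
      have h3 : (8 : ℝ) ^ l * (1 / 4) ^ l = 2 ^ l := by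
        rw [← mul_pow]
        norm_num
      rw [← h3]
      ring
    refine (Finset.sum_le_sum h1).trans ?_
    rw [← Finset.mul_sum]
    have h4 : ∑ l ∈ Finset.range m, (2 : ℝ) ^ l ≤ 2 ^ m := by
      have : ∀ m : ℕ, ∑ l ∈ Finset.range m, (2 : ℝ) ^ l = 2 ^ m - 1 := by
        intro m
        induction m with
        | zero => simp
        | succ m ih =>
          rw [Finset.sum_range_succ, ih, pow_succ]
          ring
      rw [this]
      linarith
    have h5 : 0 ≤ (5 * Real.sqrt A) * ((1 / 2 : ℝ) ^ n * (p m * q n)) := by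
      have := hp0 m
      have := hq0 n
      positivity
    refine (mul_le_mul_of_nonneg_left h4 h5).trans (le_of_eq ?_)
    ring
  have step3 : ∑ n ∈ Finset.range N, ∑ m ∈ Finset.range (n + 1), ∑ l ∈ Finset.range m,
      ((1 / 2 : ℝ) ^ n * 8 ^ l) * T n m l ≤
      ∑ n ∈ Finset.range N, ∑ m ∈ Finset.range (n + 1),
        (5 * Real.sqrt A) * (((1 / 2 : ℝ) ^ n * 2 ^ m) * (p m * q n)) := by
    refine Finset.sum_le_sum (fun n _ => Finset.sum_le_sum (fun m hm => ?_))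
    rw [Finset.mem_range] at hm
    exact step2 n m (by omega)
  refine step3.trans ?_
  simp_rw [← Finset.mul_sum]
  have h6 := mul_le_mul_of_nonneg_left (fs_final_7119 N p q)
    (by positivity : (0 : ℝ) ≤ 5 * Real.sqrt A)
  refine h6.trans (le_of_eq ?_)
  have e5 : ∑ m ∈ Finset.range N, p m ^ 2 = ∑ m ∈ Finset.range N, ∑ k ∈ Finset.range (2 ^ m), x m k ^ 2 := by
    rw [hp]
    exact Finset.sum_congr rfl (fun m _ => Real.sq_sqrt (Finset.sum_nonneg (fun k _ => sq_nonneg _)))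
  have e6 : ∑ m ∈ Finset.range N, q m ^ 2 = ∑ m ∈ Finset.range N, ∑ k ∈ Finset.range (2 ^ m), y m k ^ 2 := by
    rw [hq]
    exact Finset.sum_congr rfl (fun m _ => Real.sq_sqrt (Finset.sum_nonneg (fun k _ => sq_nonneg _)))
  rw [e5, e6]
  ring

end

end Pool.Agent.Helper807.BT
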