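import Pool.Agent.Helper807.BT.Base
import Pool.Agent.Helper807.BT.AdjSum
import Pool.Agent.Helper807.BT.BNear
import Pool.Agent.Helper807.BT.BSep
import Pool.Agent.Helper807.BT.Bas
import Pool.Agent.Helper807.BT.FarSum
import Pool.Agent.Helper807.BT.Pyth
import Pool.Agent.Helper807.BT.Sep

set_option autoImplicit false

open MeasureTheory Set
open scoped ENNReal

namespace Pool.Agent.Helper807.BT

noncomputable section

variable {X : Type*} [MeasurableSpace X]


theorem integrable_of_bdd_7124 {s : Measure X} [IsFiniteMeasure s] {f : X → ℝ} (hf : Bdd f) :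
    Integrable f s := by
  obtain ⟨hm, C, hC⟩ := hf
  exact Integrable.of_bound hm.aestronglyMeasurable C (Filter.Eventually.of_forall hC)

theorem bdd_sq_7124 {f : X → ℝ} (hf : Bdd f) : Bdd (fun x => f x ^ 2) := by
  obtain ⟨hm, C, hC⟩ := hf
  refine ⟨hm.pow_const 2, C ^ 2, fun x => ?_⟩
  show |f x ^ 2| ≤ C ^ 2
  rw [abs_pow]
  exact pow_le_pow_left₀ (abs_nonneg _) (hC x) 2

theorem bdd_abs_7124 {f : X → ℝ} (hf : Bdd f) : Bdd (fun x => |f x|) := by
  obtain ⟨hm, C, hC⟩ := hf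
  refine ⟨hm.abs, C, fun x => ?_⟩
  rw [abs_abs]
  exact hC x

theorem cs_7124 {θ h : X → ℝ} (geo : Geo θ h) (s : Measure X) [IsFiniteMeasure s] {f : X → ℝ}
    (hf : Bdd f) (n k : ℕ) :
    ∫ x, |Dl θ h s n k f x| ∂s ≤
      Real.sqrt (ms θ h s n k) * Real.sqrt (∫ x, Dl θ h s n k f x ^ 2 ∂s) := by
  have hB := bdd_Dl geo s hf n k
  have hQ := measurableSet_Q geo n k
  have hsupp : ∀ x, x ∉ Q θ h n k → Dl θ h s n k f x = 0 := by
    intro x hx
    unfold Dl
    exact Set.indicator_of_notMem hx _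
  generalize Dl θ h s n k f = φ at *
  have i1 : Integrable (fun x => |φ x|) s := integrable_of_bdd_7124 (bdd_abs_7124 hB)
  have i2 : Integrable (fun x => φ x ^ 2) s := integrable_of_bdd_7124 (bdd_sq_7124 hB)
  have i3 : Integrable ((Q θ h n k).indicator (fun _ => (1 : ℝ))) s :=
    (integrable_const (1 : ℝ)).indicator hQ
  have h3 : ∫ x, (Q θ h n k).indicator (fun _ => (1 : ℝ)) x ∂s = ms θ h s n k := by
    rw [integral_indicator hQ, setIntegral_const, smul_eq_mul, mul_one]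
    rfl
  have key : ∀ t : ℝ, 0 ≤ ms θ h s n k * (t * t) + (-2 * ∫ x, |φ x| ∂s) * t + ∫ x, φ x ^ 2 ∂s := by
    intro t
    have h0 : 0 ≤ ∫ x, (t ^ 2 * (Q θ h n k).indicator (fun _ => (1 : ℝ)) x - (2 * t) * |φ x| +
        φ x ^ 2) ∂s := by
      apply integral_nonneg
      intro x
      show 0 ≤ t ^ 2 * (Q θ h n k).indicator (fun _ => (1 : ℝ)) x - (2 * t) * |φ x| + φ x ^ 2
      by_cases hx : x ∈ Q θ h n k
      · rw [Set.indicator_of_mem hx]
        have := sq_nonneg (t - |φ x|)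
        rw [sub_sq, sq_abs] at this
        linarith
      · rw [hsupp x hx]
        have := Set.indicator_nonneg (s := Q θ h n k) (f := fun _ => (1 : ℝ))
          (fun _ _ => zero_le_one) x
        simp only [abs_zero]
        have h4 : 0 ≤ t ^ 2 * (Q θ h n k).indicator (fun _ => (1 : ℝ)) x :=
          mul_nonneg (sq_nonneg _) this
        linarith
    have i4 : Integrable (fun x => t ^ 2 * (Q θ h n k).indicator (fun _ => (1 : ℝ)) x) s :=
      i3.const_mul _
    have i5 : Integrable (fun x => 2 * t * |φ x|) s := i1.const_mul _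
    have i6 : Integrable (fun x => t ^ 2 * (Q θ h n k).indicator (fun _ => (1 : ℝ)) x -
      2 * t * |φ x|) s := i4.sub i5
    rw [integral_add i6 i2, integral_sub i4 i5, integral_const_mul, integral_const_mul,
      h3] at h0
    linarith
  have hd := discrim_le_zero key
  unfold discrim at hd
  have h4 : (∫ x, |φ x| ∂s) ^ 2 ≤ ms θ h s n k * ∫ x, φ x ^ 2 ∂s := by nlinarith
  have h5 := Real.abs_le_sqrt h4
  rw [Real.sqrt_mul (by unfold ms; exact ENNReal.toReal_nonneg)] at h5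
  exact (le_abs_self _).trans h5

theorem near_symm_7124 {n a b : ℕ} (h : near n a b) : near n b a := by
  unfold near at *
  tauto

theorem Q_sub_arc_7124 {θ h : X → ℝ} (geo : Geo θ h) {l a b : ℕ} (ha : a < 2 ^ l) (hb : b < 2 ^ l)
    (z : ℤ) (hab : (a : ℝ) = b + 1 - z * 2 ^ l) :
    Q θ h l a ⊆ arcBox θ h ((b : ℝ) / 2 ^ l) (2 * (1 / 2) ^ l) ∧
    Q θ h l b ⊆ arcBox θ h ((b : ℝ) / 2 ^ l) (2 * (1 / 2) ^ l) := by
  have hd : (0 : ℝ) < (1 / 2) ^ l := by positivity
  constructor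
  · rw [Q_eq_arcBox geo l a ha]
    rintro x ⟨h1, h2⟩
    refine ⟨?_, by linarith⟩
    have e1 : θ x - (b : ℝ) / 2 ^ l = (θ x - (a : ℝ) / 2 ^ l + (1 / 2) ^ l) - z := by
      rw [hab, one_div, inv_pow]
      have : (2 : ℝ) ^ l ≠ 0 := by positivity
      field_simp
      ring
    rw [e1, Int.fract_sub_intCast]
    have h3 := Int.fract_add_le (θ x - (a : ℝ) / 2 ^ l) ((1 / 2 : ℝ) ^ l)
    have h4 : Int.fract ((1 / 2 : ℝ) ^ l) ≤ (1 / 2) ^ l := by
      have := Int.fract_add_floor ((1 / 2 : ℝ) ^ l)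
      have h5 : (0 : ℝ) ≤ (⌊(1 / 2 : ℝ) ^ l⌋ : ℝ) := by
        exact_mod_cast Int.floor_nonneg.2 hd.le
      linarith
    linarith
  · rw [Q_eq_arcBox geo l b hb]
    rintro x ⟨h1, h2⟩
    exact ⟨by linarith, by linarith⟩

theorem near_a2_7124 {θ h : X → ℝ} {s w : Measure X} [IsFiniteMeasure s] [IsFiniteMeasure w]
    {C0 A : ℝ} (hA : 0 ≤ A) (hyp : Hyp θ h s w C0 A) {l a b : ℕ} (ha : a < 2 ^ l) (hb : b < 2 ^ l)
    (hn : near l a b) : ms θ h s l a * ms θ h w l b ≤ (16 * A) * (1 / 16) ^ l := by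
  have geo := hyp.geo
  have hpow : ((1 / 2 : ℝ) ^ l) ^ 4 = (1 / 16) ^ l := by
    rw [← pow_mul, mul_comm, pow_mul]; norm_num
  have hd : (0 : ℝ) < (1 / 2) ^ l := by positivity
  have hd1 : ((1 : ℝ) / 2) ^ l ≤ 1 := pow_le_one₀ (by norm_num) (by norm_num)
  by_cases hEq : a = b
  · subst hEq
    have h1 := hyp.a2 ((a : ℝ) / 2 ^ l) ((1 / 2) ^ l) hd hd1
    rw [← Q_eq_arcBox geo l a ha, hpow] at h1
    unfold ms
    have h2 : 0 ≤ A * (1 / 16) ^ l := by positivity
    linarith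
  · have hl : 1 ≤ l := by
      rcases Nat.eq_zero_or_pos l with h0 | h0
      · subst h0
        simp at ha hb
        omega
      · exact h0
    have hlen : 2 * ((1 : ℝ) / 2) ^ l ≤ 1 := by
      obtain ⟨l', rfl⟩ : ∃ l', l = l' + 1 := ⟨l - 1, by omega⟩
      rw [pow_succ]
      have : ((1 : ℝ) / 2) ^ l' ≤ 1 := pow_le_one₀ (by norm_num) (by norm_num)
      linarith
    -- a common arc
    obtain ⟨c, hc1, hc2⟩ : ∃ c : ℝ, Q θ h l a ⊆ arcBox θ h c (2 * (1 / 2) ^ l) ∧
        Q θ h l b ⊆ arcBox θ h c (2 * (1 / 2) ^ l) := by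
      rcases hn with h1 | h1 | h1 | ⟨h1, h2⟩ | ⟨h1, h2⟩
      · exact absurd h1 hEq
      · obtain ⟨p1, p2⟩ := Q_sub_arc_7124 geo hb ha 0 (by rw [← h1]; push_cast; ring)
        exact ⟨_, p2, p1⟩
      · obtain ⟨p1, p2⟩ := Q_sub_arc_7124 geo ha hb 0 (by rw [← h1]; push_cast; ring)
        exact ⟨_, p1, p2⟩
      · obtain ⟨p1, p2⟩ := Q_sub_arc_7124 geo ha hb 1 (by
          have h3 : ((b + 1 : ℕ) : ℝ) = ((2 ^ l : ℕ) : ℝ) := by rw [h2]
          push_cast at h3
          rw [h1]; push_cast; linarith)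
        exact ⟨_, p1, p2⟩
      · obtain ⟨p1, p2⟩ := Q_sub_arc_7124 geo hb ha 1 (by
          have h3 : ((a + 1 : ℕ) : ℝ) = ((2 ^ l : ℕ) : ℝ) := by rw [h2]
          push_cast at h3
          rw [h1]; push_cast; linarith)
        exact ⟨_, p2, p1⟩
    have h1 := hyp.a2 c (2 * (1 / 2) ^ l) (by positivity) hlen
    have e1 : A * (2 * (1 / 2 : ℝ) ^ l) ^ 4 = (16 * A) * (1 / 16) ^ l := by
      rw [mul_pow, hpow]; ring
    rw [e1] at h1
    refine le_trans ?_ h1
    unfold ms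
    apply mul_le_mul _ _ ENNReal.toReal_nonneg ENNReal.toReal_nonneg
    · exact ENNReal.toReal_mono (measure_ne_top _ _) (measure_mono hc1)
    · exact ENNReal.toReal_mono (measure_ne_top _ _) (measure_mono hc2)

theorem ms_sub_7124 {θ h : X → ℝ} (geo : Geo θ h) (s : Measure X) [IsFiniteMeasure s] (l k : ℕ) :
    ms θ h s (l + 1) (2 * k) + ms θ h s (l + 1) (2 * k + 1) ≤ ms θ h s l k := by
  unfold ms
  rw [← ENNReal.toReal_add (measure_ne_top _ _) (measure_ne_top _ _)]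
  apply ENNReal.toReal_mono (measure_ne_top _ _)
  rw [← measure_union _ (measurableSet_Q geo _ _)]
  · apply measure_mono
    apply Set.union_subset
    · have h1 := Q_anti geo (Nat.le_succ l) (2 * k)
      have e0 : l.succ - l = 1 := by omega
      have e1 : 2 * k / 2 ^ (l.succ - l) = k := by
        rw [e0]; omega
      rwa [e1] at h1
    · have h1 := Q_anti geo (Nat.le_succ l) (2 * k + 1)
      have e0 : l.succ - l = 1 := by omega
      have e1 : (2 * k + 1) / 2 ^ (l.succ - l) = k := by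
        rw [e0]; omega
      rwa [e1] at h1
  · rw [Set.disjoint_left]
    rintro x ⟨h1, -⟩ ⟨h2, -⟩
    omega

theorem diag_estimate (C0 A : ℝ) (hC : 0 ≤ C0) (hA : 0 ≤ A) : ∃ C : ℝ, 0 ≤ C ∧
    ∀ (θ h : X → ℝ) (s w : Measure X) [IsFiniteMeasure s] [IsFiniteMeasure w],
    Hyp θ h s w C0 A → ∀ f g : X → ℝ, Bdd f → Bdd g → ∀ (N : ℕ),
    ‖∑ n ∈ Finset.range N, ∑ k ∈ Finset.range (2 ^ n), ∑ j ∈ Finset.range (2 ^ n),
          Bf θ h s w (Dl θ h s n k f) (Dl θ h w n j g)‖ ≤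
      C * Real.sqrt (∫ x, f x ^ 2 ∂s) * Real.sqrt (∫ x, g x ^ 2 ∂w) := by
  obtain ⟨Cn, hCn, hnear⟩ := B_near (X := X) C0 A hC hA
  obtain ⟨Cf, hCf, hfar⟩ := far_sum
  obtain ⟨Cs, hCs, hns⟩ := near_sum 0
  refine ⟨Cn * Cs + 16 * (Cf * Real.sqrt (16 * A)), by positivity, ?_⟩
  intro θ h s w _ _ hyp f g hf hg N
  have geo := hyp.geo
  obtain ⟨x, hx⟩ : ∃ x : ℕ → ℕ → ℝ, x = fun n k => Real.sqrt (∫ y, Dl θ h s n k f y ^ 2 ∂s) :=
    ⟨_, rfl⟩
  obtain ⟨y, hy⟩ : ∃ y : ℕ → ℕ → ℝ, y = fun n k => Real.sqrt (∫ z, Dl θ h w n k g z ^ 2 ∂w) :=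
    ⟨_, rfl⟩
  have hx0 : ∀ l k, 0 ≤ x l k := by intro l k; rw [hx]; exact Real.sqrt_nonneg _
  have hy0 : ∀ l k, 0 ≤ y l k := by intro l k; rw [hy]; exact Real.sqrt_nonneg _
  have hX : Real.sqrt (∑ m ∈ Finset.range N, ∑ k ∈ Finset.range (2 ^ m), x m k ^ 2) ≤
      Real.sqrt (∫ x, f x ^ 2 ∂s) := by
    apply Real.sqrt_le_sqrt
    refine le_trans (le_of_eq ?_) (pyth θ h geo s f hf N)
    refine Finset.sum_congr rfl fun n _ => Finset.sum_congr rfl fun k _ => ?_
    rw [hx]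
    exact Real.sq_sqrt (integral_nonneg fun _ => sq_nonneg _)
  have hY : Real.sqrt (∑ m ∈ Finset.range N, ∑ k ∈ Finset.range (2 ^ m), y m k ^ 2) ≤
      Real.sqrt (∫ x, g x ^ 2 ∂w) := by
    apply Real.sqrt_le_sqrt
    refine le_trans (le_of_eq ?_) (pyth θ h geo w g hg N)
    refine Finset.sum_congr rfl fun n _ => Finset.sum_congr rfl fun k _ => ?_
    rw [hy]
    exact Real.sq_sqrt (integral_nonneg fun _ => sq_nonneg _)
  have hF := hfar N (16 * A) (ms θ h s) (ms θ h w) x y (by positivity)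
    (fun l k => ENNReal.toReal_nonneg) (fun l k => ENNReal.toReal_nonneg) hx0 hy0
    (ms_sub_7124 geo s) (ms_sub_7124 geo w)
    (fun l a b ha hb hn => near_a2_7124 hA hyp ha hb hn)
  have hNs := hns N x y hx0 hy0
  -- the individual terms
  have t1 : ∀ n k j, k < 2 ^ n → j < 2 ^ n → near n k j →
      ‖Bf θ h s w (Dl θ h s n k f) (Dl θ h w n j g)‖ ≤ Cn * (x n k * y n j) := by
    intro n k j hk hj hn
    have h1 := hnear θ h s w hyp f g hf hg n j n k hj hk le_rfl (by simpa using hn)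
    rw [hx, hy]
    calc _ ≤ _ := h1
      _ = _ := by ring
  have t2 : ∀ n k j, k < 2 ^ n → j < 2 ^ n → ¬ near n k j →
      ‖Bf θ h s w (Dl θ h s n k f) (Dl θ h w n j g)‖ ≤ 16 * ((1 / 2 : ℝ) ^ n * 8 ^ (lam n j n k) *
        Real.sqrt (ms θ h s n k * ms θ h w n j) * x n k * y n j) := by
    intro n k j hk hj hn
    obtain ⟨L, hL⟩ : ∃ L, L = lam n j n k := ⟨_, rfl⟩
    have hP0 : near 0 (k / 2 ^ (n - 0)) (j / 2 ^ (n - 0)) := by
      left
      rw [Nat.sub_zero, Nat.div_eq_of_lt hk, Nat.div_eq_of_lt hj]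
    have hLn : L ≤ n := by rw [hL]; exact Nat.findGreatest_le n
    have hPL : near L (k / 2 ^ (n - L)) (j / 2 ^ (n - L)) := by
      rw [hL]
      exact Nat.findGreatest_spec (P := fun l => near l (k / 2 ^ (n - l)) (j / 2 ^ (n - l)))
        (Nat.zero_le n) hP0
    have hLlt : L < n := by
      rcases hLn.lt_or_eq with h1 | h1
      · exact h1
      · exfalso
        rw [h1] at hPL
        apply hn
        simpa using hPL
    have hPL1 : ¬ near (L + 1) (k / 2 ^ (n - (L + 1))) (j / 2 ^ (n - (L + 1))) := by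
      intro hc
      have h1 := Nat.le_findGreatest (P := fun l => near l (k / 2 ^ (n - l)) (j / 2 ^ (n - l)))
        (m := L + 1) (n := n) (by omega) hc
      have h2 : L + 1 ≤ L := by
        conv_rhs => rw [hL]
        exact h1
      omega
    have h1 := B_sep θ h geo s w (Dl θ h s n k f) g
      (integrable_of_bdd_7124 (bdd_Dl geo s hf n k)) hg n j hj (Q θ h n k)
      (fun z hz => by unfold Dl; exact Set.indicator_of_notMem hz _)
      ((1 / 2 : ℝ) ^ L) (by positivity) (by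
        intro a ha b hb
        have h2 := far_sep θ h geo (L + 1) a b (by
          intro hc
          apply hPL1
          rw [← col_div geo (by omega : L + 1 ≤ n) a, ← col_div geo (by omega : L + 1 ≤ n) b,
            ha.1, hb.1] at hc
          exact near_symm_7124 hc)
        refine le_trans (le_of_eq ?_) h2
        rw [pow_succ]; ring)
    have h2 := cs_7124 geo s hf n k
    have e8 : 16 * (1 / 2 : ℝ) ^ n / ((1 / 2 : ℝ) ^ L) ^ 3 = 16 * (1 / 2 : ℝ) ^ n * 8 ^ L := by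
      have : ((1 / 2 : ℝ) ^ L) ^ 3 = (8 ^ L)⁻¹ := by
        rw [← pow_mul, mul_comm, pow_mul, ← inv_pow]; norm_num
      rw [this, div_inv_eq_mul]
    rw [e8] at h1
    rw [← hL]
    refine h1.trans ?_
    have h0 : 0 ≤ 16 * (1 / 2 : ℝ) ^ n * 8 ^ L := by positivity
    calc 16 * (1 / 2 : ℝ) ^ n * 8 ^ L * (∫ y, |Dl θ h s n k f y| ∂s) *
          Real.sqrt (ms θ h w n j) * Real.sqrt (∫ x, Dl θ h w n j g x ^ 2 ∂w) ≤
        16 * (1 / 2 : ℝ) ^ n * 8 ^ L * (Real.sqrt (ms θ h s n k) *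
          Real.sqrt (∫ x, Dl θ h s n k f x ^ 2 ∂s)) *
          Real.sqrt (ms θ h w n j) * Real.sqrt (∫ x, Dl θ h w n j g x ^ 2 ∂w) := by gcongr
      _ = _ := by
          rw [Real.sqrt_mul (by unfold ms; exact ENNReal.toReal_nonneg), hx, hy]
          ring
  -- assembling
  have step1 : ‖∑ n ∈ Finset.range N, ∑ k ∈ Finset.range (2 ^ n), ∑ j ∈ Finset.range (2 ^ n),
          Bf θ h s w (Dl θ h s n k f) (Dl θ h w n j g)‖ ≤
      ∑ n ∈ Finset.range N, ∑ j ∈ Finset.range (2 ^ n), ∑ k ∈ Finset.range (2 ^ n),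
          ‖Bf θ h s w (Dl θ h s n k f) (Dl θ h w n j g)‖ := by
    refine (norm_sum_le _ _).trans (Finset.sum_le_sum fun n _ => ?_)
    rw [Finset.sum_comm]
    refine (norm_sum_le _ _).trans (Finset.sum_le_sum fun j _ => ?_)
    exact norm_sum_le _ _
  have step2 : ∑ n ∈ Finset.range N, ∑ j ∈ Finset.range (2 ^ n), ∑ k ∈ Finset.range (2 ^ n),
          ‖Bf θ h s w (Dl θ h s n k f) (Dl θ h w n j g)‖ ≤
      Cn * (∑ n ∈ Finset.range N, ∑ j ∈ Finset.range (2 ^ n),
        ∑ m ∈ (Finset.range (n + 1)).filter (fun m => n ≤ m + 0),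
        ∑ k ∈ (Finset.range (2 ^ m)).filter (fun k => near m k (j / 2 ^ (n - m))),
          x m k * y n j) +
      16 * (∑ n ∈ Finset.range N, ∑ j ∈ Finset.range (2 ^ n), ∑ m ∈ Finset.range (n + 1),
        ∑ k ∈ (Finset.range (2 ^ m)).filter (fun k => ¬ near m k (j / 2 ^ (n - m))),
        (1 / 2 : ℝ) ^ n * 8 ^ (lam n j m k) * Real.sqrt (ms θ h s m k * ms θ h w n j) *
          x m k * y n j) := by
    rw [Finset.mul_sum, Finset.mul_sum, ← Finset.sum_add_distrib]
    refine Finset.sum_le_sum fun n _ => ?_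
    rw [Finset.mul_sum, Finset.mul_sum, ← Finset.sum_add_distrib]
    refine Finset.sum_le_sum fun j hj => ?_
    rw [Finset.mem_range] at hj
    rw [← Finset.sum_filter_add_sum_filter_not (Finset.range (2 ^ n)) (fun k => near n k j)]
    have a1 : ∑ k ∈ (Finset.range (2 ^ n)).filter (fun k => near n k j),
        ‖Bf θ h s w (Dl θ h s n k f) (Dl θ h w n j g)‖ ≤
        Cn * ∑ m ∈ (Finset.range (n + 1)).filter (fun m => n ≤ m + 0),
        ∑ k ∈ (Finset.range (2 ^ m)).filter (fun k => near m k (j / 2 ^ (n - m))),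
          x m k * y n j := by
      have b1 : ∑ k ∈ (Finset.range (2 ^ n)).filter (fun k => near n k j), x n k * y n j ≤
          ∑ m ∈ (Finset.range (n + 1)).filter (fun m => n ≤ m + 0),
          ∑ k ∈ (Finset.range (2 ^ m)).filter (fun k => near m k (j / 2 ^ (n - m))),
            x m k * y n j := by
        have := Finset.single_le_sum (s := (Finset.range (n + 1)).filter (fun m => n ≤ m + 0))
          (f := fun m => ∑ k ∈ (Finset.range (2 ^ m)).filter
            (fun k => near m k (j / 2 ^ (n - m))), x m k * y n j)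
          (fun m _ => Finset.sum_nonneg fun k _ => mul_nonneg (hx0 _ _) (hy0 _ _))
          (show n ∈ (Finset.range (n + 1)).filter (fun m => n ≤ m + 0) by simp)
        simpa using this
      refine le_trans ?_ (mul_le_mul_of_nonneg_left b1 hCn)
      rw [Finset.mul_sum]
      refine Finset.sum_le_sum fun k hk => ?_
      rw [Finset.mem_filter, Finset.mem_range] at hk
      exact t1 n k j hk.1 hj hk.2
    have a2 : ∑ k ∈ (Finset.range (2 ^ n)).filter (fun k => ¬ near n k j),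
        ‖Bf θ h s w (Dl θ h s n k f) (Dl θ h w n j g)‖ ≤
        16 * ∑ m ∈ Finset.range (n + 1),
        ∑ k ∈ (Finset.range (2 ^ m)).filter (fun k => ¬ near m k (j / 2 ^ (n - m))),
        (1 / 2 : ℝ) ^ n * 8 ^ (lam n j m k) * Real.sqrt (ms θ h s m k * ms θ h w n j) *
          x m k * y n j := by
      have b1 : ∑ k ∈ (Finset.range (2 ^ n)).filter (fun k => ¬ near n k j),
          (1 / 2 : ℝ) ^ n * 8 ^ (lam n j n k) * Real.sqrt (ms θ h s n k * ms θ h w n j) *
          x n k * y n j ≤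
          ∑ m ∈ Finset.range (n + 1),
          ∑ k ∈ (Finset.range (2 ^ m)).filter (fun k => ¬ near m k (j / 2 ^ (n - m))),
          (1 / 2 : ℝ) ^ n * 8 ^ (lam n j m k) * Real.sqrt (ms θ h s m k * ms θ h w n j) *
            x m k * y n j := by
        have := Finset.single_le_sum (s := Finset.range (n + 1))
          (f := fun m => ∑ k ∈ (Finset.range (2 ^ m)).filter
            (fun k => ¬ near m k (j / 2 ^ (n - m))), (1 / 2 : ℝ) ^ n * 8 ^ (lam n j m k) *
              Real.sqrt (ms θ h s m k * ms θ h w n j) * x m k * y n j)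
          (fun m _ => Finset.sum_nonneg fun k _ => by
            have := hx0 m k
            have := hy0 n j
            positivity)
          (show n ∈ Finset.range (n + 1) by simp)
        refine le_trans (le_of_eq ?_) this
        simp
      refine le_trans ?_ (mul_le_mul_of_nonneg_left b1 (by norm_num))
      rw [Finset.mul_sum]
      refine Finset.sum_le_sum fun k hk => ?_
      rw [Finset.mem_filter, Finset.mem_range] at hk
      exact t2 n k j hk.1 hj hk.2
    exact add_le_add a1 a2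
  refine step1.trans (step2.trans ?_)
  have u1 : Cs * Real.sqrt (∑ m ∈ Finset.range N, ∑ k ∈ Finset.range (2 ^ m), x m k ^ 2) *
        Real.sqrt (∑ n ∈ Finset.range N, ∑ j ∈ Finset.range (2 ^ n), y n j ^ 2) ≤
      Cs * Real.sqrt (∫ x, f x ^ 2 ∂s) * Real.sqrt (∫ x, g x ^ 2 ∂w) := by gcongr
  have u2 : Cf * Real.sqrt (16 * A) *
        Real.sqrt (∑ m ∈ Finset.range N, ∑ k ∈ Finset.range (2 ^ m), x m k ^ 2) *
        Real.sqrt (∑ n ∈ Finset.range N, ∑ j ∈ Finset.range (2 ^ n), y n j ^ 2) ≤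
      Cf * Real.sqrt (16 * A) * Real.sqrt (∫ x, f x ^ 2 ∂s) * Real.sqrt (∫ x, g x ^ 2 ∂w) := by
    gcongr
  have u3 := mul_le_mul_of_nonneg_left (hNs.trans u1) hCn
  have u4 := mul_le_mul_of_nonneg_left (hF.trans u2) (by norm_num : (0 : ℝ) ≤ 16)
  calc _ ≤ _ := add_le_add u3 u4
    _ = _ := by ring

end

end Pool.Agent.Helper807.BT
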