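import Pool.Agent.Helper807.BT.Fin1

set_option autoImplicit false

open MeasureTheory Set Filter
open scoped ENNReal Topology

namespace Pool.Agent.Helper807.BT

noncomputable section

variable {X : Type*} [MeasurableSpace X]

theorem integrable_of_sq (s : Measure X) [IsFiniteMeasure s] {f : X → ℝ} (hf : Measurable f)
    (h2 : ∫⁻ x, ‖f x‖ₑ ^ 2 ∂s < ∞) : Integrable f s := by
  have h3 : MemLp f 2 s := by
    refine ⟨hf.aestronglyMeasurable, ?_⟩
    rw [eLpNorm_eq_lintegral_rpow_enorm_toReal (by norm_num) (by norm_num)]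
    simp only [ENNReal.toReal_ofNat, ENNReal.rpow_ofNat]
    exact ENNReal.rpow_lt_top_of_nonneg (by norm_num) h2.ne
  exact h3.integrable (by norm_num)

theorem L2_of_bilin (θ h : X → ℝ) (geo : Geo θ h) (s w : Measure X) [IsFiniteMeasure s]
    [IsFiniteMeasure w] (C : ℝ) (hC1 : 0 ≤ C)
    (hB : ∀ f g : X → ℝ, Bdd f → Bdd g → ∀ N : ℕ,
    (∀ x, h x ≤ (1 / 2 : ℝ) ^ N → f x = 0) → (∀ x, h x ≤ (1 / 2 : ℝ) ^ N → g x = 0) →
    ‖Bf θ h s w f g‖ ≤ C * Real.sqrt (∫ x, f x ^ 2 ∂s) * Real.sqrt (∫ x, g x ^ 2 ∂w))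
    (f : X → ℝ) (hf : Measurable f) (hf2 : ∫⁻ x, ‖f x‖ₑ ^ 2 ∂s < ∞) :
    ∫⁻ x, ‖Pop θ h s f x‖ₑ ^ 2 ∂w ≤ ENNReal.ofReal (2 * C ^ 2) * ∫⁻ x, ‖f x‖ₑ ^ 2 ∂s := by
  have hfi : Integrable f s := integrable_of_sq s hf hf2
  let S : ℕ → Set X := fun k => {x | |f x| ≤ k ∧ (1 / 2 : ℝ) ^ k < h x}
  have hS : ∀ k, MeasurableSet (S k) := fun k =>
    (measurableSet_le hf.norm measurable_const).inter (measurableSet_lt measurable_const geo.mh)
  let fk : ℕ → X → ℝ := fun k => (S k).indicator f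
  have hlim : ∀ y, ∀ᶠ k in atTop, fk k y = f y := by
    intro y
    have h1 : Tendsto (fun M : ℕ => (1 / 2 : ℝ) ^ M) atTop (𝓝 0) :=
      tendsto_pow_atTop_nhds_zero_of_lt_one (by norm_num) (by norm_num)
    have h2 : ∀ᶠ M : ℕ in atTop, (1 / 2 : ℝ) ^ M < h y :=
      h1.eventually_lt_const (geo.h0 y)
    have h3 : ∀ᶠ M : ℕ in atTop, |f y| ≤ M := by
      obtain ⟨n, hn⟩ := exists_nat_ge |f y|
      filter_upwards [eventually_ge_atTop n] with M hM
      exact hn.trans (by exact_mod_cast hM)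
    filter_upwards [h2, h3] with M hM hM'
    exact indicator_of_mem (show y ∈ S M from ⟨hM', hM⟩) f
  have hle : ∀ k y, |fk k y| ≤ |f y| := by
    intro k y
    by_cases hy : y ∈ S k
    · simp only [fk, indicator_of_mem hy, le_refl]
    · simp only [fk, indicator_of_notMem hy, abs_zero, abs_nonneg]
  have hbd : ∀ k, Bdd (fk k) := by
    intro k
    refine ⟨hf.indicator (hS k), k, fun x => ?_⟩
    by_cases hy : x ∈ S k
    · simp only [fk, indicator_of_mem hy]; exact hy.1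
    · simp only [fk, indicator_of_notMem hy, abs_zero]; positivity
  have hPlim : ∀ x, Tendsto (fun k => Pop θ h s (fk k) x) atTop (𝓝 (Pop θ h s f x)) := by
    intro x
    refine tendsto_integral_of_dominated_convergence (fun y => ((h x) ^ 2)⁻¹ * |f y|) ?_ ?_ ?_ ?_
    · intro k
      exact ((K_meas_right geo x).mul
        (Complex.measurable_ofReal.comp (hf.indicator (hS k)))).aestronglyMeasurable
    · exact hfi.abs.const_mul _
    · intro k
      refine Eventually.of_forall fun y => ?_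
      rw [norm_mul, Complex.norm_real, Real.norm_eq_abs]
      exact mul_le_mul (norm_K_le_left geo x y) (hle k y) (abs_nonneg _) (by positivity)
    · refine Eventually.of_forall fun y => ?_
      refine tendsto_const_nhds.congr' ?_
      filter_upwards [hlim y] with k hk
      rw [hk]
  calc ∫⁻ x, ‖Pop θ h s f x‖ₑ ^ 2 ∂w
      = ∫⁻ x, liminf (fun k => ‖Pop θ h s (fk k) x‖ₑ ^ 2) atTop ∂w := by
        refine lintegral_congr fun x => ?_
        have : Tendsto (fun k => ‖Pop θ h s (fk k) x‖ₑ ^ 2) atTop (𝓝 (‖Pop θ h s f x‖ₑ ^ 2)) := by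
          have h1 := (continuous_enorm.tendsto (Pop θ h s f x)).comp (hPlim x)
          exact ((ENNReal.continuous_pow 2).tendsto _).comp h1
        exact this.liminf_eq.symm
    _ ≤ liminf (fun k => ∫⁻ x, ‖Pop θ h s (fk k) x‖ₑ ^ 2 ∂w) atTop := by
        refine lintegral_liminf_le fun k => ?_
        exact ((Pop_meas geo s (hbd k).1).measurable.enorm.pow_const 2)
    _ ≤ ENNReal.ofReal (2 * C ^ 2) * ∫⁻ x, ‖f x‖ₑ ^ 2 ∂s := by
        refine liminf_le_of_le (by isBoundedDefault) ?_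
        intro b hb
        obtain ⟨k, hk⟩ := hb.exists
        refine hk.trans ?_
        refine (fin_bdd θ h geo s w C hC1 hB (fk k) (hbd k) k (fun x hx => ?_)).trans ?_
        · exact indicator_of_notMem (fun hx' => (not_lt.mpr hx) hx'.2) f
        · gcongr with x
          rw [Real.enorm_eq_ofReal_abs, Real.enorm_eq_ofReal_abs]
          exact ENNReal.ofReal_le_ofReal (hle k x)

theorem main_real (θ h : X → ℝ) (geo : Geo θ h) (s w : Measure X) [IsFiniteMeasure s]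
    [IsFiniteMeasure w] (C0 : ℝ) (hC : 0 ≤ C0) (hT : Testing θ h s w C0)
    (hT' : Testing θ h w s C0) : ∃ C : ℝ, 0 ≤ C ∧ ∀ f : X → ℝ, Measurable f →
    ∫⁻ x, ‖f x‖ₑ ^ 2 ∂s < ∞ →
    ∫⁻ x, ‖Pop θ h s f x‖ₑ ^ 2 ∂w ≤ ENNReal.ofReal C * ∫⁻ x, ‖f x‖ₑ ^ 2 ∂s := by
  obtain ⟨C, hC1, hB⟩ := main_bdd θ h geo s w C0 hC hT hT'
  exact ⟨2 * C ^ 2, by positivity, fun f hf hf2 => L2_of_bilin θ h geo s w C hC1 hB f hf hf2⟩

/-- duality: an `L^2(s) → L^2(w)` bound gives the bound with the roles exchanged -/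
theorem dual_bound (θ h : X → ℝ) (geo : Geo θ h) (s w : Measure X) [IsFiniteMeasure s]
    [IsFiniteMeasure w] (C : ℝ) (hC : 0 ≤ C)
    (hB : ∀ f : X → ℝ, Measurable f → ∫⁻ x, ‖f x‖ₑ ^ 2 ∂s < ∞ →
      ∫⁻ x, ‖Pop θ h s f x‖ₑ ^ 2 ∂w ≤ ENNReal.ofReal C * ∫⁻ x, ‖f x‖ₑ ^ 2 ∂s)
    (f : X → ℝ) (hf : Measurable f) (hf2 : ∫⁻ x, ‖f x‖ₑ ^ 2 ∂w < ∞) :
    ∫⁻ x, ‖Pop θ h w f x‖ₑ ^ 2 ∂s ≤ ENNReal.ofReal (2 * C) * ∫⁻ x, ‖f x‖ₑ ^ 2 ∂w := by
  have key := L2_of_bilin θ h geo w s (Real.sqrt C) (Real.sqrt_nonneg _) (fun f g hf hg N h1 h2 => ?_)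
    f hf hf2
  · rwa [Real.sq_sqrt hC] at key
  · obtain ⟨hfm, Cf, hCf⟩ := hf
    obtain ⟨hgm, Cg, hCg⟩ := hg
    have e : Bf θ h w s f g = (starRingEnd ℂ) (Bf θ h s w g f) := by
      have := La_fubini7125 geo (s := w) (w := s) hfm hgm (4 ^ N * Cf * Cg) (fun x y => ?_)
      · rw [La7125, sub_eq_zero] at this; exact this
      · have hCf0 : 0 ≤ Cf := (abs_nonneg _).trans (hCf x)
        have hCg0 : 0 ≤ Cg := (abs_nonneg _).trans (hCg x)
        by_cases hy : h y ≤ (1 / 2 : ℝ) ^ N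
        · rw [h1 y hy]; simp only [abs_zero, mul_zero, zero_mul]; positivity
        · push Not at hy
          have h3 : ((h y) ^ 2)⁻¹ ≤ 4 ^ N := by
            have h3 : (0 : ℝ) < (1 / 2) ^ N := by positivity
            have h4 : ((1 / 2 : ℝ) ^ N) ^ 2 ≤ (h y) ^ 2 := pow_le_pow_left₀ h3.le hy.le 2
            calc ((h y) ^ 2)⁻¹ ≤ (((1 / 2 : ℝ) ^ N) ^ 2)⁻¹ := inv_anti₀ (by positivity) h4
              _ = 4 ^ N := by
                rw [← pow_mul, mul_comm N 2, pow_mul, ← inv_pow]; norm_num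
          exact mul_le_mul (mul_le_mul ((norm_K_le_right geo x y).trans h3) (hCf y) (abs_nonneg _)
            (by positivity)) (hCg x) (abs_nonneg _) (by positivity)
    rw [e, RCLike.norm_conj]
    have hg2 : ∫⁻ x, ‖g x‖ₑ ^ 2 ∂s = ENNReal.ofReal (∫ x, g x ^ 2 ∂s) :=
      lint_sq_eq s (sq_int_of_bdd s hgm Cg hCg)
    have h5 := hB g hgm (by rw [hg2]; exact ENNReal.ofReal_lt_top)
    rw [hg2, ← ENNReal.ofReal_mul hC] at h5
    have h6 := (form_cs_7115 (Pop_meas geo s hgm)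
      (mul_nonneg hC (integral_nonneg fun x => sq_nonneg _)) h5 (g := f) ⟨hfm, Cf, hCf⟩).2
    rw [Real.sqrt_mul hC] at h6
    calc ‖Bf θ h s w g f‖ ≤ _ := h6
      _ = _ := by ring

end

end Pool.Agent.Helper807.BT
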