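import Pool.Agent.Helper807.BT.Defs
import Pool.Agent.Helper807.BT.Fin2

set_option autoImplicit false

open MeasureTheory Set Filter
open scoped ENNReal Topology

namespace Pool.Agent.Helper807.BT

noncomputable section

/-- normalised angle -/
def th (z : ℂ) : ℝ := Int.fract (Complex.arg z / (2 * Real.pi))

/-- height -/
def ht (z : ℂ) : ℝ := if ‖z‖ < 1 then 1 - ‖z‖ else 1 / 2

theorem geoD : Geo th ht where
  mθ := (Complex.measurable_arg.div_const _).fract
  mh := Measurable.ite (measurableSet_lt measurable_norm measurable_const)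
    (measurable_const.sub measurable_norm) measurable_const
  θ0 := fun x => Int.fract_nonneg _
  θ1 := fun x => Int.fract_lt_one _
  h0 := fun x => by unfold ht; split_ifs with h <;> linarith
  h1 := fun x => by unfold ht; split_ifs with h <;> linarith [norm_nonneg x]

/-- the measure `v dA` -/
def sm (v : ℂ → ℝ) : Measure ℂ := areaD.withDensity (fun z => ENNReal.ofReal (v z))

theorem exp_th (z : ℂ) : Complex.exp (2 * Real.pi * (th z : ℝ) * Complex.I) =
    Complex.exp (Complex.arg z * Complex.I) := by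
  rw [Complex.exp_eq_exp_iff_exists_int]
  refine ⟨-⌊Complex.arg z / (2 * Real.pi)⌋, ?_⟩
  unfold th
  rw [← Int.self_sub_floor]
  push_cast
  have : (Real.pi : ℂ) ≠ 0 := by exact_mod_cast Real.pi_ne_zero
  field_simp
  ring

theorem norm_mul_exp_th (z : ℂ) : (‖z‖ : ℂ) * Complex.exp (2 * Real.pi * (th z : ℝ) * Complex.I) = z := by
  rw [exp_th]; exact Complex.norm_mul_exp_arg_mul_I z

theorem K_disc {z ζ : ℂ} (hz : ‖z‖ < 1) (hζ : ‖ζ‖ < 1) :
    K th ht z ζ = ((1 - z * (starRingEnd ℂ) ζ) ^ 2)⁻¹ := by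
  unfold K kap den ht
  simp only [hz, hζ, if_true]
  congr 3
  have e1 : (starRingEnd ℂ) ζ = (‖ζ‖ : ℂ) * Complex.exp (-(2 * Real.pi * (th ζ : ℝ) * Complex.I)) := by
    conv_lhs => rw [← norm_mul_exp_th ζ]
    rw [map_mul, Complex.conj_ofReal, ← Complex.exp_conj]
    congr 2
    simp only [map_mul, Complex.conj_ofReal, Complex.conj_I, map_ofNat]
    ring
  rw [e1]
  conv_rhs => rw [← norm_mul_exp_th z]
  rw [show (‖z‖ : ℂ) * Complex.exp (2 * Real.pi * (th z : ℝ) * Complex.I) *
      ((‖ζ‖ : ℂ) * Complex.exp (-(2 * Real.pi * (th ζ : ℝ) * Complex.I))) =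
      ((‖z‖ : ℂ) * ‖ζ‖) * (Complex.exp (2 * Real.pi * (th z : ℝ) * Complex.I) *
      Complex.exp (-(2 * Real.pi * (th ζ : ℝ) * Complex.I))) by ring, ← Complex.exp_add]
  congr 1
  · push_cast; ring
  · congr 1; push_cast; ring

theorem ae_ball : ∀ᵐ z ∂areaD, ‖z‖ < 1 := by
  unfold areaD
  refine Measure.ae_smul_measure ?_ _
  have := ae_restrict_mem (μ := (volume : Measure ℂ)) (s := Metric.ball (0 : ℂ) 1)
    Metric.isOpen_ball.measurableSet
  filter_upwards [this] with z hz
  simpa using hz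

instance finite_areaD : IsFiniteMeasure areaD := by
  unfold areaD
  have : IsFiniteMeasure ((volume : Measure ℂ).restrict (Metric.ball (0 : ℂ) 1)) :=
    ⟨by rw [Measure.restrict_apply_univ]; exact measure_ball_lt_top⟩
  exact Measure.smul_finite _ (by exact ENNReal.ofReal_ne_top)

theorem areaD_ac : areaD ≪ (volume : Measure ℂ) := by
  unfold areaD
  exact (Measure.smul_absolutelyContinuous).trans Measure.restrict_le_self.absolutelyContinuous

theorem IsWeight.aesm {v : ℂ → ℝ} (hv : IsWeight v) : AEStronglyMeasurable v areaD := by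
  unfold areaD
  exact (hv.loc.aestronglyMeasurable).smul_measure _

theorem IsWeight.aem {v : ℂ → ℝ} (hv : IsWeight v) :
    AEMeasurable (fun z => ENNReal.ofReal (v z)) areaD :=
  hv.aesm.aemeasurable.ennreal_ofReal

theorem normL2_eq {v : ℂ → ℝ} (hv : IsWeight v) (F : ℂ → ℂ) :
    normL2 v F = (∫⁻ z, ‖F z‖ₑ ^ 2 ∂(sm v)) ^ (1 / 2 : ℝ) := by
  unfold normL2 sm
  rw [lintegral_withDensity_eq_lintegral_mul_non_measurable₀ _ hv.aem
    (Eventually.of_forall fun z => ENNReal.ofReal_lt_top)]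
  congr 2
  funext z
  simp only [Pi.mul_apply]
  rw [mul_comm]

theorem mass_eq {v : ℂ → ℝ} (E : Set ℂ) (hE : MeasurableSet E) : mass v E = sm v E := by
  unfold mass sm
  rw [withDensity_apply _ hE]

/-- conversion of the operators (real functions) -/
theorem Pop_disc {v : ℂ → ℝ} (hv : IsWeight v) (F : ℂ → ℝ) {z : ℂ} (hz : ‖z‖ < 1) :
    Pop th ht (sm v) F z = bergP (fun ζ => (v ζ : ℂ) * (F ζ : ℂ)) z := by
  unfold Pop bergP sm
  rw [integral_withDensity_eq_integral_toReal_smul₀ hv.aem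
    (Eventually.of_forall fun z => ENNReal.ofReal_lt_top)]
  refine integral_congr_ae ?_
  filter_upwards [ae_ball] with ζ hζ
  rw [K_disc hz hζ, ENNReal.toReal_ofReal (hv.pos ζ hζ).le, Complex.real_smul, div_eq_mul_inv]
  ring

end

end Pool.Agent.Helper807.BT
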