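import Pool.Agent.Helper807.BT.Disc1

set_option autoImplicit false

open MeasureTheory Set Filter
open scoped ENNReal Topology

namespace Pool.Agent.Helper807.BT

noncomputable section

theorem ray_null (c : ℂ) : ∀ᵐ z ∂areaD, ∀ r : ℝ, z ≠ (r : ℂ) * c := by
  have h0 : (volume : Measure ℂ) (Submodule.span ℝ ({c} : Set ℂ) : Set ℂ) = 0 := by
    apply Measure.addHaar_submodule
    intro h
    have h1 : Module.finrank ℝ (Submodule.span ℝ ({c} : Set ℂ)) ≤ 1 :=
      (finrank_span_le_card ({c} : Set ℂ)).trans (by simp)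
    rw [h, finrank_top, Complex.finrank_real_complex] at h1
    norm_num at h1
  have h1 : ∀ᵐ z ∂(volume : Measure ℂ), z ∉ (Submodule.span ℝ ({c} : Set ℂ) : Set ℂ) := by
    rw [ae_iff]; simpa using h0
  have h2 := areaD_ac.ae_le h1
  filter_upwards [h2] with z hz r hr
  apply hz
  rw [SetLike.mem_coe, Submodule.mem_span_singleton]
  exact ⟨r, by rw [hr, Complex.real_smul]⟩

theorem exp_eq_iff (s t : ℝ) : Complex.exp (2 * Real.pi * s * Complex.I) =
    Complex.exp (2 * Real.pi * t * Complex.I) ↔ ∃ n : ℤ, s = t + n := by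
  rw [Complex.exp_eq_exp_iff_exists_int]
  have hpi : (2 * Real.pi * Complex.I : ℂ) ≠ 0 := by
    simp [Real.pi_ne_zero]
  constructor
  · rintro ⟨n, hn⟩
    refine ⟨n, ?_⟩
    have : (2 * Real.pi * Complex.I : ℂ) * s = (2 * Real.pi * Complex.I) * ((t : ℂ) + n) := by
      rw [show (2 * Real.pi * Complex.I : ℂ) * s = 2 * Real.pi * s * Complex.I by ring, hn]; ring
    have h2 := mul_left_cancel₀ hpi this
    exact_mod_cast h2
  · rintro ⟨n, hn⟩
    refine ⟨n, ?_⟩
    rw [hn]; push_cast; ring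

theorem box_ae {I : Set ℂ} {l a : ℝ} (hl : 0 < l) (hl1 : l ≤ 1)
    (h1 : ∀ t : ℝ, a < t → t < a + l → Complex.exp (2 * Real.pi * t * Complex.I) ∈ I)
    (h2 : ∀ z ∈ I, ∃ t : ℝ, a ≤ t ∧ t ≤ a + l ∧ z = Complex.exp (2 * Real.pi * t * Complex.I)) :
    ∀ᵐ z ∂areaD, (z ∈ carlesonBox I l ↔ z ∈ arcBox th ht a l) := by
  filter_upwards [ae_ball, ray_null 1, ray_null (Complex.exp (2 * Real.pi * a * Complex.I)),
    ray_null (Complex.exp (2 * Real.pi * (a + l : ℝ) * Complex.I))] with z hz hz0 hza hzl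
  have hz0' : z ≠ 0 := by have := hz0 0; simpa using this
  have hn : (‖z‖ : ℂ) ≠ 0 := by simpa using hz0'
  have hzd : z / (‖z‖ : ℂ) = Complex.exp (2 * Real.pi * (th z : ℝ) * Complex.I) := by
    rw [div_eq_iff hn, mul_comm]; exact (norm_mul_exp_th z).symm
  have hht : ht z = 1 - ‖z‖ := by simp [ht, hz]
  unfold carlesonBox arcBox
  simp only [mem_setOf_eq, hz, true_and, hht, hzd]
  have key : Complex.exp (2 * Real.pi * (th z : ℝ) * Complex.I) ∈ I ↔
      Int.fract (th z - a) < l := by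
    constructor
    · intro hI
      obtain ⟨t, ht1, ht2, ht3⟩ := h2 _ hI
      have hta : t ≠ a := by
        rintro rfl
        exact hza ‖z‖ (by rw [← ht3]; exact (norm_mul_exp_th z).symm)
      have htl : t ≠ a + l := by
        intro h
        exact hzl ‖z‖ (by rw [← h, ← ht3]; exact (norm_mul_exp_th z).symm)
      obtain ⟨n, hn⟩ := (exp_eq_iff _ _).mp ht3
      have h3 : Int.fract (th z - a) = Int.fract (t - a) := by
        rw [hn, show t + (n : ℝ) - a = (t - a) + n by ring, Int.fract_add_intCast]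
      have h4 : t < a + l := lt_of_le_of_ne ht2 htl
      rw [h3, Int.fract_eq_self.mpr ⟨by linarith, by linarith⟩]
      linarith
    · intro hf
      have h5 : 0 ≤ Int.fract (th z - a) := Int.fract_nonneg _
      have e1 : Complex.exp (2 * Real.pi * (th z : ℝ) * Complex.I) =
          Complex.exp (2 * Real.pi * ((a + Int.fract (th z - a) : ℝ)) * Complex.I) := by
        rw [exp_eq_iff]
        refine ⟨⌊th z - a⌋, ?_⟩
        have := Int.fract_add_floor (th z - a)
        linarith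
      rcases h5.eq_or_lt with h6 | h6
      · exfalso
        apply hza ‖z‖
        rw [← h6, add_zero] at e1
        rw [← e1]; exact (norm_mul_exp_th z).symm
      · rw [e1]
        exact h1 _ (by linarith) (by linarith)
  rw [key]
  constructor
  · rintro ⟨_, h3, h4⟩; exact ⟨h3, h4⟩
  · rintro ⟨h3, h4⟩; exact ⟨hz0', h3, h4⟩

/-- the half open arc -/
def harc (a l : ℝ) : Set ℂ :=
  {z | ∃ t : ℝ, a ≤ t ∧ t < a + l ∧ z = Complex.exp (2 * Real.pi * t * Complex.I)}

theorem isArc_harc (a l : ℝ) (hl : 0 < l) (hl1 : l ≤ 1) : IsArc (harc a l) l :=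
  ⟨hl, hl1, a, fun t h1 h2 => ⟨t, h1.le, h2, rfl⟩, fun z ⟨t, h1, h2, h3⟩ => ⟨t, h1, h2.le, h3⟩⟩

theorem harc_ae (a l : ℝ) (hl : 0 < l) (hl1 : l ≤ 1) :
    ∀ᵐ z ∂areaD, (z ∈ carlesonBox (harc a l) l ↔ z ∈ arcBox th ht a l) :=
  box_ae hl hl1 (fun t h1 h2 => ⟨t, h1.le, h2, rfl⟩) (fun z ⟨t, h1, h2, h3⟩ => ⟨t, h1, h2.le, h3⟩)

theorem bergP_congr {F G : ℂ → ℂ} (h : ∀ᵐ z ∂areaD, F z = G z) (z : ℂ) : bergP F z = bergP G z := by
  unfold bergP
  refine integral_congr_ae ?_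
  filter_upwards [h] with ζ hζ
  rw [hζ]

theorem bergDefined_congr {F G : ℂ → ℂ} (h : ∀ᵐ z ∂areaD, F z = G z) (hF : BergDefined F) :
    BergDefined G := by
  intro z hz
  refine (hF z hz).congr ?_
  filter_upwards [h] with ζ hζ
  rw [hζ]

theorem mass_congr {v : ℂ → ℝ} {E F : Set ℂ} (h : ∀ᵐ z ∂areaD, (z ∈ E ↔ z ∈ F)) :
    mass v E = mass v F := by
  unfold mass
  refine setLIntegral_congr ?_
  filter_upwards [h] with z hz
  exact propext hz

theorem sm_ac (v : ℂ → ℝ) : sm v ≪ areaD := withDensity_absolutelyContinuous _ _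

theorem sm_ball (v : ℂ → ℝ) : ∀ᵐ z ∂(sm v), ‖z‖ < 1 := (sm_ac v).ae_le ae_ball

/-- `1 / |1 - z conj ζ| ≤ 1/(1-|z|)` -/
theorem one_sub_norm_le (z ζ : ℂ) (hζ : ‖ζ‖ ≤ 1) : 1 - ‖z‖ ≤ ‖1 - z * (starRingEnd ℂ) ζ‖ := by
  have h1 : ‖z * (starRingEnd ℂ) ζ‖ ≤ ‖z‖ := by
    rw [norm_mul, RCLike.norm_conj]
    exact mul_le_of_le_one_right (norm_nonneg _) hζ
  have h2 := norm_sub_norm_le (1 : ℂ) (z * (starRingEnd ℂ) ζ)
  rw [norm_one] at h2
  linarith

/-- criterion for `BergDefined` -/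
theorem bergDefined_of_integrable {F : ℂ → ℂ} (hF : Integrable F areaD) : BergDefined F := by
  intro z hz
  have hpos : 0 < 1 - ‖z‖ := by linarith
  have hm : Measurable (fun ζ : ℂ => ((1 - z * (starRingEnd ℂ) ζ) ^ 2)⁻¹) := by
    have : Continuous (fun ζ : ℂ => (1 - z * (starRingEnd ℂ) ζ) ^ 2) := by
      have := Complex.continuous_conj
      fun_prop
    exact this.measurable.inv
  have h1 : Integrable (fun ζ => ((1 - z * (starRingEnd ℂ) ζ) ^ 2)⁻¹ * F ζ) areaD := by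
    refine hF.bdd_mul hm.aestronglyMeasurable (c := ((1 - ‖z‖) ^ 2)⁻¹) ?_
    filter_upwards [ae_ball] with ζ hζ
    rw [norm_inv, norm_pow]
    exact inv_anti₀ (by positivity) (pow_le_pow_left₀ hpos.le (one_sub_norm_le z ζ hζ.le) 2)
  refine h1.congr (Eventually.of_forall fun ζ => ?_)
  simp only [div_eq_mul_inv]; ring

theorem integrable_of_bergDefined {F : ℂ → ℂ} (hF : BergDefined F) : Integrable F areaD := by
  have := hF 0 (by simp)
  simpa using this

end

end Pool.Agent.Helper807.BT
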