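import Pool.Agent.Helper807.BT.Disc2

set_option autoImplicit false

open MeasureTheory Set Filter
open scoped ENNReal Topology

namespace Pool.Agent.Helper807.BT

noncomputable section

theorem sq_half (a : ℝ≥0∞) : (a ^ (1 / 2 : ℝ)) ^ (2 : ℕ) = a := by
  rw [← ENNReal.rpow_natCast, ← ENNReal.rpow_mul]
  norm_num

theorem half_sq (a : ℝ≥0∞) : (a ^ (2 : ℕ)) ^ (1 / 2 : ℝ) = a := by
  rw [← ENNReal.rpow_natCast, ← ENNReal.rpow_mul]
  norm_num

theorem sq_of_half {a m : ℝ≥0∞} {c : ℝ} (hc : 0 ≤ c)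
    (h : a ^ (1 / 2 : ℝ) ≤ ENNReal.ofReal c * m ^ (1 / 2 : ℝ)) : a ≤ ENNReal.ofReal (c ^ 2) * m := by
  have h1 : (a ^ (1 / 2 : ℝ)) ^ (2 : ℕ) ≤ (ENNReal.ofReal c * m ^ (1 / 2 : ℝ)) ^ (2 : ℕ) := by
    gcongr
  rwa [mul_pow, sq_half, sq_half, ← ENNReal.ofReal_pow hc] at h1

theorem half_of_sq {a m : ℝ≥0∞} {c : ℝ} (hc : 0 ≤ c) (h : a ≤ ENNReal.ofReal (c ^ 2) * m) :
    a ^ (1 / 2 : ℝ) ≤ ENNReal.ofReal c * m ^ (1 / 2 : ℝ) := by
  have h1 : a ^ (1 / 2 : ℝ) ≤ (ENNReal.ofReal (c ^ 2) * m) ^ (1 / 2 : ℝ) :=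
    ENNReal.rpow_le_rpow h (by norm_num)
  rwa [ENNReal.mul_rpow_of_nonneg _ _ (by norm_num), ENNReal.ofReal_pow hc, half_sq] at h1

theorem ofReal_max (c : ℝ) : ENNReal.ofReal (max c 0) = ENNReal.ofReal c := by
  rcases le_total 0 c with h | h
  · rw [max_eq_left h]
  · rw [max_eq_right h, ENNReal.ofReal_zero, ENNReal.ofReal_of_nonpos h]

/-- integrability of a weight from the well-definedness on the full box -/
theorem weight_integrable {v : ℂ → ℝ}
    (h : BergDefined ((carlesonBox (harc 0 1) 1).indicator (fun ζ => (v ζ : ℂ)))) :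
    Integrable v areaD := by
  have h1 := integrable_of_bergDefined h
  have h2 : Integrable (fun ζ => (v ζ : ℂ)) areaD := by
    refine h1.congr ?_
    filter_upwards [harc_ae 0 1 one_pos le_rfl] with z hz
    have : z ∈ arcBox th ht 0 1 := ⟨by simpa using Int.fract_lt_one _, geoD.h1 z⟩
    rw [indicator_of_mem (hz.mpr this)]
  have h3 := h2.re
  simpa using h3

theorem finite_sm {v : ℂ → ℝ} (h : Integrable v areaD) : IsFiniteMeasure (sm v) :=
  isFiniteMeasure_withDensity_ofReal h.2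

/-- the operator on complex functions -/
theorem PopC_disc {v : ℂ → ℝ} (hv : IsWeight v) (F : ℂ → ℂ) {z : ℂ} (hz : ‖z‖ < 1) :
    ∫ ζ, K th ht z ζ * F ζ ∂(sm v) = bergP (fun ζ => (v ζ : ℂ) * F ζ) z := by
  unfold bergP sm
  rw [integral_withDensity_eq_integral_toReal_smul₀ hv.aem
    (Eventually.of_forall fun z => ENNReal.ofReal_lt_top)]
  refine integral_congr_ae ?_
  filter_upwards [ae_ball] with ζ hζ
  rw [K_disc hz hζ, ENNReal.toReal_ofReal (hv.pos ζ hζ).le, Complex.real_smul, div_eq_mul_inv]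
  ring

theorem sm_integrable_iff {v : ℂ → ℝ} (hv : IsWeight v) (F : ℂ → ℂ) (hF : Integrable F (sm v)) :
    Integrable (fun ζ => (v ζ : ℂ) * F ζ) areaD := by
  unfold sm at hF
  rw [integrable_withDensity_iff_integrable_smul₀' hv.aem
    (Eventually.of_forall fun z => ENNReal.ofReal_lt_top)] at hF
  refine hF.congr ?_
  filter_upwards [ae_ball] with ζ hζ
  rw [ENNReal.toReal_ofReal (hv.pos ζ hζ).le, Complex.real_smul]

/-- the measure of `E` in terms of functions -/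
theorem lint_ind (μ : Measure ℂ) (E : Set ℂ) (hE : MeasurableSet E) :
    ∫⁻ x, ‖(E.indicator (1 : ℂ → ℝ) x)‖ₑ ^ 2 ∂μ = μ E := by
  have : ∀ x, ‖(E.indicator (1 : ℂ → ℝ) x)‖ₑ ^ 2 = E.indicator (1 : ℂ → ℝ≥0∞) x := by
    intro x
    by_cases hx : x ∈ E
    · simp [hx]
    · simp [hx]
  rw [lintegral_congr this, lintegral_indicator_one hE]

theorem meas_arcBox (a l : ℝ) : MeasurableSet (arcBox th ht a l) :=
  (measurableSet_lt (geoD.mθ.sub_const a).fract measurable_const).inter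
    (measurableSet_le geoD.mh measurable_const)

/-- conversion of one testing inequality -/
theorem test_conv {v u : ℂ → ℝ} (hv : IsWeight v) (hu : IsWeight u) {I : Set ℂ} {l a : ℝ}
    (h : ∀ᵐ z ∂areaD, (z ∈ carlesonBox I l ↔ z ∈ arcBox th ht a l)) :
    normL2 u (bergP ((carlesonBox I l).indicator (fun ζ => (v ζ : ℂ)))) =
      (∫⁻ x, ‖Pop th ht (sm v) ((arcBox th ht a l).indicator 1) x‖ₑ ^ 2 ∂(sm u)) ^ (1 / 2 : ℝ) ∧
    mass v (carlesonBox I l) = sm v (arcBox th ht a l) := by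
  constructor
  · rw [normL2_eq hu]
    congr 1
    refine lintegral_congr_ae ?_
    filter_upwards [sm_ball u] with z hz
    rw [Pop_disc hv _ hz]
    congr 2
    refine bergP_congr ?_ z
    filter_upwards [h] with ζ hζ
    by_cases h1 : ζ ∈ arcBox th ht a l
    · rw [indicator_of_mem (hζ.mpr h1), indicator_of_mem h1]; simp
    · rw [indicator_of_notMem (fun h2 => h1 (hζ.mp h2)), indicator_of_notMem h1]; simp
  · rw [mass_congr h, mass_eq _ (meas_arcBox a l)]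

/-- measure testing from (T) -/
theorem testing_of {v u : ℂ → ℝ} (hv : IsWeight v) (hu : IsWeight u) (C : ℝ) (hC : 0 ≤ C)
    (h : ∀ (I : Set ℂ) (l : ℝ), IsArc I l →
      normL2 u (bergP ((carlesonBox I l).indicator (fun ζ => (v ζ : ℂ)))) ≤
        ENNReal.ofReal C * mass v (carlesonBox I l) ^ (1 / 2 : ℝ)) :
    Testing th ht (sm v) (sm u) (C ^ 2) := by
  intro a l hl hl1
  have h1 := h (harc a l) l (isArc_harc a l hl hl1)
  obtain ⟨e1, e2⟩ := test_conv hv hu (harc_ae a l hl hl1)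
  rw [e1, e2] at h1
  exact sq_of_half hC h1

theorem enorm_add_sq_le (a b : ℂ) : ‖a + Complex.I * b‖ₑ ^ 2 ≤ 2 * (‖a‖ₑ ^ 2 + ‖b‖ₑ ^ 2) := by
  have h1 : ‖a + Complex.I * b‖ ^ 2 ≤ 2 * (‖a‖ ^ 2 + ‖b‖ ^ 2) := by
    have h2 : ‖a + Complex.I * b‖ ≤ ‖a‖ + ‖b‖ := by
      refine (norm_add_le _ _).trans ?_
      rw [norm_mul, Complex.norm_I, one_mul]
    have h3 := norm_nonneg (a + Complex.I * b)
    nlinarith [sq_nonneg (‖a‖ - ‖b‖)]
  have h4 := ENNReal.ofReal_le_ofReal h1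
  rw [ENNReal.ofReal_pow (norm_nonneg _), ENNReal.ofReal_mul (by norm_num),
    ENNReal.ofReal_add (by positivity) (by positivity), ENNReal.ofReal_pow (norm_nonneg _),
    ENNReal.ofReal_pow (norm_nonneg _), ofReal_norm, ofReal_norm, ofReal_norm] at h4
  simpa using h4

/-- (T) implies (B) -/
theorem B_of_T {w σ : ℂ → ℝ} (hw : IsWeight w) (hσ : IsWeight σ) (hT : CondT w σ) :
    CondB w σ := by
  obtain ⟨C0, hT⟩ := hT
  have harc1 := isArc_harc 0 1 one_pos le_rfl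
  have iσ : Integrable σ areaD := weight_integrable (hT _ _ harc1).1.1
  have iw : Integrable w areaD := weight_integrable (hT _ _ harc1).2.1
  have := finite_sm iσ
  have := finite_sm iw
  have t1 : Testing th ht (sm σ) (sm w) ((max C0 0) ^ 2) :=
    testing_of hσ hw _ (le_max_right _ _) (fun I l hI => by rw [ofReal_max]; exact (hT I l hI).1.2)
  have t2 : Testing th ht (sm w) (sm σ) ((max C0 0) ^ 2) :=
    testing_of hw hσ _ (le_max_right _ _) (fun I l hI => by rw [ofReal_max]; exact (hT I l hI).2.2)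
  obtain ⟨C, hC, hmain⟩ := main_real th ht geoD (sm σ) (sm w) _ (sq_nonneg _) t1 t2
  refine ⟨2 * C + 1, fun f hf hf2 => ?_⟩
  -- measurable representative
  set f' : ℂ → ℂ := hf.mk f with hf'
  have hf'm : Measurable f' := hf.stronglyMeasurable_mk.measurable
  have hff' : ∀ᵐ z ∂areaD, f z = f' z := hf.ae_eq_mk
  set f1 : ℂ → ℝ := fun z => (f' z).re with hf1
  set f2 : ℂ → ℝ := fun z => (f' z).im with hf2'
  have hf1m : Measurable f1 := Complex.measurable_re.comp hf'm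
  have hf2m : Measurable f2 := Complex.measurable_im.comp hf'm
  have hnorm : normL2 σ f = (∫⁻ x, ‖f' x‖ₑ ^ 2 ∂(sm σ)) ^ (1 / 2 : ℝ) := by
    rw [normL2_eq hσ]
    congr 1
    refine lintegral_congr_ae ?_
    filter_upwards [(sm_ac σ).ae_le hff'] with z hz
    rw [hz]
  have hsum : ∫⁻ x, ‖f' x‖ₑ ^ 2 ∂(sm σ) = ∫⁻ x, ‖f1 x‖ₑ ^ 2 ∂(sm σ) + ∫⁻ x, ‖f2 x‖ₑ ^ 2 ∂(sm σ) := by
    rw [← lintegral_add_left (hf1m.enorm.pow_const 2)]
    exact lintegral_congr fun x => enorm_sq_complex _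
  have hfin : ∫⁻ x, ‖f' x‖ₑ ^ 2 ∂(sm σ) < ∞ := by
    rw [hnorm] at hf2
    by_contra h
    rw [not_lt, top_le_iff] at h
    rw [h, ENNReal.top_rpow_of_pos (by norm_num)] at hf2
    exact lt_irrefl _ hf2
  have h1fin : ∫⁻ x, ‖f1 x‖ₑ ^ 2 ∂(sm σ) < ∞ := lt_of_le_of_lt (hsum ▸ le_self_add) hfin
  have h2fin : ∫⁻ x, ‖f2 x‖ₑ ^ 2 ∂(sm σ) < ∞ := lt_of_le_of_lt (hsum ▸ le_add_self) hfin
  have i1 : Integrable f1 (sm σ) := integrable_of_sq _ hf1m h1fin
  have i2 : Integrable f2 (sm σ) := integrable_of_sq _ hf2m h2fin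
  have i' : Integrable f' (sm σ) := by
    have := i1.ofReal (𝕜 := ℂ).add (i2.ofReal (𝕜 := ℂ).mul_const Complex.I)
    refine this.congr (Eventually.of_forall fun z => ?_)
    exact Complex.re_add_im (f' z)
  have hcongr : ∀ᵐ z ∂areaD, (σ z : ℂ) * f' z = (σ z : ℂ) * f z := by
    filter_upwards [hff'] with z hz
    rw [hz]
  constructor
  · exact bergDefined_congr hcongr (bergDefined_of_integrable (sm_integrable_iff hσ f' i'))
  · have hP : ∀ z : ℂ, ‖z‖ < 1 → bergP (fun ζ => (σ ζ : ℂ) * f ζ) z =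
        Pop th ht (sm σ) f1 z + Complex.I * Pop th ht (sm σ) f2 z := by
      intro z hz
      rw [← bergP_congr hcongr z, ← PopC_disc hσ f' hz]
      unfold Pop
      rw [← integral_const_mul, ← integral_add (K_mul_integrable geoD _ i1 z)
        ((K_mul_integrable geoD _ i2 z).const_mul _)]
      refine integral_congr_ae (Eventually.of_forall fun ζ => ?_)
      simp only [hf1, hf2']
      have := Complex.re_add_im (f' ζ)
      linear_combination (-(K th ht z ζ)) * this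
    have hle : ∫⁻ z, ‖bergP (fun ζ => (σ ζ : ℂ) * f ζ) z‖ₑ ^ 2 ∂(sm w) ≤
        ENNReal.ofReal (2 * C) * ∫⁻ x, ‖f' x‖ₑ ^ 2 ∂(sm σ) := by
      calc ∫⁻ z, ‖bergP (fun ζ => (σ ζ : ℂ) * f ζ) z‖ₑ ^ 2 ∂(sm w)
          ≤ ∫⁻ z, 2 * (‖Pop th ht (sm σ) f1 z‖ₑ ^ 2 + ‖Pop th ht (sm σ) f2 z‖ₑ ^ 2) ∂(sm w) := by
            refine lintegral_mono_ae ?_
            filter_upwards [sm_ball w] with z hz
            rw [hP z hz]
            exact enorm_add_sq_le _ _
        _ = 2 * (∫⁻ z, ‖Pop th ht (sm σ) f1 z‖ₑ ^ 2 ∂(sm w) +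
              ∫⁻ z, ‖Pop th ht (sm σ) f2 z‖ₑ ^ 2 ∂(sm w)) := by
            rw [lintegral_const_mul' _ _ (by norm_num), lintegral_add_left]
            exact (Pop_meas geoD _ hf1m).measurable.enorm.pow_const 2
        _ ≤ 2 * (ENNReal.ofReal C * ∫⁻ x, ‖f1 x‖ₑ ^ 2 ∂(sm σ) +
              ENNReal.ofReal C * ∫⁻ x, ‖f2 x‖ₑ ^ 2 ∂(sm σ)) := by
            gcongr
            · exact hmain f1 hf1m h1fin
            · exact hmain f2 hf2m h2fin
        _ = ENNReal.ofReal (2 * C) * ∫⁻ x, ‖f' x‖ₑ ^ 2 ∂(sm σ) := by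
            rw [hsum, ← mul_add, ENNReal.ofReal_mul (by norm_num)]
            simp [mul_assoc]
    rw [normL2_eq hw, hnorm]
    refine half_of_sq (by linarith) (hle.trans ?_)
    gcongr
    nlinarith

end

end Pool.Agent.Helper807.BT
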