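import Pool.Agent.Helper807.BT.Disc3

set_option autoImplicit false

open MeasureTheory Set Filter
open scoped ENNReal Topology

namespace Pool.Agent.Helper807.BT

noncomputable section

/-- real part of `(1-u)^{-2}` for small `u` -/
theorem re_kernel (u : ℂ) (hu : ‖u‖ ≤ 1 / 8) : (1 / 2 : ℝ) ≤ (((1 - u) ^ 2)⁻¹).re := by
  have h1 : (7 / 8 : ℝ) ≤ ‖1 - u‖ := by
    have := norm_sub_norm_le (1 : ℂ) u
    rw [norm_one] at this
    linarith
  have hpos : 0 < ‖1 - u‖ := by linarith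
  have hne : (1 - u) ≠ 0 := norm_pos_iff.mp hpos
  have h2 : ‖((1 - u) ^ 2)⁻¹ - 1‖ ≤ 1 / 2 := by
    have e : ((1 - u) ^ 2)⁻¹ - 1 = (u * (2 - u)) * ((1 - u) ^ 2)⁻¹ := by
      field_simp
      ring
    rw [e, norm_mul, norm_mul, norm_inv, norm_pow, ← div_eq_mul_inv, div_le_iff₀ (by positivity)]
    have h3 : ‖2 - u‖ ≤ 17 / 8 := by
      have := norm_sub_le (2 : ℂ) u
      have h4 : ‖(2 : ℂ)‖ = 2 := by simp
      rw [h4] at this
      linarith
    have h5 : ‖u‖ * ‖2 - u‖ ≤ (1 / 8) * (17 / 8) :=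
      mul_le_mul hu h3 (norm_nonneg _) (by norm_num)
    have h6 : (7 / 8 : ℝ) ^ 2 ≤ ‖1 - u‖ ^ 2 := pow_le_pow_left₀ (by norm_num) h1 2
    linarith
  have h3 := (Complex.abs_re_le_norm (((1 - u) ^ 2)⁻¹ - 1)).trans h2
  rw [Complex.sub_re, Complex.one_re] at h3
  have := (abs_le.mp h3).1
  linarith

/-- lower bound for `P(v 1_E)` -/
theorem lower_berg {v : ℂ → ℝ} (hv : IsWeight v) (E : Set ℂ) (hE : MeasurableSet E)
    (hi : IntegrableOn v E areaD) {z : ℂ} (hz : ‖z‖ < 1) (hzE : ∀ ζ ∈ E, ‖ζ‖ < 1 → ‖z‖ * ‖ζ‖ ≤ 1 / 8) :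
    (1 / 2) * (sm v E).toReal ≤ ‖bergP (fun ζ => (v ζ : ℂ) * E.indicator 1 ζ) z‖ := by
  have hint : Integrable (fun ζ => (v ζ : ℂ) * E.indicator 1 ζ) areaD := by
    have h1 : Integrable (E.indicator v) areaD := (integrable_indicator_iff hE).mpr hi
    refine h1.ofReal (𝕜 := ℂ).congr (Eventually.of_forall fun ζ => ?_)
    by_cases h : ζ ∈ E
    · simp [h]
    · simp [h]
  have hdef := bergDefined_of_integrable hint z hz
  have hre : (bergP (fun ζ => (v ζ : ℂ) * E.indicator 1 ζ) z).re =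
      ∫ ζ, ((v ζ : ℂ) * E.indicator 1 ζ / (1 - z * (starRingEnd ℂ) ζ) ^ 2).re ∂areaD := by
    have := integral_re hdef
    simp only [RCLike.re_eq_complex_re] at this
    rw [this]; rfl
  have hmass : (sm v E).toReal = ∫ ζ, E.indicator v ζ ∂areaD := by
    rw [integral_indicator hE, ← mass_eq E hE, mass, integral_eq_lintegral_of_nonneg_ae]
    · refine (ae_restrict_of_ae ?_)
      filter_upwards [ae_ball] with ζ hζ
      exact (hv.pos ζ hζ).le
    · exact hi.1
  refine le_trans ?_ (Complex.re_le_norm _)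
  rw [hre, hmass, ← integral_const_mul]
  refine integral_mono_ae (((integrable_indicator_iff hE).mpr hi).const_mul _) hdef.re ?_
  filter_upwards [ae_ball] with ζ hζ
  by_cases h : ζ ∈ E
  · simp only [indicator_of_mem h, Pi.one_apply, mul_one]
    have e : ((v ζ : ℂ) / (1 - z * (starRingEnd ℂ) ζ) ^ 2).re =
        v ζ * (((1 - z * (starRingEnd ℂ) ζ) ^ 2)⁻¹).re := by
      rw [div_eq_mul_inv, Complex.re_ofReal_mul]
    rw [e, mul_comm]
    refine mul_le_mul_of_nonneg_left ?_ (hv.pos ζ hζ).le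
    refine re_kernel _ ?_
    rw [norm_mul, RCLike.norm_conj]
    exact hzE ζ h hζ
  · simp [indicator_of_notMem h]

/-- the ball of radius `R` -/
theorem int_ball {v : ℂ → ℝ} (hv : IsWeight v) (R : ℝ) (hR : R < 1) :
    IntegrableOn v (Metric.closedBall (0 : ℂ) R) areaD := by
  have h1 : IntegrableOn v (Metric.closedBall (0 : ℂ) R) volume :=
    hv.loc.integrableOn_compact_subset
      (fun z hz => by
        have : ‖z‖ ≤ R := by simpa using hz
        simpa using lt_of_le_of_lt this hR) (isCompact_closedBall _ _)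
  unfold areaD
  unfold IntegrableOn at h1 ⊢
  rw [Measure.restrict_smul]
  refine Integrable.smul_measure ?_ ENNReal.ofReal_ne_top
  refine h1.mono_measure ?_
  exact Measure.restrict_mono_measure Measure.restrict_le_self _

theorem sm_ball_pos {v : ℂ → ℝ} (hv : IsWeight v) : 0 < sm v (Metric.closedBall (0 : ℂ) (1 / 8)) := by
  rw [← mass_eq _ Metric.isClosed_closedBall.measurableSet, mass, pos_iff_ne_zero]
  intro h0
  rw [lintegral_eq_zero_iff' hv.aem.restrict] at h0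
  have h1 : ∀ᵐ z ∂(areaD.restrict (Metric.closedBall (0 : ℂ) (1 / 8))), False := by
    filter_upwards [h0, ae_restrict_of_ae ae_ball] with z hz hz1
    have := hv.pos z hz1
    simp only [Pi.zero_apply, ENNReal.ofReal_eq_zero] at hz
    linarith
  have h2 : areaD (Metric.closedBall (0 : ℂ) (1 / 8)) = 0 := by
    have h3 : (areaD.restrict (Metric.closedBall (0 : ℂ) (1 / 8))) univ = 0 := by
      simpa [ae_iff] using h1
    rwa [Measure.restrict_apply_univ] at h3
  unfold areaD at h2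
  rw [Measure.smul_apply, Measure.restrict_apply Metric.isClosed_closedBall.measurableSet,
    inter_eq_left.mpr (Metric.closedBall_subset_ball (by norm_num)), smul_eq_mul, mul_eq_zero] at h2
  rcases h2 with h2 | h2
  · rw [ENNReal.ofReal_eq_zero] at h2
    have : 0 < 1 / Real.pi := by positivity
    linarith
  · exact (Metric.measure_closedBall_pos volume (0 : ℂ) (by norm_num : (0 : ℝ) < 1 / 8)).ne' h2

theorem sm_ball_fin {v : ℂ → ℝ} (hv : IsWeight v) (R : ℝ) (hR : R < 1) :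
    sm v (Metric.closedBall (0 : ℂ) R) < ∞ := by
  rw [← mass_eq _ Metric.isClosed_closedBall.measurableSet, mass]
  have := (int_ball hv R hR).2
  exact lt_of_le_of_lt (lintegral_mono fun z => ENNReal.ofReal_le_ofReal (le_abs_self _)) (by
    simpa [HasFiniteIntegral, Real.enorm_eq_ofReal_abs] using this)

theorem lint_indC (μ : Measure ℂ) (E : Set ℂ) (hE : MeasurableSet E) :
    ∫⁻ x, ‖(E.indicator (1 : ℂ → ℂ) x)‖ₑ ^ 2 ∂μ = μ E := by
  have : ∀ x, ‖(E.indicator (1 : ℂ → ℂ) x)‖ₑ ^ 2 = E.indicator (1 : ℂ → ℝ≥0∞) x := by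
    intro x
    by_cases hx : x ∈ E
    · simp [hx]
    · simp [hx]
  rw [lintegral_congr this, lintegral_indicator_one hE]

theorem sm_fin_of_int {v : ℂ → ℝ} {E : Set ℂ} (hE : MeasurableSet E) (hi : IntegrableOn v E areaD) :
    sm v E < ∞ := by
  rw [← mass_eq _ hE, mass]
  have := hi.2
  exact lt_of_le_of_lt (lintegral_mono fun z => ENNReal.ofReal_le_ofReal (le_abs_self _)) (by
    simpa [HasFiniteIntegral, Real.enorm_eq_ofReal_abs] using this)

theorem half_lt_top {a : ℝ≥0∞} (h : a < ∞) : a ^ (1 / 2 : ℝ) < ∞ :=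
  ENNReal.rpow_lt_top_of_nonneg (by norm_num) h.ne

/-- the boundedness part of (B) -/
def BndB (w σ : ℂ → ℝ) (C : ℝ) : Prop :=
  ∀ f : ℂ → ℂ, AEStronglyMeasurable f areaD → normL2 σ f < ∞ →
    normL2 w (bergP (fun ζ => (σ ζ : ℂ) * f ζ)) ≤ ENNReal.ofReal C * normL2 σ f

theorem transfer {w σ : ℂ → ℝ} (hw : IsWeight w) (hσ : IsWeight σ) (C : ℝ) (hC : 0 ≤ C)
    (hB : BndB w σ C) (E A : Set ℂ) (hE : MeasurableSet E) (hA : MeasurableSet A)
    (hi : IntegrableOn σ E areaD)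
    (hEA : ∀ z ∈ A, ∀ ζ ∈ E, ‖z‖ < 1 → ‖ζ‖ < 1 → ‖z‖ * ‖ζ‖ ≤ 1 / 8) :
    ENNReal.ofReal (((1 / 2) * (sm σ E).toReal) ^ 2) * sm w A ≤ ENNReal.ofReal (C ^ 2) * sm σ E := by
  have hfm : AEStronglyMeasurable (E.indicator (1 : ℂ → ℂ)) areaD :=
    (measurable_one.indicator hE).aestronglyMeasurable
  have hn : normL2 σ (E.indicator (1 : ℂ → ℂ)) = (sm σ E) ^ (1 / 2 : ℝ) := by
    rw [normL2_eq hσ, lint_indC _ E hE]
  have h1 := hB _ hfm (by rw [hn]; exact half_lt_top (sm_fin_of_int hE hi))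
  rw [hn, normL2_eq hw] at h1
  have h2 := sq_of_half hC h1
  refine le_trans ?_ h2
  calc ENNReal.ofReal (((1 / 2) * (sm σ E).toReal) ^ 2) * sm w A
      = ∫⁻ _ in A, ENNReal.ofReal (((1 / 2) * (sm σ E).toReal) ^ 2) ∂(sm w) := by
        rw [lintegral_const, Measure.restrict_apply_univ]
    _ ≤ ∫⁻ z in A, ‖bergP (fun ζ => (σ ζ : ℂ) * E.indicator 1 ζ) z‖ₑ ^ 2 ∂(sm w) := by
        refine lintegral_mono_ae ?_
        filter_upwards [ae_restrict_mem hA, ae_restrict_of_ae (sm_ball w)] with z hz hz1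
        have h3 := lower_berg hσ E hE hi hz1 (fun ζ hζ hζ1 => hEA z hz ζ hζ hz1 hζ1)
        rw [← ofReal_norm, ← ENNReal.ofReal_pow (norm_nonneg _)]
        exact ENNReal.ofReal_le_ofReal (pow_le_pow_left₀ (by positivity) h3 2)
    _ ≤ ∫⁻ z, ‖bergP (fun ζ => (σ ζ : ℂ) * E.indicator 1 ζ) z‖ₑ ^ 2 ∂(sm w) :=
        setLIntegral_le_lintegral _ _

theorem sm_univ {v : ℂ → ℝ} (B : ℝ≥0∞) (h : ∀ R : ℝ, R < 1 → sm v (Metric.closedBall (0 : ℂ) R) ≤ B) :
    sm v univ ≤ B := by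
  have h1 : sm v univ = sm v (⋃ n : ℕ, Metric.closedBall (0 : ℂ) (1 - 1 / ((n : ℝ) + 1))) := by
    refine measure_congr ?_
    filter_upwards [sm_ball v] with z hz
    refine propext ⟨fun _ => ?_, fun _ => trivial⟩
    obtain ⟨n, hn⟩ := exists_nat_one_div_lt (sub_pos.mpr hz)
    refine mem_iUnion.mpr ⟨n, ?_⟩
    rw [Metric.mem_closedBall, dist_zero_right]
    linarith
  rw [h1, Monotone.measure_iUnion]
  · refine iSup_le fun n => h _ ?_
    have : (0 : ℝ) < 1 / ((n : ℝ) + 1) := by positivity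
    linarith
  · intro m n hmn
    refine Metric.closedBall_subset_closedBall ?_
    have : 1 / ((n : ℝ) + 1) ≤ 1 / ((m : ℝ) + 1) := by
      apply one_div_le_one_div_of_le (by positivity)
      have : (m : ℝ) ≤ n := by exact_mod_cast hmn
      linarith
    linarith

theorem int_of_sm {v : ℂ → ℝ} (hv : IsWeight v) (h : sm v univ < ∞) : Integrable v areaD := by
  refine ⟨hv.aesm, ?_⟩
  rw [← mass_eq _ MeasurableSet.univ, mass, Measure.restrict_univ] at h
  refine lt_of_le_of_lt (le_of_eq (lintegral_congr_ae ?_)) h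
  filter_upwards [ae_ball] with z hz
  rw [Real.enorm_eq_ofReal (hv.pos z hz).le]

theorem int_of_B {w σ : ℂ → ℝ} (hw : IsWeight w) (hσ : IsWeight σ) (C : ℝ) (hC : 0 ≤ C)
    (hB : BndB w σ C) : Integrable σ areaD ∧ Integrable w areaD := by
  have hcb : ∀ R : ℝ, MeasurableSet (Metric.closedBall (0 : ℂ) R) := fun R =>
    Metric.isClosed_closedBall.measurableSet
  constructor
  · refine int_of_sm hσ (lt_of_le_of_lt (sm_univ (ENNReal.ofReal
      (4 * C ^ 2 / (sm w (Metric.closedBall (0 : ℂ) (1 / 8))).toReal)) fun R hR => ?_)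
      ENNReal.ofReal_lt_top)
    have h1 := transfer hw hσ C hC hB (Metric.closedBall 0 R) (Metric.closedBall 0 (1 / 8)) (hcb _)
      (hcb _) (int_ball hσ R hR) (fun z hz ζ hζ _ hζ1 => by
        have h3 : ‖z‖ ≤ 1 / 8 := by simpa using hz
        calc ‖z‖ * ‖ζ‖ ≤ (1 / 8) * 1 := mul_le_mul h3 hζ1.le (norm_nonneg _) (by norm_num)
          _ = 1 / 8 := by norm_num)
    have hf1 := sm_ball_fin hσ R hR
    have hf2 := sm_ball_fin hw (1 / 8) (by norm_num)
    have hp2 := sm_ball_pos hw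
    set m := (sm σ (Metric.closedBall (0 : ℂ) R)).toReal with hm
    set a := (sm w (Metric.closedBall (0 : ℂ) (1 / 8))).toReal with ha
    have ha0 : 0 < a := ENNReal.toReal_pos hp2.ne' hf2.ne
    have hm0 : 0 ≤ m := ENNReal.toReal_nonneg
    have e1 : sm σ (Metric.closedBall (0 : ℂ) R) = ENNReal.ofReal m := (ENNReal.ofReal_toReal hf1.ne).symm
    have e2 : sm w (Metric.closedBall (0 : ℂ) (1 / 8)) = ENNReal.ofReal a :=
      (ENNReal.ofReal_toReal hf2.ne).symm
    rw [e1, e2, ← ENNReal.ofReal_mul (by positivity), ← ENNReal.ofReal_mul (by positivity),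
      ENNReal.ofReal_le_ofReal_iff (by positivity)] at h1
    rw [e1]
    refine ENNReal.ofReal_le_ofReal ?_
    rw [le_div_iff₀ ha0]
    rcases eq_or_lt_of_le hm0 with h | h
    · rw [← h, zero_mul]; positivity
    · have h2 : m * (m * a) ≤ m * (4 * C ^ 2) := by nlinarith
      exact le_of_mul_le_mul_left h2 h
  · refine int_of_sm hw ?_
    have h1 := transfer hw hσ C hC hB (Metric.closedBall 0 (1 / 8)) univ (hcb _)
      MeasurableSet.univ (int_ball hσ _ (by norm_num)) (fun z _ ζ hζ hz1 _ => by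
        have h3 : ‖ζ‖ ≤ 1 / 8 := by simpa using hζ
        calc ‖z‖ * ‖ζ‖ ≤ 1 * (1 / 8) := mul_le_mul hz1.le h3 (norm_nonneg _) (by norm_num)
          _ = 1 / 8 := by norm_num)
    have hf1 := sm_ball_fin hσ (1 / 8) (by norm_num)
    have hp1 := sm_ball_pos hσ
    have hm0 : 0 < (sm σ (Metric.closedBall (0 : ℂ) (1 / 8))).toReal :=
      ENNReal.toReal_pos hp1.ne' hf1.ne
    by_contra h
    rw [not_lt, top_le_iff] at h
    rw [h, ENNReal.mul_top (by rw [Ne, ENNReal.ofReal_eq_zero, not_le]; positivity), top_le_iff] at h1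
    exact (ENNReal.mul_lt_top ENNReal.ofReal_lt_top hf1).ne h1

/-- (B) implies (T) -/
theorem T_of_B {w σ : ℂ → ℝ} (hw : IsWeight w) (hσ : IsWeight σ) (hB : CondB w σ) :
    CondT w σ := by
  obtain ⟨C', hB'⟩ := hB
  set C := max C' 0 with hCdef
  have hC : 0 ≤ C := le_max_right _ _
  have hBB : BndB w σ C := fun f hf hf2 => by
    rw [hCdef, ofReal_max]; exact (hB' f hf hf2).2
  obtain ⟨iσ, iw⟩ := int_of_B hw hσ C hC hBB
  have := finite_sm iσ
  have := finite_sm iw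
  have hreal : ∀ f : ℂ → ℝ, Measurable f → ∫⁻ x, ‖f x‖ₑ ^ 2 ∂(sm σ) < ∞ →
      ∫⁻ x, ‖Pop th ht (sm σ) f x‖ₑ ^ 2 ∂(sm w) ≤ ENNReal.ofReal (C ^ 2) * ∫⁻ x, ‖f x‖ₑ ^ 2 ∂(sm σ) := by
    intro f hf hf2
    have hn : normL2 σ (fun z => (f z : ℂ)) = (∫⁻ x, ‖f x‖ₑ ^ 2 ∂(sm σ)) ^ (1 / 2 : ℝ) := by
      rw [normL2_eq hσ]
      congr 1
      refine lintegral_congr fun x => ?_
      rw [← ofReal_norm, Complex.norm_real, ofReal_norm]
    have h1 := hBB (fun z => (f z : ℂ)) (Complex.measurable_ofReal.comp hf).aestronglyMeasurable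
      (by rw [hn]; exact half_lt_top hf2)
    rw [hn, normL2_eq hw] at h1
    have h2 := sq_of_half hC h1
    refine le_trans (le_of_eq (lintegral_congr_ae ?_)) h2
    filter_upwards [sm_ball w] with z hz
    rw [Pop_disc hσ f hz]
  refine ⟨2 * C, fun I l hI => ?_⟩
  obtain ⟨hl, hl1, a, ha1, ha2⟩ := hI
  have hbox := box_ae hl hl1 ha1 ha2
  have hdef : ∀ v : ℂ → ℝ, Integrable v areaD →
      BergDefined ((carlesonBox I l).indicator (fun ζ => (v ζ : ℂ))) := by
    intro v hv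
    refine bergDefined_of_integrable ?_
    have h1 : Integrable ((arcBox th ht a l).indicator (fun ζ => (v ζ : ℂ))) areaD :=
      (hv.ofReal (𝕜 := ℂ)).indicator (meas_arcBox a l)
    refine h1.congr ?_
    filter_upwards [hbox] with ζ hζ
    by_cases h : ζ ∈ arcBox th ht a l
    · rw [indicator_of_mem h, indicator_of_mem (hζ.mpr h)]
    · rw [indicator_of_notMem h, indicator_of_notMem (fun h2 => h (hζ.mp h2))]
  refine ⟨⟨hdef σ iσ, ?_⟩, ⟨hdef w iw, ?_⟩⟩
  · obtain ⟨e1, e2⟩ := test_conv hσ hw hbox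
    rw [e1, e2]
    refine half_of_sq (by linarith) ?_
    have hind := lint_ind (sm σ) (arcBox th ht a l) (meas_arcBox a l)
    have h1 := hreal ((arcBox th ht a l).indicator 1) (measurable_one.indicator (meas_arcBox a l))
      (by rw [hind]; exact measure_lt_top _ _)
    rw [hind] at h1
    refine h1.trans ?_
    gcongr
    nlinarith
  · obtain ⟨e1, e2⟩ := test_conv hw hσ hbox
    rw [e1, e2]
    refine half_of_sq (by linarith) ?_
    have hind := lint_ind (sm w) (arcBox th ht a l) (meas_arcBox a l)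
    have h1 := dual_bound th ht geoD (sm σ) (sm w) (C ^ 2) (sq_nonneg _) hreal
      ((arcBox th ht a l).indicator 1) (measurable_one.indicator (meas_arcBox a l))
      (by rw [hind]; exact measure_lt_top _ _)
    rw [hind] at h1
    refine h1.trans ?_
    gcongr
    nlinarith

theorem B_iff_T (w σ : ℂ → ℝ) (hw : IsWeight w) (hσ : IsWeight σ) : CondB w σ ↔ CondT w σ :=
  ⟨T_of_B hw hσ, B_of_T hw hσ⟩

end

end Pool.Agent.Helper807.BT
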