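import Pool.Agent.Helper807.BT.MainB

set_option autoImplicit false

open MeasureTheory Set Filter
open scoped ENNReal Topology

namespace Pool.Agent.Helper807.BT

noncomputable section

variable {X : Type*} [MeasurableSpace X]

theorem K_meas_right {θ h : X → ℝ} (geo : Geo θ h) (x : X) : Measurable (fun y => K θ h x y) := by
  have h1 : Measurable (Prod.mk x : X → X × X) := measurable_prodMk_left
  have h2 := Measurable.comp (measurable_K geo) h1
  exact h2

/-- measurability of `Pop s f` -/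
theorem Pop_meas {θ h : X → ℝ} (geo : Geo θ h) (s : Measure X) [IsFiniteMeasure s] {f : X → ℝ}
    (hf : Measurable f) : StronglyMeasurable (Pop θ h s f) := by
  have : StronglyMeasurable (fun p : X × X => K θ h p.1 p.2 * ((f p.2 : ℝ) : ℂ)) := by
    apply Measurable.stronglyMeasurable
    exact (measurable_K geo).mul (Complex.measurable_ofReal.comp (hf.comp measurable_snd))
  exact this.integral_prod_right'

theorem K_mul_integrable {θ h : X → ℝ} (geo : Geo θ h) (s : Measure X) {f : X → ℝ}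
    (hf : Integrable f s) (x : X) : Integrable (fun y => K θ h x y * ((f y : ℝ) : ℂ)) s := by
  refine hf.ofReal.bdd_mul (K_meas_right geo x).aestronglyMeasurable
    (c := ((h x) ^ 2)⁻¹) ?_
  exact Eventually.of_forall (fun y => norm_K_le_left geo x y)

theorem enorm_sq_real (t : ℝ) : ‖t‖ₑ ^ 2 = ENNReal.ofReal (t ^ 2) := by
  rw [Real.enorm_eq_ofReal_abs, ← ENNReal.ofReal_pow (abs_nonneg _), sq_abs]

theorem enorm_sq_complex (z : ℂ) : ‖z‖ₑ ^ 2 = ‖z.re‖ₑ ^ 2 + ‖z.im‖ₑ ^ 2 := by
  rw [enorm_sq_real, enorm_sq_real, ← ENNReal.ofReal_add (sq_nonneg _) (sq_nonneg _),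
    ← ofReal_norm, ← ENNReal.ofReal_pow (norm_nonneg _), ← Complex.normSq_eq_norm_sq,
    Complex.normSq_apply]
  congr 1; ring

theorem lint_sq_eq (w : Measure X) {v : X → ℝ} (hv : Integrable (fun x => v x ^ 2) w) :
    ∫⁻ x, ‖v x‖ₑ ^ 2 ∂w = ENNReal.ofReal (∫ x, v x ^ 2 ∂w) := by
  rw [ofReal_integral_eq_lintegral_ofReal hv (Eventually.of_forall fun x => sq_nonneg _)]
  exact lintegral_congr fun x => enorm_sq_real _

theorem sq_int_of_bdd (w : Measure X) [IsFiniteMeasure w] {v : X → ℝ} (hm : Measurable v) (B : ℝ)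
    (hB : ∀ x, |v x| ≤ B) : Integrable (fun x => v x ^ 2) w := by
  refine Integrable.of_bound (hm.pow_const 2).aestronglyMeasurable
    (B ^ 2) (Eventually.of_forall fun x => ?_)
  rw [Real.norm_eq_abs, abs_pow]
  exact pow_le_pow_left₀ (abs_nonneg _) (hB x) 2

/-- exhaustion by `h > (1/2)^M` -/
theorem lint_exhaust {θ h : X → ℝ} (geo : Geo θ h) (w : Measure X) [IsFiniteMeasure w] (u : X → ℝ)
    (hu : Measurable u) (B : ℝ) (hB : ∀ x, |u x| ≤ B) (D : ℝ)
    (hD : ∀ M : ℕ, ∫ x, ({x | (1 / 2 : ℝ) ^ M < h x}.indicator u x) ^ 2 ∂w ≤ D) :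
    ∫⁻ x, ‖u x‖ₑ ^ 2 ∂w ≤ ENNReal.ofReal D := by
  have hmono : ∀ x, Tendsto (fun M : ℕ => ‖({x | (1 / 2 : ℝ) ^ M < h x}.indicator u x)‖ₑ ^ 2)
      atTop (𝓝 (‖u x‖ₑ ^ 2)) := by
    intro x
    have h1 : Tendsto (fun M : ℕ => (1 / 2 : ℝ) ^ M) atTop (𝓝 0) :=
      tendsto_pow_atTop_nhds_zero_of_lt_one (by norm_num) (by norm_num)
    have h2 : ∀ᶠ M : ℕ in atTop, (1 / 2 : ℝ) ^ M < h x :=
      h1.eventually_lt_const (geo.h0 x)
    refine tendsto_const_nhds.congr' ?_
    filter_upwards [h2] with M hM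
    rw [indicator_of_mem (by simpa using hM)]
  have hset : ∀ M : ℕ, MeasurableSet {x | (1 / 2 : ℝ) ^ M < h x} := fun M =>
    measurableSet_lt measurable_const geo.mh
  calc ∫⁻ x, ‖u x‖ₑ ^ 2 ∂w
      = ∫⁻ x, liminf (fun M : ℕ => ‖({x | (1 / 2 : ℝ) ^ M < h x}.indicator u x)‖ₑ ^ 2) atTop ∂w := by
        refine lintegral_congr (fun x => ?_)
        exact (hmono x).liminf_eq.symm
    _ ≤ liminf (fun M : ℕ => ∫⁻ x, ‖({x | (1 / 2 : ℝ) ^ M < h x}.indicator u x)‖ₑ ^ 2 ∂w) atTop :=
        lintegral_liminf_le (fun M => ((hu.indicator (hset M)).enorm.pow_const 2))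
    _ ≤ ENNReal.ofReal D := by
        refine liminf_le_of_le (by isBoundedDefault) ?_
        intro b hb
        obtain ⟨M, hM⟩ := hb.exists
        refine hM.trans ?_
        rw [lint_sq_eq w (sq_int_of_bdd w (hu.indicator (hset M)) B (fun x => ?_))]
        · exact ENNReal.ofReal_le_ofReal (hD M)
        · by_cases hx : x ∈ {x | (1 / 2 : ℝ) ^ M < h x}
          · rw [indicator_of_mem hx]; exact hB x
          · rw [indicator_of_notMem hx]; simpa using (abs_nonneg _).trans (hB x)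

/-- bounded compactly supported case -/
theorem fin_bdd (θ h : X → ℝ) (geo : Geo θ h) (s w : Measure X) [IsFiniteMeasure s]
    [IsFiniteMeasure w] (C : ℝ) (hC : 0 ≤ C) (hB : ∀ f g : X → ℝ, Bdd f → Bdd g → ∀ N : ℕ,
    (∀ x, h x ≤ (1 / 2 : ℝ) ^ N → f x = 0) → (∀ x, h x ≤ (1 / 2 : ℝ) ^ N → g x = 0) →
    ‖Bf θ h s w f g‖ ≤ C * Real.sqrt (∫ x, f x ^ 2 ∂s) * Real.sqrt (∫ x, g x ^ 2 ∂w))
    (f : X → ℝ) (hf : Bdd f) (N : ℕ) (hN : ∀ x, h x ≤ (1 / 2 : ℝ) ^ N → f x = 0) :
    ∫⁻ x, ‖Pop θ h s f x‖ₑ ^ 2 ∂w ≤ ENNReal.ofReal (2 * C ^ 2) * ∫⁻ x, ‖f x‖ₑ ^ 2 ∂s := by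
  obtain ⟨hfm, Cf, hCf⟩ := hf
  have hPm : Measurable (Pop θ h s f) := (Pop_meas geo s hfm).measurable
  have hfi : Integrable f s :=
    Integrable.of_bound hfm.aestronglyMeasurable Cf (Eventually.of_forall hCf)
  -- bound for Pop
  obtain ⟨B, hBP⟩ : ∃ B : ℝ, ∀ x, ‖Pop θ h s f x‖ ≤ B := by
    refine ⟨(4 ^ N * Cf) * (s univ).toReal, fun x => ?_⟩
    have := norm_integral_le_of_norm_le_const (μ := s) (C := 4 ^ N * Cf)
      (f := fun y => K θ h x y * ((f y : ℝ) : ℂ)) (Eventually.of_forall fun y => ?_)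
    · simpa [Pop, Measure.real] using this
    · by_cases hy : h y ≤ (1 / 2 : ℝ) ^ N
      · simp only [hN y hy, Complex.ofReal_zero, mul_zero, norm_zero]
        have : 0 ≤ Cf := (abs_nonneg _).trans (hCf y)
        positivity
      · rw [norm_mul, Complex.norm_real, Real.norm_eq_abs]
        push Not at hy
        have h2 : ((h y) ^ 2)⁻¹ ≤ 4 ^ N := by
          have h3 : (0 : ℝ) < (1 / 2) ^ N := by positivity
          have h4 : ((1 / 2 : ℝ) ^ N) ^ 2 ≤ (h y) ^ 2 := pow_le_pow_left₀ h3.le hy.le 2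
          calc ((h y) ^ 2)⁻¹ ≤ (((1 / 2 : ℝ) ^ N) ^ 2)⁻¹ := inv_anti₀ (by positivity) h4
            _ = 4 ^ N := by
              rw [← pow_mul, mul_comm N 2, pow_mul, ← inv_pow]; norm_num
        exact mul_le_mul ((norm_K_le_right geo x y).trans h2) (hCf y) (abs_nonneg _) (by positivity)
  set F : ℝ := ∫ x, f x ^ 2 ∂s with hF
  have hF0 : 0 ≤ F := integral_nonneg fun x => sq_nonneg _
  -- real part and imaginary part
  have key : ∀ u : X → ℝ, Measurable u → (∀ x, |u x| ≤ B) →
      (∀ M : ℕ, ∫ x, ({x | (1 / 2 : ℝ) ^ M < h x}.indicator u x) ^ 2 ∂w ≤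
        ‖Bf θ h s w f ({x | (1 / 2 : ℝ) ^ M < h x}.indicator u)‖) →
      ∫⁻ x, ‖u x‖ₑ ^ 2 ∂w ≤ ENNReal.ofReal (C ^ 2 * F) := by
    intro u hu hBu hle
    refine lint_exhaust geo w u hu B hBu _ fun M => ?_
    set g := {x | (1 / 2 : ℝ) ^ M < h x}.indicator u with hg
    have hset : MeasurableSet {x | (1 / 2 : ℝ) ^ M < h x} := measurableSet_lt measurable_const geo.mh
    have hgB : Bdd g := by
      refine ⟨hu.indicator hset, B, fun x => ?_⟩
      by_cases hx : x ∈ {x | (1 / 2 : ℝ) ^ M < h x}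
      · rw [hg, indicator_of_mem hx]; exact hBu x
      · rw [hg, indicator_of_notMem hx]; simpa using (abs_nonneg _).trans (hBu x)
    have hG0 : 0 ≤ ∫ x, g x ^ 2 ∂w := integral_nonneg fun x => sq_nonneg _
    have h1 := hB f g ⟨hfm, Cf, hCf⟩ hgB (max N M) (fun x hx => hN x (hx.trans
      (pow_le_pow_of_le_one (by norm_num) (by norm_num) (le_max_left _ _)))) (fun x hx => by
        have : ¬ (1 / 2 : ℝ) ^ M < h x := not_lt.mpr (hx.trans
          (pow_le_pow_of_le_one (by norm_num) (by norm_num) (le_max_right _ _)))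
        rw [hg, indicator_of_notMem (by simpa using this)])
    have h2 := (hle M).trans h1
    set G := ∫ x, g x ^ 2 ∂w
    have h3 : Real.sqrt G * Real.sqrt G = G := Real.mul_self_sqrt hG0
    have h4 : Real.sqrt F * Real.sqrt F = F := Real.mul_self_sqrt hF0
    rcases eq_or_lt_of_le (Real.sqrt_nonneg G) with h5 | h5
    · rw [← h5] at h3
      nlinarith [mul_nonneg (sq_nonneg C) hF0]
    · have h6 : Real.sqrt G ≤ C * Real.sqrt F := by
        have : Real.sqrt G * Real.sqrt G ≤ (C * Real.sqrt F) * Real.sqrt G := by rw [h3]; exact h2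
        exact le_of_mul_le_mul_right this h5
      calc G = Real.sqrt G * Real.sqrt G := h3.symm
        _ ≤ (C * Real.sqrt F) * (C * Real.sqrt F) :=
            mul_le_mul h6 h6 h5.le (by positivity)
        _ = C ^ 2 * (Real.sqrt F * Real.sqrt F) := by ring
        _ = C ^ 2 * F := by rw [h4]
  have hint : ∀ g : X → ℝ, Bdd g → Integrable (fun x => Pop θ h s f x * ((g x : ℝ) : ℂ)) w := by
    intro g ⟨hgm, Cg, hCg⟩
    refine Integrable.of_bound ((hPm.mul (Complex.measurable_ofReal.comp hgm)).aestronglyMeasurable)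
      (B * Cg) (Eventually.of_forall fun x => ?_)
    rw [norm_mul, Complex.norm_real]
    exact mul_le_mul (hBP x) (hCg x) (norm_nonneg _) ((norm_nonneg _).trans (hBP x))
  have hre := key (fun x => (Pop θ h s f x).re) (Complex.measurable_re.comp hPm)
    (fun x => (Complex.abs_re_le_norm _).trans (hBP x)) (fun M => by
      have hset : MeasurableSet {x | (1 / 2 : ℝ) ^ M < h x} :=
        measurableSet_lt measurable_const geo.mh
      set g := {x | (1 / 2 : ℝ) ^ M < h x}.indicator (fun x => (Pop θ h s f x).re) with hg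
      have hgB : Bdd g := by
        refine ⟨(Complex.measurable_re.comp hPm).indicator hset, B, fun x => ?_⟩
        by_cases hx : x ∈ {x | (1 / 2 : ℝ) ^ M < h x}
        · rw [hg, indicator_of_mem hx]; exact (Complex.abs_re_le_norm _).trans (hBP x)
        · rw [hg, indicator_of_notMem hx]; simpa using (norm_nonneg _).trans (hBP x)
      have e1 : ∫ x, g x ^ 2 ∂w = (Bf θ h s w f g).re := by
        have := integral_re (hint g hgB)
        simp only [RCLike.re_eq_complex_re] at this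
        rw [Bf, ← this]
        refine integral_congr_ae (Eventually.of_forall fun x => ?_)
        by_cases hx : x ∈ {x | (1 / 2 : ℝ) ^ M < h x}
        · simp only [hg, indicator_of_mem hx, Complex.mul_re, Complex.ofReal_re,
            Complex.ofReal_im, mul_zero, sub_zero]; ring
        · simp only [hg, indicator_of_notMem hx, Complex.ofReal_zero, mul_zero, Complex.zero_re]
          norm_num
      rw [e1]
      exact (le_abs_self _).trans (Complex.abs_re_le_norm _))
  have him := key (fun x => (Pop θ h s f x).im) (Complex.measurable_im.comp hPm)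
    (fun x => (Complex.abs_im_le_norm _).trans (hBP x)) (fun M => by
      have hset : MeasurableSet {x | (1 / 2 : ℝ) ^ M < h x} :=
        measurableSet_lt measurable_const geo.mh
      set g := {x | (1 / 2 : ℝ) ^ M < h x}.indicator (fun x => (Pop θ h s f x).im) with hg
      have hgB : Bdd g := by
        refine ⟨(Complex.measurable_im.comp hPm).indicator hset, B, fun x => ?_⟩
        by_cases hx : x ∈ {x | (1 / 2 : ℝ) ^ M < h x}
        · rw [hg, indicator_of_mem hx]; exact (Complex.abs_im_le_norm _).trans (hBP x)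
        · rw [hg, indicator_of_notMem hx]; simpa using (norm_nonneg _).trans (hBP x)
      have e1 : ∫ x, g x ^ 2 ∂w = (Bf θ h s w f g).im := by
        have := integral_im (hint g hgB)
        simp only [RCLike.im_eq_complex_im] at this
        rw [Bf, ← this]
        refine integral_congr_ae (Eventually.of_forall fun x => ?_)
        by_cases hx : x ∈ {x | (1 / 2 : ℝ) ^ M < h x}
        · simp only [hg, indicator_of_mem hx, Complex.mul_im, Complex.ofReal_re,
            Complex.ofReal_im, mul_zero, zero_add]; ring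
        · simp only [hg, indicator_of_notMem hx, Complex.ofReal_zero, mul_zero, Complex.zero_im]
          norm_num
      rw [e1]
      exact (le_abs_self _).trans (Complex.abs_im_le_norm _))
  calc ∫⁻ x, ‖Pop θ h s f x‖ₑ ^ 2 ∂w
      = ∫⁻ x, (‖(Pop θ h s f x).re‖ₑ ^ 2 + ‖(Pop θ h s f x).im‖ₑ ^ 2) ∂w :=
        lintegral_congr fun x => enorm_sq_complex _
    _ = ∫⁻ x, ‖(Pop θ h s f x).re‖ₑ ^ 2 ∂w + ∫⁻ x, ‖(Pop θ h s f x).im‖ₑ ^ 2 ∂w := by
        rw [lintegral_add_left]
        exact (Complex.measurable_re.comp hPm).enorm.pow_const 2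
    _ ≤ ENNReal.ofReal (C ^ 2 * F) + ENNReal.ofReal (C ^ 2 * F) := add_le_add hre him
    _ = ENNReal.ofReal (2 * C ^ 2) * ∫⁻ x, ‖f x‖ₑ ^ 2 ∂s := by
        rw [lint_sq_eq s (sq_int_of_bdd s hfm Cf hCf), ← ENNReal.ofReal_mul (by positivity),
          ← ENNReal.ofReal_add (by positivity) (by positivity), ← hF]
        congr 1; ring

end

end Pool.Agent.Helper807.BT
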