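import Pool.Agent.Helper807.BT.Base

set_option autoImplicit false

open MeasureTheory Set
open scoped ENNReal

namespace Pool.Agent.Helper807.BT

noncomputable section

variable {X : Type*} [MeasurableSpace X]


theorem den_re_im_7105 (u v : ℝ × ℝ) :
    (den u v).re = 1 - (1 - u.2) * (1 - v.2) * Real.cos (2 * Real.pi * (u.1 - v.1)) ∧
    (den u v).im = -((1 - u.2) * (1 - v.2) * Real.sin (2 * Real.pi * (u.1 - v.1))) := by
  unfold den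
  generalize 2 * Real.pi * (u.1 - v.1) = φ
  generalize (1 - u.2) * (1 - v.2) = r
  rw [Complex.exp_mul_I, ← Complex.ofReal_cos, ← Complex.ofReal_sin]
  constructor
  · rw [Complex.sub_re, Complex.re_ofReal_mul, Complex.add_re, Complex.one_re, Complex.ofReal_re,
      Complex.re_ofReal_mul, Complex.I_re]
    ring
  · rw [Complex.sub_im, Complex.im_ofReal_mul, Complex.add_im, Complex.one_im, Complex.ofReal_im,
      Complex.im_ofReal_mul, Complex.I_im]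
    ring

theorem cos_nd_7105 (t : ℝ) : Real.cos (2 * Real.pi * t) = Real.cos (2 * Real.pi * nd t) := by
  have e1 : 2 * Real.pi * t = 2 * Real.pi * (t - round t) + (round t : ℤ) * (2 * Real.pi) := by
    ring
  have e2 : Real.cos (2 * Real.pi * t) = Real.cos (2 * Real.pi * (t - round t)) := by
    rw [e1, Real.cos_add_int_mul_two_pi]
  rw [e2]
  unfold nd
  rcases abs_cases (t - round t) with ⟨h, _⟩ | ⟨h, _⟩
  · rw [h]
  · rw [h, mul_neg, Real.cos_neg]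

theorem bounds_7105 {d x y : ℝ} (hd0 : 0 < d) (hd : d ≤ 1 / 16) (hx : 0 < x) (hx1 : x ≤ 1)
    (hy : 0 < y) (hy1 : y ≤ 1) (h8 : 8 * x ≤ d) (h4 : 4 * y ≤ d) :
    0 ≤ 1 - (1 - x) * (1 - y) * Real.cos (2 * Real.pi * d) ∧
    1 - (1 - x) * (1 - y) * Real.cos (2 * Real.pi * d) ≤ 2 * d ∧
    4 * d ≤ (1 - x) * (1 - y) * Real.sin (2 * Real.pi * d) := by
  have hpi : Real.pi < 3.15 := Real.pi_lt_d2
  have hpi' : 3.14 < Real.pi := Real.pi_gt_d2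
  obtain ⟨ψ, hψ⟩ : ∃ ψ, ψ = 2 * Real.pi * d := ⟨_, rfl⟩
  rw [← hψ]
  have l1 : 6.28 * d ≤ ψ := by rw [hψ]; nlinarith
  have l2 : ψ ≤ 6.3 * d := by rw [hψ]; nlinarith
  have hψ0 : 0 < ψ := by linarith
  have hψ1 : ψ ≤ 0.4 := by linarith
  have hsin : ψ - ψ ^ 3 / 6 < Real.sin ψ := Real.sin_gt_sub_cube hψ0
  have hcos : 1 - ψ ^ 2 / 2 ≤ Real.cos ψ := Real.one_sub_sq_div_two_le_cos
  have hcos1 : Real.cos ψ ≤ 1 := Real.cos_le_one _
  obtain ⟨ρ, hρ⟩ : ∃ ρ, ρ = (1 - x) * (1 - y) := ⟨_, rfl⟩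
  rw [← hρ]
  have hxy : 0 < x * y := mul_pos hx hy
  have hρe : ρ = 1 - x - y + x * y := by rw [hρ]; ring
  have hxy1 : x * y ≤ x := by nlinarith
  have hρ1 : ρ ≤ 1 := by linarith
  have hρ2 : 1 - 3 / 8 * d ≤ ρ := by linarith
  have hρ3 : 0.97 ≤ ρ := by linarith
  have hsq : ψ ^ 2 ≤ 0.4 * ψ := by nlinarith
  have hsq2 : ψ ^ 2 ≤ 2.52 * d := by linarith
  have hcos0 : 0 < Real.cos ψ := by linarith
  have hcube : ψ ^ 3 ≤ 0.16 * ψ := by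
    have : ψ ^ 3 = ψ ^ 2 * ψ := by ring
    rw [this]
    have h2 : ψ ^ 2 ≤ 0.16 := by linarith
    exact mul_le_mul_of_nonneg_right h2 hψ0.le
  have hs2 : 5 * d ≤ Real.sin ψ := by linarith
  refine ⟨?_, ?_, ?_⟩
  · have : ρ * Real.cos ψ ≤ 1 * 1 := mul_le_mul hρ1 hcos1 hcos0.le zero_le_one
    linarith
  · have : ρ * (1 - Real.cos ψ) ≤ 1 * (1 - Real.cos ψ) :=
      mul_le_mul_of_nonneg_right hρ1 (by linarith)
    have e : ρ * (1 - Real.cos ψ) = ρ - ρ * Real.cos ψ := by ring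
    linarith
  · have : 0.97 * (5 * d) ≤ ρ * Real.sin ψ :=
      mul_le_mul hρ3 hs2 (by linarith) (by linarith)
    linarith

theorem alg_7105 {a b d : ℝ} (hd : 0 < d) (ha0 : 0 ≤ a) (ha : a ≤ 2 * d) (hb : 4 * d ≤ b) :
    (1 / 4 : ℝ) * (a ^ 2 + b ^ 2)⁻¹ ≤ -((a ^ 2 - b ^ 2) / (a ^ 2 + b ^ 2) ^ 2) := by
  have h1 : a ^ 2 ≤ 4 * d ^ 2 := by nlinarith
  have h2 : 16 * d ^ 2 ≤ b ^ 2 := by nlinarith
  have hd2 : 0 < d ^ 2 := by positivity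
  have hpos : 0 < a ^ 2 + b ^ 2 := by nlinarith
  have key : 0 ≤ 3 * b ^ 2 - 5 * a ^ 2 := by linarith
  have e : -((a ^ 2 - b ^ 2) / (a ^ 2 + b ^ 2) ^ 2) - (1 / 4 : ℝ) * (a ^ 2 + b ^ 2)⁻¹ =
      (3 * b ^ 2 - 5 * a ^ 2) / (4 * (a ^ 2 + b ^ 2) ^ 2) := by
    field_simp
    ring
  have : 0 ≤ (3 * b ^ 2 - 5 * a ^ 2) / (4 * (a ^ 2 + b ^ 2) ^ 2) := by positivity
  linarith

theorem kap_neg_re {u v : ℝ × ℝ} (hu : 0 < u.2) (hu1 : u.2 ≤ 1) (hv : 0 < v.2) (hv1 : v.2 ≤ 1)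
    (h1 : nd (u.1 - v.1) ≤ 1 / 16) (h2 : 8 * u.2 ≤ nd (u.1 - v.1))
    (h3 : 4 * v.2 ≤ nd (u.1 - v.1)) :
    (1 / 4 : ℝ) * (‖den u v‖ ^ 2)⁻¹ ≤ -(kap u v).re := by
  obtain ⟨hre, him⟩ := den_re_im_7105 u v
  have hd0 : 0 < nd (u.1 - v.1) := by linarith
  obtain ⟨ha0, ha, hb⟩ := bounds_7105 hd0 h1 hu hu1 hv hv1 h2 h3
  have hc := cos_nd_7105 (u.1 - v.1)
  have s1 := Real.sin_sq_add_cos_sq (2 * Real.pi * (u.1 - v.1))
  have s2 := Real.sin_sq_add_cos_sq (2 * Real.pi * nd (u.1 - v.1))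
  rw [hc] at hre s1
  have key := alg_7105 hd0 ha0 ha hb
  have hbsq : (den u v).im ^ 2 =
      ((1 - u.2) * (1 - v.2) * Real.sin (2 * Real.pi * nd (u.1 - v.1))) ^ 2 := by
    rw [him, neg_sq, mul_pow, mul_pow]
    have : Real.sin (2 * Real.pi * (u.1 - v.1)) ^ 2 =
      Real.sin (2 * Real.pi * nd (u.1 - v.1)) ^ 2 := by linarith
    rw [this]; ring
  have hn : ‖den u v‖ ^ 2 = (den u v).re ^ 2 + (den u v).im ^ 2 := by
    rw [Complex.sq_norm, Complex.normSq_apply]; ring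
  have hk : (kap u v).re = ((den u v).re ^ 2 - (den u v).im ^ 2) /
      ((den u v).re ^ 2 + (den u v).im ^ 2) ^ 2 := by
    unfold kap
    rw [Complex.inv_re]
    have e1 : Complex.normSq (den u v ^ 2) = ((den u v).re ^ 2 + (den u v).im ^ 2) ^ 2 := by
      rw [map_pow, ← hn, Complex.sq_norm]
    have e2 : (den u v ^ 2).re = (den u v).re ^ 2 - (den u v).im ^ 2 := by
      rw [sq, Complex.mul_re]; ring
    rw [e1, e2]
  rw [hk, hn, hbsq, hre]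
  exact key

end

end Pool.Agent.Helper807.BT
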