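import Pool.Agent.Helper807.BT.Base

set_option autoImplicit false

open MeasureTheory Set
open scoped ENNReal

namespace Pool.Agent.Helper807.BT

noncomputable section

variable {X : Type*} [MeasurableSpace X]


/-! auxiliary lemmas for `stopping` -/

/-- recursion data -/
structure Rc7121 (C1 : ℝ) (S F1 Wo : ℕ → ℕ → ℝ) (fs : ℕ → ℕ → ℕ) (al : ℕ → ℕ → ℝ) : Prop where
  base : ∀ k, fs 4 k = 4 ∧ al 4 k = F1 4 k / S 4 k
  step : ∀ l k, 4 ≤ l →
    ((2 * al l (k / 2) < F1 (l + 1) k / S (l + 1) k ∨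
        C1 * S (l + 1) k < Wo (l + 1) k * PGa S (fs l (k / 2)) (l + 1) k ^ 2) ∧
      fs (l + 1) k = l + 1 ∧ al (l + 1) k = max (al l (k / 2)) (F1 (l + 1) k / S (l + 1) k)) ∨
    (F1 (l + 1) k / S (l + 1) k ≤ 2 * al l (k / 2) ∧
        Wo (l + 1) k * PGa S (fs l (k / 2)) (l + 1) k ^ 2 ≤ C1 * S (l + 1) k ∧
      fs (l + 1) k = fs l (k / 2) ∧ al (l + 1) k = al l (k / 2))

open Classical in
/-- the recursion -/
def st7121 (C1 : ℝ) (S F1 Wo : ℕ → ℕ → ℝ) : ℕ → ℕ → ℕ × ℝ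
  | 0, k => (4, F1 4 k / S 4 k)
  | n + 1, k =>
    if 2 * (st7121 C1 S F1 Wo n (k / 2)).2 < F1 (n + 5) k / S (n + 5) k ∨
        C1 * S (n + 5) k < Wo (n + 5) k * PGa S (st7121 C1 S F1 Wo n (k / 2)).1 (n + 5) k ^ 2 then
      (n + 5, max (st7121 C1 S F1 Wo n (k / 2)).2 (F1 (n + 5) k / S (n + 5) k))
    else st7121 C1 S F1 Wo n (k / 2)

omit [MeasurableSpace X] in
theorem exRc7121 (C1 : ℝ) (S F1 Wo : ℕ → ℕ → ℝ) : ∃ fs al, Rc7121 C1 S F1 Wo fs al := by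
  classical
  refine ⟨fun l k => (st7121 C1 S F1 Wo (l - 4) k).1, fun l k => (st7121 C1 S F1 Wo (l - 4) k).2,
    ⟨?_, ?_⟩⟩
  · intro k
    exact ⟨rfl, rfl⟩
  · intro l k hl
    obtain ⟨n, rfl⟩ : ∃ n, l = n + 4 := ⟨l - 4, by omega⟩
    have e1 : n + 4 + 1 - 4 = n + 1 := by omega
    have e2 : n + 4 - 4 = n := by omega
    have e3 : n + 4 + 1 = n + 5 := by omega
    simp only [e1, e2, e3]
    by_cases hc : 2 * (st7121 C1 S F1 Wo n (k / 2)).2 < F1 (n + 5) k / S (n + 5) k ∨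
        C1 * S (n + 5) k < Wo (n + 5) k * PGa S (st7121 C1 S F1 Wo n (k / 2)).1 (n + 5) k ^ 2
    · left
      refine ⟨hc, ?_, ?_⟩
      · rw [st7121, if_pos hc]
      · rw [st7121, if_pos hc]
    · right
      have hc' := hc
      rw [not_or, not_lt, not_lt] at hc'
      refine ⟨hc'.1, hc'.2, ?_, ?_⟩
      · rw [st7121, if_neg hc]
      · rw [st7121, if_neg hc]

omit [MeasurableSpace X] in
theorem dv7121 (k t l : ℕ) (h : t ≤ l) : k / 2 ^ (l + 1 - t) = k / 2 / 2 ^ (l - t) := by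
  rw [Nat.div_div_eq_div_mul, show l + 1 - t = (l - t) + 1 by omega, pow_succ, mul_comm]

omit [MeasurableSpace X] in
theorem fsr7121 {C1 : ℝ} {S F1 Wo : ℕ → ℕ → ℝ} {fs : ℕ → ℕ → ℕ} {al : ℕ → ℕ → ℝ}
    (h : Rc7121 C1 S F1 Wo fs al) : ∀ l, 4 ≤ l → ∀ k, 4 ≤ fs l k ∧ fs l k ≤ l := by
  intro l hl
  induction l, hl using Nat.le_induction with
  | base =>
    intro k
    rw [(h.base k).1]
    exact ⟨le_rfl, le_rfl⟩
  | succ l hl ih =>
    intro k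
    rcases h.step l k hl with ⟨_, h1, _⟩ | ⟨_, _, h1, _⟩
    · rw [h1]
      omega
    · rw [h1]
      have := ih (k / 2)
      omega

omit [MeasurableSpace X] in
theorem alp7121 {C1 : ℝ} {S F1 F2 Wo : ℕ → ℕ → ℝ} {fs : ℕ → ℕ → ℕ} {al : ℕ → ℕ → ℝ}
    (hT : Tree S F1 F2 Wo) (h : Rc7121 C1 S F1 Wo fs al) : ∀ l, 4 ≤ l → ∀ k,
    0 ≤ al l k ∧ F1 l k / S l k ≤ 2 * al l k ∧ (fs l k = l → F1 l k / S l k ≤ al l k) := by
  intro l hl
  induction l, hl using Nat.le_induction with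
  | base =>
    intro k
    rw [(h.base k).2]
    have h1 : 0 ≤ F1 4 k / S 4 k := div_nonneg (hT.F10 _ _) (hT.S0 _ _)
    exact ⟨h1, by linarith, fun _ => le_rfl⟩
  | succ l hl ih =>
    intro k
    obtain ⟨i1, i2, i3⟩ := ih (k / 2)
    rcases h.step l k hl with ⟨_, h1, h2⟩ | ⟨h0, _, h1, h2⟩
    · rw [h2]
      have h3 : F1 (l + 1) k / S (l + 1) k ≤ max (al l (k / 2)) (F1 (l + 1) k / S (l + 1) k) :=
        le_max_right _ _
      have h4 : al l (k / 2) ≤ max (al l (k / 2)) (F1 (l + 1) k / S (l + 1) k) := le_max_left _ _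
      exact ⟨by linarith, by linarith, fun _ => h3⟩
    · rw [h2]
      refine ⟨i1, h0, fun h3 => ?_⟩
      exfalso
      have h4 := (fsr7121 h l hl (k / 2)).2
      rw [h1] at h3
      omega

omit [MeasurableSpace X] in
theorem coh7121 {C1 : ℝ} {S F1 Wo : ℕ → ℕ → ℝ} {fs : ℕ → ℕ → ℕ} {al : ℕ → ℕ → ℝ}
    (h : Rc7121 C1 S F1 Wo fs al) : ∀ l, 4 ≤ l → ∀ k t, fs l k ≤ t → t ≤ l →
    fs t (k / 2 ^ (l - t)) = fs l k ∧ al t (k / 2 ^ (l - t)) = al l k := by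
  intro l hl
  induction l, hl using Nat.le_induction with
  | base =>
    intro k t h1 h2
    rw [(h.base k).1] at h1
    have : t = 4 := le_antisymm h2 h1
    subst this
    simp
  | succ l hl ih =>
    intro k t h1 h2
    rcases Nat.lt_or_ge l t with h3 | h3
    · have : t = l + 1 := by omega
      subst this
      simp
    · rcases h.step l k hl with ⟨_, h4, _⟩ | ⟨_, _, h4, h5⟩
      · rw [h4] at h1
        omega
      · rw [dv7121 k t l h3, h4, h5]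
        rw [h4] at h1
        exact ih (k / 2) t h1 h3

omit [MeasurableSpace X] in
theorem mon7121 {C1 : ℝ} {S F1 Wo : ℕ → ℕ → ℝ} {fs : ℕ → ℕ → ℕ} {al : ℕ → ℕ → ℝ}
    (h : Rc7121 C1 S F1 Wo fs al) : ∀ l, 4 ≤ l → ∀ k t, 4 ≤ t → t ≤ l →
    al t (k / 2 ^ (l - t)) ≤ al l k := by
  intro l hl
  induction l, hl using Nat.le_induction with
  | base =>
    intro k t h1 h2
    have : t = 4 := le_antisymm h2 h1
    subst this
    simp
  | succ l hl ih =>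
    intro k t h1 h2
    rcases Nat.lt_or_ge l t with h3 | h3
    · have : t = l + 1 := by omega
      subst this
      simp
    · rw [dv7121 k t l h3]
      have h4 := ih (k / 2) t h1 h3
      rcases h.step l k hl with ⟨_, _, h5⟩ | ⟨_, _, _, h5⟩
      · rw [h5]
        exact h4.trans (le_max_left _ _)
      · rw [h5]
        exact h4

omit [MeasurableSpace X] in
theorem ns7121 {C1 : ℝ} {S F1 Wo : ℕ → ℕ → ℝ} {fs : ℕ → ℕ → ℕ} {al : ℕ → ℕ → ℝ}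
    (h : Rc7121 C1 S F1 Wo fs al) (l k : ℕ) (hl : 4 ≤ l) (hf : fs l k < l) :
    Wo l k * PGa S (fs l k) l k ^ 2 ≤ C1 * S l k := by
  rcases Nat.lt_or_ge 4 l with h1 | h1
  · obtain ⟨m, rfl⟩ : ∃ m, l = m + 1 := ⟨l - 1, by omega⟩
    rcases h.step m k (by omega) with ⟨_, h4, _⟩ | ⟨_, h3, h4, h5⟩
    · omega
    · rw [h4]
      exact h3
  · have : l = 4 := le_antisymm h1 hl
    subst this
    rw [(h.base k).1] at hf
    omega

omit [MeasurableSpace X] in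
theorem dsc7121 {C1 : ℝ} {S F1 Wo : ℕ → ℕ → ℝ} {fs : ℕ → ℕ → ℕ} {al : ℕ → ℕ → ℝ}
    (h : Rc7121 C1 S F1 Wo fs al) (l k t j : ℕ) (hl : 4 ≤ l) (hlt : l ≤ t) (hf : fs l k = l)
    (hj : j / 2 ^ (t - l) = k) : l ≤ fs t j := by
  by_contra hc
  rw [not_le] at hc
  have h1 := (coh7121 h t (hl.trans hlt) j l hc.le hlt).1
  rw [hj, hf] at h1
  omega

omit [MeasurableSpace X] in
theorem dbl7121 (φ : ℕ → ℝ) (n : ℕ) : ∑ k ∈ Finset.range (2 * n), φ k =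
    ∑ k ∈ Finset.range n, (φ (2 * k) + φ (2 * k + 1)) := by
  induction n with
  | zero => simp
  | succ n ih =>
    rw [show 2 * (n + 1) = 2 * n + 1 + 1 by ring, Finset.sum_range_succ, Finset.sum_range_succ, ih,
      Finset.sum_range_succ]
    ring

omit [MeasurableSpace X] in
theorem tot7121 (F : ℕ → ℕ → ℝ) (hs : ∀ l k, F (l + 1) (2 * k) + F (l + 1) (2 * k + 1) ≤ F l k) :
    ∀ l, ∑ k ∈ Finset.range (2 ^ l), F l k ≤ F 0 0 := by
  intro l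
  induction l with
  | zero => simp
  | succ l ih =>
    rw [show 2 ^ (l + 1) = 2 * 2 ^ l by ring, dbl7121]
    exact (Finset.sum_le_sum (fun k _ => hs l k)).trans ih

omit [MeasurableSpace X] in
theorem anti7121 (F : ℕ → ℕ → ℝ) (h0 : ∀ l k, 0 ≤ F l k)
    (hs : ∀ l k, F (l + 1) (2 * k) + F (l + 1) (2 * k + 1) ≤ F l k) :
    ∀ (n g k : ℕ) (A : Finset (ℕ × ℕ)),
      (∀ p ∈ A, g ≤ p.1 ∧ p.1 ≤ g + n ∧ p.2 / 2 ^ (p.1 - g) = k) →
      (∀ p ∈ A, ∀ q ∈ A, p ≠ q → ¬ (p.1 ≤ q.1 ∧ q.2 / 2 ^ (q.1 - p.1) = p.2)) →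
      ∑ p ∈ A, F p.1 p.2 ≤ F g k := by
  intro n
  induction n with
  | zero =>
    intro g k A hA _
    have h1 : A ⊆ {(g, k)} := by
      intro p hp
      obtain ⟨h2, h3, h4⟩ := hA p hp
      have h5 : p.1 = g := by omega
      rw [h5, Nat.sub_self, pow_zero, Nat.div_one] at h4
      rw [Finset.mem_singleton]
      exact Prod.ext h5 h4
    calc ∑ p ∈ A, F p.1 p.2 ≤ ∑ p ∈ ({(g, k)} : Finset (ℕ × ℕ)), F p.1 p.2 :=
          Finset.sum_le_sum_of_subset_of_nonneg h1 (fun p _ _ => h0 _ _)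
      _ = F g k := by simp
  | succ n ih =>
    intro g k A hA hanti
    by_cases hg : (g, k) ∈ A
    · have h1 : A ⊆ {(g, k)} := by
        intro p hp
        obtain ⟨h2, h3, h4⟩ := hA p hp
        rw [Finset.mem_singleton]
        by_contra hne
        exact hanti (g, k) hg p hp (fun h => hne h.symm) ⟨h2, h4⟩
      calc ∑ p ∈ A, F p.1 p.2 ≤ ∑ p ∈ ({(g, k)} : Finset (ℕ × ℕ)), F p.1 p.2 :=
            Finset.sum_le_sum_of_subset_of_nonneg h1 (fun p _ _ => h0 _ _)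
        _ = F g k := by simp
    · have hlev : ∀ p ∈ A, g + 1 ≤ p.1 ∧ p.1 ≤ g + 1 + n ∧
          (p.2 / 2 ^ (p.1 - (g + 1))) / 2 = k := by
        intro p hp
        obtain ⟨h2, h3, h4⟩ := hA p hp
        have h5 : p.1 ≠ g := by
          intro h5
          rw [h5, Nat.sub_self, pow_zero, Nat.div_one] at h4
          apply hg
          have : (g, k) = p := Prod.ext h5.symm h4.symm
          rw [this]
          exact hp
        refine ⟨by omega, by omega, ?_⟩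
        rw [Nat.div_div_eq_div_mul, ← pow_succ, show p.1 - (g + 1) + 1 = p.1 - g by omega]
        exact h4
      rw [← Finset.sum_filter_add_sum_filter_not A (fun p => p.2 / 2 ^ (p.1 - (g + 1)) = 2 * k)]
      have i1 := ih (g + 1) (2 * k) (A.filter (fun p => p.2 / 2 ^ (p.1 - (g + 1)) = 2 * k))
        (fun p hp => by
          rw [Finset.mem_filter] at hp
          obtain ⟨h2, h3, h4⟩ := hlev p hp.1
          exact ⟨h2, h3, hp.2⟩)
        (fun p hp q hq => hanti p (Finset.mem_filter.1 hp).1 q (Finset.mem_filter.1 hq).1)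
      have i2 := ih (g + 1) (2 * k + 1)
        (A.filter (fun p => ¬ (p.2 / 2 ^ (p.1 - (g + 1)) = 2 * k)))
        (fun p hp => by
          rw [Finset.mem_filter] at hp
          obtain ⟨h2, h3, h4⟩ := hlev p hp.1
          refine ⟨h2, h3, ?_⟩
          have := hp.2
          omega)
        (fun p hp q hq => hanti p (Finset.mem_filter.1 hp).1 q (Finset.mem_filter.1 hq).1)
      have := hs g k
      linarith

omit [MeasurableSpace X] in
theorem pack7121 {CP : ℝ} {S F1 F2 Wo : ℕ → ℕ → ℝ} {fs : ℕ → ℕ → ℕ} {al : ℕ → ℕ → ℝ}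
    (hCP : 0 ≤ CP) (hT : Tree S F1 F2 Wo) (hP : Piv S Wo CP)
    (h : Rc7121 (4 * CP + 1) S F1 Wo fs al) (g k : ℕ) (hg : 4 ≤ g) (hk : k < 2 ^ g)
    (hf : fs g k = g) (A : Finset (ℕ × ℕ))
    (hA : ∀ p ∈ A, g + 1 ≤ p.1 ∧ fs p.1 p.2 = p.1 ∧ fs (p.1 - 1) (p.2 / 2) = g ∧
      p.2 / 2 / 2 ^ (p.1 - 1 - g) = k) :
    ∑ p ∈ A, S p.1 p.2 ≤ 3 / 4 * S g k := by
  classical
  have hbelow : ∀ p ∈ A, g ≤ p.1 ∧ p.2 / 2 ^ (p.1 - g) = k := by
    intro p hp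
    obtain ⟨h1, h2, h3, h4⟩ := hA p hp
    refine ⟨by omega, ?_⟩
    have h5 := dv7121 p.2 g (p.1 - 1) (by omega)
    rw [show p.1 - 1 + 1 = p.1 by omega] at h5
    rw [h5]
    exact h4
  have hanti : ∀ p ∈ A, ∀ q ∈ A, p ≠ q → ¬ (p.1 ≤ q.1 ∧ q.2 / 2 ^ (q.1 - p.1) = p.2) := by
    rintro p hp q hq hne ⟨h1, h2⟩
    rcases Nat.lt_or_ge p.1 q.1 with h3 | h3
    · obtain ⟨a1, a2, a3, a4⟩ := hA p hp
      obtain ⟨b1, b2, b3, b4⟩ := hA q hq
      have h5 := dv7121 q.2 p.1 (q.1 - 1) (by omega)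
      rw [show q.1 - 1 + 1 = q.1 by omega, h2] at h5
      have h6 := dsc7121 h p.1 p.2 (q.1 - 1) (q.2 / 2) (by omega) (by omega) a2 h5.symm
      rw [b3] at h6
      omega
    · have h4 : p.1 = q.1 := le_antisymm h1 h3
      rw [h4, Nat.sub_self, pow_zero, Nat.div_one] at h2
      exact hne (Prod.ext h4 h2.symm)
  have hcase : ∀ p ∈ A, 2 * al g k < F1 p.1 p.2 / S p.1 p.2 ∨
      (4 * CP + 1) * S p.1 p.2 < Wo p.1 p.2 * PGa S g p.1 p.2 ^ 2 := by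
    intro p hp
    obtain ⟨h1, h2, h3, h4⟩ := hA p hp
    obtain ⟨m, hm⟩ : ∃ m, p.1 = m + 1 := ⟨p.1 - 1, by omega⟩
    rw [hm] at h1 h2 h3 h4 ⊢
    rw [show m + 1 - 1 = m by omega] at h3 h4
    have hco := coh7121 h m (by omega) (p.2 / 2) g (by rw [h3]) (by omega)
    rw [h4] at hco
    rcases h.step m p.2 (by omega) with ⟨h5, _, _⟩ | ⟨_, _, h5, _⟩
    · rw [h3, ← hco.2] at h5
      exact h5
    · rw [h2, h3] at h5
      omega
  obtain ⟨hal0, _, hal1⟩ := alp7121 hT h g hg k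
  have hal2 := hal1 hf
  have hF1 : F1 g k ≤ al g k * S g k := by
    rcases (hT.S0 g k).eq_or_lt with h1 | h1
    · have h2 := hT.CS g k
      rw [← h1, zero_mul] at h2
      have h3 : F1 g k = 0 := by
        have := sq_nonneg (F1 g k)
        have h4 : F1 g k ^ 2 = 0 := le_antisymm h2 this
        exact pow_eq_zero_iff (two_ne_zero) |>.1 h4
      rw [h3, ← h1, mul_zero]
    · rwa [div_le_iff₀ h1] at hal2
  obtain ⟨n, hn⟩ : ∃ n, ∀ p ∈ A, p.1 ≤ g + n := by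
    refine ⟨∑ p ∈ A, p.1, fun p hp => ?_⟩
    have := Finset.single_le_sum (f := fun p : ℕ × ℕ => p.1) (fun q _ => Nat.zero_le _) hp
    omega
  rw [← Finset.sum_filter_add_sum_filter_not A (fun p => 2 * al g k < F1 p.1 p.2 / S p.1 p.2)]
  have hp1 : ∀ p ∈ A.filter (fun p => 2 * al g k < F1 p.1 p.2 / S p.1 p.2),
      2 * al g k * S p.1 p.2 < F1 p.1 p.2 := by
    intro p hp
    rw [Finset.mem_filter] at hp
    have h1 : 0 < S p.1 p.2 := by
      rcases (hT.S0 p.1 p.2).eq_or_lt with h1 | h1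
      · have h2 := hp.2
        rw [← h1, div_zero] at h2
        linarith
      · exact h1
    exact (lt_div_iff₀ h1).1 hp.2
  have hsum1 : ∑ p ∈ A.filter (fun p => 2 * al g k < F1 p.1 p.2 / S p.1 p.2), F1 p.1 p.2 ≤
      F1 g k := by
    refine anti7121 F1 hT.F10 hT.F1sub n g k _ ?_ ?_
    · intro p hp
      rw [Finset.mem_filter] at hp
      exact ⟨(hbelow p hp.1).1, hn p hp.1, (hbelow p hp.1).2⟩
    · intro p hp q hq
      exact hanti p (Finset.mem_filter.1 hp).1 q (Finset.mem_filter.1 hq).1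
  have hS1 : ∑ p ∈ A.filter (fun p => 2 * al g k < F1 p.1 p.2 / S p.1 p.2), S p.1 p.2 ≤
      1 / 2 * S g k := by
    rcases hal0.eq_or_lt with h1 | h1
    · have h2 : A.filter (fun p => 2 * al g k < F1 p.1 p.2 / S p.1 p.2) = ∅ := by
        by_contra hne
        obtain ⟨p, hp⟩ := Finset.nonempty_iff_ne_empty.2 hne
        have h3 := hp1 p hp
        rw [← h1] at h3
        have h4 : 0 < F1 p.1 p.2 := by linarith
        have h5 : F1 p.1 p.2 ≤ ∑ p ∈ A.filter (fun p => 2 * al g k < F1 p.1 p.2 / S p.1 p.2),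
            F1 p.1 p.2 :=
          Finset.single_le_sum (f := fun p : ℕ × ℕ => F1 p.1 p.2) (fun q _ => hT.F10 _ _) hp
        rw [← h1, zero_mul] at hF1
        linarith
      rw [h2, Finset.sum_empty]
      have := hT.S0 g k
      linarith
    · have h2 : 2 * al g k * ∑ p ∈ A.filter (fun p => 2 * al g k < F1 p.1 p.2 / S p.1 p.2),
          S p.1 p.2 ≤ al g k * S g k := by
        rw [Finset.mul_sum]
        exact (Finset.sum_le_sum (fun p hp => (hp1 p hp).le)).trans (hsum1.trans hF1)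
      have h3 : al g k * (∑ p ∈ A.filter (fun p => 2 * al g k < F1 p.1 p.2 / S p.1 p.2),
          S p.1 p.2) ≤ al g k * (1 / 2 * S g k) := by
        linarith
      exact le_of_mul_le_mul_left h3 h1
  have hS2 : ∑ p ∈ A.filter (fun p => ¬ (2 * al g k < F1 p.1 p.2 / S p.1 p.2)), S p.1 p.2 ≤
      1 / 4 * S g k := by
    have h1 := hP g k hg hk (A.filter (fun p => ¬ (2 * al g k < F1 p.1 p.2 / S p.1 p.2)))
      (fun p hp => hbelow p (Finset.mem_filter.1 hp).1)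
      (fun p hp q hq => hanti p (Finset.mem_filter.1 hp).1 q (Finset.mem_filter.1 hq).1)
    have h2 : (4 * CP + 1) * ∑ p ∈ A.filter (fun p => ¬ (2 * al g k < F1 p.1 p.2 / S p.1 p.2)),
        S p.1 p.2 ≤ CP * S g k := by
      rw [Finset.mul_sum]
      refine (Finset.sum_le_sum (fun p hp => ?_)).trans h1
      rw [Finset.mem_filter] at hp
      rcases hcase p hp.1 with h3 | h3
      · exact absurd h3 hp.2
      · exact h3.le
    have h3 : (4 * CP + 1) * ∑ p ∈ A.filter (fun p => ¬ (2 * al g k < F1 p.1 p.2 / S p.1 p.2)),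
        S p.1 p.2 ≤ (4 * CP + 1) * (1 / 4 * S g k) := by
      have := hT.S0 g k
      nlinarith
    exact le_of_mul_le_mul_left h3 (by linarith)
  linarith

/-- the stop nodes -/
def SN7121 (fs : ℕ → ℕ → ℕ) (N : ℕ) : Finset (ℕ × ℕ) :=
  ((Finset.Icc 4 N) ×ˢ (Finset.range (2 ^ N))).filter (fun p => p.2 < 2 ^ p.1 ∧ fs p.1 p.2 = p.1)

omit [MeasurableSpace X] in
theorem mem7121 (fs : ℕ → ℕ → ℕ) (N : ℕ) (p : ℕ × ℕ) : p ∈ SN7121 fs N ↔
    (4 ≤ p.1 ∧ p.1 ≤ N) ∧ p.2 < 2 ^ p.1 ∧ fs p.1 p.2 = p.1 := by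
  unfold SN7121
  rw [Finset.mem_filter, Finset.mem_product, Finset.mem_Icc, Finset.mem_range]
  constructor
  · rintro ⟨⟨h1, _⟩, h2⟩
    exact ⟨h1, h2⟩
  · rintro ⟨h1, h2⟩
    exact ⟨⟨h1, lt_of_lt_of_le h2.1 (Nat.pow_le_pow_right (by norm_num) h1.2)⟩, h2⟩

omit [MeasurableSpace X] in
theorem conv7121 (fs : ℕ → ℕ → ℕ) (N : ℕ) (c : ℕ → ℕ → ℝ) :
    ∑ l ∈ Finset.Icc 4 N, ∑ k ∈ (Finset.range (2 ^ l)).filter (fun k => fs l k = l), c l k =
    ∑ p ∈ SN7121 fs N, c p.1 p.2 := by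
  rw [Finset.sum_sigma']
  refine Finset.sum_nbij' (fun x => (x.1, x.2)) (fun p => ⟨p.1, p.2⟩) ?_ ?_ ?_ ?_ ?_
  · rintro ⟨l, k⟩ hx
    rw [Finset.mem_sigma, Finset.mem_Icc, Finset.mem_filter, Finset.mem_range] at hx
    rw [mem7121]
    exact hx
  · rintro ⟨l, k⟩ hx
    rw [mem7121] at hx
    rw [Finset.mem_sigma, Finset.mem_Icc, Finset.mem_filter, Finset.mem_range]
    exact hx
  · rintro ⟨l, k⟩ _
    rfl
  · rintro ⟨l, k⟩ _
    rfl
  · rintro ⟨l, k⟩ _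
    rfl

/-- the integral of the square of the last value -/
def VV7121 (S al : ℕ → ℕ → ℝ) (L : ℕ) : ℝ :=
  ∑ k ∈ Finset.range (2 ^ L), al L k ^ 2 * S L k +
    ∑ l ∈ Finset.Ico 4 L, ∑ k ∈ Finset.range (2 ^ l),
      al l k ^ 2 * (S l k - S (l + 1) (2 * k) - S (l + 1) (2 * k + 1))

/-- the potential -/
def UU7121 (S F1 F2 al : ℕ → ℕ → ℝ) (L : ℕ) : ℝ :=
  ∑ k ∈ Finset.range (2 ^ L), (4 * F2 L k - 4 * al L k * F1 L k + 2 * al L k ^ 2 * S L k) +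
    ∑ l ∈ Finset.Ico 4 L, ∑ k ∈ Finset.range (2 ^ l),
      al l k ^ 2 * (S l k - S (l + 1) (2 * k) - S (l + 1) (2 * k + 1))

omit [MeasurableSpace X] in
theorem quad7121 (a f1 s f2 : ℝ) (hs : 0 ≤ s) (hf : 0 ≤ f2) (h : f1 ^ 2 ≤ s * f2) :
    4 * a * f1 ≤ a ^ 2 * s + 4 * f2 := by
  have h1 : 0 ≤ a ^ 2 * s + 4 * f2 := by positivity
  refine le_of_sq_le_sq ?_ h1 |> fun h => h
  nlinarith [sq_nonneg (a ^ 2 * s - 4 * f2), mul_le_mul_of_nonneg_left h (sq_nonneg a)]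

omit [MeasurableSpace X] in
theorem Ustep7121 {C1 : ℝ} {S F1 F2 Wo : ℕ → ℕ → ℝ} {fs : ℕ → ℕ → ℕ} {al : ℕ → ℕ → ℝ}
    (hT : Tree S F1 F2 Wo) (h : Rc7121 C1 S F1 Wo fs al) (L : ℕ) (hL : 4 ≤ L) :
    UU7121 S F1 F2 al (L + 1) ≤ UU7121 S F1 F2 al L := by
  unfold UU7121
  rw [Finset.sum_Ico_succ_top hL, show 2 ^ (L + 1) = 2 * 2 ^ L by ring, dbl7121]
  have h1 : ∀ k, (4 * F2 (L + 1) (2 * k) - 4 * al (L + 1) (2 * k) * F1 (L + 1) (2 * k)
        + 2 * al (L + 1) (2 * k) ^ 2 * S (L + 1) (2 * k))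
      + (4 * F2 (L + 1) (2 * k + 1) - 4 * al (L + 1) (2 * k + 1) * F1 (L + 1) (2 * k + 1)
        + 2 * al (L + 1) (2 * k + 1) ^ 2 * S (L + 1) (2 * k + 1))
      + al L k ^ 2 * (S L k - S (L + 1) (2 * k) - S (L + 1) (2 * k + 1)) ≤
      4 * F2 L k - 4 * al L k * F1 L k + 2 * al L k ^ 2 * S L k := by
    intro k
    have hchild : ∀ j, j / 2 = k → - 4 * al (L + 1) j * F1 (L + 1) j
        + 2 * al (L + 1) j ^ 2 * S (L + 1) j ≤ - 4 * al L k * F1 (L + 1) j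
        + 2 * al L k ^ 2 * S (L + 1) j := by
      intro j hj
      rcases h.step L j hL with ⟨_, _, h2⟩ | ⟨_, _, _, h2⟩
      · rw [hj] at h2
        rw [h2]
        rcases le_total (F1 (L + 1) j / S (L + 1) j) (al L k) with h3 | h3
        · rw [max_eq_left h3]
        · rw [max_eq_right h3]
          rcases (hT.S0 (L + 1) j).eq_or_lt with h4 | h4
          · rw [← h4, div_zero] at h3 ⊢
            have h5 := (alp7121 hT h L hL k).1
            have h6 : al L k = 0 := le_antisymm h3 h5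
            rw [h6]
          · have h5 : F1 (L + 1) j = (F1 (L + 1) j / S (L + 1) j) * S (L + 1) j := by
              field_simp
            set q := F1 (L + 1) j / S (L + 1) j with hq
            rw [h5]
            nlinarith [mul_nonneg h4.le (sq_nonneg (q - al L k))]
      · rw [hj] at h2
        rw [h2]
    have c1 := hchild (2 * k) (by omega)
    have c2 := hchild (2 * k + 1) (by omega)
    have hs : 0 ≤ S L k - S (L + 1) (2 * k) - S (L + 1) (2 * k + 1) := by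
      have := hT.Ssub L k
      linarith
    have hf : 0 ≤ F2 L k - F2 (L + 1) (2 * k) - F2 (L + 1) (2 * k + 1) := by
      have := hT.F2sub L k
      linarith
    have c3 := quad7121 (al L k) (F1 L k - F1 (L + 1) (2 * k) - F1 (L + 1) (2 * k + 1)) _ _ hs hf
      (hT.CST L k)
    nlinarith
  have h2 := Finset.sum_le_sum (s := Finset.range (2 ^ L)) (fun k _ => h1 k)
  rw [Finset.sum_add_distrib] at h2
  linarith

omit [MeasurableSpace X] in
theorem VU7121 {S F1 F2 Wo : ℕ → ℕ → ℝ} {al : ℕ → ℕ → ℝ}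
    (hT : Tree S F1 F2 Wo) (L : ℕ) :
    VV7121 S al L ≤ UU7121 S F1 F2 al L := by
  unfold VV7121 UU7121
  have h1 : ∀ k, al L k ^ 2 * S L k ≤
      4 * F2 L k - 4 * al L k * F1 L k + 2 * al L k ^ 2 * S L k := by
    intro k
    have := quad7121 (al L k) (F1 L k) (S L k) (F2 L k) (hT.S0 _ _) (hT.F20 _ _) (hT.CS L k)
    linarith
  have h2 := Finset.sum_le_sum (s := Finset.range (2 ^ L)) (fun k _ => h1 k)
  linarith

omit [MeasurableSpace X] in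
theorem U47121 {C1 : ℝ} {S F1 F2 Wo : ℕ → ℕ → ℝ} {fs : ℕ → ℕ → ℕ} {al : ℕ → ℕ → ℝ}
    (hT : Tree S F1 F2 Wo) (h : Rc7121 C1 S F1 Wo fs al) :
    ∀ L, 4 ≤ L → UU7121 S F1 F2 al L ≤ 4 * F2 0 0 := by
  intro L hL
  induction L, hL using Nat.le_induction with
  | base =>
    unfold UU7121
    rw [Finset.Ico_self, Finset.sum_empty, add_zero]
    have h1 : ∀ k, 4 * F2 4 k - 4 * al 4 k * F1 4 k + 2 * al 4 k ^ 2 * S 4 k ≤ 4 * F2 4 k := by
      intro k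
      rw [(h.base k).2]
      rcases (hT.S0 4 k).eq_or_lt with h4 | h4
      · rw [← h4, div_zero]
        simp
      · have h5 : F1 4 k = (F1 4 k / S 4 k) * S 4 k := by field_simp
        set q := F1 4 k / S 4 k with hq
        rw [h5]
        nlinarith [mul_nonneg h4.le (sq_nonneg q)]
    have h2 := Finset.sum_le_sum (s := Finset.range (2 ^ 4)) (fun k _ => h1 k)
    rw [← Finset.mul_sum] at h2
    have h3 := tot7121 F2 hT.F2sub 4
    linarith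
  | succ L hL ih => exact (Ustep7121 hT h L hL).trans ih

/-- previous values at stop nodes -/
def bb7121 (S al : ℕ → ℕ → ℝ) (l k : ℕ) : ℝ :=
  if l = 4 then 0 else al (l - 1) (k / 2) ^ 2 * S l k

omit [MeasurableSpace X] in
theorem Vtel7121 {C1 : ℝ} {S F1 Wo : ℕ → ℕ → ℝ} {fs : ℕ → ℕ → ℕ} {al : ℕ → ℕ → ℝ}
    (h : Rc7121 C1 S F1 Wo fs al) :
    ∀ L, 4 ≤ L → VV7121 S al L =
      ∑ l ∈ Finset.Icc 4 L, ∑ k ∈ (Finset.range (2 ^ l)).filter (fun k => fs l k = l),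
        al l k ^ 2 * S l k -
      ∑ l ∈ Finset.Icc 4 L, ∑ k ∈ (Finset.range (2 ^ l)).filter (fun k => fs l k = l),
        bb7121 S al l k := by
  intro L hL
  induction L, hL using Nat.le_induction with
  | base =>
    unfold VV7121
    rw [Finset.Ico_self, Finset.sum_empty, add_zero, Finset.Icc_self, Finset.sum_singleton,
      Finset.sum_singleton]
    have h1 : (Finset.range (2 ^ 4)).filter (fun k => fs 4 k = 4) = Finset.range (2 ^ 4) := by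
      rw [Finset.filter_true_of_mem]
      intro k _
      exact (h.base k).1
    rw [h1]
    have h2 : ∀ k, bb7121 S al 4 k = 0 := fun k => by simp [bb7121]
    rw [Finset.sum_congr rfl (fun k _ => h2 k)]
    simp
  | succ L hL ih =>
    rw [Finset.sum_Icc_succ_top (by omega), Finset.sum_Icc_succ_top (by omega)]
    have h1 : VV7121 S al (L + 1) = VV7121 S al L +
        (∑ k ∈ Finset.range (2 ^ (L + 1)), al (L + 1) k ^ 2 * S (L + 1) k -
         ∑ k ∈ Finset.range (2 ^ (L + 1)), al L (k / 2) ^ 2 * S (L + 1) k) := by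
      have h2 : ∑ k ∈ Finset.range (2 ^ (L + 1)), al L (k / 2) ^ 2 * S (L + 1) k =
          ∑ k ∈ Finset.range (2 ^ L), (al L k ^ 2 * S (L + 1) (2 * k) +
            al L k ^ 2 * S (L + 1) (2 * k + 1)) := by
        rw [show 2 ^ (L + 1) = 2 * 2 ^ L by ring, dbl7121]
        refine Finset.sum_congr rfl (fun k _ => ?_)
        rw [show 2 * k / 2 = k by omega, show (2 * k + 1) / 2 = k by omega]
      rw [h2]
      unfold VV7121
      rw [Finset.sum_Ico_succ_top hL]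
      have h3 : ∑ k ∈ Finset.range (2 ^ L),
          al L k ^ 2 * (S L k - S (L + 1) (2 * k) - S (L + 1) (2 * k + 1)) =
          ∑ k ∈ Finset.range (2 ^ L), al L k ^ 2 * S L k -
          ∑ k ∈ Finset.range (2 ^ L), (al L k ^ 2 * S (L + 1) (2 * k) +
            al L k ^ 2 * S (L + 1) (2 * k + 1)) := by
        rw [← Finset.sum_sub_distrib]
        refine Finset.sum_congr rfl (fun k _ => ?_)
        ring
      rw [h3]
      ring
    have h4 : ∑ k ∈ Finset.range (2 ^ (L + 1)), al (L + 1) k ^ 2 * S (L + 1) k -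
         ∑ k ∈ Finset.range (2 ^ (L + 1)), al L (k / 2) ^ 2 * S (L + 1) k =
        ∑ k ∈ (Finset.range (2 ^ (L + 1))).filter (fun k => fs (L + 1) k = L + 1),
          al (L + 1) k ^ 2 * S (L + 1) k -
        ∑ k ∈ (Finset.range (2 ^ (L + 1))).filter (fun k => fs (L + 1) k = L + 1),
          bb7121 S al (L + 1) k := by
      rw [← Finset.sum_sub_distrib, ← Finset.sum_sub_distrib, Finset.sum_filter]
      refine Finset.sum_congr rfl (fun k _ => ?_)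
      have h5 : bb7121 S al (L + 1) k = al L (k / 2) ^ 2 * S (L + 1) k := by
        unfold bb7121
        rw [if_neg (by omega)]
        rfl
      rw [h5]
      split_ifs with h6
      · rfl
      · rcases h.step L k hL with ⟨_, h7, _⟩ | ⟨_, _, _, h7⟩
        · exact absurd h7 h6
        · rw [h7]
          ring
    rw [h1, ih, h4]
    ring

omit [MeasurableSpace X] in
theorem dlt7121 (k l g : ℕ) (hg : g ≤ l) (hk : k < 2 ^ l) : k / 2 ^ (l - g) < 2 ^ g := by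
  rw [Nat.div_lt_iff_lt_mul (by positivity), ← pow_add, show g + (l - g) = l by omega]
  exact hk

omit [MeasurableSpace X] in
theorem BA7121 {CP : ℝ} {S F1 F2 Wo : ℕ → ℕ → ℝ} {fs : ℕ → ℕ → ℕ} {al : ℕ → ℕ → ℝ}
    (hCP : 0 ≤ CP) (hT : Tree S F1 F2 Wo) (hP : Piv S Wo CP)
    (h : Rc7121 (4 * CP + 1) S F1 Wo fs al) (N : ℕ) :
    ∑ p ∈ SN7121 fs N, bb7121 S al p.1 p.2 ≤
      3 / 4 * ∑ p ∈ SN7121 fs N, al p.1 p.2 ^ 2 * S p.1 p.2 := by
  classical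
  have h1 : ∑ p ∈ SN7121 fs N, bb7121 S al p.1 p.2 =
      ∑ p ∈ (SN7121 fs N).filter (fun p => 5 ≤ p.1), al (p.1 - 1) (p.2 / 2) ^ 2 * S p.1 p.2 := by
    rw [Finset.sum_filter]
    refine Finset.sum_congr rfl (fun p hp => ?_)
    rw [mem7121] at hp
    unfold bb7121
    by_cases h2 : p.1 = 4
    · rw [if_pos h2, if_neg (by omega)]
    · rw [if_neg h2, if_pos (by omega)]
  rw [h1]
  have hmaps : ∀ p ∈ (SN7121 fs N).filter (fun p => 5 ≤ p.1),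
      ((fs (p.1 - 1) (p.2 / 2), p.2 / 2 / 2 ^ (p.1 - 1 - fs (p.1 - 1) (p.2 / 2))) : ℕ × ℕ) ∈
        SN7121 fs N := by
    intro p hp
    rw [Finset.mem_filter, mem7121] at hp
    obtain ⟨⟨⟨h2, h3⟩, h4, h5⟩, h6⟩ := hp
    have h7 := fsr7121 h (p.1 - 1) (by omega) (p.2 / 2)
    have h8 := coh7121 h (p.1 - 1) (by omega) (p.2 / 2) _ le_rfl h7.2
    rw [mem7121]
    refine ⟨⟨h7.1, by simp only; omega⟩, ?_, h8.1⟩
    refine dlt7121 _ _ _ h7.2 ?_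
    have : 2 ^ p.1 = 2 * 2 ^ (p.1 - 1) := by
      rw [← pow_succ', show p.1 - 1 + 1 = p.1 by omega]
    omega
  rw [← Finset.sum_fiberwise_of_maps_to hmaps, Finset.mul_sum]
  refine Finset.sum_le_sum (fun G hG => ?_)
  rw [mem7121] at hG
  obtain ⟨⟨h2, h3⟩, h4, h5⟩ := hG
  have h6 : ∀ p ∈ ((SN7121 fs N).filter (fun p => 5 ≤ p.1)).filter (fun p =>
      ((fs (p.1 - 1) (p.2 / 2), p.2 / 2 / 2 ^ (p.1 - 1 - fs (p.1 - 1) (p.2 / 2))) : ℕ × ℕ) = G),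
      G.1 + 1 ≤ p.1 ∧ fs p.1 p.2 = p.1 ∧ fs (p.1 - 1) (p.2 / 2) = G.1 ∧
      p.2 / 2 / 2 ^ (p.1 - 1 - G.1) = G.2 := by
    intro p hp
    rw [Finset.mem_filter, Finset.mem_filter, mem7121] at hp
    obtain ⟨⟨⟨⟨a1, a2⟩, a3, a4⟩, a5⟩, a6⟩ := hp
    have b1 : fs (p.1 - 1) (p.2 / 2) = G.1 := congrArg Prod.fst a6
    have b2 : p.2 / 2 / 2 ^ (p.1 - 1 - fs (p.1 - 1) (p.2 / 2)) = G.2 := congrArg Prod.snd a6
    rw [b1] at b2
    have b3 := (fsr7121 h (p.1 - 1) (by omega) (p.2 / 2)).2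
    exact ⟨by omega, a4, b1, b2⟩
  have h7 := pack7121 hCP hT hP h G.1 G.2 h2 h4 h5 _ h6
  have h8 : ∑ p ∈ ((SN7121 fs N).filter (fun p => 5 ≤ p.1)).filter (fun p =>
      ((fs (p.1 - 1) (p.2 / 2), p.2 / 2 / 2 ^ (p.1 - 1 - fs (p.1 - 1) (p.2 / 2))) : ℕ × ℕ) = G),
      al (p.1 - 1) (p.2 / 2) ^ 2 * S p.1 p.2 =
      al G.1 G.2 ^ 2 * ∑ p ∈ ((SN7121 fs N).filter (fun p => 5 ≤ p.1)).filter (fun p =>
      ((fs (p.1 - 1) (p.2 / 2), p.2 / 2 / 2 ^ (p.1 - 1 - fs (p.1 - 1) (p.2 / 2))) : ℕ × ℕ) = G),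
      S p.1 p.2 := by
    rw [Finset.mul_sum]
    refine Finset.sum_congr rfl (fun p hp => ?_)
    obtain ⟨a1, a2, a3, a4⟩ := h6 p hp
    have h9 := (coh7121 h (p.1 - 1) (by omega) (p.2 / 2) G.1 a3.le (by omega)).2
    rw [a4] at h9
    rw [h9]
  rw [h8]
  have h10 := mul_le_mul_of_nonneg_left h7 (sq_nonneg (al G.1 G.2))
  linarith

omit [MeasurableSpace X] in
theorem AB7121 {CP : ℝ} {S F1 F2 Wo : ℕ → ℕ → ℝ} {fs : ℕ → ℕ → ℕ} {al : ℕ → ℕ → ℝ}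
    (hCP : 0 ≤ CP) (hT : Tree S F1 F2 Wo) (hP : Piv S Wo CP)
    (h : Rc7121 (4 * CP + 1) S F1 Wo fs al) (N : ℕ) :
    ∑ p ∈ SN7121 fs N, al p.1 p.2 ^ 2 * S p.1 p.2 ≤ 16 * F2 0 0 := by
  rcases Nat.lt_or_ge N 4 with h1 | h1
  · have h2 : SN7121 fs N = ∅ := by
      rw [Finset.eq_empty_iff_forall_notMem]
      intro p hp
      rw [mem7121] at hp
      omega
    rw [h2, Finset.sum_empty]
    have := hT.F20 0 0
    linarith
  · have h2 := Vtel7121 h N h1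
    have h3 := VU7121 (al := al) hT N
    have h4 := U47121 hT h N h1
    have h5 := BA7121 hCP hT hP h N
    rw [conv7121 fs N (fun l k => al l k ^ 2 * S l k),
      conv7121 fs N (fun l k => bb7121 S al l k)] at h2
    linarith

omit [MeasurableSpace X] in
theorem w17121 (n : ℕ) : ∑ u ∈ Finset.range (4 * n), (1 / 2 : ℝ) ^ (u / 4) =
    8 - 8 * (1 / 2) ^ n := by
  induction n with
  | zero => simp
  | succ n ih =>
    rw [show 4 * (n + 1) = 4 * n + 1 + 1 + 1 + 1 by ring, Finset.sum_range_succ,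
      Finset.sum_range_succ, Finset.sum_range_succ, Finset.sum_range_succ, ih,
      show 4 * n / 4 = n by omega, show (4 * n + 1) / 4 = n by omega,
      show (4 * n + 1 + 1) / 4 = n by omega, show (4 * n + 1 + 1 + 1) / 4 = n by omega, pow_succ]
    ring

omit [MeasurableSpace X] in
theorem w27121 (n : ℕ) : ∑ u ∈ Finset.range (4 * n), ((u : ℝ) + 1) * (1 / 2 : ℝ) ^ (u / 4) =
    52 - (32 * n + 52) * (1 / 2) ^ n := by
  induction n with
  | zero => simp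
  | succ n ih =>
    rw [show 4 * (n + 1) = 4 * n + 1 + 1 + 1 + 1 by ring, Finset.sum_range_succ,
      Finset.sum_range_succ, Finset.sum_range_succ, Finset.sum_range_succ, ih,
      show 4 * n / 4 = n by omega, show (4 * n + 1) / 4 = n by omega,
      show (4 * n + 1 + 1) / 4 = n by omega, show (4 * n + 1 + 1 + 1) / 4 = n by omega, pow_succ]
    push_cast
    ring

omit [MeasurableSpace X] in
theorem w18121 (N : ℕ) : ∑ u ∈ Finset.range N, (1 / 2 : ℝ) ^ (u / 4) ≤ 8 := by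
  have h1 : Finset.range N ⊆ Finset.range (4 * N) := Finset.range_subset_range.2 (by omega)
  have h2 := Finset.sum_le_sum_of_subset_of_nonneg (f := fun u => (1 / 2 : ℝ) ^ (u / 4)) h1
    (fun u _ _ => by positivity)
  rw [w17121] at h2
  have h3 : (0 : ℝ) ≤ (1 / 2) ^ N := by positivity
  linarith

omit [MeasurableSpace X] in
theorem w28121 (N : ℕ) : ∑ u ∈ Finset.range N, ((u : ℝ) + 1) * (1 / 2 : ℝ) ^ (u / 4) ≤ 52 := by
  have h1 : Finset.range N ⊆ Finset.range (4 * N) := Finset.range_subset_range.2 (by omega)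
  have h2 := Finset.sum_le_sum_of_subset_of_nonneg
    (f := fun u : ℕ => ((u : ℝ) + 1) * (1 / 2 : ℝ) ^ (u / 4)) h1
    (fun u _ _ => by positivity)
  rw [w27121] at h2
  have h3 : (0 : ℝ) ≤ (32 * N + 52) * (1 / 2) ^ N := by positivity
  linarith

omit [MeasurableSpace X] in
theorem rei7121 (l N : ℕ) (hl : l ≤ N) (φ : ℕ → ℝ) : ∑ t ∈ Finset.Ioc 4 l, φ (l - t) =
    ∑ u ∈ (Finset.range N).filter (fun u => u + 4 < l), φ u := by
  refine Finset.sum_nbij' (fun t => l - t) (fun u => l - u) ?_ ?_ ?_ ?_ ?_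
  · intro t ht
    rw [Finset.mem_Ioc] at ht
    rw [Finset.mem_filter, Finset.mem_range]
    omega
  · intro u hu
    rw [Finset.mem_filter, Finset.mem_range] at hu
    rw [Finset.mem_Ioc]
    omega
  · intro t ht
    rw [Finset.mem_Ioc] at ht
    omega
  · intro u hu
    rw [Finset.mem_filter, Finset.mem_range] at hu
    omega
  · intro t _
    rfl

omit [MeasurableSpace X] in
theorem fixu7121 {CP : ℝ} {S F1 Wo : ℕ → ℕ → ℝ} {fs : ℕ → ℕ → ℕ} {al : ℕ → ℕ → ℝ}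
    (hP : Piv S Wo CP)
    (h : Rc7121 (4 * CP + 1) S F1 Wo fs al) (N u : ℕ) :
    ∑ p ∈ (SN7121 fs N).filter (fun p => u + 4 < p.1),
      al (p.1 - u - 1) (p.2 / 2 ^ (u + 1)) ^ 2 *
        (Wo p.1 p.2 * PGa S (fs (p.1 - u - 1) (p.2 / 2 ^ (u + 1))) p.1 p.2 ^ 2) ≤
      (u + 1) * (CP * ∑ p ∈ SN7121 fs N, al p.1 p.2 ^ 2 * S p.1 p.2) := by
  classical
  let π : ℕ × ℕ → (ℕ × ℕ) × ℕ := fun p =>
    ((fs (p.1 - u - 1) (p.2 / 2 ^ (u + 1)),
      p.2 / 2 ^ (u + 1) / 2 ^ (p.1 - u - 1 - fs (p.1 - u - 1) (p.2 / 2 ^ (u + 1)))),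
      p.1 % (u + 1))
  have hmaps : ∀ p ∈ (SN7121 fs N).filter (fun p => u + 4 < p.1),
      π p ∈ SN7121 fs N ×ˢ Finset.range (u + 1) := by
    intro p hp
    rw [Finset.mem_filter, mem7121] at hp
    obtain ⟨⟨⟨h2, h3⟩, h4, h5⟩, h6⟩ := hp
    have h7 := fsr7121 h (p.1 - u - 1) (by omega) (p.2 / 2 ^ (u + 1))
    have h8 := coh7121 h (p.1 - u - 1) (by omega) (p.2 / 2 ^ (u + 1)) _ le_rfl h7.2
    rw [Finset.mem_product, mem7121, Finset.mem_range]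
    refine ⟨⟨⟨h7.1, ?_⟩, ?_, h8.1⟩, Nat.mod_lt _ (by omega)⟩
    · show fs (p.1 - u - 1) (p.2 / 2 ^ (u + 1)) ≤ N
      omega
    · refine dlt7121 _ _ _ h7.2 ?_
      have := dlt7121 p.2 p.1 (p.1 - u - 1) (by omega) h4
      rwa [show p.1 - (p.1 - u - 1) = u + 1 by omega] at this
  rw [← Finset.sum_fiberwise_of_maps_to hmaps]
  have hfib : ∀ Gr ∈ SN7121 fs N ×ˢ Finset.range (u + 1),
      ∑ p ∈ ((SN7121 fs N).filter (fun p => u + 4 < p.1)).filter (fun p => π p = Gr),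
        al (p.1 - u - 1) (p.2 / 2 ^ (u + 1)) ^ 2 *
        (Wo p.1 p.2 * PGa S (fs (p.1 - u - 1) (p.2 / 2 ^ (u + 1))) p.1 p.2 ^ 2) ≤
      CP * (al Gr.1.1 Gr.1.2 ^ 2 * S Gr.1.1 Gr.1.2) := by
    rintro ⟨G, r⟩ hGr
    rw [Finset.mem_product, mem7121] at hGr
    obtain ⟨⟨⟨h2, h3⟩, h4, h5⟩, _⟩ := hGr
    have h6 : ∀ p ∈ ((SN7121 fs N).filter (fun p => u + 4 < p.1)).filter (fun p => π p = (G, r)),
        u + 4 < p.1 ∧ fs p.1 p.2 = p.1 ∧ fs (p.1 - u - 1) (p.2 / 2 ^ (u + 1)) = G.1 ∧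
        p.2 / 2 ^ (u + 1) / 2 ^ (p.1 - u - 1 - G.1) = G.2 ∧ p.1 % (u + 1) = r ∧
        G.1 ≤ p.1 - u - 1 := by
      intro p hp
      rw [Finset.mem_filter, Finset.mem_filter, mem7121] at hp
      obtain ⟨⟨⟨⟨a1, a2⟩, a3, a4⟩, a5⟩, a6⟩ := hp
      have b1 : fs (p.1 - u - 1) (p.2 / 2 ^ (u + 1)) = G.1 :=
        congrArg (fun x : (ℕ × ℕ) × ℕ => x.1.1) a6
      have b2 : p.2 / 2 ^ (u + 1) / 2 ^ (p.1 - u - 1 - fs (p.1 - u - 1) (p.2 / 2 ^ (u + 1))) =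
        G.2 := congrArg (fun x : (ℕ × ℕ) × ℕ => x.1.2) a6
      have b4 : p.1 % (u + 1) = r := congrArg (fun x : (ℕ × ℕ) × ℕ => x.2) a6
      rw [b1] at b2
      have b3 := (fsr7121 h (p.1 - u - 1) (by omega) (p.2 / 2 ^ (u + 1))).2
      exact ⟨a5, a4, b1, b2, b4, by omega⟩
    have hpv := hP G.1 G.2 h2 h4
      (((SN7121 fs N).filter (fun p => u + 4 < p.1)).filter (fun p => π p = (G, r))) (by
        intro p hp
        obtain ⟨a1, a2, a3, a4, a5, a6⟩ := h6 p hp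
        refine ⟨by omega, ?_⟩
        rw [Nat.div_div_eq_div_mul, ← pow_add,
          show u + 1 + (p.1 - u - 1 - G.1) = p.1 - G.1 by omega] at a4
        exact a4) (by
        rintro p hp q hq hne ⟨c1, c2⟩
        obtain ⟨a1, a2, a3, a4, a5, a6⟩ := h6 p hp
        obtain ⟨b1, b2, b3, b4, b5, b6⟩ := h6 q hq
        rcases Nat.lt_or_ge p.1 q.1 with c3 | c3
        · have c4 : p.1 ≡ q.1 [MOD (u + 1)] := by
            show p.1 % (u + 1) = q.1 % (u + 1)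
            rw [a5, b5]
          have c5 : (u + 1) ∣ q.1 - p.1 := (Nat.modEq_iff_dvd' c3.le).1 c4
          have c6 : u + 1 ≤ q.1 - p.1 := Nat.le_of_dvd (by omega) c5
          have c7 : q.2 / 2 ^ (u + 1) / 2 ^ (q.1 - u - 1 - p.1) = p.2 := by
            rw [Nat.div_div_eq_div_mul, ← pow_add,
              show u + 1 + (q.1 - u - 1 - p.1) = q.1 - p.1 by omega]
            exact c2
          have c8 := dsc7121 h p.1 p.2 (q.1 - u - 1) (q.2 / 2 ^ (u + 1)) (by omega) (by omega)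
            a2 c7
          rw [b3] at c8
          omega
        · have c4 : p.1 = q.1 := le_antisymm c1 c3
          rw [c4, Nat.sub_self, pow_zero, Nat.div_one] at c2
          exact hne (Prod.ext c4 c2.symm))
    have h8 : ∑ p ∈ ((SN7121 fs N).filter (fun p => u + 4 < p.1)).filter (fun p => π p = (G, r)),
        al (p.1 - u - 1) (p.2 / 2 ^ (u + 1)) ^ 2 *
        (Wo p.1 p.2 * PGa S (fs (p.1 - u - 1) (p.2 / 2 ^ (u + 1))) p.1 p.2 ^ 2) =
        al G.1 G.2 ^ 2 *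
        ∑ p ∈ ((SN7121 fs N).filter (fun p => u + 4 < p.1)).filter (fun p => π p = (G, r)),
          Wo p.1 p.2 * PGa S G.1 p.1 p.2 ^ 2 := by
      rw [Finset.mul_sum]
      refine Finset.sum_congr rfl (fun p hp => ?_)
      obtain ⟨a1, a2, a3, a4, a5, a6⟩ := h6 p hp
      have h9 := (coh7121 h (p.1 - u - 1) (by omega) (p.2 / 2 ^ (u + 1)) G.1 a3.le a6).2
      rw [a4] at h9
      rw [h9, a3]
    rw [h8]
    have h10 := mul_le_mul_of_nonneg_left hpv (sq_nonneg (al G.1 G.2))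
    show _ ≤ CP * (al G.1 G.2 ^ 2 * S G.1 G.2)
    linarith
  refine (Finset.sum_le_sum hfib).trans (le_of_eq ?_)
  rw [Finset.sum_product]
  simp only [Finset.sum_const, Finset.card_range, nsmul_eq_mul]
  rw [← Finset.mul_sum, ← Finset.mul_sum]
  push_cast
  ring

omit [MeasurableSpace X] in
theorem Smono7121 {S F1 F2 Wo : ℕ → ℕ → ℝ} (hT : Tree S F1 F2 Wo) (t k l : ℕ) (ht : 1 ≤ t)
    (htl : t ≤ l) : S t (k / 2 ^ (l - t)) ≤ S (t - 1) (k / 2 ^ (l - t + 1)) := by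
  obtain ⟨m, rfl⟩ : ∃ m, t = m + 1 := ⟨t - 1, by omega⟩
  rw [show m + 1 - 1 = m by omega, pow_succ, ← Nat.div_div_eq_div_mul]
  set j := k / 2 ^ (l - (m + 1)) with hj
  have h1 := hT.Ssub m (j / 2)
  have h2 := hT.S0 (m + 1) (2 * (j / 2))
  have h3 := hT.S0 (m + 1) (2 * (j / 2) + 1)
  rcases Nat.mod_two_eq_zero_or_one j with h4 | h4
  · have h5 : 2 * (j / 2) = j := by omega
    rw [h5] at h1 h2 h3
    linarith
  · have h5 : 2 * (j / 2) + 1 = j := by omega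
    rw [h5] at h1 h3
    linarith

omit [MeasurableSpace X] in
theorem last7121 {CP : ℝ} {S F1 F2 Wo : ℕ → ℕ → ℝ} {fs : ℕ → ℕ → ℕ} {al : ℕ → ℕ → ℝ}
    (hCP : 0 ≤ CP) (hT : Tree S F1 F2 Wo) (hP : Piv S Wo CP)
    (h : Rc7121 (4 * CP + 1) S F1 Wo fs al) (N : ℕ) :
    ∑ p ∈ SN7121 fs N,
        Wo p.1 p.2 * (∑ t ∈ Finset.Ioc 4 p.1, (1 / 2 : ℝ) ^ ((p.1 - t) / 4) *
          al (t - 1) (p.2 / 2 ^ (p.1 - t + 1)) * 4 ^ t *
          (S (t - 1) (p.2 / 2 ^ (p.1 - t + 1)) - S t (p.2 / 2 ^ (p.1 - t)))) ^ 2 ≤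
      8 * (52 * (CP * (16 * F2 0 0))) := by
  classical
  -- the bound of one stop node
  have hone : ∀ p ∈ SN7121 fs N,
      Wo p.1 p.2 * (∑ t ∈ Finset.Ioc 4 p.1, (1 / 2 : ℝ) ^ ((p.1 - t) / 4) *
          al (t - 1) (p.2 / 2 ^ (p.1 - t + 1)) * 4 ^ t *
          (S (t - 1) (p.2 / 2 ^ (p.1 - t + 1)) - S t (p.2 / 2 ^ (p.1 - t)))) ^ 2 ≤
      8 * ∑ u ∈ (Finset.range N).filter (fun u => u + 4 < p.1), (1 / 2 : ℝ) ^ (u / 4) *
        (al (p.1 - u - 1) (p.2 / 2 ^ (u + 1)) ^ 2 *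
        (Wo p.1 p.2 * PGa S (fs (p.1 - u - 1) (p.2 / 2 ^ (u + 1))) p.1 p.2 ^ 2)) := by
    intro p hp
    rw [mem7121] at hp
    obtain ⟨⟨h2, h3⟩, h4, h5⟩ := hp
    have hcs : (∑ t ∈ Finset.Ioc 4 p.1, (1 / 2 : ℝ) ^ ((p.1 - t) / 4) *
          al (t - 1) (p.2 / 2 ^ (p.1 - t + 1)) * 4 ^ t *
          (S (t - 1) (p.2 / 2 ^ (p.1 - t + 1)) - S t (p.2 / 2 ^ (p.1 - t)))) ^ 2 ≤
        (∑ t ∈ Finset.Ioc 4 p.1, (1 / 2 : ℝ) ^ ((p.1 - t) / 4)) *
        ∑ t ∈ Finset.Ioc 4 p.1, (1 / 2 : ℝ) ^ ((p.1 - t) / 4) *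
          (al (t - 1) (p.2 / 2 ^ (p.1 - t + 1)) * 4 ^ t *
          (S (t - 1) (p.2 / 2 ^ (p.1 - t + 1)) - S t (p.2 / 2 ^ (p.1 - t)))) ^ 2 := by
      refine Finset.sum_sq_le_sum_mul_sum_of_sq_le_mul _ (fun t _ => by positivity)
        (fun t _ => by positivity) (fun t _ => le_of_eq (by ring))
    have hw : ∑ t ∈ Finset.Ioc 4 p.1, (1 / 2 : ℝ) ^ ((p.1 - t) / 4) ≤ 8 := by
      have h6 := rei7121 p.1 N h3 (fun u => (1 / 2 : ℝ) ^ (u / 4))
      rw [h6]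
      refine le_trans ?_ (w18121 N)
      exact Finset.sum_le_sum_of_subset_of_nonneg (Finset.filter_subset _ _)
        (fun u _ _ => by positivity)
    have hnn : 0 ≤ ∑ t ∈ Finset.Ioc 4 p.1, (1 / 2 : ℝ) ^ ((p.1 - t) / 4) *
          (al (t - 1) (p.2 / 2 ^ (p.1 - t + 1)) * 4 ^ t *
          (S (t - 1) (p.2 / 2 ^ (p.1 - t + 1)) - S t (p.2 / 2 ^ (p.1 - t)))) ^ 2 :=
      Finset.sum_nonneg (fun t _ => by positivity)
    have h7 := rei7121 p.1 N h3 (fun u => (1 / 2 : ℝ) ^ (u / 4) *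
        (al (p.1 - u - 1) (p.2 / 2 ^ (u + 1)) ^ 2 *
        (Wo p.1 p.2 * PGa S (fs (p.1 - u - 1) (p.2 / 2 ^ (u + 1))) p.1 p.2 ^ 2)))
    rw [← h7]
    have h8 : Wo p.1 p.2 * (∑ t ∈ Finset.Ioc 4 p.1, (1 / 2 : ℝ) ^ ((p.1 - t) / 4) *
          al (t - 1) (p.2 / 2 ^ (p.1 - t + 1)) * 4 ^ t *
          (S (t - 1) (p.2 / 2 ^ (p.1 - t + 1)) - S t (p.2 / 2 ^ (p.1 - t)))) ^ 2 ≤
        8 * (Wo p.1 p.2 * ∑ t ∈ Finset.Ioc 4 p.1, (1 / 2 : ℝ) ^ ((p.1 - t) / 4) *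
          (al (t - 1) (p.2 / 2 ^ (p.1 - t + 1)) * 4 ^ t *
          (S (t - 1) (p.2 / 2 ^ (p.1 - t + 1)) - S t (p.2 / 2 ^ (p.1 - t)))) ^ 2) := by
      have h9 := hcs.trans (mul_le_mul_of_nonneg_right hw hnn)
      have h10 := mul_le_mul_of_nonneg_left h9 (hT.Wo0 p.1 p.2)
      linarith
    refine h8.trans (mul_le_mul_of_nonneg_left ?_ (by norm_num))
    rw [Finset.mul_sum]
    refine Finset.sum_le_sum (fun t ht => ?_)
    rw [Finset.mem_Ioc] at ht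
    have e1 : p.1 - (p.1 - t) - 1 = t - 1 := by omega
    rw [e1]
    set g := fs (t - 1) (p.2 / 2 ^ (p.1 - t + 1)) with hgdef
    have hg1 := fsr7121 h (t - 1) (by omega) (p.2 / 2 ^ (p.1 - t + 1))
    rw [← hgdef] at hg1
    have hterm : 4 ^ t * (S (t - 1) (p.2 / 2 ^ (p.1 - t + 1)) - S t (p.2 / 2 ^ (p.1 - t))) ≤
        PGa S g p.1 p.2 := by
      unfold PGa
      refine Finset.single_le_sum (f := fun t => (4 : ℝ) ^ t *
        (S (t - 1) (p.2 / 2 ^ (p.1 - t + 1)) - S t (p.2 / 2 ^ (p.1 - t)))) (fun t' ht' => ?_) ?_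
      · rw [Finset.mem_Ioc] at ht'
        have := Smono7121 hT t' p.2 p.1 (by omega) ht'.2
        have h11 : (0 : ℝ) ≤ 4 ^ t' := by positivity
        exact mul_nonneg h11 (by linarith)
      · rw [Finset.mem_Ioc]
        omega
    have hterm0 : 0 ≤ 4 ^ t * (S (t - 1) (p.2 / 2 ^ (p.1 - t + 1)) - S t (p.2 / 2 ^ (p.1 - t))) := by
      have := Smono7121 hT t p.2 p.1 (by omega) ht.2
      have h11 : (0 : ℝ) ≤ 4 ^ t := by positivity
      exact mul_nonneg h11 (by linarith)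
    have hsq := pow_le_pow_left₀ hterm0 hterm 2
    have hc : 0 ≤ Wo p.1 p.2 * ((1 / 2 : ℝ) ^ ((p.1 - t) / 4) *
        al (t - 1) (p.2 / 2 ^ (p.1 - t + 1)) ^ 2) :=
      mul_nonneg (hT.Wo0 _ _) (by positivity)
    have h12 := mul_le_mul_of_nonneg_left hsq hc
    calc Wo p.1 p.2 * ((1 / 2 : ℝ) ^ ((p.1 - t) / 4) *
          (al (t - 1) (p.2 / 2 ^ (p.1 - t + 1)) * 4 ^ t *
          (S (t - 1) (p.2 / 2 ^ (p.1 - t + 1)) - S t (p.2 / 2 ^ (p.1 - t)))) ^ 2)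
        = Wo p.1 p.2 * ((1 / 2 : ℝ) ^ ((p.1 - t) / 4) *
        al (t - 1) (p.2 / 2 ^ (p.1 - t + 1)) ^ 2) *
          (4 ^ t * (S (t - 1) (p.2 / 2 ^ (p.1 - t + 1)) - S t (p.2 / 2 ^ (p.1 - t)))) ^ 2 := by
          ring
      _ ≤ _ := h12
      _ = _ := by ring
  refine (Finset.sum_le_sum hone).trans ?_
  rw [← Finset.mul_sum]
  refine mul_le_mul_of_nonneg_left ?_ (by norm_num)
  have hswap : ∑ p ∈ SN7121 fs N, ∑ u ∈ (Finset.range N).filter (fun u => u + 4 < p.1),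
      (1 / 2 : ℝ) ^ (u / 4) *
        (al (p.1 - u - 1) (p.2 / 2 ^ (u + 1)) ^ 2 *
        (Wo p.1 p.2 * PGa S (fs (p.1 - u - 1) (p.2 / 2 ^ (u + 1))) p.1 p.2 ^ 2)) =
      ∑ u ∈ Finset.range N, (1 / 2 : ℝ) ^ (u / 4) *
        ∑ p ∈ (SN7121 fs N).filter (fun p => u + 4 < p.1),
        (al (p.1 - u - 1) (p.2 / 2 ^ (u + 1)) ^ 2 *
        (Wo p.1 p.2 * PGa S (fs (p.1 - u - 1) (p.2 / 2 ^ (u + 1))) p.1 p.2 ^ 2)) := by
    simp_rw [Finset.sum_filter, Finset.mul_sum]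
    rw [Finset.sum_comm]
    refine Finset.sum_congr rfl (fun u _ => Finset.sum_congr rfl (fun p _ => ?_))
    split_ifs
    · rfl
    · rw [mul_zero]
  rw [hswap]
  have hA := AB7121 hCP hT hP h N
  have hA0 : 0 ≤ ∑ p ∈ SN7121 fs N, al p.1 p.2 ^ 2 * S p.1 p.2 :=
    Finset.sum_nonneg (fun p _ => mul_nonneg (sq_nonneg _) (hT.S0 _ _))
  calc ∑ u ∈ Finset.range N, (1 / 2 : ℝ) ^ (u / 4) *
        ∑ p ∈ (SN7121 fs N).filter (fun p => u + 4 < p.1),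
        (al (p.1 - u - 1) (p.2 / 2 ^ (u + 1)) ^ 2 *
        (Wo p.1 p.2 * PGa S (fs (p.1 - u - 1) (p.2 / 2 ^ (u + 1))) p.1 p.2 ^ 2))
      ≤ ∑ u ∈ Finset.range N, (((u : ℝ) + 1) * (1 / 2 : ℝ) ^ (u / 4)) *
        (CP * ∑ p ∈ SN7121 fs N, al p.1 p.2 ^ 2 * S p.1 p.2) := by
        refine Finset.sum_le_sum (fun u _ => ?_)
        have h1 := mul_le_mul_of_nonneg_left (fixu7121 hP h N u)
          (show (0 : ℝ) ≤ (1 / 2 : ℝ) ^ (u / 4) by positivity)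
        linarith
    _ = (∑ u ∈ Finset.range N, ((u : ℝ) + 1) * (1 / 2 : ℝ) ^ (u / 4)) *
        (CP * ∑ p ∈ SN7121 fs N, al p.1 p.2 ^ 2 * S p.1 p.2) := by rw [Finset.sum_mul]
    _ ≤ 52 * (CP * ∑ p ∈ SN7121 fs N, al p.1 p.2 ^ 2 * S p.1 p.2) :=
        mul_le_mul_of_nonneg_right (w28121 N) (mul_nonneg hCP hA0)
    _ ≤ 52 * (CP * (16 * F2 0 0)) := by
        have := mul_le_mul_of_nonneg_left hA hCP
        linarith

theorem stopping (CP : ℝ) (hCP : 0 ≤ CP) : ∃ C : ℝ, 0 ≤ C ∧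
    ∀ (N : ℕ) (S F1 F2 Wo : ℕ → ℕ → ℝ), Tree S F1 F2 Wo → Piv S Wo CP →
    ∃ (fs : ℕ → ℕ → ℕ) (al : ℕ → ℕ → ℝ),
      (∀ l k, 4 ≤ l → 4 ≤ fs l k ∧ fs l k ≤ l) ∧
      (∀ l k, 4 ≤ l → 0 ≤ al l k ∧ F1 l k / S l k ≤ 2 * al l k) ∧
      (∀ l k t, 4 ≤ l → fs l k ≤ t → t ≤ l →
        fs t (k / 2 ^ (l - t)) = fs l k ∧ al t (k / 2 ^ (l - t)) = al l k) ∧
      (∀ l k t, 4 ≤ t → t ≤ l → al t (k / 2 ^ (l - t)) ≤ al l k) ∧
      (∀ l k, 4 ≤ l → k < 2 ^ l → fs l k < l →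
        Wo l k * PGa S (fs l k) l k ^ 2 ≤ C * S l k) ∧
      (∑ l ∈ Finset.Icc 4 N, ∑ k ∈ (Finset.range (2 ^ l)).filter (fun k => fs l k = l),
        al l k ^ 2 * S l k ≤ C * F2 0 0) ∧
      (∑ l ∈ Finset.Icc 4 N, ∑ k ∈ (Finset.range (2 ^ l)).filter (fun k => fs l k = l),
        Wo l k * (∑ t ∈ Finset.Ioc 4 l, (1 / 2 : ℝ) ^ ((l - t) / 4) *
          al (t - 1) (k / 2 ^ (l - t + 1)) * 4 ^ t *
          (S (t - 1) (k / 2 ^ (l - t + 1)) - S t (k / 2 ^ (l - t)))) ^ 2 ≤ C * F2 0 0) := by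
  refine ⟨(4 * CP + 1) + 16 + 8 * (52 * (CP * 16)), by positivity, ?_⟩
  intro N S F1 F2 Wo hT hP
  obtain ⟨fs, al, h⟩ := exRc7121 (4 * CP + 1) S F1 Wo
  have hF := hT.F20 0 0
  refine ⟨fs, al, fun l k hl => fsr7121 h l hl k, fun l k hl => ⟨(alp7121 hT h l hl k).1,
    (alp7121 hT h l hl k).2.1⟩, fun l k t hl h1 h2 => coh7121 h l hl k t h1 h2,
    fun l k t h1 h2 => mon7121 h l (h1.trans h2) k t h1 h2, ?_, ?_, ?_⟩
  · intro l k hl _ hf
    refine (ns7121 h l k hl hf).trans (mul_le_mul_of_nonneg_right ?_ (hT.S0 l k))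
    have : 0 ≤ 8 * (52 * (CP * 16)) := by positivity
    linarith
  · rw [conv7121 fs N (fun l k => al l k ^ 2 * S l k)]
    refine (AB7121 hCP hT hP h N).trans (mul_le_mul_of_nonneg_right ?_ hF)
    have : 0 ≤ 8 * (52 * (CP * 16)) := by positivity
    linarith
  · rw [conv7121 fs N (fun l k => Wo l k * (∑ t ∈ Finset.Ioc 4 l, (1 / 2 : ℝ) ^ ((l - t) / 4) *
          al (t - 1) (k / 2 ^ (l - t + 1)) * 4 ^ t *
          (S (t - 1) (k / 2 ^ (l - t + 1)) - S t (k / 2 ^ (l - t)))) ^ 2)]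
    refine (last7121 hCP hT hP h N).trans ?_
    have h1 : 8 * (52 * (CP * (16 * F2 0 0))) = (8 * (52 * (CP * 16))) * F2 0 0 := by ring
    rw [h1]
    exact mul_le_mul_of_nonneg_right (by linarith) hF

end

end Pool.Agent.Helper807.BT
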