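import Pool.Agent.Helper807.BT.Base
import Pool.Agent.Helper807.BT.Stopping

set_option autoImplicit false

open MeasureTheory Set
open scoped ENNReal

namespace Pool.Agent.Helper807.BT

noncomputable section

variable {X : Type*} [MeasurableSpace X]


/-! helper lemmas -/

theorem mt_group {ι κ E : Type*} [DecidableEq κ] [SeminormedAddCommGroup E]
    (P : Finset ι) (G : Finset κ) (γ : ι → κ) (hγ : ∀ p ∈ P, γ p ∈ G)
    (z : ι → E) (D : ι → ℝ) (a : κ → ℝ)
    (h : ∀ g ∈ G, ‖∑ p ∈ P.filter (fun p => γ p = g), z p‖ ≤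
      a g * Real.sqrt (∑ p ∈ P.filter (fun p => γ p = g), D p ^ 2)) :
    ‖∑ p ∈ P, z p‖ ≤ Real.sqrt (∑ g ∈ G, a g ^ 2) * Real.sqrt (∑ p ∈ P, D p ^ 2) := by
  rw [← Finset.sum_fiberwise_of_maps_to hγ z,
    ← Finset.sum_fiberwise_of_maps_to hγ (fun p => D p ^ 2)]
  refine (norm_sum_le _ _).trans ((Finset.sum_le_sum h).trans ?_)
  refine (Real.sum_mul_le_sqrt_mul_sqrt G a _).trans (le_of_eq ?_)
  congr 2
  refine Finset.sum_congr rfl fun g _ => ?_
  rw [Real.sq_sqrt]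
  exact Finset.sum_nonneg fun _ _ => sq_nonneg _

/-- pairs -/
def prs (s : Finset ℕ) (t : ℕ → Finset ℕ) : Finset (ℕ × ℕ) :=
  (s.sigma t).map ⟨fun x => (x.1, x.2), by
    rintro ⟨a, b⟩ ⟨c, d⟩ h
    simp only [Prod.mk.injEq] at h
    obtain ⟨rfl, rfl⟩ := h
    rfl⟩

theorem mem_prs (s : Finset ℕ) (t : ℕ → Finset ℕ) (p : ℕ × ℕ) :
    p ∈ prs s t ↔ p.1 ∈ s ∧ p.2 ∈ t p.1 := by
  unfold prs
  simp only [Finset.mem_map, Finset.mem_sigma, Function.Embedding.coeFn_mk]
  constructor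
  · rintro ⟨x, hx, rfl⟩
    exact hx
  · intro h
    exact ⟨⟨p.1, p.2⟩, h, rfl⟩

theorem sum_prs {E : Type*} [AddCommMonoid E] (s : Finset ℕ) (t : ℕ → Finset ℕ)
    (f : ℕ × ℕ → E) : ∑ p ∈ prs s t, f p = ∑ n ∈ s, ∑ j ∈ t n, f (n, j) :=
  Finset.sum_finset_product _ _ _ (mem_prs s t)

theorem mt_tst (C0 : ℝ) (h0 : 0 ≤ C0) (S D : ℕ → ℕ → ℝ) (hS : ∀ l k, 0 ≤ S l k)
    (β : ℕ → ℕ → ℕ → ℂ)
    (h6 : ∀ l k, k < 2 ^ l → ∀ (I : Finset (ℕ × ℕ)), (∀ p ∈ I, p.2 < 2 ^ p.1) → ∀ (c : ℕ × ℕ → ℝ),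
      (∀ p ∈ I, l ≤ p.1 ∧ p.2 / 2 ^ (p.1 - l) = k) →
      ‖∑ p ∈ I, (c p : ℂ) * β p.1 p.2 l‖ ≤
        Real.sqrt (C0 * S l k) * Real.sqrt (∑ p ∈ I, c p ^ 2 * D p.1 p.2 ^ 2))
    (Q : Finset (ℕ × ℕ)) (lev : ℕ × ℕ → ℕ) (G : Finset (ℕ × ℕ))
    (hQ : ∀ p ∈ Q, p.2 < 2 ^ p.1 ∧ lev p ≤ p.1 ∧ (lev p, p.2 / 2 ^ (p.1 - lev p)) ∈ G)
    (hG : ∀ g ∈ G, g.2 < 2 ^ g.1) (c b : ℕ × ℕ → ℝ) (hb : ∀ g ∈ G, 0 ≤ b g)
    (hc : ∀ p ∈ Q, |c p| ≤ b (lev p, p.2 / 2 ^ (p.1 - lev p)))
    (A : ℝ) (hA : ∑ g ∈ G, b g ^ 2 * S g.1 g.2 ≤ A) :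
    ‖∑ p ∈ Q, (c p : ℂ) * β p.1 p.2 (lev p)‖ ≤
      Real.sqrt (C0 * A) * Real.sqrt (∑ p ∈ Q, D p.1 p.2 ^ 2) := by
  refine (mt_group Q G (fun p => (lev p, p.2 / 2 ^ (p.1 - lev p))) (fun p hp => (hQ p hp).2.2)
    (fun p => (c p : ℂ) * β p.1 p.2 (lev p)) (fun p => D p.1 p.2)
    (fun g => Real.sqrt (C0 * S g.1 g.2) * b g) ?_).trans ?_
  · intro g hg
    have e : ∑ p ∈ Q.filter (fun p => (lev p, p.2 / 2 ^ (p.1 - lev p)) = g),
        (c p : ℂ) * β p.1 p.2 (lev p) =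
        ∑ p ∈ Q.filter (fun p => (lev p, p.2 / 2 ^ (p.1 - lev p)) = g),
        (c p : ℂ) * β p.1 p.2 g.1 := by
      refine Finset.sum_congr rfl fun p hp => ?_
      rw [Finset.mem_filter] at hp
      rw [← hp.2]
    rw [e]
    refine (h6 g.1 g.2 (hG g hg) _ (fun p hp => (hQ p (Finset.mem_filter.1 hp).1).1) c ?_).trans ?_
    · intro p hp
      rw [Finset.mem_filter] at hp
      have h1 := (hQ p hp.1).2.1
      rw [← hp.2]
      exact ⟨h1, rfl⟩
    · rw [mul_assoc]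
      refine mul_le_mul_of_nonneg_left ?_ (Real.sqrt_nonneg _)
      rw [← Real.sqrt_sq (hb g hg), ← Real.sqrt_mul (sq_nonneg _), Finset.mul_sum]
      refine Real.sqrt_le_sqrt (Finset.sum_le_sum fun p hp => ?_)
      rw [Finset.mem_filter] at hp
      have h1 := hc p hp.1
      rw [hp.2] at h1
      refine mul_le_mul_of_nonneg_right ?_ (sq_nonneg _)
      rw [← sq_abs (c p)]
      exact pow_le_pow_left₀ (abs_nonneg _) h1 2
  · refine mul_le_mul_of_nonneg_right (Real.sqrt_le_sqrt ?_) (Real.sqrt_nonneg _)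
    calc ∑ g ∈ G, (Real.sqrt (C0 * S g.1 g.2) * b g) ^ 2
        = C0 * ∑ g ∈ G, b g ^ 2 * S g.1 g.2 := by
          rw [Finset.mul_sum]
          refine Finset.sum_congr rfl fun g _ => ?_
          rw [mul_pow, Real.sq_sqrt (mul_nonneg h0 (hS _ _))]
          ring
      _ ≤ C0 * A := mul_le_mul_of_nonneg_left hA h0

theorem mt_lvl (r : ℕ) (W D Wo : ℕ → ℕ → ℝ) (gd : ℕ → ℕ → Prop) [∀ n, DecidablePred (gd n)]
    (hD : ∀ n j, 0 ≤ D n j) (hW : ∀ n j, 0 ≤ W n j) (hWo : ∀ l k, 0 ≤ Wo l k)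
    (h5 : ∀ l k i, r ≤ i → k < 2 ^ l →
      ∑ j ∈ (Finset.range (2 ^ (l + i))).filter (fun j => j / 2 ^ i = k ∧ gd (l + i) j),
        W (l + i) j ≤ Wo l k)
    (i : ℕ) (hi : r ≤ i) (Q : Finset (ℕ × ℕ))
    (hQ : ∀ p ∈ Q, i ≤ p.1 ∧ p.2 < 2 ^ p.1 ∧ gd p.1 p.2)
    (G : Finset (ℕ × ℕ)) (hQG : ∀ p ∈ Q, (p.1 - i, p.2 / 2 ^ i) ∈ G)
    (hG : ∀ g ∈ G, g.2 < 2 ^ g.1)
    (y : ℕ × ℕ → ℝ) (hy : ∀ g, 0 ≤ y g) (A : ℝ)
    (hA : ∑ g ∈ G, Wo g.1 g.2 * y g ^ 2 ≤ A) :
    ∑ p ∈ Q, y (p.1 - i, p.2 / 2 ^ i) * (Real.sqrt (W p.1 p.2) * D p.1 p.2) ≤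
      Real.sqrt A * Real.sqrt (∑ p ∈ Q, D p.1 p.2 ^ 2) := by
  refine (le_abs_self _).trans ?_
  rw [← Real.norm_eq_abs]
  refine (mt_group Q G (fun p => (p.1 - i, p.2 / 2 ^ i)) hQG
    (fun p => y (p.1 - i, p.2 / 2 ^ i) * (Real.sqrt (W p.1 p.2) * D p.1 p.2))
    (fun p => D p.1 p.2)
    (fun g => Real.sqrt (Wo g.1 g.2) * y g) ?_).trans ?_
  · intro g hg
    have e : ∑ p ∈ Q.filter (fun p => (p.1 - i, p.2 / 2 ^ i) = g),
        y (p.1 - i, p.2 / 2 ^ i) * (Real.sqrt (W p.1 p.2) * D p.1 p.2) =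
        y g * ∑ p ∈ Q.filter (fun p => (p.1 - i, p.2 / 2 ^ i) = g),
        Real.sqrt (W p.1 p.2) * D p.1 p.2 := by
      rw [Finset.mul_sum]
      refine Finset.sum_congr rfl fun p hp => ?_
      rw [Finset.mem_filter] at hp
      rw [hp.2]
    rw [e, Real.norm_of_nonneg (mul_nonneg (hy g) (Finset.sum_nonneg fun p _ =>
      mul_nonneg (Real.sqrt_nonneg _) (hD _ _)))]
    rw [mul_comm (Real.sqrt (Wo g.1 g.2)) (y g), mul_assoc]
    refine mul_le_mul_of_nonneg_left ?_ (hy g)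
    refine (Real.sum_mul_le_sqrt_mul_sqrt _ _ _).trans ?_
    refine mul_le_mul_of_nonneg_right (Real.sqrt_le_sqrt ?_) (Real.sqrt_nonneg _)
    have e2 : ∑ p ∈ Q.filter (fun p => (p.1 - i, p.2 / 2 ^ i) = g), Real.sqrt (W p.1 p.2) ^ 2 =
        ∑ j ∈ (Q.filter (fun p => (p.1 - i, p.2 / 2 ^ i) = g)).image Prod.snd,
          W (g.1 + i) j := by
      rw [Finset.sum_image]
      · refine Finset.sum_congr rfl fun p hp => ?_
        rw [Finset.mem_filter] at hp
        rw [Real.sq_sqrt (hW _ _)]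
        have h1 : g.1 = p.1 - i := by rw [← hp.2]
        have h2 := (hQ p hp.1).1
        rw [h1, Nat.sub_add_cancel h2]
      · intro p hp q hq hpq
        rw [Finset.mem_coe, Finset.mem_filter] at hp hq
        have h1 : g.1 = p.1 - i := by rw [← hp.2]
        have h2 := (hQ p hp.1).1
        have h3 : g.1 = q.1 - i := by rw [← hq.2]
        have h4 := (hQ q hq.1).1
        refine Prod.ext ?_ hpq
        omega
    rw [e2]
    refine (Finset.sum_le_sum_of_subset_of_nonneg ?_ (fun _ _ _ => hW _ _)).trans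
      (h5 g.1 g.2 i hi (hG g hg))
    intro j hj
    rw [Finset.mem_image] at hj
    obtain ⟨p, hp, rfl⟩ := hj
    rw [Finset.mem_filter] at hp
    have h1 : g.1 = p.1 - i := by rw [← hp.2]
    have h1' : g.2 = p.2 / 2 ^ i := by rw [← hp.2]
    obtain ⟨h2, h3, h4⟩ := hQ p hp.1
    have h5' : g.1 + i = p.1 := by omega
    rw [Finset.mem_filter, Finset.mem_range, h5', h1']
    exact ⟨h3, rfl, h4⟩
  · refine mul_le_mul_of_nonneg_right (Real.sqrt_le_sqrt ?_) (Real.sqrt_nonneg _)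
    refine le_trans (le_of_eq ?_) hA
    refine Finset.sum_congr rfl fun g _ => ?_
    rw [mul_pow, Real.sq_sqrt (hWo _ _)]

theorem mt_alg1 (v β : ℕ → ℂ) (g : ℕ) (hg : 4 ≤ g) :
    ∑ l ∈ Finset.Ioc 4 g, (v l - v (l - 1)) * β l =
      (v g - v 4) * β g + ∑ t ∈ Finset.Ioc 4 g, (β (t - 1) - β t) * (v (t - 1) - v 4) := by
  induction g, hg using Nat.le_induction with
  | base => simp
  | succ g hg ih =>
    rw [Finset.sum_Ioc_succ_top hg, Finset.sum_Ioc_succ_top hg, ih]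
    simp only [Nat.add_sub_cancel]
    ring

theorem mt_tele (β : ℕ → ℂ) (g m : ℕ) (hg : g ≤ m) :
    ∑ t ∈ Finset.Ioc g m, (β (t - 1) - β t) = β g - β m := by
  induction m, hg using Nat.le_induction with
  | base => simp
  | succ m hm ih =>
    rw [Finset.sum_Ioc_succ_top hm, ih]
    simp only [Nat.add_sub_cancel]
    ring

theorem mt_alg (v β : ℕ → ℂ) (g m : ℕ) (hg : 4 ≤ g) (hm : g ≤ m) :
    ∑ l ∈ Finset.Ioc 4 m, (v l - v (l - 1)) * β l =
      (v m - v 4) * β g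
      - ∑ l ∈ Finset.Ioc g m, (v l - v (l - 1)) * ∑ t ∈ Finset.Ioc g l, (β (t - 1) - β t)
      + ∑ t ∈ Finset.Ioc 4 g, (β (t - 1) - β t) * (v (t - 1) - v 4) := by
  induction m, hm using Nat.le_induction with
  | base => rw [mt_alg1 v β g hg]; simp
  | succ m hm ih =>
    rw [Finset.sum_Ioc_succ_top (hg.trans hm), Finset.sum_Ioc_succ_top hm, ih,
      mt_tele β g (m + 1) (by omega)]
    simp only [Nat.add_sub_cancel]
    ring

theorem mt_geom (N : ℕ) : ∑ i ∈ Finset.range N, (1 / 2 : ℝ) ^ (i / 4) ≤ 8 := by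
  have h : ∀ M : ℕ, ∑ i ∈ Finset.range (4 * M), (1 / 2 : ℝ) ^ (i / 4) ≤ 8 - 8 * (1 / 2) ^ M := by
    intro M
    induction M with
    | zero => simp
    | succ M ih =>
      rw [show 4 * (M + 1) = 4 * M + 1 + 1 + 1 + 1 by ring, Finset.sum_range_succ,
        Finset.sum_range_succ, Finset.sum_range_succ, Finset.sum_range_succ]
      rw [show 4 * M / 4 = M by omega, show (4 * M + 1) / 4 = M by omega,
        show (4 * M + 1 + 1) / 4 = M by omega, show (4 * M + 1 + 1 + 1) / 4 = M by omega, pow_succ]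
      linarith
  calc ∑ i ∈ Finset.range N, (1 / 2 : ℝ) ^ (i / 4)
      ≤ ∑ i ∈ Finset.range (4 * N), (1 / 2 : ℝ) ^ (i / 4) := by
        refine Finset.sum_le_sum_of_subset_of_nonneg ?_ (fun _ _ _ => by positivity)
        intro x hx
        rw [Finset.mem_range] at hx ⊢
        omega
    _ ≤ 8 - 8 * (1 / 2) ^ N := h N
    _ ≤ 8 := by
        have : (0:ℝ) ≤ 8 * (1 / 2) ^ N := by positivity
        linarith

theorem mt_J (n j l t : ℕ) (h1 : t ≤ l) (h2 : l ≤ n) :
    j / 2 ^ (n - l) / 2 ^ (l - t) = j / 2 ^ (n - t) := by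
  rw [Nat.div_div_eq_div_mul, ← pow_add]
  congr 2
  omega

theorem mt_J1 (n j l t : ℕ) (h1 : t ≤ l) (h2 : l ≤ n) :
    j / 2 ^ (n - l) / 2 ^ (l - t + 1) = j / 2 ^ (n - t + 1) := by
  rw [Nat.div_div_eq_div_mul, ← pow_add]
  congr 2
  omega

theorem mt_Jlt (n j l : ℕ) (h1 : j < 2 ^ n) (h2 : l ≤ n) : j / 2 ^ (n - l) < 2 ^ l := by
  refine Nat.div_lt_of_lt_mul ?_
  rw [← pow_add]
  have : n - l + l = n := by omega
  rw [this]
  exact h1

theorem mt_swap {E : Type*} [AddCommMonoid E] (N r : ℕ) (P : Finset (ℕ × ℕ))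
    (hP : ∀ p ∈ P, p.1 < N ∧ r ≤ p.1) (g : ℕ × ℕ → ℕ) (h : ℕ × ℕ → ℕ → E) :
    ∑ p ∈ P, ∑ l ∈ Finset.Ioc (g p) (p.1 - r), h p l =
      ∑ i ∈ Finset.range N, ∑ p ∈ P.filter (fun p => r ≤ i ∧ g p + i < p.1), h p (p.1 - i) := by
  have e : ∀ p ∈ P, ∑ l ∈ Finset.Ioc (g p) (p.1 - r), h p l =
      ∑ i ∈ (Finset.range N).filter (fun i => r ≤ i ∧ g p + i < p.1), h p (p.1 - i) := by
    intro p hp
    obtain ⟨h1, h2⟩ := hP p hp
    refine Finset.sum_nbij' (fun l => p.1 - l) (fun i => p.1 - i) ?_ ?_ ?_ ?_ ?_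
    · intro l hl
      rw [Finset.mem_Ioc] at hl
      rw [Finset.mem_filter, Finset.mem_range]
      omega
    · intro i hi
      rw [Finset.mem_filter, Finset.mem_range] at hi
      rw [Finset.mem_Ioc]
      omega
    · intro l hl
      rw [Finset.mem_Ioc] at hl
      omega
    · intro i hi
      rw [Finset.mem_filter, Finset.mem_range] at hi
      omega
    · intro l hl
      rw [Finset.mem_Ioc] at hl
      congr 1
      omega
  rw [Finset.sum_congr rfl e]
  refine Finset.sum_comm' ?_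
  intro p i
  simp only [Finset.mem_filter, Finset.mem_range]
  tauto

theorem main_term (r : ℕ) (C0 C1 CP : ℝ) (h0 : 0 ≤ C0) (h1 : 0 ≤ C1) (hCP : 0 ≤ CP) :
    ∃ C : ℝ, 0 ≤ C ∧
    ∀ (N : ℕ) (S F1 F2 Wo : ℕ → ℕ → ℝ), Tree S F1 F2 Wo → Piv S Wo CP →
    ∀ (av D W : ℕ → ℕ → ℝ) (β : ℕ → ℕ → ℕ → ℂ) (ε : ℕ → ℝ) (gd : ℕ → ℕ → Prop)
      [∀ n, DecidablePred (gd n)],
    (∀ n, |ε n| ≤ 2) →
    (∀ l k, |av l k| ≤ F1 l k / S l k) →
    (∑ l ∈ Finset.range N, ∑ k ∈ Finset.range (2 ^ (l + 1)),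
      (av (l + 1) k - av l (k / 2)) ^ 2 * S (l + 1) k ≤ F2 0 0) →
    (∀ n j, 0 ≤ D n j) → (∀ n j, 0 ≤ W n j) →
    (∀ l k i, r ≤ i → k < 2 ^ l →
      ∑ j ∈ (Finset.range (2 ^ (l + i))).filter (fun j => j / 2 ^ i = k ∧ gd (l + i) j),
        W (l + i) j ≤ Wo l k) →
    (∀ l k, k < 2 ^ l → ∀ (I : Finset (ℕ × ℕ)), (∀ p ∈ I, p.2 < 2 ^ p.1) → ∀ (c : ℕ × ℕ → ℝ),
      (∀ p ∈ I, l ≤ p.1 ∧ p.2 / 2 ^ (p.1 - l) = k) →
      ‖∑ p ∈ I, (c p : ℂ) * β p.1 p.2 l‖ ≤
        Real.sqrt (C0 * S l k) * Real.sqrt (∑ p ∈ I, c p ^ 2 * D p.1 p.2 ^ 2)) →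
    (∀ n j t, n < N → j < 2 ^ n → gd n j → 1 ≤ t → t + r ≤ n →
      ‖β n j (t - 1) - β n j t‖ ≤ C1 * (1 / 2 : ℝ) ^ ((n - t) / 4) * 4 ^ t *
        (S (t - 1) (j / 2 ^ (n - t + 1)) - S t (j / 2 ^ (n - t))) *
        Real.sqrt (W n j) * D n j) →
    ‖∑ n ∈ Finset.range N, (ε n : ℂ) * ∑ j ∈ (Finset.range (2 ^ n)).filter (fun j => gd n j),
        ∑ l ∈ Finset.Icc 1 (n - r),
          ((av l (j / 2 ^ (n - l)) - av (l - 1) (j / 2 ^ (n - l + 1)) : ℝ) : ℂ) * β n j l‖ ≤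
      C * Real.sqrt (F2 0 0) *
        Real.sqrt (∑ n ∈ Finset.range N, ∑ j ∈ Finset.range (2 ^ n), D n j ^ 2) := by
  obtain ⟨Cs, hCs, hst⟩ := stopping CP hCP
  refine ⟨8 * Real.sqrt C0 + 8 * Real.sqrt (C0 * Cs) + 80 * C1 * Real.sqrt Cs, by positivity, ?_⟩
  intro N S F1 F2 Wo hT hPiv av D W β ε gd _ hε hav hsq hD hW h5 h6 h7
  obtain ⟨fs, al, p1, p2, p3, p4, p5, p6, p7⟩ := hst N S F1 F2 Wo hT hPiv
  have hF : 0 ≤ F2 0 0 := hT.F20 0 0
  have hSm : ∀ t k, 1 ≤ t → S t k ≤ S (t - 1) (k / 2) := by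
    intro t k ht
    obtain ⟨t, rfl⟩ : ∃ u, t = u + 1 := ⟨t - 1, by omega⟩
    have h := hT.Ssub t (k / 2)
    have h1 := hT.S0 (t + 1) (2 * (k / 2))
    have h2 := hT.S0 (t + 1) (2 * (k / 2) + 1)
    rw [Nat.add_sub_cancel]
    rcases Nat.even_or_odd' k with ⟨c, rfl | rfl⟩
    · rw [show 2 * c / 2 = c by omega] at h h2 ⊢
      linarith
    · rw [show (2 * c + 1) / 2 = c by omega] at h h1 ⊢
      linarith
  set P : Finset (ℕ × ℕ) := prs (Finset.range N)
    (fun n => (Finset.range (2 ^ n)).filter (fun j => gd n j)) with hPdef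
  have hP : ∀ p ∈ P, p.1 < N ∧ p.2 < 2 ^ p.1 ∧ gd p.1 p.2 := by
    intro p hp
    rw [hPdef, mem_prs, Finset.mem_range, Finset.mem_filter, Finset.mem_range] at hp
    exact hp
  set T : ℝ := ∑ n ∈ Finset.range N, ∑ j ∈ Finset.range (2 ^ n), D n j ^ 2 with hTdef
  have hTP : ∑ p ∈ P, D p.1 p.2 ^ 2 ≤ T := by
    rw [hPdef, sum_prs, hTdef]
    refine Finset.sum_le_sum fun n _ => ?_
    exact Finset.sum_le_sum_of_subset_of_nonneg (Finset.filter_subset _ _)
      (fun _ _ _ => sq_nonneg _)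
  have hTs : ∀ Q : Finset (ℕ × ℕ), Q ⊆ P → Real.sqrt (∑ p ∈ Q, D p.1 p.2 ^ 2) ≤ Real.sqrt T := by
    intro Q hQ
    exact Real.sqrt_le_sqrt ((Finset.sum_le_sum_of_subset_of_nonneg hQ
      (fun _ _ _ => sq_nonneg _)).trans hTP)
  -- nodes sum of squares of differences
  have hsq' : ∑ l ∈ Finset.Icc 1 N, ∑ k ∈ Finset.range (2 ^ l),
      (av l k - av (l - 1) (k / 2)) ^ 2 * S l k ≤ F2 0 0 := by
    refine le_trans (le_of_eq ?_) hsq
    refine Finset.sum_nbij' (fun l => l - 1) (fun l => l + 1) ?_ ?_ ?_ ?_ ?_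
    · intro l hl
      rw [Finset.mem_Icc] at hl
      rw [Finset.mem_range]
      omega
    · intro l hl
      rw [Finset.mem_range] at hl
      rw [Finset.mem_Icc]
      omega
    · intro l hl
      rw [Finset.mem_Icc] at hl
      omega
    · intro l _
      omega
    · intro l hl
      rw [Finset.mem_Icc] at hl
      rw [show l - 1 + 1 = l by omega]
  set J : ℕ × ℕ → ℕ → ℕ := fun p l => p.2 / 2 ^ (p.1 - l) with hJ
  set vv : ℕ × ℕ → ℕ → ℝ := fun p l => av l (J p l) with hvv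
  have hJhalf : ∀ (p : ℕ × ℕ) l, 1 ≤ l → l ≤ p.1 → J p l / 2 = J p (l - 1) := by
    intro p l h1 h2
    simp only [hJ]
    rw [Nat.div_div_eq_div_mul, ← pow_succ]
    congr 2
    omega
  have e0 : ∑ n ∈ Finset.range N, (ε n : ℂ) *
      ∑ j ∈ (Finset.range (2 ^ n)).filter (fun j => gd n j), ∑ l ∈ Finset.Icc 1 (n - r),
          ((av l (j / 2 ^ (n - l)) - av (l - 1) (j / 2 ^ (n - l + 1)) : ℝ) : ℂ) * β n j l =
      ∑ p ∈ P, (ε p.1 : ℂ) * ∑ l ∈ Finset.Icc 1 (p.1 - r),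
        ((vv p l : ℂ) - (vv p (l - 1) : ℂ)) * β p.1 p.2 l := by
    rw [hPdef, sum_prs]
    refine Finset.sum_congr rfl fun n _ => ?_
    rw [Finset.mul_sum]
    refine Finset.sum_congr rfl fun j _ => ?_
    congr 1
    refine Finset.sum_congr rfl fun l hl => ?_
    rw [Finset.mem_Icc] at hl
    simp only [hvv, hJ]
    rw [show n - (l - 1) = n - l + 1 by omega]
    push_cast
    ring
  rw [e0]
  -- splitting
  have e1 : ∀ p ∈ P, (ε p.1 : ℂ) * ∑ l ∈ Finset.Icc 1 (p.1 - r),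
        ((vv p l : ℂ) - (vv p (l - 1) : ℂ)) * β p.1 p.2 l =
      (∑ l ∈ (Finset.Icc 1 4).filter (fun l => l ≤ p.1 - r),
        ((ε p.1 * (vv p l - vv p (l - 1)) : ℝ) : ℂ) * β p.1 p.2 l) +
      (ε p.1 : ℂ) * ∑ l ∈ Finset.Ioc 4 (p.1 - r),
        ((vv p l : ℂ) - (vv p (l - 1) : ℂ)) * β p.1 p.2 l := by
    intro p _
    rw [← Finset.sum_filter_add_sum_filter_not (Finset.Icc 1 (p.1 - r)) (fun l => l ≤ 4), mul_add]
    congr 1
    · rw [Finset.mul_sum]
      refine Finset.sum_congr ?_ fun l _ => ?_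
      · ext l
        simp only [Finset.mem_filter, Finset.mem_Icc]
        tauto
      · push_cast
        ring
    · congr 1
      refine Finset.sum_congr ?_ fun l _ => rfl
      ext l
      simp only [Finset.mem_filter, Finset.mem_Icc, Finset.mem_Ioc]
      omega
  rw [Finset.sum_congr rfl e1, Finset.sum_add_distrib]
  -- part A
  have hA : ‖∑ p ∈ P, ∑ l ∈ (Finset.Icc 1 4).filter (fun l => l ≤ p.1 - r),
        ((ε p.1 * (vv p l - vv p (l - 1)) : ℝ) : ℂ) * β p.1 p.2 l‖ ≤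
      8 * Real.sqrt C0 * Real.sqrt (F2 0 0) * Real.sqrt T := by
    rw [Finset.sum_comm' (s' := fun l => P.filter (fun p => l ≤ p.1 - r)) (t' := Finset.Icc 1 4)
      (by intro p l; simp only [Finset.mem_filter]; tauto)]
    refine (norm_sum_le _ _).trans ?_
    have hl : ∀ l ∈ Finset.Icc 1 4, ‖∑ p ∈ P.filter (fun p => l ≤ p.1 - r),
        ((ε p.1 * (vv p l - vv p (l - 1)) : ℝ) : ℂ) * β p.1 p.2 l‖ ≤
        2 * Real.sqrt C0 * Real.sqrt (F2 0 0) * Real.sqrt T := by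
      intro l hl
      rw [Finset.mem_Icc] at hl
      by_cases hlN : l ≤ N
      · have hh := mt_tst C0 h0 S D hT.S0 β h6 (P.filter (fun p => l ≤ p.1 - r)) (fun _ => l)
          ((Finset.range (2 ^ l)).image (fun k => (l, k)))
          (by
            intro p hp
            rw [Finset.mem_filter] at hp
            obtain ⟨h1, h2, h3⟩ := hP p hp.1
            have h4 : l ≤ p.1 := by omega
            refine ⟨h2, h4, ?_⟩
            rw [Finset.mem_image]
            exact ⟨_, Finset.mem_range.2 (mt_Jlt _ _ _ h2 h4), rfl⟩)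
          (by
            intro g hg
            rw [Finset.mem_image] at hg
            obtain ⟨k, hk, rfl⟩ := hg
            exact Finset.mem_range.1 hk)
          (fun p => ε p.1 * (vv p l - vv p (l - 1)))
          (fun g => 2 * |av g.1 g.2 - av (g.1 - 1) (g.2 / 2)|)
          (fun g _ => by positivity)
          (by
            intro p hp
            rw [Finset.mem_filter] at hp
            have h4 : l ≤ p.1 := by omega
            have h5' := hJhalf p l hl.1 h4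
            simp only [hJ] at h5'
            simp only [hvv, hJ]
            rw [abs_mul, h5']
            exact mul_le_mul_of_nonneg_right (hε _) (abs_nonneg _))
          (4 * F2 0 0)
          (by
            rw [Finset.sum_image (by intro a _ b _ h; exact (Prod.mk.inj h).2)]
            have h1 : ∑ k ∈ Finset.range (2 ^ l),
                (2 * |av l k - av (l - 1) (k / 2)|) ^ 2 * S l k =
                4 * ∑ k ∈ Finset.range (2 ^ l), (av l k - av (l - 1) (k / 2)) ^ 2 * S l k := by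
              rw [Finset.mul_sum]
              refine Finset.sum_congr rfl fun k _ => ?_
              rw [mul_pow, sq_abs]
              ring
            simp only [h1]
            refine mul_le_mul_of_nonneg_left ?_ (by norm_num)
            refine le_trans ?_ hsq'
            exact Finset.single_le_sum
              (f := fun l => ∑ k ∈ Finset.range (2 ^ l), (av l k - av (l - 1) (k / 2)) ^ 2 * S l k)
              (fun l _ => Finset.sum_nonneg fun k _ => mul_nonneg (sq_nonneg _) (hT.S0 _ _))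
              (Finset.mem_Icc.2 ⟨hl.1, hlN⟩))
        refine hh.trans ?_
        have e3 : Real.sqrt (C0 * (4 * F2 0 0)) = 2 * Real.sqrt C0 * Real.sqrt (F2 0 0) := by
          rw [Real.sqrt_mul h0, Real.sqrt_mul (by norm_num : (0:ℝ) ≤ 4),
            show Real.sqrt 4 = 2 by rw [show (4:ℝ) = 2 ^ 2 by norm_num]; exact Real.sqrt_sq (by norm_num)]
          ring
        rw [e3]
        exact mul_le_mul_of_nonneg_left (hTs _ (Finset.filter_subset _ _)) (by positivity)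
      · rw [Finset.filter_false_of_mem]
        · simp only [Finset.sum_empty, norm_zero]
          positivity
        · intro p hp
          have := (hP p hp).1
          omega
    refine (Finset.sum_le_sum hl).trans (le_of_eq ?_)
    rw [Finset.sum_const, Nat.card_Icc]
    simp only [nsmul_eq_mul]
    push_cast
    ring
  -- part B
  set P5 : Finset (ℕ × ℕ) := P.filter (fun p => 5 ≤ p.1 - r) with hP5def
  have hP5P : P5 ⊆ P := Finset.filter_subset _ _
  have hP5 : ∀ p ∈ P5, p.1 < N ∧ p.2 < 2 ^ p.1 ∧ gd p.1 p.2 ∧ 5 ≤ p.1 - r := by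
    intro p hp
    rw [hP5def, Finset.mem_filter] at hp
    obtain ⟨h1, h2, h3⟩ := hP p hp.1
    exact ⟨h1, h2, h3, hp.2⟩
  set gg : ℕ × ℕ → ℕ := fun p => fs (p.1 - r) (J p (p.1 - r)) with hgg
  have hg1 : ∀ p ∈ P5, 4 ≤ gg p ∧ gg p ≤ p.1 - r := by
    intro p hp
    obtain ⟨h1, h2, h3, h4⟩ := hP5 p hp
    exact p1 _ _ (by omega)
  have hg2 : ∀ p ∈ P5, ∀ t, gg p ≤ t → t ≤ p.1 - r → fs t (J p t) = gg p ∧
      al t (J p t) = al (p.1 - r) (J p (p.1 - r)) := by
    intro p hp t ht1 ht2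
    obtain ⟨h1, h2, h3, h4⟩ := hP5 p hp
    have h := p3 (p.1 - r) (J p (p.1 - r)) t (by omega) ht1 ht2
    simp only [hJ] at h ⊢
    rw [mt_J p.1 p.2 (p.1 - r) t ht2 (by omega)] at h
    exact h
  have hmono : ∀ (p : ℕ × ℕ) s t, 4 ≤ s → s ≤ t → t ≤ p.1 → al s (J p s) ≤ al t (J p t) := by
    intro p s t h1 h2 h3
    have h := p4 t (J p t) s h1 h2
    simp only [hJ] at h ⊢
    rw [mt_J p.1 p.2 t s h2 h3] at h
    exact h
  have hvb : ∀ (p : ℕ × ℕ) l, 4 ≤ l → |vv p l| ≤ 2 * al l (J p l) := by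
    intro p l hl
    exact (hav l (J p l)).trans (p2 l (J p l) hl).2
  have hvd : ∀ (p : ℕ × ℕ) l, 4 ≤ l → l ≤ p.1 → |vv p l - vv p 4| ≤ 4 * al l (J p l) := by
    intro p l h1 h2
    have h3 := hvb p l h1
    have h4 := hvb p 4 (le_refl _)
    have h5' := hmono p 4 l (le_refl _) h1 h2
    have h6' := abs_sub (vv p l) (vv p 4)
    linarith
  have hB0 : ∑ p ∈ P, (ε p.1 : ℂ) * ∑ l ∈ Finset.Ioc 4 (p.1 - r),
        ((vv p l : ℂ) - (vv p (l - 1) : ℂ)) * β p.1 p.2 l =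
      ∑ p ∈ P5, (((ε p.1 * (vv p (p.1 - r) - vv p 4) : ℝ) : ℂ) * β p.1 p.2 (gg p)
        - (ε p.1 : ℂ) * (∑ l ∈ Finset.Ioc (gg p) (p.1 - r), ((vv p l : ℂ) - (vv p (l - 1) : ℂ)) *
            ∑ t ∈ Finset.Ioc (gg p) l, (β p.1 p.2 (t - 1) - β p.1 p.2 t))
        + (ε p.1 : ℂ) * ∑ t ∈ Finset.Ioc 4 (gg p), (β p.1 p.2 (t - 1) - β p.1 p.2 t) *
            ((vv p (t - 1) : ℂ) - (vv p 4 : ℂ))) := by
    rw [← Finset.sum_filter_of_ne (p := fun p : ℕ × ℕ => 5 ≤ p.1 - r)]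
    · refine Finset.sum_congr rfl fun p hp => ?_
      obtain ⟨hg3, hg4⟩ := hg1 p hp
      have := mt_alg (fun l => (vv p l : ℂ)) (β p.1 p.2) (gg p) (p.1 - r) hg3 hg4
      rw [this]
      push_cast
      ring
    · intro p _ hne
      by_contra hcon
      apply hne
      rw [Finset.Ioc_eq_empty (by omega)]
      simp
  rw [hB0, Finset.sum_add_distrib, Finset.sum_sub_distrib]
  -- term 1
  have hT1 : ‖∑ p ∈ P5, ((ε p.1 * (vv p (p.1 - r) - vv p 4) : ℝ) : ℂ) * β p.1 p.2 (gg p)‖ ≤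
      8 * Real.sqrt (C0 * Cs) * Real.sqrt (F2 0 0) * Real.sqrt T := by
    have hh := mt_tst C0 h0 S D hT.S0 β h6 P5 gg
      (prs (Finset.Icc 4 N) (fun l => (Finset.range (2 ^ l)).filter (fun k => fs l k = l)))
      (by
        intro p hp
        obtain ⟨h1, h2, h3, h4⟩ := hP5 p hp
        obtain ⟨h5', h6'⟩ := hg1 p hp
        have h7' : gg p ≤ p.1 := by omega
        refine ⟨h2, h7', ?_⟩
        rw [mem_prs, Finset.mem_Icc, Finset.mem_filter, Finset.mem_range]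
        refine ⟨by constructor <;> (dsimp only; omega), mt_Jlt _ _ _ h2 h7', ?_⟩
        exact (hg2 p hp (gg p) (le_refl _) h6').1)
      (by
        intro g hg
        rw [mem_prs, Finset.mem_filter, Finset.mem_range] at hg
        exact hg.2.1)
      (fun p => ε p.1 * (vv p (p.1 - r) - vv p 4)) (fun g => 8 * al g.1 g.2)
      (by
        intro g hg
        rw [mem_prs, Finset.mem_Icc] at hg
        have := (p2 g.1 g.2 hg.1.1).1
        positivity)
      (by
        intro p hp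
        obtain ⟨h1, h2, h3, h4⟩ := hP5 p hp
        obtain ⟨h5', h6'⟩ := hg1 p hp
        have h8 := (hg2 p hp (gg p) (le_refl _) h6').2
        have h9 := hvd p (p.1 - r) (by omega) (by omega)
        simp only [hJ] at h8 h9 ⊢
        rw [h8, abs_mul]
        calc |ε p.1| * |vv p (p.1 - r) - vv p 4| ≤ 2 * (4 * al (p.1 - r) (p.2 / 2 ^ (p.1 - (p.1 - r)))) :=
              mul_le_mul (hε _) h9 (abs_nonneg _) (by norm_num)
          _ = 8 * al (p.1 - r) (p.2 / 2 ^ (p.1 - (p.1 - r))) := by ring)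
      (64 * (Cs * F2 0 0))
      (by
        rw [sum_prs]
        have h1 : ∑ l ∈ Finset.Icc 4 N, ∑ k ∈ (Finset.range (2 ^ l)).filter (fun k => fs l k = l),
            (8 * al (l, k).1 (l, k).2) ^ 2 * S (l, k).1 (l, k).2 =
            64 * ∑ l ∈ Finset.Icc 4 N, ∑ k ∈ (Finset.range (2 ^ l)).filter (fun k => fs l k = l),
            al l k ^ 2 * S l k := by
          rw [Finset.mul_sum]
          refine Finset.sum_congr rfl fun l _ => ?_
          rw [Finset.mul_sum]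
          refine Finset.sum_congr rfl fun k _ => ?_
          ring
        rw [h1]
        exact mul_le_mul_of_nonneg_left p6 (by norm_num))
    refine hh.trans ?_
    have e3 : Real.sqrt (C0 * (64 * (Cs * F2 0 0))) =
        8 * Real.sqrt (C0 * Cs) * Real.sqrt (F2 0 0) := by
      rw [show C0 * (64 * (Cs * F2 0 0)) = 8 ^ 2 * ((C0 * Cs) * F2 0 0) by ring,
        Real.sqrt_mul (by positivity), Real.sqrt_sq (by norm_num),
        Real.sqrt_mul (by positivity)]
      ring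
    rw [e3]
    exact mul_le_mul_of_nonneg_left (hTs _ hP5P) (by positivity)
  -- term 2
  set y2 : ℕ × ℕ → ℝ := fun G => |av G.1 G.2 - av (G.1 - 1) (G.2 / 2)| *
    |PGa S (fs G.1 G.2) G.1 G.2| with hy2
  have hT2 : ‖∑ p ∈ P5, (ε p.1 : ℂ) * (∑ l ∈ Finset.Ioc (gg p) (p.1 - r),
      ((vv p l : ℂ) - (vv p (l - 1) : ℂ)) *
            ∑ t ∈ Finset.Ioc (gg p) l, (β p.1 p.2 (t - 1) - β p.1 p.2 t))‖ ≤
      16 * C1 * Real.sqrt Cs * Real.sqrt (F2 0 0) * Real.sqrt T := by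
    have hb1 : ∀ p ∈ P5, ‖(ε p.1 : ℂ) * (∑ l ∈ Finset.Ioc (gg p) (p.1 - r),
        ((vv p l : ℂ) - (vv p (l - 1) : ℂ)) *
            ∑ t ∈ Finset.Ioc (gg p) l, (β p.1 p.2 (t - 1) - β p.1 p.2 t))‖ ≤
        ∑ l ∈ Finset.Ioc (gg p) (p.1 - r), 2 * C1 * (1 / 2 : ℝ) ^ ((p.1 - l) / 4) *
          (y2 (l, J p l) * (Real.sqrt (W p.1 p.2) * D p.1 p.2)) := by
      intro p hp
      obtain ⟨q1, q2, q3, q4⟩ := hP5 p hp
      obtain ⟨q5, q6⟩ := hg1 p hp
      rw [Finset.mul_sum]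
      refine (norm_sum_le _ _).trans (Finset.sum_le_sum fun l hl => ?_)
      rw [Finset.mem_Ioc] at hl
      have hd : ‖∑ t ∈ Finset.Ioc (gg p) l, (β p.1 p.2 (t - 1) - β p.1 p.2 t)‖ ≤
          C1 * (1 / 2 : ℝ) ^ ((p.1 - l) / 4) * |PGa S (gg p) l (J p l)| *
            (Real.sqrt (W p.1 p.2) * D p.1 p.2) := by
        refine (norm_sum_le _ _).trans ?_
        have hd1 : ∀ t ∈ Finset.Ioc (gg p) l, ‖β p.1 p.2 (t - 1) - β p.1 p.2 t‖ ≤
            C1 * (1 / 2 : ℝ) ^ ((p.1 - l) / 4) * (Real.sqrt (W p.1 p.2) * D p.1 p.2) *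
            ((4 : ℝ) ^ t * (S (t - 1) (J p l / 2 ^ (l - t + 1)) - S t (J p l / 2 ^ (l - t)))) := by
          intro t ht
          rw [Finset.mem_Ioc] at ht
          have hm1 := mt_J p.1 p.2 l t ht.2 (by omega)
          have hm2 := mt_J1 p.1 p.2 l t ht.2 (by omega)
          simp only [hJ]
          rw [hm1, hm2]
          refine (h7 p.1 p.2 t q1 q2 q3 (by omega) (by omega)).trans ?_
          have hs0 : 0 ≤ S (t - 1) (p.2 / 2 ^ (p.1 - t + 1)) - S t (p.2 / 2 ^ (p.1 - t)) := by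
            have := hSm t (p.2 / 2 ^ (p.1 - t)) (by omega)
            rw [Nat.div_div_eq_div_mul, ← pow_succ] at this
            linarith
          have hpw : (1 / 2 : ℝ) ^ ((p.1 - t) / 4) ≤ (1 / 2 : ℝ) ^ ((p.1 - l) / 4) :=
            pow_le_pow_of_le_one (by norm_num) (by norm_num) (by omega)
          calc C1 * (1 / 2 : ℝ) ^ ((p.1 - t) / 4) * 4 ^ t *
              (S (t - 1) (p.2 / 2 ^ (p.1 - t + 1)) - S t (p.2 / 2 ^ (p.1 - t))) *
              Real.sqrt (W p.1 p.2) * D p.1 p.2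
              = (1 / 2 : ℝ) ^ ((p.1 - t) / 4) * (C1 * (Real.sqrt (W p.1 p.2) * D p.1 p.2) *
                (4 ^ t * (S (t - 1) (p.2 / 2 ^ (p.1 - t + 1)) - S t (p.2 / 2 ^ (p.1 - t))))) := by
                ring
            _ ≤ (1 / 2 : ℝ) ^ ((p.1 - l) / 4) * (C1 * (Real.sqrt (W p.1 p.2) * D p.1 p.2) *
                (4 ^ t * (S (t - 1) (p.2 / 2 ^ (p.1 - t + 1)) - S t (p.2 / 2 ^ (p.1 - t))))) := by
                refine mul_le_mul_of_nonneg_right hpw ?_
                have := hD p.1 p.2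
                positivity
            _ = _ := by ring
        refine (Finset.sum_le_sum hd1).trans ?_
        rw [← Finset.mul_sum]
        have : C1 * (1 / 2 : ℝ) ^ ((p.1 - l) / 4) * |PGa S (gg p) l (J p l)| *
            (Real.sqrt (W p.1 p.2) * D p.1 p.2) =
            C1 * (1 / 2 : ℝ) ^ ((p.1 - l) / 4) * (Real.sqrt (W p.1 p.2) * D p.1 p.2) *
            |PGa S (gg p) l (J p l)| := by ring
        rw [this]
        refine mul_le_mul_of_nonneg_left (le_abs_self _) ?_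
        have := hD p.1 p.2
        positivity
      have hfs : fs l (J p l) = gg p := (hg2 p hp l (by omega) hl.2).1
      have hj := hJhalf p l (by omega) (by omega)
      rw [norm_mul, norm_mul]
      have hn1 : ‖(ε p.1 : ℂ)‖ ≤ 2 := by
        rw [Complex.norm_real]
        exact hε _
      have hn2 : ‖(vv p l : ℂ) - (vv p (l - 1) : ℂ)‖ =
          |av l (J p l) - av (l - 1) (J p l / 2)| := by
        rw [← Complex.ofReal_sub, Complex.norm_real, Real.norm_eq_abs, hj]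
      rw [hn2]
      calc ‖(ε p.1 : ℂ)‖ * (|av l (J p l) - av (l - 1) (J p l / 2)| *
            ‖∑ t ∈ Finset.Ioc (gg p) l, (β p.1 p.2 (t - 1) - β p.1 p.2 t)‖)
          ≤ 2 * (|av l (J p l) - av (l - 1) (J p l / 2)| *
            (C1 * (1 / 2 : ℝ) ^ ((p.1 - l) / 4) * |PGa S (gg p) l (J p l)| *
            (Real.sqrt (W p.1 p.2) * D p.1 p.2))) := by
            refine mul_le_mul hn1 (mul_le_mul_of_nonneg_left hd (abs_nonneg _)) (by positivity)
              (by norm_num)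
        _ = _ := by
            simp only [hy2]
            rw [hfs]
            ring
    refine (norm_sum_le _ _).trans ((Finset.sum_le_sum hb1).trans ?_)
    rw [mt_swap N r P5 (fun p hp => by
      obtain ⟨q1, q2, q3, q4⟩ := hP5 p hp
      exact ⟨q1, by omega⟩) gg (fun p l => 2 * C1 * (1 / 2 : ℝ) ^ ((p.1 - l) / 4) *
          (y2 (l, J p l) * (Real.sqrt (W p.1 p.2) * D p.1 p.2)))]
    have hb2 : ∀ i ∈ Finset.range N, ∑ p ∈ P5.filter (fun p => r ≤ i ∧ gg p + i < p.1),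
        2 * C1 * (1 / 2 : ℝ) ^ ((p.1 - (p.1 - i)) / 4) *
          (y2 (p.1 - i, J p (p.1 - i)) * (Real.sqrt (W p.1 p.2) * D p.1 p.2)) ≤
        (1 / 2 : ℝ) ^ (i / 4) * (2 * C1 * (Real.sqrt (Cs * F2 0 0) * Real.sqrt T)) := by
      intro i _
      by_cases hir : r ≤ i
      · have e4 : ∑ p ∈ P5.filter (fun p => r ≤ i ∧ gg p + i < p.1),
            2 * C1 * (1 / 2 : ℝ) ^ ((p.1 - (p.1 - i)) / 4) *
            (y2 (p.1 - i, J p (p.1 - i)) * (Real.sqrt (W p.1 p.2) * D p.1 p.2)) =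
            (1 / 2 : ℝ) ^ (i / 4) * (2 * C1 * ∑ p ∈ P5.filter (fun p => r ≤ i ∧ gg p + i < p.1),
            y2 (p.1 - i, p.2 / 2 ^ i) * (Real.sqrt (W p.1 p.2) * D p.1 p.2)) := by
          rw [Finset.mul_sum, Finset.mul_sum]
          refine Finset.sum_congr rfl fun p hp => ?_
          rw [Finset.mem_filter] at hp
          simp only [hJ]
          rw [show p.1 - (p.1 - i) = i by omega]
          ring
        rw [e4]
        refine mul_le_mul_of_nonneg_left (mul_le_mul_of_nonneg_left ?_ (by positivity))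
          (by positivity)
        refine (mt_lvl r W D Wo gd hD hW hT.Wo0 h5 i hir _ ?_
          (prs (Finset.Icc 5 N) (fun l => (Finset.range (2 ^ l)).filter (fun k => fs l k < l)))
          ?_ ?_ y2 (fun g => by positivity) (Cs * F2 0 0) ?_).trans
          (mul_le_mul_of_nonneg_left (hTs _ ((Finset.filter_subset _ _).trans hP5P))
            (Real.sqrt_nonneg _))
        · intro p hp
          rw [Finset.mem_filter] at hp
          obtain ⟨q1, q2, q3, q4⟩ := hP5 p hp.1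
          exact ⟨by omega, q2, q3⟩
        · intro p hp
          rw [Finset.mem_filter] at hp
          obtain ⟨q1, q2, q3, q4⟩ := hP5 p hp.1
          obtain ⟨q5, q6⟩ := hg1 p hp.1
          rw [mem_prs, Finset.mem_Icc, Finset.mem_filter, Finset.mem_range]
          have hh := mt_Jlt p.1 p.2 (p.1 - i) q2 (by omega)
          have hh2 := (hg2 p hp.1 (p.1 - i) (by omega) (by omega)).1
          simp only [hJ] at hh2
          rw [show p.1 - (p.1 - i) = i by omega] at hh hh2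
          refine ⟨by constructor <;> (dsimp only; omega), hh, ?_⟩
          dsimp only
          rw [hh2]
          omega
        · intro g hg
          rw [mem_prs, Finset.mem_filter, Finset.mem_range] at hg
          exact hg.2.1
        · rw [sum_prs]
          calc ∑ l ∈ Finset.Icc 5 N, ∑ k ∈ (Finset.range (2 ^ l)).filter (fun k => fs l k < l),
                Wo (l, k).1 (l, k).2 * y2 (l, k) ^ 2
              ≤ ∑ l ∈ Finset.Icc 5 N, ∑ k ∈ (Finset.range (2 ^ l)).filter (fun k => fs l k < l),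
                Cs * ((av l k - av (l - 1) (k / 2)) ^ 2 * S l k) := by
                refine Finset.sum_le_sum fun l hl => Finset.sum_le_sum fun k hk => ?_
                rw [Finset.mem_Icc] at hl
                rw [Finset.mem_filter, Finset.mem_range] at hk
                have hh := p5 l k (by omega) hk.1 hk.2
                simp only [hy2]
                rw [mul_pow, sq_abs, sq_abs]
                calc Wo l k * ((av l k - av (l - 1) (k / 2)) ^ 2 * PGa S (fs l k) l k ^ 2)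
                    = (av l k - av (l - 1) (k / 2)) ^ 2 * (Wo l k * PGa S (fs l k) l k ^ 2) := by
                      ring
                  _ ≤ (av l k - av (l - 1) (k / 2)) ^ 2 * (Cs * S l k) :=
                      mul_le_mul_of_nonneg_left hh (sq_nonneg _)
                  _ = _ := by ring
            _ = Cs * ∑ l ∈ Finset.Icc 5 N,
                ∑ k ∈ (Finset.range (2 ^ l)).filter (fun k => fs l k < l),
                (av l k - av (l - 1) (k / 2)) ^ 2 * S l k := by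
                rw [Finset.mul_sum]
                refine Finset.sum_congr rfl fun l _ => ?_
                rw [Finset.mul_sum]
            _ ≤ Cs * F2 0 0 := by
                refine mul_le_mul_of_nonneg_left (le_trans ?_ hsq') hCs
                refine (Finset.sum_le_sum fun l _ => Finset.sum_le_sum_of_subset_of_nonneg
                  (Finset.filter_subset _ _) (fun _ _ _ => mul_nonneg (sq_nonneg _)
                    (hT.S0 _ _))).trans ?_
                refine Finset.sum_le_sum_of_subset_of_nonneg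
                  (Finset.Icc_subset_Icc_left (by norm_num)) (fun l _ _ =>
                    Finset.sum_nonneg fun k _ => mul_nonneg (sq_nonneg _) (hT.S0 _ _))
      · rw [Finset.filter_false_of_mem (fun p _ h => hir h.1), Finset.sum_empty]
        positivity
    refine (Finset.sum_le_sum hb2).trans ?_
    rw [← Finset.sum_mul]
    refine (mul_le_mul_of_nonneg_right (mt_geom N) (by positivity)).trans (le_of_eq ?_)
    rw [Real.sqrt_mul hCs]
    ring
  -- term 3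
  set X3 : ℕ × ℕ → ℝ := fun G => ∑ t ∈ Finset.Ioc 4 G.1, (1 / 2 : ℝ) ^ ((G.1 - t) / 4) *
          al (t - 1) (G.2 / 2 ^ (G.1 - t + 1)) * 4 ^ t *
          (S (t - 1) (G.2 / 2 ^ (G.1 - t + 1)) - S t (G.2 / 2 ^ (G.1 - t))) with hX3
  have hS1 : ∀ (l k t : ℕ), 1 ≤ t → 
      0 ≤ S (t - 1) (k / 2 ^ (l - t + 1)) - S t (k / 2 ^ (l - t)) := by
    intro l k t ht
    have := hSm t (k / 2 ^ (l - t)) ht
    rw [Nat.div_div_eq_div_mul, ← pow_succ] at this
    linarith
  have hX0 : ∀ G, 0 ≤ X3 G := by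
    intro G
    refine Finset.sum_nonneg fun t ht => ?_
    rw [Finset.mem_Ioc] at ht
    have h1' := hS1 G.1 G.2 t (by omega)
    have h2' := (p2 (t - 1) (G.2 / 2 ^ (G.1 - t + 1)) (by omega)).1
    positivity
  have hT3 : ‖∑ p ∈ P5, (ε p.1 : ℂ) * ∑ t ∈ Finset.Ioc 4 (gg p),
      (β p.1 p.2 (t - 1) - β p.1 p.2 t) * ((vv p (t - 1) : ℂ) - (vv p 4 : ℂ))‖ ≤
      64 * C1 * Real.sqrt Cs * Real.sqrt (F2 0 0) * Real.sqrt T := by
    have hb1 : ∀ p ∈ P5, ‖(ε p.1 : ℂ) * ∑ t ∈ Finset.Ioc 4 (gg p),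
        (β p.1 p.2 (t - 1) - β p.1 p.2 t) * ((vv p (t - 1) : ℂ) - (vv p 4 : ℂ))‖ ≤
        8 * C1 * (1 / 2 : ℝ) ^ ((p.1 - gg p) / 4) *
          (X3 (gg p, J p (gg p)) * (Real.sqrt (W p.1 p.2) * D p.1 p.2)) := by
      intro p hp
      obtain ⟨q1, q2, q3, q4⟩ := hP5 p hp
      obtain ⟨q5, q6⟩ := hg1 p hp
      have hn1 : ‖(ε p.1 : ℂ)‖ ≤ 2 := by
        rw [Complex.norm_real]
        exact hε _
      have hsum : ‖∑ t ∈ Finset.Ioc 4 (gg p),
          (β p.1 p.2 (t - 1) - β p.1 p.2 t) * ((vv p (t - 1) : ℂ) - (vv p 4 : ℂ))‖ ≤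
          4 * C1 * (1 / 2 : ℝ) ^ ((p.1 - gg p) / 4) *
          (X3 (gg p, J p (gg p)) * (Real.sqrt (W p.1 p.2) * D p.1 p.2)) := by
        refine (norm_sum_le _ _).trans ?_
        have hd1 : ∀ t ∈ Finset.Ioc 4 (gg p),
            ‖(β p.1 p.2 (t - 1) - β p.1 p.2 t) * ((vv p (t - 1) : ℂ) - (vv p 4 : ℂ))‖ ≤
            (4 * C1 * (1 / 2 : ℝ) ^ ((p.1 - gg p) / 4) * (Real.sqrt (W p.1 p.2) * D p.1 p.2)) *
            ((1 / 2 : ℝ) ^ ((gg p - t) / 4) *
              al (t - 1) (J p (gg p) / 2 ^ (gg p - t + 1)) * 4 ^ t *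
              (S (t - 1) (J p (gg p) / 2 ^ (gg p - t + 1)) -
                S t (J p (gg p) / 2 ^ (gg p - t)))) := by
          intro t ht
          rw [Finset.mem_Ioc] at ht
          have hm1 := mt_J p.1 p.2 (gg p) t ht.2 (by omega)
          have hm2 := mt_J1 p.1 p.2 (gg p) t ht.2 (by omega)
          have hv := hvd p (t - 1) (by omega) (by omega)
          have hJt : J p (t - 1) = p.2 / 2 ^ (p.1 - t + 1) := by
            simp only [hJ]
            congr 2
            omega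
          rw [hJt] at hv
          have hJg : J p (gg p) = p.2 / 2 ^ (p.1 - gg p) := rfl
          rw [hJg, hm1, hm2, norm_mul]
          have hn2 : ‖(vv p (t - 1) : ℂ) - (vv p 4 : ℂ)‖ = |vv p (t - 1) - vv p 4| := by
            rw [← Complex.ofReal_sub, Complex.norm_real, Real.norm_eq_abs]
          rw [hn2]
          have hal := (p2 (t - 1) (p.2 / 2 ^ (p.1 - t + 1)) (by omega)).1
          have hs0 := hS1 p.1 p.2 t (by omega)
          have hD0 := hD p.1 p.2
          have hpw : (1 / 2 : ℝ) ^ ((p.1 - t) / 4) ≤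
              (1 / 2 : ℝ) ^ ((p.1 - gg p) / 4) * (1 / 2 : ℝ) ^ ((gg p - t) / 4) := by
            rw [← pow_add]
            exact pow_le_pow_of_le_one (by norm_num) (by norm_num) (by omega)
          calc ‖β p.1 p.2 (t - 1) - β p.1 p.2 t‖ * |vv p (t - 1) - vv p 4|
              ≤ (C1 * (1 / 2 : ℝ) ^ ((p.1 - t) / 4) * 4 ^ t *
                (S (t - 1) (p.2 / 2 ^ (p.1 - t + 1)) - S t (p.2 / 2 ^ (p.1 - t))) *
                Real.sqrt (W p.1 p.2) * D p.1 p.2) *
                (4 * al (t - 1) (p.2 / 2 ^ (p.1 - t + 1))) :=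
                mul_le_mul (h7 p.1 p.2 t q1 q2 q3 (by omega) (by omega)) hv (abs_nonneg _)
                  (by positivity)
            _ = (1 / 2 : ℝ) ^ ((p.1 - t) / 4) * (C1 * 4 ^ t *
                (S (t - 1) (p.2 / 2 ^ (p.1 - t + 1)) - S t (p.2 / 2 ^ (p.1 - t))) *
                Real.sqrt (W p.1 p.2) * D p.1 p.2 *
                (4 * al (t - 1) (p.2 / 2 ^ (p.1 - t + 1)))) := by ring
            _ ≤ ((1 / 2 : ℝ) ^ ((p.1 - gg p) / 4) * (1 / 2 : ℝ) ^ ((gg p - t) / 4)) * (C1 * 4 ^ t *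
                (S (t - 1) (p.2 / 2 ^ (p.1 - t + 1)) - S t (p.2 / 2 ^ (p.1 - t))) *
                Real.sqrt (W p.1 p.2) * D p.1 p.2 *
                (4 * al (t - 1) (p.2 / 2 ^ (p.1 - t + 1)))) :=
                mul_le_mul_of_nonneg_right hpw (by positivity)
            _ = _ := by ring
        refine (Finset.sum_le_sum hd1).trans (le_of_eq ?_)
        rw [← Finset.mul_sum]
        simp only [hX3]
        ring
      rw [norm_mul]
      calc ‖(ε p.1 : ℂ)‖ * ‖∑ t ∈ Finset.Ioc 4 (gg p),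
          (β p.1 p.2 (t - 1) - β p.1 p.2 t) * ((vv p (t - 1) : ℂ) - (vv p 4 : ℂ))‖
          ≤ 2 * (4 * C1 * (1 / 2 : ℝ) ^ ((p.1 - gg p) / 4) *
          (X3 (gg p, J p (gg p)) * (Real.sqrt (W p.1 p.2) * D p.1 p.2))) :=
            mul_le_mul hn1 hsum (norm_nonneg _) (by norm_num)
        _ = _ := by ring
    refine (norm_sum_le _ _).trans ((Finset.sum_le_sum hb1).trans ?_)
    rw [← Finset.sum_fiberwise_of_maps_to (g := fun p => p.1 - gg p) (t := Finset.range N)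
      (fun p hp => by
        obtain ⟨q1, q2, q3, q4⟩ := hP5 p hp
        rw [Finset.mem_range]
        omega)]
    have hb2 : ∀ i ∈ Finset.range N, ∑ p ∈ P5.filter (fun p => p.1 - gg p = i),
        8 * C1 * (1 / 2 : ℝ) ^ ((p.1 - gg p) / 4) *
          (X3 (gg p, J p (gg p)) * (Real.sqrt (W p.1 p.2) * D p.1 p.2)) ≤
        (1 / 2 : ℝ) ^ (i / 4) * (8 * C1 * (Real.sqrt (Cs * F2 0 0) * Real.sqrt T)) := by
      intro i _
      by_cases hir : r ≤ i
      · have e4 : ∑ p ∈ P5.filter (fun p => p.1 - gg p = i),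
            8 * C1 * (1 / 2 : ℝ) ^ ((p.1 - gg p) / 4) *
            (X3 (gg p, J p (gg p)) * (Real.sqrt (W p.1 p.2) * D p.1 p.2)) =
            (1 / 2 : ℝ) ^ (i / 4) * (8 * C1 * ∑ p ∈ P5.filter (fun p => p.1 - gg p = i),
            X3 (p.1 - i, p.2 / 2 ^ i) * (Real.sqrt (W p.1 p.2) * D p.1 p.2)) := by
          rw [Finset.mul_sum, Finset.mul_sum]
          refine Finset.sum_congr rfl fun p hp => ?_
          rw [Finset.mem_filter] at hp
          obtain ⟨q1, q2, q3, q4⟩ := hP5 p hp.1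
          obtain ⟨q5, q6⟩ := hg1 p hp.1
          have hJg : J p (gg p) = p.2 / 2 ^ (p.1 - gg p) := rfl
          rw [hJg, hp.2, show gg p = p.1 - i by omega]
          ring
        rw [e4]
        refine mul_le_mul_of_nonneg_left (mul_le_mul_of_nonneg_left ?_ (by positivity))
          (by positivity)
        refine (mt_lvl r W D Wo gd hD hW hT.Wo0 h5 i hir _ ?_
          (prs (Finset.Icc 4 N) (fun l => (Finset.range (2 ^ l)).filter (fun k => fs l k = l)))
          ?_ ?_ X3 hX0 (Cs * F2 0 0) ?_).trans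
          (mul_le_mul_of_nonneg_left (hTs _ ((Finset.filter_subset _ _).trans hP5P))
            (Real.sqrt_nonneg _))
        · intro p hp
          rw [Finset.mem_filter] at hp
          obtain ⟨q1, q2, q3, q4⟩ := hP5 p hp.1
          exact ⟨by omega, q2, q3⟩
        · intro p hp
          rw [Finset.mem_filter] at hp
          obtain ⟨q1, q2, q3, q4⟩ := hP5 p hp.1
          obtain ⟨q5, q6⟩ := hg1 p hp.1
          rw [mem_prs, Finset.mem_Icc, Finset.mem_filter, Finset.mem_range]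
          have hh := mt_Jlt p.1 p.2 (gg p) q2 (by omega)
          have hh2 := (hg2 p hp.1 (gg p) (by omega) (by omega)).1
          simp only [hJ] at hh2
          rw [hp.2] at hh hh2
          rw [show p.1 - i = gg p by omega]
          exact ⟨by constructor <;> (dsimp only; omega), hh, hh2⟩
        · intro g hg
          rw [mem_prs, Finset.mem_filter, Finset.mem_range] at hg
          exact hg.2.1
        · rw [sum_prs]
          exact p7
      · rw [Finset.filter_false_of_mem, Finset.sum_empty]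
        · positivity
        · intro p hp h
          obtain ⟨q1, q2, q3, q4⟩ := hP5 p hp
          obtain ⟨q5, q6⟩ := hg1 p hp
          omega
    refine (Finset.sum_le_sum hb2).trans ?_
    rw [← Finset.sum_mul]
    refine (mul_le_mul_of_nonneg_right (mt_geom N) (by positivity)).trans (le_of_eq ?_)
    rw [Real.sqrt_mul hCs]
    ring
  refine (norm_add_le _ _).trans ?_
  refine (add_le_add hA ((norm_add_le _ _).trans (add_le_add ((norm_sub_le _ _).trans
    (add_le_add hT1 hT2)) hT3))).trans (le_of_eq ?_)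
  ring

end

end Pool.Agent.Helper807.BT
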