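import Pool.Agent.Helper807.BT.Base
import Pool.Agent.Helper807.BT.Bas

set_option autoImplicit false

open MeasureTheory Set
open scoped ENNReal

namespace Pool.Agent.Helper807.BT

noncomputable section

variable {X : Type*} [MeasurableSpace X]


theorem nd_meas_7111 : Measurable nd := by
  unfold nd
  have h1 : Measurable (fun t : ℝ => ((round t : ℤ) : ℝ)) := by
    have : (fun t : ℝ => ((round t : ℤ) : ℝ)) = fun t : ℝ => ((⌊t + 1 / 2⌋ : ℤ) : ℝ) := by
      funext t
      rw [round_eq]
    rw [this]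
    exact (measurable_from_top (f := fun z : ℤ => (z : ℝ))).comp
      (Int.measurable_floor.comp (measurable_id.add_const _))
  exact (measurable_id.sub h1).norm

theorem nd_le_7111 (t : ℝ) (z : ℤ) : nd t ≤ |t - z| := round_le t z

theorem nd_tri_7111 (x a b : ℝ) : nd (a - b) ≤ nd (x - a) + nd (x - b) := by
  have h1 := nd_le_7111 (a - b) (round (x - b) - round (x - a))
  have h2 : a - b - ((round (x - b) - round (x - a) : ℤ) : ℝ) =
      (x - b - (round (x - b) : ℤ)) - (x - a - (round (x - a) : ℤ)) := by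
    push_cast; ring
  rw [h2] at h1
  have h3 := abs_sub (x - b - (round (x - b) : ℤ)) (x - a - (round (x - a) : ℤ))
  unfold nd at *
  linarith

/-- the height function power bound -/
theorem fract_lt_of_7111 (t l : ℝ) (z : ℤ) (h0 : 0 ≤ t - z) (h1 : t - z < l) (hl : l ≤ 1) :
    Int.fract t < l := by
  have : Int.fract t = t - z := by
    have h2 : Int.fract (t - z) = t - z := Int.fract_eq_self.2 ⟨h0, by linarith⟩
    rw [← h2, Int.fract_sub_intCast]
  rw [this]; exact h1


theorem piece_7111 {A : ℝ} (hA : 0 ≤ A) {θ h : X → ℝ} {s w : Measure X} [IsFiniteMeasure s]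
    [IsFiniteMeasure w] (geo : Geo θ h) (a2 : A2 θ h s w A) (a : ℝ) (m : ℕ) :
    ∫⁻ y in {y | Int.fract (θ y - a) < (1 / 2 : ℝ) ^ m ∧ (1 / 2 : ℝ) ^ (m + 1) < h y ∧
        h y ≤ (1 / 2 : ℝ) ^ m},
      ENNReal.ofReal (1 / (h y) ^ 2) * w {x | h x ≤ h y ∧ nd (θ x - θ y) ≤ 4 * h y} ∂s
      ≤ ENNReal.ofReal (262144 * A * (1 / 4 : ℝ) ^ m) := by
  set p : ℝ := (1 / 2 : ℝ) ^ m with hp
  have hp0 : 0 < p := by positivity
  have hp1 : (1 / 2 : ℝ) ^ (m + 1) = p / 2 := by rw [hp, pow_succ]; ring
  have hp4 : (1 / 4 : ℝ) ^ m = p ^ 2 := by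
    rw [hp, ← pow_mul, mul_comm, pow_mul]; norm_num
  set l : ℝ := min 1 (16 * p) with hl
  have hl0 : 0 < l := lt_min one_pos (by positivity)
  have hl1 : l ≤ 1 := min_le_left _ _
  have hl2 : l ≤ 16 * p := min_le_right _ _
  set box := arcBox θ h (a - 4 * p) l with hbox
  have hbm : MeasurableSet box := measurableSet_arcBox geo _ _
  have key := a2 (a - 4 * p) l hl0 hl1
  -- membership in the box
  have hmem : ∀ x : X, h x ≤ p → (∃ z : ℤ, 0 ≤ θ x - (a - 4 * p) - z ∧ θ x - (a - 4 * p) - z < 9 * p) →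
      x ∈ box := by
    intro x hx hz
    obtain ⟨z, hz0, hz1⟩ := hz
    rcases le_total 1 (16 * p) with h16 | h16
    · have : l = 1 := min_eq_left h16
      refine ⟨?_, ?_⟩
      · rw [this]; exact Int.fract_lt_one _
      · rw [this]; exact geo.h1 x
    · have : l = 16 * p := min_eq_right h16
      refine ⟨?_, ?_⟩
      · refine fract_lt_of_7111 _ _ z hz0 ?_ hl1
        rw [this]; linarith
      · rw [this]; linarith
  rw [hp1]
  set P := {y | Int.fract (θ y - a) < p ∧ p / 2 < h y ∧ h y ≤ p} with hP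
  have hPbox : P ⊆ box := by
    rintro y ⟨h1, h2, h3⟩
    refine hmem y h3 ⟨⌊θ y - a⌋, ?_, ?_⟩
    · have := Int.fract_nonneg (θ y - a)
      unfold Int.fract at this
      linarith
    · unfold Int.fract at h1
      linarith
  have hPm : MeasurableSet P := by
    have e1 : Measurable fun y => Int.fract (θ y - a) := measurable_fract.comp (geo.mθ.sub_const a)
    exact (measurableSet_lt e1 measurable_const).inter
      ((measurableSet_lt measurable_const geo.mh).inter (measurableSet_le geo.mh measurable_const))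
  have hsub : ∀ y ∈ P, {x | h x ≤ h y ∧ nd (θ x - θ y) ≤ 4 * h y} ⊆ box := by
    rintro y ⟨h1, h2, h3⟩ x ⟨hx1, hx2⟩
    refine hmem x (hx1.trans h3) ⟨round (θ x - θ y) + ⌊θ y - a⌋, ?_, ?_⟩
    · have := Int.fract_nonneg (θ y - a)
      unfold Int.fract at this
      unfold nd at hx2
      have h4 := (abs_le.1 hx2).1
      push_cast
      linarith
    · unfold Int.fract at h1
      unfold nd at hx2
      have h4 := (abs_le.1 hx2).2
      push_cast
      linarith
  calc ∫⁻ y in P, ENNReal.ofReal (1 / (h y) ^ 2) *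
        w {x | h x ≤ h y ∧ nd (θ x - θ y) ≤ 4 * h y} ∂s
      ≤ ∫⁻ y in P, ENNReal.ofReal (4 / p ^ 2) * w box ∂s := by
        refine setLIntegral_mono' hPm fun y hy => ?_
        refine mul_le_mul' (ENNReal.ofReal_le_ofReal ?_) (measure_mono (hsub y hy))
        have h2 := hy.2.1
        have hy0 : 0 < h y := geo.h0 y
        rw [div_le_div_iff₀ (by positivity) (by positivity)]
        nlinarith
    _ = ENNReal.ofReal (4 / p ^ 2) * w box * s P := by
        rw [setLIntegral_const]
    _ ≤ ENNReal.ofReal (4 / p ^ 2) * w box * s box := by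
        gcongr
    _ = ENNReal.ofReal (4 / p ^ 2) * ENNReal.ofReal ((s box).toReal * (w box).toReal) := by
        rw [ENNReal.ofReal_mul ENNReal.toReal_nonneg, ENNReal.ofReal_toReal (measure_ne_top _ _),
          ENNReal.ofReal_toReal (measure_ne_top _ _)]
        ring
    _ ≤ ENNReal.ofReal (4 / p ^ 2) * ENNReal.ofReal (A * (16 * p) ^ 4) := by
        refine mul_le_mul' le_rfl (ENNReal.ofReal_le_ofReal (key.trans ?_))
        exact mul_le_mul_of_nonneg_left (pow_le_pow_left₀ hl0.le hl2 4) hA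
    _ = ENNReal.ofReal (262144 * A * (1 / 4 : ℝ) ^ m) := by
        rw [← ENNReal.ofReal_mul (by positivity), hp4]
        congr 1
        field_simp
        ring

theorem G_7111 {A : ℝ} (hA : 0 ≤ A) {θ h : X → ℝ} {s w : Measure X} [IsFiniteMeasure s]
    [IsFiniteMeasure w] (geo : Geo θ h) (a2 : A2 θ h s w A) (y : X) :
    ∫⁻ y' in {y' | h y' ≤ h y ∧ nd (θ y - θ y') ≤ 8 * h y},
      ENNReal.ofReal (1 / (h y') ^ 2) * w {x | h x ≤ h y' ∧ nd (θ x - θ y') ≤ 4 * h y'} ∂s
      ≤ ENNReal.ofReal (35651584 * A * (h y) ^ 2) := by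
  obtain ⟨l, hl1, hl2⟩ := exists_nat_pow_near_of_lt_one (geo.h0 y) (geo.h1 y)
    (by norm_num : (0 : ℝ) < 1 / 2) (by norm_num : (1 / 2 : ℝ) < 1)
  set P : ℝ → ℕ → Set X := fun a m => {y | Int.fract (θ y - a) < (1 / 2 : ℝ) ^ m ∧
    (1 / 2 : ℝ) ^ (m + 1) < h y ∧ h y ≤ (1 / 2 : ℝ) ^ m} with hP
  have hcov : {y' | h y' ≤ h y ∧ nd (θ y - θ y') ≤ 8 * h y} ⊆
      ⋃ j : ℕ, ⋃ i : Fin (17 * 2 ^ j), P (θ y - 8 * h y + (i : ℕ) * (1 / 2 : ℝ) ^ (l + j)) (l + j) := by
    rintro y' ⟨h1, h2⟩
    obtain ⟨m, hm1, hm2⟩ := exists_nat_pow_near_of_lt_one (geo.h0 y') (geo.h1 y')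
      (by norm_num : (0 : ℝ) < 1 / 2) (by norm_num : (1 / 2 : ℝ) < 1)
    have hlm : l ≤ m := by
      by_contra hcon
      push Not at hcon
      have : (1 / 2 : ℝ) ^ l ≤ (1 / 2 : ℝ) ^ (m + 1) :=
        pow_le_pow_of_le_one (by norm_num) (by norm_num) hcon
      linarith
    obtain ⟨j, rfl⟩ := Nat.exists_eq_add_of_le hlm
    set p : ℝ := (1 / 2 : ℝ) ^ (l + j) with hp
    have hp0 : 0 < p := by positivity
    set z : ℤ := round (θ y - θ y') with hz
    have h2' : |θ y - θ y' - z| ≤ 8 * h y := h2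
    set u : ℝ := θ y' + z - θ y + 8 * h y with hu
    have hu0 : 0 ≤ u := by have := (abs_le.1 h2').2; rw [hu]; linarith
    have hu1 : u ≤ 16 * h y := by have := (abs_le.1 h2').1; rw [hu]; linarith
    have hpj : (1 / 2 : ℝ) ^ l = 2 ^ j * p := by
      rw [hp, pow_add]
      have : (2 : ℝ) ^ j * (1 / 2 : ℝ) ^ j = 1 := by rw [← mul_pow]; norm_num
      calc (1 / 2 : ℝ) ^ l = (1 / 2 : ℝ) ^ l * ((2 : ℝ) ^ j * (1 / 2 : ℝ) ^ j) := by rw [this]; ring
        _ = _ := by ring
    have hi : ⌊u / p⌋₊ < 17 * 2 ^ j := by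
      rw [Nat.floor_lt (by positivity)]
      rw [div_lt_iff₀ hp0]
      push_cast
      have : h y ≤ 2 ^ j * p := by rw [← hpj]; exact hl2
      have h3 : 0 < (2 : ℝ) ^ j * p := by positivity
      nlinarith
    refine Set.mem_iUnion.2 ⟨j, Set.mem_iUnion.2 ⟨⟨⌊u / p⌋₊, hi⟩, ?_, hm1, hm2⟩⟩
    have hf1 : (⌊u / p⌋₊ : ℝ) ≤ u / p := Nat.floor_le (by positivity)
    have hf2 : u / p < (⌊u / p⌋₊ : ℝ) + 1 := Nat.lt_floor_add_one _
    rw [le_div_iff₀ hp0] at hf1
    rw [div_lt_iff₀ hp0] at hf2
    refine fract_lt_of_7111 _ _ (-z) ?_ ?_ (pow_le_one₀ (by norm_num) (by norm_num))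
    · push_cast
      rw [hu] at hf1
      linarith
    · push_cast
      rw [hu] at hf2
      linarith
  set F : X → ℝ≥0∞ := fun y' => ENNReal.ofReal (1 / (h y') ^ 2) *
    w {x | h x ≤ h y' ∧ nd (θ x - θ y') ≤ 4 * h y'} with hF
  calc ∫⁻ y' in {y' | h y' ≤ h y ∧ nd (θ y - θ y') ≤ 8 * h y}, F y' ∂s
      ≤ ∫⁻ y' in ⋃ j : ℕ, ⋃ i : Fin (17 * 2 ^ j),
          P (θ y - 8 * h y + (i : ℕ) * (1 / 2 : ℝ) ^ (l + j)) (l + j), F y' ∂s :=
        lintegral_mono_set hcov
    _ ≤ ∑' j : ℕ, ∫⁻ y' in ⋃ i : Fin (17 * 2 ^ j),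
          P (θ y - 8 * h y + (i : ℕ) * (1 / 2 : ℝ) ^ (l + j)) (l + j), F y' ∂s :=
        lintegral_iUnion_le _ _
    _ ≤ ∑' j : ℕ, ENNReal.ofReal ((4456448 * A * (1 / 4 : ℝ) ^ l) * (1 / 2 : ℝ) ^ j) := by
        refine ENNReal.tsum_le_tsum fun j => ?_
        refine (lintegral_iUnion_le _ _).trans ?_
        rw [tsum_fintype]
        refine (Finset.sum_le_sum fun i _ => piece_7111 hA geo a2 _ (l + j)).trans ?_
        rw [Finset.sum_const, Finset.card_univ, Fintype.card_fin, nsmul_eq_mul]
        rw [← ENNReal.ofReal_natCast, ← ENNReal.ofReal_mul (by positivity)]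
        refine ENNReal.ofReal_le_ofReal (le_of_eq ?_)
        push_cast
        rw [pow_add]
        have : (1 / 2 : ℝ) ^ j = 2 ^ j * (1 / 4 : ℝ) ^ j := by rw [← mul_pow]; norm_num
        rw [this]
        ring
    _ = ENNReal.ofReal (2 * (4456448 * A * (1 / 4 : ℝ) ^ l)) := by
        rw [← ENNReal.ofReal_tsum_of_nonneg (fun j => by positivity)]
        · rw [tsum_mul_left, tsum_geometric_of_lt_one (by norm_num) (by norm_num)]
          congr 1
          norm_num
          ring
        · exact (summable_geometric_of_lt_one (by norm_num) (by norm_num)).mul_left _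
    _ ≤ ENNReal.ofReal (35651584 * A * (h y) ^ 2) := by
        refine ENNReal.ofReal_le_ofReal ?_
        have h4 : (1 / 4 : ℝ) ^ l = ((1 / 2 : ℝ) ^ l) ^ 2 := by
          rw [← pow_mul, mul_comm, pow_mul]; norm_num
        have h5 : (1 / 2 : ℝ) ^ l ≤ 2 * h y := by
          rw [pow_succ] at hl1; linarith
        have h6 : (1 / 4 : ℝ) ^ l ≤ 4 * (h y) ^ 2 := by
          rw [h4]
          have : 0 < (1 / 2 : ℝ) ^ l := by positivity
          nlinarith
        nlinarith [mul_le_mul_of_nonneg_left h6 hA]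


/-- the integrand -/
def phi_7111 (θ h : X → ℝ) (g k : ℕ) (x y : X) : ℝ≥0∞ :=
  {y | y ∈ Q θ h g k ∧ h x ≤ h y ∧ nd (θ x - θ y) ≤ 4 * h y}.indicator
    (fun y => ENNReal.ofReal (1 / (h y) ^ 2)) y

theorem phi_meas_7111 {θ h : X → ℝ} (geo : Geo θ h) (g k : ℕ) :
    Measurable fun p : X × X => phi_7111 θ h g k p.1 p.2 := by
  have e : (fun p : X × X => phi_7111 θ h g k p.1 p.2) =
      {p : X × X | p.2 ∈ Q θ h g k ∧ h p.1 ≤ h p.2 ∧ nd (θ p.1 - θ p.2) ≤ 4 * h p.2}.indicator
        (fun p => ENNReal.ofReal (1 / (h p.2) ^ 2)) := by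
    funext p
    unfold phi_7111
    by_cases hp : p.2 ∈ Q θ h g k ∧ h p.1 ≤ h p.2 ∧ nd (θ p.1 - θ p.2) ≤ 4 * h p.2
    · rw [Set.indicator_of_mem (by exact hp), Set.indicator_of_mem (by exact hp)]
    · rw [Set.indicator_of_notMem (by exact hp), Set.indicator_of_notMem (by exact hp)]
  rw [e]
  have m1 : Measurable fun p : X × X => h p.1 := geo.mh.comp measurable_fst
  have m2 : Measurable fun p : X × X => h p.2 := geo.mh.comp measurable_snd
  have m3 : Measurable fun p : X × X => θ p.1 := geo.mθ.comp measurable_fst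
  have m4 : Measurable fun p : X × X => θ p.2 := geo.mθ.comp measurable_snd
  refine Measurable.indicator ?_ ?_
  · exact (ENNReal.measurable_ofReal.comp ((measurable_const.div (m2.pow_const 2))))
  · refine MeasurableSet.inter (measurable_snd (measurableSet_Q geo g k)) (MeasurableSet.inter ?_ ?_)
    · exact measurableSet_le m1 m2
    · exact measurableSet_le (nd_meas_7111.comp (m3.sub m4)) (m2.const_mul 4)

/-- the kernel of the expanded square -/
def psi_7111 (θ h : X → ℝ) (g k : ℕ) (x y y' : X) : ℝ≥0∞ :=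
  phi_7111 θ h g k x y * ({y' | h y' ≤ h y}.indicator (fun y' => phi_7111 θ h g k x y') y')

theorem psi_meas_7111 {θ h : X → ℝ} (geo : Geo θ h) (g k : ℕ) :
    Measurable fun p : X × X × X => psi_7111 θ h g k p.1 p.2.1 p.2.2 := by
  have e : (fun p : X × X × X => psi_7111 θ h g k p.1 p.2.1 p.2.2) =
      fun p => phi_7111 θ h g k p.1 p.2.1 * ({p : X × X × X | h p.2.2 ≤ h p.2.1}.indicator
        (fun p => phi_7111 θ h g k p.1 p.2.2) p) := by
    funext p
    unfold psi_7111
    by_cases hp : h p.2.2 ≤ h p.2.1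
    · rw [Set.indicator_of_mem (by exact hp), Set.indicator_of_mem (by exact hp)]
    · rw [Set.indicator_of_notMem (by exact hp), Set.indicator_of_notMem (by exact hp)]
  rw [e]
  have n1 : Measurable (fun p : X × X × X => p.1) := measurable_fst
  have n2 : Measurable (fun p : X × X × X => p.2.1) := measurable_fst.comp measurable_snd
  have n3 : Measurable (fun p : X × X × X => p.2.2) := measurable_snd.comp measurable_snd
  have h1 : Measurable fun p : X × X × X => phi_7111 θ h g k p.1 p.2.1 :=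
    (phi_meas_7111 geo g k).comp (n1.prodMk n2)
  have h2 : Measurable fun p : X × X × X => phi_7111 θ h g k p.1 p.2.2 :=
    (phi_meas_7111 geo g k).comp (n1.prodMk n3)
  refine Measurable.mul h1 (Measurable.indicator h2 ?_)
  exact measurableSet_le (geo.mh.comp n3) (geo.mh.comp n2)

theorem sq_7111 {θ h : X → ℝ} {s : Measure X} [IsFiniteMeasure s] (geo : Geo θ h) (g k : ℕ) (x : X) :
    (∫⁻ y, phi_7111 θ h g k x y ∂s) ^ 2 ≤ 2 * ∫⁻ y, ∫⁻ y', psi_7111 θ h g k x y y' ∂s ∂s := by
  have mx : Measurable fun y => phi_7111 θ h g k x y :=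
    (phi_meas_7111 geo g k).comp (measurable_const.prodMk measurable_id)
  have mpsi : Measurable fun p : X × X => psi_7111 θ h g k x p.1 p.2 :=
    (psi_meas_7111 geo g k).comp (measurable_const.prodMk (measurable_fst.prodMk measurable_snd))
  have h1 : (∫⁻ y, phi_7111 θ h g k x y ∂s) ^ 2 =
      ∫⁻ y, ∫⁻ y', phi_7111 θ h g k x y * phi_7111 θ h g k x y' ∂s ∂s := by
    rw [pow_two, ← lintegral_mul_const _ mx]
    refine lintegral_congr fun y => ?_
    rw [lintegral_const_mul _ mx]
  have h2 : ∀ y y', phi_7111 θ h g k x y * phi_7111 θ h g k x y' ≤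
      psi_7111 θ h g k x y y' + psi_7111 θ h g k x y' y := by
    intro y y'
    rcases le_total (h y') (h y) with hh | hh
    · refine le_trans (le_of_eq ?_) le_self_add
      unfold psi_7111
      rw [Set.indicator_of_mem (by exact hh)]
    · refine le_trans (le_of_eq ?_) le_add_self
      unfold psi_7111
      rw [Set.indicator_of_mem (by exact hh)]
      ring
  rw [h1]
  calc ∫⁻ y, ∫⁻ y', phi_7111 θ h g k x y * phi_7111 θ h g k x y' ∂s ∂s
      ≤ ∫⁻ y, ∫⁻ y', (psi_7111 θ h g k x y y' + psi_7111 θ h g k x y' y) ∂s ∂s :=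
        lintegral_mono fun y => lintegral_mono fun y' => h2 y y'
    _ = ∫⁻ y, (∫⁻ y', psi_7111 θ h g k x y y' ∂s + ∫⁻ y', psi_7111 θ h g k x y' y ∂s) ∂s := by
        refine lintegral_congr fun y => ?_
        rw [lintegral_add_left]
        exact mpsi.comp (measurable_const.prodMk measurable_id)
    _ = ∫⁻ y, ∫⁻ y', psi_7111 θ h g k x y y' ∂s ∂s +
          ∫⁻ y, ∫⁻ y', psi_7111 θ h g k x y' y ∂s ∂s := by
        rw [lintegral_add_left]
        exact mpsi.lintegral_prod_right'
    _ = 2 * ∫⁻ y, ∫⁻ y', psi_7111 θ h g k x y y' ∂s ∂s := by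
        rw [two_mul]
        congr 1
        rw [lintegral_lintegral_swap]
        exact (mpsi.comp measurable_swap).aemeasurable

theorem main_7111 (A : ℝ) (hA : 0 ≤ A) (θ h : X → ℝ) (s w : Measure X) [IsFiniteMeasure s]
    [IsFiniteMeasure w] (geo : Geo θ h) (a2 : A2 θ h s w A) (g k : ℕ) :
    ∫⁻ x in Q θ h g k, (∫⁻ y, phi_7111 θ h g k x y ∂s) ^ 2 ∂w ≤
      ENNReal.ofReal (2 * (35651584 * A)) * s (Q θ h g k) := by
  have mpsi := psi_meas_7111 geo g k
  have step1 : ∫⁻ x in Q θ h g k, (∫⁻ y, phi_7111 θ h g k x y ∂s) ^ 2 ∂w ≤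
      ∫⁻ x, 2 * ∫⁻ y, ∫⁻ y', psi_7111 θ h g k x y y' ∂s ∂s ∂w :=
    (setLIntegral_le_lintegral _ _).trans (lintegral_mono fun x => sq_7111 geo g k x)
  refine step1.trans ?_
  have mI : Measurable fun p : X × X => ∫⁻ y', psi_7111 θ h g k p.1 p.2 y' ∂s := by
    have n1 : Measurable (fun q : (X × X) × X => q.1.1) := measurable_fst.comp measurable_fst
    have n2 : Measurable (fun q : (X × X) × X => q.1.2) := measurable_snd.comp measurable_fst
    have n3 : Measurable (fun q : (X × X) × X => q.2) := measurable_snd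
    have : Measurable fun q : (X × X) × X => psi_7111 θ h g k q.1.1 q.1.2 q.2 :=
      mpsi.comp (n1.prodMk (n2.prodMk n3))
    exact this.lintegral_prod_right'
  rw [lintegral_const_mul _ mI.lintegral_prod_right']
  rw [lintegral_lintegral_swap mI.aemeasurable]
  have step2 : ∀ y, ∫⁻ x, ∫⁻ y', psi_7111 θ h g k x y y' ∂s ∂w ≤
      (Q θ h g k).indicator (fun _ => ENNReal.ofReal (35651584 * A)) y := by
    intro y
    rw [lintegral_lintegral_swap]
    swap
    · exact (mpsi.comp ((measurable_fst).prodMk ((measurable_const).prodMk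
        measurable_snd))).aemeasurable
    by_cases hy : y ∈ Q θ h g k
    · rw [Set.indicator_of_mem hy]
      have hyp := geo.h0 y
      -- pointwise bound in y'
      have step3 : ∀ y', ∫⁻ x, psi_7111 θ h g k x y y' ∂w ≤
          ENNReal.ofReal (1 / (h y) ^ 2) *
          ({y' | h y' ≤ h y ∧ nd (θ y - θ y') ≤ 8 * h y}.indicator (fun y' =>
            ENNReal.ofReal (1 / (h y') ^ 2) *
              w {x | h x ≤ h y' ∧ nd (θ x - θ y') ≤ 4 * h y'}) y') := by
        intro y'
        have hB : MeasurableSet {x | h x ≤ h y' ∧ nd (θ x - θ y') ≤ 4 * h y'} :=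
          (measurableSet_le geo.mh measurable_const).inter
            (measurableSet_le (nd_meas_7111.comp (geo.mθ.sub_const _)) measurable_const)
        by_cases hy' : h y' ≤ h y ∧ nd (θ y - θ y') ≤ 8 * h y
        · rw [Set.indicator_of_mem (by exact hy')]
          calc ∫⁻ x, psi_7111 θ h g k x y y' ∂w
              ≤ ∫⁻ x, {x | h x ≤ h y' ∧ nd (θ x - θ y') ≤ 4 * h y'}.indicator (fun _ =>
                  ENNReal.ofReal (1 / (h y) ^ 2) * ENNReal.ofReal (1 / (h y') ^ 2)) x ∂w := by
                refine lintegral_mono fun x => ?_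
                by_cases hx : h x ≤ h y' ∧ nd (θ x - θ y') ≤ 4 * h y'
                · rw [Set.indicator_of_mem (by exact hx)]
                  unfold psi_7111
                  refine mul_le_mul' ?_ ?_
                  · unfold phi_7111
                    exact Set.indicator_le_self _ _ _
                  · refine (Set.indicator_le_self _ _ _).trans ?_
                    unfold phi_7111
                    exact Set.indicator_le_self _ _ _
                · have : phi_7111 θ h g k x y' = 0 := by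
                    unfold phi_7111
                    rw [Set.indicator_of_notMem]
                    exact fun hc => hx hc.2
                  unfold psi_7111
                  simp [this, Set.indicator]
            _ = _ := by
                rw [lintegral_indicator hB, setLIntegral_const]
                ring
        · rw [Set.indicator_of_notMem (by exact hy')]
          simp only [mul_zero, nonpos_iff_eq_zero]
          rw [← lintegral_zero (μ := w)]
          refine lintegral_congr fun x => ?_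
          unfold psi_7111
          by_cases h1 : h y' ≤ h y
          · by_cases h2 : nd (θ x - θ y) ≤ 4 * h y
            · have h3 : ¬ nd (θ x - θ y') ≤ 4 * h y' := by
                intro h3
                refine hy' ⟨h1, ?_⟩
                have := nd_tri_7111 (θ x) (θ y) (θ y')
                linarith
              have : phi_7111 θ h g k x y' = 0 := by
                unfold phi_7111
                rw [Set.indicator_of_notMem]
                exact fun hc => h3 hc.2.2
              simp [this, Set.indicator]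
            · have : phi_7111 θ h g k x y = 0 := by
                unfold phi_7111
                rw [Set.indicator_of_notMem]
                exact fun hc => h2 hc.2.2
              simp [this]
          · rw [Set.indicator_of_notMem (by exact h1)]
            simp
      refine (lintegral_mono step3).trans ?_
      rw [lintegral_const_mul']
      swap
      · exact ENNReal.ofReal_ne_top
      rw [lintegral_indicator]
      swap
      · exact (measurableSet_le geo.mh measurable_const).inter
          (measurableSet_le (nd_meas_7111.comp (measurable_const.sub geo.mθ)) measurable_const)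
      refine (mul_le_mul' le_rfl (G_7111 hA geo a2 y)).trans ?_
      rw [← ENNReal.ofReal_mul (by positivity)]
      refine ENNReal.ofReal_le_ofReal (le_of_eq ?_)
      field_simp
    · rw [Set.indicator_of_notMem hy]
      simp only [nonpos_iff_eq_zero]
      rw [← lintegral_zero (μ := s)]
      refine lintegral_congr fun y' => ?_
      rw [← lintegral_zero (μ := w)]
      refine lintegral_congr fun x => ?_
      unfold psi_7111
      have : phi_7111 θ h g k x y = 0 := by
        unfold phi_7111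
        rw [Set.indicator_of_notMem]
        exact fun hc => hy hc.1
      simp [this]
  refine (mul_le_mul' le_rfl (lintegral_mono step2)).trans ?_
  rw [lintegral_indicator (measurableSet_Q geo g k), setLIntegral_const, ← mul_assoc,
    ENNReal.ofReal_mul (by norm_num : (0 : ℝ) ≤ 2)]
  simp

theorem lemmaN (A : ℝ) (hA : 0 ≤ A) : ∃ CN : ℝ, 0 ≤ CN ∧
    ∀ (θ h : X → ℝ) (s w : Measure X) [IsFiniteMeasure s] [IsFiniteMeasure w],
    Geo θ h → A2 θ h s w A → ∀ g k : ℕ, k < 2 ^ g →
    ∫⁻ x in Q θ h g k, (∫⁻ y in {y | y ∈ Q θ h g k ∧ h x ≤ h y ∧ nd (θ x - θ y) ≤ 4 * h y},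
      ENNReal.ofReal (1 / (h y) ^ 2) ∂s) ^ 2 ∂w ≤ ENNReal.ofReal CN * s (Q θ h g k) := by
  refine ⟨2 * (35651584 * A), by positivity, ?_⟩
  intro θ h s w _ _ geo a2 g k hk
  have := main_7111 A hA θ h s w geo a2 g k
  refine le_trans (le_of_eq ?_) this
  refine lintegral_congr fun x => ?_
  congr 1
  unfold phi_7111
  rw [lintegral_indicator]
  refine MeasurableSet.inter (measurableSet_Q geo g k) (MeasurableSet.inter ?_ ?_)
  · exact measurableSet_le measurable_const geo.mh
  · exact measurableSet_le (nd_meas_7111.comp (measurable_const.sub geo.mθ)) (geo.mh.const_mul 4)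

end

end Pool.Agent.Helper807.BT
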