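import Pool.Agent.Helper807.BT.Base
import Pool.Agent.Helper807.BT.Bas
import Pool.Agent.Helper807.BT.Geo1
import Pool.Agent.Helper807.BT.Geo2
import Pool.Agent.Helper807.BT.LemN

set_option autoImplicit false

open MeasureTheory Set
open scoped ENNReal

namespace Pool.Agent.Helper807.BT

noncomputable section

variable {X : Type*} [MeasurableSpace X]


omit [MeasurableSpace X] in
theorem nd_eq_abs_7112 {t : ℝ} (ht : |t| < 1 / 2) : nd t = |t| := by
  unfold nd
  have h1 : round t = 0 := by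
    rw [round_eq_zero_iff]
    have := abs_lt.1 ht
    exact ⟨by linarith, by linarith⟩
  rw [h1]; simp

theorem col_spec_7112 {θ h : X → ℝ} (geo : Geo θ h) (n : ℕ) (x : X) :
    (col θ n x : ℝ) ≤ 2 ^ n * θ x ∧ 2 ^ n * θ x < col θ n x + 1 := by
  unfold col
  exact ⟨Nat.floor_le (by have := geo.θ0 x; positivity), Nat.lt_floor_add_one _⟩

theorem col_close_7112 {θ h : X → ℝ} (geo : Geo θ h) (n : ℕ) (x y : X)
    (hxy : col θ n x = col θ n y) : |θ x - θ y| < (1 / 2 : ℝ) ^ n := by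
  obtain ⟨h1, h2⟩ := col_spec_7112 geo n x
  obtain ⟨h3, h4⟩ := col_spec_7112 geo n y
  rw [hxy] at h1 h2
  have hp : (0 : ℝ) < 2 ^ n := by positivity
  have h5 : |θ x - θ y| * 2 ^ n < 1 := by
    rw [← abs_of_pos hp, ← abs_mul, abs_lt]
    constructor <;> nlinarith
  rw [one_div, inv_pow, ← one_div, lt_div_iff₀ hp]
  exact h5

theorem col_far_7112 {θ h : X → ℝ} (geo : Geo θ h) (l k : ℕ) (x y : X)
    (hx : x ∈ Gd θ h l k) (hy : col θ l y ≠ k) : 8 * h x ≤ |θ x - θ y| := by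
  obtain ⟨-, h1, h2⟩ := hx
  obtain ⟨h3, h4⟩ := col_spec_7112 geo l y
  have hp : (0 : ℝ) < 2 ^ l := by positivity
  rcases lt_or_gt_of_ne hy with h5 | h5
  · have h6 : (col θ l y : ℝ) + 1 ≤ k := by exact_mod_cast h5
    have h7 : θ y < (k : ℝ) / 2 ^ l := by
      rw [lt_div_iff₀ hp]; linarith
    have h8 := le_abs_self (θ x - θ y)
    linarith
  · have h6 : (k : ℝ) + 1 ≤ (col θ l y : ℝ) := by exact_mod_cast h5
    have h7 : ((k : ℝ) + 1) / 2 ^ l ≤ θ y := by
      rw [div_le_iff₀ hp]; linarith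
    have h8 := neg_abs_le (θ x - θ y)
    linarith

theorem ptw_7112 {θ h : X → ℝ} (geo : Geo θ h) {g l k k' u : ℕ} (hg : 4 ≤ g) (hgu : g ≤ u)
    (hul : u + 1 ≤ l) (hk : k' / 2 ^ (l - g) = k) {x y : X} (hx : x ∈ Gd θ h l k')
    (hy : y ∈ Q θ h u (k' / 2 ^ (l - u))) (hy' : y ∉ Q θ h (u + 1) (k' / 2 ^ (l - (u + 1)))) :
    (4 : ℝ) ^ (u + 1) ≤ 1024 * (-(K θ h x y).re) +
      ({y | y ∈ Q θ h g k ∧ h x ≤ h y ∧ nd (θ x - θ y) ≤ 4 * h y} : Set X).indicator
        (fun y => 1024 * (K θ h x y).re + 4 * (1 / (h y) ^ 2)) y := by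
  have hxQ : x ∈ Q θ h l k' := hx.1
  have hxcol : col θ l x = k' := hxQ.1
  have hxh : h x ≤ (1 / 2 : ℝ) ^ l := hxQ.2
  have hx0 := geo.h0 x
  have hx1 := geo.h1 x
  have hy0 := geo.h0 y
  have hy1 := geo.h1 y
  have hcolu : col θ u x = k' / 2 ^ (l - u) := by
    rw [← hxcol]; exact (col_div geo (by omega) x).symm
  have hcolu1 : col θ (u + 1) x = k' / 2 ^ (l - (u + 1)) := by
    rw [← hxcol]; exact (col_div geo (by omega) x).symm
  have hycol : col θ u y = col θ u x := by rw [hcolu]; exact hy.1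
  have hyh : h y ≤ (1 / 2 : ℝ) ^ u := hy.2
  have hnot : col θ (u + 1) y = col θ (u + 1) x → (1 / 2 : ℝ) ^ (u + 1) < h y := by
    intro h1
    by_contra h2
    push Not at h2
    exact hy' ⟨by rw [h1, hcolu1], h2⟩
  have hclose : |θ x - θ y| < (1 / 2 : ℝ) ^ u := col_close_7112 geo u x y hycol.symm
  have hu16 : (1 / 2 : ℝ) ^ u ≤ 1 / 16 := by
    calc (1 / 2 : ℝ) ^ u ≤ (1 / 2 : ℝ) ^ 4 :=
          pow_le_pow_of_le_one (by norm_num) (by norm_num) (by omega)
      _ = 1 / 16 := by norm_num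
  have hnd : nd (θ x - θ y) = |θ x - θ y| := nd_eq_abs_7112 (by linarith)
  have hyg : y ∈ Q θ h g k := by
    have h1 := Q_anti geo hgu (k' / 2 ^ (l - u)) hy
    rw [Nat.div_div_eq_div_mul, ← pow_add] at h1
    rw [← hk]
    convert h1 using 3
    congr 1
    omega
  have h4u : (4 : ℝ) ^ (u + 1) * ((1 / 2 : ℝ) ^ u) ^ 2 = 4 := by
    rw [← pow_mul, mul_comm u 2, pow_mul, pow_succ]
    norm_num
    rw [mul_right_comm, ← mul_pow]
    norm_num
  by_cases hH : h x ≤ h y ∧ nd (θ x - θ y) ≤ 4 * h y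
  · rw [Set.indicator_of_mem (show y ∈ {y | y ∈ Q θ h g k ∧ h x ≤ h y ∧
      nd (θ x - θ y) ≤ 4 * h y} from ⟨hyg, hH⟩)]
    have h1 : (4 : ℝ) ^ (u + 1) * (h y) ^ 2 ≤ 4 := by
      calc (4 : ℝ) ^ (u + 1) * (h y) ^ 2 ≤ (4 : ℝ) ^ (u + 1) * ((1 / 2 : ℝ) ^ u) ^ 2 := by
            gcongr
        _ = 4 := h4u
    have h2 : (4 : ℝ) ^ (u + 1) ≤ 4 * (1 / (h y) ^ 2) := by
      rw [mul_one_div, le_div_iff₀ (by positivity)]
      exact h1
    linarith
  · rw [Set.indicator_of_notMem (fun hm => hH hm.2)]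
    have hfar : col θ l y ≠ k' → 8 * h x ≤ |θ x - θ y| := col_far_7112 geo l k' x y hx
    have hin : col θ l y = k' → |θ x - θ y| < h y ∧ h x < h y := by
      intro h1
      have h2 : col θ (u + 1) y = col θ (u + 1) x := by
        rw [← col_div geo hul y, ← col_div geo hul x, h1, hxcol]
      have h3 := hnot h2
      have h4 : (1 / 2 : ℝ) ^ l ≤ (1 / 2 : ℝ) ^ (u + 1) :=
        pow_le_pow_of_le_one (by norm_num) (by norm_num) hul
      have h5 := col_close_7112 geo l x y (by rw [h1, hxcol])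
      exact ⟨by linarith, by linarith⟩
    have h4 : 4 * h y ≤ |θ x - θ y| := by
      by_contra h5
      push Not at h5
      have h6 : h y < h x := by
        by_contra h7
        push Not at h7
        exact hH ⟨h7, by rw [hnd]; linarith⟩
      by_cases h8 : col θ l y = k'
      · have := (hin h8).2; linarith
      · have := hfar h8; linarith
    have h8 : 8 * h x ≤ |θ x - θ y| := by
      by_cases h9 : col θ l y = k'
      · have := (hin h9).1; linarith
      · exact hfar h9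
    have hkap := kap_neg_re (u := (θ x, h x)) (v := (θ y, h y)) hx0 hx1 hy0 hy1
      (by simp only; rw [hnd]; linarith) (by simp only; rw [hnd]; exact h8)
      (by simp only; rw [hnd]; exact h4)
    have hden := den_le (u := (θ x, h x)) (v := (θ y, h y)) hx0.le hx1 hy0.le hy1
    have hdenpos : 0 < ‖den (θ x, h x) (θ y, h y)‖ :=
      lt_of_lt_of_le hx0 (den_ge_left (u := (θ x, h x)) (v := (θ y, h y)) hx0.le hx1 hy0.le hy1)
    simp only [hnd] at hden
    have hpi : Real.pi ≤ 3.15 := by have := Real.pi_lt_d2; linarith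
    have hden2 : ‖den (θ x, h x) (θ y, h y)‖ ≤ 7 * (1 / 2 : ℝ) ^ u := by
      have h10 : 2 * Real.pi * |θ x - θ y| ≤ 2 * 3.15 * |θ x - θ y| := by gcongr
      have h11 : (0 : ℝ) < (1 / 2 : ℝ) ^ u := by positivity
      linarith
    have h12 : (4 : ℝ) ^ (u + 1) ≤ 196 * (‖den (θ x, h x) (θ y, h y)‖ ^ 2)⁻¹ := by
      rw [← div_eq_mul_inv, le_div_iff₀ (by positivity)]
      calc (4 : ℝ) ^ (u + 1) * ‖den (θ x, h x) (θ y, h y)‖ ^ 2
          ≤ (4 : ℝ) ^ (u + 1) * (7 * (1 / 2 : ℝ) ^ u) ^ 2 := by gcongr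
        _ = 49 * ((4 : ℝ) ^ (u + 1) * ((1 / 2 : ℝ) ^ u) ^ 2) := by ring
        _ = 196 := by rw [h4u]; norm_num
    have h13 : (0 : ℝ) ≤ (‖den (θ x, h x) (θ y, h y)‖ ^ 2)⁻¹ := by positivity
    have h14 : K θ h x y = kap (θ x, h x) (θ y, h y) := rfl
    rw [h14]
    linarith

theorem meas_nd_7112 {θ h : X → ℝ} (geo : Geo θ h) :
    Measurable (fun p : X × X => nd (θ p.1 - θ p.2)) := by
  unfold nd
  have h1 : Measurable (fun p : X × X => θ p.1 - θ p.2) :=
    (geo.mθ.comp measurable_fst).sub (geo.mθ.comp measurable_snd)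
  have h2 : Measurable (fun t : ℝ => |t - round t|) := by
    have h3 : (fun t : ℝ => |t - round t|) = fun t : ℝ => |t - ((⌊t + 1 / 2⌋ : ℤ) : ℝ)| := by
      funext t; rw [round_eq]
    rw [h3]
    have h4 : Measurable (fun t : ℝ => ((⌊t + 1 / 2⌋ : ℤ) : ℝ)) :=
      measurable_from_top.comp (Int.measurable_floor.comp (measurable_id.add_const _))
    exact (measurable_id.sub h4).abs
  exact h2.comp h1

theorem measSet_H_7112 {θ h : X → ℝ} (geo : Geo θ h) (g k : ℕ) (x : X) :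
    MeasurableSet {y | y ∈ Q θ h g k ∧ h x ≤ h y ∧ nd (θ x - θ y) ≤ 4 * h y} := by
  have h1 : Measurable (fun y : X => nd (θ x - θ y)) :=
    (meas_nd_7112 geo).comp (measurable_const.prodMk measurable_id)
  exact (measurableSet_Q geo g k).inter
    ((measurableSet_le measurable_const geo.mh).inter
      (measurableSet_le h1 (geo.mh.const_mul 4)))

theorem measK_7112 {θ h : X → ℝ} (geo : Geo θ h) (x : X) : Measurable (fun y => K θ h x y) := by
  have h1 : Measurable (fun y : X => (x, y)) := measurable_prodMk_left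
  have h2 := (measurable_K geo).comp h1
  exact h2

theorem intK_7112 {θ h : X → ℝ} (geo : Geo θ h) (s : Measure X) [IsFiniteMeasure s] (x : X) :
    Integrable (fun y => K θ h x y) s := by
  refine Integrable.of_bound (measK_7112 geo x).aestronglyMeasurable (((h x) ^ 2)⁻¹) ?_
  filter_upwards with y
  exact norm_K_le_left geo x y

theorem inth_7112 {θ h : X → ℝ} (geo : Geo θ h) (s : Measure X) [IsFiniteMeasure s] (x : X)
    (g k : ℕ) : IntegrableOn (fun y => 1 / (h y) ^ 2)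
      {y | y ∈ Q θ h g k ∧ h x ≤ h y ∧ nd (θ x - θ y) ≤ 4 * h y} s := by
  refine Measure.integrableOn_of_bounded (M := 1 / (h x) ^ 2) (measure_ne_top _ _)
    ((measurable_const.div (geo.mh.pow_const 2)).aestronglyMeasurable) ?_
  rw [ae_restrict_iff' (measSet_H_7112 geo g k x)]
  filter_upwards with y hy
  have h0 := geo.h0 x
  have h1 := geo.h0 y
  rw [Real.norm_of_nonneg (by positivity)]
  exact one_div_le_one_div_of_le (by positivity) (pow_le_pow_left₀ h0.le hy.2.1 2)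

theorem box_7112 {θ h : X → ℝ} (geo : Geo θ h) (s : Measure X) [IsFiniteMeasure s] (x : X)
    (g k : ℕ) (B : Set X) (hB : MeasurableSet B) :
    IntegrableOn (fun y => 1024 * (-(K θ h x y).re) +
      ({y | y ∈ Q θ h g k ∧ h x ≤ h y ∧ nd (θ x - θ y) ≤ 4 * h y} : Set X).indicator
        (fun y => 1024 * (K θ h x y).re + 4 * (1 / (h y) ^ 2)) y) B s ∧
    |∫ y in B, (1024 * (-(K θ h x y).re) +
      ({y | y ∈ Q θ h g k ∧ h x ≤ h y ∧ nd (θ x - θ y) ≤ 4 * h y} : Set X).indicator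
        (fun y => 1024 * (K θ h x y).re + 4 * (1 / (h y) ^ 2)) y) ∂s| ≤
      1024 * ‖Pop θ h s (B.indicator 1) x‖ + 1028 *
        ∫ y in {y | y ∈ Q θ h g k ∧ h x ≤ h y ∧ nd (θ x - θ y) ≤ 4 * h y}, 1 / (h y) ^ 2 ∂s := by
  set H : Set X := {y | y ∈ Q θ h g k ∧ h x ≤ h y ∧ nd (θ x - θ y) ≤ 4 * h y} with hH
  have hHm : MeasurableSet H := measSet_H_7112 geo g k x
  have hK := intK_7112 geo s x
  have hKre : Integrable (fun y => (K θ h x y).re) s := hK.re
  have hh : IntegrableOn (fun y => 1 / (h y) ^ 2) H s := inth_7112 geo s x g k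
  have hG : IntegrableOn (fun y => 1024 * (K θ h x y).re + 4 * (1 / (h y) ^ 2)) H s :=
    (hKre.integrableOn.const_mul 1024).add (hh.const_mul 4)
  have hGi : Integrable (H.indicator (fun y => 1024 * (K θ h x y).re + 4 * (1 / (h y) ^ 2))) s :=
    (integrable_indicator_iff hHm).2 hG
  have hF : Integrable (fun y => 1024 * (-(K θ h x y).re)) s := hKre.neg.const_mul 1024
  refine ⟨(hF.add hGi).integrableOn, ?_⟩
  rw [integral_add hF.integrableOn hGi.integrableOn]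
  have hN0 : 0 ≤ ∫ y in H, 1 / (h y) ^ 2 ∂s := integral_nonneg fun y => by positivity
  have h1 : |∫ y in B, 1024 * (-(K θ h x y).re) ∂s| ≤ 1024 * ‖Pop θ h s (B.indicator 1) x‖ := by
    rw [integral_const_mul, integral_neg, abs_mul, abs_neg]
    have e1 : Pop θ h s (B.indicator 1) x = ∫ y in B, K θ h x y ∂s := by
      unfold Pop
      rw [← integral_indicator hB]
      congr 1
      funext y
      by_cases hy : y ∈ B <;> simp [hy]
    have e2 : ∫ y in B, (K θ h x y).re ∂s = (∫ y in B, K θ h x y ∂s).re :=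
      integral_re (𝕜 := ℂ) hK.integrableOn
    rw [e1, e2]
    have := Complex.abs_re_le_norm (∫ y in B, K θ h x y ∂s)
    rw [abs_of_pos (by norm_num : (0 : ℝ) < 1024)]
    linarith
  have h2 : |∫ y in B, H.indicator (fun y => 1024 * (K θ h x y).re + 4 * (1 / (h y) ^ 2)) y ∂s| ≤
      1028 * ∫ y in H, 1 / (h y) ^ 2 ∂s := by
    have hGn : Integrable (H.indicator (fun y => 1028 * (1 / (h y) ^ 2))) s :=
      (integrable_indicator_iff hHm).2 (hh.const_mul 1028)
    calc |∫ y in B, H.indicator (fun y => 1024 * (K θ h x y).re + 4 * (1 / (h y) ^ 2)) y ∂s|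
        ≤ ∫ y in B, |H.indicator (fun y => 1024 * (K θ h x y).re + 4 * (1 / (h y) ^ 2)) y| ∂s :=
          abs_integral_le_integral_abs
      _ ≤ ∫ y in B, H.indicator (fun y => 1028 * (1 / (h y) ^ 2)) y ∂s := by
          refine integral_mono hGi.integrableOn.abs hGn.integrableOn ?_
          intro y
          simp only
          by_cases hy : y ∈ H
          · rw [Set.indicator_of_mem hy, Set.indicator_of_mem hy]
            have h3 := norm_K_le_right geo x y
            have h4 := Complex.abs_re_le_norm (K θ h x y)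
            have h5 : (0 : ℝ) ≤ 1 / (h y) ^ 2 := by positivity
            rw [← one_div] at h3
            calc |1024 * (K θ h x y).re + 4 * (1 / h y ^ 2)|
                ≤ |1024 * (K θ h x y).re| + |4 * (1 / h y ^ 2)| := abs_add_le _ _
              _ = 1024 * |(K θ h x y).re| + 4 * (1 / h y ^ 2) := by
                  rw [abs_mul, abs_of_nonneg (by positivity : (0:ℝ) ≤ 4 * (1 / h y ^ 2))]
                  norm_num
              _ ≤ 1028 * (1 / h y ^ 2) := by linarith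
          · rw [Set.indicator_of_notMem hy, Set.indicator_of_notMem hy]
            simp
      _ ≤ ∫ y, H.indicator (fun y => 1028 * (1 / (h y) ^ 2)) y ∂s := by
          refine setIntegral_le_integral hGn ?_
          filter_upwards with y
          exact Set.indicator_nonneg (fun y _ => by positivity) y
      _ = 1028 * ∫ y in H, 1 / (h y) ^ 2 ∂s := by
          rw [integral_indicator hHm, integral_const_mul]
  calc _ ≤ _ := abs_add_le _ _
    _ ≤ _ := add_le_add h1 h2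

theorem PG_bound_7112 {θ h : X → ℝ} (geo : Geo θ h) (s : Measure X) [IsFiniteMeasure s]
    {g l k k' : ℕ} (hg : 4 ≤ g) (hgl : g ≤ l) (hk : k' / 2 ^ (l - g) = k) {x : X}
    (hx : x ∈ Gd θ h l k') :
    PGa (ms θ h s) g l k' ≤ 1024 * ‖Pop θ h s ((Q θ h g k).indicator 1) x‖ +
      1024 * ‖Pop θ h s ((Q θ h l k').indicator 1) x‖ + 2056 *
        ∫ y in {y | y ∈ Q θ h g k ∧ h x ≤ h y ∧ nd (θ x - θ y) ≤ 4 * h y}, 1 / (h y) ^ 2 ∂s := by
  set ψ : X → ℝ := fun y => 1024 * (-(K θ h x y).re) +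
      ({y | y ∈ Q θ h g k ∧ h x ≤ h y ∧ nd (θ x - θ y) ≤ 4 * h y} : Set X).indicator
        (fun y => 1024 * (K θ h x y).re + 4 * (1 / (h y) ^ 2)) y with hψ
  have hbox := box_7112 geo s x g k
  set Φ : ℕ → ℝ := fun t => ∫ y in Q θ h t (k' / 2 ^ (l - t)), ψ y ∂s with hΦ
  have hterm : ∀ t ∈ Finset.Ioc g l, (4 : ℝ) ^ t *
      (ms θ h s (t - 1) (k' / 2 ^ (l - t + 1)) - ms θ h s t (k' / 2 ^ (l - t))) ≤
      Φ (t - 1) - Φ t := by
    intro t ht
    rw [Finset.mem_Ioc] at ht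
    obtain ⟨u, rfl⟩ : ∃ u, t = u + 1 := ⟨t - 1, by omega⟩
    have e1 : l - (u + 1) + 1 = l - u := by omega
    simp only [Nat.add_sub_cancel, e1]
    set A := Q θ h u (k' / 2 ^ (l - u)) with hA
    set B := Q θ h (u + 1) (k' / 2 ^ (l - (u + 1))) with hB
    have hAm : MeasurableSet A := measurableSet_Q geo _ _
    have hBm : MeasurableSet B := measurableSet_Q geo _ _
    have hBA : B ⊆ A := by
      have h1 := Q_anti geo (Nat.le_succ u) (k' / 2 ^ (l - (u + 1)))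
      rw [Nat.div_div_eq_div_mul, ← pow_add] at h1
      have e2 : l - (u + 1) + (u.succ - u) = l - u := by omega
      rw [e2] at h1
      exact h1
    have h1 : ms θ h s u (k' / 2 ^ (l - u)) - ms θ h s (u + 1) (k' / 2 ^ (l - (u + 1))) =
        (s (A \ B)).toReal := by
      unfold ms
      rw [measure_sdiff hBA hBm.nullMeasurableSet (measure_ne_top _ _),
        ENNReal.toReal_sub_of_le (measure_mono hBA) (measure_ne_top _ _)]
    have h2 : Φ u - Φ (u + 1) = ∫ y in A \ B, ψ y ∂s := by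
      rw [setIntegral_sdiff hBm (hbox A hAm).1 hBA]
    rw [h1, h2]
    calc (4 : ℝ) ^ (u + 1) * (s (A \ B)).toReal = ∫ y in A \ B, (4 : ℝ) ^ (u + 1) ∂s := by
          rw [setIntegral_const, smul_eq_mul, mul_comm]
          rfl
      _ ≤ ∫ y in A \ B, ψ y ∂s := by
          refine setIntegral_mono_on (integrableOn_const (measure_ne_top _ _))
            ((hbox A hAm).1.mono_set sdiff_subset) (hAm.diff hBm) ?_
          intro y hy
          exact ptw_7112 geo hg (by omega) ht.2 hk hx hy.1 hy.2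
  have htel : ∀ m, g ≤ m → ∑ t ∈ Finset.Ioc g m, (Φ (t - 1) - Φ t) = Φ g - Φ m := by
    intro m hm
    induction m, hm using Nat.le_induction with
    | base => simp
    | succ n hn ih =>
      rw [Finset.sum_Ioc_succ_top hn, ih]
      simp
  have hsum : PGa (ms θ h s) g l k' ≤ Φ g - Φ l := by
    rw [← htel l hgl]
    exact Finset.sum_le_sum hterm
  have e1 : Φ g = ∫ y in Q θ h g k, ψ y ∂s := by
    rw [hΦ]; simp only [hk]
  have e2 : Φ l = ∫ y in Q θ h l k', ψ y ∂s := by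
    rw [hΦ]; simp
  have b1 := (abs_le.1 (hbox (Q θ h g k) (measurableSet_Q geo _ _)).2).2
  have b2 := (abs_le.1 (hbox (Q θ h l k') (measurableSet_Q geo _ _)).2).1
  rw [e1, e2] at hsum
  linarith

theorem sq3_7112 (a b c : ℝ) : (a + b + c) ^ 2 ≤ 3 * (a ^ 2 + b ^ 2 + c ^ 2) := by
  nlinarith [sq_nonneg (a - b), sq_nonneg (b - c), sq_nonneg (a - c)]

theorem PG_bound2_7112 {θ h : X → ℝ} (geo : Geo θ h) (s : Measure X) [IsFiniteMeasure s]
    {g l k k' : ℕ} (hg : 4 ≤ g) (hgl : g ≤ l) (hk : k' / 2 ^ (l - g) = k)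
    (hPG : 0 ≤ PGa (ms θ h s) g l k') {x : X}
    (hx : x ∈ Gd θ h l k') :
    ENNReal.ofReal (PGa (ms θ h s) g l k' ^ 2) ≤ ENNReal.ofReal (3 * 2056 ^ 2) *
      (‖Pop θ h s ((Q θ h g k).indicator 1) x‖ₑ ^ 2 +
        (‖Pop θ h s ((Q θ h l k').indicator 1) x‖ₑ ^ 2 +
        (∫⁻ y in {y | y ∈ Q θ h g k ∧ h x ≤ h y ∧ nd (θ x - θ y) ≤ 4 * h y},
          ENNReal.ofReal (1 / (h y) ^ 2) ∂s) ^ 2)) := by
  have h1 := PG_bound_7112 geo s hg hgl hk hx
  set N := ∫ y in {y | y ∈ Q θ h g k ∧ h x ≤ h y ∧ nd (θ x - θ y) ≤ 4 * h y},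
    1 / (h y) ^ 2 ∂s with hN
  have hN0 : 0 ≤ N := integral_nonneg fun y => by positivity
  have h2 : ∫⁻ y in {y | y ∈ Q θ h g k ∧ h x ≤ h y ∧ nd (θ x - θ y) ≤ 4 * h y},
          ENNReal.ofReal (1 / (h y) ^ 2) ∂s = ENNReal.ofReal N := by
    rw [hN, ofReal_integral_eq_lintegral_ofReal (inth_7112 geo s x g k)]
    filter_upwards with y
    positivity
  rw [h2]
  set a := ‖Pop θ h s ((Q θ h g k).indicator 1) x‖ with ha
  set b := ‖Pop θ h s ((Q θ h l k').indicator 1) x‖ with hb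
  have ha0 : 0 ≤ a := norm_nonneg _
  have hb0 : 0 ≤ b := norm_nonneg _
  have ea : ‖Pop θ h s ((Q θ h g k).indicator 1) x‖ₑ = ENNReal.ofReal a :=
    (ofReal_norm _).symm
  have eb : ‖Pop θ h s ((Q θ h l k').indicator 1) x‖ₑ = ENNReal.ofReal b :=
    (ofReal_norm _).symm
  rw [ea, eb, ← ENNReal.ofReal_pow ha0, ← ENNReal.ofReal_pow hb0, ← ENNReal.ofReal_pow hN0,
    ← ENNReal.ofReal_add (by positivity) (by positivity),
    ← ENNReal.ofReal_add (by positivity) (by positivity), ← ENNReal.ofReal_mul (by norm_num)]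
  refine ENNReal.ofReal_le_ofReal ?_
  have h3 := sq3_7112 (1024 * a) (1024 * b) (2056 * N)
  have h4 : PGa (ms θ h s) g l k' ^ 2 ≤ (1024 * a + 1024 * b + 2056 * N) ^ 2 :=
    pow_le_pow_left₀ hPG h1 2
  nlinarith [sq_nonneg a, sq_nonneg b]

theorem measPop_7112 {θ h : X → ℝ} (geo : Geo θ h) (s : Measure X) [IsFiniteMeasure s]
    (f : X → ℝ) (hf : Measurable f) : Measurable (fun x => Pop θ h s f x) := by
  have h1 : Measurable (fun p : X × X => K θ h p.1 p.2 * ((f p.2 : ℝ) : ℂ)) :=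
    (measurable_K geo).mul (Complex.measurable_ofReal.comp (hf.comp measurable_snd))
  exact (h1.stronglyMeasurable.integral_prod_right' (ν := s)).measurable

theorem measGd_7112 {θ h : X → ℝ} (geo : Geo θ h) (l k : ℕ) : MeasurableSet (Gd θ h l k) := by
  exact (measurableSet_Q geo l k).inter
    ((measurableSet_le (geo.mh.const_mul 8) (geo.mθ.sub_const _)).inter
      (measurableSet_le (geo.mh.const_mul 8) (measurable_const.sub geo.mθ)))

theorem pivotal (C0 A : ℝ) (hC : 0 ≤ C0) (hA : 0 ≤ A) : ∃ CP : ℝ, 0 ≤ CP ∧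
    ∀ (θ h : X → ℝ) (s w : Measure X) [IsFiniteMeasure s] [IsFiniteMeasure w],
    Hyp θ h s w C0 A →
    Piv (ms θ h s) (fun l k => (w (Gd θ h l k)).toReal) CP := by
  obtain ⟨CN, hCN, hlN⟩ := lemmaN (X := X) A hA
  refine ⟨3 * 2056 ^ 2 * (2 * C0 + CN), by positivity, ?_⟩
  intro θ h s w _ _ hyp g k hg hk F hF hanti
  have geo := hyp.geo
  have hNN := hlN θ h s w geo hyp.a2 g k hk
  -- disjointness
  have hdisj : ∀ p ∈ F, ∀ q ∈ F, p ≠ q → Disjoint (Q θ h p.1 p.2) (Q θ h q.1 q.2) := by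
    have key : ∀ p ∈ F, ∀ q ∈ F, p ≠ q → p.1 ≤ q.1 →
        Disjoint (Q θ h p.1 p.2) (Q θ h q.1 q.2) := by
      intro p hp q hq hpq hle
      rw [Set.disjoint_left]
      intro x hx1 hx2
      refine hanti p hp q hq hpq ⟨hle, ?_⟩
      have h1 := col_div geo hle x
      rw [← hx2.1, ← hx1.1]
      exact h1
    intro p hp q hq hpq
    rcases le_total p.1 q.1 with h1 | h1
    · exact key p hp q hq hpq h1
    · exact (key q hq p hp hpq.symm h1).symm
  have hsub : ∀ p ∈ F, Q θ h p.1 p.2 ⊆ Q θ h g k := by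
    intro p hp
    have h1 := Q_anti geo (hF p hp).1 p.2
    rw [(hF p hp).2] at h1
    exact h1
  have hGdQ : ∀ p : ℕ × ℕ, Gd θ h p.1 p.2 ⊆ Q θ h p.1 p.2 := fun p x hx => hx.1
  have hPG0 : ∀ p ∈ F, 0 ≤ PGa (ms θ h s) g p.1 p.2 := by
    intro p hp
    refine Finset.sum_nonneg fun t ht => ?_
    rw [Finset.mem_Ioc] at ht
    refine mul_nonneg (by positivity) ?_
    rw [sub_nonneg]
    unfold ms
    refine ENNReal.toReal_mono (measure_ne_top _ _) (measure_mono ?_)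
    have h1 := Q_anti geo (Nat.sub_le t 1) (p.2 / 2 ^ (p.1 - t))
    rw [Nat.div_div_eq_div_mul, ← pow_add] at h1
    have e2 : p.1 - t + (t - (t - 1)) = p.1 - t + 1 := by omega
    rw [e2] at h1
    exact h1
  set Nf : X → ℝ≥0∞ := fun x => ∫⁻ y in {y | y ∈ Q θ h g k ∧ h x ≤ h y ∧
    nd (θ x - θ y) ≤ 4 * h y}, ENNReal.ofReal (1 / (h y) ^ 2) ∂s with hNf
  set Pg : X → ℝ≥0∞ := fun x => ‖Pop θ h s ((Q θ h g k).indicator 1) x‖ₑ ^ 2 with hPg
  set Pl : ℕ × ℕ → X → ℝ≥0∞ := fun p x => ‖Pop θ h s ((Q θ h p.1 p.2).indicator 1) x‖ₑ ^ 2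
    with hPl
  have hPopm : ∀ l j, Measurable (fun x => ‖Pop θ h s ((Q θ h l j).indicator 1) x‖ₑ ^ 2) := by
    intro l j
    exact ((measPop_7112 geo s _ (measurable_one.indicator (measurableSet_Q geo l j))).enorm).pow_const 2
  have hk' : ∀ p ∈ F, p.2 < 2 ^ p.1 := by
    intro p hp
    obtain ⟨h1, h2⟩ := hF p hp
    have h3 : p.2 < 2 ^ (p.1 - g) * (k + 1) := by
      rw [← h2]
      exact Nat.lt_mul_div_succ _ (by positivity)
    calc p.2 < 2 ^ (p.1 - g) * (k + 1) := h3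
      _ ≤ 2 ^ (p.1 - g) * 2 ^ g := Nat.mul_le_mul_left _ hk
      _ = 2 ^ p.1 := by rw [← pow_add]; congr 1; omega
  have htest : ∀ l j, j < 2 ^ l → ∫⁻ x, ‖Pop θ h s ((Q θ h l j).indicator 1) x‖ₑ ^ 2 ∂w ≤
      ENNReal.ofReal C0 * s (Q θ h l j) := by
    intro l j hj
    rw [Q_eq_arcBox geo l j hj]
    exact hyp.tst _ _ (by positivity) (pow_le_one₀ (by norm_num) (by norm_num))
  -- one term
  have hone : ∀ p ∈ F, ENNReal.ofReal ((w (Gd θ h p.1 p.2)).toReal *
      PGa (ms θ h s) g p.1 p.2 ^ 2) ≤ ENNReal.ofReal (3 * 2056 ^ 2) *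
      (∫⁻ x in Gd θ h p.1 p.2, Pg x ∂w + (∫⁻ x in Gd θ h p.1 p.2, Pl p x ∂w +
        ∫⁻ x in Gd θ h p.1 p.2, Nf x ^ 2 ∂w)) := by
    intro p hp
    rw [ENNReal.ofReal_mul ENNReal.toReal_nonneg, ENNReal.ofReal_toReal (measure_ne_top _ _)]
    calc w (Gd θ h p.1 p.2) * ENNReal.ofReal (PGa (ms θ h s) g p.1 p.2 ^ 2)
        = ∫⁻ x in Gd θ h p.1 p.2, ENNReal.ofReal (PGa (ms θ h s) g p.1 p.2 ^ 2) ∂w := by
          rw [setLIntegral_const, mul_comm]
      _ ≤ ∫⁻ x in Gd θ h p.1 p.2, ENNReal.ofReal (3 * 2056 ^ 2) *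
            (Pg x + (Pl p x + Nf x ^ 2)) ∂w := by
          refine setLIntegral_mono' (measGd_7112 geo _ _) ?_
          intro x hx
          exact PG_bound2_7112 geo s hg (hF p hp).1 (hF p hp).2 (hPG0 p hp) hx
      _ = ENNReal.ofReal (3 * 2056 ^ 2) * (∫⁻ x in Gd θ h p.1 p.2, Pg x ∂w +
            (∫⁻ x in Gd θ h p.1 p.2, Pl p x ∂w + ∫⁻ x in Gd θ h p.1 p.2, Nf x ^ 2 ∂w)) := by
          rw [lintegral_const_mul' _ _ ENNReal.ofReal_ne_top,
            lintegral_add_left (hPopm g k), lintegral_add_left (hPopm p.1 p.2)]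
  have hGdm : ∀ p ∈ F, MeasurableSet (Gd θ h p.1 p.2) := fun p _ => measGd_7112 geo _ _
  have hGdd : (F : Set (ℕ × ℕ)).PairwiseDisjoint (fun p => Gd θ h p.1 p.2) := by
    intro p hp q hq hpq
    exact (hdisj p hp q hq hpq).mono (hGdQ p) (hGdQ q)
  have hGdsub : (⋃ p ∈ F, Gd θ h p.1 p.2) ⊆ Q θ h g k := by
    intro x hx
    simp only [Set.mem_iUnion] at hx
    obtain ⟨p, hp, hx⟩ := hx
    exact hsub p hp (hGdQ p hx)
  have s1 : ∑ p ∈ F, ∫⁻ x in Gd θ h p.1 p.2, Pg x ∂w ≤ ENNReal.ofReal C0 * s (Q θ h g k) := by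
    rw [← lintegral_biUnion_finset hGdd hGdm]
    exact (setLIntegral_le_lintegral _ _).trans (htest g k hk)
  have s3 : ∑ p ∈ F, ∫⁻ x in Gd θ h p.1 p.2, Nf x ^ 2 ∂w ≤
      ENNReal.ofReal CN * s (Q θ h g k) := by
    rw [← lintegral_biUnion_finset hGdd hGdm]
    exact (lintegral_mono_set hGdsub).trans hNN
  have s2 : ∑ p ∈ F, ∫⁻ x in Gd θ h p.1 p.2, Pl p x ∂w ≤ ENNReal.ofReal C0 * s (Q θ h g k) := by
    calc ∑ p ∈ F, ∫⁻ x in Gd θ h p.1 p.2, Pl p x ∂w
        ≤ ∑ p ∈ F, ENNReal.ofReal C0 * s (Q θ h p.1 p.2) :=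
          Finset.sum_le_sum fun p hp =>
            (setLIntegral_le_lintegral _ _).trans (htest p.1 p.2 (hk' p hp))
      _ = ENNReal.ofReal C0 * ∑ p ∈ F, s (Q θ h p.1 p.2) := by rw [Finset.mul_sum]
      _ = ENNReal.ofReal C0 * s (⋃ p ∈ F, Q θ h p.1 p.2) := by
          rw [measure_biUnion_finset (fun p hp q hq hpq => hdisj p hp q hq hpq)
            (fun p _ => measurableSet_Q geo _ _)]
      _ ≤ ENNReal.ofReal C0 * s (Q θ h g k) := by
          gcongr
          exact Set.iUnion₂_subset fun p hp => hsub p hp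
  have htot : ENNReal.ofReal (∑ p ∈ F, (w (Gd θ h p.1 p.2)).toReal *
      PGa (ms θ h s) g p.1 p.2 ^ 2) ≤
      ENNReal.ofReal (3 * 2056 ^ 2 * (2 * C0 + CN) * ms θ h s g k) := by
    rw [ENNReal.ofReal_sum_of_nonneg (fun p _ => by positivity)]
    calc ∑ p ∈ F, ENNReal.ofReal ((w (Gd θ h p.1 p.2)).toReal * PGa (ms θ h s) g p.1 p.2 ^ 2)
        ≤ ∑ p ∈ F, ENNReal.ofReal (3 * 2056 ^ 2) *
            (∫⁻ x in Gd θ h p.1 p.2, Pg x ∂w + (∫⁻ x in Gd θ h p.1 p.2, Pl p x ∂w +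
              ∫⁻ x in Gd θ h p.1 p.2, Nf x ^ 2 ∂w)) := Finset.sum_le_sum hone
      _ = ENNReal.ofReal (3 * 2056 ^ 2) * (∑ p ∈ F, ∫⁻ x in Gd θ h p.1 p.2, Pg x ∂w +
            (∑ p ∈ F, ∫⁻ x in Gd θ h p.1 p.2, Pl p x ∂w +
              ∑ p ∈ F, ∫⁻ x in Gd θ h p.1 p.2, Nf x ^ 2 ∂w)) := by
          rw [← Finset.mul_sum, Finset.sum_add_distrib, Finset.sum_add_distrib]
      _ ≤ ENNReal.ofReal (3 * 2056 ^ 2) * (ENNReal.ofReal C0 * s (Q θ h g k) +
            (ENNReal.ofReal C0 * s (Q θ h g k) + ENNReal.ofReal CN * s (Q θ h g k))) := by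
          gcongr
      _ = ENNReal.ofReal (3 * 2056 ^ 2 * (2 * C0 + CN) * ms θ h s g k) := by
          have e1 : s (Q θ h g k) = ENNReal.ofReal (ms θ h s g k) := by
            unfold ms
            rw [ENNReal.ofReal_toReal (measure_ne_top _ _)]
          have hm0 : 0 ≤ ms θ h s g k := ENNReal.toReal_nonneg
          rw [e1, ← ENNReal.ofReal_mul hC, ← ENNReal.ofReal_mul hCN,
            ← ENNReal.ofReal_add (by positivity) (by positivity),
            ← ENNReal.ofReal_add (by positivity) (by positivity),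
            ← ENNReal.ofReal_mul (by norm_num)]
          congr 1
          ring
  have hm0 : 0 ≤ ms θ h s g k := ENNReal.toReal_nonneg
  exact (ENNReal.ofReal_le_ofReal_iff (by positivity)).1 htot

end

end Pool.Agent.Helper807.BT
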