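import Pool.Agent.Helper807.BT.Base
import Pool.Agent.Helper807.BT.AdjSum
import Pool.Agent.Helper807.BT.BLin
import Pool.Agent.Helper807.BT.BNear
import Pool.Agent.Helper807.BT.BSep
import Pool.Agent.Helper807.BT.BTest
import Pool.Agent.Helper807.BT.Bas
import Pool.Agent.Helper807.BT.FarSum
import Pool.Agent.Helper807.BT.MainTerm
import Pool.Agent.Helper807.BT.Pivot
import Pool.Agent.Helper807.BT.Pyth
import Pool.Agent.Helper807.BT.Sep

set_option autoImplicit false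

open MeasureTheory Set
open scoped ENNReal

namespace Pool.Agent.Helper807.BT

noncomputable section

variable {X : Type*} [MeasurableSpace X]


theorem H7123_int (s : Measure X) [IsFiniteMeasure s] {φ : X → ℝ} (hφ : Bdd φ) : Integrable φ s := by
  obtain ⟨hm, C, hC⟩ := hφ
  exact Integrable.of_bound hm.aestronglyMeasurable C (Filter.Eventually.of_forall fun x => by
    rw [Real.norm_eq_abs]; exact hC x)

theorem H7123_babs {φ : X → ℝ} (hφ : Bdd φ) : Bdd (fun x => |φ x|) := by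
  obtain ⟨hm, C, hC⟩ := hφ
  exact ⟨hm.abs, C, fun x => by rw [abs_abs]; exact hC x⟩

theorem H7123_bsq {φ : X → ℝ} (hφ : Bdd φ) : Bdd (fun x => φ x ^ 2) := by
  obtain ⟨hm, C, hC⟩ := hφ
  refine ⟨hm.pow_const 2, C ^ 2, fun x => ?_⟩
  rw [abs_pow]
  exact pow_le_pow_left₀ (abs_nonneg _) (hC x) 2

theorem H7123_bind {φ : X → ℝ} (hφ : Bdd φ) {E : Set X} (hE : MeasurableSet E) : Bdd (E.indicator φ) := by
  obtain ⟨hm, C, hC⟩ := hφ
  refine ⟨hm.indicator hE, C, fun x => ?_⟩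
  by_cases hx : x ∈ E
  · rw [indicator_of_mem hx]; exact hC x
  · rw [indicator_of_notMem hx, abs_zero]; exact (abs_nonneg _).trans (hC x)

theorem H7123_bone : Bdd (1 : X → ℝ) := ⟨measurable_const, 1, fun x => by simp⟩

theorem H7123_cs (s : Measure X) [IsFiniteMeasure s] {φ : X → ℝ} (hφ : Bdd φ) (E : Set X) :
    (∫ x in E, |φ x| ∂s) ^ 2 ≤ (s E).toReal * ∫ x in E, φ x ^ 2 ∂s := by
  have i1 : Integrable (fun x => |φ x|) (s.restrict E) := H7123_int _ (H7123_babs hφ)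
  have i2 : Integrable (fun x => φ x ^ 2) (s.restrict E) := H7123_int _ (H7123_bsq hφ)
  have key : ∀ t : ℝ, 0 ≤ (s E).toReal * (t * t) + (-2 * ∫ x in E, |φ x| ∂s) * t + ∫ x in E, φ x ^ 2 ∂s := by
    intro t
    have h0 : 0 ≤ ∫ x in E, (|φ x| - t) ^ 2 ∂s := integral_nonneg fun x => sq_nonneg _
    have e : ∫ x in E, (|φ x| - t) ^ 2 ∂s = ∫ x in E, ((φ x ^ 2 - (2 * t) * |φ x|) + t * t) ∂s := by
      refine integral_congr_ae (Filter.Eventually.of_forall fun x => ?_)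
      simp only []
      rw [← sq_abs (φ x)]
      ring
    have i3 : Integrable (fun x => 2 * t * |φ x|) (s.restrict E) := i1.const_mul _
    have i4 : Integrable (fun x => φ x ^ 2 - 2 * t * |φ x|) (s.restrict E) := i2.sub i3
    rw [e, integral_add i4 (integrable_const _), integral_sub i2 i3,
      integral_const_mul, integral_const] at h0
    simp only [smul_eq_mul, measureReal_def, Measure.restrict_apply_univ] at h0
    linarith
  have := discrim_le_zero key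
  unfold discrim at this
  linarith

theorem H7123_L1 (s : Measure X) [IsFiniteMeasure s] {φ : X → ℝ} (hφ : Bdd φ) {E : Set X}
    (hs : ∀ x, x ∉ E → φ x = 0) :
    ∫ x, |φ x| ∂s ≤ Real.sqrt (s E).toReal * Real.sqrt (∫ x, φ x ^ 2 ∂s) := by
  have e1 : ∫ x in E, |φ x| ∂s = ∫ x, |φ x| ∂s :=
    setIntegral_eq_integral_of_forall_compl_eq_zero fun x hx => by rw [hs x hx, abs_zero]
  have e2 : ∫ x in E, φ x ^ 2 ∂s = ∫ x, φ x ^ 2 ∂s :=
    setIntegral_eq_integral_of_forall_compl_eq_zero fun x hx => by rw [hs x hx]; ring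
  have h := H7123_cs s hφ E
  rw [e1, e2] at h
  rw [← Real.sqrt_mul ENNReal.toReal_nonneg]
  exact Real.le_sqrt_of_sq_le h

theorem H7123_near_comm {n a b : ℕ} (h : near n a b) : near n b a := by
  unfold near at h ⊢
  rcases h with h | h | h | h | h
  · exact Or.inl h.symm
  · exact Or.inr (Or.inr (Or.inl h))
  · exact Or.inr (Or.inl h)
  · exact Or.inr (Or.inr (Or.inr (Or.inr h)))
  · exact Or.inr (Or.inr (Or.inr (Or.inl h)))

theorem H7123_Dl_supp (θ h : X → ℝ) (s : Measure X) (n k : ℕ) (f : X → ℝ) (x : X) (hx : x ∉ Q θ h n k) :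
    Dl θ h s n k f x = 0 := by
  unfold Dl
  rw [indicator_of_notMem hx]

/-- far terms -/
theorem H7123_far (θ h : X → ℝ) (geo : Geo θ h) (s w : Measure X) [IsFiniteMeasure s]
    [IsFiniteMeasure w] (f g : X → ℝ) (hf : Bdd f) (hg : Bdd g) (n j m k : ℕ)
    (hj : j < 2 ^ n) (hk : k < 2 ^ m) (hmn : m ≤ n) (hn : ¬ near m k (j / 2 ^ (n - m))) :
    ‖Bf θ h s w (Dl θ h s m k f) (Dl θ h w n j g)‖ ≤
      16 * ((1 / 2 : ℝ) ^ n * 8 ^ (lam n j m k) * Real.sqrt (ms θ h s m k * ms θ h w n j) *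
        Real.sqrt (∫ x, Dl θ h s m k f x ^ 2 ∂s) * Real.sqrt (∫ x, Dl θ h w n j g x ^ 2 ∂w)) := by
  have hlt : lam n j m k < m := by
    refine lt_of_le_of_ne (Nat.findGreatest_le m) fun e => ?_
    unfold lam at e
    rcases Nat.eq_zero_or_pos m with h0 | h0
    · subst h0
      refine hn (Or.inl ?_)
      rw [Nat.sub_zero, Nat.div_eq_of_lt hj]
      simpa using hk
    · have := Nat.findGreatest_of_ne_zero e h0.ne'
      rw [Nat.sub_self, pow_zero, Nat.div_one] at this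
      exact hn this
  have hng : ¬ near (lam n j m k + 1) (k / 2 ^ (m - (lam n j m k + 1))) (j / 2 ^ (n - (lam n j m k + 1))) :=
    Nat.findGreatest_is_greatest (P := fun l => near l (k / 2 ^ (m - l)) (j / 2 ^ (n - l))) (Nat.lt_succ_self _) hlt
  have hsep : ∀ x ∈ Q θ h n j, ∀ y ∈ Q θ h m k, (1 / 2 : ℝ) ^ (lam n j m k) ≤ ‖den (θ x, h x) (θ y, h y)‖ := by
    intro x hx y hy
    have c1 : col θ (lam n j m k + 1) x = j / 2 ^ (n - (lam n j m k + 1)) := by
      rw [← col_div geo (show lam n j m k + 1 ≤ n by omega), hx.1]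
    have c2 : col θ (lam n j m k + 1) y = k / 2 ^ (m - (lam n j m k + 1)) := by
      rw [← col_div geo (show lam n j m k + 1 ≤ m by omega), hy.1]
    have := far_sep θ h geo (lam n j m k + 1) x y (by
      rw [c1, c2]
      exact fun h => hng (H7123_near_comm h))
    refine le_trans (le_of_eq ?_) this
    rw [pow_succ]
    ring
  have hb := B_sep θ h geo s w (Dl θ h s m k f) g (H7123_int s (bdd_Dl geo s hf m k)) hg n j hj (Q θ h m k)
    (fun y hy => H7123_Dl_supp θ h s m k f y hy) ((1 / 2 : ℝ) ^ (lam n j m k)) (by positivity) hsep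
  refine hb.trans ?_
  have hL := H7123_L1 s (bdd_Dl geo s hf m k) (E := Q θ h m k) (fun y hy => H7123_Dl_supp θ h s m k f y hy)
  have e1 : 16 * (1 / 2 : ℝ) ^ n / ((1 / 2 : ℝ) ^ (lam n j m k)) ^ 3 = 16 * ((1 / 2 : ℝ) ^ n * 8 ^ (lam n j m k)) := by
    rw [← pow_mul, mul_comm (lam n j m k) 3, pow_mul]
    have : ((1 / 2 : ℝ) ^ 3) ^ lam n j m k = (8 ^ lam n j m k)⁻¹ := by
      rw [← inv_pow]; norm_num
    rw [this, div_inv_eq_mul]
    ring
  rw [e1, Real.sqrt_mul (show 0 ≤ ms θ h s m k from ENNReal.toReal_nonneg)]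
  change _ ≤ Real.sqrt (ms θ h s m k) * _ at hL
  calc _ ≤ 16 * ((1 / 2 : ℝ) ^ n * 8 ^ (lam n j m k)) * (Real.sqrt (ms θ h s m k) *
      Real.sqrt (∫ x, Dl θ h s m k f x ^ 2 ∂s)) * Real.sqrt (ms θ h w n j) *
        Real.sqrt (∫ x, Dl θ h w n j g x ^ 2 ∂w) := by gcongr
    _ = _ := by ring

theorem H7123_num {n a : ℕ} (h : a ≤ n) :
    16 * (1 / 2 : ℝ) ^ n / ((1 / 2 : ℝ) ^ a * (1 / 2 : ℝ) ^ ((n - a) / 4)) ^ 3 ≤
      16 * ((1 / 2 : ℝ) ^ ((n - a) / 4) * 4 ^ a) := by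
  obtain ⟨d, rfl⟩ := Nat.exists_eq_add_of_le h
  rw [Nat.add_sub_cancel_left]
  set q := d / 4 with hq
  have hq4 : 4 * q ≤ d := by omega
  have h1 : (1 / 2 : ℝ) ^ d ≤ (1 / 2 : ℝ) ^ (4 * q) := pow_le_pow_of_le_one (by norm_num) (by norm_num) hq4
  have e1 : ((1 / 2 : ℝ) ^ a * (1 / 2 : ℝ) ^ q) ^ 3 = ((8 : ℝ) ^ a * 8 ^ q)⁻¹ := by
    rw [mul_pow, ← pow_mul, ← pow_mul, mul_comm a 3, mul_comm q 3, pow_mul, pow_mul, mul_inv, ← inv_pow, ← inv_pow]
    norm_num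
  rw [e1, div_inv_eq_mul, pow_add]
  have e2 : (1 / 2 : ℝ) ^ a * 8 ^ a = 4 ^ a := by rw [← mul_pow]; norm_num
  have e3 : (1 / 2 : ℝ) ^ (4 * q) * 8 ^ q = (1 / 2 : ℝ) ^ q := by rw [pow_mul, ← mul_pow]; norm_num
  calc 16 * ((1 / 2 : ℝ) ^ a * (1 / 2) ^ d) * (8 ^ a * 8 ^ q) = 16 * (((1 / 2 : ℝ) ^ a * 8 ^ a) * ((1 / 2) ^ d * 8 ^ q)) := by ring
    _ ≤ 16 * (((1 / 2 : ℝ) ^ a * 8 ^ a) * ((1 / 2) ^ (4 * q) * 8 ^ q)) := by gcongr
    _ = _ := by rw [e2, e3]; ring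

theorem H7123_sepgen (θ h : X → ℝ) (geo : Geo θ h) (s w : Measure X) [IsFiniteMeasure s]
    [IsFiniteMeasure w] (φ g : X → ℝ) (hφ : Bdd φ) (hg : Bdd g) (n j a : ℕ)
    (hj : j < 2 ^ n) (ha : a + 24 ≤ n) (hgd : good 24 n j) (S : Set X) (hS : ∀ y, y ∉ S → φ y = 0)
    (hSQ : ∀ y ∈ S, y ∉ Q θ h a (j / 2 ^ (n - a))) :
    ‖Bf θ h s w φ (Dl θ h w n j g)‖ ≤
      16 * ((1 / 2 : ℝ) ^ ((n - a) / 4) * 4 ^ a) * (∫ y, |φ y| ∂s) * Real.sqrt (ms θ h w n j) *
        Real.sqrt (∫ x, Dl θ h w n j g x ^ 2 ∂w) := by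
  have hb := B_sep θ h geo s w φ g (H7123_int s hφ) hg n j hj S hS ((1 / 2 : ℝ) ^ a * (1 / 2 : ℝ) ^ ((n - a) / 4))
    (by positivity) (fun x hx y hy => by
      have := good_sep θ h geo 24 n j (n - a) hj hgd (by omega) (Nat.sub_le _ _) x y hx (by
        rw [show n - (n - a) = a by omega]
        exact hSQ y hy)
      rwa [show n - (n - a) = a by omega] at this)
  refine hb.trans ?_
  have h1 := H7123_num (n := n) (a := a) (by omega)
  have h2 : 0 ≤ ∫ y, |φ y| ∂s := integral_nonneg fun y => abs_nonneg _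
  gcongr

/-- adjacent terms -/
theorem H7123_adj (θ h : X → ℝ) (geo : Geo θ h) (s w : Measure X) [IsFiniteMeasure s]
    [IsFiniteMeasure w] (f g : X → ℝ) (hf : Bdd f) (hg : Bdd g) (n j m k : ℕ)
    (hj : j < 2 ^ n) (hmn : m + 24 ≤ n) (hgd : good 24 n j) (hn : k ≠ j / 2 ^ (n - m)) :
    ‖Bf θ h s w (Dl θ h s m k f) (Dl θ h w n j g)‖ ≤
      128 * ((1 / 2 : ℝ) ^ ((n - m) / 4) * 4 ^ m * Real.sqrt (ms θ h s m k * ms θ h w n j) *
        Real.sqrt (∫ x, Dl θ h s m k f x ^ 2 ∂s) * Real.sqrt (∫ x, Dl θ h w n j g x ^ 2 ∂w)) := by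
  have hb := H7123_sepgen θ h geo s w (Dl θ h s m k f) g (bdd_Dl geo s hf m k) hg n j m hj hmn hgd (Q θ h m k)
    (fun y hy => H7123_Dl_supp θ h s m k f y hy) (fun y hy hy' => hn (by rw [← hy.1, ← hy'.1]))
  refine hb.trans ?_
  have hL := H7123_L1 s (bdd_Dl geo s hf m k) (E := Q θ h m k) (fun y hy => H7123_Dl_supp θ h s m k f y hy)
  rw [Real.sqrt_mul (show 0 ≤ ms θ h s m k from ENNReal.toReal_nonneg)]
  change _ ≤ Real.sqrt (ms θ h s m k) * _ at hL
  calc _ ≤ 16 * ((1 / 2 : ℝ) ^ ((n - m) / 4) * 4 ^ m) * (Real.sqrt (ms θ h s m k) *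
      Real.sqrt (∫ x, Dl θ h s m k f x ^ 2 ∂s)) * Real.sqrt (ms θ h w n j) *
        Real.sqrt (∫ x, Dl θ h w n j g x ^ 2 ∂w) := by gcongr
    _ ≤ 128 * ((1 / 2 : ℝ) ^ ((n - m) / 4) * 4 ^ m) * (Real.sqrt (ms θ h s m k) *
      Real.sqrt (∫ x, Dl θ h s m k f x ^ 2 ∂s)) * Real.sqrt (ms θ h w n j) *
        Real.sqrt (∫ x, Dl θ h w n j g x ^ 2 ∂w) := by gcongr; norm_num
    _ = _ := by ring

/-- outer part of nested terms -/
theorem H7123_out (θ h : X → ℝ) (geo : Geo θ h) (s w : Measure X) [IsFiniteMeasure s]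
    [IsFiniteMeasure w] (f g : X → ℝ) (hf : Bdd f) (hg : Bdd g) (n j m k : ℕ)
    (hj : j < 2 ^ n) (hmn : m + 25 ≤ n) (hgd : good 24 n j) :
    ‖Bf θ h s w ((Q θ h m k \ Q θ h (m + 1) (j / 2 ^ (n - (m + 1)))).indicator (Dl θ h s m k f)) (Dl θ h w n j g)‖ ≤
      128 * ((1 / 2 : ℝ) ^ ((n - m) / 4) * 4 ^ m * Real.sqrt (ms θ h s m k * ms θ h w n j) *
        Real.sqrt (∫ x, Dl θ h s m k f x ^ 2 ∂s) * Real.sqrt (∫ x, Dl θ h w n j g x ^ 2 ∂w)) := by
  set E := Q θ h m k \ Q θ h (m + 1) (j / 2 ^ (n - (m + 1))) with hE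
  have hEm : MeasurableSet E := (measurableSet_Q geo _ _).diff (measurableSet_Q geo _ _)
  have hbd := bdd_Dl geo s hf m k
  have hb := H7123_sepgen θ h geo s w (E.indicator (Dl θ h s m k f)) g (H7123_bind hbd hEm) hg n j (m + 1) hj
    (by omega) hgd E (fun y hy => indicator_of_notMem hy _) (fun y hy => hy.2)
  refine hb.trans ?_
  have hL0 := H7123_L1 s hbd (E := Q θ h m k) (fun y hy => H7123_Dl_supp θ h s m k f y hy)
  have hL : ∫ y, |E.indicator (Dl θ h s m k f) y| ∂s ≤ Real.sqrt (ms θ h s m k) *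
      Real.sqrt (∫ x, Dl θ h s m k f x ^ 2 ∂s) := by
    refine le_trans (integral_mono (H7123_int s (H7123_babs (H7123_bind hbd hEm))) (H7123_int s (H7123_babs hbd))
      fun y => ?_) hL0
    simp only []
    by_cases hy : y ∈ E
    · rw [indicator_of_mem hy]
    · rw [indicator_of_notMem hy, abs_zero]; exact abs_nonneg _
  have hp : (1 / 2 : ℝ) ^ ((n - (m + 1)) / 4) * 4 ^ (m + 1) ≤ 8 * ((1 / 2 : ℝ) ^ ((n - m) / 4) * 4 ^ m) := by
    have h1 : (1 / 2 : ℝ) ^ ((n - (m + 1)) / 4 + 1) ≤ (1 / 2 : ℝ) ^ ((n - m) / 4) :=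
      pow_le_pow_of_le_one (by norm_num) (by norm_num) (by omega)
    rw [pow_succ] at h1
    rw [pow_succ]
    have h4 : (0 : ℝ) < 4 ^ m := by positivity
    nlinarith
  rw [Real.sqrt_mul (show 0 ≤ ms θ h s m k from ENNReal.toReal_nonneg)]
  calc _ ≤ 16 * (8 * ((1 / 2 : ℝ) ^ ((n - m) / 4) * 4 ^ m)) * (Real.sqrt (ms θ h s m k) *
      Real.sqrt (∫ x, Dl θ h s m k f x ^ 2 ∂s)) * Real.sqrt (ms θ h w n j) *
        Real.sqrt (∫ x, Dl θ h w n j g x ^ 2 ∂w) := by gcongr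
    _ = _ := by ring

def Xd7123 (θ h : X → ℝ) (s : Measure X) (f : X → ℝ) (m k : ℕ) : ℝ := Real.sqrt (∫ x, Dl θ h s m k f x ^ 2 ∂s)

theorem H7123_Xd0 (θ h : X → ℝ) (s : Measure X) (f : X → ℝ) (m k : ℕ) : 0 ≤ Xd7123 θ h s f m k := Real.sqrt_nonneg _

def FT7123 (θ h : X → ℝ) (s w : Measure X) (f g : X → ℝ) (n j m k : ℕ) : ℝ :=
  (1 / 2 : ℝ) ^ n * 8 ^ (lam n j m k) * Real.sqrt (ms θ h s m k * ms θ h w n j) * Xd7123 θ h s f m k * Xd7123 θ h w g n j

def AT7123 (θ h : X → ℝ) (s w : Measure X) (f g : X → ℝ) (n j m k : ℕ) : ℝ :=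
  (1 / 2 : ℝ) ^ ((n - m) / 4) * 4 ^ m * Real.sqrt (ms θ h s m k * ms θ h w n j) * Xd7123 θ h s f m k * Xd7123 θ h w g n j

theorem H7123_FT0 (θ h : X → ℝ) (s w : Measure X) (f g : X → ℝ) (n j m k : ℕ) : 0 ≤ FT7123 θ h s w f g n j m k := by
  unfold FT7123
  have := H7123_Xd0 θ h s f m k
  have := H7123_Xd0 θ h w g n j
  positivity

theorem H7123_AT0 (θ h : X → ℝ) (s w : Measure X) (f g : X → ℝ) (n j m k : ℕ) : 0 ≤ AT7123 θ h s w f g n j m k := by
  unfold AT7123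
  have := H7123_Xd0 θ h s f m k
  have := H7123_Xd0 θ h w g n j
  positivity

def BB7123 (θ h : X → ℝ) (s w : Measure X) (f g : X → ℝ) (n j m k : ℕ) : ℂ :=
  Bf θ h s w (Dl θ h s m k f) (Dl θ h w n j g)

/-- the terms of the main sum -/
def MT7123 (θ h : X → ℝ) (s w : Measure X) (f g : X → ℝ) (n j l : ℕ) : ℂ :=
  ((avg θ h s f l (j / 2 ^ (n - l)) - avg θ h s f (l - 1) (j / 2 ^ (n - l + 1)) : ℝ) : ℂ) *
    Bf θ h s w ((Q θ h l (j / 2 ^ (n - l))).indicator 1) (Dl θ h w n j g)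

theorem H7123_perm (θ h : X → ℝ) (geo : Geo θ h) (s w : Measure X) [IsFiniteMeasure s]
    [IsFiniteMeasure w] (f g : X → ℝ) (hf : Bdd f) (hg : Bdd g) (C0 Cn : ℝ) (hCn : 0 ≤ Cn)
    (hT : Testing θ h s w C0)
    (hnear : ∀ n j m k : ℕ, j < 2 ^ n → k < 2 ^ m → m ≤ n → near m k (j / 2 ^ (n - m)) →
      ‖BB7123 θ h s w f g n j m k‖ ≤ Cn * Xd7123 θ h s f m k * Xd7123 θ h w g n j)
    (n j m : ℕ) (hj : j < 2 ^ n) (hm : m < n) (hgd : good 24 n j) :
    ‖∑ k ∈ Finset.range (2 ^ m), BB7123 θ h s w f g n j m k -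
      (if m + 25 ≤ n then MT7123 θ h s w f g n j (m + 1) else 0)‖ ≤
      16 * ∑ k ∈ (Finset.range (2 ^ m)).filter (fun k => ¬ near m k (j / 2 ^ (n - m))), FT7123 θ h s w f g n j m k +
      (if n ≤ m + 24 then Cn * ∑ k ∈ (Finset.range (2 ^ m)).filter (fun k => near m k (j / 2 ^ (n - m))),
        Xd7123 θ h s f m k * Xd7123 θ h w g n j else 0) +
      128 * ∑ k ∈ (Finset.range (2 ^ m)).filter (fun k => near m k (j / 2 ^ (n - m))), AT7123 θ h s w f g n j m k := by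
  set J := j / 2 ^ (n - m) with hJ
  have hJm : J < 2 ^ m := by
    rw [hJ, Nat.div_lt_iff_lt_mul (by positivity), ← pow_add]
    rwa [show m + (n - m) = n by omega]
  set M := (if m + 25 ≤ n then MT7123 θ h s w f g n j (m + 1) else 0) with hM
  have e1 : ∑ k ∈ Finset.range (2 ^ m), BB7123 θ h s w f g n j m k - M =
      ∑ k ∈ Finset.range (2 ^ m), (BB7123 θ h s w f g n j m k - if k = J then M else 0) := by
    rw [Finset.sum_sub_distrib, Finset.sum_ite_eq', if_pos (Finset.mem_range.2 hJm)]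
  rw [e1]
  refine (norm_sum_le _ _).trans ?_
  rw [← Finset.sum_filter_add_sum_filter_not (Finset.range (2 ^ m)) (fun k => near m k J)]
  have hfar : ∑ k ∈ (Finset.range (2 ^ m)).filter (fun k => ¬ near m k J),
      ‖BB7123 θ h s w f g n j m k - if k = J then M else 0‖ ≤
      16 * ∑ k ∈ (Finset.range (2 ^ m)).filter (fun k => ¬ near m k J), FT7123 θ h s w f g n j m k := by
    rw [Finset.mul_sum]
    refine Finset.sum_le_sum fun k hk => ?_
    rw [Finset.mem_filter, Finset.mem_range] at hk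
    have hkJ : k ≠ J := fun h => hk.2 (Or.inl h)
    rw [if_neg hkJ, sub_zero]
    exact H7123_far θ h geo s w f g hf hg n j m k hj hk.1 hm.le hk.2
  have hnr : ∑ k ∈ (Finset.range (2 ^ m)).filter (fun k => near m k J),
      ‖BB7123 θ h s w f g n j m k - if k = J then M else 0‖ ≤
      (if n ≤ m + 24 then Cn * ∑ k ∈ (Finset.range (2 ^ m)).filter (fun k => near m k J),
        Xd7123 θ h s f m k * Xd7123 θ h w g n j else 0) +
      128 * ∑ k ∈ (Finset.range (2 ^ m)).filter (fun k => near m k J), AT7123 θ h s w f g n j m k := by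
    by_cases hnm : n ≤ m + 24
    · rw [if_pos hnm]
      have hM0 : M = 0 := by rw [hM, if_neg (by omega)]
      have h0 : 0 ≤ 128 * ∑ k ∈ (Finset.range (2 ^ m)).filter (fun k => near m k J), AT7123 θ h s w f g n j m k :=
        mul_nonneg (by norm_num) (Finset.sum_nonneg fun k _ => H7123_AT0 θ h s w f g n j m k)
      refine le_trans ?_ (le_add_of_nonneg_right h0)
      rw [Finset.mul_sum]
      refine Finset.sum_le_sum fun k hk => ?_
      rw [Finset.mem_filter, Finset.mem_range] at hk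
      rw [hM0, ite_self, sub_zero, ← mul_assoc]
      exact hnear n j m k hj hk.1 hm.le hk.2
    · rw [if_neg hnm, zero_add, Finset.mul_sum]
      refine Finset.sum_le_sum fun k hk => ?_
      rw [Finset.mem_filter, Finset.mem_range] at hk
      by_cases hkJ : k = J
      · rw [if_pos hkJ]
        have hdd : j / 2 ^ (n - (m + 1)) / 2 = J := by
          rw [Nat.div_div_eq_div_mul, ← pow_succ, show n - (m + 1) + 1 = n - m by omega]
        have hk' : j / 2 ^ (n - (m + 1)) < 2 ^ (m + 1) := by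
          rw [Nat.div_lt_iff_lt_mul (by positivity), ← pow_add]
          rwa [show m + 1 + (n - (m + 1)) = n by omega]
        have hsp := B_split θ h geo s w C0 hT f (Dl θ h w n j g) hf (bdd_Dl geo w hg n j) m
          (j / 2 ^ (n - (m + 1))) hk'
        rw [hdd, ← hkJ] at hsp
        have hM1 : M = ((avg θ h s f (m + 1) (j / 2 ^ (n - (m + 1))) - avg θ h s f m k : ℝ) : ℂ) *
            Bf θ h s w ((Q θ h (m + 1) (j / 2 ^ (n - (m + 1)))).indicator 1) (Dl θ h w n j g) := by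
          rw [hM, if_pos (by omega), hkJ]
          unfold MT7123
          rw [Nat.add_sub_cancel, show n - (m + 1) + 1 = n - m by omega]
        unfold BB7123
        rw [hsp, hM1, add_sub_cancel_left]
        exact H7123_out θ h geo s w f g hf hg n j m k hj (by omega) hgd
      · rw [if_neg hkJ, sub_zero]
        exact H7123_adj θ h geo s w f g hf hg n j m k hj (by omega) hgd hkJ
  linarith

theorem H7123_Icc (F : ℕ → ℂ) (n : ℕ) :
    ∑ l ∈ Finset.Icc 1 (n - 24), F l = ∑ m ∈ Finset.range n, (if m + 25 ≤ n then F (m + 1) else 0) := by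
  rw [← Finset.sum_filter]
  symm
  refine Finset.sum_nbij' (fun m => m + 1) (fun l => l - 1) ?_ ?_ ?_ ?_ ?_
  · intro m hm
    rw [Finset.mem_filter, Finset.mem_range] at hm
    rw [Finset.mem_Icc]
    omega
  · intro l hl
    rw [Finset.mem_Icc] at hl
    rw [Finset.mem_filter, Finset.mem_range]
    omega
  · intro m _; simp
  · intro l hl
    rw [Finset.mem_Icc] at hl
    omega
  · intro m _; rfl

theorem H7123_pernj (θ h : X → ℝ) (geo : Geo θ h) (s w : Measure X) [IsFiniteMeasure s]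
    [IsFiniteMeasure w] (f g : X → ℝ) (hf : Bdd f) (hg : Bdd g) (C0 Cn : ℝ) (hCn : 0 ≤ Cn)
    (hT : Testing θ h s w C0)
    (hnear : ∀ n j m k : ℕ, j < 2 ^ n → k < 2 ^ m → m ≤ n → near m k (j / 2 ^ (n - m)) →
      ‖BB7123 θ h s w f g n j m k‖ ≤ Cn * Xd7123 θ h s f m k * Xd7123 θ h w g n j)
    (n j : ℕ) (hj : j < 2 ^ n) (hgd : good 24 n j) :
    ‖∑ m ∈ Finset.range n, ∑ k ∈ Finset.range (2 ^ m), BB7123 θ h s w f g n j m k -
      ∑ l ∈ Finset.Icc 1 (n - 24), MT7123 θ h s w f g n j l‖ ≤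
      16 * ∑ m ∈ Finset.range (n + 1), ∑ k ∈ (Finset.range (2 ^ m)).filter (fun k => ¬ near m k (j / 2 ^ (n - m))),
        FT7123 θ h s w f g n j m k +
      Cn * ∑ m ∈ (Finset.range (n + 1)).filter (fun m => n ≤ m + 24),
        ∑ k ∈ (Finset.range (2 ^ m)).filter (fun k => near m k (j / 2 ^ (n - m))),
        Xd7123 θ h s f m k * Xd7123 θ h w g n j +
      128 * ∑ m ∈ Finset.range (n + 1), ∑ k ∈ (Finset.range (2 ^ m)).filter (fun k => near m k (j / 2 ^ (n - m))),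
        AT7123 θ h s w f g n j m k := by
  rw [H7123_Icc, ← Finset.sum_sub_distrib]
  refine (norm_sum_le _ _).trans ?_
  refine (Finset.sum_le_sum fun m hm => H7123_perm θ h geo s w f g hf hg C0 Cn hCn hT hnear n j m hj
    (Finset.mem_range.1 hm) hgd).trans ?_
  rw [Finset.sum_add_distrib, Finset.sum_add_distrib, ← Finset.mul_sum, ← Finset.mul_sum, ← Finset.sum_filter,
    ← Finset.mul_sum]
  have hsub : Finset.range n ⊆ Finset.range (n + 1) := Finset.range_subset_range.2 (Nat.le_succ n)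
  have h1 : ∑ m ∈ Finset.range n, ∑ k ∈ (Finset.range (2 ^ m)).filter (fun k => ¬ near m k (j / 2 ^ (n - m))),
        FT7123 θ h s w f g n j m k ≤ ∑ m ∈ Finset.range (n + 1),
        ∑ k ∈ (Finset.range (2 ^ m)).filter (fun k => ¬ near m k (j / 2 ^ (n - m))), FT7123 θ h s w f g n j m k :=
    Finset.sum_le_sum_of_subset_of_nonneg hsub fun m _ _ => Finset.sum_nonneg fun k _ => H7123_FT0 θ h s w f g n j m k
  have h2 : ∑ m ∈ Finset.range n, ∑ k ∈ (Finset.range (2 ^ m)).filter (fun k => near m k (j / 2 ^ (n - m))),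
        AT7123 θ h s w f g n j m k ≤ ∑ m ∈ Finset.range (n + 1),
        ∑ k ∈ (Finset.range (2 ^ m)).filter (fun k => near m k (j / 2 ^ (n - m))), AT7123 θ h s w f g n j m k :=
    Finset.sum_le_sum_of_subset_of_nonneg hsub fun m _ _ => Finset.sum_nonneg fun k _ => H7123_AT0 θ h s w f g n j m k
  have h3 : ∑ m ∈ (Finset.range n).filter (fun m => n ≤ m + 24),
        ∑ k ∈ (Finset.range (2 ^ m)).filter (fun k => near m k (j / 2 ^ (n - m))),
        Xd7123 θ h s f m k * Xd7123 θ h w g n j ≤ ∑ m ∈ (Finset.range (n + 1)).filter (fun m => n ≤ m + 24),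
        ∑ k ∈ (Finset.range (2 ^ m)).filter (fun k => near m k (j / 2 ^ (n - m))),
        Xd7123 θ h s f m k * Xd7123 θ h w g n j :=
    Finset.sum_le_sum_of_subset_of_nonneg (Finset.filter_subset_filter _ hsub)
      fun m _ _ => Finset.sum_nonneg fun k _ => mul_nonneg (H7123_Xd0 θ h s f m k) (H7123_Xd0 θ h w g n j)
  gcongr

/-- Cauchy-Schwarz data for the main term -/
theorem H7123_tree (θ h : X → ℝ) (geo : Geo θ h) (s w : Measure X) [IsFiniteMeasure s]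
    [IsFiniteMeasure w] (f : X → ℝ) (hf : Bdd f) :
    Tree (ms θ h s) (fun l k => ∫ x in Q θ h l k, |f x| ∂s) (fun l k => ∫ x in Q θ h l k, f x ^ 2 ∂s)
      (fun l k => (w (Gd θ h l k)).toReal) := by
  have hsub1 : ∀ l k, Q θ h (l + 1) (2 * k) ⊆ Q θ h l k := fun l k => by
    have := Q_anti geo (Nat.le_succ l) (2 * k)
    rwa [show l.succ - l = 1 by omega, pow_one, Nat.mul_div_cancel_left _ (by norm_num)] at this
  have hsub2 : ∀ l k, Q θ h (l + 1) (2 * k + 1) ⊆ Q θ h l k := fun l k => by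
    have := Q_anti geo (Nat.le_succ l) (2 * k + 1)
    rwa [show l.succ - l = 1 by omega, pow_one, show (2 * k + 1) / 2 = k by omega] at this
  have hdisj : ∀ l k, Disjoint (Q θ h (l + 1) (2 * k)) (Q θ h (l + 1) (2 * k + 1)) := fun l k => by
    rw [Set.disjoint_left]
    intro x hx hx'
    have h1 := hx.1
    have h2 := hx'.1
    omega
  have hm : ∀ l k, MeasurableSet (Q θ h l k) := measurableSet_Q geo
  have hU : ∀ l k, Q θ h (l + 1) (2 * k) ∪ Q θ h (l + 1) (2 * k + 1) ⊆ Q θ h l k := fun l k =>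
    union_subset (hsub1 l k) (hsub2 l k)
  have hsplit : ∀ (ψ : X → ℝ), Bdd ψ → ∀ l k, ∫ x in Q θ h l k, ψ x ∂s = ∫ x in Q θ h (l + 1) (2 * k), ψ x ∂s +
      ∫ x in Q θ h (l + 1) (2 * k + 1), ψ x ∂s +
      ∫ x in Q θ h l k \ (Q θ h (l + 1) (2 * k) ∪ Q θ h (l + 1) (2 * k + 1)), ψ x ∂s := by
    intro ψ hψ l k
    have hi := H7123_int s hψ
    rw [← setIntegral_union (hdisj l k) (hm _ _) hi.integrableOn hi.integrableOn,
      ← setIntegral_union disjoint_sdiff_right ((hm l k).diff ((hm _ _).union (hm _ _))) hi.integrableOn hi.integrableOn,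
      union_sdiff_cancel (hU l k)]
  have hmass : ∀ l k, ms θ h s l k = ms θ h s (l + 1) (2 * k) + ms θ h s (l + 1) (2 * k + 1) +
      (s (Q θ h l k \ (Q θ h (l + 1) (2 * k) ∪ Q θ h (l + 1) (2 * k + 1)))).toReal := by
    intro l k
    have := hsplit (fun _ => 1) H7123_bone l k
    simpa [ms, measureReal_def] using this
  refine ⟨fun l k => ENNReal.toReal_nonneg, fun l k => integral_nonneg fun x => abs_nonneg _,
    fun l k => integral_nonneg fun x => sq_nonneg _, fun l k => ENNReal.toReal_nonneg, ?_, ?_, ?_, ?_, ?_⟩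
  · intro l k
    rw [hmass l k]
    exact le_add_of_nonneg_right ENNReal.toReal_nonneg
  · intro l k
    rw [hsplit _ (H7123_babs hf) l k]
    exact le_add_of_nonneg_right (integral_nonneg fun x => abs_nonneg _)
  · intro l k
    rw [hsplit _ (H7123_bsq hf) l k]
    exact le_add_of_nonneg_right (integral_nonneg fun x => sq_nonneg _)
  · intro l k
    exact H7123_cs s hf _
  · intro l k
    have h1 := H7123_cs s hf (Q θ h l k \ (Q θ h (l + 1) (2 * k) ∪ Q θ h (l + 1) (2 * k + 1)))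
    rw [hsplit _ (H7123_babs hf) l k, hsplit _ (H7123_bsq hf) l k, hmass l k]
    convert h1 using 2
    · ring
    · ring
    · ring

theorem H7123_range2 (G : ℕ → ℝ) (M : ℕ) :
    ∑ k ∈ Finset.range (2 * M), G k = ∑ k ∈ Finset.range M, (G (2 * k) + G (2 * k + 1)) := by
  induction M with
  | zero => simp
  | succ M ih => rw [show 2 * (M + 1) = 2 * M + 1 + 1 by ring, Finset.sum_range_succ, Finset.sum_range_succ, ih,
      Finset.sum_range_succ, add_assoc]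

theorem H7123_child (θ h : X → ℝ) (geo : Geo θ h) (s : Measure X) [IsFiniteMeasure s]
    (f : X → ℝ) (l k : ℕ) :
    (avg θ h s f (l + 1) k - avg θ h s f l (k / 2)) ^ 2 * ms θ h s (l + 1) k =
      ∫ x in Q θ h (l + 1) k, Dl θ h s l (k / 2) f x ^ 2 ∂s := by
  have e : ∀ x ∈ Q θ h (l + 1) k, Dl θ h s l (k / 2) f x ^ 2 = (avg θ h s f (l + 1) k - avg θ h s f l (k / 2)) ^ 2 := by
    intro x hx
    have hx2 : x ∈ Q θ h l (k / 2) := by
      have := Q_anti geo (Nat.le_succ l) k hx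
      rwa [show l.succ - l = 1 by omega, pow_one] at this
    unfold Dl
    rw [indicator_of_mem hx2]
    unfold Ex
    rw [if_pos hx.2, if_pos hx2.2, hx.1, hx2.1]
  rw [setIntegral_congr_fun (measurableSet_Q geo _ _) e, setIntegral_const, smul_eq_mul, measureReal_def, mul_comm]
  rfl

theorem H7123_avgsum (θ h : X → ℝ) (geo : Geo θ h) (s : Measure X) [IsFiniteMeasure s]
    (f : X → ℝ) (hf : Bdd f) (N : ℕ) :
    ∑ l ∈ Finset.range N, ∑ k ∈ Finset.range (2 ^ (l + 1)),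
      (avg θ h s f (l + 1) k - avg θ h s f l (k / 2)) ^ 2 * ms θ h s (l + 1) k ≤ ∫ x in Q θ h 0 0, f x ^ 2 ∂s := by
  have e0 : ∫ x in Q θ h 0 0, f x ^ 2 ∂s = ∫ x, f x ^ 2 ∂s := by rw [Q_zero geo, Measure.restrict_univ]
  rw [e0]
  refine le_trans (Finset.sum_le_sum fun l _ => ?_) (pyth θ h geo s f hf N)
  rw [pow_succ, mul_comm, H7123_range2]
  refine Finset.sum_le_sum fun k _ => ?_
  have hi := H7123_int s (H7123_bsq (bdd_Dl geo s hf l k))
  have h1 := H7123_child θ h geo s f l (2 * k)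
  have h2 := H7123_child θ h geo s f l (2 * k + 1)
  rw [Nat.mul_div_cancel_left _ (by norm_num : 0 < 2)] at h1
  rw [show (2 * k + 1) / 2 = k by omega] at h2
  have h3 : Disjoint (Q θ h (l + 1) (2 * k)) (Q θ h (l + 1) (2 * k + 1)) := by
    rw [Set.disjoint_left]
    intro x hx hx'
    have h1 := hx.1
    have h2 := hx'.1
    omega
  rw [Nat.mul_div_cancel_left _ (by norm_num : 0 < 2), show (2 * k + 1) / 2 = k by omega, h1, h2,
    ← setIntegral_union h3 (measurableSet_Q geo _ _) hi.integrableOn hi.integrableOn]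
  exact setIntegral_le_integral hi (Filter.Eventually.of_forall fun x => sq_nonneg _)

theorem H7123_Wsum (θ h : X → ℝ) (geo : Geo θ h) (w : Measure X) [IsFiniteMeasure w] (l k i : ℕ) (hi : 24 ≤ i) :
    ∑ j ∈ (Finset.range (2 ^ (l + i))).filter (fun j => j / 2 ^ i = k ∧ good 24 (l + i) j),
        ms θ h w (l + i) j ≤ (w (Gd θ h l k)).toReal := by
  unfold ms
  rw [← ENNReal.toReal_sum fun j _ => measure_ne_top _ _]
  rw [← measure_biUnion_finset]
  · refine ENNReal.toReal_mono (measure_ne_top _ _) (measure_mono ?_)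
    refine iUnion₂_subset fun j hj => ?_
    rw [Finset.mem_filter, Finset.mem_range] at hj
    have := good_Gd θ h geo 24 (l + i) j i (by norm_num) hj.1 hj.2.2 hi (Nat.le_add_left _ _)
    rwa [Nat.add_sub_cancel, hj.2.1] at this
  · intro a _ b _ hab
    show Disjoint _ _
    rw [Set.disjoint_left]
    intro x hx hx'
    exact hab (by rw [← hx.1, ← hx'.1])
  · exact fun j _ => measurableSet_Q geo _ _

theorem H7123_diff (θ h : X → ℝ) (geo : Geo θ h) (s w : Measure X) [IsFiniteMeasure s]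
    [IsFiniteMeasure w] (g : X → ℝ) (hg : Bdd g) (C0 : ℝ) (hT : Testing θ h s w C0) (n j t : ℕ)
    (hj : j < 2 ^ n) (hgd : good 24 n j) (ht : 1 ≤ t) (htn : t + 24 ≤ n) :
    ‖Bf θ h s w ((Q θ h (t - 1) (j / 2 ^ (n - (t - 1)))).indicator 1) (Dl θ h w n j g) -
      Bf θ h s w ((Q θ h t (j / 2 ^ (n - t))).indicator 1) (Dl θ h w n j g)‖ ≤
      16 * (1 / 2 : ℝ) ^ ((n - t) / 4) * 4 ^ t *
        (ms θ h s (t - 1) (j / 2 ^ (n - t + 1)) - ms θ h s t (j / 2 ^ (n - t))) *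
        Real.sqrt (ms θ h w n j) * Xd7123 θ h w g n j := by
  obtain ⟨m, rfl⟩ : ∃ m, t = m + 1 := ⟨t - 1, by omega⟩
  rw [Nat.add_sub_cancel, show n - (m + 1) + 1 = n - m by omega]
  set k' := j / 2 ^ (n - (m + 1)) with hk'
  have hdd : k' / 2 = j / 2 ^ (n - m) := by
    rw [hk', Nat.div_div_eq_div_mul, ← pow_succ, show n - (m + 1) + 1 = n - m by omega]
  have hkl : k' < 2 ^ (m + 1) := by
    rw [hk', Nat.div_lt_iff_lt_mul (by positivity), ← pow_add]
    rwa [show m + 1 + (n - (m + 1)) = n by omega]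
  rw [← hdd, B_annulus θ h geo s w C0 hT (Dl θ h w n j g) (bdd_Dl geo w hg n j) m k' hkl]
  have hEm : MeasurableSet (Q θ h m (k' / 2) \ Q θ h (m + 1) k') := (measurableSet_Q geo _ _).diff (measurableSet_Q geo _ _)
  have hb := H7123_sepgen θ h geo s w ((Q θ h m (k' / 2) \ Q θ h (m + 1) k').indicator 1) g
    (H7123_bind H7123_bone hEm) hg n j (m + 1) hj htn hgd (Q θ h m (k' / 2) \ Q θ h (m + 1) k')
    (fun y hy => indicator_of_notMem hy _) (fun y hy => hy.2)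
  refine hb.trans (le_of_eq ?_)
  have hsub : Q θ h (m + 1) k' ⊆ Q θ h m (k' / 2) := by
    have := Q_anti geo (Nat.le_succ m) k'
    rwa [show m.succ - m = 1 by omega, pow_one] at this
  have e1 : ∫ y, |(Q θ h m (k' / 2) \ Q θ h (m + 1) k').indicator (1 : X → ℝ) y| ∂s =
      ms θ h s m (k' / 2) - ms θ h s (m + 1) k' := by
    have e2 : (fun y => |(Q θ h m (k' / 2) \ Q θ h (m + 1) k').indicator (1 : X → ℝ) y|) =
        (Q θ h m (k' / 2) \ Q θ h (m + 1) k').indicator 1 := by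
      funext y
      by_cases hy : y ∈ Q θ h m (k' / 2) \ Q θ h (m + 1) k'
      · rw [indicator_of_mem hy]; simp
      · rw [indicator_of_notMem hy, abs_zero]
    rw [e2, integral_indicator_one hEm]
    exact measureReal_sdiff hsub (measurableSet_Q geo _ _)
  rw [e1]
  unfold Xd7123
  ring

theorem H7123_sub1 (θ h : X → ℝ) (geo : Geo θ h) {l b : ℕ} {c : ℝ} {z : ℤ} (hl : 1 ≤ l)
    (H : ∀ t : ℝ, (b : ℝ) / 2 ^ l ≤ t → t < ((b : ℝ) + 1) / 2 ^ l → 0 ≤ t - c - z ∧ t - c - z < 2 * (1 / 2 : ℝ) ^ l) :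
    Q θ h l b ⊆ arcBox θ h c (2 * (1 / 2 : ℝ) ^ l) := by
  intro x hx
  have h2 : (0 : ℝ) < 2 ^ l := by positivity
  have hle : 2 * (1 / 2 : ℝ) ^ l ≤ 1 := by
    have : (1 / 2 : ℝ) ^ l ≤ (1 / 2 : ℝ) ^ 1 := pow_le_pow_of_le_one (by norm_num) (by norm_num) hl
    linarith
  have hc := hx.1
  unfold col at hc
  rw [Nat.floor_eq_iff (mul_nonneg h2.le (geo.θ0 x))] at hc
  have h3 := H (θ x) (by rw [div_le_iff₀ h2]; linarith [hc.1]) (by rw [lt_div_iff₀ h2]; linarith [hc.2])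
  refine ⟨?_, ?_⟩
  · have : Int.fract (θ x - c) = θ x - c - z := by
      rw [Int.fract_eq_iff]
      exact ⟨h3.1, by linarith [h3.2], z, by ring⟩
    rw [this]
    exact h3.2
  · have : (0 : ℝ) < (1 / 2) ^ l := by positivity
    exact hx.2.trans (by linarith)

theorem H7123_A2 (θ h : X → ℝ) (geo : Geo θ h) (s w : Measure X) [IsFiniteMeasure s]
    [IsFiniteMeasure w] (A : ℝ) (hA : 0 ≤ A) (ha2 : A2 θ h s w A) (l a b : ℕ) (ha : a < 2 ^ l) (hb : b < 2 ^ l)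
    (hn : near l a b) : ms θ h s l a * ms θ h w l b ≤ 16 * A * (1 / 16 : ℝ) ^ l := by
  rcases Nat.eq_zero_or_pos l with hl | hl
  · subst hl
    rw [pow_zero, Nat.lt_one_iff] at ha hb
    subst ha hb
    have h1 := ha2 0 1 one_pos le_rfl
    have h2 := Q_eq_arcBox geo 0 0 (by norm_num)
    simp only [pow_zero, Nat.cast_zero, div_one] at h2
    unfold ms
    rw [h2]
    simp only [pow_zero, one_pow, mul_one] at h1 ⊢
    linarith
  · have h2 : (0 : ℝ) < 2 ^ l := by positivity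
    have hle : 2 * (1 / 2 : ℝ) ^ l ≤ 1 := by
      have : (1 / 2 : ℝ) ^ l ≤ (1 / 2 : ℝ) ^ 1 := pow_le_pow_of_le_one (by norm_num) (by norm_num) hl
      linarith
    have hinv : (1 / 2 : ℝ) ^ l = 1 / 2 ^ l := by rw [one_div_pow]
    have hpos : (0 : ℝ) < (1 / 2) ^ l := by positivity
    have base : ∀ q : ℕ, Q θ h l q ⊆ arcBox θ h ((q : ℝ) / 2 ^ l) (2 * (1 / 2 : ℝ) ^ l) := fun q =>
      H7123_sub1 θ h geo (z := 0) hl fun t t1 t2 => by
        rw [add_div, ← hinv] at t2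
        constructor
        · simp only [Int.cast_zero]; linarith
        · simp only [Int.cast_zero]; linarith
    have next : ∀ q q' : ℕ, q + 1 = q' → Q θ h l q' ⊆ arcBox θ h ((q : ℝ) / 2 ^ l) (2 * (1 / 2 : ℝ) ^ l) := fun q q' e =>
      H7123_sub1 θ h geo (z := 0) hl fun t t1 t2 => by
        subst e
        push_cast at t1 t2
        rw [add_div, ← hinv] at t1
        rw [add_div, add_div, ← hinv] at t2
        constructor
        · simp only [Int.cast_zero]; linarith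
        · simp only [Int.cast_zero]; linarith
    have wrap : ∀ q : ℕ, q + 1 = 2 ^ l → Q θ h l 0 ⊆ arcBox θ h ((q : ℝ) / 2 ^ l) (2 * (1 / 2 : ℝ) ^ l) := fun q e =>
      H7123_sub1 θ h geo (z := -1) hl fun t t1 t2 => by
        have e' : (q : ℝ) / 2 ^ l = 1 - (1 / 2 : ℝ) ^ l := by
          have : (q : ℝ) = 2 ^ l - 1 := by
            have h5 : ((q + 1 : ℕ) : ℝ) = ((2 ^ l : ℕ) : ℝ) := by rw [e]
            push_cast at h5
            linarith
          rw [this, sub_div, div_self h2.ne', hinv]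
        rw [Nat.cast_zero, zero_add, ← hinv] at t2
        rw [Nat.cast_zero, zero_div] at t1
        rw [e']
        constructor
        · push_cast; linarith
        · push_cast; linarith
    have fin : ∀ c : ℝ, Q θ h l a ⊆ arcBox θ h c (2 * (1 / 2 : ℝ) ^ l) → Q θ h l b ⊆ arcBox θ h c (2 * (1 / 2 : ℝ) ^ l) →
        ms θ h s l a * ms θ h w l b ≤ 16 * A * (1 / 16 : ℝ) ^ l := by
      intro c h3 h4
      have h5 := ha2 c (2 * (1 / 2 : ℝ) ^ l) (by positivity) hle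
      have h6 : ms θ h s l a ≤ (s (arcBox θ h c (2 * (1 / 2 : ℝ) ^ l))).toReal :=
        ENNReal.toReal_mono (measure_ne_top _ _) (measure_mono h3)
      have h7 : ms θ h w l b ≤ (w (arcBox θ h c (2 * (1 / 2 : ℝ) ^ l))).toReal :=
        ENNReal.toReal_mono (measure_ne_top _ _) (measure_mono h4)
      have h8 : (2 * (1 / 2 : ℝ) ^ l) ^ 4 = 16 * (1 / 16 : ℝ) ^ l := by
        rw [mul_pow, ← pow_mul, mul_comm l 4, pow_mul]
        norm_num
      calc ms θ h s l a * ms θ h w l b ≤ _ := mul_le_mul h6 h7 ENNReal.toReal_nonneg ENNReal.toReal_nonneg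
        _ ≤ _ := h5
        _ = _ := by rw [h8]; ring
    unfold near at hn
    rcases hn with hn | hn | hn | hn | hn
    · subst hn; exact fin _ (base a) (base a)
    · exact fin _ (base a) (next a b hn)
    · exact fin _ (next b a hn) (base b)
    · obtain ⟨rfl, h0⟩ := hn; exact fin _ (wrap b h0) (base b)
    · obtain ⟨rfl, h0⟩ := hn; exact fin _ (base a) (wrap a h0)

def I7123 (N : ℕ) : Finset (ℕ × ℕ) := ((Finset.range N) ×ˢ (Finset.range (2 ^ N))).filter (fun p => p.2 < 2 ^ p.1)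

theorem H7123_pair {M : Type*} [AddCommMonoid M] (N : ℕ) (F : ℕ × ℕ → M) :
    ∑ p ∈ I7123 N, F p = ∑ n ∈ Finset.range N, ∑ j ∈ Finset.range (2 ^ n), F (n, j) := by
  unfold I7123
  rw [Finset.sum_filter, Finset.sum_product]
  refine Finset.sum_congr rfl fun n hn => ?_
  rw [Finset.mem_range] at hn
  rw [← Finset.sum_filter]
  refine Finset.sum_congr ?_ fun _ _ => rfl
  ext j
  have : 2 ^ n ≤ 2 ^ N := Nat.pow_le_pow_right (by norm_num) hn.le
  simp only [Finset.mem_filter, Finset.mem_range]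
  omega

theorem H7123_avg00 (θ h : X → ℝ) (geo : Geo θ h) (s : Measure X) [IsFiniteMeasure s] (f : X → ℝ) (hf : Bdd f) :
    |avg θ h s f 0 0| * Real.sqrt (ms θ h s 0 0) ≤ Real.sqrt (∫ x, f x ^ 2 ∂s) := by
  have hm0 : 0 ≤ ms θ h s 0 0 := ENNReal.toReal_nonneg
  have h1 := H7123_cs s hf (Q θ h 0 0)
  have h2 : |∫ x in Q θ h 0 0, f x ∂s| ≤ ∫ x in Q θ h 0 0, |f x| ∂s := by
    have := norm_integral_le_integral_norm (μ := s.restrict (Q θ h 0 0)) f
    simpa only [Real.norm_eq_abs] using this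
  have e0 : ∫ x in Q θ h 0 0, f x ^ 2 ∂s = ∫ x, f x ^ 2 ∂s := by rw [Q_zero geo, Measure.restrict_univ]
  rw [e0] at h1
  change _ ≤ ms θ h s 0 0 * _ at h1
  have h3 : avg θ h s f 0 0 ^ 2 * ms θ h s 0 0 ≤ ∫ x, f x ^ 2 ∂s := by
    rcases hm0.eq_or_lt with h0 | h0
    · rw [← h0, mul_zero]; exact integral_nonneg fun x => sq_nonneg _
    · have e1 : avg θ h s f 0 0 ^ 2 * ms θ h s 0 0 = (∫ x in Q θ h 0 0, f x ∂s) ^ 2 / ms θ h s 0 0 := by
        unfold avg
        change (_ / ms θ h s 0 0) ^ 2 * _ = _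
        field_simp
      rw [e1, div_le_iff₀ h0, ← sq_abs]
      have := pow_le_pow_left₀ (abs_nonneg _) h2 2
      linarith
  refine Real.le_sqrt_of_sq_le ?_
  rw [mul_pow, sq_abs, Real.sq_sqrt hm0]
  exact h3

theorem H7123_top (θ h : X → ℝ) (geo : Geo θ h) (s w : Measure X) [IsFiniteMeasure s]
    [IsFiniteMeasure w] (f g : X → ℝ) (hf : Bdd f) (hg : Bdd g) (C0 : ℝ) (hC : 0 ≤ C0) (hT : Testing θ h s w C0)
    (N : ℕ) (ε : ℕ → ℝ) (hε : ∀ n, |ε n| ≤ 2) :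
    ‖∑ n ∈ Finset.range N, (ε n : ℂ) * ∑ j ∈ Finset.range (2 ^ n), (if good 24 n j then (1 : ℂ) else 0) *
      ((avg θ h s f 0 0 : ℂ) * Bf θ h s w ((Q θ h 0 0).indicator 1) (Dl θ h w n j g))‖ ≤
      2 * Real.sqrt C0 * Real.sqrt (∫ x, f x ^ 2 ∂s) * Real.sqrt (∫ x, g x ^ 2 ∂w) := by
  have hb := B_test θ h geo s w C0 hC hT g hg 0 0 (by norm_num) (I7123 N)
    (fun p hp => (Finset.mem_filter.1 hp).2) (fun p => ε p.1 * if good 24 p.1 p.2 then 1 else 0)
  rw [H7123_pair, H7123_pair] at hb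
  have e1 : ∑ n ∈ Finset.range N, (ε n : ℂ) * ∑ j ∈ Finset.range (2 ^ n), (if good 24 n j then (1 : ℂ) else 0) *
      ((avg θ h s f 0 0 : ℂ) * Bf θ h s w ((Q θ h 0 0).indicator 1) (Dl θ h w n j g)) =
      (avg θ h s f 0 0 : ℂ) * ∑ n ∈ Finset.range N, ∑ j ∈ Finset.range (2 ^ n),
        ((ε n * (if good 24 n j then 1 else 0) : ℝ) : ℂ) *
        Bf θ h s w ((Q θ h 0 0).indicator 1) (Dl θ h w n j g) := by
    rw [Finset.mul_sum]
    refine Finset.sum_congr rfl fun n _ => ?_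
    rw [Finset.mul_sum, Finset.mul_sum]
    refine Finset.sum_congr rfl fun j _ => ?_
    split_ifs
    · push_cast; ring
    · push_cast; ring
  rw [e1, norm_mul, Complex.norm_real, Real.norm_eq_abs]
  have h4 : ∑ n ∈ Finset.range N, ∑ j ∈ Finset.range (2 ^ n),
      (ε n * (if good 24 n j then (1 : ℝ) else 0)) ^ 2 * ∫ x, Dl θ h w n j g x ^ 2 ∂w ≤ 2 ^ 2 * ∫ x, g x ^ 2 ∂w := by
    refine le_trans ?_ (mul_le_mul_of_nonneg_left (pyth θ h geo w g hg N) (by norm_num))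
    rw [Finset.mul_sum]
    refine Finset.sum_le_sum fun n _ => ?_
    rw [Finset.mul_sum]
    refine Finset.sum_le_sum fun j _ => ?_
    refine mul_le_mul_of_nonneg_right ?_ (integral_nonneg fun x => sq_nonneg _)
    rw [← sq_abs]
    refine pow_le_pow_left₀ (abs_nonneg _) ?_ 2
    split_ifs
    · rw [mul_one]; exact hε n
    · rw [mul_zero, abs_zero]; norm_num
  have h5 : Real.sqrt (∑ n ∈ Finset.range N, ∑ j ∈ Finset.range (2 ^ n),
      (ε n * (if good 24 n j then (1 : ℝ) else 0)) ^ 2 * ∫ x, Dl θ h w n j g x ^ 2 ∂w) ≤ 2 * Real.sqrt (∫ x, g x ^ 2 ∂w) := by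
    refine (Real.sqrt_le_sqrt h4).trans (le_of_eq ?_)
    rw [Real.sqrt_mul (by norm_num), Real.sqrt_sq (by norm_num)]
  have h6 := H7123_avg00 θ h geo s f hf
  rw [Real.sqrt_mul hC] at hb
  calc _ ≤ |avg θ h s f 0 0| * (Real.sqrt C0 * Real.sqrt (ms θ h s 0 0) * (2 * Real.sqrt (∫ x, g x ^ 2 ∂w))) := by
        refine mul_le_mul_of_nonneg_left (hb.trans ?_) (abs_nonneg _)
        exact mul_le_mul_of_nonneg_left h5 (by positivity)
    _ = (|avg θ h s f 0 0| * Real.sqrt (ms θ h s 0 0)) * (2 * Real.sqrt C0 * Real.sqrt (∫ x, g x ^ 2 ∂w)) := by ring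
    _ ≤ Real.sqrt (∫ x, f x ^ 2 ∂s) * (2 * Real.sqrt C0 * Real.sqrt (∫ x, g x ^ 2 ∂w)) :=
        mul_le_mul_of_nonneg_right h6 (by positivity)
    _ = _ := by ring

theorem H7123_X (θ h : X → ℝ) (geo : Geo θ h) (s : Measure X) [IsFiniteMeasure s] (f : X → ℝ) (hf : Bdd f) (N : ℕ) :
    Real.sqrt (∑ m ∈ Finset.range N, ∑ k ∈ Finset.range (2 ^ m), Xd7123 θ h s f m k ^ 2) ≤
      Real.sqrt (∫ x, f x ^ 2 ∂s) := by
  refine Real.sqrt_le_sqrt (le_trans (le_of_eq ?_) (pyth θ h geo s f hf N))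
  refine Finset.sum_congr rfl fun m _ => Finset.sum_congr rfl fun k _ => ?_
  unfold Xd7123
  rw [Real.sq_sqrt (integral_nonneg fun x => sq_nonneg _)]

theorem H7123_rem (θ h : X → ℝ) (s w : Measure X) [IsFiniteMeasure s]
    [IsFiniteMeasure w] (C0 A : ℝ) (hA : 0 ≤ A) (H : Hyp θ h s w C0 A)
    (f g : X → ℝ) (hf : Bdd f) (hg : Bdd g) (Cn Cf Ca Cr : ℝ) (hCn : 0 ≤ Cn) (hCf : 0 ≤ Cf) (hCa : 0 ≤ Ca) (hCr : 0 ≤ Cr)
    (hnear : ∀ n j m k : ℕ, j < 2 ^ n → k < 2 ^ m → m ≤ n → near m k (j / 2 ^ (n - m)) →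
      ‖BB7123 θ h s w f g n j m k‖ ≤ Cn * Xd7123 θ h s f m k * Xd7123 θ h w g n j)
    (N : ℕ) (ε : ℕ → ℝ) (hε : ∀ n, |ε n| ≤ 2)
    (hfar : ∀ (S W x y : ℕ → ℕ → ℝ),
    (∀ l k, 0 ≤ S l k) → (∀ l k, 0 ≤ W l k) → (∀ l k, 0 ≤ x l k) → (∀ l k, 0 ≤ y l k) →
    (∀ l k, S (l + 1) (2 * k) + S (l + 1) (2 * k + 1) ≤ S l k) →
    (∀ l k, W (l + 1) (2 * k) + W (l + 1) (2 * k + 1) ≤ W l k) →
    (∀ l a b, a < 2 ^ l → b < 2 ^ l → near l a b → S l a * W l b ≤ (16 * A) * (1 / 16 : ℝ) ^ l) →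
    ∑ n ∈ Finset.range N, ∑ j ∈ Finset.range (2 ^ n), ∑ m ∈ Finset.range (n + 1),
      ∑ k ∈ (Finset.range (2 ^ m)).filter (fun k => ¬ near m k (j / 2 ^ (n - m))),
        (1 / 2 : ℝ) ^ n * 8 ^ (lam n j m k) * Real.sqrt (S m k * W n j) * x m k * y n j ≤
      Cf * Real.sqrt (16 * A) *
        Real.sqrt (∑ m ∈ Finset.range N, ∑ k ∈ Finset.range (2 ^ m), x m k ^ 2) *
        Real.sqrt (∑ n ∈ Finset.range N, ∑ j ∈ Finset.range (2 ^ n), y n j ^ 2))
    (hadj : ∀ (S W x y : ℕ → ℕ → ℝ),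
    (∀ l k, 0 ≤ S l k) → (∀ l k, 0 ≤ W l k) → (∀ l k, 0 ≤ x l k) → (∀ l k, 0 ≤ y l k) →
    (∀ l k, S (l + 1) (2 * k) + S (l + 1) (2 * k + 1) ≤ S l k) →
    (∀ l k, W (l + 1) (2 * k) + W (l + 1) (2 * k + 1) ≤ W l k) →
    (∀ l a b, a < 2 ^ l → b < 2 ^ l → near l a b → S l a * W l b ≤ (16 * A) * (1 / 16 : ℝ) ^ l) →
    ∑ n ∈ Finset.range N, ∑ j ∈ Finset.range (2 ^ n), ∑ m ∈ Finset.range (n + 1),
      ∑ k ∈ (Finset.range (2 ^ m)).filter (fun k => near m k (j / 2 ^ (n - m))),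
        (1 / 2 : ℝ) ^ ((n - m) / 4) * 4 ^ m * Real.sqrt (S m k * W n j) * x m k * y n j ≤
      Ca * Real.sqrt (16 * A) *
        Real.sqrt (∑ m ∈ Finset.range N, ∑ k ∈ Finset.range (2 ^ m), x m k ^ 2) *
        Real.sqrt (∑ n ∈ Finset.range N, ∑ j ∈ Finset.range (2 ^ n), y n j ^ 2))
    (hns : ∀ (x y : ℕ → ℕ → ℝ),
    (∀ l k, 0 ≤ x l k) → (∀ l k, 0 ≤ y l k) →
    ∑ n ∈ Finset.range N, ∑ j ∈ Finset.range (2 ^ n),
      ∑ m ∈ (Finset.range (n + 1)).filter (fun m => n ≤ m + 24),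
      ∑ k ∈ (Finset.range (2 ^ m)).filter (fun k => near m k (j / 2 ^ (n - m))),
        x m k * y n j ≤
      Cr * Real.sqrt (∑ m ∈ Finset.range N, ∑ k ∈ Finset.range (2 ^ m), x m k ^ 2) *
        Real.sqrt (∑ n ∈ Finset.range N, ∑ j ∈ Finset.range (2 ^ n), y n j ^ 2)) :
    ‖∑ n ∈ Finset.range N, (ε n : ℂ) * ∑ j ∈ (Finset.range (2 ^ n)).filter (fun j => good 24 n j),
      (∑ m ∈ Finset.range n, ∑ k ∈ Finset.range (2 ^ m), BB7123 θ h s w f g n j m k -
      ∑ l ∈ Finset.Icc 1 (n - 24), MT7123 θ h s w f g n j l)‖ ≤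
      2 * (16 * (Cf * Real.sqrt (16 * A)) + Cn * Cr + 128 * (Ca * Real.sqrt (16 * A))) *
        Real.sqrt (∫ x, f x ^ 2 ∂s) * Real.sqrt (∫ x, g x ^ 2 ∂w) := by
  have hS := (H7123_tree θ h H.geo s w f hf)
  have hW := (H7123_tree θ h H.geo w s g hg)
  have hX := H7123_X θ h H.geo s f hf N
  have hY := H7123_X θ h H.geo w g hg N
  have a1 := hfar (ms θ h s) (ms θ h w) (Xd7123 θ h s f) (Xd7123 θ h w g) hS.S0 hW.S0 (H7123_Xd0 θ h s f)
    (H7123_Xd0 θ h w g) hS.Ssub hW.Ssub (fun l a b ha hb hn => H7123_A2 θ h H.geo s w A hA H.a2 l a b ha hb hn)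
  have a2 := hadj (ms θ h s) (ms θ h w) (Xd7123 θ h s f) (Xd7123 θ h w g) hS.S0 hW.S0 (H7123_Xd0 θ h s f)
    (H7123_Xd0 θ h w g) hS.Ssub hW.Ssub (fun l a b ha hb hn => H7123_A2 θ h H.geo s w A hA H.a2 l a b ha hb hn)
  have a3 := hns (Xd7123 θ h s f) (Xd7123 θ h w g) (H7123_Xd0 θ h s f) (H7123_Xd0 θ h w g)
  set PF := Real.sqrt (∑ m ∈ Finset.range N, ∑ k ∈ Finset.range (2 ^ m), Xd7123 θ h s f m k ^ 2)
  set PG := Real.sqrt (∑ m ∈ Finset.range N, ∑ k ∈ Finset.range (2 ^ m), Xd7123 θ h w g m k ^ 2)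
  set FF := Real.sqrt (∫ x, f x ^ 2 ∂s)
  set GG := Real.sqrt (∫ x, g x ^ 2 ∂w)
  have hPF : 0 ≤ PF := Real.sqrt_nonneg _
  have hPG : 0 ≤ PG := Real.sqrt_nonneg _
  have hFG : PF * PG ≤ FF * GG := mul_le_mul hX hY hPG (Real.sqrt_nonneg _)
  -- bound every term
  have hterm : ∀ n, ‖(ε n : ℂ) * ∑ j ∈ (Finset.range (2 ^ n)).filter (fun j => good 24 n j),
      (∑ m ∈ Finset.range n, ∑ k ∈ Finset.range (2 ^ m), BB7123 θ h s w f g n j m k -
      ∑ l ∈ Finset.Icc 1 (n - 24), MT7123 θ h s w f g n j l)‖ ≤ 2 * ∑ j ∈ Finset.range (2 ^ n),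
      (16 * ∑ m ∈ Finset.range (n + 1), ∑ k ∈ (Finset.range (2 ^ m)).filter (fun k => ¬ near m k (j / 2 ^ (n - m))),
        FT7123 θ h s w f g n j m k +
      Cn * ∑ m ∈ (Finset.range (n + 1)).filter (fun m => n ≤ m + 24),
        ∑ k ∈ (Finset.range (2 ^ m)).filter (fun k => near m k (j / 2 ^ (n - m))),
        Xd7123 θ h s f m k * Xd7123 θ h w g n j +
      128 * ∑ m ∈ Finset.range (n + 1), ∑ k ∈ (Finset.range (2 ^ m)).filter (fun k => near m k (j / 2 ^ (n - m))),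
        AT7123 θ h s w f g n j m k) := by
    intro n
    rw [norm_mul, Complex.norm_real, Real.norm_eq_abs]
    refine mul_le_mul (hε n) ?_ (norm_nonneg _) (by norm_num)
    refine (norm_sum_le _ _).trans ?_
    refine le_trans (Finset.sum_le_sum fun j hj => ?_) (Finset.sum_le_sum_of_subset_of_nonneg
      (Finset.filter_subset (fun j => good 24 n j) (Finset.range (2 ^ n))) fun j _ _ => ?_)
    · rw [Finset.mem_filter, Finset.mem_range] at hj
      exact H7123_pernj θ h H.geo s w f g hf hg C0 Cn hCn H.tst hnear n j hj.1 hj.2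
    · have h1 : 0 ≤ ∑ m ∈ Finset.range (n + 1), ∑ k ∈ (Finset.range (2 ^ m)).filter (fun k => ¬ near m k (j / 2 ^ (n - m))),
        FT7123 θ h s w f g n j m k := Finset.sum_nonneg fun m _ => Finset.sum_nonneg fun k _ => H7123_FT0 θ h s w f g n j m k
      have h2 : 0 ≤ ∑ m ∈ Finset.range (n + 1), ∑ k ∈ (Finset.range (2 ^ m)).filter (fun k => near m k (j / 2 ^ (n - m))),
        AT7123 θ h s w f g n j m k := Finset.sum_nonneg fun m _ => Finset.sum_nonneg fun k _ => H7123_AT0 θ h s w f g n j m k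
      have h3 : 0 ≤ ∑ m ∈ (Finset.range (n + 1)).filter (fun m => n ≤ m + 24),
        ∑ k ∈ (Finset.range (2 ^ m)).filter (fun k => near m k (j / 2 ^ (n - m))),
        Xd7123 θ h s f m k * Xd7123 θ h w g n j := Finset.sum_nonneg fun m _ => Finset.sum_nonneg fun k _ =>
          mul_nonneg (H7123_Xd0 θ h s f m k) (H7123_Xd0 θ h w g n j)
      positivity
  refine (norm_sum_le _ _).trans ((Finset.sum_le_sum fun n _ => hterm n).trans ?_)
  simp only [Finset.sum_add_distrib, ← Finset.mul_sum]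
  change ∑ n ∈ Finset.range N, ∑ j ∈ Finset.range (2 ^ n), ∑ m ∈ Finset.range (n + 1),
      ∑ k ∈ (Finset.range (2 ^ m)).filter (fun k => ¬ near m k (j / 2 ^ (n - m))),
        FT7123 θ h s w f g n j m k ≤ _ at a1
  change ∑ n ∈ Finset.range N, ∑ j ∈ Finset.range (2 ^ n), ∑ m ∈ Finset.range (n + 1),
      ∑ k ∈ (Finset.range (2 ^ m)).filter (fun k => near m k (j / 2 ^ (n - m))),
        AT7123 θ h s w f g n j m k ≤ _ at a2
  have hsA : 0 ≤ Real.sqrt (16 * A) := Real.sqrt_nonneg _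
  have b1 : Cf * Real.sqrt (16 * A) * PF * PG ≤ Cf * Real.sqrt (16 * A) * (FF * GG) := by
    rw [mul_assoc]; exact mul_le_mul_of_nonneg_left hFG (by positivity)
  have b2 : Ca * Real.sqrt (16 * A) * PF * PG ≤ Ca * Real.sqrt (16 * A) * (FF * GG) := by
    rw [mul_assoc]; exact mul_le_mul_of_nonneg_left hFG (by positivity)
  have b3 : Cn * (Cr * PF * PG) ≤ Cn * (Cr * (FF * GG)) := by
    rw [mul_assoc]; exact mul_le_mul_of_nonneg_left (mul_le_mul_of_nonneg_left hFG hCr) hCn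
  have b4 := mul_le_mul_of_nonneg_left a3 hCn
  linarith

theorem half_estimate (C0 A : ℝ) (hC : 0 ≤ C0) (hA : 0 ≤ A) : ∃ C : ℝ, 0 ≤ C ∧
    ∀ (θ h : X → ℝ) (s w : Measure X) [IsFiniteMeasure s] [IsFiniteMeasure w],
    Hyp θ h s w C0 A → ∀ f g : X → ℝ, Bdd f → Bdd g → ∀ (N : ℕ) (ε : ℕ → ℝ), (∀ n, |ε n| ≤ 2) →
    ‖∑ n ∈ Finset.range N, (ε n : ℂ) *
        ∑ j ∈ Finset.range (2 ^ n), (if good 24 n j then (1 : ℂ) else 0) *
          Bf θ h s w (Ex θ h s n f) (Dl θ h w n j g)‖ ≤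
      C * Real.sqrt (∫ x, f x ^ 2 ∂s) * Real.sqrt (∫ x, g x ^ 2 ∂w) := by
  obtain ⟨CP, hCP, hpiv⟩ := pivotal (X := X) C0 A hC hA
  obtain ⟨Cn, hCn, hnear⟩ := B_near (X := X) C0 A hC hA
  obtain ⟨Cf, hCf, hfar⟩ := far_sum
  obtain ⟨Ca, hCa, hadj⟩ := adj_sum
  obtain ⟨Cr, hCr, hns⟩ := near_sum 24
  obtain ⟨Cm, hCm, hmain⟩ := main_term 24 C0 16 CP hC (by norm_num) hCP
  refine ⟨2 * Real.sqrt C0 + Cm + 2 * (16 * (Cf * Real.sqrt (16 * A)) + Cn * Cr + 128 * (Ca * Real.sqrt (16 * A))),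
    by positivity, ?_⟩
  intro θ h s w _ _ H f g hf hg N ε hε
  have hR := H7123_rem θ h s w C0 A hA H f g hf hg Cn Cf Ca Cr hCn hCf hCa hCr
    (fun n j m k hj hk hmn hn => hnear θ h s w H f g hf hg n j m k hj hk hmn hn) N ε hε
    (fun S W x y => hfar N (16 * A) S W x y (by positivity)) (fun S W x y => hadj N (16 * A) S W x y (by positivity))
    (fun x y => hns N x y)
  have hTop := H7123_top θ h H.geo s w f g hf hg C0 hC H.tst N ε hε
  have hM := hmain N (ms θ h s) (fun l k => ∫ x in Q θ h l k, |f x| ∂s) (fun l k => ∫ x in Q θ h l k, f x ^ 2 ∂s)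
    (fun l k => (w (Gd θ h l k)).toReal) (H7123_tree θ h H.geo s w f hf) (hpiv θ h s w H)
    (avg θ h s f) (Xd7123 θ h w g) (ms θ h w)
    (fun n j l => Bf θ h s w ((Q θ h l (j / 2 ^ (n - l))).indicator 1) (Dl θ h w n j g)) ε (good 24) hε ?_
    (H7123_avgsum θ h H.geo s f hf N) (H7123_Xd0 θ h w g) (fun n j => ENNReal.toReal_nonneg)
    (fun l k i hi hk => H7123_Wsum θ h H.geo w l k i hi) ?_
    (fun n j t _ hj hgd ht htn => H7123_diff θ h H.geo s w g hg C0 H.tst n j t hj hgd ht htn)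
  · have e0 : ∫ x in Q θ h 0 0, f x ^ 2 ∂s = ∫ x, f x ^ 2 ∂s := by rw [Q_zero H.geo, Measure.restrict_univ]
    have hY := H7123_X θ h H.geo w g hg N
    have hM' : ‖∑ n ∈ Finset.range N, (ε n : ℂ) * ∑ j ∈ (Finset.range (2 ^ n)).filter (fun j => good 24 n j),
      ∑ l ∈ Finset.Icc 1 (n - 24), MT7123 θ h s w f g n j l‖ ≤
      Cm * Real.sqrt (∫ x, f x ^ 2 ∂s) * Real.sqrt (∫ x, g x ^ 2 ∂w) := by
      rw [← e0]
      refine le_trans hM ?_
      exact mul_le_mul_of_nonneg_left hY (by positivity)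
    have esplit : ∑ n ∈ Finset.range N, (ε n : ℂ) *
        ∑ j ∈ Finset.range (2 ^ n), (if good 24 n j then (1 : ℂ) else 0) *
          Bf θ h s w (Ex θ h s n f) (Dl θ h w n j g) =
        ∑ n ∈ Finset.range N, (ε n : ℂ) * ∑ j ∈ Finset.range (2 ^ n), (if good 24 n j then (1 : ℂ) else 0) *
          ((avg θ h s f 0 0 : ℂ) * Bf θ h s w ((Q θ h 0 0).indicator 1) (Dl θ h w n j g)) +
        ∑ n ∈ Finset.range N, (ε n : ℂ) * ∑ j ∈ (Finset.range (2 ^ n)).filter (fun j => good 24 n j),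
          ∑ l ∈ Finset.Icc 1 (n - 24), MT7123 θ h s w f g n j l +
        ∑ n ∈ Finset.range N, (ε n : ℂ) * ∑ j ∈ (Finset.range (2 ^ n)).filter (fun j => good 24 n j),
          (∑ m ∈ Finset.range n, ∑ k ∈ Finset.range (2 ^ m), BB7123 θ h s w f g n j m k -
          ∑ l ∈ Finset.Icc 1 (n - 24), MT7123 θ h s w f g n j l) := by
      rw [← Finset.sum_add_distrib, ← Finset.sum_add_distrib]
      refine Finset.sum_congr rfl fun n _ => ?_
      rw [← mul_add, ← mul_add, Finset.sum_filter, Finset.sum_filter, ← Finset.sum_add_distrib,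
        ← Finset.sum_add_distrib]
      congr 1
      refine Finset.sum_congr rfl fun j _ => ?_
      by_cases hgd : good 24 n j
      · rw [if_pos hgd, if_pos hgd, if_pos hgd, one_mul, one_mul,
          B_expand θ h H.geo s w C0 H.tst f (Dl θ h w n j g) hf (bdd_Dl H.geo w hg n j) n]
        unfold BB7123
        ring
      · rw [if_neg hgd, if_neg hgd, if_neg hgd]
        ring
    rw [esplit]
    refine (norm_add₃_le).trans ?_
    linarith
  · intro l k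
    unfold avg
    rw [abs_div, abs_of_nonneg (show (0 : ℝ) ≤ (s (Q θ h l k)).toReal from ENNReal.toReal_nonneg)]
    refine div_le_div_of_nonneg_right ?_ ENNReal.toReal_nonneg
    have := norm_integral_le_integral_norm (μ := s.restrict (Q θ h l k)) f
    simpa only [Real.norm_eq_abs] using this
  · intro l k hk I hI c hc
    have hb := B_test θ h H.geo s w C0 hC H.tst g hg l k hk I hI c
    have e1 : ∑ p ∈ I, (c p : ℂ) * Bf θ h s w ((Q θ h l (p.2 / 2 ^ (p.1 - l))).indicator 1) (Dl θ h w p.1 p.2 g) =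
        ∑ p ∈ I, (c p : ℂ) * Bf θ h s w ((Q θ h l k).indicator 1) (Dl θ h w p.1 p.2 g) :=
      Finset.sum_congr rfl fun p hp => by rw [(hc p hp).2]
    have e2 : ∑ p ∈ I, c p ^ 2 * Xd7123 θ h w g p.1 p.2 ^ 2 =
        ∑ p ∈ I, c p ^ 2 * ∫ x, Dl θ h w p.1 p.2 g x ^ 2 ∂w :=
      Finset.sum_congr rfl fun p hp => by
        unfold Xd7123
        rw [Real.sq_sqrt (integral_nonneg fun x => sq_nonneg _)]
    rw [e1, e2]
    exact hb

end

end Pool.Agent.Helper807.BT
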