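import Pool.Agent.Helper807.BT.Base
import Pool.Agent.Helper807.BT.A2T
import Pool.Agent.Helper807.BT.Adj
import Pool.Agent.Helper807.BT.BLin
import Pool.Agent.Helper807.BT.Bas
import Pool.Agent.Helper807.BT.Count
import Pool.Agent.Helper807.BT.Diag
import Pool.Agent.Helper807.BT.Half
import Pool.Agent.Helper807.BT.Rot

set_option autoImplicit false

open MeasureTheory Set
open scoped ENNReal

namespace Pool.Agent.Helper807.BT

noncomputable section

variable {X : Type*} [MeasurableSpace X]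


/-! auxiliary lemmas for `main_bdd` -/

theorem Ex_self_7128 (θ h : X → ℝ) (s : Measure X) (f : X → ℝ) (N : ℕ)
    (hf : ∀ x, h x ≤ (1 / 2 : ℝ) ^ N → f x = 0) : Ex θ h s N f = f := by
  funext x
  unfold Ex
  split_ifs with hx
  · unfold avg
    rw [hf x hx]
    have : ∫ y in Q θ h N (col θ N x), f y ∂s = 0 := by
      apply setIntegral_eq_zero_of_forall_eq_zero
      intro y hy
      exact hf y hy.2
    rw [this, zero_div]
  · rfl

theorem lowConst_Ex_7128 {θ h : X → ℝ} (geo : Geo θ h) (s : Measure X) (f : X → ℝ) {a N : ℕ}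
    (haN : a ≤ N) : LowConst θ h N (Ex θ h s a f) := by
  intro x y hx hy hxy
  have h1 : (1 / 2 : ℝ) ^ N ≤ (1 / 2 : ℝ) ^ a :=
    pow_le_pow_of_le_one (by norm_num) (by norm_num) haN
  have h2 : col θ a x = col θ a y := by
    rw [← col_div geo haN x, ← col_div geo haN y, hxy]
  unfold Ex
  rw [if_pos (hx.trans h1), if_pos (hy.trans h1), h2]

theorem step_right_7128 {θ h : X → ℝ} (geo : Geo θ h) (s w : Measure X) [IsFiniteMeasure s]
    [IsFiniteMeasure w] {C0 : ℝ} (hT : Testing θ h s w C0) {f g : X → ℝ} (hf : Bdd f) (hg : Bdd g)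
    (m n : ℕ) :
    Bf θ h s w (Ex θ h s m f) (Ex θ h w (n + 1) g) =
      Bf θ h s w (Ex θ h s m f) (Ex θ h w n g) +
        ∑ j ∈ Finset.range (2 ^ n), Bf θ h s w (Ex θ h s m f) (Dl θ h w n j g) := by
  rw [B_expand_right θ h geo s w C0 hT f g hf hg m (n + 1),
    B_expand_right θ h geo s w C0 hT f g hf hg m n, Finset.sum_range_succ]
  ring

theorem step_left_7128 {θ h : X → ℝ} (geo : Geo θ h) (s w : Measure X) [IsFiniteMeasure s]
    [IsFiniteMeasure w] {C0 : ℝ} (hT : Testing θ h s w C0) {f g : X → ℝ} (hf : Bdd f) (hg : Bdd g)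
    (n : ℕ) :
    Bf θ h s w (Ex θ h s (n + 1) f) g =
      Bf θ h s w (Ex θ h s n f) g +
        ∑ k ∈ Finset.range (2 ^ n), Bf θ h s w (Dl θ h s n k f) g := by
  rw [B_expand θ h geo s w C0 hT f g hf hg (n + 1),
    B_expand θ h geo s w C0 hT f g hf hg n, Finset.sum_range_succ]
  ring

/-- half of the off-diagonal part, level `n` -/
def TT_7128 (θ h : X → ℝ) (s w : Measure X) (f g : X → ℝ) (n : ℕ) : ℂ :=
  ∑ j ∈ Finset.range (2 ^ n), Bf θ h s w (Ex θ h s n f) (Dl θ h w n j g)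

/-- diagonal part, level `n` -/
def DG_7128 (θ h : X → ℝ) (s w : Measure X) (f g : X → ℝ) (n : ℕ) : ℂ :=
  ∑ k ∈ Finset.range (2 ^ n), ∑ j ∈ Finset.range (2 ^ n),
    Bf θ h s w (Dl θ h s n k f) (Dl θ h w n j g)

theorem tele_7128 {θ h : X → ℝ} (geo : Geo θ h) (s w : Measure X) [IsFiniteMeasure s]
    [IsFiniteMeasure w] {C0 : ℝ} (hC : 0 ≤ C0) (hT : Testing θ h s w C0)
    (hT' : Testing θ h w s C0) {f g : X → ℝ} (hf : Bdd f) (hg : Bdd g) (N : ℕ) :
    Bf θ h s w (Ex θ h s N f) (Ex θ h w N g) =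
      Bf θ h s w (Ex θ h s 0 f) (Ex θ h w 0 g) +
        ∑ n ∈ Finset.range N, (TT_7128 θ h s w f g n +
          (starRingEnd ℂ) (TT_7128 θ h w s g f n) + DG_7128 θ h s w f g n) := by
  induction N with
  | zero => simp
  | succ n ih =>
    rw [Finset.sum_range_succ, ← add_assoc, ← ih]
    have h1 := step_right_7128 geo s w hT hf hg (n + 1) n
    have h2 := step_right_7128 geo w s hT' hg hf n n
    have h3 : Bf θ h s w (Ex θ h s (n + 1) f) (Ex θ h w n g) =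
        (starRingEnd ℂ) (Bf θ h w s (Ex θ h w n g) (Ex θ h s (n + 1) f)) :=
      adjoint θ h geo s w C0 hC hT hT' _ _ (bdd_Ex geo s hf (n + 1)) (bdd_Ex geo w hg n) (n + 1)
        (lowConst_Ex_7128 geo s f le_rfl) (lowConst_Ex_7128 geo w g (Nat.le_succ n))
    have h4 : Bf θ h s w (Ex θ h s n f) (Ex θ h w n g) =
        (starRingEnd ℂ) (Bf θ h w s (Ex θ h w n g) (Ex θ h s n f)) :=
      adjoint θ h geo s w C0 hC hT hT' _ _ (bdd_Ex geo s hf n) (bdd_Ex geo w hg n) n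
        (lowConst_Ex_7128 geo s f le_rfl) (lowConst_Ex_7128 geo w g le_rfl)
    have h5 : ∑ j ∈ Finset.range (2 ^ n), Bf θ h s w (Ex θ h s (n + 1) f) (Dl θ h w n j g) =
        TT_7128 θ h s w f g n + DG_7128 θ h s w f g n := by
      unfold TT_7128 DG_7128
      rw [Finset.sum_comm (s := Finset.range (2 ^ n)) (t := Finset.range (2 ^ n))
        (f := fun k j => Bf θ h s w (Dl θ h s n k f) (Dl θ h w n j g)), ← Finset.sum_add_distrib]
      apply Finset.sum_congr rfl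
      intro j _
      exact step_left_7128 geo s w hT hf (bdd_Dl geo w hg n j) n
    rw [h1, h5, h3, h2, map_add, ← h4]
    unfold TT_7128
    ring

theorem bdd_one_7128 {θ h : X → ℝ} (geo : Geo θ h) :
    Bdd ((Q θ h 0 0).indicator (1 : X → ℝ)) := by
  refine ⟨measurable_one.indicator (measurableSet_Q geo 0 0), 1, ?_⟩
  intro x
  by_cases hx : x ∈ Q θ h 0 0
  · rw [Set.indicator_of_mem hx]; simp
  · rw [Set.indicator_of_notMem hx]; simp

theorem bdd_int_7128 (s : Measure X) [IsFiniteMeasure s] {f : X → ℝ} (hf : Bdd f) :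
    Integrable f s := by
  obtain ⟨hm, C, hC⟩ := hf
  exact Integrable.of_bound hm.aestronglyMeasurable C (Filter.Eventually.of_forall (fun x => by
    rw [Real.norm_eq_abs]; exact hC x))

theorem bdd_sq_int_7128 (s : Measure X) [IsFiniteMeasure s] {f : X → ℝ} (hf : Bdd f) :
    Integrable (fun x => f x ^ 2) s := by
  obtain ⟨hm, C, hC⟩ := hf
  refine Integrable.of_bound (hm.pow_const 2).aestronglyMeasurable (C ^ 2)
    (Filter.Eventually.of_forall (fun x => ?_))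
  rw [Real.norm_eq_abs, abs_pow]
  exact pow_le_pow_left₀ (abs_nonneg _) (hC x) 2

/-- Cauchy–Schwarz for the mean -/
theorem avg_bound_7128 {θ h : X → ℝ} (geo : Geo θ h) (s : Measure X) [IsFiniteMeasure s]
    {f : X → ℝ} (hf : Bdd f) :
    |avg θ h s f 0 0| * Real.sqrt (s Set.univ).toReal ≤ Real.sqrt (∫ x, f x ^ 2 ∂s) := by
  unfold avg
  rw [Q_zero geo, Measure.restrict_univ]
  set M := (s Set.univ).toReal with hM
  have hM0 : 0 ≤ M := ENNReal.toReal_nonneg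
  rcases hM0.eq_or_lt with h0 | h0
  · rw [← h0]
    simp [Real.sqrt_nonneg]
  · have hi := bdd_int_7128 s hf
    have hi2 := bdd_sq_int_7128 s hf
    set I := ∫ x, f x ∂s with hI
    have h1 : 0 ≤ ∫ x, (f x - I / M) ^ 2 ∂s := integral_nonneg (fun x => sq_nonneg _)
    have h2 : ∫ x, (f x - I / M) ^ 2 ∂s = (∫ x, f x ^ 2 ∂s) - I ^ 2 / M := by
      have h3 : ∀ x, (f x - I / M) ^ 2 = f x ^ 2 - 2 * (I / M) * f x + (I / M) ^ 2 := by
        intro x; ring
      simp_rw [h3]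
      have e1 : ∫ x, (f x ^ 2 - 2 * (I / M) * f x + (I / M) ^ 2) ∂s =
          ∫ x, (f x ^ 2 - 2 * (I / M) * f x) ∂s + ∫ _x, (I / M) ^ 2 ∂s :=
        integral_add (hi2.sub (hi.const_mul _)) (integrable_const _)
      have e2 : ∫ x, (f x ^ 2 - 2 * (I / M) * f x) ∂s =
          ∫ x, f x ^ 2 ∂s - ∫ x, 2 * (I / M) * f x ∂s := integral_sub hi2 (hi.const_mul _)
      rw [e1, e2, integral_const_mul, integral_const, ← hI]
      simp only [smul_eq_mul]
      rw [Measure.real, ← hM]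
      field_simp
      ring
    rw [h2] at h1
    have h3 : I ^ 2 / M ≤ ∫ x, f x ^ 2 ∂s := by linarith
    apply Real.le_sqrt_of_sq_le
    rw [mul_pow, sq_abs, Real.sq_sqrt hM0, div_pow]
    calc I ^ 2 / M ^ 2 * M = I ^ 2 / M := by field_simp
      _ ≤ _ := h3

theorem pop_meas_7128 {θ h : X → ℝ} (geo : Geo θ h) (s : Measure X) [IsFiniteMeasure s]
    {f : X → ℝ} (hf : Bdd f) : StronglyMeasurable (Pop θ h s f) := by
  have h1 : StronglyMeasurable (fun p : X × X => K θ h p.1 p.2 * ((f p.2 : ℝ) : ℂ)) := by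
    apply Measurable.stronglyMeasurable
    exact (measurable_K geo).mul (Complex.measurable_ofReal.comp (hf.1.comp measurable_snd))
  exact h1.integral_prod_right

theorem one_bound_7128 {θ h : X → ℝ} (geo : Geo θ h) (s w : Measure X) [IsFiniteMeasure s]
    [IsFiniteMeasure w] {C0 : ℝ} (hC : 0 ≤ C0) (hT : Testing θ h s w C0) :
    ‖Bf θ h s w ((Q θ h 0 0).indicator 1) ((Q θ h 0 0).indicator 1)‖ ≤
      Real.sqrt C0 * Real.sqrt (s Set.univ).toReal * Real.sqrt (w Set.univ).toReal := by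
  have hbox : arcBox θ h 0 1 = Set.univ := by
    have := Q_eq_arcBox geo 0 0 (by norm_num)
    rw [Q_zero geo] at this
    rw [this]
    norm_num
  have ht := hT 0 1 one_pos le_rfl
  rw [hbox] at ht
  rw [Q_zero geo]
  have hb : Bdd ((Set.univ : Set X).indicator (1 : X → ℝ)) := by
    have := bdd_one_7128 geo
    rwa [Q_zero geo] at this
  set P := Pop θ h s ((Set.univ : Set X).indicator 1) with hP
  have hPm : StronglyMeasurable P := pop_meas_7128 geo s hb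
  have e1 : ‖Bf θ h s w ((Set.univ : Set X).indicator 1) ((Set.univ : Set X).indicator 1)‖ₑ ≤
      ∫⁻ x, ‖P x‖ₑ ∂w := by
    unfold Bf
    rw [← hP]
    refine (enorm_integral_le_lintegral_enorm _).trans (le_of_eq ?_)
    apply lintegral_congr
    intro x
    simp
  have e2 : ∫⁻ x, ‖P x‖ₑ ∂w ≤ (∫⁻ x, ‖P x‖ₑ ^ 2 ∂w) ^ (1 / 2 : ℝ) * (w Set.univ) ^ (1 / 2 : ℝ) := by
    have := ENNReal.lintegral_mul_le_Lp_mul_Lq w (Real.HolderConjugate.two_two)
      (f := fun x => ‖P x‖ₑ) (g := fun _ => 1) hPm.measurable.enorm.aemeasurable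
      aemeasurable_const
    simpa using this
  have e3 : (∫⁻ x, ‖P x‖ₑ ^ 2 ∂w) ^ (1 / 2 : ℝ) * (w Set.univ) ^ (1 / 2 : ℝ) ≤
      (ENNReal.ofReal C0 * s Set.univ) ^ (1 / 2 : ℝ) * (w Set.univ) ^ (1 / 2 : ℝ) := by
    gcongr
  have e4 : (ENNReal.ofReal C0 * s Set.univ) ^ (1 / 2 : ℝ) * (w Set.univ) ^ (1 / 2 : ℝ) =
      ENNReal.ofReal (Real.sqrt C0 * Real.sqrt (s Set.univ).toReal *
        Real.sqrt (w Set.univ).toReal) := by
    rw [ENNReal.ofReal_mul (by positivity), ENNReal.ofReal_mul (by positivity),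
      ENNReal.mul_rpow_of_nonneg _ _ (by norm_num)]
    congr 1
    · congr 1
      · rw [Real.sqrt_eq_rpow, ENNReal.ofReal_rpow_of_nonneg hC (by norm_num)]
      · rw [Real.sqrt_eq_rpow, ← ENNReal.ofReal_rpow_of_nonneg ENNReal.toReal_nonneg (by norm_num),
          ENNReal.ofReal_toReal (measure_ne_top s _)]
    · rw [Real.sqrt_eq_rpow, ← ENNReal.ofReal_rpow_of_nonneg ENNReal.toReal_nonneg (by norm_num),
          ENNReal.ofReal_toReal (measure_ne_top w _)]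
  have e5 := ((e1.trans e2).trans e3).trans (le_of_eq e4)
  rw [← ofReal_norm] at e5
  exact (ENNReal.ofReal_le_ofReal_iff (by positivity)).mp e5

theorem first_7128 {θ h : X → ℝ} (geo : Geo θ h) (s w : Measure X) [IsFiniteMeasure s]
    [IsFiniteMeasure w] {C0 : ℝ} (hC : 0 ≤ C0) (hT : Testing θ h s w C0)
    {f g : X → ℝ} (hf : Bdd f) (hg : Bdd g) :
    ‖Bf θ h s w (Ex θ h s 0 f) (Ex θ h w 0 g)‖ ≤
      Real.sqrt C0 * Real.sqrt (∫ x, f x ^ 2 ∂s) * Real.sqrt (∫ x, g x ^ 2 ∂w) := by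
  have h1 := B_expand_right θ h geo s w C0 hT f g hf hg 0 0
  have h2 := B_expand θ h geo s w C0 hT f _ hf (bdd_one_7128 geo) 0
  rw [Finset.sum_range_zero, add_zero] at h1 h2
  rw [h1, h2, norm_mul, norm_mul, Complex.norm_real, Complex.norm_real, Real.norm_eq_abs,
    Real.norm_eq_abs]
  have h3 := one_bound_7128 geo s w hC hT
  have h4 := avg_bound_7128 geo s hf
  have h5 := avg_bound_7128 geo w hg
  calc |avg θ h w g 0 0| * (|avg θ h s f 0 0| *
        ‖Bf θ h s w ((Q θ h 0 0).indicator 1) ((Q θ h 0 0).indicator 1)‖)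
      ≤ |avg θ h w g 0 0| * (|avg θ h s f 0 0| *
        (Real.sqrt C0 * Real.sqrt (s Set.univ).toReal * Real.sqrt (w Set.univ).toReal)) := by
        gcongr
    _ = Real.sqrt C0 * (|avg θ h s f 0 0| * Real.sqrt (s Set.univ).toReal) *
        (|avg θ h w g 0 0| * Real.sqrt (w Set.univ).toReal) := by ring
    _ ≤ Real.sqrt C0 * Real.sqrt (∫ x, f x ^ 2 ∂s) * Real.sqrt (∫ x, g x ^ 2 ∂w) := by
        gcongr

theorem half_sum_7128 {C0 A C1 : ℝ}
    (hC1 : ∀ (θ h : X → ℝ) (s w : Measure X) [IsFiniteMeasure s] [IsFiniteMeasure w],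
      Hyp θ h s w C0 A → ∀ f g : X → ℝ, Bdd f → Bdd g → ∀ (N : ℕ) (ε : ℕ → ℝ),
      (∀ n, |ε n| ≤ 2) →
      ‖∑ n ∈ Finset.range N, (ε n : ℂ) *
          ∑ j ∈ Finset.range (2 ^ n), (if good 24 n j then (1 : ℂ) else 0) *
            Bf θ h s w (Ex θ h s n f) (Dl θ h w n j g)‖ ≤
        C1 * Real.sqrt (∫ x, f x ^ 2 ∂s) * Real.sqrt (∫ x, g x ^ 2 ∂w))
    {θ h : X → ℝ} {s w : Measure X} [IsFiniteMeasure s] [IsFiniteMeasure w]
    (H : Hyp θ h s w C0 A) {f g : X → ℝ} (hf : Bdd f) (hg : Bdd g) (N : ℕ) :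
    ‖∑ m ∈ Finset.range (2 ^ N), ∑ n ∈ Finset.range N,
        TT_7128 (rot θ ((m : ℝ) / 2 ^ N)) h s w f g n‖ ≤
      2 ^ N * (C1 * Real.sqrt (∫ x, f x ^ 2 ∂s) * Real.sqrt (∫ x, g x ^ 2 ∂w)) := by
  set G : ℕ → Finset ℕ := fun n => (Finset.range (2 ^ n)).filter (fun j => good 24 n j) with hG
  set ε : ℕ → ℝ := fun n => (2 : ℝ) ^ n / ((G n).card : ℝ) with hε
  have hcard : ∀ n, (2 : ℝ) ^ n ≤ 2 * ((G n).card : ℝ) := by
    intro n
    have := good_count n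
    have h2 : ((2 ^ n : ℕ) : ℝ) ≤ ((2 * (G n).card : ℕ) : ℝ) := by exact_mod_cast this
    push_cast at h2
    exact h2
  have hpos : ∀ n, (0 : ℝ) < ((G n).card : ℝ) := by
    intro n
    have h1 : (0 : ℝ) < 2 ^ n := by positivity
    have h2 := hcard n
    linarith
  have hε2 : ∀ n, |ε n| ≤ 2 := by
    intro n
    rw [hε, abs_of_nonneg (by positivity)]
    show (2 : ℝ) ^ n / ((G n).card : ℝ) ≤ 2
    rw [div_le_iff₀ (hpos n)]
    exact hcard n
  have hswap : ∑ m ∈ Finset.range (2 ^ N), ∑ n ∈ Finset.range N,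
        TT_7128 (rot θ ((m : ℝ) / 2 ^ N)) h s w f g n =
      ∑ m ∈ Finset.range (2 ^ N), ∑ n ∈ Finset.range N, (ε n : ℂ) *
        ∑ j ∈ Finset.range (2 ^ n), (if good 24 n j then (1 : ℂ) else 0) *
          Bf (rot θ ((m : ℝ) / 2 ^ N)) h s w (Ex (rot θ ((m : ℝ) / 2 ^ N)) h s n f)
            (Dl (rot θ ((m : ℝ) / 2 ^ N)) h w n j g) := by
    rw [Finset.sum_comm]
    conv_rhs => rw [Finset.sum_comm]
    apply Finset.sum_congr rfl
    intro n hn
    have hnN : n ≤ N := (Finset.mem_range.mp hn).le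
    have hr := rot_avg θ h H.geo s w f g hf hg N n hnN (G n) (Finset.filter_subset _ _)
    have hc : ((G n).card : ℂ) ≠ 0 := by
      have := (hpos n).ne'
      exact_mod_cast this
    rw [← Finset.mul_sum]
    have h1 : ∀ m : ℕ, ∑ j ∈ Finset.range (2 ^ n), (if good 24 n j then (1 : ℂ) else 0) *
          Bf (rot θ ((m : ℝ) / 2 ^ N)) h s w (Ex (rot θ ((m : ℝ) / 2 ^ N)) h s n f)
            (Dl (rot θ ((m : ℝ) / 2 ^ N)) h w n j g) =
        ∑ j ∈ G n, Bf (rot θ ((m : ℝ) / 2 ^ N)) h s w (Ex (rot θ ((m : ℝ) / 2 ^ N)) h s n f)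
            (Dl (rot θ ((m : ℝ) / 2 ^ N)) h w n j g) := by
      intro m
      rw [hG, Finset.sum_filter]
      apply Finset.sum_congr rfl
      intro j _
      split_ifs <;> simp
    simp_rw [h1]
    have h2 : (ε n : ℂ) = (2 : ℂ) ^ n / ((G n).card : ℂ) := by
      rw [hε]
      push_cast
      rfl
    rw [h2]
    unfold TT_7128
    rw [div_mul_eq_mul_div, eq_div_iff hc, ← hr]
    ring
  rw [hswap]
  refine (norm_sum_le _ _).trans ?_
  have h3 : ∀ m ∈ Finset.range (2 ^ N), ‖∑ n ∈ Finset.range N, (ε n : ℂ) *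
        ∑ j ∈ Finset.range (2 ^ n), (if good 24 n j then (1 : ℂ) else 0) *
          Bf (rot θ ((m : ℝ) / 2 ^ N)) h s w (Ex (rot θ ((m : ℝ) / 2 ^ N)) h s n f)
            (Dl (rot θ ((m : ℝ) / 2 ^ N)) h w n j g)‖ ≤
      C1 * Real.sqrt (∫ x, f x ^ 2 ∂s) * Real.sqrt (∫ x, g x ^ 2 ∂w) := by
    intro m _
    exact hC1 _ _ _ _ (rot_hyp H _) f g hf hg N ε hε2
  refine (Finset.sum_le_sum h3).trans (le_of_eq ?_)
  rw [Finset.sum_const, Finset.card_range, nsmul_eq_mul]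
  push_cast
  ring

theorem main_bdd (θ h : X → ℝ) (geo : Geo θ h) (s w : Measure X) [IsFiniteMeasure s]
    [IsFiniteMeasure w] (C0 : ℝ) (hC : 0 ≤ C0) (hT : Testing θ h s w C0)
    (hT' : Testing θ h w s C0) : ∃ C : ℝ, 0 ≤ C ∧ ∀ f g : X → ℝ, Bdd f → Bdd g → ∀ N : ℕ,
    (∀ x, h x ≤ (1 / 2 : ℝ) ^ N → f x = 0) → (∀ x, h x ≤ (1 / 2 : ℝ) ^ N → g x = 0) →
    ‖Bf θ h s w f g‖ ≤ C * Real.sqrt (∫ x, f x ^ 2 ∂s) * Real.sqrt (∫ x, g x ^ 2 ∂w) := by
  obtain ⟨A, hA0, hA⟩ := A2_of_testing θ h geo s w C0 hC hT hT'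
  have hA' : A2 θ h w s A := by
    intro a l h1 h2
    rw [mul_comm]
    exact hA a l h1 h2
  have H : Hyp θ h s w C0 A := ⟨geo, hT, hA⟩
  have H' : Hyp θ h w s C0 A := ⟨geo, hT', hA'⟩
  obtain ⟨C1, hC10, hC1⟩ := half_estimate (X := X) C0 A hC hA0
  obtain ⟨C2, hC20, hC2⟩ := diag_estimate (X := X) C0 A hC hA0
  refine ⟨Real.sqrt C0 + C1 + C1 + C2, by positivity, ?_⟩
  intro f g hf hg N hfN hgN
  set F := Real.sqrt (∫ x, f x ^ 2 ∂s) with hF
  set Gg := Real.sqrt (∫ x, g x ^ 2 ∂w) with hGg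
  have hmain : (2 : ℂ) ^ N * Bf θ h s w f g =
      ∑ m ∈ Finset.range (2 ^ N), Bf (rot θ ((m : ℝ) / 2 ^ N)) h s w
          (Ex (rot θ ((m : ℝ) / 2 ^ N)) h s 0 f) (Ex (rot θ ((m : ℝ) / 2 ^ N)) h w 0 g) +
      ∑ m ∈ Finset.range (2 ^ N), ∑ n ∈ Finset.range N,
          TT_7128 (rot θ ((m : ℝ) / 2 ^ N)) h s w f g n +
      (starRingEnd ℂ) (∑ m ∈ Finset.range (2 ^ N), ∑ n ∈ Finset.range N,
          TT_7128 (rot θ ((m : ℝ) / 2 ^ N)) h w s g f n) +
      ∑ m ∈ Finset.range (2 ^ N), ∑ n ∈ Finset.range N,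
          DG_7128 (rot θ ((m : ℝ) / 2 ^ N)) h s w f g n := by
    have h1 : (2 : ℂ) ^ N * Bf θ h s w f g =
        ∑ m ∈ Finset.range (2 ^ N), Bf θ h s w f g := by
      rw [Finset.sum_const, Finset.card_range, nsmul_eq_mul]
      push_cast
      rfl
    rw [h1, map_sum, ← Finset.sum_add_distrib, ← Finset.sum_add_distrib,
      ← Finset.sum_add_distrib]
    apply Finset.sum_congr rfl
    intro m _
    rw [← rot_Bf θ h s w ((m : ℝ) / 2 ^ N) f g]
    have h2 := tele_7128 (rot_geo geo ((m : ℝ) / 2 ^ N)) s w hC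
      (rot_hyp H ((m : ℝ) / 2 ^ N)).tst (rot_hyp H' ((m : ℝ) / 2 ^ N)).tst hf hg N
    rw [Ex_self_7128 _ _ _ _ _ hfN, Ex_self_7128 _ _ _ _ _ hgN] at h2
    rw [h2, map_sum, Finset.sum_add_distrib, Finset.sum_add_distrib]
    ring
  have b1 : ‖∑ m ∈ Finset.range (2 ^ N), Bf (rot θ ((m : ℝ) / 2 ^ N)) h s w
          (Ex (rot θ ((m : ℝ) / 2 ^ N)) h s 0 f) (Ex (rot θ ((m : ℝ) / 2 ^ N)) h w 0 g)‖ ≤
      2 ^ N * (Real.sqrt C0 * F * Gg) := by
    refine (norm_sum_le _ _).trans ?_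
    have hb : ∀ m ∈ Finset.range (2 ^ N), ‖Bf (rot θ ((m : ℝ) / 2 ^ N)) h s w
          (Ex (rot θ ((m : ℝ) / 2 ^ N)) h s 0 f) (Ex (rot θ ((m : ℝ) / 2 ^ N)) h w 0 g)‖ ≤
          Real.sqrt C0 * F * Gg := fun m _ =>
      first_7128 (rot_geo geo ((m : ℝ) / 2 ^ N)) s w hC
        (rot_hyp H ((m : ℝ) / 2 ^ N)).tst hf hg
    refine (Finset.sum_le_sum hb).trans (le_of_eq ?_)
    rw [Finset.sum_const, Finset.card_range, nsmul_eq_mul]
    push_cast
    rfl
  have b2 := half_sum_7128 hC1 H hf hg N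
  have b3 := half_sum_7128 hC1 H' hg hf N
  have b4 : ‖∑ m ∈ Finset.range (2 ^ N), ∑ n ∈ Finset.range N,
          DG_7128 (rot θ ((m : ℝ) / 2 ^ N)) h s w f g n‖ ≤ 2 ^ N * (C2 * F * Gg) := by
    refine (norm_sum_le _ _).trans ?_
    have hb : ∀ m ∈ Finset.range (2 ^ N), ‖∑ n ∈ Finset.range N,
          DG_7128 (rot θ ((m : ℝ) / 2 ^ N)) h s w f g n‖ ≤ C2 * F * Gg := fun m _ =>
      hC2 _ _ _ _ (rot_hyp H ((m : ℝ) / 2 ^ N)) f g hf hg N
    refine (Finset.sum_le_sum hb).trans (le_of_eq ?_)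
    rw [Finset.sum_const, Finset.card_range, nsmul_eq_mul]
    push_cast
    rfl
  rw [← hF, ← hGg] at b2 b3
  have h5 : ‖(2 : ℂ) ^ N * Bf θ h s w f g‖ ≤
      2 ^ N * (Real.sqrt C0 * F * Gg) + 2 ^ N * (C1 * F * Gg) + 2 ^ N * (C1 * Gg * F) +
        2 ^ N * (C2 * F * Gg) := by
    rw [hmain]
    refine (norm_add_le _ _).trans (add_le_add ?_ b4)
    refine (norm_add_le _ _).trans (add_le_add ?_ ?_)
    · exact (norm_add_le _ _).trans (add_le_add b1 b2)
    · rw [RCLike.norm_conj]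
      exact b3
  rw [norm_mul, norm_pow, Complex.norm_ofNat] at h5
  have h6 : (0 : ℝ) < 2 ^ N := by positivity
  have h7 : (2 : ℝ) ^ N * ‖Bf θ h s w f g‖ ≤
      2 ^ N * ((Real.sqrt C0 + C1 + C1 + C2) * F * Gg) := by
    refine h5.trans (le_of_eq ?_)
    ring
  exact le_of_mul_le_mul_left h7 h6

end

end Pool.Agent.Helper807.BT
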